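import Mathlib

section

/-!
# Riesz potentials and energies in dimension `n`: definitions

Shared by part (A) (helper30) and part (B) (helper25).
-/

set_option autoImplicit false

open MeasureTheory Set Filter Topology
open scoped ENNReal

namespace Pool.Agent.Lib.MP_6cd19d_an.ND

/-- The Euclidean space. -/
abbrev E (n : ℕ) : Type := EuclideanSpace ℝ (Fin n)

/-- The Riesz potential of exponent `s` of a measure. -/
noncomputable def pot {n : ℕ} (s : ℝ) (μ : Measure (E n)) (x : E n) : ℝ≥0∞ :=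
  ∫⁻ y, (edist x y) ^ (-s) ∂μ

/-- The Riesz energy of exponent `s` (that is `-s`-th moment of the distance). -/
noncomputable def en {n : ℕ} (s : ℝ) (μ : Measure (E n)) : ℝ≥0∞ :=
  ∫⁻ x, ∫⁻ y, (edist x y) ^ (-s) ∂μ ∂μ

/-- Borel probability measures on `K`. -/
def PK {n : ℕ} (K : Set (E n)) (μ : Measure (E n)) : Prop := μ univ = 1 ∧ μ Kᶜ = 0

/-- The minimal energy. -/
noncomputable def infEn {n : ℕ} (s : ℝ) (K : Set (E n)) : ℝ≥0∞ :=
  ⨅ (μ : Measure (E n)) (_ : PK K μ), en s μ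

/-- The maximal energy (for negative exponents). -/
noncomputable def supEn {n : ℕ} (s : ℝ) (K : Set (E n)) : ℝ≥0∞ :=
  ⨆ (μ : Measure (E n)) (_ : PK K μ), en s μ

/-- The minimal logarithmic energy, with the normalisation of the frozen statement. -/
noncomputable def logEn {n : ℕ} (K : Set (E n)) : ℝ≥0∞ :=
  ⨅ (μ : Measure (E n)) (_ : PK K μ),
    ∫⁻ x, ∫⁻ y, (if x = y then (⊤ : ℝ≥0∞) else
      ENNReal.ofReal (Real.log ((Metric.diam K + 1) / dist x y))) ∂μ ∂μ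

/-- The capacities, exactly as in the frozen statement. -/
noncomputable def capf {n : ℕ} (s : ℝ) (K : Set (E n)) : ℝ :=
  if 0 < s then
    ((⨅ (μ : Measure (E n)) (_ : μ univ = 1 ∧ μ Kᶜ = 0),
      ∫⁻ x, ∫⁻ y, (edist x y) ^ (-s) ∂μ ∂μ) ^ (-1 / s)).toReal
  else if s = 0 then
    (if (⨅ (μ : Measure (E n)) (_ : μ univ = 1 ∧ μ Kᶜ = 0),
        ∫⁻ x, ∫⁻ y, (if x = y then (⊤ : ℝ≥0∞) else
          ENNReal.ofReal (Real.log ((Metric.diam K + 1) / dist x y))) ∂μ ∂μ) = ⊤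
      then 0
      else (Metric.diam K + 1) * Real.exp (-((⨅ (μ : Measure (E n))
        (_ : μ univ = 1 ∧ μ Kᶜ = 0),
        ∫⁻ x, ∫⁻ y, (if x = y then (⊤ : ℝ≥0∞) else
          ENNReal.ofReal (Real.log ((Metric.diam K + 1) / dist x y))) ∂μ ∂μ).toReal)))
  else
    ((⨆ (μ : Measure (E n)) (_ : μ univ = 1 ∧ μ Kᶜ = 0),
      ∫⁻ x, ∫⁻ y, (edist x y) ^ (-s) ∂μ ∂μ) ^ (-1 / s)).toReal

theorem capf_pos_def {n : ℕ} {s : ℝ} (hs : 0 < s) (K : Set (E n)) :
    capf s K = (infEn s K ^ (-1 / s)).toReal := by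
  unfold capf
  rw [if_pos hs]
  rfl

theorem capf_neg_def {n : ℕ} {s : ℝ} (hs : s < 0) (K : Set (E n)) :
    capf s K = (supEn s K ^ (-1 / s)).toReal := by
  unfold capf
  rw [if_neg (by linarith), if_neg hs.ne]
  rfl

theorem capf_zero_def {n : ℕ} (K : Set (E n)) :
    capf 0 K = if logEn K = ⊤ then 0
      else (Metric.diam K + 1) * Real.exp (-(logEn K).toReal) := by
  unfold capf
  rw [if_neg (by simp), if_pos rfl]
  rfl

/-- The standard basis vector. -/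
noncomputable def bv {n : ℕ} (i : Fin n) : E n := EuclideanSpace.single i 1

/-- First and pure second derivatives along the coordinate lines: `g i` is the derivative of `f`
at `x` in the direction `i`, `h i` the second derivative along the same line. -/
def HasD2 {n : ℕ} (f : E n → ℝ) (x : E n) (g h : Fin n → ℝ) : Prop :=
  ∀ i, ∃ f' : ℝ → ℝ, (∀ᶠ t in 𝓝 (0 : ℝ), HasDerivAt (fun t => f (x + t • bv i)) (f' t) t) ∧
    f' 0 = g i ∧ HasDerivAt f' (h i) 0

end Pool.Agent.Lib.MP_6cd19d_an.ND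
end

section

section

/-!
# B19: the Gaussian kernel is positive definite; mixtures

`gauss_pd`: `α`, `β` finite measures on a Euclidean space `F` (dimension `N`), `u > 0`. For all `x, y`:
`∫ exp (-2 u ‖x - z‖^2) exp (-2 u ‖z - y‖^2) dz = exp (-u ‖x - y‖^2) * c`, `c = ∫ exp (-4 u ‖w‖^2) dw > 0`
(`‖x-z‖^2 + ‖z-y‖^2 = 2 ‖z - (x+y)/2‖^2 + ‖x-y‖^2 / 2`). So with
`A z = ∫ exp (-2 u ‖x - z‖^2) dα`, `B z` similarly (bounded, integrable in `z`):
`c (J(α,α) + J(β,β) - 2 J(α,β)) = ∫ (A - B)^2 dz ≥ 0` (Fubini).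
`mixture_pd`: let `k ρ = k0 - ∫_{u > 0} w u * (1 - exp (-u ρ)) du` for `0 ≤ ρ ≤ R2`, with `w ≥ 0` measurable and
`u ↦ w u * (1 - exp (-u ρ))` integrable for all these `ρ`. If `α`, `β` are probability measures carried by a
bounded set `S` (`‖x - y‖^2 ≤ R2` for `x, y ∈ S`), then `I(α,α) + I(β,β) - 2 I(α,β) ≥ 0` for
`I(α,β) = ∬ k (‖x-y‖^2) dα dβ`: the constants cancel (`1 + 1 - 2 = 0`), and
`-∬∬ w (1 - e^(-uρ)) (αα + ββ - 2αβ) = ∫ w (J_u(α,α) + J_u(β,β) - 2 J_u(α,β)) du ≥ 0` (Fubini; the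
integrand is dominated by `w u (1 - exp (-u R2))`).
`gp_mixture`: for `-2 < p`, `e > 0`, `ρ ≥ 0`, `α = p/2 + 1 > 0`:
`(t + e^2)^(-α) = Γ(α)⁻¹ ∫_0^∞ u^(α-1) exp (-u (t + e^2)) du`, so
`(1/2) ∫_0^ρ (t+e^2)^(-α) dt = ∫_0^∞ (2 Γ α)⁻¹ u^(α-2) exp (-u e^2) (1 - exp (-u ρ)) du` (Tonelli).
-/

set_option autoImplicit false

open MeasureTheory Set Filter Topology
open scoped ENNReal

namespace Pool.Agent.Lib.MP_6cd19d_an.ND

section

variable {F : Type*} [NormedAddCommGroup F] [InnerProductSpace ℝ F]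

private lemma gk_mul (u : ℝ) (x y z : F) :
    Real.exp (-(2 * u) * ‖x - z‖ ^ 2) * Real.exp (-(2 * u) * ‖y - z‖ ^ 2) =
      Real.exp (-u * ‖x - y‖ ^ 2) * Real.exp (-(4 * u) * ‖z - (1 / 2 : ℝ) • (x + y)‖ ^ 2) := by
  rw [← Real.exp_add, ← Real.exp_add]
  congr 1
  have h1 := parallelogram_law_with_norm ℝ (x - z) (y - z)
  have h2 : ‖(x - z) + (y - z)‖ = 2 * ‖z - (1 / 2 : ℝ) • (x + y)‖ := by
    have : (x - z) + (y - z) = (-2 : ℝ) • (z - (1 / 2 : ℝ) • (x + y)) := by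
      module
    rw [this, norm_smul]
    norm_num
  have h3 : (x - z) - (y - z) = x - y := by abel
  rw [h2, h3] at h1
  linear_combination u * h1

variable [FiniteDimensional ℝ F] [MeasurableSpace F] [BorelSpace F]

private lemma gk_const_pos {u : ℝ} (hu : 0 < u) :
    0 < ∫ v : F, Real.exp (-(4 * u) * ‖v‖ ^ 2) := by
  rw [GaussianFourier.integral_rexp_neg_mul_sq_norm (by positivity : 0 < 4 * u)]
  positivity

private lemma gk_const_int {u : ℝ} (hu : 0 < u) :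
    Integrable fun v : F => Real.exp (-(4 * u) * ‖v‖ ^ 2) := by
  by_contra hcon
  have := integral_undef hcon
  exact (gk_const_pos (F := F) hu).ne' this

private lemma gk_int {u : ℝ} (hu : 0 < u) (x y : F) :
    Integrable fun z : F => Real.exp (-(2 * u) * ‖x - z‖ ^ 2) *
      Real.exp (-(2 * u) * ‖y - z‖ ^ 2) := by
  simp only [gk_mul]
  exact ((gk_const_int hu).comp_sub_right ((1 / 2 : ℝ) • (x + y))).const_mul _

private lemma gk_integral (u : ℝ) (x y : F) :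
    ∫ z : F, Real.exp (-(2 * u) * ‖x - z‖ ^ 2) * Real.exp (-(2 * u) * ‖y - z‖ ^ 2) =
      Real.exp (-u * ‖x - y‖ ^ 2) * ∫ v : F, Real.exp (-(4 * u) * ‖v‖ ^ 2) := by
  simp only [gk_mul]
  rw [integral_const_mul]
  congr 1
  exact integral_sub_right_eq_self (fun v : F => Real.exp (-(4 * u) * ‖v‖ ^ 2))
    ((1 / 2 : ℝ) • (x + y))

private lemma gk_prod (α β : Measure F) [IsFiniteMeasure α] [IsFiniteMeasure β] {u : ℝ}
    (hu : 0 < u) :
    Integrable (fun q : (F × F) × F => Real.exp (-(2 * u) * ‖q.1.1 - q.2‖ ^ 2) *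
      Real.exp (-(2 * u) * ‖q.1.2 - q.2‖ ^ 2)) ((α.prod β).prod volume) := by
  rw [integrable_prod_iff]
  · refine ⟨Eventually.of_forall fun q => gk_int hu q.1 q.2, ?_⟩
    have h1 : ∀ q : F × F, ∫ z : F, ‖Real.exp (-(2 * u) * ‖q.1 - z‖ ^ 2) *
        Real.exp (-(2 * u) * ‖q.2 - z‖ ^ 2)‖ =
        Real.exp (-u * ‖q.1 - q.2‖ ^ 2) * ∫ v : F, Real.exp (-(4 * u) * ‖v‖ ^ 2) := by
      intro q
      rw [← gk_integral]
      refine integral_congr_ae (Eventually.of_forall fun z => ?_)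
      simp only [Real.norm_eq_abs, abs_mul, Real.abs_exp]
    simp only [h1]
    refine Integrable.mul_const ?_ _
    refine Integrable.of_bound (C := 1) ?_ (Eventually.of_forall fun q => ?_)
    · exact (by fun_prop : Continuous fun q : F × F =>
        Real.exp (-u * ‖q.1 - q.2‖ ^ 2)).aestronglyMeasurable
    · rw [Real.norm_eq_abs, Real.abs_exp, Real.exp_le_one_iff]
      have := sq_nonneg ‖q.1 - q.2‖
      nlinarith
  · exact (by fun_prop : Continuous fun q : (F × F) × F =>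
      Real.exp (-(2 * u) * ‖q.1.1 - q.2‖ ^ 2) *
      Real.exp (-(2 * u) * ‖q.1.2 - q.2‖ ^ 2)).aestronglyMeasurable

/-- `A z`. -/
private noncomputable def gA (u : ℝ) (α : Measure F) (z : F) : ℝ :=
  ∫ x, Real.exp (-(2 * u) * ‖x - z‖ ^ 2) ∂α

omit [BorelSpace F] in
private lemma gk_inner (α β : Measure F) [IsFiniteMeasure α] [IsFiniteMeasure β] (u : ℝ) (z : F) :
    ∫ q : F × F, Real.exp (-(2 * u) * ‖q.1 - z‖ ^ 2) *
      Real.exp (-(2 * u) * ‖q.2 - z‖ ^ 2) ∂(α.prod β) = gA u α z * gA u β z :=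
  integral_prod_mul (fun x : F => Real.exp (-(2 * u) * ‖x - z‖ ^ 2))
    (fun x : F => Real.exp (-(2 * u) * ‖x - z‖ ^ 2))

private lemma gA_int (α β : Measure F) [IsFiniteMeasure α] [IsFiniteMeasure β] {u : ℝ}
    (hu : 0 < u) : Integrable fun z => gA u α z * gA u β z := by
  have h1 := (gk_prod α β hu).integral_prod_right
  refine h1.congr (Eventually.of_forall fun z => ?_)
  exact gk_inner α β u z

private lemma gA_integral (α β : Measure F) [IsFiniteMeasure α] [IsFiniteMeasure β] {u : ℝ}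
    (hu : 0 < u) : ∫ z, gA u α z * gA u β z =
      (∫ x, ∫ y, Real.exp (-u * ‖x - y‖ ^ 2) ∂β ∂α) * ∫ v : F, Real.exp (-(4 * u) * ‖v‖ ^ 2) := by
  have h1 := integral_integral_swap (f := fun (q : F × F) (z : F) =>
    Real.exp (-(2 * u) * ‖q.1 - z‖ ^ 2) * Real.exp (-(2 * u) * ‖q.2 - z‖ ^ 2))
    (gk_prod α β hu)
  simp only [gk_inner, gk_integral] at h1
  rw [← h1, integral_mul_const]
  congr 1
  refine integral_prod (fun q : F × F => Real.exp (-u * ‖q.1 - q.2‖ ^ 2)) ?_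
  refine Integrable.of_bound (C := 1) ?_ (Eventually.of_forall fun q => ?_)
  · exact (by fun_prop : Continuous fun q : F × F =>
      Real.exp (-u * ‖q.1 - q.2‖ ^ 2)).aestronglyMeasurable
  · rw [Real.norm_eq_abs, Real.abs_exp, Real.exp_le_one_iff]
    have := sq_nonneg ‖q.1 - q.2‖
    nlinarith

end

theorem gauss_pd {F : Type*} [NormedAddCommGroup F] [InnerProductSpace ℝ F]
    [FiniteDimensional ℝ F] [MeasurableSpace F] [BorelSpace F] {α β : Measure F}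
    [IsFiniteMeasure α] [IsFiniteMeasure β] {u : ℝ} (hu : 0 < u) :
    2 * ∫ x, ∫ y, Real.exp (-u * ‖x - y‖ ^ 2) ∂β ∂α ≤
      (∫ x, ∫ y, Real.exp (-u * ‖x - y‖ ^ 2) ∂α ∂α) +
        ∫ x, ∫ y, Real.exp (-u * ‖x - y‖ ^ 2) ∂β ∂β := by
  have hc := gk_const_pos (F := F) hu
  have h0 : 0 ≤ ∫ z, (gA u α z - gA u β z) ^ 2 := integral_nonneg fun z => sq_nonneg _
  have h1 : ∀ z, (gA u α z - gA u β z) ^ 2 =
      gA u α z * gA u α z - 2 * (gA u α z * gA u β z) + gA u β z * gA u β z := fun z => by ring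
  have i1 : Integrable fun z => gA u α z * gA u α z - 2 * (gA u α z * gA u β z) :=
    (gA_int α α hu).sub ((gA_int α β hu).const_mul _)
  simp only [h1] at h0
  rw [integral_add i1 (gA_int β β hu),
    integral_sub (gA_int α α hu) ((gA_int α β hu).const_mul _), integral_const_mul,
    gA_integral α α hu, gA_integral α β hu, gA_integral β β hu] at h0
  by_contra hcon
  push Not at hcon
  nlinarith [mul_lt_mul_of_pos_right hcon hc]

end Pool.Agent.Lib.MP_6cd19d_an.ND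
end

section

/-!
# B19: the Gaussian kernel is positive definite; mixtures

`gauss_pd`: `α`, `β` finite measures on a Euclidean space `F` (dimension `N`), `u > 0`. For all `x, y`:
`∫ exp (-2 u ‖x - z‖^2) exp (-2 u ‖z - y‖^2) dz = exp (-u ‖x - y‖^2) * c`, `c = ∫ exp (-4 u ‖w‖^2) dw > 0`
(`‖x-z‖^2 + ‖z-y‖^2 = 2 ‖z - (x+y)/2‖^2 + ‖x-y‖^2 / 2`). So with
`A z = ∫ exp (-2 u ‖x - z‖^2) dα`, `B z` similarly (bounded, integrable in `z`):
`c (J(α,α) + J(β,β) - 2 J(α,β)) = ∫ (A - B)^2 dz ≥ 0` (Fubini).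
`mixture_pd`: let `k ρ = k0 - ∫_{u > 0} w u * (1 - exp (-u ρ)) du` for `0 ≤ ρ ≤ R2`, with `w ≥ 0` measurable and
`u ↦ w u * (1 - exp (-u ρ))` integrable for all these `ρ`. If `α`, `β` are probability measures carried by a
bounded set `S` (`‖x - y‖^2 ≤ R2` for `x, y ∈ S`), then `I(α,α) + I(β,β) - 2 I(α,β) ≥ 0` for
`I(α,β) = ∬ k (‖x-y‖^2) dα dβ`: the constants cancel (`1 + 1 - 2 = 0`), and
`-∬∬ w (1 - e^(-uρ)) (αα + ββ - 2αβ) = ∫ w (J_u(α,α) + J_u(β,β) - 2 J_u(α,β)) du ≥ 0` (Fubini; the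
integrand is dominated by `w u (1 - exp (-u R2))`).
`gp_mixture`: for `-2 < p`, `e > 0`, `ρ ≥ 0`, `α = p/2 + 1 > 0`:
`(t + e^2)^(-α) = Γ(α)⁻¹ ∫_0^∞ u^(α-1) exp (-u (t + e^2)) du`, so
`(1/2) ∫_0^ρ (t+e^2)^(-α) dt = ∫_0^∞ (2 Γ α)⁻¹ u^(α-2) exp (-u e^2) (1 - exp (-u ρ)) du` (Tonelli).
-/

set_option autoImplicit false

open MeasureTheory Set Filter Topology
open scoped ENNReal

namespace Pool.Agent.Lib.MP_6cd19d_an.ND

section

variable {F : Type*} [NormedAddCommGroup F] [InnerProductSpace ℝ F]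
    [FiniteDimensional ℝ F] [MeasurableSpace F] [BorelSpace F]

/-- The integral of the Gaussian kernel. -/
private noncomputable def jg (u : ℝ) (α β : Measure F) : ℝ :=
  ∫ x, ∫ y, Real.exp (-u * ‖x - y‖ ^ 2) ∂β ∂α

private lemma mix_int {α β : Measure F} [IsProbabilityMeasure α] [IsProbabilityMeasure β]
    {S : Set F} (hα : α Sᶜ = 0) (hβ : β Sᶜ = 0) {R2 : ℝ}
    (hS : ∀ x ∈ S, ∀ y ∈ S, ‖x - y‖ ^ 2 ≤ R2) {w : ℝ → ℝ} (hw : Measurable w)
    (hw0 : ∀ u, 0 < u → 0 ≤ w u)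
    (hint : IntegrableOn (fun u => w u * (1 - Real.exp (-u * R2))) (Ioi 0)) :
    Integrable (Function.uncurry fun (q : F × F) (u : ℝ) =>
      w u * (1 - Real.exp (-u * ‖q.1 - q.2‖ ^ 2)))
      ((α.prod β).prod (volume.restrict (Ioi (0 : ℝ)))) := by
  have h1 : Integrable (fun p : (F × F) × ℝ => w p.2 * (1 - Real.exp (-p.2 * R2)))
      ((α.prod β).prod (volume.restrict (Ioi (0 : ℝ)))) :=
    hint.comp_snd (α.prod β)
  refine h1.mono' ?_ ?_
  · have h2 : Measurable fun p : (F × F) × ℝ =>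
        w p.2 * (1 - Real.exp (-p.2 * ‖p.1.1 - p.1.2‖ ^ 2)) := by
      refine (hw.comp measurable_snd).mul ?_
      exact (by fun_prop : Continuous fun p : (F × F) × ℝ =>
        1 - Real.exp (-p.2 * ‖p.1.1 - p.1.2‖ ^ 2)).measurable
    exact h2.aestronglyMeasurable
  · have hA : ∀ᵐ x ∂α, x ∈ S := by
      rw [ae_iff]; exact hα
    have hB : ∀ᵐ x ∂β, x ∈ S := by
      rw [ae_iff]; exact hβ
    have hAB : ∀ᵐ q ∂(α.prod β), q.1 ∈ S ∧ q.2 ∈ S := by
      have e1 : ∀ᵐ q ∂(α.prod β), q.1 ∈ S :=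
        Measure.quasiMeasurePreserving_fst.ae hA
      have e2 : ∀ᵐ q ∂(α.prod β), q.2 ∈ S :=
        Measure.quasiMeasurePreserving_snd.ae hB
      filter_upwards [e1, e2] with q h1 h2 using ⟨h1, h2⟩
    have hU : ∀ᵐ u ∂(volume.restrict (Ioi (0 : ℝ))), u ∈ Ioi (0 : ℝ) :=
      ae_restrict_mem measurableSet_Ioi
    have e3 : ∀ᵐ p ∂((α.prod β).prod (volume.restrict (Ioi (0 : ℝ)))), p.1.1 ∈ S ∧ p.1.2 ∈ S :=
      Measure.quasiMeasurePreserving_fst.ae hAB
    have e4 : ∀ᵐ p ∂((α.prod β).prod (volume.restrict (Ioi (0 : ℝ)))), p.2 ∈ Ioi (0 : ℝ) :=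
      Measure.quasiMeasurePreserving_snd.ae hU
    filter_upwards [e3, e4] with p hp hu
    have hu' : 0 < p.2 := hu
    have hr := hS _ hp.1 _ hp.2
    simp only [Function.uncurry]
    have hn : 0 ≤ ‖p.1.1 - p.1.2‖ ^ 2 := sq_nonneg _
    have h3 : 0 ≤ 1 - Real.exp (-p.2 * ‖p.1.1 - p.1.2‖ ^ 2) := by
      rw [sub_nonneg, Real.exp_le_one_iff]
      nlinarith
    rw [Real.norm_eq_abs, abs_of_nonneg (mul_nonneg (hw0 _ hu') h3)]
    refine mul_le_mul_of_nonneg_left ?_ (hw0 _ hu')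
    have h4 : Real.exp (-p.2 * R2) ≤ Real.exp (-p.2 * ‖p.1.1 - p.1.2‖ ^ 2) := by
      rw [Real.exp_le_exp]
      nlinarith
    linarith

private lemma exp_int (α β : Measure F) [IsProbabilityMeasure α] [IsProbabilityMeasure β]
    {u : ℝ} (hu : 0 < u) :
    Integrable (fun q : F × F => Real.exp (-u * ‖q.1 - q.2‖ ^ 2)) (α.prod β) := by
  refine Integrable.of_bound (C := 1) ?_ (Eventually.of_forall fun q => ?_)
  · exact (by fun_prop : Continuous fun q : F × F =>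
      Real.exp (-u * ‖q.1 - q.2‖ ^ 2)).aestronglyMeasurable
  · rw [Real.norm_eq_abs, Real.abs_exp, Real.exp_le_one_iff]
    have := sq_nonneg ‖q.1 - q.2‖
    nlinarith

private lemma inner_eq (α β : Measure F) [IsProbabilityMeasure α] [IsProbabilityMeasure β]
    {u : ℝ} (hu : 0 < u) (c : ℝ) :
    ∫ q : F × F, c * (1 - Real.exp (-u * ‖q.1 - q.2‖ ^ 2)) ∂(α.prod β) =
      c * (1 - jg u α β) := by
  rw [integral_const_mul, integral_sub (integrable_const _) (exp_int α β hu), integral_const]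
  congr 1
  rw [measureReal_def, measure_univ]
  simp only [ENNReal.toReal_one, smul_eq_mul, mul_one]
  congr 1
  exact integral_prod _ (exp_int α β hu)

private lemma mix_eq {α β : Measure F} [IsProbabilityMeasure α] [IsProbabilityMeasure β]
    {S : Set F} (hα : α Sᶜ = 0) (hβ : β Sᶜ = 0) {R2 : ℝ}
    (hS : ∀ x ∈ S, ∀ y ∈ S, ‖x - y‖ ^ 2 ≤ R2) {k w : ℝ → ℝ} {k0 : ℝ} (hw : Measurable w)
    (hw0 : ∀ u, 0 < u → 0 ≤ w u)
    (hint : IntegrableOn (fun u => w u * (1 - Real.exp (-u * R2))) (Ioi 0))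
    (hk : ∀ ρ, 0 ≤ ρ → ρ ≤ R2 → k ρ = k0 - ∫ u in Ioi (0 : ℝ), w u * (1 - Real.exp (-u * ρ))) :
    IntegrableOn (fun u => w u * (1 - jg u α β)) (Ioi 0) ∧
    ∫ x, ∫ y, k (‖x - y‖ ^ 2) ∂β ∂α = k0 - ∫ u in Ioi (0 : ℝ), w u * (1 - jg u α β) := by
  have hI := mix_int hα hβ hS hw hw0 hint
  have hA : ∀ᵐ x ∂α, x ∈ S := by
    rw [ae_iff]; exact hα
  have hB : ∀ᵐ x ∂β, x ∈ S := by
    rw [ae_iff]; exact hβ
  constructor
  · have h1 := hI.integral_prod_right
    refine h1.congr ?_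
    filter_upwards [ae_restrict_mem measurableSet_Ioi] with u hu
    exact inner_eq α β hu (w u)
  · have h1 : ∫ x, ∫ y, k (‖x - y‖ ^ 2) ∂β ∂α =
        ∫ x, ∫ y, (k0 - ∫ u in Ioi (0 : ℝ), w u * (1 - Real.exp (-u * ‖x - y‖ ^ 2))) ∂β ∂α := by
      refine integral_congr_ae ?_
      filter_upwards [hA] with x hx
      refine integral_congr_ae ?_
      filter_upwards [hB] with y hy
      exact hk _ (sq_nonneg _) (hS x hx y hy)
    have h2 : Integrable (fun q : F × F =>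
        ∫ u in Ioi (0 : ℝ), w u * (1 - Real.exp (-u * ‖q.1 - q.2‖ ^ 2))) (α.prod β) :=
      hI.integral_prod_left
    have h3 := integral_prod (fun q : F × F =>
        k0 - ∫ u in Ioi (0 : ℝ), w u * (1 - Real.exp (-u * ‖q.1 - q.2‖ ^ 2)))
        ((integrable_const k0).sub h2)
    rw [h1, ← h3, integral_sub (integrable_const _) h2, integral_const, measureReal_def,
      measure_univ]
    simp only [ENNReal.toReal_one, one_smul]
    congr 1
    have h4 := integral_integral_swap hI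
    rw [h4]
    refine setIntegral_congr_fun measurableSet_Ioi fun u hu => ?_
    exact inner_eq α β hu (w u)

end

theorem mixture_pd {F : Type*} [NormedAddCommGroup F] [InnerProductSpace ℝ F]
    [FiniteDimensional ℝ F] [MeasurableSpace F] [BorelSpace F] {α β : Measure F}
    [IsProbabilityMeasure α] [IsProbabilityMeasure β] {S : Set F} (hSm : MeasurableSet S)
    (hα : α Sᶜ = 0) (hβ : β Sᶜ = 0) {R2 : ℝ} (hS : ∀ x ∈ S, ∀ y ∈ S, ‖x - y‖ ^ 2 ≤ R2)
    {k w : ℝ → ℝ} {k0 : ℝ} (hw : Measurable w) (hw0 : ∀ u, 0 < u → 0 ≤ w u)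
    (hint : IntegrableOn (fun u => w u * (1 - Real.exp (-u * R2))) (Ioi 0))
    (hk : ∀ ρ, 0 ≤ ρ → ρ ≤ R2 → k ρ = k0 - ∫ u in Ioi (0 : ℝ), w u * (1 - Real.exp (-u * ρ))) :
    2 * ∫ x, ∫ y, k (‖x - y‖ ^ 2) ∂β ∂α ≤
      (∫ x, ∫ y, k (‖x - y‖ ^ 2) ∂α ∂α) + ∫ x, ∫ y, k (‖x - y‖ ^ 2) ∂β ∂β := by
  have _ := hSm
  obtain ⟨i1, e1⟩ := mix_eq hα hβ hS hw hw0 hint hk
  obtain ⟨i2, e2⟩ := mix_eq hα hα hS hw hw0 hint hk
  obtain ⟨i3, e3⟩ := mix_eq hβ hβ hS hw hw0 hint hk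
  rw [e1, e2, e3]
  have h1 : (∫ u in Ioi (0 : ℝ), w u * (1 - jg u α α)) +
      (∫ u in Ioi (0 : ℝ), w u * (1 - jg u β β)) ≤
      2 * ∫ u in Ioi (0 : ℝ), w u * (1 - jg u α β) := by
    rw [← integral_add i2 i3, ← integral_const_mul]
    refine setIntegral_mono_on (i2.add i3) (i1.const_mul 2) measurableSet_Ioi fun u hu => ?_
    have h2 := gauss_pd (α := α) (β := β) (u := u) hu
    have h3 := hw0 u hu
    unfold jg
    nlinarith [mul_le_mul_of_nonneg_left h2 h3]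
  linarith

end Pool.Agent.Lib.MP_6cd19d_an.ND
end

section

/-!
# B19: the Gaussian kernel is positive definite; mixtures

`gauss_pd`: `α`, `β` finite measures on a Euclidean space `F` (dimension `N`), `u > 0`. For all `x, y`:
`∫ exp (-2 u ‖x - z‖^2) exp (-2 u ‖z - y‖^2) dz = exp (-u ‖x - y‖^2) * c`, `c = ∫ exp (-4 u ‖w‖^2) dw > 0`
(`‖x-z‖^2 + ‖z-y‖^2 = 2 ‖z - (x+y)/2‖^2 + ‖x-y‖^2 / 2`). So with
`A z = ∫ exp (-2 u ‖x - z‖^2) dα`, `B z` similarly (bounded, integrable in `z`):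
`c (J(α,α) + J(β,β) - 2 J(α,β)) = ∫ (A - B)^2 dz ≥ 0` (Fubini).
`mixture_pd`: let `k ρ = k0 - ∫_{u > 0} w u * (1 - exp (-u ρ)) du` for `0 ≤ ρ ≤ R2`, with `w ≥ 0` measurable and
`u ↦ w u * (1 - exp (-u ρ))` integrable for all these `ρ`. If `α`, `β` are probability measures carried by a
bounded set `S` (`‖x - y‖^2 ≤ R2` for `x, y ∈ S`), then `I(α,α) + I(β,β) - 2 I(α,β) ≥ 0` for
`I(α,β) = ∬ k (‖x-y‖^2) dα dβ`: the constants cancel (`1 + 1 - 2 = 0`), and
`-∬∬ w (1 - e^(-uρ)) (αα + ββ - 2αβ) = ∫ w (J_u(α,α) + J_u(β,β) - 2 J_u(α,β)) du ≥ 0` (Fubini; the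
integrand is dominated by `w u (1 - exp (-u R2))`).
`gp_mixture`: for `-2 < p`, `e > 0`, `ρ ≥ 0`, `α = p/2 + 1 > 0`:
`(t + e^2)^(-α) = Γ(α)⁻¹ ∫_0^∞ u^(α-1) exp (-u (t + e^2)) du`, so
`(1/2) ∫_0^ρ (t+e^2)^(-α) dt = ∫_0^∞ (2 Γ α)⁻¹ u^(α-2) exp (-u e^2) (1 - exp (-u ρ)) du` (Tonelli).
-/

set_option autoImplicit false

open MeasureTheory Set Filter Topology
open scoped ENNReal

namespace Pool.Agent.Lib.MP_6cd19d_an.ND

theorem gp_mixture {p e : ℝ} (hp : -2 < p) (he : 0 < e) {ρ : ℝ} (hρ : 0 ≤ ρ) :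
    IntegrableOn (fun u => (2 * Real.Gamma (p / 2 + 1))⁻¹ * u ^ (p / 2 - 1) *
      Real.exp (-u * e ^ 2) * (1 - Real.exp (-u * ρ))) (Ioi 0) ∧
    (1 / 2) * ∫ t in (0 : ℝ)..ρ, (t + e ^ 2) ^ (-p / 2 - 1) =
      ∫ u in Ioi (0 : ℝ), (2 * Real.Gamma (p / 2 + 1))⁻¹ * u ^ (p / 2 - 1) *
        Real.exp (-u * e ^ 2) * (1 - Real.exp (-u * ρ)) := by
  set a : ℝ := p / 2 + 1 with ha
  have ha0 : 0 < a := by rw [ha]; linarith
  have hG : 0 < Real.Gamma a := Real.Gamma_pos_of_pos ha0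
  have he2 : 0 < e ^ 2 := by positivity
  set F : ℝ → ℝ → ℝ := fun t u => u ^ (a - 1) * Real.exp (-((t + e ^ 2) * u)) with hF
  -- the integral in `u`
  have hu1 : ∀ t ∈ Ioc (0 : ℝ) ρ, IntegrableOn (F t) (Ioi 0) := by
    intro t ht
    have h1 := integrableOn_rpow_mul_exp_neg_mul_rpow (p := 1) (s := a - 1) (b := t + e ^ 2)
      (by linarith) one_pos (by linarith [ht.1])
    refine h1.congr_fun (fun u _ => ?_) measurableSet_Ioi
    simp only [hF, Real.rpow_one]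
    ring_nf
  have hu2 : ∀ t ∈ Ioc (0 : ℝ) ρ, ∫ u in Ioi (0 : ℝ), F t u =
      (t + e ^ 2) ^ (-a) * Real.Gamma a := by
    intro t ht
    have hte : 0 < t + e ^ 2 := by linarith [ht.1]
    have h1 := Real.integral_rpow_mul_exp_neg_mul_Ioi ha0 hte
    rw [h1, one_div, Real.inv_rpow hte.le, ← Real.rpow_neg hte.le]
  -- the integral in `t`
  have ht1 : ∀ u ∈ Ioi (0 : ℝ), ∫ t in Ioc (0 : ℝ) ρ, F t u =
      u ^ (a - 2) * Real.exp (-u * e ^ 2) * (1 - Real.exp (-u * ρ)) := by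
    intro u hu
    have hu0 : (0 : ℝ) < u := hu
    rw [← intervalIntegral.integral_of_le hρ]
    have hder : ∀ t ∈ uIcc (0 : ℝ) ρ,
        HasDerivAt (fun t => -(u ^ (a - 2) * Real.exp (-((t + e ^ 2) * u)))) (F t u) t := by
      intro t _
      have h1 : HasDerivAt (fun t : ℝ => -((t + e ^ 2) * u)) (-u) t := by
        have h0 : HasDerivAt (fun t : ℝ => (t + e ^ 2) * u) (1 * u) t :=
          ((hasDerivAt_id t).add_const (e ^ 2)).mul_const u
        rw [one_mul] at h0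
        exact h0.neg
      have h2 := (h1.exp.const_mul (u ^ (a - 2))).neg
      refine h2.congr_deriv ?_
      have h3 : u ^ (a - 1) = u ^ (a - 2) * u := by
        rw [show a - 1 = (a - 2) + 1 by ring, Real.rpow_add hu0, Real.rpow_one]
      simp only [hF]
      rw [h3]
      ring
    have hint : IntervalIntegrable (fun t => F t u) volume 0 ρ := by
      apply Continuous.intervalIntegrable
      simp only [hF]
      fun_prop
    rw [intervalIntegral.integral_eq_sub_of_hasDerivAt hder hint]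
    have h4 : Real.exp (-((ρ + e ^ 2) * u)) = Real.exp (-u * e ^ 2) * Real.exp (-u * ρ) := by
      rw [← Real.exp_add]
      congr 1
      ring
    have h5 : Real.exp (-((0 + e ^ 2) * u)) = Real.exp (-u * e ^ 2) := by
      congr 1
      ring
    rw [h4, h5]
    ring
  -- integrability on the product
  have hmeas : Measurable (Function.uncurry F) := by
    have h1 : Function.uncurry F = fun z : ℝ × ℝ =>
        z.2 ^ (a - 1) * Real.exp (-((z.1 + e ^ 2) * z.2)) := by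
      ext z
      rfl
    rw [h1]
    exact (measurable_snd.pow_const _).mul
      (Real.measurable_exp.comp (((measurable_fst.add_const _).mul measurable_snd).neg))
  have hnn : ∀ t, ∀ u ∈ Ioi (0 : ℝ), 0 ≤ F t u := fun t u hu =>
    mul_nonneg (Real.rpow_nonneg (le_of_lt hu) _) (Real.exp_pos _).le
  have hprod : Integrable (Function.uncurry F)
      ((volume.restrict (Ioc (0 : ℝ) ρ)).prod (volume.restrict (Ioi (0 : ℝ)))) := by
    rw [integrable_prod_iff hmeas.aestronglyMeasurable]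
    constructor
    · filter_upwards [ae_restrict_mem measurableSet_Ioc] with t ht
      exact hu1 t ht
    · have h1 : IntegrableOn (fun t => (t + e ^ 2) ^ (-a) * Real.Gamma a) (Ioc (0 : ℝ) ρ) := by
        refine (ContinuousOn.integrableOn_Icc ?_).mono_set Ioc_subset_Icc_self
        refine ContinuousOn.mul ?_ continuousOn_const
        refine ContinuousOn.rpow_const (by fun_prop) fun t ht => Or.inl ?_
        have := ht.1
        linarith
      refine h1.congr ?_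
      filter_upwards [ae_restrict_mem measurableSet_Ioc] with t ht
      rw [← hu2 t ht]
      refine setIntegral_congr_fun measurableSet_Ioi fun u hu => ?_
      simp only [Function.uncurry_apply_pair]
      rw [Real.norm_eq_abs, abs_of_nonneg (hnn t u hu)]
  have hswap := integral_integral_swap (f := F) hprod
  have hL : ∫ t in Ioc (0 : ℝ) ρ, ∫ u in Ioi (0 : ℝ), F t u =
      (∫ t in (0 : ℝ)..ρ, (t + e ^ 2) ^ (-p / 2 - 1)) * Real.Gamma a := by
    rw [setIntegral_congr_fun measurableSet_Ioc hu2, intervalIntegral.integral_of_le hρ,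
      ← integral_mul_const]
    have : -a = -p / 2 - 1 := by rw [ha]; ring
    rw [this]
  have hR : ∫ u in Ioi (0 : ℝ), ∫ t in Ioc (0 : ℝ) ρ, F t u =
      ∫ u in Ioi (0 : ℝ), u ^ (a - 2) * Real.exp (-u * e ^ 2) * (1 - Real.exp (-u * ρ)) :=
    setIntegral_congr_fun measurableSet_Ioi ht1
  rw [hL, hR] at hswap
  have ha2 : p / 2 - 1 = a - 2 := by rw [ha]; ring
  rw [ha2]
  constructor
  · have h1 : IntegrableOn (fun u => ∫ t in Ioc (0 : ℝ) ρ, F t u) (Ioi (0 : ℝ)) :=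
      hprod.integral_prod_right
    have h2 : IntegrableOn (fun u => u ^ (a - 2) * Real.exp (-u * e ^ 2) *
        (1 - Real.exp (-u * ρ))) (Ioi (0 : ℝ)) := h1.congr_fun ht1 measurableSet_Ioi
    have h3 : IntegrableOn (fun u => (2 * Real.Gamma a)⁻¹ * (u ^ (a - 2) *
        Real.exp (-u * e ^ 2) * (1 - Real.exp (-u * ρ)))) (Ioi (0 : ℝ)) := h2.const_mul _
    refine h3.congr_fun (fun u _ => ?_) measurableSet_Ioi
    simp only
    ring
  · have h3 : ∫ u in Ioi (0 : ℝ), (2 * Real.Gamma a)⁻¹ * u ^ (a - 2) *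
        Real.exp (-u * e ^ 2) * (1 - Real.exp (-u * ρ)) = (2 * Real.Gamma a)⁻¹ *
        ∫ u in Ioi (0 : ℝ), u ^ (a - 2) * Real.exp (-u * e ^ 2) * (1 - Real.exp (-u * ρ)) := by
      rw [← integral_const_mul]
      refine setIntegral_congr_fun measurableSet_Ioi fun u _ => ?_
      ring
    rw [h3, ← hswap]
    field_simp

end Pool.Agent.Lib.MP_6cd19d_an.ND
end
end
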