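import Pool.Agent.Lib.MP_6cd19d_an.ND.P5b
import Pool.Agent.Lib.MP_6cd19d_an.ND.B19c

section

/-!
# The Newton kernel as a function of the distance
-/

set_option autoImplicit false

open MeasureTheory Set Filter Topology Metric
open scoped ENNReal NNReal RealInnerProductSpace

namespace Pool.Agent.Lib.MP_6cd19d_an.A

open Pool.Agent.Lib.MP_6cd19d_an.ND

variable {n : ℕ}

/-- (RA-N1a) -/
theorem hasDerivAt_Nk (hn : 2 ≤ n) {r : ℝ} (hr : 0 < r) :
    HasDerivAt (Nk n) (-r ^ (1 - (n : ℝ))) r := by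
  by_cases h : n = 2
  · have e : Nk n = fun r => -Real.log r := by
      funext r
      unfold Nk
      rw [if_pos h]
    rw [e]
    refine (Real.hasDerivAt_log hr.ne').neg.congr_deriv ?_
    have e2 : (1 - (n : ℝ)) = -1 := by
      rw [h]
      norm_num
    rw [e2, Real.rpow_neg_one]
  · have hn3 : 3 ≤ n := by omega
    have hn3' : (3 : ℝ) ≤ n := by exact_mod_cast hn3
    have e : Nk n = fun r => r ^ ((2 : ℝ) - n) / ((n : ℝ) - 2) := by
      funext r
      unfold Nk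
      rw [if_neg h]
    rw [e]
    refine ((Real.hasDerivAt_rpow_const (p := (2 : ℝ) - n) (Or.inl hr.ne')).div_const
      ((n : ℝ) - 2)).congr_deriv ?_
    have e2 : (2 : ℝ) - n - 1 = 1 - n := by ring
    rw [e2]
    have e3 : ((n : ℝ) - 2) ≠ 0 := by
      intro h0
      linarith
    field_simp
    ring

private theorem n1_cont (hn : 2 ≤ n) : ContinuousOn (Nk n) (Ioi 0) := fun _ hr =>
  (hasDerivAt_Nk hn hr).continuousAt.continuousWithinAt

/-- (RA-N1b) -/
theorem Nk_strictAntiOn (hn : 2 ≤ n) : StrictAntiOn (Nk n) (Ioi 0) := by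
  refine strictAntiOn_of_deriv_neg (convex_Ioi 0) (n1_cont hn) fun r hr => ?_
  rw [interior_Ioi] at hr
  rw [(hasDerivAt_Nk hn hr).deriv]
  exact neg_neg_of_pos (Real.rpow_pos_of_pos hr _)

/-- (RA-N1c) The Newton kernel as a function of the square of the distance. -/
theorem hasDerivAt_Nk_sqrt (hn : 2 ≤ n) {s : ℝ} (hs : 0 < s) :
    HasDerivAt (fun s => Nk n (Real.sqrt s)) (-(1 / 2) * s ^ (-(n : ℝ) / 2)) s := by
  have h1 := (hasDerivAt_Nk hn (Real.sqrt_pos.2 hs)).comp s (Real.hasDerivAt_sqrt hs.ne')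
  refine h1.congr_deriv ?_
  have e1 : Real.sqrt s ^ (1 - (n : ℝ)) = s ^ ((1 - (n : ℝ)) / 2) := by
    rw [Real.sqrt_eq_rpow, ← Real.rpow_mul hs.le]
    congr 1
    ring
  have e2 : 1 / (2 * Real.sqrt s) = (1 / 2) * s ^ (-(1 / 2 : ℝ)) := by
    rw [Real.sqrt_eq_rpow, Real.rpow_neg hs.le]
    field_simp
  rw [e1, e2]
  have e3 : s ^ (-(n : ℝ) / 2) = s ^ ((1 - (n : ℝ)) / 2) * s ^ (-(1 / 2 : ℝ)) := by
    rw [← Real.rpow_add hs]
    congr 1
    ring
  rw [e3]
  ring

/-- (RA-N1d) For `n ≥ 3` the kernel tends to `0`, for `n = 2` to `-∞`. -/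
theorem Nk_limit (hn : 2 ≤ n) : (n = 2 ∧ Tendsto (Nk n) atTop atBot) ∨
    (3 ≤ n ∧ Tendsto (Nk n) atTop (𝓝 0) ∧ ∀ r, 0 < r → 0 < Nk n r) := by
  by_cases h : n = 2
  · left
    refine ⟨h, ?_⟩
    have e : Nk n = fun r => -Real.log r := by
      funext r
      unfold Nk
      rw [if_pos h]
    rw [e]
    exact tendsto_neg_atTop_atBot.comp Real.tendsto_log_atTop
  · right
    have hn3 : 3 ≤ n := by omega
    have hn3' : (3 : ℝ) ≤ n := by exact_mod_cast hn3
    have e : Nk n = fun r => r ^ ((2 : ℝ) - n) / ((n : ℝ) - 2) := by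
      funext r
      unfold Nk
      rw [if_neg h]
    refine ⟨hn3, ?_, ?_⟩
    · rw [e]
      have h1 : Tendsto (fun t : ℝ => t ^ (-((n : ℝ) - 2))) atTop (𝓝 0) :=
        tendsto_rpow_neg_atTop (by linarith)
      have h2 := h1.div_const ((n : ℝ) - 2)
      rw [zero_div] at h2
      refine h2.congr fun t => ?_
      rw [neg_sub]
    · intro r hr
      rw [e]
      exact div_pos (Real.rpow_pos_of_pos hr _) (by linarith)

/-- (RA-N1e) The kernel tends to `∞` at `0`. -/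
theorem Nk_zero (hn : 2 ≤ n) : Tendsto (Nk n) (𝓝[>] 0) atTop := by
  by_cases h : n = 2
  · have e : Nk n = fun r => -Real.log r := by
      funext r
      unfold Nk
      rw [if_pos h]
    rw [e]
    exact tendsto_neg_atBot_atTop.comp Real.tendsto_log_nhdsGT_zero
  · have hn3 : 3 ≤ n := by omega
    have hn3' : (3 : ℝ) ≤ n := by exact_mod_cast hn3
    have e : Nk n = fun r => r ^ ((2 : ℝ) - n) / ((n : ℝ) - 2) := by
      funext r
      unfold Nk
      rw [if_neg h]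
    rw [e]
    have h1 : Tendsto (fun r : ℝ => (r⁻¹) ^ ((n : ℝ) - 2)) (𝓝[>] 0) atTop :=
      (tendsto_rpow_atTop (by linarith)).comp tendsto_inv_nhdsGT_zero
    have h2 := h1.atTop_div_const (show (0 : ℝ) < (n : ℝ) - 2 by linarith)
    refine h2.congr' ?_
    filter_upwards [self_mem_nhdsWithin] with r hr
    have hr' : (0 : ℝ) < r := hr
    rw [Real.inv_rpow hr'.le, ← Real.rpow_neg hr'.le, neg_sub]

private theorem n1_epos (j : ℕ) : (0 : ℝ) < 1 / ((j : ℝ) + 1) := by positivity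

private theorem n1_anti {i j : ℕ} (h : i ≤ j) : 1 / ((j : ℝ) + 1) ≤ 1 / ((i : ℝ) + 1) := by
  have h1 : (i : ℝ) ≤ j := by exact_mod_cast h
  exact one_div_le_one_div_of_le (by positivity) (by linarith)

private theorem n1_sqrt_pos {d e : ℝ} (he : 0 < e) : 0 < Real.sqrt (d ^ 2 + e ^ 2) :=
  Real.sqrt_pos.2 (by positivity)

private theorem n1_mono (hn : 2 ≤ n) (c d : ℝ) :
    Monotone (fun j : ℕ => c + Nk n (Real.sqrt (d ^ 2 + (1 / ((j : ℝ) + 1)) ^ 2))) := by
  intro i j hij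
  have h1 : Real.sqrt (d ^ 2 + (1 / ((j : ℝ) + 1)) ^ 2) ≤
      Real.sqrt (d ^ 2 + (1 / ((i : ℝ) + 1)) ^ 2) := by
    apply Real.sqrt_le_sqrt
    have := pow_le_pow_left₀ (n1_epos j).le (n1_anti hij) 2
    linarith
  have h2 := (Nk_strictAntiOn hn).antitoneOn (n1_sqrt_pos (n1_epos j)) (n1_sqrt_pos (n1_epos i)) h1
  simp only
  linarith

/-- (RA-N1f) The smooth kernels increase to the kernel (`√(d² + e²) ↓ d`, `Nk` antitone and continuous; on the diagonal
the limit is `⊤` by `Nk_zero`). -/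
theorem iSup_nke (hn : 2 ≤ n) (c : ℝ) (x y : E n) :
    ⨆ j : ℕ, nke n c (1 / ((j : ℝ) + 1)) x y = nk n c x y := by
  have hmono : Monotone (fun j : ℕ => nke n c (1 / ((j : ℝ) + 1)) x y) := fun i j hij =>
    ENNReal.ofReal_le_ofReal (n1_mono hn c (dist x y) hij)
  refine iSup_eq_of_tendsto hmono ?_
  have he : Tendsto (fun j : ℕ => 1 / ((j : ℝ) + 1)) atTop (𝓝 0) :=
    tendsto_one_div_add_atTop_nhds_zero_nat
  have he2 : Tendsto (fun j : ℕ => Real.sqrt (dist x y ^ 2 + (1 / ((j : ℝ) + 1)) ^ 2)) atTop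
      (𝓝 (dist x y)) := by
    have h1 := ((he.pow 2).const_add (dist x y ^ 2)).sqrt
    have h2 : Real.sqrt (dist x y ^ 2 + 0 ^ 2) = dist x y := by
      rw [zero_pow two_ne_zero, add_zero, Real.sqrt_sq dist_nonneg]
    rw [h2] at h1
    exact h1
  unfold nk
  by_cases hxy : x = y
  · rw [if_pos hxy]
    have h0 : dist x y = 0 := by rw [hxy, dist_self]
    have h1 : Tendsto (fun j : ℕ => Real.sqrt (dist x y ^ 2 + (1 / ((j : ℝ) + 1)) ^ 2)) atTop
        (𝓝[>] 0) := by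
      refine tendsto_nhdsWithin_iff.2 ⟨?_, Eventually.of_forall fun j =>
        n1_sqrt_pos (n1_epos j)⟩
      rw [h0] at he2 ⊢
      exact he2
    have h2 := tendsto_atTop_add_const_left _ c ((Nk_zero hn).comp h1)
    exact ENNReal.tendsto_ofReal_atTop.comp h2
  · rw [if_neg hxy]
    have hd : 0 < dist x y := dist_pos.2 hxy
    have h1 := ((hasDerivAt_Nk hn hd).continuousAt.tendsto.comp he2).const_add c
    exact (ENNReal.continuous_ofReal.tendsto _).comp h1

/-- (RA-N1g) The smooth kernels increase, are bounded and continuous. -/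
theorem nke_props (hn : 2 ≤ n) (c : ℝ) :
    (∀ e : ℝ, 0 < e → Continuous (fun p : E n × E n =>
      (c + Nk n (Real.sqrt (dist p.1 p.2 ^ 2 + e ^ 2))).toNNReal)) ∧
    (∀ e : ℝ, 0 < e → ∃ C : ℝ≥0, ∀ x y : E n,
      (c + Nk n (Real.sqrt (dist x y ^ 2 + e ^ 2))).toNNReal ≤ C) ∧
    (∀ x y : E n, Monotone (fun j : ℕ =>
      (c + Nk n (Real.sqrt (dist x y ^ 2 + (1 / ((j : ℝ) + 1)) ^ 2))).toNNReal)) := by
  refine ⟨?_, ?_, ?_⟩
  · intro e he
    have h1 : Continuous (fun p : E n × E n => Real.sqrt (dist p.1 p.2 ^ 2 + e ^ 2)) :=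
      (((continuous_fst.dist continuous_snd).pow 2).add continuous_const).sqrt
    have h2 : Continuous (fun p : E n × E n => Nk n (Real.sqrt (dist p.1 p.2 ^ 2 + e ^ 2))) :=
      (n1_cont hn).comp_continuous h1 fun p => n1_sqrt_pos he
    exact continuous_real_toNNReal.comp (continuous_const.add h2)
  · intro e he
    refine ⟨(c + Nk n e).toNNReal, fun x y => Real.toNNReal_le_toNNReal ?_⟩
    have h1 : e ≤ Real.sqrt (dist x y ^ 2 + e ^ 2) := by
      apply Real.le_sqrt_of_sq_le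
      nlinarith [sq_nonneg (dist x y)]
    have h2 := (Nk_strictAntiOn hn).antitoneOn (mem_Ioi.2 he) (n1_sqrt_pos (d := dist x y) he) h1
    linarith
  · intro x y i j hij
    exact Real.toNNReal_le_toNNReal (n1_mono hn c (dist x y) hij)

/-- (RA-N1h) Homogeneity: for `n ≥ 3` factor `R^(2-n)`, for `n = 2` shift `-log R`. -/
theorem Nk_mul (hn : 2 ≤ n) {R r : ℝ} (hR : 0 < R) (hr : 0 < r) :
    Nk n (R * r) = if n = 2 then -Real.log R + Nk n r else R ^ ((2 : ℝ) - n) * Nk n r := by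
  have _ := hn
  unfold Nk
  split_ifs with h
  · rw [Real.log_mul hR.ne' hr.ne']
    ring
  · rw [Real.mul_rpow hR.le hr.le]
    ring

end Pool.Agent.Lib.MP_6cd19d_an.A
end

section

section

/-!
# Inversion
-/

set_option autoImplicit false

open MeasureTheory Set Filter Topology Metric
open scoped ENNReal NNReal RealInnerProductSpace

namespace Pool.Agent.Lib.MP_6cd19d_an.A

open Pool.Agent.Lib.MP_6cd19d_an.ND

variable {n : ℕ}

/-- Inversion in the unit sphere centred at the origin. -/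
noncomputable def inv0 (z : E n) : E n := (‖z‖ ^ 2)⁻¹ • z

theorem P1_sq {z : E n} (hz : z ≠ 0) (y : E n) :
    (‖z‖ * ‖inv0 z - y‖) ^ 2 = 1 - 2 * ⟪z, y⟫ + ‖z‖ ^ 2 * ‖y‖ ^ 2 := by
  have hz0 : 0 < ‖z‖ := norm_pos_iff.2 hz
  rw [mul_pow, inv0, norm_sub_sq_real, norm_smul, real_inner_smul_left, norm_inv, norm_pow,
    norm_norm]
  field_simp

theorem P1_key {z y : E n} (hz : z ≠ 0) :
    ‖z‖ * ‖inv0 z - y‖ = Real.sqrt (1 - 2 * ⟪z, y⟫ + ‖z‖ ^ 2 * ‖y‖ ^ 2) := by
  rw [← P1_sq hz y, Real.sqrt_sq (by positivity)]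

theorem P1_key' {y : E n} (hy : y ≠ 0) (z : E n) :
    Real.sqrt (1 - 2 * ⟪z, y⟫ + ‖z‖ ^ 2 * ‖y‖ ^ 2) = ‖y‖ * ‖inv0 y - z‖ := by
  rw [P1_key hy, real_inner_comm]
  congr 1
  ring

theorem P1_norm_inv0 {z : E n} (hz : z ≠ 0) : ‖inv0 z‖ ^ 2 = (‖z‖ ^ 2)⁻¹ := by
  have hz0 : 0 < ‖z‖ := norm_pos_iff.2 hz
  rw [inv0, norm_smul, norm_inv, norm_pow, norm_norm]
  field_simp

/-- (RA-P1a) The basic identity `|ξ-x| |ξ* - y| = |y| |ξ - ŷ|`, `ξ* = inv0 (ξ - x)`, `ŷ = x + inv0 y`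
(square both sides and expand inner products; with `z = ξ - x`: `|z|² |z/|z|² - y|² = 1 - 2 z.y + |z|²|y|²` is symmetric). -/
theorem norm_mul_dist_inv0 {x ξ y : E n} (hξ : ξ ≠ x) (hy : y ≠ 0) :
    dist ξ x * dist (inv0 (ξ - x)) y = ‖y‖ * dist (x + inv0 y) ξ := by
  have hz : ξ - x ≠ 0 := sub_ne_zero.2 hξ
  set z := ξ - x with hzd
  have e1 : dist ξ x = ‖z‖ := dist_eq_norm _ _
  have e2 : dist (x + inv0 y) ξ = ‖inv0 y - z‖ := by
    rw [dist_eq_norm, hzd]
    congr 1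
    abel
  rw [e1, e2, dist_eq_norm, P1_key hz, P1_key' hy z]


/-- (RA-P1b) The inversion about `x = ℓ e` (`ℓ > 1`, `‖e‖ = 1`) exchanges the unit ball and the ball with centre
`b = -(ℓ/(ℓ²-1)) e` and radius `1/(ℓ²-1)`: `‖x + y/|y|²‖ < 1 ↔ (ℓ²-1)|y|² + 2ℓ ⟪e,y⟫ + 1 < 0`. -/
theorem inv0_ball {e : E n} (he : ‖e‖ = 1) {ℓ : ℝ} (hℓ : 1 < ℓ) {y : E n}
    (hy : y ∈ ball (-(ℓ / (ℓ ^ 2 - 1)) • e) (1 / (ℓ ^ 2 - 1))) :
    y ≠ 0 ∧ ℓ • e + inv0 y ∈ ball (0 : E n) 1 := by
  have hL : 0 < ℓ ^ 2 - 1 := by nlinarith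
  rw [mem_ball, dist_eq_norm] at hy
  have h1 : ‖y - -(ℓ / (ℓ ^ 2 - 1)) • e‖ ^ 2 < (1 / (ℓ ^ 2 - 1)) ^ 2 :=
    pow_lt_pow_left₀ hy (norm_nonneg _) two_ne_zero
  have h2 : ‖y - -(ℓ / (ℓ ^ 2 - 1)) • e‖ ^ 2 =
      ‖y‖ ^ 2 + 2 * (ℓ / (ℓ ^ 2 - 1)) * ⟪y, e⟫ + (ℓ / (ℓ ^ 2 - 1)) ^ 2 := by
    rw [neg_smul, sub_neg_eq_add, norm_add_sq_real, real_inner_smul_right, norm_smul, he,
      Real.norm_eq_abs, mul_one, sq_abs]
    ring
  rw [h2] at h1
  have h3 : (ℓ ^ 2 - 1) * ‖y‖ ^ 2 + 2 * ℓ * ⟪y, e⟫ + 1 < 0 := by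
    have h4 : (ℓ ^ 2 - 1) * (‖y‖ ^ 2 + 2 * (ℓ / (ℓ ^ 2 - 1)) * ⟪y, e⟫ +
        (ℓ / (ℓ ^ 2 - 1)) ^ 2) < (ℓ ^ 2 - 1) * (1 / (ℓ ^ 2 - 1)) ^ 2 :=
      mul_lt_mul_of_pos_left h1 hL
    have h5 : (ℓ ^ 2 - 1) * (‖y‖ ^ 2 + 2 * (ℓ / (ℓ ^ 2 - 1)) * ⟪y, e⟫ +
        (ℓ / (ℓ ^ 2 - 1)) ^ 2) = (ℓ ^ 2 - 1) * ‖y‖ ^ 2 + 2 * ℓ * ⟪y, e⟫ +
        ℓ ^ 2 / (ℓ ^ 2 - 1) := by
      field_simp
    have h6 : (ℓ ^ 2 - 1) * (1 / (ℓ ^ 2 - 1)) ^ 2 = ℓ ^ 2 / (ℓ ^ 2 - 1) - 1 := by
      field_simp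
      ring
    rw [h5, h6] at h4
    linarith
  have hy0 : y ≠ 0 := by
    intro h0
    rw [h0] at h3
    simp at h3
    linarith
  refine ⟨hy0, ?_⟩
  have hyn : 0 < ‖y‖ ^ 2 := by
    have := norm_pos_iff.2 hy0
    positivity
  rw [mem_ball_zero_iff]
  have h7 : ‖ℓ • e + inv0 y‖ ^ 2 < 1 := by
    rw [norm_add_sq_real, P1_norm_inv0 hy0, norm_smul, he, inv0, real_inner_smul_left,
      real_inner_smul_right, real_inner_comm, Real.norm_eq_abs, mul_one, sq_abs]
    have h8 : ℓ ^ 2 + 2 * (ℓ * ((‖y‖ ^ 2)⁻¹ * ⟪y, e⟫)) + (‖y‖ ^ 2)⁻¹ =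
        1 + ((ℓ ^ 2 - 1) * ‖y‖ ^ 2 + 2 * ℓ * ⟪y, e⟫ + 1) / ‖y‖ ^ 2 := by
      field_simp
      ring
    rw [h8]
    have := div_neg_of_neg_of_pos h3 hyn
    linarith
  exact (pow_lt_one_iff_of_nonneg (norm_nonneg _) two_ne_zero).1 h7

/-- (RA-P1c) The other direction, for the closed ball. -/
theorem inv0_closedBall {e : E n} (he : ‖e‖ = 1) {ℓ : ℝ} (hℓ : 1 < ℓ) {ξ : E n}
    (hξ : ξ ∈ closedBall (0 : E n) 1) :
    inv0 (ξ - ℓ • e) ∈ closedBall (-(ℓ / (ℓ ^ 2 - 1)) • e) (1 / (ℓ ^ 2 - 1)) := by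
  have hL : 0 < ℓ ^ 2 - 1 := by nlinarith
  rw [mem_closedBall_zero_iff] at hξ
  have hz : ξ - ℓ • e ≠ 0 := by
    intro h0
    rw [sub_eq_zero] at h0
    rw [h0, norm_smul, he, mul_one, Real.norm_eq_abs, abs_of_pos (by linarith)] at hξ
    linarith
  have hξ2 : ‖ξ‖ ^ 2 ≤ 1 := by
    have := norm_nonneg ξ
    nlinarith
  set z := ξ - ℓ • e with hzd
  have hξz : ξ = z + ℓ • e := by rw [hzd]; abel
  have h1 : ‖z‖ ^ 2 + 2 * ℓ * ⟪z, e⟫ + ℓ ^ 2 ≤ 1 := by
    rw [hξz, norm_add_sq_real, real_inner_smul_right, norm_smul, he, Real.norm_eq_abs,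
      mul_one, sq_abs] at hξ2
    linarith
  have hzn : 0 < ‖z‖ ^ 2 := by
    have := norm_pos_iff.2 hz
    positivity
  rw [mem_closedBall, dist_eq_norm]
  have h2 : ‖inv0 z - -(ℓ / (ℓ ^ 2 - 1)) • e‖ ^ 2 ≤ (1 / (ℓ ^ 2 - 1)) ^ 2 := by
    rw [neg_smul, sub_neg_eq_add, norm_add_sq_real, P1_norm_inv0 hz, real_inner_smul_right,
      norm_smul, he, Real.norm_eq_abs, mul_one, sq_abs, inv0, real_inner_smul_left]
    have h8 : (‖z‖ ^ 2)⁻¹ + 2 * (ℓ / (ℓ ^ 2 - 1) * ((‖z‖ ^ 2)⁻¹ * ⟪z, e⟫)) +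
        (ℓ / (ℓ ^ 2 - 1)) ^ 2 = (1 / (ℓ ^ 2 - 1)) ^ 2 +
        (‖z‖ ^ 2 + 2 * ℓ * ⟪z, e⟫ + ℓ ^ 2 - 1) / (‖z‖ ^ 2 * (ℓ ^ 2 - 1)) := by
      field_simp
      ring
    rw [h8]
    have := div_nonpos_of_nonpos_of_nonneg (by linarith : ‖z‖ ^ 2 + 2 * ℓ * ⟪z, e⟫ +
      ℓ ^ 2 - 1 ≤ 0) (mul_pos hzn hL).le
    linarith
  exact (pow_le_pow_iff_left₀ (norm_nonneg _) (by positivity) two_ne_zero).1 h2

/-- (RA-P1d) Measurability. -/
theorem measurable_inv0 : Measurable (inv0 : E n → E n) :=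
  (measurable_norm.pow_const 2).inv.smul measurable_id

end Pool.Agent.Lib.MP_6cd19d_an.A
end

section

/-!
# The Kelvin transform of potentials
-/

set_option autoImplicit false

open MeasureTheory Set Filter Topology Metric
open scoped ENNReal NNReal RealInnerProductSpace

namespace Pool.Agent.Lib.MP_6cd19d_an.A

open Pool.Agent.Lib.MP_6cd19d_an.ND

variable {n : ℕ}

/-- (RA-P2) Tonelli for `∬ |ξ-x|^(-q) |ξ* - y|^(-q) dμ(ξ) dΛ(y)`, using `norm_mul_dist_inv0`:
`|ξ-x|^(-q) |ξ*-y|^(-q) = |y|^(-q) |ŷ-ξ|^(-q)` for `ξ ≠ x`, `y ≠ 0` (in `[0,∞]`: `ENNReal.mul_rpow_of_ne_top` for the finite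
quantities `edist`, also when `ξ* = y`, `0^(-q) = ⊤`, the factors `edist ξ x`, `edist y 0` being neither `0` nor `⊤`). -/
theorem kelvin {q : ℝ} (hq0 : 0 < q) {μ Λ : Measure (E n)} (hμ : μ univ ≠ ⊤) (hΛ : Λ univ ≠ ⊤)
    {x : E n} (hx : μ {x} = 0) (h0 : Λ {0} = 0) :
    ∫⁻ ξ, (edist ξ x) ^ (-q) * pot q Λ (inv0 (ξ - x)) ∂μ =
      ∫⁻ y, (edist y 0) ^ (-q) * pot q μ (x + inv0 y) ∂Λ := by
  haveI : IsFiniteMeasure μ := ⟨hμ.lt_top⟩
  haveI : IsFiniteMeasure Λ := ⟨hΛ.lt_top⟩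
  have m1 : ∀ z : E n, Measurable fun y : E n => (edist z y) ^ (-q) := fun z =>
    (measurable_const.edist measurable_id).pow_const _
  have e1 : ∀ ξ : E n, (edist ξ x) ^ (-q) * pot q Λ (inv0 (ξ - x)) =
      ∫⁻ y, (edist ξ x) ^ (-q) * (edist (inv0 (ξ - x)) y) ^ (-q) ∂Λ := fun ξ => by
    rw [pot, lintegral_const_mul _ (m1 _)]
  have e2 : ∀ y : E n, (edist y 0) ^ (-q) * pot q μ (x + inv0 y) =
      ∫⁻ ξ, (edist y 0) ^ (-q) * (edist (x + inv0 y) ξ) ^ (-q) ∂μ := fun y => by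
    rw [pot, lintegral_const_mul _ (m1 _)]
  simp only [e1, e2]
  rw [lintegral_lintegral_swap]
  · have h1 : ∀ᵐ y ∂Λ, y ≠ 0 := by
      rw [ae_iff]
      simpa using h0
    have h2 : ∀ᵐ ξ ∂μ, ξ ≠ x := by
      rw [ae_iff]
      simpa using hx
    refine lintegral_congr_ae ?_
    filter_upwards [h1] with y hy
    refine lintegral_congr_ae ?_
    filter_upwards [h2] with ξ hξ
    rw [← ENNReal.mul_rpow_of_ne_top (edist_ne_top _ _) (edist_ne_top _ _),
      ← ENNReal.mul_rpow_of_ne_top (edist_ne_top _ _) (edist_ne_top _ _)]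
    congr 1
    rw [edist_dist, edist_dist, edist_dist, edist_dist, ← ENNReal.ofReal_mul dist_nonneg,
      ← ENNReal.ofReal_mul dist_nonneg, norm_mul_dist_inv0 hξ hy, dist_zero_right]
  · refine Measurable.aemeasurable ?_
    refine Measurable.mul ?_ ?_
    · exact (measurable_fst.edist measurable_const).pow_const _
    · exact ((measurable_inv0.comp (measurable_fst.sub_const x)).edist measurable_snd).pow_const _

end Pool.Agent.Lib.MP_6cd19d_an.A
end
end

section

/-!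
# B09: the scaled kernels

`GoodG n g η`: `g` is smooth on `(-η, ∞)`, `η > 0`, and `2 n g' + 4 ρ g'' ≤ 0` for `ρ ≥ 0` (that is,
`x ↦ g (‖x‖^2)` is superharmonic on `ℝ^n`). With `a = 1 / (n - 2)` let
`ks s x = s * g (s^(2a) * ‖x‖^2)` for `s > 0`. Put `τ = s^(2a) ‖x‖^2 ≥ 0`. Then
`k1 := ∂_s ks = g τ + 2 a τ g' τ`,
`k2 := ∂_s k1 = (2 a τ / s) * ((1 + 2 a) g' τ + 2 a τ g'' τ)`,
`lap (ks s) x = s^(1+2a) * (2 n g' τ + 4 τ g'' τ) ≤ 0` (`lap_radial`),
`k2 = (a/s)^2 ‖x‖^2 lap (ks s) x`  (because `2 / a + 4 = 2 n`),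
`pd i k1 = (a/s) * x_i * lap (ks s) x` (same identity), all `s > 0`.
-/

set_option autoImplicit false

open MeasureTheory Set Filter Topology
open scoped ENNReal ContDiff

namespace Pool.Agent.Lib.MP_6cd19d_an.ND

/-- Profiles of smooth radial superharmonic functions on `ℝ^n`. -/
structure GoodG (n : ℕ) (g : ℝ → ℝ) (η : ℝ) : Prop where
  pos : 0 < η
  smooth : ContDiffOn ℝ ∞ g (Ioi (-η))
  super : ∀ ρ, 0 ≤ ρ → 2 * n * deriv g ρ + 4 * ρ * deriv (deriv g) ρ ≤ 0

/-- The scaled kernel. -/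
noncomputable def ks (n : ℕ) (g : ℝ → ℝ) (s : ℝ) (x : E n) : ℝ :=
  s * g (s ^ (2 / ((n : ℝ) - 2)) * ‖x‖ ^ 2)

/-- Its derivative in `s`. -/
noncomputable def k1 (n : ℕ) (g : ℝ → ℝ) (s : ℝ) (x : E n) : ℝ :=
  g (s ^ (2 / ((n : ℝ) - 2)) * ‖x‖ ^ 2) +
    2 / ((n : ℝ) - 2) * (s ^ (2 / ((n : ℝ) - 2)) * ‖x‖ ^ 2) *
      deriv g (s ^ (2 / ((n : ℝ) - 2)) * ‖x‖ ^ 2)

private theorem two_le : (2 : WithTop ℕ∞) ≤ ((⊤ : ℕ∞) : WithTop ℕ∞) :=
  WithTop.coe_le_coe.2 (le_top : (2 : ℕ∞) ≤ ⊤)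

/-- The argument of the profile is nonnegative. -/
private theorem tau_mem {n : ℕ} {g : ℝ → ℝ} {η : ℝ} (hg : GoodG n g η) {c : ℝ} (hc : 0 ≤ c)
    (x : E n) : c * ‖x‖ ^ 2 ∈ Ioi (-η) := by
  have h1 := hg.pos
  have h2 : 0 ≤ c * ‖x‖ ^ 2 := by positivity
  simp only [mem_Ioi]
  linarith

private theorem smooth_d {n : ℕ} {g : ℝ → ℝ} {η : ℝ} (hg : GoodG n g η) :
    ContDiffOn ℝ ∞ (deriv g) (Ioi (-η)) :=
  hg.smooth.deriv_of_isOpen isOpen_Ioi (by simp)

private theorem smooth_dd {n : ℕ} {g : ℝ → ℝ} {η : ℝ} (hg : GoodG n g η) :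
    ContDiffOn ℝ ∞ (deriv (deriv g)) (Ioi (-η)) :=
  (smooth_d hg).deriv_of_isOpen isOpen_Ioi (by simp)

private theorem hasDeriv_g {n : ℕ} {g : ℝ → ℝ} {η : ℝ} (hg : GoodG n g η) {t : ℝ}
    (ht : t ∈ Ioi (-η)) : HasDerivAt g (deriv g t) t := by
  have h : ContDiffAt ℝ ∞ g t := hg.smooth.contDiffAt (isOpen_Ioi.mem_nhds ht)
  exact (h.differentiableAt (by simp)).hasDerivAt

private theorem hasDeriv_dg {n : ℕ} {g : ℝ → ℝ} {η : ℝ} (hg : GoodG n g η) {t : ℝ}
    (ht : t ∈ Ioi (-η)) : HasDerivAt (deriv g) (deriv (deriv g) t) t := by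
  have h : ContDiffAt ℝ ∞ (deriv g) t := (smooth_d hg).contDiffAt (isOpen_Ioi.mem_nhds ht)
  exact (h.differentiableAt (by simp)).hasDerivAt

private theorem nsub_pos {n : ℕ} (hn : 3 ≤ n) : (0 : ℝ) < (n : ℝ) - 2 := by
  have h : (3 : ℝ) ≤ (n : ℝ) := by exact_mod_cast hn
  linarith

theorem contDiff_ks {n : ℕ} (hn : 3 ≤ n) {g : ℝ → ℝ} {η : ℝ} (hg : GoodG n g η) {s : ℝ}
    (hs : 0 < s) : ContDiff ℝ ∞ (ks n g s) := by
  unfold ks
  refine contDiff_const.mul ?_
  exact hg.smooth.comp_contDiff (contDiff_const.mul (contDiff_norm_sq ℝ))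
    (fun x => tau_mem hg (Real.rpow_nonneg hs.le _) x)

theorem contDiff_k1 {n : ℕ} (hn : 3 ≤ n) {g : ℝ → ℝ} {η : ℝ} (hg : GoodG n g η) {s : ℝ}
    (hs : 0 < s) : ContDiff ℝ ∞ (k1 n g s) := by
  unfold k1
  have hin : ContDiff ℝ ∞ (fun x : E n => s ^ (2 / ((n : ℝ) - 2)) * ‖x‖ ^ 2) :=
    contDiff_const.mul (contDiff_norm_sq ℝ)
  refine ContDiff.add ?_ (ContDiff.mul (contDiff_const.mul hin) ?_)
  · exact hg.smooth.comp_contDiff hin (fun x => tau_mem hg (Real.rpow_nonneg hs.le _) x)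
  · exact (smooth_d hg).comp_contDiff hin (fun x => tau_mem hg (Real.rpow_nonneg hs.le _) x)

private theorem hasDeriv_tau {n : ℕ} {s : ℝ} (hs : 0 < s) (b : ℝ) (x : E n) :
    HasDerivAt (fun t : ℝ => t ^ b * ‖x‖ ^ 2) (b * (s ^ b * ‖x‖ ^ 2) / s) s := by
  have h := (Real.hasDerivAt_rpow_const (x := s) (p := b) (Or.inl hs.ne')).mul_const (‖x‖ ^ 2)
  refine h.congr_deriv ?_
  rw [Real.rpow_sub_one hs.ne']
  field_simp

theorem hasDerivAt_ks {n : ℕ} (hn : 3 ≤ n) {g : ℝ → ℝ} {η : ℝ} (hg : GoodG n g η) {s : ℝ}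
    (hs : 0 < s) (x : E n) : HasDerivAt (fun t => ks n g t x) (k1 n g s x) s := by
  unfold ks k1
  have hτ := hasDeriv_tau hs (2 / ((n : ℝ) - 2)) x
  have hgτ := (hasDeriv_g hg (tau_mem hg (Real.rpow_nonneg hs.le (2 / ((n : ℝ) - 2))) x)).comp s hτ
  have h := (hasDerivAt_id s).mul hgτ
  refine h.congr_deriv ?_
  simp only [id, Function.comp]
  field_simp

/-- The Laplacian of the scaled kernel. -/
theorem lap_ks {n : ℕ} {g : ℝ → ℝ} {η : ℝ} (hg : GoodG n g η) {s : ℝ}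
    (hs : 0 < s) (x : E n) : lap (ks n g s) x = s * s ^ (2 / ((n : ℝ) - 2)) *
      (2 * n * deriv g (s ^ (2 / ((n : ℝ) - 2)) * ‖x‖ ^ 2) +
        4 * (s ^ (2 / ((n : ℝ) - 2)) * ‖x‖ ^ 2) *
          deriv (deriv g) (s ^ (2 / ((n : ℝ) - 2)) * ‖x‖ ^ 2)) := by
  set c : ℝ := s ^ (2 / ((n : ℝ) - 2)) with hc
  have hc0 : 0 ≤ c := Real.rpow_nonneg hs.le _
  have e : ks n g s = fun z : E n => (fun ρ : ℝ => s * g (c * ρ)) (‖z‖ ^ 2) := by
    funext z
    simp only [ks, hc]
  have hcd : ContDiffAt ℝ 2 (fun ρ : ℝ => s * g (c * ρ)) (‖x‖ ^ 2) := by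
    refine contDiffAt_const.mul ?_
    have h1 : ContDiffAt ℝ 2 g (c * ‖x‖ ^ 2) :=
      (hg.smooth.contDiffAt (isOpen_Ioi.mem_nhds (tau_mem hg hc0 x))).of_le two_le
    exact ContDiffAt.comp (‖x‖ ^ 2) h1 (contDiffAt_const.mul contDiffAt_id)
  rw [e, lap_radial hcd]
  have d1 : deriv (fun ρ : ℝ => s * g (c * ρ)) = fun ρ => (s * c) * deriv g (c * ρ) := by
    funext ρ
    rw [deriv_const_mul_field, deriv_comp_mul_left c g ρ, smul_eq_mul]
    ring
  have d2 : deriv (deriv (fun ρ : ℝ => s * g (c * ρ))) (‖x‖ ^ 2) =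
      (s * c) * (c * deriv (deriv g) (c * ‖x‖ ^ 2)) := by
    rw [d1, deriv_const_mul_field, deriv_comp_mul_left c (deriv g) (‖x‖ ^ 2), smul_eq_mul]
  rw [d2, d1]
  ring

theorem hasDerivAt_k1 {n : ℕ} (hn : 3 ≤ n) {g : ℝ → ℝ} {η : ℝ} (hg : GoodG n g η) {s : ℝ}
    (hs : 0 < s) (x : E n) :
    HasDerivAt (fun t => k1 n g t x)
      ((1 / ((n : ℝ) - 2) / s) ^ 2 * ‖x‖ ^ 2 * lap (ks n g s) x) s := by
  have hn2 := nsub_pos hn
  rw [lap_ks hg hs x]
  unfold k1
  have hτ := hasDeriv_tau hs (2 / ((n : ℝ) - 2)) x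
  have hm := tau_mem hg (Real.rpow_nonneg hs.le (2 / ((n : ℝ) - 2))) x
  have hgτ := (hasDeriv_g hg hm).comp s hτ
  have hdτ := (hasDeriv_dg hg hm).comp s hτ
  have h := hgτ.add ((hτ.const_mul (2 / ((n : ℝ) - 2))).mul hdτ)
  refine h.congr_deriv ?_
  simp only [Function.comp]
  generalize deriv g (s ^ (2 / ((n : ℝ) - 2)) * ‖x‖ ^ 2) = A
  generalize deriv (deriv g) (s ^ (2 / ((n : ℝ) - 2)) * ‖x‖ ^ 2) = B
  generalize s ^ (2 / ((n : ℝ) - 2)) = c
  have hn2' : (n : ℝ) - 2 ≠ 0 := hn2.ne'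
  have hs' : s ≠ 0 := hs.ne'
  field_simp
  ring

theorem pd_k1 {n : ℕ} (hn : 3 ≤ n) {g : ℝ → ℝ} {η : ℝ} (hg : GoodG n g η) {s : ℝ}
    (hs : 0 < s) (x : E n) (i : Fin n) :
    pd i (k1 n g s) x = 1 / ((n : ℝ) - 2) / s * x i * lap (ks n g s) x := by
  have hn2 := nsub_pos hn
  rw [lap_ks hg hs x]
  have hm := tau_mem hg (Real.rpow_nonneg hs.le (2 / ((n : ℝ) - 2))) x
  have e : k1 n g s = fun z : E n => (fun ρ : ℝ => g (s ^ (2 / ((n : ℝ) - 2)) * ρ) +
      2 / ((n : ℝ) - 2) * (s ^ (2 / ((n : ℝ) - 2)) * ρ) *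
        deriv g (s ^ (2 / ((n : ℝ) - 2)) * ρ)) (‖z‖ ^ 2) := by
    funext z
    simp only [k1]
  have hin : ContDiff ℝ 2 (fun ρ : ℝ => s ^ (2 / ((n : ℝ) - 2)) * ρ) :=
    contDiff_const.mul contDiff_id
  have hcd : ContDiffAt ℝ 2 (fun ρ : ℝ => g (s ^ (2 / ((n : ℝ) - 2)) * ρ) +
      2 / ((n : ℝ) - 2) * (s ^ (2 / ((n : ℝ) - 2)) * ρ) *
        deriv g (s ^ (2 / ((n : ℝ) - 2)) * ρ)) (‖x‖ ^ 2) := by
    have h1 : ContDiffAt ℝ 2 g (s ^ (2 / ((n : ℝ) - 2)) * ‖x‖ ^ 2) :=
      (hg.smooth.contDiffAt (isOpen_Ioi.mem_nhds hm)).of_le two_le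
    have h2 : ContDiffAt ℝ 2 (deriv g) (s ^ (2 / ((n : ℝ) - 2)) * ‖x‖ ^ 2) :=
      ((smooth_d hg).contDiffAt (isOpen_Ioi.mem_nhds hm)).of_le two_le
    refine ContDiffAt.add (ContDiffAt.comp (‖x‖ ^ 2) h1 hin.contDiffAt) ?_
    exact (contDiffAt_const.mul hin.contDiffAt).mul
      (ContDiffAt.comp (‖x‖ ^ 2) h2 hin.contDiffAt)
  rw [e, pd_radial hcd i]
  have hl : HasDerivAt (fun ρ : ℝ => s ^ (2 / ((n : ℝ) - 2)) * ρ)
      (s ^ (2 / ((n : ℝ) - 2))) (‖x‖ ^ 2) := by
    have h0 := (hasDerivAt_id (‖x‖ ^ 2)).const_mul (s ^ (2 / ((n : ℝ) - 2)))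
    rw [mul_one] at h0
    exact h0
  have hgτ := (hasDeriv_g hg hm).comp (‖x‖ ^ 2) hl
  have hdτ := (hasDeriv_dg hg hm).comp (‖x‖ ^ 2) hl
  have h := hgτ.add ((hl.const_mul (2 / ((n : ℝ) - 2))).mul hdτ)
  have hd : deriv (fun ρ : ℝ => g (s ^ (2 / ((n : ℝ) - 2)) * ρ) +
      2 / ((n : ℝ) - 2) * (s ^ (2 / ((n : ℝ) - 2)) * ρ) *
        deriv g (s ^ (2 / ((n : ℝ) - 2)) * ρ)) (‖x‖ ^ 2) = _ := h.deriv
  rw [hd]
  simp only [Function.comp]
  generalize deriv g (s ^ (2 / ((n : ℝ) - 2)) * ‖x‖ ^ 2) = A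
  generalize deriv (deriv g) (s ^ (2 / ((n : ℝ) - 2)) * ‖x‖ ^ 2) = B
  generalize s ^ (2 / ((n : ℝ) - 2)) = c
  have hn2' : (n : ℝ) - 2 ≠ 0 := hn2.ne'
  have hs' : s ≠ 0 := hs.ne'
  field_simp
  ring

theorem lap_ks_nonpos {n : ℕ} (hn : 3 ≤ n) {g : ℝ → ℝ} {η : ℝ} (hg : GoodG n g η) {s : ℝ}
    (hs : 0 < s) (x : E n) : lap (ks n g s) x ≤ 0 := by
  rw [lap_ks hg hs x]
  have h0 : 0 ≤ s ^ (2 / ((n : ℝ) - 2)) := Real.rpow_nonneg hs.le _
  exact mul_nonpos_of_nonneg_of_nonpos (mul_nonneg hs.le h0)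
    (hg.super _ (mul_nonneg h0 (by positivity)))

theorem continuousOn_ks {n : ℕ} (hn : 3 ≤ n) {g : ℝ → ℝ} {η : ℝ} (hg : GoodG n g η) :
    ContinuousOn (fun p : ℝ × E n => ks n g p.1 p.2) (Ioi 0 ×ˢ univ) ∧
    ContinuousOn (fun p : ℝ × E n => k1 n g p.1 p.2) (Ioi 0 ×ˢ univ) ∧
    ContinuousOn (fun p : ℝ × E n => lap (ks n g p.1) p.2) (Ioi 0 ×ˢ univ) := by
  have hc : ContinuousOn (fun p : ℝ × E n => p.1 ^ (2 / ((n : ℝ) - 2))) (Ioi 0 ×ˢ univ) :=
    ContinuousOn.rpow_const continuousOn_fst (fun p hp => Or.inl (ne_of_gt hp.1))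
  have hτ : ContinuousOn (fun p : ℝ × E n => p.1 ^ (2 / ((n : ℝ) - 2)) * ‖p.2‖ ^ 2)
      (Ioi 0 ×ˢ univ) := hc.mul (continuousOn_snd.norm.pow 2)
  have hmaps : MapsTo (fun p : ℝ × E n => p.1 ^ (2 / ((n : ℝ) - 2)) * ‖p.2‖ ^ 2)
      (Ioi 0 ×ˢ univ) (Ioi (-η)) := by
    intro p hp
    have hp1 : (0 : ℝ) < p.1 := hp.1
    exact tau_mem hg (Real.rpow_nonneg hp1.le _) p.2
  have h1 := hg.smooth.continuousOn.comp hτ hmaps
  have h2 := (smooth_d hg).continuousOn.comp hτ hmaps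
  have h3 := (smooth_dd hg).continuousOn.comp hτ hmaps
  refine ⟨?_, ?_, ?_⟩
  · exact continuousOn_fst.mul h1
  · exact h1.add ((continuousOn_const.mul hτ).mul h2)
  · have h4 : ContinuousOn (fun p : ℝ × E n => p.1 * p.1 ^ (2 / ((n : ℝ) - 2)) *
        (2 * n * deriv g (p.1 ^ (2 / ((n : ℝ) - 2)) * ‖p.2‖ ^ 2) +
        4 * (p.1 ^ (2 / ((n : ℝ) - 2)) * ‖p.2‖ ^ 2) *
          deriv (deriv g) (p.1 ^ (2 / ((n : ℝ) - 2)) * ‖p.2‖ ^ 2))) (Ioi 0 ×ˢ univ) :=
      (continuousOn_fst.mul hc).mul ((continuousOn_const.mul h2).add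
        ((continuousOn_const.mul hτ).mul h3))
    refine h4.congr (fun p hp => ?_)
    have hp1 : (0 : ℝ) < p.1 := hp.1
    exact lap_ks hg hp1 p.2

/-- The kernels are even. -/
theorem ks_neg (n : ℕ) (g : ℝ → ℝ) (s : ℝ) (x : E n) : ks n g s (-x) = ks n g s x := by
  unfold ks
  rw [norm_neg]

theorem k1_neg (n : ℕ) (g : ℝ → ℝ) (s : ℝ) (x : E n) : k1 n g s (-x) = k1 n g s x := by
  unfold k1
  rw [norm_neg]

end Pool.Agent.Lib.MP_6cd19d_an.ND
end

section

/-!
# MP_6cd19d_an, part T2: `n - 2 < p < q < n`, definitions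

Paper: table `papers`, id 220.  We work in `E (n+1)`, points `z = (x, y)`, `x = prj z`, `y = yc z`; the space `E n` is
embedded as `y = 0` (`pt x 0`), and `up μ` is the image of a measure `μ` on `E n`.

* `wt n q τ = (q/2) τ^((n-q)/2-1) (1+τ)^(-n/2)`, `fq n q l = ∫_l^∞ wt`, `wq`, `th`, `JJ`: the functions of section 1;
* `lam z` : the spheroidal coordinate;
* `LL β a b z` : the value of the operator `∑ ∂_i² + (β/y) ∂_y` in terms of the first and second derivatives.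
-/

set_option autoImplicit false

open MeasureTheory Set Filter Topology Metric
open scoped ENNReal NNReal RealInnerProductSpace

namespace Pool.Agent.Lib.MP_6cd19d_an.T2

open Pool.Agent.Lib.MP_6cd19d_an.ND Pool.Agent.Lib.MP_6cd19d_an.A

variable {n : ℕ}

/-- The point `(x, y)` of `E (n+1)`. -/
noncomputable def pt (x : E n) (y : ℝ) : E (n + 1) :=
  WithLp.toLp 2 (Fin.snoc (α := fun _ => ℝ) (fun i => x i) y)

/-- The last coordinate. -/
noncomputable def yc (z : E (n + 1)) : ℝ := z (Fin.last n)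

/-- The projection to `E n`. -/
noncomputable def prj (z : E (n + 1)) : E n := WithLp.toLp 2 (fun i => z i.castSucc)

/-- The embedding of `E n` in `E (n+1)`. -/
noncomputable def emb (x : E n) : E (n + 1) := pt x 0

/-- The image of a measure on `E n` in `E (n+1)`. -/
noncomputable def up (μ : Measure (E n)) : Measure (E (n + 1)) := μ.map emb

/-- The weight. -/
noncomputable def wt (n : ℕ) (q τ : ℝ) : ℝ :=
  q / 2 * τ ^ (((n : ℝ) - q) / 2 - 1) * (1 + τ) ^ (-(n : ℝ) / 2)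

/-- The tail integral of the weight. -/
noncomputable def fq (n : ℕ) (q l : ℝ) : ℝ := ∫ τ in Ioi l, wt n q τ

/-- The second tail integral. -/
noncomputable def wq (n : ℕ) (q l : ℝ) : ℝ :=
  (n : ℝ) / 2 * ∫ τ in Ioi l, τ ^ (((n : ℝ) - q) / 2 - 1) * (1 + τ) ^ (-(n : ℝ) / 2 - 1)

/-- The constant of the pointwise inequality. -/
noncomputable def th (n : ℕ) (q l : ℝ) : ℝ :=
  l ^ (((n : ℝ) - q) / 2) * (1 + l) ^ (-(n : ℝ) / 2)

/-- The profile of the dual potentials. -/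
noncomputable def JJ (n : ℕ) (q P X : ℝ) : ℝ :=
  ∫ τ in Ioi (0 : ℝ), max (P - X / (1 + τ)) 0 * wt n q τ

/-- The discriminant `√((|z|²-1)² + 4y²)`. -/
noncomputable def disc (z : E (n + 1)) : ℝ := Real.sqrt ((‖z‖ ^ 2 - 1) ^ 2 + 4 * (yc z) ^ 2)

/-- The spheroidal coordinate. -/
noncomputable def lam (z : E (n + 1)) : ℝ := ((‖z‖ ^ 2 - 1) + disc z) / 2

/-- The operator `∑ ∂_i² + (β/y) ∂_y` in terms of the derivatives `a`, `b` along the coordinate lines. -/
noncomputable def LL (β : ℝ) (a b : Fin (n + 1) → ℝ) (z : E (n + 1)) : ℝ :=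
  ∑ i, b i + β * (if yc z = 0 then b (Fin.last n) else a (Fin.last n) / yc z)

@[simp] theorem pt_castSucc (x : E n) (y : ℝ) (i : Fin n) : pt x y i.castSucc = x i := by
  simp [pt]

@[simp] theorem pt_last (x : E n) (y : ℝ) : pt x y (Fin.last n) = y := by
  simp [pt]

@[simp] theorem prj_pt (x : E n) (y : ℝ) : prj (pt x y) = x := by
  ext i
  simp [prj, pt]

@[simp] theorem yc_pt (x : E n) (y : ℝ) : yc (pt x y) = y := by
  simp [yc]

@[simp] theorem pt_prj_yc (z : E (n + 1)) : pt (prj z) (yc z) = z := by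
  ext i
  refine Fin.lastCases ?_ (fun j => ?_) i
  · simp [yc]
  · simp [prj]

theorem norm_sq_eq (z : E (n + 1)) : ‖z‖ ^ 2 = ‖prj z‖ ^ 2 + (yc z) ^ 2 := by
  rw [EuclideanSpace.norm_sq_eq, EuclideanSpace.norm_sq_eq, Fin.sum_univ_castSucc]
  simp [prj, yc]

theorem prj_sub (z w : E (n + 1)) : prj (z - w) = prj z - prj w := by
  ext i
  simp [prj]

theorem yc_sub (z w : E (n + 1)) : yc (z - w) = yc z - yc w := by
  simp [yc]

@[simp] theorem prj_emb (x : E n) : prj (emb x) = x := by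
  simp [emb]

@[simp] theorem yc_emb (x : E n) : yc (emb x) = 0 := by
  simp [emb]

theorem norm_sub_emb_sq (z : E (n + 1)) (ξ : E n) :
    ‖z - emb ξ‖ ^ 2 = ‖prj z - ξ‖ ^ 2 + (yc z) ^ 2 := by
  rw [norm_sq_eq, prj_sub, yc_sub]
  simp

theorem inner_eq (z w : E (n + 1)) : ⟪z, w⟫ = ⟪prj z, prj w⟫ + yc z * yc w := by
  simp only [PiLp.inner_apply, Fin.sum_univ_castSucc, prj, yc]
  simp
  ring

theorem emb_isometry : Isometry (emb : E n → E (n + 1)) := by
  refine Isometry.of_dist_eq fun x y => ?_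
  rw [dist_eq_norm, dist_eq_norm]
  have h := norm_sub_emb_sq (emb x) y
  rw [prj_emb, yc_emb] at h
  have h' : ‖emb x - emb y‖ ^ 2 = ‖x - y‖ ^ 2 := by
    rw [h]
    ring
  exact (pow_left_inj₀ (norm_nonneg _) (norm_nonneg _) two_ne_zero).1 h'

theorem measurableEmbedding_emb : MeasurableEmbedding (emb : E n → E (n + 1)) :=
  emb_isometry.isClosedEmbedding.measurableEmbedding

theorem lintegral_up (μ : Measure (E n)) (f : E (n + 1) → ℝ≥0∞) :
    ∫⁻ z, f z ∂(up μ) = ∫⁻ ξ, f (emb ξ) ∂μ :=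
  measurableEmbedding_emb.lintegral_map f

theorem integral_up {F : Type*} [NormedAddCommGroup F] [NormedSpace ℝ F] (μ : Measure (E n))
    (f : E (n + 1) → F) : ∫ z, f z ∂(up μ) = ∫ ξ, f (emb ξ) ∂μ :=
  measurableEmbedding_emb.integral_map f

theorem up_univ (μ : Measure (E n)) : up μ univ = μ univ := by
  rw [up, measurableEmbedding_emb.map_apply, preimage_univ]

theorem isCompact_emb {K : Set (E n)} (hK : IsCompact K) : IsCompact (emb '' K) :=
  hK.image emb_isometry.continuous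

theorem up_compl {K : Set (E n)} {μ : Measure (E n)} (hμ : μ Kᶜ = 0) : up μ (emb '' K)ᶜ = 0 := by
  rw [up, measurableEmbedding_emb.map_apply, preimage_compl,
    preimage_image_eq _ emb_isometry.injective]
  exact hμ

theorem PK_up {K : Set (E n)} {μ : Measure (E n)} (hμ : PK K μ) : PK (emb '' K) (up μ) :=
  ⟨by rw [up_univ]; exact hμ.1, up_compl hμ.2⟩

theorem mem_emb_image {K : Set (E n)} {z : E (n + 1)} :
    z ∈ emb '' K ↔ prj z ∈ K ∧ yc z = 0 := by
  constructor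
  · rintro ⟨x, hx, rfl⟩
    exact ⟨by simpa using hx, by simp⟩
  · rintro ⟨h1, h2⟩
    refine ⟨prj z, h1, ?_⟩
    rw [emb, ← h2]
    exact pt_prj_yc z

end Pool.Agent.Lib.MP_6cd19d_an.T2
end

section

/-!
# Compactness of the probability measures on a compact set, limits of energies
-/

set_option autoImplicit false

open MeasureTheory Set Filter Topology Metric
open scoped ENNReal NNReal RealInnerProductSpace

namespace Pool.Agent.Lib.MP_6cd19d_an.A

open Pool.Agent.Lib.MP_6cd19d_an.ND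

variable {n : ℕ}

/-- The functional `ν ↦ ∫ f d(ν × ν)` is continuous for continuous `f`. -/
private theorem k0_cont {X : Type} [MetricSpace X] [CompactSpace X] [MeasurableSpace X]
    [BorelSpace X] {f : X × X → ℝ≥0} (hf : Continuous f) :
    Continuous (fun ν : ProbabilityMeasure X =>
      ∫⁻ z, (f z : ℝ≥0∞) ∂((ν.prod ν : ProbabilityMeasure (X × X)) : Measure (X × X))) := by
  have hc : Continuous (fun ν : ProbabilityMeasure X => ν.prod ν) :=
    ProbabilityMeasure.continuous_prod.comp (continuous_id.prodMk continuous_id)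
  exact (ProbabilityMeasure.continuous_iff_forall_continuous_lintegral.mp hc)
    (BoundedContinuousFunction.mkOfCompact ⟨_, hf⟩)

/-- (RA-K0a) For an increasing sequence of bounded continuous kernels there is a probability measure
on the compact set `K` whose energy for the limit kernel is at most the limit of the minimal
energies.

Proof (compare the PROVED file `ND/P1.lean`, whose private lemma `p1_lsc` can be copied).  Let `I j = kIn (κ j) K` (finite:
bounded kernels, `K` non-empty, Dirac measures).  Choose `μ j` on `K` with `ken (κ j) (μ j) ≤ I j + 1/(j+1)`.  View `μ j` as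
elements of `ProbabilityMeasure K`, a compact space; let `μ` be a cluster point of the sequence.  For fixed `i` the map
`ν ↦ ∫∫ κ i dν dν` is continuous on `ProbabilityMeasure K` (`ProbabilityMeasure.continuous_prod`).  For `j ≥ i`,
`∫∫ κ i dμ_j dμ_j ≤ ∫∫ κ j dμ_j dμ_j ≤ sup I + 1/(j+1)`, so the cluster point has
`∫∫ κ i dμ dμ ≤ sup I`.  Monotone convergence in `i` (twice: `lintegral_iSup`).  Push `μ` forward to
`E n` by the inclusion. -/
theorem exists_meas_of_iSup {K : Set (E n)} (hK : IsCompact K) (hne : K.Nonempty)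
    (κ : ℕ → E n → E n → ℝ≥0)
    (hc : ∀ j, Continuous (fun p : E n × E n => κ j p.1 p.2))
    (hb : ∀ j, ∃ C : ℝ≥0, ∀ x y, κ j x y ≤ C)
    (hm : ∀ x y, Monotone (fun j => κ j x y)) :
    ∃ μ : Measure (E n), PK K μ ∧
      ken (fun x y => ⨆ j, (κ j x y : ℝ≥0∞)) μ ≤ ⨆ j, kIn (fun x y => (κ j x y : ℝ≥0∞)) K := by
  classical
  have _ := hb
  have : CompactSpace K := isCompact_iff_compactSpace.mp hK
  have : Nonempty K := hne.to_subtype
  have hKm : MeasurableSet K := hK.measurableSet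
  have hemb : MeasurableEmbedding (Subtype.val : K → E n) := MeasurableEmbedding.subtype_coe hKm
  have hf : ∀ j, Continuous (fun z : K × K => κ j (z.1 : E n) (z.2 : E n)) := fun j =>
    (hc j).comp ((continuous_subtype_val.comp continuous_fst).prodMk
      (continuous_subtype_val.comp continuous_snd))
  have hfm : ∀ j, Measurable (fun z : K × K => (κ j (z.1 : E n) (z.2 : E n) : ℝ≥0∞)) := fun j =>
    (hf j).measurable.coe_nnreal_ennreal
  set J : ℕ → ProbabilityMeasure K → ℝ≥0∞ := fun j ν =>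
    ∫⁻ z, (κ j (z.1 : E n) (z.2 : E n) : ℝ≥0∞)
      ∂((ν.prod ν : ProbabilityMeasure (K × K)) : Measure (K × K)) with hJ
  have hJc : ∀ j, Continuous (J j) := fun j => k0_cont (hf j)
  -- energies as integrals over `K × K`
  have hen : ∀ (k : E n → E n → ℝ≥0∞) (hk : Measurable (fun z : K × K => k z.1 z.2))
      (ν : ProbabilityMeasure K), ken k ((ν : Measure K).map Subtype.val) =
      ∫⁻ z : K × K, k z.1 z.2 ∂((ν.prod ν : ProbabilityMeasure (K × K)) : Measure (K × K)) := by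
    intro k hk ν
    unfold ken
    rw [hemb.lintegral_map, ProbabilityMeasure.toMeasure_prod,
      lintegral_prod _ hk.aemeasurable]
    congr 1
    funext x
    rw [hemb.lintegral_map]
  obtain ⟨x0⟩ := ‹Nonempty K›
  have hneP : (univ : Set (ProbabilityMeasure K)).Nonempty :=
    ⟨⟨Measure.dirac x0, inferInstance⟩, mem_univ _⟩
  -- minimisers
  have hmin : ∀ j, ∃ ν : ProbabilityMeasure K,
      J j ν ≤ kIn (fun x y => (κ j x y : ℝ≥0∞)) K := by
    intro j
    obtain ⟨ν, -, hν⟩ := isCompact_univ.exists_isMinOn hneP (hJc j).continuousOn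
    refine ⟨ν, le_iInf₂ fun μ' h' => ?_⟩
    have hK1 : μ' K = 1 := by
      have h3 := measure_add_measure_compl (μ := μ') hKm
      rw [h'.2, add_zero, h'.1] at h3
      exact h3
    have hprob : IsProbabilityMeasure (μ'.comap (Subtype.val : K → E n)) := by
      constructor
      rw [hemb.comap_apply, image_univ, Subtype.range_coe, hK1]
    set ν' : ProbabilityMeasure K := ⟨μ'.comap Subtype.val, hprob⟩ with hν'
    have hmap : (ν' : Measure K).map Subtype.val = μ' := by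
      change (μ'.comap Subtype.val).map Subtype.val = μ'
      rw [map_comap_subtype_coe hKm]
      apply Measure.restrict_eq_self_of_ae_mem
      rw [ae_iff]
      exact h'.2
    rw [← hmap, hen (fun x y => (κ j x y : ℝ≥0∞)) (hfm j)]
    exact hν (mem_univ ν')
  -- compactness
  set I : ℝ≥0∞ := ⨆ j, kIn (fun x y => (κ j x y : ℝ≥0∞)) K with hI
  obtain ⟨ν, hν⟩ : (⋂ j, {ν : ProbabilityMeasure K | J j ν ≤ I}).Nonempty := by
    refine IsCompact.nonempty_iInter_of_sequence_nonempty_isCompact_isClosed _ ?_ ?_ ?_ ?_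
    · intro j ν hν
      have hν' : J (j + 1) ν ≤ I := hν
      show J j ν ≤ I
      refine le_trans ?_ hν'
      refine lintegral_mono fun z => ?_
      exact ENNReal.coe_le_coe.2 (hm _ _ (Nat.le_succ j))
    · intro j
      obtain ⟨ν, hν⟩ := hmin j
      exact ⟨ν, hν.trans (le_iSup (fun j => kIn (fun x y => (κ j x y : ℝ≥0∞)) K) j)⟩
    · exact (isClosed_le (hJc 0) continuous_const).isCompact
    · intro j
      exact isClosed_le (hJc j) continuous_const
  have hPK : PK K ((ν : Measure K).map Subtype.val) := by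
    constructor
    · rw [hemb.map_apply, preimage_univ]
      exact measure_univ
    · rw [hemb.map_apply]
      have : (Subtype.val : K → E n) ⁻¹' Kᶜ = ∅ := by
        ext x
        simp
      rw [this, measure_empty]
  refine ⟨(ν : Measure K).map Subtype.val, hPK, ?_⟩
  rw [hen (fun x y => ⨆ j, (κ j x y : ℝ≥0∞)) (Measurable.iSup hfm)]
  rw [lintegral_iSup hfm]
  · exact iSup_le fun j => mem_iInter.1 hν j
  · intro a b hab z
    exact ENNReal.coe_le_coe.2 (hm _ _ hab)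

/-- (RA-K0b) A minimiser for a bounded continuous kernel (constant sequence in the previous theorem). -/
theorem exists_min {κ : E n → E n → ℝ≥0} (hc : Continuous (fun p : E n × E n => κ p.1 p.2))
    (hb : ∃ C : ℝ≥0, ∀ x y, κ x y ≤ C) {K : Set (E n)} (hK : IsCompact K)
    (hne : K.Nonempty) :
    ∃ μ : Measure (E n), PK K μ ∧
      ken (fun x y => (κ x y : ℝ≥0∞)) μ = kIn (fun x y => (κ x y : ℝ≥0∞)) K := by
  obtain ⟨μ, hμ, h⟩ := exists_meas_of_iSup hK hne (fun _ => κ) (fun _ => hc) (fun _ => hb)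
    (fun x y => monotone_const)
  simp only [iSup_const] at h
  exact ⟨μ, hμ, le_antisymm h (iInf₂_le μ hμ)⟩

end Pool.Agent.Lib.MP_6cd19d_an.A
end

section

/-!
# The variational inequality at a point
-/

set_option autoImplicit false

open MeasureTheory Set Filter Topology Metric
open scoped ENNReal NNReal RealInnerProductSpace

namespace Pool.Agent.Lib.MP_6cd19d_an.A

open Pool.Agent.Lib.MP_6cd19d_an.ND

variable {n : ℕ}

private theorem V1_meas_pot {k : E n → E n → ℝ≥0∞}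
    (hk : Measurable (fun p : E n × E n => k p.1 p.2)) (μ : Measure (E n)) [SFinite μ] :
    Measurable (kpot k μ) := by
  unfold kpot
  exact hk.lintegral_prod_right'

private theorem V1_pot_add_smul (k : E n → E n → ℝ≥0∞) (μ ν : Measure (E n)) (a b : ℝ≥0∞)
    (x : E n) : kpot k (a • μ + b • ν) x = a * kpot k μ x + b * kpot k ν x := by
  unfold kpot
  rw [lintegral_add_measure, lintegral_smul_measure, lintegral_smul_measure]
  rfl

private theorem V1_pot_swap {k : E n → E n → ℝ≥0∞}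
    (hk : Measurable (fun p : E n × E n => k p.1 p.2)) (hs : ∀ x y, k x y = k y x)
    (μ ν : Measure (E n)) [SFinite μ] [SFinite ν] :
    ∫⁻ x, kpot k ν x ∂μ = ∫⁻ x, kpot k μ x ∂ν := by
  unfold kpot
  rw [lintegral_lintegral_swap]
  · exact lintegral_congr fun x => lintegral_congr fun y => hs _ _
  · exact hk.aemeasurable

private theorem V1_en_eq (k : E n → E n → ℝ≥0∞) (μ : Measure (E n)) :
    ken k μ = ∫⁻ x, kpot k μ x ∂μ := rfl

private theorem V1_en_add_smul {k : E n → E n → ℝ≥0∞}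
    (hk : Measurable (fun p : E n × E n => k p.1 p.2)) (hs : ∀ x y, k x y = k y x)
    (μ ν : Measure (E n)) [SFinite μ] [SFinite ν] (a b : ℝ≥0∞) :
    ken k (a • μ + b • ν) = a * (a * ken k μ + b * ∫⁻ x, kpot k μ x ∂ν)
      + b * (a * (∫⁻ x, kpot k μ x ∂ν) + b * ken k ν) := by
  have hμm := V1_meas_pot hk μ
  have hνm := V1_meas_pot hk ν
  rw [V1_en_eq]
  simp_rw [V1_pot_add_smul]
  rw [lintegral_add_measure, lintegral_smul_measure, lintegral_smul_measure]
  rw [lintegral_add_left (hμm.const_mul a), lintegral_add_left (hμm.const_mul a)]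
  rw [lintegral_const_mul _ hμm, lintegral_const_mul _ hνm, lintegral_const_mul _ hμm,
    lintegral_const_mul _ hνm, V1_pot_swap hk hs μ ν, ← V1_en_eq, ← V1_en_eq]
  rfl

private theorem V1_pk_combo {K : Set (E n)} {μ ν : Measure (E n)} (hμ : PK K μ)
    (hν : PK K ν) {a b : ℝ≥0∞} (hab : a + b = 1) : PK K (a • μ + b • ν) := by
  refine ⟨?_, ?_⟩
  · rw [Measure.add_apply, Measure.smul_apply, Measure.smul_apply, hμ.1, hν.1]
    simpa using hab
  · rw [Measure.add_apply, Measure.smul_apply, Measure.smul_apply, hμ.2, hν.2]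
    simp

private theorem V1_real_var {I P e : ℝ}
    (h : ∀ t : ℝ, 0 < t → t < 1 →
      I ≤ (1 - t) * ((1 - t) * I + t * P) + t * ((1 - t) * P + t * e)) : I ≤ P := by
  by_contra hlt
  push Not at hlt
  set d := I - P with hd
  have hdpos : 0 < d := by linarith
  set C := |I - 2 * P + e| + 1 with hC
  have hCpos : 0 < C := by positivity
  set t := min (1 / 2) (d / C) with ht
  have ht0 : 0 < t := lt_min (by norm_num) (div_pos hdpos hCpos)
  have ht1 : t < 1 := lt_of_le_of_lt (min_le_left _ _) (by norm_num)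
  have h1 := h t ht0 ht1
  have h2 : 2 * d * t ≤ t * (t * (I - 2 * P + e)) := by
    have : (1 - t) * ((1 - t) * I + t * P) + t * ((1 - t) * P + t * e)
        = I - 2 * d * t + t * (t * (I - 2 * P + e)) := by
      rw [hd]; ring
    linarith
  have h3 : 2 * d ≤ t * (I - 2 * P + e) := by
    by_contra hc
    push Not at hc
    have := mul_lt_mul_of_pos_left hc ht0
    linarith
  have h4 : t * (I - 2 * P + e) ≤ t * C := by
    apply mul_le_mul_of_nonneg_left _ ht0.le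
    rw [hC]
    linarith [le_abs_self (I - 2 * P + e)]
  have h5 : t * C ≤ d := by
    have : t ≤ d / C := min_le_right _ _
    rwa [le_div_iff₀ hCpos] at this
  linarith

private theorem V1_pk_dirac {K : Set (E n)} {x : E n} (hx : x ∈ K) : PK K (Measure.dirac x) := by
  refine ⟨measure_univ, ?_⟩
  rw [Measure.dirac_apply, indicator_of_notMem (by simpa using hx)]

/-- (RA-V1) For a bounded symmetric kernel the potential of a minimiser is at least the minimal energy at every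
point of `K`.

Proof (compare the PROVED file `ND/P2.lean`, theorem `variation`, for the Riesz kernel).  `ν = Measure.dirac x`, energy
`J = κ x x < ⊤`.  Let `M = kpot κ μ x < ⊤`, `I = kIn κ K = ken κ μ`.  For `0 < t < 1` the measure `(1-t) μ + t δ_x` is a probability
measure on `K`; its energy is `(1-t)^2 I + 2 t (1-t) M + t^2 J ≥ I`; divide by `t`, let `t → 0`: `I ≤ M`. -/
theorem variation_point {κ : E n → E n → ℝ≥0} (hc : Continuous (fun p : E n × E n => κ p.1 p.2))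
    (hb : ∃ C : ℝ≥0, ∀ x y, κ x y ≤ C) (hs : ∀ x y, κ x y = κ y x) {K : Set (E n)}
    {μ : Measure (E n)} (hμ : PK K μ)
    (hmin : ken (fun x y => (κ x y : ℝ≥0∞)) μ = kIn (fun x y => (κ x y : ℝ≥0∞)) K)
    {x : E n} (hx : x ∈ K) :
    kIn (fun x y => (κ x y : ℝ≥0∞)) K ≤ kpot (fun x y => (κ x y : ℝ≥0∞)) μ x := by
  obtain ⟨k, hk⟩ : ∃ k : E n → E n → ℝ≥0∞, k = fun x y => (κ x y : ℝ≥0∞) := ⟨_, rfl⟩
  have hkm : Measurable (fun p : E n × E n => k p.1 p.2) := by
    rw [hk]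
    exact (ENNReal.continuous_coe.comp hc).measurable
  have hks : ∀ x y, k x y = k y x := by
    intro x y
    rw [hk]
    exact congrArg _ (hs x y)
  obtain ⟨C, hC⟩ := hb
  have hkC : ∀ x y, k x y ≤ C := by
    intro x y
    rw [hk]
    exact ENNReal.coe_le_coe.2 (hC x y)
  rw [← hk] at hmin ⊢
  have hprob : IsProbabilityMeasure μ := ⟨hμ.1⟩
  have hν : PK K (Measure.dirac x) := V1_pk_dirac hx
  have hpC : ∀ y, kpot k μ y ≤ C := by
    intro y
    unfold kpot
    calc ∫⁻ z, k y z ∂μ ≤ ∫⁻ _, (C : ℝ≥0∞) ∂μ := lintegral_mono fun z => hkC y z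
      _ = C := by rw [lintegral_const, hμ.1, mul_one]
  have hfin : kIn k K ≠ ⊤ := by
    rw [← hmin, V1_en_eq]
    refine ne_top_of_le_ne_top ENNReal.coe_ne_top (?_ : _ ≤ (C : ℝ≥0∞))
    calc ∫⁻ y, kpot k μ y ∂μ ≤ ∫⁻ _, (C : ℝ≥0∞) ∂μ := lintegral_mono hpC
      _ = C := by rw [lintegral_const, hμ.1, mul_one]
  have hP : kpot k μ x ≠ ⊤ := ne_top_of_le_ne_top ENNReal.coe_ne_top (hpC x)
  have hd1 : ∫⁻ y, kpot k μ y ∂(Measure.dirac x) = kpot k μ x := lintegral_dirac _ _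
  have hd2 : ken k (Measure.dirac x) = k x x := by
    unfold ken
    rw [lintegral_dirac, lintegral_dirac]
  have he : k x x ≠ ⊤ := ne_top_of_le_ne_top ENNReal.coe_ne_top (hkC x x)
  rw [← ENNReal.toReal_le_toReal hfin hP]
  apply V1_real_var (e := (k x x).toReal)
  intro t ht0 ht1
  have hab : ENNReal.ofReal (1 - t) + ENNReal.ofReal t = 1 := by
    rw [← ENNReal.ofReal_add (by linarith) ht0.le]
    simp
  have h1 : kIn k K ≤ ken k (ENNReal.ofReal (1 - t) • μ + ENNReal.ofReal t • Measure.dirac x) :=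
    iInf₂_le _ (V1_pk_combo hμ hν hab)
  rw [V1_en_add_smul hkm hks, hmin, hd1, hd2] at h1
  generalize kIn k K = I at *
  generalize kpot k μ x = P at *
  generalize k x x = e at *
  have hne : ENNReal.ofReal (1 - t) * (ENNReal.ofReal (1 - t) * I + ENNReal.ofReal t * P)
      + ENNReal.ofReal t * (ENNReal.ofReal (1 - t) * P + ENNReal.ofReal t * e) ≠ ⊤ := by
    finiteness
  have h2 := ENNReal.toReal_mono hne h1
  rw [ENNReal.toReal_add (by finiteness) (by finiteness), ENNReal.toReal_mul, ENNReal.toReal_mul,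
    ENNReal.toReal_add (by finiteness) (by finiteness),
    ENNReal.toReal_add (by finiteness) (by finiteness), ENNReal.toReal_mul, ENNReal.toReal_mul,
    ENNReal.toReal_mul, ENNReal.toReal_mul, ENNReal.toReal_ofReal (by linarith),
    ENNReal.toReal_ofReal ht0.le] at h2
  exact h2

end Pool.Agent.Lib.MP_6cd19d_an.A
end

section

section

/-!
# P4: restrictions of a measure to compact sets with continuous potential

Notation `k x y = (edist x y) ^ (-s)`; in `ℝ≥0∞`, `k - c` is the positive part.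

`exists_compact_unif`: for `m : ℕ` let `G m x = ∫⁻ y, (k x y - m) ∂μ`. It is decreasing in `m`. If
`pot s μ x < ⊤` then `G m x → 0` (dominated convergence: `k x y - m → 0` for `k x y < ⊤`, which holds
for `μ`-a.e. `y` since the integral of `k x y` is finite). By Egorov
(`MeasureTheory.tendstoUniformlyOn_of_ae_tendsto`, with values e.g. in `ℝ` after `ENNReal.toReal`,
`μ` finite) there is a measurable set `T` with `μ Tᶜ` small on which `G m → 0` uniformly; then take
`F ⊆ T ∩ S` compact by inner regularity (finite measures on `E n` are inner regular for compact sets).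

`unif_everywhere`: if `F = ∅` then `μ = 0`. Otherwise for `x : E n` let `x'` be a nearest point of `F`
(`IsCompact.exists_infDist_eq_dist`); for `y ∈ F`: `dist x' y ≤ dist x' x + dist x y ≤ 2 * dist x y`, so
`k x y ≤ 2 ^ s * k x' y` and `∫⁻ (k x y - 2^s c) dμ ≤ 2^s ∫⁻ (k x' y - c) dμ`. So take `δ / 2^s`.

`continuous_pot`: for `c ≠ ⊤` the function `P_c x = ∫⁻ min (k x y) c dμ` is continuous and finite
(dominated convergence, `min (k x y) c ≤ c`, `μ` finite), and `P_c ≤ pot s μ ≤ P_c + δ` everywhere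
(`k = min k c + (k - c)`), so `pot s μ` is finite and is a uniform limit of continuous functions
(work with `ENNReal.toReal`, or with `EMetric`/`ENNReal` balls).
-/

set_option autoImplicit false

open MeasureTheory Set Filter Topology
open scoped ENNReal

namespace Pool.Agent.Lib.MP_6cd19d_an.ND

private theorem meas_k {n : ℕ} (s : ℝ) :
    Measurable (fun p : E n × E n => (edist p.1 p.2) ^ (-s)) :=
  measurable_edist.pow_const _

private theorem meas_k_right {n : ℕ} (s : ℝ) (x : E n) :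
    Measurable (fun y : E n => (edist x y) ^ (-s)) :=
  measurable_edist_right.pow_const _

private theorem tendsto_tsub_nat {a : ℝ≥0∞} (ha : a ≠ ⊤) :
    Tendsto (fun m : ℕ => a - (m : ℝ≥0∞)) atTop (𝓝 0) := by
  obtain ⟨m0, hm0⟩ := ENNReal.exists_nat_gt ha
  refine tendsto_const_nhds.congr' ?_
  filter_upwards [eventually_ge_atTop m0] with m hm
  symm
  apply tsub_eq_zero_of_le
  exact hm0.le.trans (by exact_mod_cast hm)

theorem exists_compact_unif {n : ℕ} {s : ℝ} (hs : 0 < s) {μ : Measure (E n)} [IsFiniteMeasure μ]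
    {S : Set (E n)} (hS : MeasurableSet S) (hS0 : μ Sᶜ = 0)
    (hfin : ∀ x ∈ S, pot s μ x < ⊤) {ε : ℝ≥0∞} (hε : 0 < ε) :
    ∃ F : Set (E n), IsCompact F ∧ F ⊆ S ∧ μ Fᶜ ≤ ε ∧
      ∀ δ : ℝ≥0∞, 0 < δ → ∃ c : ℝ≥0∞, c ≠ ⊤ ∧
        ∀ x ∈ F, ∫⁻ y, ((edist x y) ^ (-s) - c) ∂μ ≤ δ := by
  classical
  set G : ℕ → E n → ℝ≥0∞ := fun m x => ∫⁻ y, ((edist x y) ^ (-s) - (m : ℝ≥0∞)) ∂μ with hG
  have hGle : ∀ m x, G m x ≤ pot s μ x := fun m x => lintegral_mono fun y => tsub_le_self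
  have hGfin : ∀ m, ∀ x ∈ S, G m x ≠ ⊤ := fun m x hx => ((hGle m x).trans_lt (hfin x hx)).ne
  have hGmeas : ∀ m, Measurable (G m) := by
    intro m
    have : Measurable (fun p : E n × E n => (edist p.1 p.2) ^ (-s) - (m : ℝ≥0∞)) :=
      (meas_k s).sub measurable_const
    exact this.lintegral_prod_right'
  have hlim : ∀ x ∈ S, Tendsto (fun m => G m x) atTop (𝓝 0) := by
    intro x hx
    have h1 : ∀ᵐ y ∂μ, (edist x y) ^ (-s) < ⊤ :=
      ae_lt_top (meas_k_right s x) (hfin x hx).ne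
    have h2 := tendsto_lintegral_of_dominated_convergence (μ := μ)
      (F := fun (m : ℕ) y => (edist x y) ^ (-s) - (m : ℝ≥0∞)) (f := fun _ => 0)
      (fun y => (edist x y) ^ (-s))
      (fun m => (meas_k_right s x).sub measurable_const)
      (fun m => Eventually.of_forall fun y => tsub_le_self)
      (hfin x hx).ne
      (h1.mono fun y hy => tendsto_tsub_nat hy.ne)
    simpa using h2
  -- choose `e` real
  obtain ⟨e, he0, he⟩ : ∃ e : ℝ, 0 < e ∧ ENNReal.ofReal e + ENNReal.ofReal e ≤ ε := by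
    rcases eq_or_ne ε ⊤ with h | h
    · exact ⟨1, one_pos, by rw [h]; exact le_top⟩
    · refine ⟨ε.toReal / 2, by have := ENNReal.toReal_pos hε.ne' h; positivity, ?_⟩
      rw [← ENNReal.ofReal_add (by positivity) (by positivity), add_halves,
        ENNReal.ofReal_toReal h]
  have hSae : ∀ᵐ x ∂μ, x ∈ S := by
    rw [ae_iff]
    exact hS0
  obtain ⟨t, htS, htm, htμ, htu⟩ := tendstoUniformlyOn_of_ae_tendsto (μ := μ) (s := S)
    (f := fun m x => (G m x).toReal) (g := fun _ => (0 : ℝ))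
    (fun m => (hGmeas m).ennreal_toReal.stronglyMeasurable)
    stronglyMeasurable_const hS (measure_ne_top μ S)
    (Eventually.of_forall fun x hx => by
      have := (ENNReal.tendsto_toReal (ENNReal.zero_ne_top)).comp (hlim x hx)
      rw [ENNReal.toReal_zero] at this
      exact this) he0
  obtain ⟨F, hFsub, hFc, hFm⟩ := (hS.diff htm).exists_isCompact_lt_add (μ := μ)
    (measure_ne_top μ _) (ε := ENNReal.ofReal e) (by simpa using he0)
  refine ⟨F, hFc, hFsub.trans sdiff_subset, ?_, ?_⟩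
  · have h1 : Fᶜ ⊆ (Sᶜ ∪ t) ∪ ((S \ t) \ F) := by
      intro x hx
      by_cases hxS : x ∈ S
      · by_cases hxt : x ∈ t
        · exact Or.inl (Or.inr hxt)
        · exact Or.inr ⟨⟨hxS, hxt⟩, hx⟩
      · exact Or.inl (Or.inl hxS)
    have h2 : μ ((S \ t) \ F) ≤ ENNReal.ofReal e := by
      rw [measure_sdiff hFsub hFc.measurableSet.nullMeasurableSet (measure_ne_top μ _)]
      rw [tsub_le_iff_left]
      exact hFm.le
    calc μ Fᶜ ≤ μ ((Sᶜ ∪ t) ∪ ((S \ t) \ F)) := measure_mono h1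
      _ ≤ μ (Sᶜ ∪ t) + μ ((S \ t) \ F) := measure_union_le _ _
      _ ≤ (μ Sᶜ + μ t) + ENNReal.ofReal e := by gcongr; exact measure_union_le _ _
      _ ≤ ENNReal.ofReal e + ENNReal.ofReal e := by rw [hS0, zero_add]; gcongr
      _ ≤ ε := he
  · intro δ hδ
    rcases eq_or_ne δ ⊤ with h | h
    · exact ⟨0, ENNReal.zero_ne_top, fun x _ => by rw [h]; exact le_top⟩
    · have hδ' : 0 < δ.toReal := ENNReal.toReal_pos hδ.ne' h
      have := Metric.tendstoUniformlyOn_iff.1 htu δ.toReal hδ'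
      obtain ⟨m, hm⟩ := this.exists
      refine ⟨m, ENNReal.natCast_ne_top m, fun x hx => ?_⟩
      have h3 := hm x (hFsub hx)
      rw [dist_comm, Real.dist_eq, sub_zero, abs_of_nonneg ENNReal.toReal_nonneg] at h3
      have h4 : G m x ≠ ⊤ := hGfin m x (hFsub hx).1
      exact ((ENNReal.toReal_lt_toReal h4 h).1 h3).le

theorem unif_everywhere {n : ℕ} {s : ℝ} (hs : 0 < s) {μ : Measure (E n)} {F : Set (E n)}
    (hF : IsCompact F) (hμF : μ Fᶜ = 0)
    (h : ∀ δ : ℝ≥0∞, 0 < δ → ∃ c : ℝ≥0∞, c ≠ ⊤ ∧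
        ∀ x ∈ F, ∫⁻ y, ((edist x y) ^ (-s) - c) ∂μ ≤ δ) :
    ∀ δ : ℝ≥0∞, 0 < δ → ∃ c : ℝ≥0∞, c ≠ ⊤ ∧
        ∀ x : E n, ∫⁻ y, ((edist x y) ^ (-s) - c) ∂μ ≤ δ := by
  intro δ hδ
  rcases F.eq_empty_or_nonempty with hFe | hFne
  · refine ⟨0, ENNReal.zero_ne_top, fun x => ?_⟩
    have : μ = 0 := by
      rw [hFe, compl_empty, Measure.measure_univ_eq_zero] at hμF
      exact hμF
    rw [this, lintegral_zero_measure]
    exact zero_le
  set C : ℝ≥0∞ := (2 : ℝ≥0∞) ^ s with hC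
  have hC0 : C ≠ 0 := by
    rw [hC]
    exact (ENNReal.rpow_pos (by norm_num) (by norm_num)).ne'
  have hCt : C ≠ ⊤ := ENNReal.rpow_ne_top_of_nonneg hs.le (by norm_num)
  obtain ⟨c, hc, hcF⟩ := h (δ / C) (ENNReal.div_pos hδ.ne' hCt)
  refine ⟨C * c, ENNReal.mul_ne_top hCt hc, fun x => ?_⟩
  obtain ⟨x', hx'F, hx'⟩ := hF.exists_infEDist_eq_edist hFne x
  have hae : ∀ᵐ y ∂μ, y ∈ F := by
    rw [ae_iff]
    exact hμF
  have hpt : ∀ y ∈ F, (edist x y) ^ (-s) ≤ C * (edist x' y) ^ (-s) := by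
    intro y hy
    have h1 : edist x' y ≤ 2 * edist x y := by
      have h2 : edist x x' ≤ edist x y := by
        rw [← hx']
        exact Metric.infEDist_le_edist_of_mem hy
      calc edist x' y ≤ edist x' x + edist x y := edist_triangle _ _ _
        _ ≤ edist x y + edist x y := by rw [edist_comm x' x]; gcongr
        _ = 2 * edist x y := (two_mul _).symm
    rw [ENNReal.rpow_neg, ENNReal.rpow_neg, hC]
    have h3 : (edist x' y) ^ s ≤ 2 ^ s * (edist x y) ^ s := by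
      rw [← ENNReal.mul_rpow_of_nonneg _ _ hs.le]
      exact ENNReal.rpow_le_rpow h1 hs.le
    have h4 : (2 ^ s * (edist x y) ^ s)⁻¹ ≤ ((edist x' y) ^ s)⁻¹ := ENNReal.inv_le_inv.2 h3
    have h5 : ((edist x y) ^ s)⁻¹ = 2 ^ s * (2 ^ s * (edist x y) ^ s)⁻¹ := by
      rw [ENNReal.mul_inv (Or.inl hC0) (Or.inl hCt), ← mul_assoc,
        ENNReal.mul_inv_cancel hC0 hCt, one_mul]
    rw [h5]
    gcongr
  calc ∫⁻ y, ((edist x y) ^ (-s) - C * c) ∂μ
      ≤ ∫⁻ y, C * ((edist x' y) ^ (-s) - c) ∂μ := by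
        apply lintegral_mono_ae
        filter_upwards [hae] with y hy
        rw [ENNReal.mul_sub (fun _ _ => hCt)]
        exact tsub_le_tsub_right (hpt y hy) _
    _ = C * ∫⁻ y, ((edist x' y) ^ (-s) - c) ∂μ :=
        lintegral_const_mul _ ((meas_k_right s x').sub measurable_const)
    _ ≤ C * (δ / C) := by gcongr; exact hcF x' hx'F
    _ = δ := ENNReal.mul_div_cancel hC0 hCt

private theorem cont_k {n : ℕ} (s : ℝ) (y : E n) :
    Continuous (fun x : E n => (edist x y) ^ (-s)) := by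
  have h1 : Continuous (fun x : E n => edist x y) := continuous_id.edist continuous_const
  exact ENNReal.continuous_rpow_const.comp h1

theorem continuous_pot {n : ℕ} {s : ℝ} (hs : 0 < s) {μ : Measure (E n)} [IsFiniteMeasure μ]
    (h : ∀ δ : ℝ≥0∞, 0 < δ → ∃ c : ℝ≥0∞, c ≠ ⊤ ∧
        ∀ x : E n, ∫⁻ y, ((edist x y) ^ (-s) - c) ∂μ ≤ δ) :
    Continuous (fun x => (pot s μ x).toReal) ∧ ∀ x, pot s μ x < ⊤ := by
  have hPfin : ∀ c : ℝ≥0∞, c ≠ ⊤ → ∀ x : E n, ∫⁻ y, min ((edist x y) ^ (-s)) c ∂μ < ⊤ := by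
    intro c hc x
    calc ∫⁻ y, min ((edist x y) ^ (-s)) c ∂μ ≤ ∫⁻ _, c ∂μ := lintegral_mono fun y => min_le_right _ _
      _ = c * μ univ := lintegral_const c
      _ < ⊤ := ENNReal.mul_lt_top hc.lt_top (measure_lt_top μ univ)
  have hle : ∀ c : ℝ≥0∞, ∀ x : E n,
      pot s μ x ≤ ∫⁻ y, min ((edist x y) ^ (-s)) c ∂μ + ∫⁻ y, ((edist x y) ^ (-s) - c) ∂μ := by
    intro c x
    rw [← lintegral_add_left ((meas_k_right s x).min measurable_const)]
    apply lintegral_mono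
    intro y
    show (edist x y) ^ (-s) ≤ min ((edist x y) ^ (-s)) c + ((edist x y) ^ (-s) - c)
    rcases le_total ((edist x y) ^ (-s)) c with h1 | h1
    · rw [min_eq_left h1]
      exact le_self_add
    · rw [min_eq_right h1]
      exact le_add_tsub
  have hPcont : ∀ c : ℝ≥0∞, c ≠ ⊤ →
      Continuous (fun x : E n => ∫⁻ y, min ((edist x y) ^ (-s)) c ∂μ) := by
    intro c hc
    rw [continuous_iff_continuousAt]
    intro x0
    apply tendsto_lintegral_filter_of_dominated_convergence (fun _ => c)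
    · exact Eventually.of_forall fun x => (meas_k_right s x).min measurable_const
    · exact Eventually.of_forall fun x => Eventually.of_forall fun y => min_le_right _ _
    · rw [lintegral_const]
      exact (ENNReal.mul_lt_top hc.lt_top (measure_lt_top μ univ)).ne
    · refine Eventually.of_forall fun y => ?_
      exact ((cont_k s y).min continuous_const).tendsto x0
  have hfin : ∀ x, pot s μ x < ⊤ := by
    intro x
    obtain ⟨c, hc, hcx⟩ := h 1 one_pos
    refine (hle c x).trans_lt ?_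
    exact ENNReal.add_lt_top.2 ⟨hPfin c hc x, (hcx x).trans_lt ENNReal.one_lt_top⟩
  refine ⟨?_, hfin⟩
  rw [Metric.continuous_iff]
  intro x0 ε hε
  obtain ⟨c, hc, hcx⟩ := h (ENNReal.ofReal (ε / 4)) (by simpa using by positivity)
  have hPr : Continuous (fun x : E n => (∫⁻ y, min ((edist x y) ^ (-s)) c ∂μ).toReal) := by
    rw [continuous_iff_continuousAt]
    intro x
    exact (ENNReal.tendsto_toReal (hPfin c hc x).ne).comp ((hPcont c hc).tendsto x)
  obtain ⟨d, hd, hdx⟩ := Metric.continuous_iff.1 hPr x0 (ε / 4) (by positivity)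
  refine ⟨d, hd, fun x hx => ?_⟩
  have key : ∀ x : E n, (∫⁻ y, min ((edist x y) ^ (-s)) c ∂μ).toReal ≤ (pot s μ x).toReal ∧
      (pot s μ x).toReal ≤ (∫⁻ y, min ((edist x y) ^ (-s)) c ∂μ).toReal + ε / 4 := by
    intro x
    constructor
    · exact ENNReal.toReal_mono (hfin x).ne (lintegral_mono fun y => min_le_left _ _)
    · have h1 : pot s μ x ≤ ∫⁻ y, min ((edist x y) ^ (-s)) c ∂μ + ENNReal.ofReal (ε / 4) :=
        (hle c x).trans (by gcongr; exact hcx x)
      have h2 := ENNReal.toReal_mono (ENNReal.add_ne_top.2 ⟨(hPfin c hc x).ne,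
        ENNReal.ofReal_ne_top⟩) h1
      rwa [ENNReal.toReal_add (hPfin c hc x).ne ENNReal.ofReal_ne_top,
        ENNReal.toReal_ofReal (by positivity)] at h2
  have h5 := hdx x hx
  rw [Real.dist_eq] at h5 ⊢
  have k1 := key x
  have k2 := key x0
  rw [abs_lt] at h5 ⊢
  constructor <;> linarith [k1.1, k1.2, k2.1, k2.2, h5.1, h5.2]

end Pool.Agent.Lib.MP_6cd19d_an.ND
end

section

/-!
# P6: equilibrium measures

Proof of `pot_le_of_ae`. (`μ` finite, `μ Kᶜ = 0`, `K` compact, `pot s μ ≤ m < ⊤` `μ`-a.e.) Let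
`S = K ∩ {x | pot s μ x ≤ m}` (measurable, `μ Sᶜ = 0`). Let `x : E n`; put `k y = (edist x y)^(-s)`.
For `c ≠ ⊤` and `ε > 0` let `F` be as in `exists_compact_unif` (P4) for `S`, `ε`, and `μ' = μ.restrict F`;
`μ' ≤ μ`, so the uniform smallness holds for `μ'` on `F`, hence everywhere (`unif_everywhere`), and
`pot s μ'` is continuous (`continuous_pot`); `pot s μ' ≤ pot s μ ≤ m` on `F`, so `pot s μ' ≤ m` everywhere
(`max_principle`). Then `∫⁻ min k c dμ ≤ ∫⁻ min k c dμ' + c * μ Fᶜ ≤ m + c ε`. Let `ε → 0`, then `c → ⊤`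
(monotone convergence, or `lintegral` of a supremum over `c : ℕ`).

`exists_equilibrium`: P1 and `pot_ae_eq` (P2) and `pot_le_of_ae`.
-/

set_option autoImplicit false

open MeasureTheory Set Filter Topology
open scoped ENNReal

namespace Pool.Agent.Lib.MP_6cd19d_an.ND

theorem pot_le_of_ae {n : ℕ} {s : ℝ} (hs : 0 < s) (hs1 : (n : ℝ) - 2 ≤ s) {K : Set (E n)}
    (hK : IsCompact K) {μ : Measure (E n)} [IsFiniteMeasure μ] (hμK : μ Kᶜ = 0) {m : ℝ≥0∞}
    (hm : m ≠ ⊤) (h : ∀ᵐ x ∂μ, pot s μ x ≤ m) (x : E n) : pot s μ x ≤ m := by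
  have hmeas : Measurable (pot s μ) := measurable_pot s μ
  have hk : Measurable (fun y : E n => (edist x y) ^ (-s)) :=
    (measurable_const.edist measurable_id).pow_const _
  set S : Set (E n) := K ∩ {x | pot s μ x ≤ m} with hSdef
  have hS : MeasurableSet S := hK.measurableSet.inter (measurableSet_le hmeas measurable_const)
  have hS0 : μ Sᶜ = 0 := by
    rw [hSdef, compl_inter]
    exact measure_union_null hμK h
  have hSfin : ∀ x ∈ S, pot s μ x < ⊤ := fun x hx => lt_of_le_of_lt hx.2 hm.lt_top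
  have key : ∀ c : ℝ≥0∞, c ≠ ⊤ → ∀ ε : ℝ≥0∞, 0 < ε →
      ∫⁻ y, min ((edist x y) ^ (-s)) c ∂μ ≤ m + c * ε := by
    intro c hc ε hε
    obtain ⟨F, hF, hFS, hFμ, hunif⟩ := exists_compact_unif hs hS hS0 hSfin hε
    have hμ'F : (μ.restrict F) Fᶜ = 0 := by
      rw [Measure.restrict_apply hF.measurableSet.compl, compl_inter_self, measure_empty]
    have hunif' := unif_everywhere hs hF hμ'F (fun δ hδ => by
      obtain ⟨c, hc, hcx⟩ := hunif δ hδ
      exact ⟨c, hc, fun x hx =>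
        (lintegral_mono' Measure.restrict_le_self le_rfl).trans (hcx x hx)⟩)
    obtain ⟨hcont, hfin'⟩ := continuous_pot hs hunif'
    have hle : ∀ x ∈ F, pot s (μ.restrict F) x ≤ m := fun x hx =>
      (lintegral_mono' Measure.restrict_le_self le_rfl).trans (hFS hx).2
    have hmax := max_principle hs hs1 hF hμ'F hcont hfin' hle x
    calc ∫⁻ y, min ((edist x y) ^ (-s)) c ∂μ
        = ∫⁻ y in F, min ((edist x y) ^ (-s)) c ∂μ
          + ∫⁻ y in Fᶜ, min ((edist x y) ^ (-s)) c ∂μ :=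
          (lintegral_add_compl _ hF.measurableSet).symm
      _ ≤ pot s (μ.restrict F) x + c * μ Fᶜ := by
          refine add_le_add (lintegral_mono fun y => min_le_left _ _) ?_
          refine (lintegral_mono (g := fun _ => c) fun y => min_le_right _ _).trans ?_
          rw [lintegral_const, Measure.restrict_apply_univ]
      _ ≤ m + c * ε := by gcongr
  have key2 : ∀ c : ℝ≥0∞, c ≠ ⊤ → ∫⁻ y, min ((edist x y) ^ (-s)) c ∂μ ≤ m := by
    intro c hc
    refine ENNReal.le_of_forall_pos_le_add fun ε hε _ => ?_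
    have hc1 : c + 1 ≠ ⊤ := ENNReal.add_ne_top.2 ⟨hc, ENNReal.one_ne_top⟩
    have hc0 : c + 1 ≠ 0 := by simp
    have h1 := key c hc ((ε : ℝ≥0∞) / (c + 1))
      (ENNReal.div_pos (by simpa using hε.ne') hc1)
    refine h1.trans ?_
    gcongr
    calc c * ((ε : ℝ≥0∞) / (c + 1)) ≤ (c + 1) * ((ε : ℝ≥0∞) / (c + 1)) := by
          gcongr
          exact le_self_add
      _ = ε := ENNReal.mul_div_cancel hc0 hc1
  have h3 : pot s μ x = ⨆ j : ℕ, ∫⁻ y, min ((edist x y) ^ (-s)) (j : ℝ≥0∞) ∂μ := by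
    rw [← lintegral_iSup]
    · unfold pot
      congr 1
      funext z
      rw [← inf_iSup_eq, ENNReal.iSup_natCast, inf_top_eq]
    · intro j
      exact hk.min measurable_const
    · intro a b hab z
      exact min_le_min le_rfl (by exact_mod_cast hab)
  rw [h3]
  exact iSup_le fun j => key2 j (ENNReal.natCast_ne_top j)

theorem exists_equilibrium {n : ℕ} {s : ℝ} (hs : 0 < s) (hs1 : (n : ℝ) - 2 ≤ s) {K : Set (E n)}
    (hK : IsCompact K) (hfin : infEn s K ≠ ⊤) :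
    ∃ μ : Measure (E n), PK K μ ∧ en s μ = infEn s K ∧ (∀ᵐ x ∂μ, pot s μ x = infEn s K) ∧
      ∀ x, pot s μ x ≤ infEn s K := by
  obtain ⟨μ, hPK, hen⟩ := exists_minimizer hs hK hfin
  have hprob : IsProbabilityMeasure μ := ⟨hPK.1⟩
  have hae := pot_ae_eq hPK hen hfin
  exact ⟨μ, hPK, hen, hae, pot_le_of_ae hs hs1 hK hPK.2 hfin (hae.mono fun x hx => hx.le)⟩

end Pool.Agent.Lib.MP_6cd19d_an.ND
end
end

section

section

/-!
# B02: integrations by parts

`ibp`: `integral_mul_fderiv_eq_neg_fderiv_mul_of_integrable` (all three products are continuous with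
compact support, hence integrable). `ibp_lap`: apply `ibp` twice for each `i` to `A` and `z ↦ g (z - y)`
(first `pd i (pd i A) * g = - pd i A * pd i g`, then again), using `pd_sub_right`.
`ibp_grad`: apply `ibp` once for each `i`.
`ibp_double`. Abbreviate `f_i = pd i f`, `m_ij = pd i (pd j m)`; all integrals are over `E n × E n`; the
integrands are continuous with compact support (`f` has compact support), so Fubini is free.
(1) `∫ f_ii(x) m(x-y) dx = -∫ f_i(x) m_i(x-y) dx` for each `y`.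
(2) `∫ f_jj(y) m_i(x-y) dy = +∫ f_j(y) m_ij(x-y) dy` for each `x` (`pd_sub_left`).
So the left side is `-∑_{i,j} ∬ f_i(x) f_j(y) m_ij(x-y)`.
(3) `∫ f_i(x) m_ij(x-y) dx = -∫ f_ij(x) m_i(x-y) dx` (here `f_ij = pd j (pd i f)`; `m_ij = pd j (pd i m)`)
`= -∫ (pd i f_j)(x) m_i(x-y) dx` (`pd_comm`) `= ∫ f_j(x) m_ii(x-y) dx`. Multiply by `f_j(y)`, integrate in
`y` and sum over `i`, `j`.
`integral_lap_eq_zero`: `ibp_lap` with `g = 1`.
-/

set_option autoImplicit false

open MeasureTheory Set Filter Topology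
open scoped ENNReal ContDiff

namespace Pool.Agent.Lib.MP_6cd19d_an.ND

theorem hasCompactSupport_pd {n : ℕ} {f : E n → ℝ} (hf : HasCompactSupport f) (i : Fin n) :
    HasCompactSupport (pd i f) := by
  unfold pd
  exact hf.fderiv_apply (𝕜 := ℝ) (bv i)

theorem hasCompactSupport_lap {n : ℕ} {f : E n → ℝ} (hf : HasCompactSupport f) :
    HasCompactSupport (lap f) := by
  refine HasCompactSupport.intro (K := tsupport f) hf (fun x hx => ?_)
  have hsub : ∀ (g : E n → ℝ) (i : Fin n), tsupport (pd i g) ⊆ tsupport g := by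
    intro g i
    unfold pd
    exact tsupport_fderiv_apply_subset ℝ (bv i)
  unfold lap
  refine Finset.sum_eq_zero (fun i _ => ?_)
  exact image_eq_zero_of_notMem_tsupport (fun h => hx (hsub f i (hsub (pd i f) i h)))

private theorem int_mul {n : ℕ} {f g : E n → ℝ} (hf : Continuous f) (hg : Continuous g)
    (hc : HasCompactSupport f) : Integrable (fun x => f x * g x) := by
  exact (hf.mul hg).integrable_of_hasCompactSupport (hc.mul_right)

theorem ibp {n : ℕ} {f g : E n → ℝ} (hf : ContDiff ℝ ∞ f) (hg : ContDiff ℝ ∞ g)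
    (hc : HasCompactSupport f) (i : Fin n) :
    ∫ x, pd i f x * g x = -∫ x, f x * pd i g x := by
  have h := integral_mul_fderiv_eq_neg_fderiv_mul_of_integrable (μ := (volume : Measure (E n)))
    (𝕜 := ℝ) (f := f) (g := g) (v := bv i)
    (int_mul (contDiff_pd hf i).continuous hg.continuous (hasCompactSupport_pd hc i))
    (int_mul hf.continuous (contDiff_pd hg i).continuous hc)
    (int_mul hf.continuous hg.continuous hc)
    (fun x _ => (hf.differentiable (by simp)).differentiableAt)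
    (fun x _ => (hg.differentiable (by simp)).differentiableAt)
  unfold pd
  rw [h, neg_neg]

private theorem contDiff_shift {n : ℕ} {g : E n → ℝ} (hg : ContDiff ℝ ∞ g) (y : E n) :
    ContDiff ℝ ∞ (fun z => g (z - y)) :=
  hg.comp (contDiff_id.sub contDiff_const)

private theorem contDiff_shift' {n : ℕ} {g : E n → ℝ} (hg : ContDiff ℝ ∞ g) (y : E n) :
    ContDiff ℝ ∞ (fun z => g (y - z)) :=
  hg.comp (contDiff_const.sub contDiff_id)

private theorem ibp_shift {n : ℕ} {f g : E n → ℝ} (hf : ContDiff ℝ ∞ f) (hg : ContDiff ℝ ∞ g)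
    (hc : HasCompactSupport f) (i : Fin n) (y : E n) :
    ∫ x, pd i f x * g (x - y) = -∫ x, f x * pd i g (x - y) := by
  rw [ibp hf (contDiff_shift hg y) hc i]
  congr 1
  refine integral_congr_ae (Eventually.of_forall (fun x => ?_))
  simp only [pd_sub_right hg i x y]

private theorem ibp_shift' {n : ℕ} {f g : E n → ℝ} (hf : ContDiff ℝ ∞ f) (hg : ContDiff ℝ ∞ g)
    (hc : HasCompactSupport f) (i : Fin n) (y : E n) :
    ∫ x, pd i f x * g (y - x) = ∫ x, f x * pd i g (y - x) := by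
  rw [ibp hf (contDiff_shift' hg y) hc i, ← integral_neg]
  refine integral_congr_ae (Eventually.of_forall (fun x => ?_))
  simp only [pd_sub_left hg i y x]
  ring

theorem ibp_lap {n : ℕ} {A g : E n → ℝ} (hA : ContDiff ℝ ∞ A) (hg : ContDiff ℝ ∞ g)
    (hc : HasCompactSupport A) (y : E n) :
    ∫ x, lap A x * g (x - y) = ∫ x, A x * lap g (x - y) := by
  have e1 : ∀ x, lap A x * g (x - y) = ∑ i, pd i (pd i A) x * g (x - y) := by
    intro x
    unfold lap
    rw [Finset.sum_mul]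
  have e2 : ∀ x, A x * lap g (x - y) = ∑ i, A x * pd i (pd i g) (x - y) := by
    intro x
    unfold lap
    rw [Finset.mul_sum]
  simp only [e1, e2]
  rw [integral_finsetSum, integral_finsetSum]
  · refine Finset.sum_congr rfl (fun i _ => ?_)
    rw [ibp_shift (contDiff_pd hA i) hg (hasCompactSupport_pd hc i) i y,
      ibp_shift hA (contDiff_pd hg i) hc i y, neg_neg]
  · intro i _
    exact int_mul hA.continuous (contDiff_shift (contDiff_pd (contDiff_pd hg i) i) y).continuous hc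
  · intro i _
    exact int_mul (contDiff_pd (contDiff_pd hA i) i).continuous (contDiff_shift hg y).continuous
      (hasCompactSupport_pd (hasCompactSupport_pd hc i) i)

theorem ibp_grad {n : ℕ} {f g : E n → ℝ} (hf : ContDiff ℝ ∞ f) (hg : ContDiff ℝ ∞ g)
    (hc : HasCompactSupport f) (y : E n) :
    ∫ x, lap f x * g (x - y) = -∫ x, ∑ i, pd i f x * pd i g (x - y) := by
  have e1 : ∀ x, lap f x * g (x - y) = ∑ i, pd i (pd i f) x * g (x - y) := by
    intro x
    unfold lap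
    rw [Finset.sum_mul]
  simp only [e1]
  rw [integral_finsetSum, integral_finsetSum, ← Finset.sum_neg_distrib]
  · refine Finset.sum_congr rfl (fun i _ => ?_)
    rw [ibp_shift (contDiff_pd hf i) hg (hasCompactSupport_pd hc i) i y]
  · intro i _
    exact int_mul (contDiff_pd hf i).continuous (contDiff_shift (contDiff_pd hg i) y).continuous
      (hasCompactSupport_pd hc i)
  · intro i _
    exact int_mul (contDiff_pd (contDiff_pd hf i) i).continuous (contDiff_shift hg y).continuous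
      (hasCompactSupport_pd (hasCompactSupport_pd hc i) i)

theorem integral_lap_eq_zero {n : ℕ} {f : E n → ℝ} (hf : ContDiff ℝ ∞ f)
    (hc : HasCompactSupport f) : ∫ x, lap f x = 0 := by
  have h := ibp_lap (g := fun _ => (1 : ℝ)) hf contDiff_const hc 0
  simp only [lap_const, mul_one, mul_zero, integral_zero] at h
  exact h

/-- Continuous with compact support on the product, hence integrable. -/
private theorem int_prod {n : ℕ} {P Q R : E n → ℝ} (hP : Continuous P) (hQ : Continuous Q)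
    (hR : Continuous R) (cP : HasCompactSupport P) (cQ : HasCompactSupport Q) :
    Integrable (fun z : E n × E n => P z.1 * Q z.2 * R (z.1 - z.2)) := by
  have hcont : Continuous (fun z : E n × E n => P z.1 * Q z.2 * R (z.1 - z.2)) :=
    ((hP.comp continuous_fst).mul (hQ.comp continuous_snd)).mul
      (hR.comp (continuous_fst.sub continuous_snd))
  refine hcont.integrable_of_hasCompactSupport ?_
  refine HasCompactSupport.intro (K := tsupport P ×ˢ tsupport Q) (IsCompact.prod cP cQ) ?_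
  intro z hz
  by_cases h1 : z.1 ∈ tsupport P
  · have h2 : z.2 ∉ tsupport Q := fun h2 => hz ⟨h1, h2⟩
    simp only [image_eq_zero_of_notMem_tsupport h2, mul_zero, zero_mul]
  · simp only [image_eq_zero_of_notMem_tsupport h1, zero_mul]

private theorem double_x {n : ℕ} {P Q R : E n → ℝ} (hP : ContDiff ℝ ∞ P) (hQ : ContDiff ℝ ∞ Q)
    (hR : ContDiff ℝ ∞ R) (cP : HasCompactSupport P) (cQ : HasCompactSupport Q) (i : Fin n) :
    ∫ z : E n × E n, pd i P z.1 * Q z.2 * R (z.1 - z.2) =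
      -∫ z : E n × E n, P z.1 * Q z.2 * pd i R (z.1 - z.2) := by
  have i1 := int_prod (contDiff_pd hP i).continuous hQ.continuous hR.continuous
    (hasCompactSupport_pd cP i) cQ
  have i2 := int_prod hP.continuous hQ.continuous (contDiff_pd hR i).continuous cP cQ
  rw [Measure.volume_eq_prod] at i1 i2 ⊢
  rw [integral_prod_symm _ i1, integral_prod_symm _ i2, ← integral_neg]
  refine integral_congr_ae (Eventually.of_forall (fun y => ?_))
  simp only
  have h := ibp_shift hP hR cP i y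
  have e1 : ∀ x, pd i P x * Q y * R (x - y) = Q y * (pd i P x * R (x - y)) := fun x => by ring
  have e2 : ∀ x, P x * Q y * pd i R (x - y) = Q y * (P x * pd i R (x - y)) := fun x => by ring
  simp only [e1, e2]
  rw [integral_const_mul, integral_const_mul, h]
  ring

private theorem double_y {n : ℕ} {P Q R : E n → ℝ} (hP : ContDiff ℝ ∞ P) (hQ : ContDiff ℝ ∞ Q)
    (hR : ContDiff ℝ ∞ R) (cP : HasCompactSupport P) (cQ : HasCompactSupport Q) (i : Fin n) :
    ∫ z : E n × E n, P z.1 * pd i Q z.2 * R (z.1 - z.2) =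
      ∫ z : E n × E n, P z.1 * Q z.2 * pd i R (z.1 - z.2) := by
  have i1 := int_prod hP.continuous (contDiff_pd hQ i).continuous hR.continuous
    cP (hasCompactSupport_pd cQ i)
  have i2 := int_prod hP.continuous hQ.continuous (contDiff_pd hR i).continuous cP cQ
  rw [Measure.volume_eq_prod] at i1 i2 ⊢
  rw [integral_prod _ i1, integral_prod _ i2]
  refine integral_congr_ae (Eventually.of_forall (fun x => ?_))
  simp only
  have h := ibp_shift' hQ hR cQ i x
  have e1 : ∀ y, P x * pd i Q y * R (x - y) = P x * (pd i Q y * R (x - y)) := fun y => by ring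
  have e2 : ∀ y, P x * Q y * pd i R (x - y) = P x * (Q y * pd i R (x - y)) := fun y => by ring
  simp only [e1, e2]
  rw [integral_const_mul, integral_const_mul, h]

private theorem double_swap {n : ℕ} {f m : E n → ℝ} (hf : ContDiff ℝ ∞ f) (hm : ContDiff ℝ ∞ m)
    (hc : HasCompactSupport f) (i j : Fin n) :
    ∫ z : E n × E n, pd i (pd i f) z.1 * pd j (pd j f) z.2 * m (z.1 - z.2) =
      -∫ z : E n × E n, pd j f z.1 * pd j f z.2 * pd i (pd i m) (z.1 - z.2) := by
  have ci := hasCompactSupport_pd hc i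
  have cj := hasCompactSupport_pd hc j
  have fi := contDiff_pd hf i
  have fj := contDiff_pd hf j
  have mi := contDiff_pd hm i
  have s1 := double_x fi (contDiff_pd fj j) hm ci (hasCompactSupport_pd cj j) i
  have s2 := double_y fi fj mi ci cj j
  have s3 := double_x fi fj mi ci cj j
  have s4 := double_x fj fj mi cj cj i
  have e : pd j (pd i f) = pd i (pd j f) := funext (fun x => pd_comm hf j i x)
  rw [e] at s3
  rw [s1, s2]
  linarith

theorem ibp_double {n : ℕ} {f m : E n → ℝ} (hf : ContDiff ℝ ∞ f) (hm : ContDiff ℝ ∞ m)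
    (hc : HasCompactSupport f) :
    ∫ z : E n × E n, lap f z.1 * lap f z.2 * m (z.1 - z.2) =
      -∫ z : E n × E n, (∑ i, pd i f z.1 * pd i f z.2) * lap m (z.1 - z.2) := by
  have e1 : ∀ z : E n × E n, lap f z.1 * lap f z.2 * m (z.1 - z.2) =
      ∑ j, ∑ i, pd i (pd i f) z.1 * pd j (pd j f) z.2 * m (z.1 - z.2) := by
    intro z
    unfold lap
    rw [Finset.sum_mul_sum, Finset.sum_mul, Finset.sum_comm]
    refine Finset.sum_congr rfl (fun i _ => ?_)
    rw [Finset.sum_mul]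
  have e2 : ∀ z : E n × E n, (∑ i, pd i f z.1 * pd i f z.2) * lap m (z.1 - z.2) =
      ∑ j, ∑ i, pd j f z.1 * pd j f z.2 * pd i (pd i m) (z.1 - z.2) := by
    intro z
    unfold lap
    rw [Finset.sum_mul_sum]
  have ci : ∀ i, HasCompactSupport (pd i f) := hasCompactSupport_pd hc
  have fi : ∀ i, ContDiff ℝ ∞ (pd i f) := contDiff_pd hf
  have I1 : ∀ i j : Fin n, Integrable
      (fun z : E n × E n => pd i (pd i f) z.1 * pd j (pd j f) z.2 * m (z.1 - z.2)) := fun i j =>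
    int_prod (contDiff_pd (fi i) i).continuous (contDiff_pd (fi j) j).continuous hm.continuous
      (hasCompactSupport_pd (ci i) i) (hasCompactSupport_pd (ci j) j)
  have I2 : ∀ i j : Fin n, Integrable
      (fun z : E n × E n => pd j f z.1 * pd j f z.2 * pd i (pd i m) (z.1 - z.2)) := fun i j =>
    int_prod (fi j).continuous (fi j).continuous
      (contDiff_pd (contDiff_pd hm i) i).continuous (ci j) (ci j)
  simp only [e1, e2]
  rw [integral_finsetSum _ (fun j _ => integrable_finsetSum _ (fun i _ => I1 i j)),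
    integral_finsetSum _ (fun j _ => integrable_finsetSum _ (fun i _ => I2 i j)),
    ← Finset.sum_neg_distrib]
  refine Finset.sum_congr rfl (fun j _ => ?_)
  rw [integral_finsetSum _ (fun i _ => I1 i j), integral_finsetSum _ (fun i _ => I2 i j),
    ← Finset.sum_neg_distrib]
  exact Finset.sum_congr rfl (fun i _ => double_swap hf hm hc i j)

end Pool.Agent.Lib.MP_6cd19d_an.ND
end

section

/-!
# B04: the cut-off function and its primitive

`cut d v = smoothTransition ((1 + d - v) / (2 d))`: smooth, antitone, values in `[0,1]`, `= 1` for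
`v ≤ 1 - d`, `= 0` for `v ≥ 1 + d` (`Real.smoothTransition`). `ze d v = ∫ t in 0..v, cut d t`, with
`deriv (ze d) = cut d`. `Zf d v = ze d v - v * cut d v`, `deriv (Zf d) v = - v * deriv (cut d) v`.
`ze_const`: for `v ≥ 1 + d` the integral over `[1+d, v]` vanishes. `ze_le`: `cut ≤ 1` and `v ≥ 0`.
`cut_deriv_zero`: outside `[1-d, 1+d]` the function `cut d` is locally constant on one side, closed set:
for `v ≤ 1 - d` it is constant on `(-∞, 1-d]`, so the derivative (which exists) is `0`; same on the right.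
`deriv_cut_neg`: some `v` with `deriv (cut d) v < 0`, because `cut d` is not constant (mean value theorem).
-/

set_option autoImplicit false

open MeasureTheory Set Filter Topology
open scoped ENNReal ContDiff

namespace Pool.Agent.Lib.MP_6cd19d_an.ND

/-- A smooth decreasing function, `1` for `v ≤ 1 - d` and `0` for `v ≥ 1 + d`. -/
noncomputable def cut (d v : ℝ) : ℝ := Real.smoothTransition ((1 + d - v) / (2 * d))

/-- Its primitive, a concave function equal to `v` for `v ≤ 1 - d`, constant for `v ≥ 1 + d`. -/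
noncomputable def ze (d v : ℝ) : ℝ := ∫ t in (0 : ℝ)..v, cut d t

/-- The derivative in `s` of `s * ze d (t / s)` is `Zf d (t / s)`. -/
noncomputable def Zf (d v : ℝ) : ℝ := ze d v - v * cut d v

theorem contDiff_cut (d : ℝ) : ContDiff ℝ ∞ (cut d) := by
  have h1 : ContDiff ℝ ∞ (fun v : ℝ => (1 + d - v) / (2 * d)) := by fun_prop
  exact (Real.smoothTransition.contDiff (n := ⊤)).comp h1

theorem cut_nonneg (d v : ℝ) : 0 ≤ cut d v := by
  exact Real.smoothTransition.nonneg _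

theorem cut_le_one (d v : ℝ) : cut d v ≤ 1 := by
  exact Real.smoothTransition.le_one _

theorem cut_eq_one {d v : ℝ} (hd : 0 < d) (hv : v ≤ 1 - d) : cut d v = 1 := by
  refine Real.smoothTransition.one_of_one_le ?_
  rw [le_div_iff₀ (by positivity)]
  linarith

theorem cut_eq_zero {d v : ℝ} (hd : 0 < d) (hv : 1 + d ≤ v) : cut d v = 0 := by
  refine Real.smoothTransition.zero_of_nonpos ?_
  exact div_nonpos_of_nonpos_of_nonneg (by linarith) (by positivity)

theorem deriv_cut_nonpos {d : ℝ} (hd : 0 < d) (v : ℝ) : deriv (cut d) v ≤ 0 := by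
  have hanti : Antitone (cut d) := by
    intro a b hab
    refine Real.smoothTransition.monotone ?_
    exact div_le_div_of_nonneg_right (by linarith) (by positivity)
  exact hanti.deriv_nonpos

theorem cut_deriv_zero {d v : ℝ} (hd : 0 < d) (hv : v ≤ 1 - d ∨ 1 + d ≤ v) :
    deriv (cut d) v = 0 := by
  have hdiff : HasDerivAt (cut d) (deriv (cut d) v) v :=
    ((contDiff_cut d).differentiable (by simp) v).hasDerivAt
  rcases hv with hv | hv
  · have h1 : HasDerivWithinAt (cut d) 0 (Iic v) v := by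
      refine (hasDerivWithinAt_const v (Iic v) (1 : ℝ)).congr (fun w hw => ?_) ?_
      · exact cut_eq_one hd (le_trans hw hv)
      · exact cut_eq_one hd hv
    exact (uniqueDiffWithinAt_Iic v).eq_deriv _ hdiff.hasDerivWithinAt h1
  · have h1 : HasDerivWithinAt (cut d) 0 (Ici v) v := by
      refine (hasDerivWithinAt_const v (Ici v) (0 : ℝ)).congr (fun w hw => ?_) ?_
      · exact cut_eq_zero hd (le_trans hv hw)
      · exact cut_eq_zero hd hv
    exact (uniqueDiffWithinAt_Ici v).eq_deriv _ hdiff.hasDerivWithinAt h1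

theorem deriv_cut_neg {d : ℝ} (hd : 0 < d) : ∃ v, 1 - d < v ∧ v < 1 + d ∧ deriv (cut d) v < 0 := by
  obtain ⟨c, hc, hceq⟩ := exists_deriv_eq_slope (cut d) (a := 1 - d) (b := 1 + d) (by linarith)
    (contDiff_cut d).continuous.continuousOn
    ((contDiff_cut d).differentiable (by simp)).differentiableOn
  refine ⟨c, hc.1, hc.2, ?_⟩
  rw [hceq, cut_eq_zero hd le_rfl, cut_eq_one hd le_rfl]
  exact div_neg_of_neg_of_pos (by norm_num) (by linarith)

theorem hasDerivAt_ze (d v : ℝ) : HasDerivAt (ze d) (cut d v) v := by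
  exact ((contDiff_cut d).continuous.integral_hasStrictDerivAt 0 v).hasDerivAt

theorem contDiff_ze (d : ℝ) : ContDiff ℝ ∞ (ze d) := by
  rw [contDiff_infty_iff_deriv]
  refine ⟨fun v => (hasDerivAt_ze d v).differentiableAt, ?_⟩
  have h1 : deriv (ze d) = cut d := funext fun v => (hasDerivAt_ze d v).deriv
  rw [h1]
  exact contDiff_cut d

theorem ze_eq {d v : ℝ} (hd : 0 < d) (hd1 : d < 1) (hv : v ≤ 1 - d) : ze d v = v := by
  have h1 : ze d v = ∫ _t in (0 : ℝ)..v, (1 : ℝ) := by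
    refine intervalIntegral.integral_congr fun t ht => ?_
    refine cut_eq_one hd ?_
    rcases le_total 0 v with h | h
    · rw [uIcc_of_le h] at ht
      exact ht.2.trans hv
    · rw [uIcc_of_ge h] at ht
      exact ht.2.trans (by linarith)
  rw [h1]
  simp

theorem ze_const {d v : ℝ} (hd : 0 < d) (hv : 1 + d ≤ v) : ze d v = ze d (1 + d) := by
  have hc := (contDiff_cut d).continuous
  have h1 : ze d v = ze d (1 + d) + ∫ t in (1 + d)..v, cut d t :=
    (intervalIntegral.integral_add_adjacent_intervals (hc.intervalIntegrable _ _)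
      (hc.intervalIntegrable _ _)).symm
  have h2 : ∫ t in (1 + d)..v, cut d t = ∫ _t in (1 + d)..v, (0 : ℝ) := by
    refine intervalIntegral.integral_congr fun t ht => ?_
    rw [uIcc_of_le hv] at ht
    exact cut_eq_zero hd ht.1
  rw [h1, h2]
  simp

theorem ze_nonneg {d v : ℝ} (hv : 0 ≤ v) : 0 ≤ ze d v := by
  exact intervalIntegral.integral_nonneg hv fun u _ => cut_nonneg d u

theorem ze_le {d v : ℝ} (hv : 0 ≤ v) : ze d v ≤ v := by
  have hc := (contDiff_cut d).continuous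
  have h1 : ze d v ≤ ∫ _t in (0 : ℝ)..v, (1 : ℝ) :=
    intervalIntegral.integral_mono_on hv (hc.intervalIntegrable _ _)
      (continuous_const.intervalIntegrable _ _) fun u _ => cut_le_one d u
  refine h1.trans ?_
  simp

theorem contDiff_Zf (d : ℝ) : ContDiff ℝ ∞ (Zf d) := by
  exact (contDiff_ze d).sub (contDiff_id.mul (contDiff_cut d))

theorem hasDerivAt_Zf (d v : ℝ) : HasDerivAt (Zf d) (-v * deriv (cut d) v) v := by
  have hdiff : HasDerivAt (cut d) (deriv (cut d) v) v :=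
    ((contDiff_cut d).differentiable (by simp) v).hasDerivAt
  refine ((hasDerivAt_ze d v).sub ((hasDerivAt_id v).mul hdiff)).congr_deriv ?_
  simp

theorem Zf_eq_zero {d v : ℝ} (hd : 0 < d) (hd1 : d < 1) (hv : v ≤ 1 - d) : Zf d v = 0 := by
  rw [Zf, ze_eq hd hd1 hv, cut_eq_one hd hv]
  ring

end Pool.Agent.Lib.MP_6cd19d_an.ND
end
end
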