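import Pool.Agent.Lib.MP_6cd19d_an.ND.B19c

section

/-!
# MP_6cd19d_an, part (A): definitions

Part (A) compares the Riesz capacity of order `q`, `n - 2 < q < n`, with the Newton (logarithmic for
`n = 2`) capacity.  Paper: table `papers`, id 215.  The basic definitions (`E n`, `pot`, `en`, `PK`,
`infEn`, `capf`, `bv`, `HasD2`) are those of `ND/Defs.lean`.

* `rU, rS, vV` : the real integrals of `|x-ξ|^(-q)`, `|x-ξ|^(-q-2)`, `(ξ-x)|x-ξ|^(-q-2)`;
* `Nk n` : the Newton kernel `r^(2-n)/(n-2)` (`-log r` for `n = 2`);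
* `D2 g t a b` : `g` is differentiable near `t`, with first derivative `a` and second derivative
  `b` at `t`;
* `BallM`, `DualM` : the equilibrium measure of the unit ball and the dual measure.
-/

set_option autoImplicit false

open MeasureTheory Set Filter Topology Metric
open scoped ENNReal NNReal RealInnerProductSpace

namespace Pool.Agent.Lib.MP_6cd19d_an.A

open Pool.Agent.Lib.MP_6cd19d_an.ND

variable {n : ℕ}

/-- The potential for a general kernel. -/
noncomputable def kpot (k : E n → E n → ℝ≥0∞) (μ : Measure (E n)) (x : E n) : ℝ≥0∞ :=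
  ∫⁻ y, k x y ∂μ

/-- The energy for a general kernel. -/
noncomputable def ken (k : E n → E n → ℝ≥0∞) (μ : Measure (E n)) : ℝ≥0∞ :=
  ∫⁻ x, ∫⁻ y, k x y ∂μ ∂μ

/-- The infimum of the energies of probability measures on `K`. -/
noncomputable def kIn (k : E n → E n → ℝ≥0∞) (K : Set (E n)) : ℝ≥0∞ :=
  ⨅ (μ : Measure (E n)) (_ : PK K μ), ken k μ

/-- The real `q`-potential. -/
noncomputable def rU (q : ℝ) (μ : Measure (E n)) (x : E n) : ℝ := ∫ y, ‖x - y‖ ^ (-q) ∂μ

/-- The integral of `|x-y|^(-q-2)`. -/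
noncomputable def rS (q : ℝ) (μ : Measure (E n)) (x : E n) : ℝ :=
  ∫ y, ‖x - y‖ ^ (-q - 2) ∂μ

/-- The vector `∫ (y-x) |x-y|^(-q-2)`. -/
noncomputable def vV (q : ℝ) (μ : Measure (E n)) (x : E n) : E n :=
  ∫ y, (‖x - y‖ ^ (-q - 2)) • (y - x) ∂μ

/-- The Newton kernel as a function of the distance. -/
noncomputable def Nk (n : ℕ) (r : ℝ) : ℝ :=
  if n = 2 then -Real.log r else r ^ ((2 : ℝ) - n) / ((n : ℝ) - 2)

/-- The Newton kernel with a shift, in `[0,∞]`. -/
noncomputable def nk (n : ℕ) (c : ℝ) (x y : E n) : ℝ≥0∞ :=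
  if x = y then ⊤ else ENNReal.ofReal (c + Nk n (dist x y))

/-- The smooth Newton kernel with a shift, in `[0,∞]`. -/
noncomputable def nke (n : ℕ) (c e : ℝ) (x y : E n) : ℝ≥0∞ :=
  ENNReal.ofReal (c + Nk n (Real.sqrt (dist x y ^ 2 + e ^ 2)))

/-- `g` is differentiable near `t`, `g'(t) = a`, `g''(t) = b`. -/
def D2 (g : ℝ → ℝ) (t a b : ℝ) : Prop :=
  ∃ g1 : ℝ → ℝ, (∀ᶠ s in 𝓝 t, HasDerivAt g (g1 s) s) ∧ g1 t = a ∧ HasDerivAt g1 b t

/-- `HasD2` of `ND/Defs.lean` in terms of `D2`. -/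
theorem hasD2_iff (f : E n → ℝ) (x : E n) (g h : Fin n → ℝ) :
    HasD2 f x g h ↔ ∀ i, D2 (fun t : ℝ => f (x + t • (bv i : E n))) 0 (g i) (h i) := Iff.rfl

/-- The closed unit ball. -/
abbrev BB (n : ℕ) : Set (E n) := closedBall (0 : E n) 1

/-- The energy of the unit ball, as a real number. -/
noncomputable def kap (n : ℕ) (q : ℝ) : ℝ := (infEn q (BB n)).toReal

/-- `μ` is the radial equilibrium measure of the unit ball, and `u` its potential as a function of
the distance from the origin. -/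
structure BallM (n : ℕ) (q : ℝ) (μ : Measure (E n)) (u : ℝ → ℝ) : Prop where
  prob : μ univ = 1
  supp : μ (BB n)ᶜ = 0
  pot_eq : ∀ x : E n, pot q μ x = ENNReal.ofReal (u ‖x‖)
  u_in : ∀ s ∈ Icc (0 : ℝ) 1, u s = kap n q
  u_pos : ∀ s : ℝ, 0 ≤ s → 0 < u s
  u_le : ∀ s : ℝ, 0 ≤ s → u s ≤ kap n q

/-- A measure on the open unit ball whose `q`-potential is `j(|x|)`, `j s = 1 - c s^2` on `[0,1]`
and `j s ≥ 1 - c s^2` outside. -/
structure DualM (n : ℕ) (q c : ℝ) (Λ : Measure (E n)) (j : ℝ → ℝ) : Prop where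
  fin : Λ univ < ⊤
  supp : Λ (ball (0 : E n) 1)ᶜ = 0
  pot_eq : ∀ x : E n, pot q Λ x = ENNReal.ofReal (j ‖x‖)
  j_in : ∀ s ∈ Icc (0 : ℝ) 1, j s = 1 - c * s ^ 2
  j_ge : ∀ s : ℝ, 0 ≤ s → 1 - c * s ^ 2 ≤ j s
  j_nonneg : ∀ s : ℝ, 0 ≤ s → 0 ≤ j s

theorem norm_bv (i : Fin n) : ‖(bv i : E n)‖ = 1 := by
  simp [bv]

theorem inner_bv (i : Fin n) (x : E n) : ⟪x, (bv i : E n)⟫ = x i := by
  simp [bv, EuclideanSpace.inner_single_right]

theorem sum_sq (x : E n) : ∑ i, (x i) ^ 2 = ‖x‖ ^ 2 := by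
  rw [EuclideanSpace.norm_sq_eq]
  simp

end Pool.Agent.Lib.MP_6cd19d_an.A
end

section

/-!
# B01: elementary calculus in coordinates

`bv i` is the standard basis vector. `fderiv` facts: `contDiff_pd`: `ContDiff.fderiv_right` and
evaluation at a vector; `pd_comm`: symmetry of the second derivative (`second_derivative_symmetric`, or
`ContDiffAt.isSymmSndFDerivAt`); shifts: `fderiv_comp_sub` / chain rule with an affine map (for
`pd_sub_left` use `HasFDerivAt` if `f` is differentiable at the point and `fderiv = 0` otherwise, or simply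
note that `f` is assumed smooth). `lap_comp`: differentiate
`pd i (ψ ∘ f) = (ψ' ∘ f) * pd i f` once more (near `x`), and sum. `pd_normSq`: `‖x‖^2 = ∑ x_i^2`.
`pd_radial`, `lap_radial`: chain rule with `f = ‖·‖^2`: `pd i f = 2 x_i`, `lap f = 2 n`,
`∑ (pd i f)^2 = 4 ‖x‖^2`.
-/

set_option autoImplicit false

open MeasureTheory Set Filter Topology
open scoped ENNReal ContDiff

namespace Pool.Agent.Lib.MP_6cd19d_an.ND

/-- Partial derivative. -/
noncomputable def pd {n : ℕ} (i : Fin n) (f : E n → ℝ) (x : E n) : ℝ := fderiv ℝ f x (bv i)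

/-- Laplacian. -/
noncomputable def lap {n : ℕ} (f : E n → ℝ) (x : E n) : ℝ := ∑ i, pd i (pd i f) x

theorem contDiff_pd {n : ℕ} {f : E n → ℝ} (hf : ContDiff ℝ ∞ f) (i : Fin n) :
    ContDiff ℝ ∞ (pd i f) := by
  exact (hf.fderiv_right (m := ∞) (by simp)).clm_apply contDiff_const

theorem contDiff_lap {n : ℕ} {f : E n → ℝ} (hf : ContDiff ℝ ∞ f) : ContDiff ℝ ∞ (lap f) := by
  exact ContDiff.sum fun i _ => contDiff_pd (contDiff_pd hf i) i

theorem pd_comm {n : ℕ} {f : E n → ℝ} (hf : ContDiff ℝ ∞ f) (i j : Fin n) (x : E n) :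
    pd i (pd j f) x = pd j (pd i f) x := by
  have key : ∀ i j : Fin n, pd i (pd j f) x = fderiv ℝ (fderiv ℝ f) x (bv i) (bv j) := by
    intro i j
    have h1 : DifferentiableAt ℝ (fderiv ℝ f) x :=
      ((hf.fderiv_right (m := ∞) (by simp)).differentiable (by simp)) x
    have h2 := h1.hasFDerivAt.clm_apply (hasFDerivAt_const (bv j : E n) x)
    show fderiv ℝ (fun y => fderiv ℝ f y (bv j)) x (bv i) = _
    rw [h2.fderiv]
    simp
  rw [key, key]
  exact ((hf.of_le (m := 2) ENat.LEInfty.out).contDiffAt.isSymmSndFDerivAt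
    (by simp)) (bv i) (bv j)

theorem pd_sub_right {n : ℕ} {f : E n → ℝ} (hf : ContDiff ℝ ∞ f) (i : Fin n) (x y : E n) :
    pd i (fun z => f (z - y)) x = pd i f (x - y) := by
  unfold pd
  rw [fderiv_comp_sub]

theorem pd_sub_left {n : ℕ} {f : E n → ℝ} (hf : ContDiff ℝ ∞ f) (i : Fin n) (x y : E n) :
    pd i (fun z => f (x - z)) y = -pd i f (x - y) := by
  have h1 : HasFDerivAt f (fderiv ℝ f (x - y)) (x - y) :=
    ((hf.differentiable (by simp)) (x - y)).hasFDerivAt
  have h2 : HasFDerivAt (fun z : E n => x - z) (-ContinuousLinearMap.id ℝ (E n)) y :=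
    (hasFDerivAt_id y).const_sub x
  have h3 := h1.comp y h2
  show fderiv ℝ (f ∘ fun z => x - z) y (bv i) = _
  rw [h3.fderiv]
  simp [pd]

theorem lap_sub_right {n : ℕ} {f : E n → ℝ} (hf : ContDiff ℝ ∞ f) (x y : E n) :
    lap (fun z => f (z - y)) x = lap f (x - y) := by
  unfold lap
  refine Finset.sum_congr rfl fun i _ => ?_
  have h1 : pd i (fun z => f (z - y)) = fun z => pd i f (z - y) :=
    funext fun z => pd_sub_right hf i z y
  rw [h1]
  exact pd_sub_right (contDiff_pd hf i) i x y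

theorem pd_congr {n : ℕ} {f g : E n → ℝ} {x : E n} (h : f =ᶠ[𝓝 x] g) (i : Fin n) :
    pd i f x = pd i g x := by
  unfold pd
  rw [h.fderiv_eq]

theorem lap_congr {n : ℕ} {f g : E n → ℝ} {x : E n} (h : f =ᶠ[𝓝 x] g) : lap f x = lap g x := by
  unfold lap
  refine Finset.sum_congr rfl fun i _ => pd_congr ?_ i
  exact h.eventuallyEq_nhds.mono fun y hy => pd_congr hy i

theorem lap_const {n : ℕ} (c : ℝ) (x : E n) : lap (fun _ : E n => c) x = 0 := by
  have h1 : ∀ (i : Fin n) (d : ℝ), pd i (fun _ : E n => d) = fun _ => 0 := by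
    intro i d
    funext y
    simp [pd]
  unfold lap
  simp [h1]

theorem pd_comp {n : ℕ} {f : E n → ℝ} {ψ : ℝ → ℝ} {x : E n} (hψ : DifferentiableAt ℝ ψ (f x))
    (hf : DifferentiableAt ℝ f x) (i : Fin n) :
    pd i (fun z => ψ (f z)) x = deriv ψ (f x) * pd i f x := by
  have h1 := hψ.hasDerivAt.comp_hasFDerivAt x hf.hasFDerivAt
  show fderiv ℝ (ψ ∘ f) x (bv i) = _
  rw [h1.fderiv]
  simp [pd]

theorem lap_comp {n : ℕ} {f : E n → ℝ} {ψ : ℝ → ℝ} {x : E n} (hψ : ContDiffAt ℝ 2 ψ (f x))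
    (hf : ContDiffAt ℝ 2 f x) :
    lap (fun z => ψ (f z)) x =
      deriv ψ (f x) * lap f x + deriv (deriv ψ) (f x) * ∑ i, (pd i f x) ^ 2 := by
  have hf1 : ∀ i : Fin n, DifferentiableAt ℝ (pd i f) x := by
    intro i
    have h1 : ContDiffAt ℝ 1 (fderiv ℝ f) x := hf.fderiv_right (m := 1) (by norm_num)
    exact (h1.differentiableAt (by simp)).clm_apply (differentiableAt_const (bv i : E n))
  have hψ1 : DifferentiableAt ℝ (deriv ψ) (f x) :=
    (hψ.derivWithin (m := 1) (by norm_num)).differentiableAt (by simp)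
  have hfd : DifferentiableAt ℝ f x := hf.differentiableAt (by simp)
  have hev : ∀ᶠ z in 𝓝 x, DifferentiableAt ℝ f z ∧ DifferentiableAt ℝ ψ (f z) := by
    have h1 : ∀ᶠ z in 𝓝 x, ContDiffAt ℝ 2 f z := hf.eventually (by simp)
    have h2 : ∀ᶠ w in 𝓝 (f x), ContDiffAt ℝ 2 ψ w := hψ.eventually (by simp)
    have h3 := hfd.continuousAt.eventually h2
    filter_upwards [h1, h3] with z hz hz'
    exact ⟨hz.differentiableAt (by simp), hz'.differentiableAt (by simp)⟩
  unfold lap
  rw [Finset.mul_sum, Finset.mul_sum, ← Finset.sum_add_distrib]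
  refine Finset.sum_congr rfl fun i _ => ?_
  have h4 : pd i (fun z => ψ (f z)) =ᶠ[𝓝 x] fun z => deriv ψ (f z) * pd i f z := by
    filter_upwards [hev] with z hz
    exact pd_comp hz.2 hz.1 i
  rw [pd_congr h4 i]
  have h5 : DifferentiableAt ℝ (fun z => deriv ψ (f z)) x := DifferentiableAt.comp x hψ1 hfd
  have h6 : pd i (fun z => deriv ψ (f z)) x = deriv (deriv ψ) (f x) * pd i f x :=
    pd_comp hψ1 hfd i
  have h7 : pd i (fun z => deriv ψ (f z) * pd i f z) x =
      deriv ψ (f x) * pd i (pd i f) x + pd i f x * pd i (fun z => deriv ψ (f z)) x := by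
    show fderiv ℝ (fun z => deriv ψ (f z) * pd i f z) x (bv i) = _
    rw [fderiv_fun_mul h5 (hf1 i)]
    rfl
  rw [h7, h6]
  ring

theorem pd_sum {n N : ℕ} {f : Fin N → E n → ℝ} (hf : ∀ j, ContDiff ℝ ∞ (f j)) (c : Fin N → ℝ)
    (i : Fin n) (x : E n) : pd i (fun z => ∑ j, c j * f j z) x = ∑ j, c j * pd i (f j) x := by
  have h1 : ∀ j ∈ (Finset.univ : Finset (Fin N)), DifferentiableAt ℝ (fun z => c j * f j z) x :=
    fun j _ => (((hf j).differentiable (by simp)) x).const_mul (c j)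
  unfold pd
  rw [fderiv_fun_sum h1, sum_apply]
  refine Finset.sum_congr rfl fun j _ => ?_
  rw [fderiv_const_mul (((hf j).differentiable (by simp)) x)]
  rfl

theorem lap_sum {n N : ℕ} {f : Fin N → E n → ℝ} (hf : ∀ j, ContDiff ℝ ∞ (f j)) (c : Fin N → ℝ)
    (x : E n) : lap (fun z => ∑ j, c j * f j z) x = ∑ j, c j * lap (f j) x := by
  unfold lap
  have h1 : ∀ i : Fin n, pd i (fun z => ∑ j, c j * f j z) = fun z => ∑ j, c j * pd i (f j) z :=
    fun i => funext fun z => pd_sum hf c i z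
  simp only [h1]
  rw [Finset.sum_congr rfl fun i _ => pd_sum (fun j => contDiff_pd (hf j) i) c i x,
    Finset.sum_comm]
  refine Finset.sum_congr rfl fun j _ => ?_
  rw [Finset.mul_sum]

theorem lap_sub {n : ℕ} {f g : E n → ℝ} (hf : ContDiff ℝ ∞ f) (hg : ContDiff ℝ ∞ g) (x : E n) :
    lap (fun z => f z - g z) x = lap f x - lap g x := by
  have key : ∀ {f g : E n → ℝ}, ContDiff ℝ ∞ f → ContDiff ℝ ∞ g → ∀ (i : Fin n) (y : E n),
      pd i (fun z => f z - g z) y = pd i f y - pd i g y := by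
    intro f g hf hg i y
    unfold pd
    rw [fderiv_fun_sub ((hf.differentiable (by simp)) y) ((hg.differentiable (by simp)) y)]
    rfl
  unfold lap
  rw [← Finset.sum_sub_distrib]
  refine Finset.sum_congr rfl fun i _ => ?_
  rw [show pd i (fun z => f z - g z) = fun z => pd i f z - pd i g z from
    funext fun z => key hf hg i z]
  exact key (contDiff_pd hf i) (contDiff_pd hg i) i x

theorem lap_const_mul {n : ℕ} {f : E n → ℝ} (hf : ContDiff ℝ ∞ f) (c : ℝ) (x : E n) :
    lap (fun z => c * f z) x = c * lap f x := by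
  have key : ∀ {f : E n → ℝ}, ContDiff ℝ ∞ f → ∀ (i : Fin n) (y : E n),
      pd i (fun z => c * f z) y = c * pd i f y := by
    intro f hf i y
    unfold pd
    rw [fderiv_const_mul ((hf.differentiable (by simp)) y)]
    rfl
  unfold lap
  rw [Finset.mul_sum]
  refine Finset.sum_congr rfl fun i _ => ?_
  rw [show pd i (fun z => c * f z) = fun z => c * pd i f z from funext fun z => key hf i z]
  exact key (contDiff_pd hf i) i x

private theorem pd_normSq {n : ℕ} (i : Fin n) (x : E n) :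
    pd i (fun z : E n => ‖z‖ ^ 2) x = 2 * x i := by
  show fderiv ℝ (fun z : E n => ‖z‖ ^ 2) x (bv i) = _
  rw [(hasStrictFDerivAt_norm_sq x).hasFDerivAt.fderiv]
  have h1 : inner ℝ x (bv i : E n) = x i := by
    rw [bv, EuclideanSpace.inner_single_right]
    simp
  simp [h1]

theorem pd_radial {n : ℕ} {g : ℝ → ℝ} {x : E n} (hg : ContDiffAt ℝ 2 g (‖x‖ ^ 2)) (i : Fin n) :
    pd i (fun z => g (‖z‖ ^ 2)) x = 2 * deriv g (‖x‖ ^ 2) * x i := by
  rw [pd_comp (f := fun z : E n => ‖z‖ ^ 2) (hg.differentiableAt (by simp))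
    (hasStrictFDerivAt_norm_sq x).hasFDerivAt.differentiableAt, pd_normSq]
  ring

theorem lap_radial {n : ℕ} {g : ℝ → ℝ} {x : E n} (hg : ContDiffAt ℝ 2 g (‖x‖ ^ 2)) :
    lap (fun z => g (‖z‖ ^ 2)) x =
      2 * n * deriv g (‖x‖ ^ 2) + 4 * ‖x‖ ^ 2 * deriv (deriv g) (‖x‖ ^ 2) := by
  rw [lap_comp (f := fun z : E n => ‖z‖ ^ 2) hg (contDiff_norm_sq ℝ).contDiffAt]
  have h1 : ∀ i : Fin n, pd i (fun z : E n => ‖z‖ ^ 2) = fun z => 2 * z i :=
    fun i => funext fun z => pd_normSq i z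
  have h2 : lap (fun z : E n => ‖z‖ ^ 2) x = 2 * n := by
    unfold lap
    simp only [h1]
    have h3 : ∀ i : Fin n, pd i (fun z : E n => 2 * z i) x = 2 := by
      intro i
      have h4 : HasFDerivAt (fun z : E n => z i) (EuclideanSpace.proj i : E n →L[ℝ] ℝ) x :=
        (EuclideanSpace.proj i : E n →L[ℝ] ℝ).hasFDerivAt
      show fderiv ℝ (fun z : E n => 2 * z i) x (bv i) = 2
      rw [(h4.const_mul 2).fderiv]
      simp [bv]
    rw [Finset.sum_congr rfl fun i _ => h3 i]
    simp [mul_comm]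
  rw [h2]
  simp only [h1]
  have h5 : ∑ i : Fin n, (2 * x i) ^ 2 = 4 * ‖x‖ ^ 2 := by
    rw [EuclideanSpace.real_norm_sq_eq, Finset.mul_sum]
    refine Finset.sum_congr rfl fun i _ => ?_
    ring
  rw [h5]
  ring

end Pool.Agent.Lib.MP_6cd19d_an.ND
end

section

section

/-!
# B10: the pointwise inequality

`r, r', κ, κ' ≥ 0`, `|J|^2 ≤ κ r`, `|J'|^2 ≤ κ' r'`, `t : ℝ`, `D : Fin n → ℝ`. Claim
`0 ≤ t^2 |D|^2 r r' + 2 t D·(J r' - J' r) - 2 J·J' + κ r' + κ' r`.
If `r = 0` then `J = 0` and the expression is `κ r' ≥ 0`; the same for `r' = 0`. If `r r' > 0` let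
`V = J r' - J' r`; `|V|^2 = r'^2 |J|^2 + r^2 |J'|^2 - 2 r r' J·J' ≤ r r' (κ r' + κ' r - 2 J·J')`. So
`r r' * (expression) ≥ t^2 |D|^2 (r r')^2 + 2 t (r r') D·V + |V|^2 = |t r r' D + V|^2 ≥ 0`.
-/

set_option autoImplicit false

namespace Pool.Agent.Lib.MP_6cd19d_an.ND

theorem pointwise_nonneg {n : ℕ} {r r' κ κ' t : ℝ} {J J' D : Fin n → ℝ} (hr : 0 ≤ r)
    (hr' : 0 ≤ r') (hκ : 0 ≤ κ) (hκ' : 0 ≤ κ') (hJ : ∑ i, (J i) ^ 2 ≤ κ * r)
    (hJ' : ∑ i, (J' i) ^ 2 ≤ κ' * r') :
    0 ≤ t ^ 2 * (∑ i, (D i) ^ 2) * r * r' + 2 * t * (∑ i, D i * (J i * r' - J' i * r)) -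
      2 * (∑ i, J i * J' i) + κ * r' + κ' * r := by
  rcases hr.eq_or_lt with h0 | hpos
  · subst h0
    have hz : ∀ i, J i = 0 := by
      have h1 : ∑ i, (J i) ^ 2 = 0 :=
        le_antisymm (by simpa using hJ) (Finset.sum_nonneg fun i _ => sq_nonneg _)
      intro i
      have h2 := (Finset.sum_eq_zero_iff_of_nonneg (fun i _ => sq_nonneg (J i))).1 h1 i
        (Finset.mem_univ i)
      exact pow_eq_zero_iff (two_ne_zero) |>.1 h2
    simp only [hz]
    simp
    positivity
  rcases hr'.eq_or_lt with h0 | hpos'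
  · subst h0
    have hz : ∀ i, J' i = 0 := by
      have h1 : ∑ i, (J' i) ^ 2 = 0 :=
        le_antisymm (by simpa using hJ') (Finset.sum_nonneg fun i _ => sq_nonneg _)
      intro i
      have h2 := (Finset.sum_eq_zero_iff_of_nonneg (fun i _ => sq_nonneg (J' i))).1 h1 i
        (Finset.mem_univ i)
      exact pow_eq_zero_iff (two_ne_zero) |>.1 h2
    simp only [hz]
    simp
    positivity
  have hsq : 0 ≤ ∑ i, (t * (r * r') * D i + (J i * r' - J' i * r)) ^ 2 :=
    Finset.sum_nonneg fun i _ => sq_nonneg _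
  have hexp : ∑ i, (t * (r * r') * D i + (J i * r' - J' i * r)) ^ 2 =
      t ^ 2 * (r * r') ^ 2 * (∑ i, (D i) ^ 2) +
      2 * t * (r * r') * (∑ i, D i * (J i * r' - J' i * r)) +
      (r' ^ 2 * (∑ i, (J i) ^ 2) + r ^ 2 * (∑ i, (J' i) ^ 2) -
        2 * (r * r') * (∑ i, J i * J' i)) := by
    simp only [Finset.mul_sum, ← Finset.sum_add_distrib, ← Finset.sum_sub_distrib]
    refine Finset.sum_congr rfl fun i _ => ?_
    ring
  have hrr : 0 < r * r' := mul_pos hpos hpos'
  have h1 : r' ^ 2 * (∑ i, (J i) ^ 2) ≤ r' ^ 2 * (κ * r) :=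
    mul_le_mul_of_nonneg_left hJ (sq_nonneg _)
  have h2 : r ^ 2 * (∑ i, (J' i) ^ 2) ≤ r ^ 2 * (κ' * r') :=
    mul_le_mul_of_nonneg_left hJ' (sq_nonneg _)
  have h3 : 0 ≤ (r * r') * (t ^ 2 * (∑ i, (D i) ^ 2) * r * r' +
      2 * t * (∑ i, D i * (J i * r' - J' i * r)) -
      2 * (∑ i, J i * J' i) + κ * r' + κ' * r) := by
    nlinarith [hsq, hexp, h1, h2]
  exact nonneg_of_mul_nonneg_right h3 hrr

end Pool.Agent.Lib.MP_6cd19d_an.ND
end

section

/-!
# B06: differentiation of an integral with compact support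

`s0 ∈ (a, b)`. Choose `ε` with `[s0-ε, s0+ε] ⊆ (a,b)`. The function `|P'|` is continuous on the compact
set `[s0-ε, s0+ε] ×ˢ C`, so bounded by some `M`; outside `C` it vanishes. Apply
`hasDerivAt_integral_of_dominated_loc_of_deriv_le` with bound `C.indicator (fun _ => M)`, integrable since
`volume C < ⊤`. Measurability/integrability of `P s0`: continuous with compact support.
-/

set_option autoImplicit false

open MeasureTheory Set Filter Topology
open scoped ENNReal ContDiff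

namespace Pool.Agent.Lib.MP_6cd19d_an.ND

theorem hasDerivAt_integral_compact {X : Type*} [TopologicalSpace X] [MeasurableSpace X]
    [BorelSpace X] [T2Space X] {ν : Measure X} [IsFiniteMeasureOnCompacts ν]
    {P P' : ℝ → X → ℝ} {a b : ℝ} {C : Set X} (hC : IsCompact C)
    (hP : ContinuousOn (Function.uncurry P) (Ioo a b ×ˢ univ))
    (hP' : ContinuousOn (Function.uncurry P') (Ioo a b ×ˢ univ))
    (hd : ∀ s ∈ Ioo a b, ∀ x, HasDerivAt (fun t => P t x) (P' s x) s)
    (hs : ∀ s ∈ Ioo a b, ∀ x, x ∉ C → P s x = 0)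
    (hs' : ∀ s ∈ Ioo a b, ∀ x, x ∉ C → P' s x = 0) {s0 : ℝ} (hs0 : s0 ∈ Ioo a b) :
    HasDerivAt (fun s => ∫ x, P s x ∂ν) (∫ x, P' s0 x ∂ν) s0 := by
  obtain ⟨ε, hε, hεs⟩ : ∃ ε > 0, Icc (s0 - ε) (s0 + ε) ⊆ Ioo a b := by
    have h1 : 0 < min (s0 - a) (b - s0) := lt_min (by linarith [hs0.1]) (by linarith [hs0.2])
    refine ⟨min (s0 - a) (b - s0) / 2, by positivity, fun t ht => ?_⟩
    have h2 := min_le_left (s0 - a) (b - s0)
    have h3 := min_le_right (s0 - a) (b - s0)
    exact ⟨by linarith [ht.1], by linarith [ht.2]⟩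
  have hcont : ∀ {Q : ℝ → X → ℝ}, ContinuousOn (Function.uncurry Q) (Ioo a b ×ˢ univ) →
      ∀ s ∈ Ioo a b, Continuous (Q s) := by
    intro Q hQ s hs
    rw [← continuousOn_univ]
    exact hQ.comp (f := fun x => (s, x)) (by fun_prop) fun x _ => ⟨hs, mem_univ x⟩
  have hint : ∀ {Q : ℝ → X → ℝ}, ContinuousOn (Function.uncurry Q) (Ioo a b ×ˢ univ) →
      (∀ s ∈ Ioo a b, ∀ x, x ∉ C → Q s x = 0) → ∀ s ∈ Ioo a b, Integrable (Q s) ν := by
    intro Q hQ hQ0 s hs
    refine (integrableOn_iff_integrable_of_support_subset (s := C) ?_).1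
      ((hcont hQ s hs).continuousOn.integrableOn_compact hC)
    intro x hx
    by_contra hxC
    exact hx (hQ0 s hs x hxC)
  obtain ⟨M, hM⟩ := (isCompact_Icc.prod hC).exists_bound_of_continuousOn
    (hP'.mono (prod_mono hεs (subset_univ C)))
  have hsub : Ioo (s0 - ε) (s0 + ε) ⊆ Ioo a b := Ioo_subset_Icc_self.trans hεs
  refine (hasDerivAt_integral_of_dominated_loc_of_deriv_le (s := Ioo (s0 - ε) (s0 + ε))
    (bound := C.indicator fun _ => M) (Ioo_mem_nhds (by linarith) (by linarith)) ?_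
    (hint hP hs s0 hs0) (hint hP' hs' s0 hs0).aestronglyMeasurable ?_ ?_ ?_).2
  · filter_upwards [Ioo_mem_nhds hs0.1 hs0.2] with t ht
    exact (hint hP hs t ht).aestronglyMeasurable
  · refine Eventually.of_forall fun x t ht => ?_
    by_cases hx : x ∈ C
    · rw [indicator_of_mem hx]
      exact hM (t, x) ⟨Ioo_subset_Icc_self ht, hx⟩
    · rw [indicator_of_notMem hx, hs' t (hsub ht) x hx, norm_zero]
  · refine (integrable_indicator_iff hC.measurableSet).2 ?_
    exact integrableOn_const hC.measure_lt_top.ne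
  · exact Eventually.of_forall fun x t ht => hd t (hsub ht) x

end Pool.Agent.Lib.MP_6cd19d_an.ND
end
end

section

/-!
# P1: existence of an energy minimiser

Proof. The case `K = ∅` is excluded by `hfin` (the infimum over the empty family is `⊤`).
Let `X = K` as a subtype: a compact metric space, so `ProbabilityMeasure X` is compact
(Mathlib: `Mathlib/MeasureTheory/Measure/Prokhorov.lean`, instance `CompactSpace (ProbabilityMeasure E)`).
For `ν : ProbabilityMeasure X` let `μ = ν.map Subtype.val`; the map `ν ↦ μ` is onto `{μ | PK K μ}`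
(take the comap by `Subtype.val`), and `en s μ = ∫⁻ x, ∫⁻ y, k (x, y) ∂ν ∂ν` with
`k (x, y) = (edist x y) ^ (-s)`, a continuous function `X × X → ℝ≥0∞` (as `s > 0`).
The functional `J ν = ∫⁻ x, ∫⁻ y, k (x, y) ∂ν ∂ν` is lower semicontinuous on `ProbabilityMeasure X`:
it is the supremum over `m : ℕ` of `J_m ν = ∫⁻ x, ∫⁻ y, min (k (x,y)) m ∂ν ∂ν` (monotone
convergence) and each `J_m` is continuous, because `ν ↦ ν × ν` is continuous
(`Mathlib/MeasureTheory/Measure/FiniteMeasureProd.lean`) and `min k m` is a bounded continuous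
function on `X × X`. A lower semicontinuous function on a nonempty compact space attains its
infimum (`LowerSemicontinuous.exists_isMinOn` or similar: `IsCompact.exists_isMinOn` exists for lower
semicontinuous functions; alternatively a cluster point of a minimising filter).
-/

set_option autoImplicit false

open MeasureTheory Set Filter Topology
open scoped ENNReal NNReal

namespace Pool.Agent.Lib.MP_6cd19d_an.ND

/-- The functional `ν ↦ ∫ k d(ν × ν)` is lower semicontinuous for continuous `k ≥ 0`. -/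
private theorem p1_lsc {X : Type} [MetricSpace X] [CompactSpace X] [MeasurableSpace X] [BorelSpace X]
    {k : X × X → ℝ≥0∞} (hk : Continuous k) :
    LowerSemicontinuous (fun ν : ProbabilityMeasure X =>
      ∫⁻ z, k z ∂((ν.prod ν : ProbabilityMeasure (X × X)) : Measure (X × X))) := by
  have h1 : (fun ν : ProbabilityMeasure X =>
      ∫⁻ z, k z ∂((ν.prod ν : ProbabilityMeasure (X × X)) : Measure (X × X))) =
      fun ν => ⨆ m : ℕ, ∫⁻ z, min (k z) (m : ℝ≥0∞) ∂((ν.prod ν : ProbabilityMeasure (X × X)) :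
        Measure (X × X)) := by
    funext ν
    rw [← lintegral_iSup]
    · congr 1
      funext z
      rw [← inf_iSup_eq, ENNReal.iSup_natCast, inf_top_eq]
    · intro m
      exact (hk.min continuous_const).measurable
    · intro a b hab z
      exact min_le_min le_rfl (by exact_mod_cast hab)
  rw [h1]
  refine lowerSemicontinuous_iSup fun m => Continuous.lowerSemicontinuous ?_
  have hc : Continuous (fun ν : ProbabilityMeasure X => ν.prod ν) :=
    ProbabilityMeasure.continuous_prod.comp (continuous_id.prodMk continuous_id)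
  have hf : Continuous (fun z : X × X => (min (k z) (m : ℝ≥0∞)).toNNReal) := by
    refine ENNReal.continuousOn_toNNReal.comp_continuous (hk.min continuous_const) ?_
    intro z
    exact ne_of_lt (lt_of_le_of_lt (min_le_right _ _) (ENNReal.natCast_lt_top m))
  have h2 := (ProbabilityMeasure.continuous_iff_forall_continuous_lintegral.mp hc)
    (BoundedContinuousFunction.mkOfCompact ⟨_, hf⟩)
  refine h2.congr fun ν => ?_
  congr 1
  funext z
  simp only [BoundedContinuousFunction.mkOfCompact_apply, ContinuousMap.coe_mk]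
  rw [ENNReal.coe_toNNReal]
  exact ne_of_lt (lt_of_le_of_lt (min_le_right _ _) (ENNReal.natCast_lt_top m))

theorem exists_minimizer {n : ℕ} {s : ℝ} (hs : 0 < s) {K : Set (E n)} (hK : IsCompact K)
    (hfin : infEn s K ≠ ⊤) : ∃ μ : Measure (E n), PK K μ ∧ en s μ = infEn s K := by
  classical
  have hKne : K.Nonempty := by
    rw [nonempty_iff_ne_empty]
    rintro rfl
    apply hfin
    unfold infEn
    simp only [iInf_eq_top]
    rintro μ ⟨h1, h2⟩
    rw [compl_empty, h1] at h2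
    exact absurd h2 one_ne_zero
  have : CompactSpace K := isCompact_iff_compactSpace.mp hK
  have : Nonempty K := hKne.to_subtype
  have hKm : MeasurableSet K := hK.measurableSet
  have hemb : MeasurableEmbedding (Subtype.val : K → E n) := MeasurableEmbedding.subtype_coe hKm
  set k : K × K → ℝ≥0∞ := fun z => (edist (z.1 : E n) (z.2 : E n)) ^ (-s) with hkdef
  have hk : Continuous k :=
    ENNReal.continuous_rpow_const.comp ((continuous_subtype_val.comp continuous_fst).edist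
      (continuous_subtype_val.comp continuous_snd))
  have hen : ∀ ν : ProbabilityMeasure K, en s ((ν : Measure K).map Subtype.val) =
      ∫⁻ z, k z ∂((ν.prod ν : ProbabilityMeasure (K × K)) : Measure (K × K)) := by
    intro ν
    unfold en
    rw [hemb.lintegral_map, ProbabilityMeasure.toMeasure_prod,
      lintegral_prod _ hk.measurable.aemeasurable]
    congr 1
    funext x
    rw [hemb.lintegral_map]
  obtain ⟨x0⟩ := ‹Nonempty K›
  have hne : (univ : Set (ProbabilityMeasure K)).Nonempty :=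
    ⟨⟨Measure.dirac x0, inferInstance⟩, mem_univ _⟩
  obtain ⟨ν, -, hν⟩ := LowerSemicontinuousOn.exists_isMinOn hne isCompact_univ
    ((p1_lsc hk).lowerSemicontinuousOn univ)
  have hPK : PK K ((ν : Measure K).map Subtype.val) := by
    constructor
    · rw [hemb.map_apply, preimage_univ]
      exact measure_univ
    · rw [hemb.map_apply]
      have : (Subtype.val : K → E n) ⁻¹' Kᶜ = ∅ := by
        ext x
        simp
      rw [this, measure_empty]
  refine ⟨(ν : Measure K).map Subtype.val, hPK, le_antisymm ?_ (iInf₂_le _ hPK)⟩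
  refine le_iInf₂ fun μ' h' => ?_
  have hK1 : μ' K = 1 := by
    have h3 := measure_add_measure_compl (μ := μ') hKm
    rw [h'.2, add_zero, h'.1] at h3
    exact h3
  have hprob : IsProbabilityMeasure (μ'.comap (Subtype.val : K → E n)) := by
    constructor
    rw [hemb.comap_apply, image_univ, Subtype.range_coe, hK1]
  set ν' : ProbabilityMeasure K := ⟨μ'.comap Subtype.val, hprob⟩ with hν'
  have hmap : (ν' : Measure K).map Subtype.val = μ' := by
    change (μ'.comap Subtype.val).map Subtype.val = μ'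
    rw [map_comap_subtype_coe hKm]
    apply Measure.restrict_eq_self_of_ae_mem
    rw [ae_iff]
    exact h'.2
  rw [← hmap, hen, hen]
  exact hν (mem_univ ν')

end Pool.Agent.Lib.MP_6cd19d_an.ND
end

section

/-!
# P2: the variational inequality, and the potential of the minimiser is constant a.e.

Proof of `variation`. Write `I = infEn s K`, `k x y = (edist x y) ^ (-s)` (measurable, symmetric),
`⟨μ,ν⟩ = ∫⁻ pot s μ dν = ∫⁻ pot s ν dμ` (Tonelli). If `⟨μ,ν⟩ = ⊤` there is nothing to prove.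
For `t ∈ (0,1)` the measure `ν_t = ofReal (1-t) • μ + ofReal t • ν` satisfies `PK K ν_t`, so
`I ≤ en s ν_t = (1-t)^2 I + 2 t (1-t) ⟨μ,ν⟩ + t^2 en s ν`, all terms finite. Hence in `ℝ`:
`2 t (1-t) ⟨μ,ν⟩ ≥ (2 t - t^2) I - t^2 e`; divide by `t` and let `t → 0`: `2 ⟨μ,ν⟩ ≥ 2 I`.

Proof of `pot_ae_eq`. Let `S = {x | pot s μ x < I}` (measurable). If `μ S ≠ 0` let
`ν = (μ S)⁻¹ • μ.restrict S`: `PK K ν` and `en s ν ≤ (μ S)⁻¹ ^ 2 * en s μ < ⊤`, so by `variation`
`I ≤ ∫⁻ pot s μ dν`, but `pot s μ < I` `ν`-a.e. and `ν` is a probability measure, so the integral is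
`< I` (`lintegral_strict_mono` or: the integral of `I - pot` is zero, so it vanishes a.e.).
Hence `pot s μ ≥ I` `μ`-a.e., and `∫⁻ pot s μ dμ = en s μ = I = ∫⁻ I dμ < ⊤`, so equality a.e.
-/

set_option autoImplicit false

open MeasureTheory Set Filter Topology
open scoped ENNReal

namespace Pool.Agent.Lib.MP_6cd19d_an.ND

private theorem meas_kernel {n : ℕ} (s : ℝ) :
    Measurable (fun p : E n × E n => (edist p.1 p.2) ^ (-s)) :=
  (measurable_edist).pow_const _

theorem measurable_pot {n : ℕ} (s : ℝ) (μ : Measure (E n)) [SFinite μ] : Measurable (pot s μ) := by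
  unfold pot
  exact (meas_kernel s).lintegral_prod_right'

private theorem pot_add_smul {n : ℕ} (s : ℝ) (μ ν : Measure (E n)) (a b : ℝ≥0∞) (x : E n) :
    pot s (a • μ + b • ν) x = a * pot s μ x + b * pot s ν x := by
  unfold pot
  rw [lintegral_add_measure, lintegral_smul_measure, lintegral_smul_measure]
  rfl

private theorem pot_swap {n : ℕ} (s : ℝ) (μ ν : Measure (E n)) [SFinite μ] [SFinite ν] :
    ∫⁻ x, pot s ν x ∂μ = ∫⁻ x, pot s μ x ∂ν := by
  unfold pot
  rw [lintegral_lintegral_swap]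
  · simp_rw [edist_comm]
  · exact (meas_kernel s).aemeasurable

private theorem en_eq {n : ℕ} (s : ℝ) (μ : Measure (E n)) : en s μ = ∫⁻ x, pot s μ x ∂μ := rfl

private theorem en_add_smul {n : ℕ} (s : ℝ) (μ ν : Measure (E n)) [SFinite μ] [SFinite ν]
    (a b : ℝ≥0∞) :
    en s (a • μ + b • ν) = a * (a * en s μ + b * ∫⁻ x, pot s μ x ∂ν)
      + b * (a * (∫⁻ x, pot s μ x ∂ν) + b * en s ν) := by
  have hμm := measurable_pot s μ
  have hνm := measurable_pot s ν
  rw [en_eq]
  simp_rw [pot_add_smul]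
  rw [lintegral_add_measure, lintegral_smul_measure, lintegral_smul_measure]
  rw [lintegral_add_left (hμm.const_mul a), lintegral_add_left (hμm.const_mul a)]
  rw [lintegral_const_mul _ hμm, lintegral_const_mul _ hνm, lintegral_const_mul _ hμm,
    lintegral_const_mul _ hνm, pot_swap s μ ν, ← en_eq, ← en_eq]
  rfl

private theorem pk_combo {n : ℕ} {K : Set (E n)} {μ ν : Measure (E n)} (hμ : PK K μ)
    (hν : PK K ν) {a b : ℝ≥0∞} (hab : a + b = 1) : PK K (a • μ + b • ν) := by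
  refine ⟨?_, ?_⟩
  · rw [Measure.add_apply, Measure.smul_apply, Measure.smul_apply, hμ.1, hν.1]
    simpa using hab
  · rw [Measure.add_apply, Measure.smul_apply, Measure.smul_apply, hμ.2, hν.2]
    simp

private theorem infEn_le {n : ℕ} {s : ℝ} {K : Set (E n)} {μ : Measure (E n)} (hμ : PK K μ) :
    infEn s K ≤ en s μ := iInf₂_le μ hμ

private theorem real_var {I P e : ℝ}
    (h : ∀ t : ℝ, 0 < t → t < 1 →
      I ≤ (1 - t) * ((1 - t) * I + t * P) + t * ((1 - t) * P + t * e)) : I ≤ P := by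
  by_contra hlt
  push Not at hlt
  set d := I - P with hd
  have hdpos : 0 < d := by linarith
  set C := |I - 2 * P + e| + 1 with hC
  have hCpos : 0 < C := by positivity
  set t := min (1 / 2) (d / C) with ht
  have ht0 : 0 < t := lt_min (by norm_num) (div_pos hdpos hCpos)
  have ht1 : t < 1 := lt_of_le_of_lt (min_le_left _ _) (by norm_num)
  have h1 := h t ht0 ht1
  have h2 : 2 * d * t ≤ t * (t * (I - 2 * P + e)) := by
    have : (1 - t) * ((1 - t) * I + t * P) + t * ((1 - t) * P + t * e)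
        = I - 2 * d * t + t * (t * (I - 2 * P + e)) := by
      rw [hd]; ring
    linarith
  have h3 : 2 * d ≤ t * (I - 2 * P + e) := by
    by_contra hc
    push Not at hc
    have := mul_lt_mul_of_pos_left hc ht0
    linarith
  have h4 : t * (I - 2 * P + e) ≤ t * C := by
    apply mul_le_mul_of_nonneg_left _ ht0.le
    rw [hC]
    linarith [le_abs_self (I - 2 * P + e)]
  have h5 : t * C ≤ d := by
    have : t ≤ d / C := min_le_right _ _
    rwa [le_div_iff₀ hCpos] at this
  linarith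

private theorem sfin {n : ℕ} {K : Set (E n)} {μ : Measure (E n)} (hμ : PK K μ) :
    IsProbabilityMeasure μ := ⟨hμ.1⟩

theorem variation {n : ℕ} {s : ℝ} {K : Set (E n)} {μ ν : Measure (E n)} (hμ : PK K μ)
    (hν : PK K ν) (hmin : en s μ = infEn s K) (hfin : infEn s K ≠ ⊤) (hνf : en s ν ≠ ⊤) :
    infEn s K ≤ ∫⁻ x, pot s μ x ∂ν := by
  have := sfin hμ
  have := sfin hν
  by_cases hP : ∫⁻ x, pot s μ x ∂ν = ⊤
  · rw [hP]; exact le_top
  rw [← ENNReal.toReal_le_toReal hfin hP]
  apply real_var (e := (en s ν).toReal)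
  intro t ht0 ht1
  have hab : ENNReal.ofReal (1 - t) + ENNReal.ofReal t = 1 := by
    rw [← ENNReal.ofReal_add (by linarith) ht0.le]
    simp
  have h1 := infEn_le (s := s) (pk_combo hμ hν hab)
  rw [en_add_smul, hmin] at h1
  set I := infEn s K with hI
  set P := ∫⁻ x, pot s μ x ∂ν with hPdef
  set e := en s ν with he
  have hne : ENNReal.ofReal (1 - t) * (ENNReal.ofReal (1 - t) * I + ENNReal.ofReal t * P)
      + ENNReal.ofReal t * (ENNReal.ofReal (1 - t) * P + ENNReal.ofReal t * e) ≠ ⊤ := by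
    finiteness
  have h2 := ENNReal.toReal_mono hne h1
  rw [ENNReal.toReal_add (by finiteness) (by finiteness), ENNReal.toReal_mul, ENNReal.toReal_mul,
    ENNReal.toReal_add (by finiteness) (by finiteness),
    ENNReal.toReal_add (by finiteness) (by finiteness), ENNReal.toReal_mul, ENNReal.toReal_mul,
    ENNReal.toReal_mul, ENNReal.toReal_mul, ENNReal.toReal_ofReal (by linarith),
    ENNReal.toReal_ofReal ht0.le] at h2
  exact h2

theorem pot_ae_eq {n : ℕ} {s : ℝ} {K : Set (E n)} {μ : Measure (E n)} (hμ : PK K μ)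
    (hmin : en s μ = infEn s K) (hfin : infEn s K ≠ ⊤) :
    ∀ᵐ x ∂μ, pot s μ x = infEn s K := by
  have := sfin hμ
  have hm := measurable_pot s μ
  set I := infEn s K with hI
  -- the potential is at least `I` almost everywhere
  have hS : MeasurableSet {x | pot s μ x < I} := measurableSet_lt hm measurable_const
  have hzero : μ {x | pot s μ x < I} = 0 := by
    by_contra hne
    set S := {x | pot s μ x < I} with hSd
    have hSfin : μ S ≠ ⊤ := measure_ne_top μ S
    set ν : Measure (E n) := (μ S)⁻¹ • μ.restrict S with hν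
    have hPK : PK K ν := by
      refine ⟨?_, ?_⟩
      · rw [hν, Measure.smul_apply, Measure.restrict_apply MeasurableSet.univ, univ_inter]
        exact ENNReal.inv_mul_cancel hne hSfin
      · rw [hν, Measure.smul_apply]
        have : (μ.restrict S) Kᶜ = 0 :=
          le_antisymm ((Measure.restrict_apply_le S Kᶜ).trans hμ.2.le) bot_le
        rw [this]
        simp
    have := sfin hPK
    have hinv : (μ S)⁻¹ ≠ ⊤ := ENNReal.inv_ne_top.mpr hne
    have hen : en s ν ≠ ⊤ := by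
      have hle : en s ν ≤ (μ S)⁻¹ * ((μ S)⁻¹ * en s μ) := by
        rw [en_eq, en_eq, hν, lintegral_smul_measure]
        change (μ S)⁻¹ * _ ≤ _
        gcongr
        rw [← lintegral_const_mul _ hm]
        refine (lintegral_mono (g := fun x => (μ S)⁻¹ * pot s μ x) ?_).trans
          (lintegral_mono' Measure.restrict_le_self le_rfl)
        intro x
        change pot s ((μ S)⁻¹ • μ.restrict S) x ≤ (μ S)⁻¹ * pot s μ x
        unfold pot
        rw [lintegral_smul_measure]
        change (μ S)⁻¹ * _ ≤ _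
        gcongr
        exact Measure.restrict_le_self
      rw [hmin] at hle
      exact ne_top_of_le_ne_top (by finiteness) hle
    have hv := variation hμ hPK hmin hfin hen
    have hlt : ∫⁻ x, pot s μ x ∂ν < ∫⁻ _x, I ∂ν := by
      apply lintegral_strict_mono
      · intro h0
        have := hPK.1
        rw [h0] at this
        simp at this
      · exact measurable_const.aemeasurable
      · rw [← lt_top_iff_ne_top]
        refine lt_of_le_of_lt (lintegral_mono_ae (g := fun _ => I) ?_) ?_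
        · rw [hν]
          apply Measure.ae_smul_measure
          filter_upwards [ae_restrict_mem hS] with x hx
          exact le_of_lt hx
        · rw [lintegral_const, hPK.1, mul_one]
          exact lt_top_iff_ne_top.mpr hfin
      · rw [hν]
        apply Measure.ae_smul_measure
        filter_upwards [ae_restrict_mem hS] with x hx
        exact hx
    rw [lintegral_const, hPK.1, mul_one] at hlt
    exact absurd hv (not_le.mpr hlt)
  have hge : ∀ᵐ x ∂μ, I ≤ pot s μ x := by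
    rw [ae_iff]
    simpa only [not_le] using hzero
  have hint : ∫⁻ x, pot s μ x ∂μ = ∫⁻ _x, I ∂μ := by
    rw [lintegral_const, hμ.1, mul_one]
    exact hmin
  have hIf : ∫⁻ _x, I ∂μ ≠ ⊤ := by
    rw [lintegral_const, hμ.1, mul_one]
    exact hfin
  have := ae_eq_of_ae_le_of_lintegral_le hge hIf hm.aemeasurable hint.le
  filter_upwards [this] with x hx
  exact hx.symm

end Pool.Agent.Lib.MP_6cd19d_an.ND
end

section

section

/-!
# P5a: potentials off the support, derivatives along the coordinate lines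

Let `μ` be a finite measure with `μ Fᶜ = 0`, `F` compact, `x ∉ F`, `d = infDist x F > 0` (or `F = ∅`,
`μ = 0`). For `|t| < d / 2` and `y ∈ F`: `dist (x + t e_i) y ≥ d / 2`.
Put `ρ(t) = ‖x + t e_i - y‖^2 = ‖x - y‖^2 + 2 t (x_i - y_i) + t^2` (`‖e_i‖ = 1`). Then
`d/dt ρ^(-s/2) = -s (x_i - y_i + t) ρ^(-s/2-1)` and
`d/dt [-s (x_i - y_i + t) ρ^(-s/2-1)] = -s ρ^(-s/2-1) + s (s+2) (x_i - y_i + t)^2 ρ^(-s/2-2)`.
All these are bounded for `|t| < d/2`, `y ∈ F` (`F` is bounded), so
`hasDerivAt_integral_of_dominated_loc_of_deriv_le` applies twice (all `t` in a neighbourhood of `0`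
for the first derivative; at `t = 0` for the second).
`lap_pot`: sum over `i` of `h i`, with `∑ (x_i - y_i)^2 = ‖x - y‖^2`:
`-s n ‖x-y‖^(-s-2) + s (s+2) ‖x-y‖^(-s-2) = s (s+2-n) ‖x-y‖^(-s-2)`.
`pot_toReal`: for `x ∉ F`: `(pot s μ x).toReal = ∫ ‖x - y‖^(-s) dμ` (a.e. `x ≠ y`;
`edist x y = ENNReal.ofReal ‖x - y‖`, `ENNReal.ofReal_rpow_of_pos`, `integral_toReal`).
-/

set_option autoImplicit false

open MeasureTheory Set Filter Topology
open scoped ENNReal

namespace Pool.Agent.Lib.MP_6cd19d_an.ND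

/-- Integrability of functions which are continuous on a compact set carrying the measure. -/
private theorem integrable_of_cont {n : ℕ} {μ : Measure (E n)} [IsFiniteMeasure μ] {F : Set (E n)}
    (hF : IsCompact F) (hμF : μ Fᶜ = 0) {f : E n → ℝ} (hf : ContinuousOn f F) :
    Integrable f μ := by
  have h1 := hf.integrableOn_compact (μ := μ) hF
  rwa [IntegrableOn, Measure.restrict_eq_self_of_ae_mem (s := F) (by rw [ae_iff]; exact hμF)] at h1

/-- Differentiation under the integral sign for functions continuous on a compact set. -/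
private theorem hasDerivAt_int {n : ℕ} {μ : Measure (E n)} [IsFiniteMeasure μ] {F : Set (E n)}
    (hF : IsCompact F) (hμF : μ Fᶜ = 0) {ε : ℝ} {φ φ' : ℝ → E n → ℝ}
    (h1 : ContinuousOn (fun p : ℝ × E n => φ p.1 p.2) (Icc (-ε) ε ×ˢ F))
    (h2 : ContinuousOn (fun p : ℝ × E n => φ' p.1 p.2) (Icc (-ε) ε ×ˢ F))
    (h3 : ∀ t ∈ Ioo (-ε) ε, ∀ y ∈ F, HasDerivAt (fun t => φ t y) (φ' t y) t)
    {t : ℝ} (ht : t ∈ Ioo (-ε) ε) :
    HasDerivAt (fun t => ∫ y, φ t y ∂μ) (∫ y, φ' t y ∂μ) t := by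
  have hae : ∀ᵐ y ∂μ, y ∈ F := by
    rw [ae_iff]
    exact hμF
  have hc : ∀ t ∈ Ioo (-ε) ε, ∀ {ψ : ℝ → E n → ℝ},
      ContinuousOn (fun p : ℝ × E n => ψ p.1 p.2) (Icc (-ε) ε ×ˢ F) → Integrable (ψ t) μ := by
    intro t ht ψ hψ
    refine integrable_of_cont hF hμF ?_
    exact hψ.comp (f := fun y => (t, y)) (by fun_prop) fun y hy =>
      ⟨⟨ht.1.le, ht.2.le⟩, hy⟩
  obtain ⟨C, hC⟩ := (isCompact_Icc.prod hF).exists_bound_of_continuousOn h2
  refine (hasDerivAt_integral_of_dominated_loc_of_deriv_le (s := Ioo (-ε) ε) (bound := fun _ => C)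
    (isOpen_Ioo.mem_nhds ht) ?_ (hc t ht h1) (hc t ht h2).aestronglyMeasurable ?_
    (integrable_const C) ?_).2
  · filter_upwards [isOpen_Ioo.mem_nhds ht] with u hu
    exact (hc u hu h1).aestronglyMeasurable
  · filter_upwards [hae] with y hy u hu
    exact hC (u, y) ⟨⟨hu.1.le, hu.2.le⟩, hy⟩
  · filter_upwards [hae] with y hy u hu
    exact h3 u hu y hy

private theorem norm_bv {n : ℕ} (i : Fin n) : ‖(bv i : E n)‖ = 1 := by
  simp [bv]

/-- a distance to be used -/
private theorem exists_eps {n : ℕ} {F : Set (E n)} (hF : IsCompact F) {x : E n} (hx : x ∉ F) :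
    ∃ ε : ℝ, 0 < ε ∧ ∀ y ∈ F, ∀ z : E n, ‖x - z‖ ≤ ε → 0 < ‖z - y‖ := by
  have h1 : Fᶜ ∈ 𝓝 x := hF.isClosed.isOpen_compl.mem_nhds hx
  obtain ⟨ε, hε, hball⟩ := Metric.mem_nhds_iff.1 h1
  refine ⟨ε / 2, by positivity, fun y hy z hz => ?_⟩
  rw [norm_pos_iff, sub_ne_zero]
  rintro rfl
  have h2 : z ∈ Metric.ball x ε := by
    rw [Metric.mem_ball, dist_comm, dist_eq_norm]
    linarith
  exact hball h2 hy

/-- the derivative of a power of the distance along a coordinate line -/
private theorem hasDerivAt_pow_norm {n : ℕ} (p : ℝ) (x y : E n) (i : Fin n) {t : ℝ}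
    (h : 0 < ‖x + t • bv i - y‖) :
    HasDerivAt (fun t : ℝ => ‖x + t • bv i - y‖ ^ p)
      (p * (x i + t - y i) * ‖x + t • bv i - y‖ ^ (p - 2)) t := by
  have h0 : HasDerivAt (fun t : ℝ => x + t • bv i - y) (bv i) t := by
    have h1 := (((hasDerivAt_id t).smul_const (bv i : E n)).const_add x).sub_const y
    rw [one_smul] at h1
    exact h1
  have h1 := h0.norm_sq
  have h2 : inner ℝ (x + t • bv i - y) (bv i : E n) = x i + t - y i := by
    simp [bv, EuclideanSpace.inner_single_right]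
  rw [h2] at h1
  have h3 := h1.rpow_const (p := p / 2) (Or.inl (by positivity))
  have e : ∀ (q : ℝ) (u : ℝ), (‖x + u • bv i - y‖ ^ 2) ^ q = ‖x + u • bv i - y‖ ^ (2 * q) := by
    intro q u
    rw [Real.rpow_mul (norm_nonneg _), Real.rpow_two]
  simp only [e] at h3
  have e1 : 2 * (p / 2) = p := by ring
  have e2 : 2 * (p / 2 - 1) = p - 2 := by ring
  rw [e2] at h3
  simp only [e1] at h3
  refine h3.congr_deriv ?_
  ring

private theorem cont_pow {n : ℕ} {F : Set (E n)} {x : E n} {ε : ℝ}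
    (hε : ∀ y ∈ F, ∀ z : E n, ‖x - z‖ ≤ ε → 0 < ‖z - y‖) (i : Fin n) (p : ℝ) :
    ContinuousOn (fun q : ℝ × E n => ‖x + q.1 • bv i - q.2‖ ^ p) (Icc (-ε) ε ×ˢ F) := by
  refine ContinuousOn.rpow_const (by fun_prop) fun q hq => Or.inl ?_
  refine (hε q.2 hq.2 _ ?_).ne'
  have h1 : x - (x + q.1 • (bv i : E n)) = -(q.1 • bv i) := by abel
  rw [h1, norm_neg, norm_smul, norm_bv, mul_one, Real.norm_eq_abs, abs_le]
  exact hq.1

private theorem pos_of_mem {n : ℕ} {F : Set (E n)} {x : E n} {ε : ℝ}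
    (hε : ∀ y ∈ F, ∀ z : E n, ‖x - z‖ ≤ ε → 0 < ‖z - y‖) (i : Fin n) {t : ℝ}
    (ht : t ∈ Ioo (-ε) ε) {y : E n} (hy : y ∈ F) : 0 < ‖x + t • bv i - y‖ := by
  refine hε y hy _ ?_
  have h1 : x - (x + t • (bv i : E n)) = -(t • bv i) := by abel
  rw [h1, norm_neg, norm_smul, norm_bv, mul_one, Real.norm_eq_abs, abs_le]
  exact ⟨ht.1.le, ht.2.le⟩

private theorem cont_pow0 {n : ℕ} {F : Set (E n)} {x : E n} (hx : x ∉ F) (p : ℝ) :
    ContinuousOn (fun y : E n => ‖x - y‖ ^ p) F := by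
  refine ContinuousOn.rpow_const (by fun_prop) fun y hy => Or.inl ?_
  rw [norm_ne_zero_iff, sub_ne_zero]
  rintro rfl
  exact hx hy

private theorem add_smul_bv {n : ℕ} (x : E n) (i : Fin n) (t : ℝ) :
    (x + t • (bv i : E n)) i = x i + t := by
  simp [bv]

theorem pot_toReal {n : ℕ} (s : ℝ) {μ : Measure (E n)} [IsFiniteMeasure μ] {F : Set (E n)}
    (hF : IsCompact F) (hμF : μ Fᶜ = 0) {x : E n} (hx : x ∉ F) :
    (pot s μ x).toReal = ∫ y, ‖x - y‖ ^ (-s) ∂μ ∧ pot s μ x < ⊤ := by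
  have hae : ∀ᵐ y ∂μ, y ∈ F := by
    rw [ae_iff]
    exact hμF
  have hint := integrable_of_cont hF hμF (cont_pow0 hx (-s))
  have h1 : pot s μ x = ∫⁻ y, ENNReal.ofReal (‖x - y‖ ^ (-s)) ∂μ := by
    refine lintegral_congr_ae ?_
    filter_upwards [hae] with y hy
    have hxy : x ≠ y := by
      rintro rfl
      exact hx hy
    rw [edist_dist, dist_eq_norm, ENNReal.ofReal_rpow_of_pos (norm_pos_iff.2 (sub_ne_zero.2 hxy))]
  have h2 : 0 ≤ᵐ[μ] fun y => ‖x - y‖ ^ (-s) :=
    Eventually.of_forall fun y => Real.rpow_nonneg (norm_nonneg _) _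
  refine ⟨?_, ?_⟩
  · rw [h1, integral_eq_lintegral_of_nonneg_ae h2 hint.aestronglyMeasurable]
  · rw [h1]
    have h3 := hint.lintegral_lt_top
    exact h3

theorem hasD2_pot {n : ℕ} (s : ℝ) {μ : Measure (E n)} [IsFiniteMeasure μ] {F : Set (E n)}
    (hF : IsCompact F) (hμF : μ Fᶜ = 0) {x : E n} (hx : x ∉ F) :
    HasD2 (fun x => ∫ y, ‖x - y‖ ^ (-s) ∂μ) x
      (fun i => ∫ y, (-s) * (x i - y i) * ‖x - y‖ ^ (-s - 2) ∂μ)
      (fun i => ∫ y, ((-s) * ‖x - y‖ ^ (-s - 2)
        + s * (s + 2) * (x i - y i) ^ 2 * ‖x - y‖ ^ (-s - 4)) ∂μ) := by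
  obtain ⟨ε, hε, hεF⟩ := exists_eps hF hx
  intro i
  have hc1 := cont_pow (p := -s) hεF i
  have hc2 := cont_pow (p := -s - 2) hεF i
  have hc4 := cont_pow (p := -s - 4) hεF i
  have hcx : Continuous (fun q : ℝ × E n => x i + q.1 - q.2 i) := by fun_prop
  have hcx := hcx.continuousOn (s := Icc (-ε) ε ×ˢ F)
  have hcd1 : ContinuousOn (fun q : ℝ × E n => (-s) * (x i + q.1 - q.2 i) *
      ‖x + q.1 • bv i - q.2‖ ^ (-s - 2)) (Icc (-ε) ε ×ˢ F) :=
    (continuousOn_const.mul hcx).mul hc2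
  have hcd2 : ContinuousOn (fun q : ℝ × E n => (-s) * ‖x + q.1 • bv i - q.2‖ ^ (-s - 2)
      + s * (s + 2) * (x i + q.1 - q.2 i) ^ 2 * ‖x + q.1 • bv i - q.2‖ ^ (-s - 4))
      (Icc (-ε) ε ×ˢ F) :=
    (continuousOn_const.mul hc2).add ((continuousOn_const.mul (hcx.pow 2)).mul hc4)
  refine ⟨fun t => ∫ y, (-s) * (x i + t - y i) * ‖x + t • bv i - y‖ ^ (-s - 2) ∂μ, ?_, ?_, ?_⟩
  · filter_upwards [isOpen_Ioo.mem_nhds (show (0 : ℝ) ∈ Ioo (-ε) ε from ⟨by linarith, hε⟩)]
      with t ht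
    refine hasDerivAt_int (φ := fun t y => ‖x + t • bv i - y‖ ^ (-s))
      (φ' := fun t y => (-s) * (x i + t - y i) * ‖x + t • bv i - y‖ ^ (-s - 2))
      hF hμF hc1 hcd1 (fun u hu y hy => ?_) ht
    exact hasDerivAt_pow_norm (-s) x y i (pos_of_mem hεF i hu hy)
  · simp
  · have h0 := hasDerivAt_int (t := 0) (φ := fun t y => (-s) * (x i + t - y i) *
        ‖x + t • bv i - y‖ ^ (-s - 2))
      (φ' := fun t y => (-s) * ‖x + t • bv i - y‖ ^ (-s - 2)
        + s * (s + 2) * (x i + t - y i) ^ 2 * ‖x + t • bv i - y‖ ^ (-s - 4))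
      hF hμF hcd1 hcd2 (fun u hu y hy => ?_) ⟨by linarith, hε⟩
    · refine h0.congr_deriv ?_
      simp
    · have h1 := hasDerivAt_pow_norm (-s - 2) x y i (pos_of_mem hεF i hu hy)
      have h2 : HasDerivAt (fun t : ℝ => (-s) * (x i + t - y i)) (-s) u := by
        have h3 := ((((hasDerivAt_id u).const_add (x i)).sub_const (y i)).const_mul (-s))
        rw [mul_one] at h3
        exact h3
      refine (h2.mul h1).congr_deriv ?_
      have e : (-s - 2 - 2 : ℝ) = -s - 4 := by ring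
      rw [e]
      ring

theorem lap_pot {n : ℕ} (s : ℝ) {μ : Measure (E n)} [IsFiniteMeasure μ] {F : Set (E n)}
    (hF : IsCompact F) (hμF : μ Fᶜ = 0) {x : E n} (hx : x ∉ F) :
    ∑ i : Fin n, (∫ y, ((-s) * ‖x - y‖ ^ (-s - 2)
        + s * (s + 2) * (x i - y i) ^ 2 * ‖x - y‖ ^ (-s - 4)) ∂μ) =
      s * (s + 2 - n) * ∫ y, ‖x - y‖ ^ (-s - 2) ∂μ := by
  have hae : ∀ᵐ y ∂μ, y ∈ F := by
    rw [ae_iff]
    exact hμF
  have hc : ∀ i : Fin n, Continuous (fun y : E n => x i - y i) := fun i => by fun_prop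
  rw [← integral_finsetSum, ← integral_const_mul]
  · refine integral_congr_ae ?_
    filter_upwards [hae] with y hy
    have hxy : 0 < ‖x - y‖ := by
      rw [norm_pos_iff, sub_ne_zero]
      rintro rfl
      exact hx hy
    have h1 : ∑ i : Fin n, (x i - y i) ^ 2 = ‖x - y‖ ^ 2 := by
      rw [EuclideanSpace.norm_sq_eq]
      refine Finset.sum_congr rfl fun i _ => ?_
      rw [Real.norm_eq_abs, sq_abs]
      rfl
    have h2 : ‖x - y‖ ^ (-s - 2) = ‖x - y‖ ^ 2 * ‖x - y‖ ^ (-s - 4) := by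
      have e : (-s - 2 : ℝ) = 2 + (-s - 4) := by ring
      rw [e, Real.rpow_add hxy, Real.rpow_two]
    have h3 : ∑ i : Fin n, ((-s) * ‖x - y‖ ^ (-s - 2)
        + s * (s + 2) * (x i - y i) ^ 2 * ‖x - y‖ ^ (-s - 4)) =
        n * ((-s) * ‖x - y‖ ^ (-s - 2))
          + s * (s + 2) * (∑ i : Fin n, (x i - y i) ^ 2) * ‖x - y‖ ^ (-s - 4) := by
      rw [Finset.sum_add_distrib, Finset.sum_const, Finset.card_univ, Fintype.card_fin,
        nsmul_eq_mul, Finset.mul_sum, Finset.sum_mul]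
    rw [h3, h1, h2]
    ring
  · intro i _
    refine integrable_of_cont hF hμF ?_
    exact (continuousOn_const.mul (cont_pow0 hx _)).add
      ((continuousOn_const.mul ((hc i).continuousOn.pow 2)).mul (cont_pow0 hx _))

end Pool.Agent.Lib.MP_6cd19d_an.ND
end

section

/-!
# P5b: local maxima, behaviour at infinity, maximum principle

`hasD2_localMax`: along each coordinate line `t ↦ f (x + t e_i)` has a local maximum at `0`, so its
derivative `g i` vanishes (`IsLocalMax.hasDerivAt_eq_zero`), and the second derivative is `≤ 0`: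
if `h i > 0` then `f' (t) > 0` for small `t > 0` (as `f' 0 = 0`, `HasDerivAt f' (h i) 0`) and the line
function is strictly increasing on `[0, t0]`, contradiction with the local maximum.

`hasD2_sq`: `‖x + t e_i‖^2 = ‖x‖^2 + 2 t x_i + t^2`.

`pot_tendsto_zero`: `F ⊆ closedBall 0 R`; for `‖x‖ ≥ 2 R + 1`: `dist x y ≥ ‖x‖ / 2` for `y ∈ F`, so
`pot s μ x ≤ ofReal ((‖x‖/2)^(-s)) * μ univ → 0`.

`max_principle`: put `V x = (pot s μ x).toReal`, continuous, `V ≤ m` on `F`. Suppose `V x0 > m` for some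
`x0` (so `x0 ∉ F`). Choose `R > ‖x0‖` with `F ⊆ ball 0 R` and `V < (V x0 + m)/2` for `‖x‖ ≥ R`
(P5b `pot_tendsto_zero`; note `m ≥ 0` may be assumed: `m` is a real with `ofReal m`; if `m < 0` replace it
by `0`). For small `η > 0` the continuous function `W x = V x + η ‖x‖^2` on the compact ball
`closedBall 0 R` has its maximum at a point `z` with `W z ≥ W x0 ≥ V x0`, and `W ≤ m + η R^2 < V x0` on `F`,
`W < (V x0+m)/2 + η R^2 < V x0` on the sphere. So `z ∉ F`, `‖z‖ < R`: interior local maximum. By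
`hasD2_pot`, `hasD2_sq` (and `HasD2` of a sum) the sum of the second derivatives at `z` is
`s (s+2-n) ∫ ‖z-y‖^(-s-2) dμ + 2 n η ≥ 2 n η > 0` but each is `≤ 0`. Contradiction (`n ≥ 1`; if `n = 0`
the space is a point: then `F = univ` or `μ = 0`).
-/

set_option autoImplicit false

open MeasureTheory Set Filter Topology
open scoped ENNReal

namespace Pool.Agent.Lib.MP_6cd19d_an.ND

theorem hasD2_localMax {n : ℕ} {f : E n → ℝ} {x : E n} {g h : Fin n → ℝ} (hf : HasD2 f x g h)
    (hmax : IsLocalMax f x) : (∀ i, g i = 0) ∧ ∀ i, h i ≤ 0 := by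
  have key : ∀ i, g i = 0 ∧ h i ≤ 0 := by
    intro i
    obtain ⟨f', h1, h2, h3⟩ := hf i
    have hcont : ContinuousAt (fun t : ℝ => x + t • bv i) 0 := by fun_prop
    have hx : (fun t : ℝ => x + t • bv i) 0 = x := by simp
    have hm : IsLocalMax (fun t : ℝ => f (x + t • bv i)) 0 := by
      have hmax' : IsLocalMax f ((fun t : ℝ => x + t • bv i) 0) := by rw [hx]; exact hmax
      exact IsLocalMax.comp_continuous (g := fun t : ℝ => x + t • bv i) hmax' hcont
    have h0 : f' 0 = 0 := hm.hasDerivAt_eq_zero h1.self_of_nhds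
    refine ⟨h2 ▸ h0, ?_⟩
    by_contra hpos
    rw [not_le] at hpos
    have h4 := hasDerivAt_iff_tendsto_slope.1 h3
    have h5 : ∀ᶠ t in 𝓝[≠] (0 : ℝ), 0 < slope f' 0 t := h4.eventually (eventually_gt_nhds hpos)
    have h5' : ∀ᶠ t in 𝓝 (0 : ℝ), t ≠ 0 → 0 < slope f' 0 t := eventually_nhdsWithin_iff.1 h5
    have h6 := (h1.and (h5'.and hm))
    obtain ⟨ε, hε, hball⟩ := Metric.eventually_nhds_iff.1 h6
    have hin : ∀ t : ℝ, 0 ≤ t → t ≤ ε / 2 → dist t 0 < ε := by
      intro t ht1 ht2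
      rw [Real.dist_eq, sub_zero, abs_of_nonneg ht1]
      linarith
    have hlt : (0 : ℝ) < ε / 2 := by linarith
    obtain ⟨c, hc, hceq⟩ := exists_hasDerivAt_eq_slope (fun t : ℝ => f (x + t • bv i)) f' hlt
      (fun t ht => (hball (hin t ht.1 ht.2)).1.continuousAt.continuousWithinAt)
      (fun t ht => (hball (hin t ht.1.le ht.2.le)).1)
    have hc1 := (hball (hin c hc.1.le hc.2.le)).2.1 hc.1.ne'
    rw [slope_def_field, h0, sub_zero, sub_zero] at hc1
    have hc2 : 0 < f' c := by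
      have := mul_pos hc1 hc.1
      rwa [div_mul_cancel₀ _ hc.1.ne'] at this
    rw [hceq, sub_zero] at hc2
    have hc3 := (hball (hin (ε / 2) hlt.le le_rfl)).2.2
    have hc4 := mul_pos hc2 hlt
    rw [div_mul_cancel₀ _ hlt.ne'] at hc4
    linarith
  exact ⟨fun i => (key i).1, fun i => (key i).2⟩

theorem hasD2_add {n : ℕ} {f₁ f₂ : E n → ℝ} {x : E n} {g₁ h₁ g₂ h₂ : Fin n → ℝ}
    (hf₁ : HasD2 f₁ x g₁ h₁) (hf₂ : HasD2 f₂ x g₂ h₂) :
    HasD2 (fun y => f₁ y + f₂ y) x (fun i => g₁ i + g₂ i) (fun i => h₁ i + h₂ i) := by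
  intro i
  obtain ⟨u, a1, a2, a3⟩ := hf₁ i
  obtain ⟨v, b1, b2, b3⟩ := hf₂ i
  refine ⟨fun t => u t + v t, ?_, ?_, ?_⟩
  · filter_upwards [a1, b1] with t ht1 ht2
    exact ht1.add ht2
  · simp only [a2, b2]
  · exact a3.add b3

theorem hasD2_smul {n : ℕ} {f : E n → ℝ} {x : E n} {g h : Fin n → ℝ} (c : ℝ)
    (hf : HasD2 f x g h) : HasD2 (fun y => c * f y) x (fun i => c * g i) (fun i => c * h i) := by
  intro i
  obtain ⟨u, a1, a2, a3⟩ := hf i
  refine ⟨fun t => c * u t, ?_, ?_, ?_⟩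
  · filter_upwards [a1] with t ht1
    exact ht1.const_mul c
  · simp only [a2]
  · exact a3.const_mul c

theorem hasD2_sq {n : ℕ} (x : E n) :
    HasD2 (fun y : E n => ‖y‖ ^ 2) x (fun i => 2 * x i) (fun _ => 2) := by
  intro i
  have e : ∀ t : ℝ, ‖x + t • bv i‖ ^ 2 = ‖x‖ ^ 2 + 2 * (t * x i) + t ^ 2 := by
    intro t
    rw [norm_add_sq_real, inner_smul_right, norm_smul]
    simp [bv, EuclideanSpace.inner_single_right]
  refine ⟨fun t => 2 * x i + 2 * t, Filter.Eventually.of_forall fun t => ?_, by simp, ?_⟩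
  · have h1 : HasDerivAt (fun t : ℝ => ‖x‖ ^ 2 + 2 * (t * x i) + t ^ 2) (2 * x i + 2 * t) t := by
      have h2 := (((hasDerivAt_id t).mul_const (x i)).const_mul 2).const_add (‖x‖ ^ 2)
      have h3 := h2.add ((hasDerivAt_id t).pow 2)
      refine h3.congr_deriv ?_
      simp
    refine h1.congr_of_eventuallyEq (Filter.Eventually.of_forall fun s => ?_)
    exact e s
  · have h2 := ((hasDerivAt_id (0 : ℝ)).const_mul 2).const_add (2 * x i)
    refine h2.congr_deriv ?_
    simp

theorem pot_tendsto_zero {n : ℕ} {s : ℝ} (hs : 0 < s) {μ : Measure (E n)} [IsFiniteMeasure μ]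
    {F : Set (E n)} (hF : IsCompact F) (hμF : μ Fᶜ = 0) :
    Tendsto (fun x => (pot s μ x).toReal) (cocompact (E n)) (𝓝 0) := by
  obtain ⟨R, hR⟩ := hF.isBounded.subset_closedBall (0 : E n)
  have hae : ∀ᵐ y ∂μ, y ∈ F := by
    rw [ae_iff]
    exact hμF
  have hbd : ∀ x : E n, 2 * |R| + 1 ≤ ‖x‖ →
      (pot s μ x).toReal ≤ (‖x‖ / 2) ^ (-s) * μ.real univ := by
    intro x hx
    have hxp : 0 < ‖x‖ / 2 := by
      have := abs_nonneg R
      linarith
    have h1 : pot s μ x ≤ ENNReal.ofReal ((‖x‖ / 2) ^ (-s)) * μ univ := by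
      unfold pot
      rw [← lintegral_const]
      refine lintegral_mono_ae ?_
      filter_upwards [hae] with y hy
      have hy1 : ‖y‖ ≤ R := by
        have := hR hy
        rwa [mem_closedBall_zero_iff] at this
      have hy2 : ‖x‖ / 2 ≤ dist x y := by
        rw [dist_eq_norm]
        have h3 := norm_sub_norm_le x y
        have h4 := le_abs_self R
        linarith
      rw [edist_dist, ENNReal.ofReal_rpow_of_pos (lt_of_lt_of_le hxp hy2)]
      exact ENNReal.ofReal_le_ofReal (Real.rpow_le_rpow_of_nonpos hxp hy2 (by linarith))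
    have h2 := ENNReal.toReal_mono (ENNReal.mul_ne_top ENNReal.ofReal_ne_top
      (measure_ne_top μ univ)) h1
    rwa [ENNReal.toReal_mul, ENNReal.toReal_ofReal (Real.rpow_nonneg hxp.le _)] at h2
  have hT : Tendsto (fun x : E n => (‖x‖ / 2) ^ (-s) * μ.real univ) (cocompact (E n)) (𝓝 0) := by
    have h1 : Tendsto (fun x : E n => ‖x‖ / 2) (cocompact (E n)) atTop :=
      (tendsto_norm_cocompact_atTop).atTop_div_const (by norm_num)
    have h2 := ((tendsto_rpow_neg_atTop hs).comp h1).mul_const (μ.real univ)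
    rw [zero_mul] at h2
    exact h2
  refine tendsto_of_tendsto_of_tendsto_of_le_of_le' tendsto_const_nhds hT
    (Filter.Eventually.of_forall fun x => ENNReal.toReal_nonneg) ?_
  filter_upwards [tendsto_norm_cocompact_atTop.eventually (eventually_ge_atTop (2 * |R| + 1))]
    with x hx
  exact hbd x hx

theorem max_principle {n : ℕ} {s : ℝ} (hs : 0 < s) (hs1 : (n : ℝ) - 2 ≤ s) {μ : Measure (E n)}
    [IsFiniteMeasure μ] {F : Set (E n)} (hF : IsCompact F) (hμF : μ Fᶜ = 0)
    (hc : Continuous (fun x => (pot s μ x).toReal)) (hfin : ∀ x, pot s μ x < ⊤) {m : ℝ≥0∞}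
    (hm : ∀ x ∈ F, pot s μ x ≤ m) (x : E n) : pot s μ x ≤ m := by
  rcases eq_or_ne m ⊤ with rfl | hmt
  · exact le_top
  -- the case of dimension zero
  rcases Nat.eq_zero_or_pos n with hn | hn
  · subst hn
    rcases F.eq_empty_or_nonempty with hFe | ⟨z, hz⟩
    · have hμ0 : μ = 0 := by
        rw [hFe, compl_empty] at hμF
        exact Measure.measure_univ_eq_zero.1 hμF
      unfold pot
      rw [hμ0, lintegral_zero_measure]
      exact bot_le
    · rw [Subsingleton.elim x z]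
      exact hm z hz
  by_contra hcon
  rw [not_le] at hcon
  set V : E n → ℝ := fun x => (pot s μ x).toReal with hV
  have hVx : m.toReal < V x := (ENNReal.toReal_lt_toReal hmt (hfin x).ne).2 hcon
  have hm0 : 0 ≤ m.toReal := ENNReal.toReal_nonneg
  have hVF : ∀ y ∈ F, V y ≤ m.toReal := fun y hy => ENNReal.toReal_mono hmt (hm y hy)
  have hzero := pot_tendsto_zero hs hF hμF
  have hmid : 0 < (V x + m.toReal) / 2 := by linarith
  have hev : ∀ᶠ y in cocompact (E n), V y < (V x + m.toReal) / 2 :=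
    hzero.eventually (eventually_lt_nhds hmid)
  obtain ⟨C, hC, hC2⟩ := Filter.mem_cocompact.1 hev
  obtain ⟨R1, hR1⟩ := hC.isBounded.subset_closedBall (0 : E n)
  obtain ⟨R2, hR2⟩ := hF.isBounded.subset_closedBall (0 : E n)
  set R : ℝ := max (max (R1 + 1) (R2 + 1)) (‖x‖ + 1) with hRdef
  have hRR1 : R1 + 1 ≤ R := (le_max_left _ _).trans (le_max_left _ _)
  have hRR2 : R2 + 1 ≤ R := (le_max_right _ _).trans (le_max_left _ _)
  have hRx : ‖x‖ + 1 ≤ R := le_max_right _ _
  have hR0 : 0 < R := by have := norm_nonneg x; linarith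
  set η : ℝ := (V x - m.toReal) / (4 * (R ^ 2 + 1)) with hη
  have hden : 0 < 4 * (R ^ 2 + 1) := by positivity
  have hηpos : 0 < η := div_pos (by linarith) hden
  have hηR : η * R ^ 2 < (V x - m.toReal) / 2 := by
    have h1 : η * (4 * (R ^ 2 + 1)) = V x - m.toReal := div_mul_cancel₀ _ hden.ne'
    nlinarith
  have hsq : Continuous fun y : E n => ‖y‖ ^ 2 := by fun_prop
  have hWc : Continuous (fun y : E n => V y + η * ‖y‖ ^ 2) := hc.add (continuous_const.mul hsq)
  obtain ⟨z, hz, hzmax⟩ := (isCompact_closedBall (0 : E n) R).exists_isMaxOn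
    ⟨x, by rw [mem_closedBall_zero_iff]; linarith⟩ hWc.continuousOn
  have hzn : ‖z‖ ≤ R := by rwa [mem_closedBall_zero_iff] at hz
  have hzx : V x ≤ V z + η * ‖z‖ ^ 2 := by
    have h1 : V x + η * ‖x‖ ^ 2 ≤ V z + η * ‖z‖ ^ 2 :=
      hzmax (by rw [mem_closedBall_zero_iff]; linarith)
    have h2 : 0 ≤ η * ‖x‖ ^ 2 := by positivity
    linarith
  have hzR : η * ‖z‖ ^ 2 ≤ η * R ^ 2 := by
    refine mul_le_mul_of_nonneg_left ?_ hηpos.le
    exact pow_le_pow_left₀ (norm_nonneg z) hzn 2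
  have hzF : z ∉ F := by
    intro h
    have := hVF z h
    linarith
  have hzlt : ‖z‖ < R := by
    rcases lt_or_eq_of_le hzn with h | h
    · exact h
    · exfalso
      have h1 : z ∉ C := by
        intro h2
        have := hR1 h2
        rw [mem_closedBall_zero_iff] at this
        linarith
      have h2 : V z < (V x + m.toReal) / 2 := hC2 h1
      linarith
  have hloc : IsLocalMax (fun y : E n => V y + η * ‖y‖ ^ 2) z := by
    refine hzmax.isLocalMax ?_
    exact Filter.mem_of_superset (Metric.isOpen_ball.mem_nhds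
      (by rwa [mem_ball_zero_iff] : z ∈ Metric.ball (0 : E n) R)) Metric.ball_subset_closedBall
  have hFo : Fᶜ ∈ 𝓝 z := hF.isClosed.isOpen_compl.mem_nhds hzF
  have hloc' : IsLocalMax (fun y : E n => (∫ w, ‖y - w‖ ^ (-s) ∂μ) + η * ‖y‖ ^ 2) z := by
    refine (Filter.EventuallyEq.isLocalMax_iff ?_).1 hloc
    filter_upwards [hFo] with y hy
    simp only [hV]
    rw [(pot_toReal s hF hμF hy).1]
  have hD := hasD2_add (hasD2_pot s hF hμF hzF) (hasD2_smul η (hasD2_sq z))
  have hle := (hasD2_localMax hD hloc').2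
  have hsum := Finset.sum_nonpos fun i (_ : i ∈ (Finset.univ : Finset (Fin n))) => hle i
  rw [Finset.sum_add_distrib, lap_pot s hF hμF hzF, Finset.sum_const, Finset.card_univ,
    Fintype.card_fin, nsmul_eq_mul] at hsum
  have hint : 0 ≤ ∫ y, ‖z - y‖ ^ (-s - 2) ∂μ :=
    integral_nonneg fun y => Real.rpow_nonneg (norm_nonneg _) _
  have h1 : 0 ≤ s * (s + 2 - n) * ∫ y, ‖z - y‖ ^ (-s - 2) ∂μ :=
    mul_nonneg (mul_nonneg hs.le (by linarith)) hint
  have hn' : (0 : ℝ) < n := by exact_mod_cast hn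
  have h2 : 0 < (n : ℝ) * (η * 2) := by positivity
  linarith

end Pool.Agent.Lib.MP_6cd19d_an.ND
end
end
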