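import Pool.Agent.Lib.MP_6cd19d_an.ND.B04
import Pool.Agent.Lib.MP_6cd19d_an.ND.P5b

section

/-!
# B17: the regularised Riesz kernels

`gp p e R ρ = (1/2) ∫_ρ^R (t + e^2)^(-p/2-1) dt`, `e > 0`. On `(-e^2, ∞)`: `deriv = -(1/2) (ρ+e^2)^(-p/2-1)`, smooth, and
`deriv (deriv) = (1/2)(p/2+1) (ρ+e^2)^(-p/2-2)`, so
`2 n g' + 4 ρ g'' = (ρ+e^2)^(-p/2-2) * (-n (ρ + e^2) + (p+2) ρ) ≤ 0` for `ρ ≥ 0`, `p + 2 ≤ n`, (`n ≥ 0`).
It is decreasing, nonnegative for `ρ ≤ R`.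
`gp0 p R ρ` (values in `ℝ≥0∞`) is the same with `e = 0`, for `ρ ≥ 0`. For `-2 < p` the integrand
`(t+e^2)^(-p/2-1)` increases to `t^(-p/2-1)` as `e` decreases to `0` (`t > 0`), so
`ofReal (gp p e R ρ) ≤ gp0 p R ρ` and `ofReal (gp p e R ρ) → gp0 p R ρ` (monotone convergence) for `0 ≤ ρ ≤ R`.
Values of `gp0`: elementary integrals; for `ρ = 0`, `p ≥ 0`: `∫_0 t^(-p/2-1) dt = ∞`.
`gpow`: for `k : ℕ`, `g ρ = -ρ^k` is smooth on `ℝ` and `2 n g' + 4 ρ g'' ≤ 0` for `ρ ≥ 0`.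
-/

set_option autoImplicit false

open MeasureTheory Set Filter Topology
open scoped ENNReal ContDiff

namespace Pool.Agent.Lib.MP_6cd19d_an.ND

/-- Regularised kernel as a function of the squared distance. -/
noncomputable def gp (p e R ρ : ℝ) : ℝ := (1 / 2) * ∫ t in ρ..R, (t + e ^ 2) ^ (-p / 2 - 1)

/-- Limit kernel as a function of the squared distance. -/
noncomputable def gp0 (p R ρ : ℝ) : ℝ≥0∞ :=
  ∫⁻ t in Ioc ρ R, ENNReal.ofReal ((1 / 2) * t ^ (-p / 2 - 1))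

private theorem b17_cont {a e : ℝ} {s : Set ℝ} (hs : s ⊆ Ioi (-e ^ 2)) :
    ContinuousOn (fun t : ℝ => (t + e ^ 2) ^ a) s := by
  refine ContinuousOn.rpow_const (by fun_prop) ?_
  intro t ht
  have h := hs ht
  simp only [mem_Ioi] at h
  exact Or.inl (by linarith)

private theorem b17_int {a e x y : ℝ} (hx : -e ^ 2 < x) (hy : -e ^ 2 < y) :
    IntervalIntegrable (fun t : ℝ => (t + e ^ 2) ^ a) volume x y := by
  refine (b17_cont ?_).intervalIntegrable
  intro t ht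
  rw [mem_uIcc] at ht
  simp only [mem_Ioi]
  rcases ht with ht | ht
  · linarith [ht.1]
  · linarith [ht.1]

private theorem b17_deriv {p e R ρ : ℝ} (hR : -e ^ 2 < R) (hρ : -e ^ 2 < ρ) :
    HasDerivAt (gp p e R) (-(1 / 2) * (ρ + e ^ 2) ^ (-p / 2 - 1)) ρ := by
  have h1 := intervalIntegral.integral_hasDerivAt_left (b17_int (a := -p / 2 - 1) hρ hR)
    (ContinuousOn.stronglyMeasurableAtFilter isOpen_Ioi
      (b17_cont (a := -p / 2 - 1) (subset_refl (Ioi (-e ^ 2)))) ρ hρ)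
    ((b17_cont (a := -p / 2 - 1) (subset_refl (Ioi (-e ^ 2)))).continuousAt
      (isOpen_Ioi.mem_nhds hρ))
  have h2 := h1.const_mul (1 / 2 : ℝ)
  refine h2.congr_deriv ?_
  ring

private theorem b17_deriv' {p e R : ℝ} (hR : -e ^ 2 < R) {ρ : ℝ} (hρ : -e ^ 2 < ρ) :
    deriv (gp p e R) ρ = -(1 / 2) * (ρ + e ^ 2) ^ (-p / 2 - 1) :=
  (b17_deriv hR hρ).deriv

theorem goodG_gp {n : ℕ} {p e R : ℝ} (he : 0 < e) (hR : 0 < R) (hp : p ≤ (n : ℝ) - 2) :
    GoodG n (gp p e R) (e ^ 2) := by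
  have he2 : 0 < e ^ 2 := by positivity
  have hR' : -e ^ 2 < R := by linarith
  refine ⟨he2, ?_, ?_⟩
  · rw [contDiffOn_infty_iff_deriv_of_isOpen isOpen_Ioi]
    refine ⟨?_, ?_⟩
    · intro ρ hρ
      exact (b17_deriv hR' hρ).differentiableAt.differentiableWithinAt
    · have h1 : ContDiffOn ℝ ∞ (fun ρ : ℝ => -(1 / 2) * (ρ + e ^ 2) ^ (-p / 2 - 1))
          (Ioi (-e ^ 2)) := by
        refine contDiffOn_const.mul ?_
        refine ContDiffOn.rpow_const_of_ne (by fun_prop) ?_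
        intro x hx
        simp only [mem_Ioi] at hx
        linarith
      refine h1.congr ?_
      intro ρ hρ
      exact b17_deriv' hR' hρ
  · intro ρ hρ
    have hρ' : -e ^ 2 < ρ := by linarith
    have hpos : 0 < ρ + e ^ 2 := by linarith
    have h2 : deriv (deriv (gp p e R)) ρ =
        -(1 / 2) * ((-p / 2 - 1) * (ρ + e ^ 2) ^ (-p / 2 - 1 - 1)) := by
      have h3 : deriv (gp p e R) =ᶠ[𝓝 ρ] fun t => -(1 / 2) * (t + e ^ 2) ^ (-p / 2 - 1) := by
        filter_upwards [isOpen_Ioi.mem_nhds (show ρ ∈ Ioi (-e ^ 2) from hρ')] with t ht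
        exact b17_deriv' hR' ht
      rw [h3.deriv_eq]
      have h4 : HasDerivAt (fun t : ℝ => (t + e ^ 2) ^ (-p / 2 - 1))
          ((-p / 2 - 1) * (ρ + e ^ 2) ^ (-p / 2 - 1 - 1)) ρ := by
        have h5 := (Real.hasDerivAt_rpow_const (x := ρ + e ^ 2) (p := -p / 2 - 1)
          (Or.inl hpos.ne')).comp ρ ((hasDerivAt_id ρ).add_const (e ^ 2))
        rw [mul_one] at h5
        exact h5
      exact (h4.const_mul _).deriv
    rw [b17_deriv' hR' hρ', h2]
    have h6 : (ρ + e ^ 2) ^ (-p / 2 - 1) = (ρ + e ^ 2) ^ (-p / 2 - 1 - 1) * (ρ + e ^ 2) := by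
      rw [← Real.rpow_add_one hpos.ne']
      congr 1
      ring
    rw [h6]
    have h7 : 0 < (ρ + e ^ 2) ^ (-p / 2 - 1 - 1) := Real.rpow_pos_of_pos hpos _
    have h8 : 2 * (n : ℝ) * (-(1 / 2) * ((ρ + e ^ 2) ^ (-p / 2 - 1 - 1) * (ρ + e ^ 2))) +
        4 * ρ * (-(1 / 2) * ((-p / 2 - 1) * (ρ + e ^ 2) ^ (-p / 2 - 1 - 1))) =
        -((ρ + e ^ 2) ^ (-p / 2 - 1 - 1) * ((n : ℝ) * (ρ + e ^ 2) - (p + 2) * ρ)) := by ring
    rw [h8]
    have h9 : 0 ≤ (n : ℝ) * (ρ + e ^ 2) - (p + 2) * ρ := by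
      have hn : (0 : ℝ) ≤ (n : ℝ) := Nat.cast_nonneg n
      nlinarith [mul_nonneg hn he2.le]
    have := mul_nonneg h7.le h9
    linarith

theorem gp_le_zero {p e R ρ : ℝ} (he : 0 < e) (hρ : 0 ≤ ρ) : gp p e R ρ ≤ gp p e R 0 := by
  have he2 : 0 < e ^ 2 := by positivity
  unfold gp
  have h0 : IntervalIntegrable (fun t : ℝ => (t + e ^ 2) ^ (-p / 2 - 1)) volume 0 ρ :=
    b17_int (by linarith) (by linarith)
  have hn : 0 ≤ ∫ t in (0 : ℝ)..ρ, (t + e ^ 2) ^ (-p / 2 - 1) := by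
    refine intervalIntegral.integral_nonneg hρ ?_
    intro t ht
    exact Real.rpow_nonneg (by linarith [ht.1]) _
  by_cases hi : IntervalIntegrable (fun t : ℝ => (t + e ^ 2) ^ (-p / 2 - 1)) volume ρ R
  · have h1 := intervalIntegral.integral_add_adjacent_intervals h0 hi
    rw [← h1]
    linarith
  · have hi' : ¬ IntervalIntegrable (fun t : ℝ => (t + e ^ 2) ^ (-p / 2 - 1)) volume 0 R :=
      fun h => hi (h0.symm.trans h)
    rw [intervalIntegral.integral_undef hi, intervalIntegral.integral_undef hi']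

theorem gp_nonneg {p e R ρ : ℝ} (he : 0 < e) (hρ : 0 ≤ ρ) (hR : ρ ≤ R) : 0 ≤ gp p e R ρ := by
  have he2 : 0 < e ^ 2 := by positivity
  unfold gp
  refine mul_nonneg (by norm_num) (intervalIntegral.integral_nonneg hR ?_)
  intro t ht
  exact Real.rpow_nonneg (by linarith [ht.1]) _

private theorem b17_ofReal {p e R ρ : ℝ} (he : 0 < e) (hρ : 0 ≤ ρ) (hR : ρ ≤ R) :
    ENNReal.ofReal (gp p e R ρ) =
      ∫⁻ t in Ioc ρ R, ENNReal.ofReal ((1 / 2) * (t + e ^ 2) ^ (-p / 2 - 1)) := by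
  have he2 : 0 < e ^ 2 := by positivity
  unfold gp
  rw [← intervalIntegral.integral_const_mul, intervalIntegral.integral_of_le hR]
  refine ofReal_integral_eq_lintegral_ofReal ?_ ?_
  · exact ((b17_int (a := -p / 2 - 1) (by linarith) (by linarith)).const_mul (1 / 2)).1
  · refine (ae_restrict_iff' measurableSet_Ioc).2 (Eventually.of_forall fun t ht => ?_)
    have h1 : 0 ≤ (t + e ^ 2) ^ (-p / 2 - 1) := Real.rpow_nonneg (by linarith [ht.1]) _
    show (0 : ℝ) ≤ (1 / 2) * (t + e ^ 2) ^ (-p / 2 - 1)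
    positivity

theorem gp_le_gp0 {p e R ρ : ℝ} (hp : -2 < p) (he : 0 < e) (hρ : 0 ≤ ρ) (hR : ρ ≤ R) :
    ENNReal.ofReal (gp p e R ρ) ≤ gp0 p R ρ := by
  have he2 : 0 < e ^ 2 := by positivity
  rw [b17_ofReal he hρ hR]
  unfold gp0
  refine setLIntegral_mono' measurableSet_Ioc ?_
  intro t ht
  have ht0 : 0 < t := lt_of_le_of_lt hρ ht.1
  refine ENNReal.ofReal_le_ofReal ?_
  have h1 : (t + e ^ 2) ^ (-p / 2 - 1) ≤ t ^ (-p / 2 - 1) :=
    Real.rpow_le_rpow_of_nonpos ht0 (by linarith) (by linarith)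
  linarith

theorem gp_tendsto {p R ρ : ℝ} (hp : -2 < p) (hρ : 0 ≤ ρ) (hR : ρ ≤ R) :
    Tendsto (fun e => ENNReal.ofReal (gp p e R ρ)) (𝓝[>] 0) (𝓝 (gp0 p R ρ)) := by
  have hpos : ∀ᶠ e in 𝓝[>] (0 : ℝ), 0 < e := self_mem_nhdsWithin
  refine tendsto_of_le_liminf_of_limsup_le ?_ ?_
  · have h1 : (liminf (fun e => ENNReal.ofReal (gp p e R ρ)) (𝓝[>] 0)) =
        liminf (fun e : ℝ => ∫⁻ t in Ioc ρ R,
          ENNReal.ofReal ((1 / 2) * (t + e ^ 2) ^ (-p / 2 - 1))) (𝓝[>] 0) := by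
      refine liminf_congr ?_
      filter_upwards [hpos] with e he
      exact b17_ofReal he hρ hR
    rw [h1]
    refine le_trans ?_ (lintegral_liminf_le fun e => ?_)
    · unfold gp0
      refine setLIntegral_mono' measurableSet_Ioc ?_
      intro t ht
      have ht0 : 0 < t := lt_of_le_of_lt hρ ht.1
      have h2 : Tendsto (fun e : ℝ => ENNReal.ofReal ((1 / 2) * (t + e ^ 2) ^ (-p / 2 - 1)))
          (𝓝[>] 0) (𝓝 (ENNReal.ofReal ((1 / 2) * t ^ (-p / 2 - 1)))) := by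
        refine ENNReal.tendsto_ofReal ?_
        refine Tendsto.const_mul _ ?_
        have h3 : Tendsto (fun e : ℝ => t + e ^ 2) (𝓝[>] 0) (𝓝 t) := by
          have h4 : Tendsto (fun e : ℝ => t + e ^ 2) (𝓝 0) (𝓝 (t + 0 ^ 2)) := by
            exact (Continuous.tendsto (by fun_prop) 0)
          have h5 : t + (0 : ℝ) ^ 2 = t := by ring
          rw [h5] at h4
          exact h4.mono_left nhdsWithin_le_nhds
        exact h3.rpow_const (Or.inl ht0.ne')
      exact h2.liminf_eq.ge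
    · exact ((((measurable_id.add_const _).pow_const _).const_mul _)).ennreal_ofReal
  · have h1 : ∀ᶠ e in 𝓝[>] (0 : ℝ), ENNReal.ofReal (gp p e R ρ) ≤ gp0 p R ρ := by
      filter_upwards [hpos] with e he
      exact gp_le_gp0 hp he hρ hR
    exact limsup_le_of_le (by isBoundedDefault) h1

theorem gp0_measurable (p R : ℝ) : Measurable (gp0 p R) := by
  refine Antitone.measurable ?_
  intro x y hxy
  exact lintegral_mono_set (Ioc_subset_Ioc_left hxy)

private theorem b17_gp0 {p R ρ : ℝ} (hρ : 0 ≤ ρ) (hR : ρ ≤ R)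
    (hi : IntervalIntegrable (fun t : ℝ => t ^ (-p / 2 - 1)) volume ρ R) :
    gp0 p R ρ = ENNReal.ofReal ((1 / 2) * ∫ t in ρ..R, t ^ (-p / 2 - 1)) := by
  unfold gp0
  rw [← intervalIntegral.integral_const_mul, intervalIntegral.integral_of_le hR]
  symm
  refine ofReal_integral_eq_lintegral_ofReal ?_ ?_
  · exact (hi.const_mul (1 / 2)).1
  · refine (ae_restrict_iff' measurableSet_Ioc).2 (Eventually.of_forall fun t ht => ?_)
    have h1 : 0 ≤ t ^ (-p / 2 - 1) := Real.rpow_nonneg (by linarith [ht.1]) _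
    show (0 : ℝ) ≤ (1 / 2) * t ^ (-p / 2 - 1)
    positivity

private theorem b17_int0 {a R ρ : ℝ} (hρ : 0 < ρ) (hR : ρ ≤ R) :
    IntervalIntegrable (fun t : ℝ => t ^ a) volume ρ R := by
  refine intervalIntegral.intervalIntegrable_rpow (Or.inr ?_)
  rw [uIcc_of_le hR]
  intro h
  linarith [h.1]

theorem gp0_of_pos {p R ρ : ℝ} (hp : 0 < p) (hρ : 0 < ρ) (hR : ρ ≤ R) :
    gp0 p R ρ + ENNReal.ofReal (R ^ (-p / 2) / p) = ENNReal.ofReal (ρ ^ (-p / 2) / p) := by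
  have hR0 : 0 < R := lt_of_lt_of_le hρ hR
  rw [b17_gp0 hρ.le hR (b17_int0 hρ hR)]
  have h0 : (0 : ℝ) ∉ uIcc ρ R := by
    rw [uIcc_of_le hR]
    intro h
    linarith [h.1]
  have h1 : (∫ t in ρ..R, t ^ (-p / 2 - 1)) = (R ^ (-p / 2) - ρ ^ (-p / 2)) / (-p / 2) := by
    rw [integral_rpow (Or.inr ⟨by intro h; linarith, h0⟩)]
    have h2 : -p / 2 - 1 + 1 = -p / 2 := by ring
    rw [h2]
  rw [h1]
  have h3 : (1 / 2 : ℝ) * ((R ^ (-p / 2) - ρ ^ (-p / 2)) / (-p / 2)) =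
      (ρ ^ (-p / 2) - R ^ (-p / 2)) / p := by
    field_simp
    ring
  rw [h3]
  have h4 : R ^ (-p / 2) ≤ ρ ^ (-p / 2) := Real.rpow_le_rpow_of_nonpos hρ hR (by linarith)
  have h5 : 0 ≤ R ^ (-p / 2) := Real.rpow_nonneg hR0.le _
  rw [← ENNReal.ofReal_add (div_nonneg (by linarith) hp.le) (div_nonneg h5 hp.le)]
  congr 1
  field_simp
  ring

theorem gp0_zero {R ρ : ℝ} (hρ : 0 < ρ) (hR : ρ ≤ R) :
    gp0 0 R ρ = ENNReal.ofReal ((1 / 2) * Real.log (R / ρ)) := by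
  have hR0 : 0 < R := lt_of_lt_of_le hρ hR
  rw [b17_gp0 hρ.le hR (b17_int0 hρ hR)]
  have h1 : (∫ t in ρ..R, t ^ (-(0 : ℝ) / 2 - 1)) = ∫ t in ρ..R, t⁻¹ := by
    refine intervalIntegral.integral_congr ?_
    intro t _
    show t ^ (-(0 : ℝ) / 2 - 1) = t⁻¹
    rw [show -(0 : ℝ) / 2 - 1 = -1 by norm_num, Real.rpow_neg_one]
  rw [h1, integral_inv_of_pos hρ hR0]

theorem gp0_of_neg {p R ρ : ℝ} (hp : p < 0) (hρ : 0 ≤ ρ) (hR : ρ ≤ R) :
    gp0 p R ρ + ENNReal.ofReal (ρ ^ (-p / 2) / (-p)) = ENNReal.ofReal (R ^ (-p / 2) / (-p)) := by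
  have h1 : -1 < -p / 2 - 1 := by linarith
  rw [b17_gp0 hρ hR (intervalIntegral.intervalIntegrable_rpow' h1), integral_rpow (Or.inl h1)]
  have h2 : -p / 2 - 1 + 1 = -p / 2 := by ring
  rw [h2]
  have h3 : (1 / 2 : ℝ) * ((R ^ (-p / 2) - ρ ^ (-p / 2)) / (-p / 2)) =
      (R ^ (-p / 2) - ρ ^ (-p / 2)) / (-p) := by
    have hp' : p ≠ 0 := hp.ne
    field_simp
  rw [h3]
  have h4 : ρ ^ (-p / 2) ≤ R ^ (-p / 2) := Real.rpow_le_rpow hρ hR (by linarith)
  have h5 : 0 ≤ ρ ^ (-p / 2) := Real.rpow_nonneg hρ _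
  have h6 : 0 ≤ -p := by linarith
  rw [← ENNReal.ofReal_add (div_nonneg (by linarith) h6) (div_nonneg h5 h6)]
  congr 1
  ring

theorem gp0_top {p R : ℝ} (hp : 0 ≤ p) (hR : 0 < R) : gp0 p R 0 = ⊤ := by
  by_contra hne
  have hlt : gp0 p R 0 < ⊤ := lt_top_iff_ne_top.2 hne
  have hmeas : Measurable (fun t : ℝ => (1 / 2) * t ^ (-p / 2 - 1)) :=
    (measurable_id.pow_const _).const_mul _
  have hint : IntegrableOn (fun t : ℝ => (1 / 2) * t ^ (-p / 2 - 1)) (Ioc 0 R) := by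
    refine ⟨hmeas.aestronglyMeasurable, ?_⟩
    rw [hasFiniteIntegral_iff_ofReal]
    · exact hlt
    · refine (ae_restrict_iff' measurableSet_Ioc).2 (Eventually.of_forall fun t ht => ?_)
      have h1 : 0 ≤ t ^ (-p / 2 - 1) := Real.rpow_nonneg ht.1.le _
      show (0 : ℝ) ≤ (1 / 2) * t ^ (-p / 2 - 1)
      positivity
  have h2 : IntegrableOn (fun t : ℝ => t ^ (-p / 2 - 1)) (Ioo 0 R) := by
    have h3 := (hint.mono_set Ioo_subset_Ioc_self).const_mul 2
    refine h3.congr (Eventually.of_forall fun t => ?_)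
    show (2 : ℝ) * ((1 / 2) * t ^ (-p / 2 - 1)) = t ^ (-p / 2 - 1)
    ring
  rw [intervalIntegral.integrableOn_Ioo_rpow_iff hR] at h2
  linarith

theorem goodG_pow (n k : ℕ) : GoodG n (fun ρ => -ρ ^ k) 1 := by
  refine ⟨one_pos, ?_, ?_⟩
  · exact (contDiff_id.pow k).neg.contDiffOn
  · intro ρ hρ
    have h1 : deriv (fun ρ : ℝ => -ρ ^ k) = fun ρ : ℝ => -((k : ℝ) * ρ ^ (k - 1)) := by
      funext t
      exact (hasDerivAt_pow k t).neg.deriv
    have h2 : deriv (deriv (fun ρ : ℝ => -ρ ^ k)) ρ =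
        -((k : ℝ) * (((k - 1 : ℕ) : ℝ) * ρ ^ (k - 1 - 1))) := by
      rw [h1]
      exact ((hasDerivAt_pow (k - 1) ρ).const_mul (k : ℝ)).neg.deriv
    rw [h2, h1]
    have h3 : 0 ≤ 2 * (n : ℝ) * ((k : ℝ) * ρ ^ (k - 1)) := by positivity
    have h4 : 0 ≤ 4 * ρ * ((k : ℝ) * (((k - 1 : ℕ) : ℝ) * ρ ^ (k - 1 - 1))) := by positivity
    linarith

end Pool.Agent.Lib.MP_6cd19d_an.ND
end

section

/-!
# The weight and its tail integral
-/

set_option autoImplicit false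

open MeasureTheory Set Filter Topology Metric
open scoped ENNReal NNReal RealInnerProductSpace

namespace Pool.Agent.Lib.MP_6cd19d_an.T2

open Pool.Agent.Lib.MP_6cd19d_an.ND Pool.Agent.Lib.MP_6cd19d_an.A

variable {n : ℕ}

/-- (T2-C1a) -/
theorem wt_pos {q τ : ℝ} (hq0 : 0 < q) (hτ : 0 < τ) : 0 < wt n q τ := by
  unfold wt
  positivity

theorem C1_meas (q : ℝ) : Measurable (wt n q) := by
  unfold wt
  fun_prop

/-- (T2-C1b) Near `0` the weight is `≤ (q/2) τ^((n-q)/2-1)` and the exponent is `> -1`; on `(1,∞)` it is `≤ (q/2) τ^(-q/2-1)`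
(`(1+τ)^(-n/2) ≤ τ^(-n/2)`). -/
theorem wt_integrable {q : ℝ} (hq0 : 0 < q) (hqn : q < n) : IntegrableOn (wt n q) (Ioi 0) := by
  have hsplit : Ioi (0 : ℝ) = Ioc 0 1 ∪ Ioi 1 := (Ioc_union_Ioi_eq_Ioi zero_le_one).symm
  rw [hsplit]
  refine IntegrableOn.union ?_ ?_
  · have h1 : IntegrableOn (fun τ : ℝ => q / 2 * τ ^ (((n : ℝ) - q) / 2 - 1)) (Ioc 0 1) := by
      have h2 : IntervalIntegrable (fun τ : ℝ => τ ^ (((n : ℝ) - q) / 2 - 1)) volume 0 1 :=
        intervalIntegral.intervalIntegrable_rpow' (by linarith)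
      exact ((intervalIntegrable_iff_integrableOn_Ioc_of_le zero_le_one).1 h2).const_mul _
    refine Integrable.mono' h1 (C1_meas q).aestronglyMeasurable ?_
    refine (ae_restrict_iff' measurableSet_Ioc).2 (Eventually.of_forall fun τ hτ => ?_)
    rw [Real.norm_of_nonneg (wt_pos hq0 hτ.1).le]
    unfold wt
    have h3 : (1 + τ) ^ (-(n : ℝ) / 2) ≤ 1 := by
      apply Real.rpow_le_one_of_one_le_of_nonpos (by linarith [hτ.1])
      have : (0 : ℝ) ≤ n := Nat.cast_nonneg n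
      linarith
    have h4 : 0 ≤ q / 2 * τ ^ (((n : ℝ) - q) / 2 - 1) := by
      have := hτ.1
      positivity
    nlinarith
  · have h1 : IntegrableOn (fun τ : ℝ => q / 2 * τ ^ (-q / 2 - 1)) (Ioi 1) :=
      (integrableOn_Ioi_rpow_of_lt (by linarith) zero_lt_one).const_mul _
    refine Integrable.mono' h1 (C1_meas q).aestronglyMeasurable ?_
    refine (ae_restrict_iff' measurableSet_Ioi).2 (Eventually.of_forall fun τ hτ => ?_)
    have hτ1 : 1 < τ := hτ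
    have hτ0 : 0 < τ := by linarith
    rw [Real.norm_of_nonneg (wt_pos hq0 hτ0).le]
    unfold wt
    have h3 : (1 + τ) ^ (-(n : ℝ) / 2) ≤ τ ^ (-(n : ℝ) / 2) := by
      apply Real.rpow_le_rpow_of_nonpos hτ0 (by linarith)
      have : (0 : ℝ) ≤ n := Nat.cast_nonneg n
      linarith
    have h4 : 0 ≤ q / 2 * τ ^ (((n : ℝ) - q) / 2 - 1) := by positivity
    calc q / 2 * τ ^ (((n : ℝ) - q) / 2 - 1) * (1 + τ) ^ (-(n : ℝ) / 2)
        ≤ q / 2 * τ ^ (((n : ℝ) - q) / 2 - 1) * τ ^ (-(n : ℝ) / 2) :=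
          mul_le_mul_of_nonneg_left h3 h4
      _ = q / 2 * τ ^ (-q / 2 - 1) := by
          rw [mul_assoc, ← Real.rpow_add hτ0]
          congr 2
          ring

theorem C1_int {q : ℝ} (hq0 : 0 < q) (hqn : q < n) {l : ℝ} (hl : 0 ≤ l) :
    IntegrableOn (wt n q) (Ioi l) :=
  (wt_integrable hq0 hqn).mono_set (Ioi_subset_Ioi hl)

theorem C1_split {q : ℝ} (hq0 : 0 < q) (hqn : q < n) {l : ℝ} (hl : 0 ≤ l) :
    fq n q l = (∫ τ in Ioi (0 : ℝ), wt n q τ) - ∫ τ in (0 : ℝ)..l, wt n q τ := by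
  rw [intervalIntegral.integral_of_le hl, ← Ioc_union_Ioi_eq_Ioi hl,
    setIntegral_union Ioc_disjoint_Ioi_same measurableSet_Ioi
      ((wt_integrable hq0 hqn).mono_set fun x hx => hx.1) (C1_int hq0 hqn hl)]
  unfold fq
  ring

theorem C1_contAt {q : ℝ} {l : ℝ} (hl : 0 < l) : ContinuousAt (wt n q) l := by
  unfold wt
  refine ContinuousAt.mul (ContinuousAt.mul continuousAt_const ?_) ?_
  · exact Real.continuousAt_rpow_const _ _ (Or.inl hl.ne')
  · exact ContinuousAt.rpow_const (by fun_prop) (Or.inl (by linarith))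

theorem C1_ii {q : ℝ} (hq0 : 0 < q) (hqn : q < n) {l : ℝ} (hl : 0 ≤ l) :
    IntervalIntegrable (wt n q) volume 0 l :=
  (intervalIntegrable_iff_integrableOn_Ioc_of_le hl).2
    ((wt_integrable hq0 hqn).mono_set fun _ hx => hx.1)

/-- (T2-C1c) -/
theorem fq_hasDeriv {q : ℝ} (hq0 : 0 < q) (hqn : q < n) {l : ℝ} (hl : 0 < l) :
    HasDerivAt (fq n q) (-wt n q l) l := by
  have h1 : HasDerivAt (fun u => ∫ τ in (0 : ℝ)..u, wt n q τ) (wt n q l) l :=
    intervalIntegral.integral_hasDerivAt_right (C1_ii hq0 hqn hl.le)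
      ((C1_meas q).stronglyMeasurable.stronglyMeasurableAtFilter) (C1_contAt hl)
  have h2 : HasDerivAt (fun u => (∫ τ in Ioi (0 : ℝ), wt n q τ) - ∫ τ in (0 : ℝ)..u, wt n q τ)
      (-wt n q l) l := by
    have := (hasDerivAt_const l (∫ τ in Ioi (0 : ℝ), wt n q τ)).sub h1
    rw [zero_sub] at this
    exact this
  refine h2.congr_of_eventuallyEq ?_
  filter_upwards [lt_mem_nhds hl] with u hu
  exact C1_split hq0 hqn hu.le

/-- (T2-C1d) The weight is differentiable: `wt'(l) = wt(l) (((n-q)/2-1)/l - (n/2)/(1+l))`. -/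
theorem wt_hasDeriv {q : ℝ} {l : ℝ} (hl : 0 < l) :
    HasDerivAt (wt n q) (wt n q l * ((((n : ℝ) - q) / 2 - 1) / l - (n : ℝ) / 2 / (1 + l))) l := by
  have hl1 : 0 < 1 + l := by linarith
  have h1 : HasDerivAt (fun τ : ℝ => τ ^ (((n : ℝ) - q) / 2 - 1))
      ((((n : ℝ) - q) / 2 - 1) * l ^ (((n : ℝ) - q) / 2 - 1 - 1)) l :=
    Real.hasDerivAt_rpow_const (Or.inl hl.ne')
  have h0 : HasDerivAt (fun τ : ℝ => 1 + τ) 1 l := (hasDerivAt_id l).const_add 1
  have h2 : HasDerivAt (fun τ : ℝ => (1 + τ) ^ (-(n : ℝ) / 2))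
      (1 * (-(n : ℝ) / 2) * (1 + l) ^ (-(n : ℝ) / 2 - 1)) l :=
    h0.rpow_const (Or.inl hl1.ne')
  have h3 := (h1.const_mul (q / 2)).mul h2
  have h4 : HasDerivAt (wt n q) (q / 2 * ((((n : ℝ) - q) / 2 - 1) *
      l ^ (((n : ℝ) - q) / 2 - 1 - 1)) * (1 + l) ^ (-(n : ℝ) / 2) +
      q / 2 * l ^ (((n : ℝ) - q) / 2 - 1) *
      (1 * (-(n : ℝ) / 2) * (1 + l) ^ (-(n : ℝ) / 2 - 1))) l := h3
  refine h4.congr_deriv ?_
  rw [Real.rpow_sub_one hl.ne', Real.rpow_sub_one hl1.ne']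
  unfold wt
  field_simp
  ring

/-- (T2-C1e) -/
theorem fq_cont {q : ℝ} (hq0 : 0 < q) (hqn : q < n) : ContinuousOn (fq n q) (Ici 0) := by
  have hg : Integrable (indicator (Ioi (0 : ℝ)) (wt n q)) :=
    (integrable_indicator_iff measurableSet_Ioi).2 (wt_integrable hq0 hqn)
  have h1 : Continuous fun u : ℝ => ∫ τ in (0 : ℝ)..u, indicator (Ioi (0 : ℝ)) (wt n q) τ :=
    intervalIntegral.continuous_primitive (fun a b => hg.intervalIntegrable) 0
  have h2 : Continuous fun u : ℝ => (∫ τ in Ioi (0 : ℝ), wt n q τ) -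
      ∫ τ in (0 : ℝ)..u, indicator (Ioi (0 : ℝ)) (wt n q) τ := continuous_const.sub h1
  refine h2.continuousOn.congr fun u hu => ?_
  rw [C1_split hq0 hqn hu]
  congr 1
  rw [intervalIntegral.integral_of_le hu, intervalIntegral.integral_of_le hu]
  refine setIntegral_congr_fun measurableSet_Ioc fun τ hτ => ?_
  exact (indicator_of_mem (mem_Ioi.2 hτ.1) _).symm

/-- (T2-C1f) -/
theorem fq_strictAnti {q : ℝ} (hq0 : 0 < q) (hqn : q < n) : StrictAntiOn (fq n q) (Ici 0) := by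
  refine strictAntiOn_of_deriv_neg (convex_Ici 0) (fq_cont hq0 hqn) fun l hl => ?_
  rw [interior_Ici] at hl
  rw [(fq_hasDeriv hq0 hqn hl).deriv]
  have := wt_pos (n := n) hq0 hl
  linarith

/-- (T2-C1g) -/
theorem fq_pos {q : ℝ} (hq0 : 0 < q) (hqn : q < n) {l : ℝ} (hl : 0 ≤ l) : 0 < fq n q l := by
  have h1 : fq n q (l + 1) < fq n q l :=
    fq_strictAnti hq0 hqn (mem_Ici.2 hl) (mem_Ici.2 (by linarith)) (by linarith)
  have h2 : 0 ≤ fq n q (l + 1) := by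
    unfold fq
    refine setIntegral_nonneg measurableSet_Ioi fun τ hτ => ?_
    have : l + 1 < τ := hτ
    exact (wt_pos hq0 (by linarith)).le
  linarith

/-- (T2-C1h) -/
theorem ofReal_fq {q : ℝ} (hq0 : 0 < q) (hqn : q < n) {l : ℝ} (hl : 0 ≤ l) :
    ENNReal.ofReal (fq n q l) = ∫⁻ τ in Ioi l, ENNReal.ofReal (wt n q τ) := by
  unfold fq
  refine ofReal_integral_eq_lintegral_ofReal (C1_int hq0 hqn hl) ?_
  refine (ae_restrict_iff' measurableSet_Ioi).2 (Eventually.of_forall fun τ hτ => ?_)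
  have : l < τ := hτ
  exact (wt_pos hq0 (by linarith)).le

end Pool.Agent.Lib.MP_6cd19d_an.T2
end

section

/-!
# Bounds for the tail integral
-/

set_option autoImplicit false

open MeasureTheory Set Filter Topology Metric
open scoped ENNReal NNReal RealInnerProductSpace

namespace Pool.Agent.Lib.MP_6cd19d_an.T2

open Pool.Agent.Lib.MP_6cd19d_an.ND Pool.Agent.Lib.MP_6cd19d_an.A

variable {n : ℕ}

private theorem c2_tail {q c l : ℝ} (hq0 : 0 < q) (hc : 0 ≤ c) (hl : 0 < l) :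
    IntegrableOn (fun τ : ℝ => q / 2 * (c + τ) ^ (-q / 2 - 1)) (Ioi l) ∧
      ∫ τ in Ioi l, q / 2 * (c + τ) ^ (-q / 2 - 1) = (c + l) ^ (-q / 2) := by
  have hd : ∀ x ∈ Ici l, HasDerivAt (fun τ : ℝ => -(c + τ) ^ (-q / 2))
      (q / 2 * (c + x) ^ (-q / 2 - 1)) x := by
    intro x hx
    have hx' : l ≤ x := hx
    have h0 : c + x ≠ 0 := by
      have : 0 < c + x := by linarith
      exact this.ne'
    have h1 := (Real.hasDerivAt_rpow_const (p := -q / 2) (Or.inl h0)).comp x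
      ((hasDerivAt_id x).const_add c)
    refine h1.neg.congr_deriv ?_
    ring
  have hp : ∀ x ∈ Ioi l, 0 ≤ q / 2 * (c + x) ^ (-q / 2 - 1) := by
    intro x hx
    have hx' : l < x := hx
    exact mul_nonneg (by linarith) (Real.rpow_nonneg (by linarith) _)
  have ht : Tendsto (fun τ : ℝ => -(c + τ) ^ (-q / 2)) atTop (𝓝 0) := by
    have h1 : Tendsto (fun t : ℝ => t ^ (-(q / 2))) atTop (𝓝 0) :=
      tendsto_rpow_neg_atTop (by linarith)
    have h2 := (h1.comp (tendsto_atTop_add_const_left atTop c tendsto_id)).neg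
    rw [neg_zero] at h2
    refine h2.congr fun τ => ?_
    simp only [Function.comp_apply, id]
    rw [neg_div]
  refine ⟨integrableOn_Ioi_deriv_of_nonneg' hd hp ht, ?_⟩
  rw [integral_Ioi_of_hasDerivAt_of_nonneg' hd hp ht]
  ring

private theorem c2_int {q : ℝ} (hq0 : 0 < q) (hqn : q < n) {l : ℝ} (hl : 0 < l) :
    IntegrableOn (wt n q) (Ioi l) :=
  (wt_integrable hq0 hqn).mono_set (Ioi_subset_Ioi hl.le)

private theorem c2_upper {q : ℝ} (hq0 : 0 < q) (hqn : q < n) {l : ℝ}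
    (hl : 0 < l) : fq n q l ≤ l ^ (-q / 2) := by
  obtain ⟨h1, h2⟩ := c2_tail (c := 0) hq0 le_rfl hl
  rw [zero_add] at h2
  rw [← h2]
  unfold fq
  refine setIntegral_mono_on (c2_int hq0 hqn hl) h1 measurableSet_Ioi fun τ hτ => ?_
  have hτ0 : 0 < τ := lt_trans hl hτ
  unfold wt
  rw [zero_add, mul_assoc]
  refine mul_le_mul_of_nonneg_left ?_ (by linarith)
  have h3 : (1 + τ) ^ (-(n : ℝ) / 2) ≤ τ ^ (-(n : ℝ) / 2) := by
    refine Real.rpow_le_rpow_of_nonpos hτ0 (by linarith) ?_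
    have : (0 : ℝ) ≤ n := Nat.cast_nonneg n
    linarith
  calc τ ^ (((n : ℝ) - q) / 2 - 1) * (1 + τ) ^ (-(n : ℝ) / 2)
      ≤ τ ^ (((n : ℝ) - q) / 2 - 1) * τ ^ (-(n : ℝ) / 2) :=
        mul_le_mul_of_nonneg_left h3 (Real.rpow_nonneg hτ0.le _)
    _ = τ ^ (-q / 2 - 1) := by
        rw [← Real.rpow_add hτ0]
        congr 1
        ring

/-- (T2-C2a) For `n - 2 < q < n`, `q > 0`, `l > 0`: `(1+l)^(-q/2) ≤ fq n q l ≤ l^(-q/2)`.
Lower: `τ^((n-q)/2-1) ≥ (1+τ)^((n-q)/2-1)` (the exponent is `< 0`), so `wt ≥ (q/2) (1+τ)^(-q/2-1)`; upper: `(1+τ)^(-n/2) ≤ τ^(-n/2)`,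
`wt ≤ (q/2) τ^(-q/2-1)`; integrate over `(l,∞)`. -/
theorem fq_bounds {q : ℝ} (hq0 : 0 < q) (hq2 : (n : ℝ) - 2 < q) (hqn : q < n) {l : ℝ}
    (hl : 0 < l) : (1 + l) ^ (-q / 2) ≤ fq n q l ∧ fq n q l ≤ l ^ (-q / 2) := by
  refine ⟨?_, c2_upper hq0 hqn hl⟩
  obtain ⟨h1, h2⟩ := c2_tail (c := 1) hq0 zero_le_one hl
  rw [← h2]
  unfold fq
  refine setIntegral_mono_on h1 (c2_int hq0 hqn hl) measurableSet_Ioi fun τ hτ => ?_
  have hτ0 : 0 < τ := lt_trans hl hτ
  have hτ1 : 0 < 1 + τ := by linarith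
  unfold wt
  rw [mul_assoc]
  refine mul_le_mul_of_nonneg_left ?_ (by linarith)
  have h3 : (1 + τ) ^ (((n : ℝ) - q) / 2 - 1) ≤ τ ^ (((n : ℝ) - q) / 2 - 1) :=
    Real.rpow_le_rpow_of_nonpos hτ0 (by linarith) (by linarith)
  calc (1 + τ) ^ (-q / 2 - 1) =
        (1 + τ) ^ (((n : ℝ) - q) / 2 - 1) * (1 + τ) ^ (-(n : ℝ) / 2) := by
        rw [← Real.rpow_add hτ1]
        congr 1
        ring
    _ ≤ τ ^ (((n : ℝ) - q) / 2 - 1) * (1 + τ) ^ (-(n : ℝ) / 2) :=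
        mul_le_mul_of_nonneg_right h3 (Real.rpow_nonneg hτ1.le _)

/-- (T2-C2b) -/
theorem fq_tendsto {q : ℝ} (hq0 : 0 < q) (hqn : q < n) :
    Tendsto (fq n q) atTop (𝓝 0) := by
  have h1 : Tendsto (fun t : ℝ => t ^ (-q / 2)) atTop (𝓝 0) := by
    have h2 : Tendsto (fun t : ℝ => t ^ (-(q / 2))) atTop (𝓝 0) :=
      tendsto_rpow_neg_atTop (by linarith)
    refine h2.congr fun t => ?_
    rw [neg_div]
  refine tendsto_of_tendsto_of_tendsto_of_le_of_le' tendsto_const_nhds h1 ?_ ?_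
  · filter_upwards [eventually_gt_atTop 0] with l hl
    exact (fq_pos hq0 hqn (le_of_lt hl)).le
  · filter_upwards [eventually_gt_atTop 0] with l hl
    exact c2_upper hq0 hqn hl

/-- (T2-C2c) A continuous inverse of `fq`: `L t` is the unique `l > 0` with `fq n q l = t`. -/
theorem exists_L {q : ℝ} (hq0 : 0 < q) (hqn : q < n) :
    ∃ L : ℝ → ℝ, ContinuousOn L (Ioo 0 (fq n q 0)) ∧
      (∀ t ∈ Ioo 0 (fq n q 0), 0 < L t ∧ fq n q (L t) = t) ∧
      ∀ l, 0 < l → L (fq n q l) = l := by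
  classical
  have hanti := fq_strictAnti (n := n) hq0 hqn
  have hex : ∀ t ∈ Ioo 0 (fq n q 0), ∃ l, 0 < l ∧ fq n q l = t := by
    intro t ht
    obtain ⟨l1, hl1, hl1'⟩ : ∃ l1 : ℝ, fq n q l1 < t ∧ 0 < l1 :=
      (((fq_tendsto hq0 hqn).eventually (gt_mem_nhds ht.1)).and (eventually_gt_atTop 0)).exists
    have hcont : ContinuousOn (fq n q) (Icc 0 l1) :=
      (fq_cont hq0 hqn).mono fun x hx => hx.1
    obtain ⟨l, hl, hlt⟩ := intermediate_value_Icc' hl1'.le hcont ⟨hl1.le, ht.2.le⟩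
    refine ⟨l, lt_of_le_of_ne hl.1 ?_, hlt⟩
    rintro rfl
    rw [hlt] at ht
    exact lt_irrefl _ ht.2
  let L : ℝ → ℝ := fun t => if h : ∃ l, 0 < l ∧ fq n q l = t then h.choose else 0
  have hL : ∀ t ∈ Ioo 0 (fq n q 0), 0 < L t ∧ fq n q (L t) = t := by
    intro t ht
    have h := hex t ht
    have e : L t = h.choose := dif_pos h
    rw [e]
    exact h.choose_spec
  refine ⟨L, ?_, hL, ?_⟩
  · intro t0 ht0
    refine ContinuousAt.continuousWithinAt ?_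
    obtain ⟨h1, h2⟩ := hL t0 ht0
    have hnb : ∀ᶠ t in 𝓝 t0, t ∈ Ioo 0 (fq n q 0) := Ioo_mem_nhds ht0.1 ht0.2
    refine tendsto_order.2 ⟨fun a ha => ?_, fun b hb => ?_⟩
    · by_cases ha0 : a ≤ 0
      · filter_upwards [hnb] with t ht
        exact lt_of_le_of_lt ha0 (hL t ht).1
      · have ha1 : 0 < a := not_le.1 ha0
        have h3 : t0 < fq n q a := by
          rw [← h2]
          exact hanti (mem_Ici.2 ha1.le) (mem_Ici.2 h1.le) ha
        filter_upwards [hnb, gt_mem_nhds h3] with t ht ht'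
        by_contra hcon
        have h4 := hanti.antitoneOn (mem_Ici.2 (hL t ht).1.le) (mem_Ici.2 ha1.le) (not_lt.1 hcon)
        rw [(hL t ht).2] at h4
        exact absurd ht' (not_lt.2 h4)
    · have hb1 : 0 < b := h1.trans hb
      have h3 : fq n q b < t0 := by
        rw [← h2]
        exact hanti (mem_Ici.2 h1.le) (mem_Ici.2 hb1.le) hb
      filter_upwards [hnb, lt_mem_nhds h3] with t ht ht'
      by_contra hcon
      have h4 := hanti.antitoneOn (mem_Ici.2 hb1.le) (mem_Ici.2 (hL t ht).1.le) (not_lt.1 hcon)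
      rw [(hL t ht).2] at h4
      exact absurd ht' (not_lt.2 h4)
  · intro l hl
    have hmem : fq n q l ∈ Ioo 0 (fq n q 0) :=
      ⟨fq_pos hq0 hqn hl.le, hanti (mem_Ici.2 le_rfl) (mem_Ici.2 hl.le) hl⟩
    obtain ⟨h1, h2⟩ := hL _ hmem
    exact hanti.injOn (mem_Ici.2 h1.le) (mem_Ici.2 hl.le) h2

end Pool.Agent.Lib.MP_6cd19d_an.T2
end

section

/-!
# The maximum principle for the operator LL
-/

set_option autoImplicit false

open MeasureTheory Set Filter Topology Metric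
open scoped ENNReal NNReal RealInnerProductSpace

namespace Pool.Agent.Lib.MP_6cd19d_an.T2

open Pool.Agent.Lib.MP_6cd19d_an.ND Pool.Agent.Lib.MP_6cd19d_an.A

variable {n : ℕ}

/-- (T2-M1a) At a local maximum `LL ≤ 0` (`ND.hasD2_localMax`: `a = 0`, `b ≤ 0`; for `yc z = 0` the last coordinate gets the
coefficient `1 + β > 0`). -/
theorem LL_localMax {β : ℝ} (hβ : -1 < β) {f : E (n + 1) → ℝ} {z : E (n + 1)}
    {a b : Fin (n + 1) → ℝ} (hf : HasD2 f z a b) (hmax : IsLocalMax f z) : LL β a b z ≤ 0 := by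
  obtain ⟨h1, h2⟩ := hasD2_localMax hf hmax
  unfold LL
  rw [Fin.sum_univ_castSucc]
  have h3 : ∑ i : Fin n, b i.castSucc ≤ 0 := Finset.sum_nonpos fun i _ => h2 _
  have h4 := h2 (Fin.last n)
  split_ifs with h
  · have h5 : (1 + β) * b (Fin.last n) ≤ 0 :=
      mul_nonpos_of_nonneg_of_nonpos (by linarith) h4
    linarith
  · rw [h1]
    simp only [zero_div, mul_zero, add_zero]
    linarith

/-- (T2-M1b) Linearity. -/
theorem LL_add_smul {β c : ℝ} (a b a' b' : Fin (n + 1) → ℝ) (z : E (n + 1)) :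
    LL β (fun i => a i + c * a' i) (fun i => b i + c * b' i) z =
      LL β a b z + c * LL β a' b' z := by
  unfold LL
  rw [Finset.sum_add_distrib, ← Finset.mul_sum]
  split_ifs with h
  · ring
  · rw [add_div, mul_div_assoc]
    ring

/-- (T2-M1c) The maximum principle.

Proof.  Suppose `f z₁ = m > 0`, `z₁ ∉ K'`.  Take `R` with `f z < m/4` for `‖z‖ ≥ R`, `R > ‖z₁‖`, `K' ⊆ ball 0 R`, and `s > 0` with `s R² < m/4`;
`g z = f z + s ‖z‖²`.  Let `C = closedBall 0 R`, and `h = g` off `K'`, `h = m/2` on `K'`.  `h` is upper semicontinuous on `C` (near a point of `K'` the values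
off `K'` are `< m/4 + m/4`), so it has a maximum on the compact `C` at some `z₀` (`UpperSemicontinuousOn.exists_isMaxOn`, or a sequence argument); `h z₀ ≥ g z₁ ≥ m`, so `z₀ ∉ K'`
and `‖z₀‖ < R`.  Then `g` has a local maximum at `z₀`; by `hasD2_add`, `hasD2_smul`, `hasD2_sq` (derivatives `2 z i`, second derivatives `2`)
and `LL_add_smul`: `0 ≥ LL β .. = LL β a b z₀ + s (2 (n+1) + 2 β) > 0`. -/
theorem max_principle_LL {β : ℝ} (hβ : -1 < β) {K' : Set (E (n + 1))} (hK : IsCompact K')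
    {f : E (n + 1) → ℝ} (hc : ∀ z, z ∉ K' → ContinuousAt f z)
    (hb : ∀ z₀ ∈ K', ∀ ε > 0, ∀ᶠ z in 𝓝 z₀, z ∉ K' → f z < ε)
    (hinf : ∀ ε > 0, ∃ R : ℝ, ∀ z, R ≤ ‖z‖ → z ∉ K' → f z < ε)
    (hD : ∀ z, z ∉ K' → ∃ a b : Fin (n + 1) → ℝ, HasD2 f z a b ∧ 0 ≤ LL β a b z) :
    ∀ z, z ∉ K' → f z ≤ 0 := by
  classical
  intro z₁ hz₁
  by_contra hcon
  rw [not_le] at hcon
  set m : ℝ := f z₁ with hm
  obtain ⟨R1, hR1⟩ := hinf (m / 4) (by linarith)
  obtain ⟨R2, hR2⟩ := hK.isBounded.subset_closedBall (0 : E (n + 1))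
  set R : ℝ := max (max R1 (R2 + 1)) (‖z₁‖ + 1) with hRdef
  have hRR1 : R1 ≤ R := (le_max_left _ _).trans (le_max_left _ _)
  have hRR2 : R2 + 1 ≤ R := (le_max_right _ _).trans (le_max_left _ _)
  have hRz : ‖z₁‖ + 1 ≤ R := le_max_right _ _
  have hR0 : 0 < R := by have := norm_nonneg z₁; linarith
  set s : ℝ := m / (8 * (R ^ 2 + 1)) with hs
  have hden : 0 < 8 * (R ^ 2 + 1) := by positivity
  have hspos : 0 < s := div_pos hcon hden
  have hsR : s * R ^ 2 < m / 4 := by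
    have h1 : s * (8 * (R ^ 2 + 1)) = m := div_mul_cancel₀ _ hden.ne'
    nlinarith
  set g : E (n + 1) → ℝ := fun z => f z + s * ‖z‖ ^ 2 with hg
  set h : E (n + 1) → ℝ := fun z => if z ∈ K' then m / 2 else g z with hh
  have hgc : ∀ z, z ∉ K' → ContinuousAt g z := by
    intro z hz
    have hsq : Continuous fun y : E (n + 1) => s * ‖y‖ ^ 2 := by fun_prop
    exact (hc z hz).add hsq.continuousAt
  have hKc : ∀ z, z ∉ K' → ∀ᶠ y in 𝓝 z, y ∉ K' := fun z hz =>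
    hK.isClosed.isOpen_compl.mem_nhds hz
  have husc : UpperSemicontinuousOn h (closedBall (0 : E (n + 1)) R) := by
    intro z hz y hy
    by_cases hzK : z ∈ K'
    · have hy' : m / 2 < y := by simpa [hh, hzK] using hy
      have h1 := hb z hzK (m / 4) (by linarith)
      refine eventually_nhdsWithin_iff.2 ?_
      filter_upwards [h1] with w hw hwC
      by_cases hwK : w ∈ K'
      · simpa [hh, hwK] using hy'
      · have h2 := hw hwK
        rw [mem_closedBall_zero_iff] at hwC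
        have h3 : s * ‖w‖ ^ 2 ≤ s * R ^ 2 :=
          mul_le_mul_of_nonneg_left (pow_le_pow_left₀ (norm_nonneg w) hwC 2) hspos.le
        simp only [hh, hwK, if_false, hg]
        linarith
    · have hy' : g z < y := by simpa [hh, hzK] using hy
      refine eventually_nhdsWithin_of_eventually_nhds ?_
      filter_upwards [hKc z hzK, (hgc z hzK).eventually (eventually_lt_nhds hy')] with w hw hw'
      simpa [hh, hw] using hw'
  obtain ⟨z₀, hz₀, hmax⟩ := husc.exists_isMaxOn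
    ⟨z₁, by rw [mem_closedBall_zero_iff]; linarith⟩ (isCompact_closedBall _ _)
  have hz₀n : ‖z₀‖ ≤ R := by rwa [mem_closedBall_zero_iff] at hz₀
  have hge : m ≤ h z₀ := by
    have h1 : h z₁ ≤ h z₀ := hmax (by rw [mem_closedBall_zero_iff]; linarith)
    have h2 : h z₁ = m + s * ‖z₁‖ ^ 2 := by simp [hh, hz₁, hg, hm]
    have h3 : 0 ≤ s * ‖z₁‖ ^ 2 := by positivity
    linarith
  have hz₀K : z₀ ∉ K' := by
    intro hmem
    have : h z₀ = m / 2 := by simp [hh, hmem]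
    linarith
  have hhz₀ : h z₀ = g z₀ := by simp [hh, hz₀K]
  have hlt : ‖z₀‖ < R := by
    rcases lt_or_eq_of_le hz₀n with h1 | h1
    · exact h1
    · exfalso
      have h2 : f z₀ < m / 4 := hR1 z₀ (by rw [h1]; exact hRR1) hz₀K
      have h3 : g z₀ = f z₀ + s * R ^ 2 := by simp only [hg, h1]
      rw [hhz₀, h3] at hge
      linarith
  have hloc : IsLocalMax g z₀ := by
    have hball : ball (0 : E (n + 1)) R ∈ 𝓝 z₀ :=
      isOpen_ball.mem_nhds (by rwa [mem_ball_zero_iff])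
    filter_upwards [hball, hKc z₀ hz₀K] with w hw hwK
    have h1 : h w ≤ h z₀ := hmax (ball_subset_closedBall hw)
    have h2 : h w = g w := by simp [hh, hwK]
    rw [h2, hhz₀] at h1
    exact h1
  obtain ⟨a, b, hab, hLL⟩ := hD z₀ hz₀K
  have hD2 := hasD2_add hab (hasD2_smul s (hasD2_sq z₀))
  have h1 := LL_localMax hβ hD2 hloc
  rw [LL_add_smul] at h1
  have h2 : LL β (fun i => 2 * z₀ i) (fun _ => (2 : ℝ)) z₀ = 2 * ((n : ℝ) + 1) + 2 * β := by
    unfold LL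
    have h3 : (if yc z₀ = 0 then (2 : ℝ) else 2 * z₀ (Fin.last n) / yc z₀) = 2 := by
      split_ifs with hy
      · rfl
      · rw [show z₀ (Fin.last n) = yc z₀ from rfl]
        field_simp
    rw [h3]
    simp
    ring
  rw [h2] at h1
  have h4 : (0 : ℝ) ≤ n := Nat.cast_nonneg n
  have h5 : 0 < s * (2 * ((n : ℝ) + 1) + 2 * β) := mul_pos hspos (by linarith)
  linarith

end Pool.Agent.Lib.MP_6cd19d_an.T2
end

section

section

/-!
# B05: the truncated Newton kernel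

`n ≥ 3`, `0 < d < 1`, `T > 0`. For `ρ > 0` put `v(ρ) = ρ^((2-n)/2) / T`; `gN ρ = T * ze d (v ρ)` for `ρ > 0`,
and `T * ze d (1 + d)` for `ρ ≤ 0`. Since `v(ρ) → ∞` as `ρ → 0+`, `gN` is constant on a neighbourhood of
`(-∞, 0]` (`ze_const`), so `gN` is smooth on `ℝ`. `nk z = gN (‖z‖^2)` is smooth.
For `ρ > 0`: `gN' = cut (v) * g0'`, `gN'' = cut (v) * g0'' + cut' (v) * (g0')^2 / T` with `g0 ρ = ρ^((2-n)/2)`, and
`2 n g0' + 4 ρ g0'' = 0`. So by `lap_radial`: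
`lap nk z = cut' (v) * 4 ρ (g0')^2 / T = cut' (v) * (n-2)^2 * ‖z‖^(2-2n) / T ≤ 0` (`4 ρ (g0' ρ)^2 = (n-2)^2 ρ^(1-n)`).
`bt = - lap nk`. It vanishes unless `1 - d ≤ v ≤ 1 + d`: `‖z‖` is in a compact subinterval of `(0, ∞)`.
`nk_le`: `ze d v ≤ v`. `nk_eq`: for `‖z‖^(2-n) ≤ (1-d) T`, `nk z = ‖z‖^(2-n)` (`ze_eq`).
`integral_bt`: `nk T - nk 1` vanishes for large `‖z‖`, so it has compact support and is smooth; its
Laplacian has integral `0` (`integral_lap_eq_zero`, `lap_sub`).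
`integral_bt_pos`: `bt ≥ 0` is continuous with compact support and `bt z > 0` for some `z` (by
`deriv_cut_neg`, choose `‖z‖` with `v = ` the given value); a vector of any given norm exists as `n ≥ 1`.
-/

set_option autoImplicit false

open MeasureTheory Set Filter Topology
open scoped ENNReal ContDiff

namespace Pool.Agent.Lib.MP_6cd19d_an.ND

/-- Profile of the truncated Newton kernel. -/
noncomputable def gN (n : ℕ) (d T ρ : ℝ) : ℝ :=
  if ρ ≤ 0 then T * ze d (1 + d) else T * ze d (ρ ^ ((2 - (n : ℝ)) / 2) / T)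

/-- The truncated Newton kernel. -/
noncomputable def nk (n : ℕ) (d T : ℝ) (z : E n) : ℝ := gN n d T (‖z‖ ^ 2)

/-- Minus its Laplacian. -/
noncomputable def bt (n : ℕ) (d T : ℝ) (z : E n) : ℝ := -lap (nk n d T) z

private theorem h44_e_neg {n : ℕ} (hn : 3 ≤ n) : ((2 - (n : ℝ)) / 2) < 0 := by
  have : (3 : ℝ) ≤ n := by exact_mod_cast hn
  linarith

private theorem h44_gN_pos {n : ℕ} {d T ρ : ℝ} (hρ : 0 < ρ) :
    gN n d T ρ = T * ze d (ρ ^ ((2 - (n : ℝ)) / 2) / T) := by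
  unfold gN
  rw [if_neg (not_le.mpr hρ)]

private theorem h44_norm_rpow {n : ℕ} {z : E n} (a : ℝ) :
    (‖z‖ ^ 2) ^ a = ‖z‖ ^ (2 * a) := by
  rw [Real.rpow_mul (norm_nonneg z)]
  norm_num

private theorem h44_norm_e {n : ℕ} {z : E n} :
    (‖z‖ ^ 2) ^ ((2 - (n : ℝ)) / 2) = ‖z‖ ^ (2 - (n : ℝ)) := by
  rw [h44_norm_rpow]
  congr 1
  ring

private theorem h44_gN_small {n : ℕ} (hn : 3 ≤ n) {d T ρ : ℝ} (hd : 0 < d) (hT : 0 < T)
    (h : ρ < ((1 + d) * T) ^ (((2 - (n : ℝ)) / 2)⁻¹)) :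
    gN n d T ρ = T * ze d (1 + d) := by
  have he := h44_e_neg hn
  rcases le_or_gt ρ 0 with h0 | h0
  · unfold gN
    rw [if_pos h0]
  · rw [h44_gN_pos h0]
    congr 1
    apply ze_const hd
    rw [le_div_iff₀ hT]
    have hc : 0 < (1 + d) * T := by positivity
    have h1 := Real.rpow_le_rpow_of_nonpos h0 h.le he.le
    rwa [← Real.rpow_mul hc.le, inv_mul_cancel₀ he.ne, Real.rpow_one] at h1

private theorem h44_contDiffAt_G {n : ℕ} {d T ρ : ℝ} (hρ : 0 < ρ) :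
    ContDiffAt ℝ ∞ (fun ρ : ℝ => T * ze d (ρ ^ ((2 - (n : ℝ)) / 2) / T)) ρ := by
  have h1 : ContDiffAt ℝ ∞ (fun ρ : ℝ => ρ ^ ((2 - (n : ℝ)) / 2) / T) ρ :=
    (contDiffAt_id.rpow_const_of_ne hρ.ne').div_const T
  have h2 : ContDiffAt ℝ ∞ (fun ρ : ℝ => ze d (ρ ^ ((2 - (n : ℝ)) / 2) / T)) ρ :=
    ContDiffAt.comp ρ (g := ze d) ((contDiff_ze d).contDiffAt) h1
  exact contDiffAt_const.mul h2

private theorem h44_gN_eventually {n : ℕ} {d T ρ : ℝ} (hρ : 0 < ρ) :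
    gN n d T =ᶠ[𝓝 ρ] (fun ρ : ℝ => T * ze d (ρ ^ ((2 - (n : ℝ)) / 2) / T)) := by
  filter_upwards [lt_mem_nhds hρ] with r hr
  exact h44_gN_pos hr

private theorem h44_contDiff_gN {n : ℕ} (hn : 3 ≤ n) {d T : ℝ} (hd : 0 < d) (hT : 0 < T) :
    ContDiff ℝ ∞ (gN n d T) := by
  rw [contDiff_iff_contDiffAt]
  intro ρ
  rcases le_or_gt ρ 0 with h0 | h0
  · have hlt : ρ < ((1 + d) * T) ^ (((2 - (n : ℝ)) / 2)⁻¹) :=
      lt_of_le_of_lt h0 (Real.rpow_pos_of_pos (by positivity) _)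
    have hev : gN n d T =ᶠ[𝓝 ρ] fun _ => T * ze d (1 + d) := by
      filter_upwards [gt_mem_nhds hlt] with r hr
      exact h44_gN_small hn hd hT hr
    exact (contDiffAt_const).congr_of_eventuallyEq hev
  · exact (h44_contDiffAt_G h0).congr_of_eventuallyEq (h44_gN_eventually h0)

private theorem h44_hasDerivAt_rpow_div {n : ℕ} {T ρ : ℝ} (hρ : 0 < ρ) :
    HasDerivAt (fun ρ : ℝ => ρ ^ ((2 - (n : ℝ)) / 2) / T)
      (((2 - (n : ℝ)) / 2) * ρ ^ (((2 - (n : ℝ)) / 2) - 1) / T) ρ :=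
  (Real.hasDerivAt_rpow_const (Or.inl hρ.ne')).div_const T

private theorem h44_deriv_gN {n : ℕ} {d T ρ : ℝ} (hT : 0 < T) (hρ : 0 < ρ) :
    deriv (gN n d T) ρ = cut d (ρ ^ ((2 - (n : ℝ)) / 2) / T) *
      (((2 - (n : ℝ)) / 2) * ρ ^ (((2 - (n : ℝ)) / 2) - 1)) := by
  rw [(h44_gN_eventually hρ).deriv_eq]
  have h1 := ((hasDerivAt_ze d (ρ ^ ((2 - (n : ℝ)) / 2) / T)).comp ρ
    (h44_hasDerivAt_rpow_div (n := n) (T := T) hρ)).const_mul T
  have h2 : HasDerivAt (fun ρ : ℝ => T * ze d (ρ ^ ((2 - (n : ℝ)) / 2) / T))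
    (T * (cut d (ρ ^ ((2 - (n : ℝ)) / 2) / T) *
      (((2 - (n : ℝ)) / 2) * ρ ^ (((2 - (n : ℝ)) / 2) - 1) / T))) ρ := h1
  rw [h2.deriv]
  field_simp

private theorem h44_deriv2_gN {n : ℕ} {d T ρ : ℝ} (hT : 0 < T) (hρ : 0 < ρ) :
    deriv (deriv (gN n d T)) ρ =
      deriv (cut d) (ρ ^ ((2 - (n : ℝ)) / 2) / T) *
        (((2 - (n : ℝ)) / 2) * ρ ^ (((2 - (n : ℝ)) / 2) - 1) / T) *
        (((2 - (n : ℝ)) / 2) * ρ ^ (((2 - (n : ℝ)) / 2) - 1)) +
      cut d (ρ ^ ((2 - (n : ℝ)) / 2) / T) *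
        (((2 - (n : ℝ)) / 2) * ((((2 - (n : ℝ)) / 2) - 1) *
          ρ ^ (((2 - (n : ℝ)) / 2) - 1 - 1))) := by
  have hev : deriv (gN n d T) =ᶠ[𝓝 ρ] fun ρ => cut d (ρ ^ ((2 - (n : ℝ)) / 2) / T) *
      (((2 - (n : ℝ)) / 2) * ρ ^ (((2 - (n : ℝ)) / 2) - 1)) := by
    filter_upwards [lt_mem_nhds hρ] with r hr
    exact h44_deriv_gN hT hr
  rw [hev.deriv_eq]
  have hc : HasDerivAt (cut d) (deriv (cut d) (ρ ^ ((2 - (n : ℝ)) / 2) / T))
      (ρ ^ ((2 - (n : ℝ)) / 2) / T) :=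
    ((contDiff_cut d).differentiable (by simp)).differentiableAt.hasDerivAt
  have h1 := hc.comp ρ (h44_hasDerivAt_rpow_div (n := n) (T := T) hρ)
  have h2 : HasDerivAt (fun ρ : ℝ => ((2 - (n : ℝ)) / 2) * ρ ^ (((2 - (n : ℝ)) / 2) - 1))
      (((2 - (n : ℝ)) / 2) * ((((2 - (n : ℝ)) / 2) - 1) *
          ρ ^ (((2 - (n : ℝ)) / 2) - 1 - 1))) ρ :=
    (Real.hasDerivAt_rpow_const (Or.inl hρ.ne')).const_mul _
  exact (h1.mul h2).deriv

private theorem h44_nk_eq_const {n : ℕ} (hn : 3 ≤ n) {d T : ℝ} (hd : 0 < d) (hT : 0 < T)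
    {w : E n} (hw : ‖w‖ < ((1 + d) * T) ^ (-1 / ((n : ℝ) - 2))) :
    nk n d T w = T * ze d (1 + d) := by
  unfold nk
  apply h44_gN_small hn hd hT
  have hn3 : (3 : ℝ) ≤ n := by exact_mod_cast hn
  have h1 : ‖w‖ ^ 2 < (((1 + d) * T) ^ (-1 / ((n : ℝ) - 2))) ^ 2 :=
    pow_lt_pow_left₀ hw (norm_nonneg w) two_ne_zero
  have hc : 0 < (1 + d) * T := by positivity
  have h2 : (((1 + d) * T) ^ (-1 / ((n : ℝ) - 2))) ^ 2 =
      ((1 + d) * T) ^ (((2 - (n : ℝ)) / 2)⁻¹) := by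
    rw [← Real.rpow_natCast, ← Real.rpow_mul hc.le]
    congr 1
    have : (n : ℝ) - 2 ≠ 0 := by linarith
    have h3 : 2 - (n : ℝ) ≠ 0 := by intro h; apply this; linarith
    push_cast
    rw [inv_div, div_mul_eq_mul_div, div_eq_div_iff this h3]
    ring
  rwa [h2] at h1

theorem contDiff_nk {n : ℕ} (hn : 3 ≤ n) {d T : ℝ} (hd : 0 < d) (hd1 : d < 1) (hT : 0 < T) :
    ContDiff ℝ ∞ (nk n d T) := by
  unfold nk
  exact (h44_contDiff_gN hn hd hT).comp (contDiff_norm_sq ℝ)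

theorem bt_formula {n : ℕ} (hn : 3 ≤ n) {d T : ℝ} (hd : 0 < d) (hd1 : d < 1) (hT : 0 < T)
    {z : E n} (hz : z ≠ 0) :
    bt n d T z = -deriv (cut d) (‖z‖ ^ (2 - (n : ℝ)) / T) * ((n : ℝ) - 2) ^ 2 *
      ‖z‖ ^ (2 - 2 * (n : ℝ)) / T := by
  have hn3 : (3 : ℝ) ≤ n := by exact_mod_cast hn
  have hz0 : 0 < ‖z‖ := norm_pos_iff.mpr hz
  have hρ : 0 < ‖z‖ ^ 2 := by positivity
  have hg : ContDiffAt ℝ 2 (gN n d T) (‖z‖ ^ 2) :=
    ((h44_contDiff_gN hn hd hT).contDiffAt).of_le (WithTop.coe_le_coe.mpr le_top)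
  have hlap := lap_radial (n := n) (x := z) hg
  unfold bt nk
  rw [hlap, h44_deriv_gN hT hρ, h44_deriv2_gN hT hρ, h44_norm_e]
  have e1 : (‖z‖ ^ 2) ^ (((2 - (n : ℝ)) / 2) - 1) = ‖z‖ ^ (-(n : ℝ)) := by
    rw [h44_norm_rpow]; congr 1; ring
  have e2 : (‖z‖ ^ 2) ^ (((2 - (n : ℝ)) / 2) - 1 - 1) = ‖z‖ ^ (-(n : ℝ)) / ‖z‖ ^ 2 := by
    rw [h44_norm_rpow, ← Real.rpow_natCast ‖z‖ 2, ← Real.rpow_sub hz0]
    congr 1; push_cast; ring
  have e3 : ‖z‖ ^ (2 - 2 * (n : ℝ)) = ‖z‖ ^ 2 * (‖z‖ ^ (-(n : ℝ)) * ‖z‖ ^ (-(n : ℝ))) := by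
    rw [← Real.rpow_natCast ‖z‖ 2, ← Real.rpow_add hz0, ← Real.rpow_add hz0]
    congr 1; push_cast; ring
  rw [e1, e2, e3]
  field_simp
  ring

theorem bt_nonneg {n : ℕ} (hn : 3 ≤ n) {d T : ℝ} (hd : 0 < d) (hd1 : d < 1) (hT : 0 < T)
    (z : E n) : 0 ≤ bt n d T z := by
  rcases eq_or_ne z 0 with h | h
  · have hr : ‖z‖ < ((1 + d) * T) ^ (-1 / ((n : ℝ) - 2)) := by
      rw [h, norm_zero]
      exact Real.rpow_pos_of_pos (by positivity) _
    have hev : nk n d T =ᶠ[𝓝 z] fun _ => T * ze d (1 + d) := by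
      have := (continuous_norm.tendsto z).eventually (gt_mem_nhds hr)
      filter_upwards [this] with w hw
      exact h44_nk_eq_const hn hd hT hw
    unfold bt
    rw [lap_congr hev, lap_const, neg_zero]
  · rw [bt_formula hn hd hd1 hT h]
    have := deriv_cut_nonpos hd (‖z‖ ^ (2 - (n : ℝ)) / T)
    have h2 : 0 ≤ ‖z‖ ^ (2 - 2 * (n : ℝ)) := Real.rpow_nonneg (norm_nonneg z) _
    have h3 : 0 ≤ -deriv (cut d) (‖z‖ ^ (2 - (n : ℝ)) / T) := by linarith
    positivity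

/-- Support of `bt`: the shell `(1-d) T ≤ ‖z‖^(2-n) ≤ (1+d) T`. -/
theorem bt_eq_zero {n : ℕ} (hn : 3 ≤ n) {d T : ℝ} (hd : 0 < d) (hd1 : d < 1) (hT : 0 < T)
    {z : E n} (hz : ‖z‖ < ((1 + d) * T) ^ (-1 / ((n : ℝ) - 2)) ∨
      ((1 - d) * T) ^ (-1 / ((n : ℝ) - 2)) < ‖z‖) : bt n d T z = 0 := by
  have hn3 : (3 : ℝ) ≤ n := by exact_mod_cast hn
  rcases hz with hr | hr
  · have hev : nk n d T =ᶠ[𝓝 z] fun _ => T * ze d (1 + d) := by
      have := (continuous_norm.tendsto z).eventually (gt_mem_nhds hr)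
      filter_upwards [this] with w hw
      exact h44_nk_eq_const hn hd hT hw
    unfold bt
    rw [lap_congr hev, lap_const, neg_zero]
  · have hc : 0 < (1 - d) * T := mul_pos (by linarith) hT
    have hz0 : 0 < ‖z‖ := lt_trans (Real.rpow_pos_of_pos hc _) hr
    rw [bt_formula hn hd hd1 hT (norm_pos_iff.mp hz0)]
    have h1 : ‖z‖ ^ (2 - (n : ℝ)) ≤ (1 - d) * T := by
      have h2 := Real.rpow_le_rpow_of_nonpos (Real.rpow_pos_of_pos hc _) hr.le
        (by linarith : (2 - (n : ℝ)) ≤ 0)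
      rw [← Real.rpow_mul hc.le] at h2
      have h3 : -1 / ((n : ℝ) - 2) * (2 - (n : ℝ)) = 1 := by
        have : (n : ℝ) - 2 ≠ 0 := by linarith
        field_simp
        ring
      rwa [h3, Real.rpow_one] at h2
    rw [cut_deriv_zero hd (Or.inl (by rw [div_le_iff₀ hT]; exact h1))]
    simp

theorem hasCompactSupport_bt {n : ℕ} (hn : 3 ≤ n) {d T : ℝ} (hd : 0 < d) (hd1 : d < 1)
    (hT : 0 < T) : HasCompactSupport (bt n d T) := by
  apply HasCompactSupport.intro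
    (isCompact_closedBall (0 : E n) (((1 - d) * T) ^ (-1 / ((n : ℝ) - 2))))
  intro z hz
  rw [mem_closedBall_zero_iff, not_le] at hz
  exact bt_eq_zero hn hd hd1 hT (Or.inr hz)

theorem nk_nonneg {n : ℕ} {d T : ℝ} (hd : 0 < d) (hT : 0 < T) (z : E n) : 0 ≤ nk n d T z := by
  unfold nk gN
  split_ifs with h
  · exact mul_nonneg hT.le (ze_nonneg (by linarith))
  · exact mul_nonneg hT.le (ze_nonneg (div_nonneg (Real.rpow_nonneg (not_le.mp h).le _) hT.le))

theorem nk_le {n : ℕ} (hn : 3 ≤ n) {d T : ℝ} (hT : 0 < T) {z : E n} (hz : z ≠ 0) :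
    nk n d T z ≤ ‖z‖ ^ (2 - (n : ℝ)) := by
  have hz0 : 0 < ‖z‖ := norm_pos_iff.mpr hz
  unfold nk
  rw [h44_gN_pos (by positivity), h44_norm_e]
  have h1 : ze d (‖z‖ ^ (2 - (n : ℝ)) / T) ≤ ‖z‖ ^ (2 - (n : ℝ)) / T :=
    ze_le (div_nonneg (Real.rpow_nonneg hz0.le _) hT.le)
  calc T * ze d (‖z‖ ^ (2 - (n : ℝ)) / T) ≤ T * (‖z‖ ^ (2 - (n : ℝ)) / T) :=
        mul_le_mul_of_nonneg_left h1 hT.le
    _ = ‖z‖ ^ (2 - (n : ℝ)) := by field_simp

theorem nk_eq {n : ℕ} (hn : 3 ≤ n) {d T : ℝ} (hd : 0 < d) (hd1 : d < 1) (hT : 0 < T) {z : E n}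
    (hz : z ≠ 0) (h : ‖z‖ ^ (2 - (n : ℝ)) ≤ (1 - d) * T) : nk n d T z = ‖z‖ ^ (2 - (n : ℝ)) := by
  have hz0 : 0 < ‖z‖ := norm_pos_iff.mpr hz
  unfold nk
  rw [h44_gN_pos (by positivity), h44_norm_e,
    ze_eq hd hd1 (by rw [div_le_iff₀ hT]; exact h)]
  field_simp

theorem integral_bt {n : ℕ} (hn : 3 ≤ n) {d T : ℝ} (hd : 0 < d) (hd1 : d < 1) (hT : 0 < T) :
    ∫ z, bt n d T z = ∫ z, bt n d 1 z := by
  have hn3 : (3 : ℝ) ≤ n := by exact_mod_cast hn
  have hcT : Continuous (bt n d T) := ((contDiff_lap (contDiff_nk hn hd hd1 hT)).continuous).neg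
  have hc1 : Continuous (bt n d 1) :=
    ((contDiff_lap (contDiff_nk hn hd hd1 one_pos)).continuous).neg
  have hiT := hcT.integrable_of_hasCompactSupport (hasCompactSupport_bt hn hd hd1 hT)
    (μ := (volume : Measure (E n)))
  have hi1 := hc1.integrable_of_hasCompactSupport (hasCompactSupport_bt hn hd hd1 one_pos)
    (μ := (volume : Measure (E n)))
  have hout : ∀ (S : ℝ), 0 < S → ∀ z : E n, ((1 - d) * S) ^ (-1 / ((n : ℝ) - 2)) < ‖z‖ →
      nk n d S z = ‖z‖ ^ (2 - (n : ℝ)) := by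
    intro S hS z hr
    have hc : 0 < (1 - d) * S := mul_pos (by linarith) hS
    have hz0 : 0 < ‖z‖ := lt_trans (Real.rpow_pos_of_pos hc _) hr
    apply nk_eq hn hd hd1 hS (norm_pos_iff.mp hz0)
    have h2 := Real.rpow_le_rpow_of_nonpos (Real.rpow_pos_of_pos hc _) hr.le
      (by linarith : (2 - (n : ℝ)) ≤ 0)
    rw [← Real.rpow_mul hc.le] at h2
    have h3 : -1 / ((n : ℝ) - 2) * (2 - (n : ℝ)) = 1 := by
      have : (n : ℝ) - 2 ≠ 0 := by linarith
      field_simp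
      ring
    rwa [h3, Real.rpow_one] at h2
  have hsub : ContDiff ℝ ∞ (fun z : E n => nk n d T z - nk n d 1 z) :=
    (contDiff_nk hn hd hd1 hT).sub (contDiff_nk hn hd hd1 one_pos)
  have hcs : HasCompactSupport (fun z : E n => nk n d T z - nk n d 1 z) := by
    apply HasCompactSupport.intro (isCompact_closedBall (0 : E n)
      (max (((1 - d) * T) ^ (-1 / ((n : ℝ) - 2))) (((1 - d) * 1) ^ (-1 / ((n : ℝ) - 2)))))
    intro z hz
    rw [mem_closedBall_zero_iff, not_le, max_lt_iff] at hz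
    show nk n d T z - nk n d 1 z = 0
    rw [hout T hT z hz.1, hout 1 one_pos z hz.2, sub_self]
  have h0 := integral_lap_eq_zero hsub hcs
  have h1 : (fun z : E n => lap (fun z => nk n d T z - nk n d 1 z) z) =
      fun z => -(bt n d T z - bt n d 1 z) := by
    funext z
    rw [lap_sub (contDiff_nk hn hd hd1 hT) (contDiff_nk hn hd hd1 one_pos)]
    unfold bt
    ring
  rw [h1, integral_neg, integral_sub hiT hi1] at h0
  linarith

theorem integral_bt_pos {n : ℕ} (hn : 3 ≤ n) {d : ℝ} (hd : 0 < d) (hd1 : d < 1) :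
    0 < ∫ z, bt n d 1 z := by
  have hn3 : (3 : ℝ) ≤ n := by exact_mod_cast hn
  have hc1 : Continuous (bt n d 1) :=
    ((contDiff_lap (contDiff_nk hn hd hd1 one_pos)).continuous).neg
  obtain ⟨v, hv1, hv2, hv⟩ := deriv_cut_neg hd
  have hv0 : 0 < v := by linarith
  have hr : 0 < v ^ (-1 / ((n : ℝ) - 2)) := Real.rpow_pos_of_pos hv0 _
  let i0 : Fin n := ⟨0, by omega⟩
  have hnorm : ‖(v ^ (-1 / ((n : ℝ) - 2))) • (bv i0 : E n)‖ = v ^ (-1 / ((n : ℝ) - 2)) := by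
    rw [norm_smul, Real.norm_of_nonneg hr.le]
    unfold bv
    simp
  have hz : (v ^ (-1 / ((n : ℝ) - 2))) • (bv i0 : E n) ≠ 0 := by
    rw [← norm_pos_iff, hnorm]
    exact hr
  apply hc1.integral_pos_of_hasCompactSupport_nonneg_nonzero
    (hasCompactSupport_bt hn hd hd1 one_pos) (fun z => bt_nonneg hn hd hd1 one_pos z)
    (x := (v ^ (-1 / ((n : ℝ) - 2))) • (bv i0 : E n))
  rw [bt_formula hn hd hd1 one_pos hz, hnorm]
  have e1 : (v ^ (-1 / ((n : ℝ) - 2))) ^ (2 - (n : ℝ)) = v := by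
    rw [← Real.rpow_mul hv0.le]
    have h3 : -1 / ((n : ℝ) - 2) * (2 - (n : ℝ)) = 1 := by
      have : (n : ℝ) - 2 ≠ 0 := by linarith
      field_simp
      ring
    rw [h3, Real.rpow_one]
  rw [e1, div_one, div_one]
  have h2 : 0 < (v ^ (-1 / ((n : ℝ) - 2))) ^ (2 - 2 * (n : ℝ)) := Real.rpow_pos_of_pos hr _
  have h4 : 0 < -deriv (cut d) v := by linarith
  have h5 : 0 < ((n : ℝ) - 2) ^ 2 := by
    have : 0 < (n : ℝ) - 2 := by linarith
    positivity
  exact (mul_pos (mul_pos h4 h5) h2).ne'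

end Pool.Agent.Lib.MP_6cd19d_an.ND
end

section

/-!
# B07: smooth superharmonic functions and their truncations

`GoodU U`: smooth, nonnegative, superharmonic, Laplacian of compact support, `U → 0` at infinity.
`WW d U s = s * ze d (U / s)`, `rr d U s = - lap (WW d U s)`, `ff d U s = Zf d (U / s)`,
`kk d U s = - (U/s)^2 * deriv (cut d) (U/s) / s`.

`rr_formula`: `lap_comp` with `ψ v = s * ze d (v / s)`: `ψ' = cut d (v/s)`, `ψ'' = deriv (cut d) (v/s) / s`.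
`ff_grad`: `pd_comp`: `pd i (ff s) = deriv (Zf d) (U/s) * pd i U / s = -(U/s) * deriv (cut d) (U/s) * pd i U / s`.
`grad_sq_le`: with `η = - deriv (cut d) (U/s) ≥ 0`, `v = U/s`: `∑ (pd i ff)^2 = v^2 η^2 |∇U|^2 / s^2`,
`kk * rr ≥ (v^2 η / s) * (η |∇U|^2 / s)` since `cut * (-lap U) ≥ 0`.
Supports: all of `rr s x`, `ff s x`, `kk s x` vanish when `U x / s ≤ 1 - d` and `lap U x = 0` near... precisely:
`ff`, `kk` vanish if `U x ≤ (1-d) s`; and `rr s x = - lap U x` there. For `0 < s1 ≤ s` this gives vanishing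
outside the compact set `supC d U s1 = {x | (1 - d) s1 ≤ U x} ∪ tsupport (lap U)` (compact: `U` is continuous
and tends to `0` at infinity; closed and bounded).
`goodU_sum`: a finite convex combination of translates of `nk`.
-/

set_option autoImplicit false

open MeasureTheory Set Filter Topology
open scoped ENNReal ContDiff

namespace Pool.Agent.Lib.MP_6cd19d_an.ND

/-- Smooth superharmonic functions, harmonic near infinity, vanishing at infinity. -/
structure GoodU {n : ℕ} (U : E n → ℝ) : Prop where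
  smooth : ContDiff ℝ ∞ U
  nonneg : ∀ x, 0 ≤ U x
  lap_nonpos : ∀ x, lap U x ≤ 0
  cs : HasCompactSupport (lap U)
  tend : Tendsto U (cocompact (E n)) (𝓝 0)

/-- The truncation of `U` at height `s`. -/
noncomputable def WW {n : ℕ} (d : ℝ) (U : E n → ℝ) (s : ℝ) (x : E n) : ℝ := s * ze d (U x / s)

/-- The density of the swept measure. -/
noncomputable def rr {n : ℕ} (d : ℝ) (U : E n → ℝ) (s : ℝ) (x : E n) : ℝ := -lap (WW d U s) x

/-- The derivative of `WW` in `s`. -/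
noncomputable def ff {n : ℕ} (d : ℝ) (U : E n → ℝ) (s : ℝ) (x : E n) : ℝ := Zf d (U x / s)

/-- Minus the second derivative of `WW` in `s`. -/
noncomputable def kk {n : ℕ} (d : ℝ) (U : E n → ℝ) (s : ℝ) (x : E n) : ℝ :=
  -(U x / s) ^ 2 * deriv (cut d) (U x / s) / s

/-- A compact set containing the supports of `rr`, `ff`, `kk` for all parameters `≥ s1`. -/
def supC {n : ℕ} (d : ℝ) (U : E n → ℝ) (s1 : ℝ) : Set (E n) :=
  {x | (1 - d) * s1 ≤ U x} ∪ tsupport (lap U)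

theorem isCompact_supC {n : ℕ} {d : ℝ} (hd1 : d < 1) {U : E n → ℝ} (hU : GoodU U) {s1 : ℝ}
    (hs1 : 0 < s1) : IsCompact (supC d U s1) := by
  refine IsCompact.union ?_ hU.cs
  have h1 : ∀ᶠ x in cocompact (E n), U x < (1 - d) * s1 :=
    hU.tend.eventually (gt_mem_nhds (mul_pos (by linarith) hs1))
  obtain ⟨K, hK, hKU⟩ := mem_cocompact.mp h1
  refine hK.of_isClosed_subset (isClosed_le continuous_const hU.smooth.continuous) ?_
  intro x hx
  by_contra hxK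
  have h2 : U x < (1 - d) * s1 := hKU hxK
  exact absurd hx (not_le.mpr h2)

private theorem hasDerivAt_psi (d : ℝ) {s : ℝ} (hs : 0 < s) (v : ℝ) :
    HasDerivAt (fun v => s * ze d (v / s)) (cut d (v / s)) v := by
  have h1 : HasDerivAt (fun v : ℝ => v / s) (1 / s) v := (hasDerivAt_id v).div_const s
  have h2 := (((hasDerivAt_ze d (v / s)).comp v h1).const_mul s)
  have h3 : cut d (v / s) = s * (cut d (v / s) * (1 / s)) := by
    field_simp
  rw [h3]
  exact h2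

private theorem deriv_psi (d : ℝ) {s : ℝ} (hs : 0 < s) :
    deriv (fun v => s * ze d (v / s)) = fun v => cut d (v / s) :=
  funext fun v => (hasDerivAt_psi d hs v).deriv

private theorem hasDerivAt_cut (d v : ℝ) : HasDerivAt (cut d) (deriv (cut d) v) v :=
  ((contDiff_cut d).differentiable (by simp)).differentiableAt.hasDerivAt

private theorem deriv2_psi (d : ℝ) {s : ℝ} (hs : 0 < s) (v : ℝ) :
    deriv (deriv (fun v => s * ze d (v / s))) v = deriv (cut d) (v / s) / s := by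
  rw [deriv_psi d hs]
  have h1 : HasDerivAt (fun v : ℝ => v / s) (1 / s) v := (hasDerivAt_id v).div_const s
  have h2 := (hasDerivAt_cut d (v / s)).comp v h1
  have h3 := h2.deriv
  have h4 : (cut d ∘ fun v : ℝ => v / s) = fun v => cut d (v / s) := rfl
  rw [h4] at h3
  rw [h3]
  ring

private theorem contDiff_psi (d s : ℝ) : ContDiff ℝ ∞ (fun v => s * ze d (v / s)) :=
  contDiff_const.mul ((contDiff_ze d).comp (contDiff_id.div_const s))

private theorem contDiff_WW {n : ℕ} (d : ℝ) {U : E n → ℝ} (hU : GoodU U) (s : ℝ) :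
    ContDiff ℝ ∞ (WW d U s) := (contDiff_psi d s).comp hU.smooth

theorem rr_formula {n : ℕ} (d : ℝ) {U : E n → ℝ} (hU : GoodU U) {s : ℝ} (hs : 0 < s) (x : E n) :
    rr d U s x = cut d (U x / s) * (-lap U x) -
      deriv (cut d) (U x / s) * (∑ i, (pd i U x) ^ 2) / s := by
  have hle : (2 : WithTop ℕ∞) ≤ ((⊤ : ℕ∞) : WithTop ℕ∞) := by
    have h0 : ((2 : ℕ∞) : WithTop ℕ∞) ≤ ((⊤ : ℕ∞) : WithTop ℕ∞) := WithTop.coe_le_coe.mpr le_top
    exact h0
  have h1 := lap_comp (f := U) (ψ := fun v => s * ze d (v / s)) (x := x)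
    ((contDiff_psi d s).contDiffAt.of_le hle) (hU.smooth.contDiffAt.of_le hle)
  rw [deriv2_psi d hs, deriv_psi d hs] at h1
  have h2 : lap (WW d U s) x = lap (fun z => s * ze d (U z / s)) x := rfl
  unfold rr
  rw [h2, h1]
  ring

theorem rr_nonneg {n : ℕ} {d : ℝ} (hd : 0 < d) {U : E n → ℝ} (hU : GoodU U) {s : ℝ} (hs : 0 < s)
    (x : E n) : 0 ≤ rr d U s x := by
  rw [rr_formula d hU hs]
  have h1 : 0 ≤ cut d (U x / s) * (-lap U x) :=
    mul_nonneg (cut_nonneg _ _) (by linarith [hU.lap_nonpos x])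
  have h2 : deriv (cut d) (U x / s) * (∑ i, (pd i U x) ^ 2) / s ≤ 0 :=
    div_nonpos_of_nonpos_of_nonneg (mul_nonpos_of_nonpos_of_nonneg (deriv_cut_nonpos hd _)
      (Finset.sum_nonneg fun i _ => sq_nonneg _)) hs.le
  linarith

theorem kk_nonneg {n : ℕ} {d : ℝ} (hd : 0 < d) (U : E n → ℝ) {s : ℝ} (hs : 0 < s) (x : E n) :
    0 ≤ kk d U s x := by
  unfold kk
  refine div_nonneg ?_ hs.le
  have h1 := deriv_cut_nonpos hd (U x / s)
  have h2 : 0 ≤ (U x / s) ^ 2 := sq_nonneg _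
  nlinarith

theorem contDiff_rr {n : ℕ} (d : ℝ) {U : E n → ℝ} (hU : GoodU U) {s : ℝ} (hs : 0 < s) :
    ContDiff ℝ ∞ (rr d U s) := by
  have := hs
  exact (contDiff_lap (contDiff_WW d hU s)).neg

theorem contDiff_ff {n : ℕ} (d : ℝ) {U : E n → ℝ} (hU : GoodU U) {s : ℝ} (hs : 0 < s) :
    ContDiff ℝ ∞ (ff d U s) := by
  have := hs
  exact (contDiff_Zf d).comp (hU.smooth.div_const s)

private theorem contDiff_deriv_cut (d : ℝ) : ContDiff ℝ ∞ (deriv (cut d)) :=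
  (contDiff_infty_iff_deriv.mp (contDiff_cut d)).2

theorem contDiff_kk {n : ℕ} (d : ℝ) {U : E n → ℝ} (hU : GoodU U) {s : ℝ} (hs : 0 < s) :
    ContDiff ℝ ∞ (kk d U s) := by
  have := hs
  have h1 : ContDiff ℝ ∞ (fun x : E n => U x / s) := hU.smooth.div_const s
  exact ((h1.pow 2).neg.mul ((contDiff_deriv_cut d).comp h1)).div_const s

theorem grad_sq_le {n : ℕ} {d : ℝ} (hd : 0 < d) {U : E n → ℝ} (hU : GoodU U) {s : ℝ}
    (hs : 0 < s) (x : E n) :
    ∑ i, (pd i (ff d U s) x) ^ 2 ≤ kk d U s x * rr d U s x := by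
  have h1 : ∀ v : ℝ, HasDerivAt (fun v => Zf d (v / s))
      (-(v / s) * deriv (cut d) (v / s) * (1 / s)) v := by
    intro v
    have h1 : HasDerivAt (fun v : ℝ => v / s) (1 / s) v := (hasDerivAt_id v).div_const s
    exact (hasDerivAt_Zf d (v / s)).comp v h1
  have h2 : ∀ i, pd i (ff d U s) x =
      (-(U x / s) * deriv (cut d) (U x / s) * (1 / s)) * pd i U x := by
    intro i
    have h3 := pd_comp (f := U) (ψ := fun v => Zf d (v / s)) (x := x)
      (h1 (U x)).differentiableAt (hU.smooth.differentiable (by simp)).differentiableAt i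
    rw [(h1 (U x)).deriv] at h3
    exact h3
  simp only [h2, mul_pow]
  rw [← Finset.mul_sum, rr_formula d hU hs]
  unfold kk
  have h3 : 0 ≤ cut d (U x / s) * (-lap U x) :=
    mul_nonneg (cut_nonneg _ _) (by linarith [hU.lap_nonpos x])
  have h4 := kk_nonneg hd U hs x
  unfold kk at h4
  have h5 := mul_nonneg h4 h3
  have h6 : (-(U x / s)) ^ 2 * deriv (cut d) (U x / s) ^ 2 * (1 / s) ^ 2 *
      (∑ i, pd i U x ^ 2) = -(U x / s) ^ 2 * deriv (cut d) (U x / s) / s *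
      (-(deriv (cut d) (U x / s) * (∑ i, (pd i U x) ^ 2) / s)) := by
    field_simp
  have h7 : -(U x / s) ^ 2 * deriv (cut d) (U x / s) / s *
      (cut d (U x / s) * (-lap U x) -
        deriv (cut d) (U x / s) * (∑ i, (pd i U x) ^ 2) / s) =
      -(U x / s) ^ 2 * deriv (cut d) (U x / s) / s * (cut d (U x / s) * (-lap U x)) +
      -(U x / s) ^ 2 * deriv (cut d) (U x / s) / s *
      (-(deriv (cut d) (U x / s) * (∑ i, (pd i U x) ^ 2) / s)) := by ring
  rw [h7, h6]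
  linarith

theorem rr_supp {n : ℕ} {d : ℝ} (hd : 0 < d) (hd1 : d < 1) {U : E n → ℝ} (hU : GoodU U)
    {s1 s : ℝ} (hs1 : 0 < s1) (hs : s1 ≤ s) {x : E n} (hx : x ∉ supC d U s1) :
    rr d U s x = 0 ∧ ff d U s x = 0 ∧ kk d U s x = 0 := by
  have hs0 : 0 < s := lt_of_lt_of_le hs1 hs
  have h1 : ¬ (1 - d) * s1 ≤ U x := fun h => hx (Or.inl h)
  have h2 : lap U x = 0 := image_eq_zero_of_notMem_tsupport fun h => hx (Or.inr h)
  have h3 : U x / s ≤ 1 - d := by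
    rw [div_le_iff₀ hs0]
    have h4 : (1 - d) * s1 ≤ (1 - d) * s := mul_le_mul_of_nonneg_left hs (by linarith)
    linarith [not_le.mp h1]
  have h5 : deriv (cut d) (U x / s) = 0 := cut_deriv_zero hd (Or.inl h3)
  refine ⟨?_, Zf_eq_zero hd hd1 h3, ?_⟩
  · rw [rr_formula d hU hs0, h2, h5]
    simp
  · unfold kk
    rw [h5]
    simp

theorem rr_of_le {n : ℕ} {d : ℝ} (hd : 0 < d) (hd1 : d < 1) {U : E n → ℝ} (hU : GoodU U)
    {s : ℝ} (hs : 0 < s) (h : ∀ x, U x ≤ (1 - d) * s) (x : E n) : rr d U s x = -lap U x := by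
  have := hd1
  have h3 : U x / s ≤ 1 - d := by
    rw [div_le_iff₀ hs]
    exact h x
  rw [rr_formula d hU hs, cut_eq_one hd h3, cut_deriv_zero hd (Or.inl h3)]
  simp

/-- The mass of `rr` does not depend on `s`: `WW s - U` is smooth with compact support. -/
theorem integral_rr {n : ℕ} {d : ℝ} (hd : 0 < d) (hd1 : d < 1) {U : E n → ℝ} (hU : GoodU U)
    {s : ℝ} (hs : 0 < s) : ∫ x, rr d U s x = ∫ x, -lap U x := by
  have hW := contDiff_WW d hU s
  have hc : HasCompactSupport (fun z => WW d U s z - U z) := by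
    refine HasCompactSupport.intro (isCompact_supC hd1 hU hs) fun x hx => ?_
    have h1 : ¬ (1 - d) * s ≤ U x := fun h => hx (Or.inl h)
    have h3 : U x / s ≤ 1 - d := by
      rw [div_le_iff₀ hs]
      exact (not_le.mp h1).le
    unfold WW
    rw [ze_eq hd hd1 h3]
    field_simp
    ring
  have hsm : ContDiff ℝ ∞ (fun z => WW d U s z - U z) := hW.sub hU.smooth
  have h0 := integral_lap_eq_zero hsm hc
  have h1 : ∀ x, lap (fun z => WW d U s z - U z) x = lap (WW d U s) x - lap U x :=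
    fun x => lap_sub hW hU.smooth x
  have i1 : Integrable (lap U) :=
    (contDiff_lap hU.smooth).continuous.integrable_of_hasCompactSupport hU.cs
  have i2 : Integrable (lap (fun z => WW d U s z - U z)) :=
    (contDiff_lap hsm).continuous.integrable_of_hasCompactSupport (hasCompactSupport_lap hc)
  have h2 : ∀ x, rr d U s x = -lap U x - lap (fun z => WW d U s z - U z) x := by
    intro x
    rw [h1]
    unfold rr
    ring
  simp only [h2]
  have h3 : ∫ x, (-lap U x - lap (fun z => WW d U s z - U z) x) =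
      (∫ x, -lap U x) - ∫ x, lap (fun z => WW d U s z - U z) x :=
    integral_sub i1.neg i2
  rw [h3, h0, sub_zero]

private theorem tendsto_nk {n : ℕ} (hn : 3 ≤ n) {d T : ℝ} (hd : 0 < d) (hT : 0 < T) :
    Tendsto (nk n d T) (cocompact (E n)) (𝓝 0) := by
  have h1 : Tendsto (fun z : E n => ‖z‖ ^ (2 - (n : ℝ))) (cocompact (E n)) (𝓝 0) := by
    have h2 : Tendsto (fun t : ℝ => t ^ (-((n : ℝ) - 2))) atTop (𝓝 0) :=
      tendsto_rpow_neg_atTop (by
        have : (3 : ℝ) ≤ n := by exact_mod_cast hn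
        linarith)
    have h3 := h2.comp (tendsto_norm_cocompact_atTop (E := E n))
    refine h3.congr fun z => ?_
    simp only [Function.comp_apply]
    congr 1
    ring
  refine tendsto_of_tendsto_of_tendsto_of_le_of_le' tendsto_const_nhds h1
    (Eventually.of_forall fun z => nk_nonneg hd hT z) ?_
  have h4 : ∀ᶠ z in cocompact (E n), z ≠ 0 := by
    have h5 : ({(0 : E n)} : Set (E n))ᶜ ∈ cocompact (E n) :=
      (isCompact_singleton).compl_mem_cocompact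
    exact h5
  filter_upwards [h4] with z hz
  exact nk_le hn hT hz

theorem goodU_sum {n N : ℕ} (hn : 3 ≤ n) {d T : ℝ} (hd : 0 < d) (hd1 : d < 1) (hT : 0 < T)
    {m : Fin N → ℝ} (hm : ∀ j, 0 ≤ m j) (y : Fin N → E n) :
    GoodU (fun x => ∑ j, m j * nk n d T (x - y j)) := by
  have hs : ∀ j, ContDiff ℝ ∞ (fun x : E n => nk n d T (x - y j)) := fun j =>
    (contDiff_nk hn hd hd1 hT).comp (contDiff_id.sub contDiff_const)
  have hlap : ∀ x, lap (fun x => ∑ j, m j * nk n d T (x - y j)) x =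
      ∑ j, m j * lap (nk n d T) (x - y j) := by
    intro x
    rw [lap_sum (f := fun j x => nk n d T (x - y j)) hs m x]
    refine Finset.sum_congr rfl fun j _ => ?_
    rw [lap_sub_right (contDiff_nk hn hd hd1 hT)]
  refine ⟨?_, ?_, ?_, ?_, ?_⟩
  · exact ContDiff.sum fun j _ => contDiff_const.mul (hs j)
  · intro x
    exact Finset.sum_nonneg fun j _ => mul_nonneg (hm j) (nk_nonneg hd hT _)
  · intro x
    rw [hlap]
    refine Finset.sum_nonpos fun j _ => ?_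
    have h1 := bt_nonneg hn hd hd1 hT (x - y j)
    unfold bt at h1
    exact mul_nonpos_of_nonneg_of_nonpos (hm j) (by linarith)
  · have h1 : lap (fun x => ∑ j, m j * nk n d T (x - y j)) =
        fun x => ∑ j, m j * lap (nk n d T) (x - y j) := funext hlap
    rw [h1]
    have hb := hasCompactSupport_bt hn hd hd1 hT
    refine HasCompactSupport.intro
      (K := ⋃ j : Fin N, (fun z => z + y j) '' tsupport (bt n d T)) ?_ ?_
    · exact isCompact_iUnion fun j => IsCompact.image hb (by fun_prop)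
    · intro x hx
      refine Finset.sum_eq_zero fun j _ => ?_
      have h2 : x - y j ∉ tsupport (bt n d T) := by
        intro h
        apply hx
        rw [mem_iUnion]
        exact ⟨j, x - y j, h, by simp⟩
      have h3 : bt n d T (x - y j) = 0 := image_eq_zero_of_notMem_tsupport h2
      unfold bt at h3
      have h4 : lap (nk n d T) (x - y j) = 0 := by linarith
      rw [h4, mul_zero]
  · have h1 : ∀ j, Tendsto (fun x : E n => m j * nk n d T (x - y j)) (cocompact (E n))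
        (𝓝 0) := by
      intro j
      have h2 : Tendsto (fun x : E n => x - y j) (cocompact (E n)) (cocompact (E n)) :=
        (Homeomorph.subRight (y j)).isClosedEmbedding.tendsto_cocompact
      have h3 := ((tendsto_nk hn hd hT).comp h2).const_mul (m j)
      rw [mul_zero] at h3
      exact h3
    have h2 := tendsto_finsetSum Finset.univ fun j (_ : j ∈ Finset.univ) => h1 j
    simpa using h2

end Pool.Agent.Lib.MP_6cd19d_an.ND
end
end
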