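import Pool.Agent.Lib.MP_6cd19d_an.ND.B19c
import Pool.Agent.Lib.MP_6cd19d_an.ND.B07
import Pool.Agent.Lib.MP_6cd19d_an.ND.B04
import Pool.Agent.Lib.MP_6cd19d_an.ND.P5b

section

/-!
# C23: from the logarithmic energy of `K` to the `s`-energies of its neighbourhoods, `s → 0+`, `n = 2`

`log_conv`: `μ` and `u` probability measures, `μ` on a bounded set `S`, `u` on `closedBall 0 δ`, `ν = μ ∗ u`
(the image of `μ.prod u` under addition), `R ≥ (diam S + 2 δ)^2`. Then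
`∬ gp0 0 R (‖x-y‖^2) dν dν ≤ ∬ gp0 0 R (‖x-y‖^2) dμ dμ`. Proof: for fixed `a, b` let `μ_a = μ.map (· + a)`. By
`mixture_pd` (`k = gp 0 e R`, `gp_mixture`) `2 ∬ gp (‖x-y‖^2) dμ_a dμ_b ≤ I(μ_a,μ_a) + I(μ_b,μ_b) = 2 I(μ,μ)`. Integrate over
`a, b` with respect to `u`: `∬ gp 0 e R (‖x-y‖^2) dν dν ≤ ∬ gp 0 e R (‖x-y‖^2) dμ dμ`; let `e → 0` (`gp_tendsto`, Fatou on
the left, `gp_le_gp0` on the right).
`infEn_log_limit`: `K` compact, `logEn K ≠ ⊤`, `D = diam K + 1`, `V = (logEn K).toReal - log D`. Let `δ, ε > 0`. Let `μ` be a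
probability measure on `K` with `∬ log (D / dist x y) dμ dμ ≤ logEn K + ε/2` (so no atoms), `u` the
normalised Lebesgue measure of `closedBall 0 δ`, `ν = μ ∗ u`: it lives on `cthickening δ K`, has bounded density
(`≤ 1/vol`), so `en 1 ν < ∞` (`∫_{‖z‖ ≤ 1} ‖z‖^(-1) dz < ∞` in the plane; see P7: the potential of `nu z ρ` is bounded).
For `0 < s ≤ 1` and `t > 0`, `(t^(-s) - 1)/s` is nondecreasing in `s` and tends to `-log t` as `s → 0+`
(`t^(-s) = exp (-s log t)`, convexity of `exp`), and `≥ -log t`. By dominated convergence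
`(en s ν - 1)/s → ∬ -log ‖x-y‖ dν dν ≤ ∬ -log ‖x-y‖ dμ dμ ≤ V + ε/2` (`log_conv`, with `gp0_zero`:
`gp0 0 R (t^2) = ofReal (log (sqrt R) - log t)`). And `infEn s (cthickening δ K) ≤ en s ν`.
-/

set_option autoImplicit false

open MeasureTheory Set Filter Topology
open scoped ENNReal ContDiff

namespace Pool.Agent.Lib.MP_6cd19d_an.ND

section
variable {n : ℕ}

private theorem c23_cont {e R : ℝ} (he : 0 < e) (hR : 0 < R) :
    Continuous fun z : E n => gp 0 e R (‖z‖ ^ 2) := by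
  have hG := goodG_gp (n := 2) (p := 0) he hR (by norm_num)
  refine hG.smooth.continuousOn.comp_continuous (by fun_prop) fun z => ?_
  have h1 : 0 ≤ ‖z‖ ^ 2 := sq_nonneg _
  have h2 : 0 < e ^ 2 := by positivity
  rw [mem_Ioi]
  linarith

private theorem c23_contOn {e R : ℝ} (he : 0 < e) (hR : 0 < R) :
    Measurable fun q : E n × E n => gp 0 e R (‖q.1 - q.2‖ ^ 2) :=
  ((c23_cont he hR).comp (continuous_fst.sub continuous_snd)).measurable

/-- a.e. pairs are in the support -/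
private theorem c23_ae {α β : Measure (E n)} [IsProbabilityMeasure α] [IsProbabilityMeasure β]
    {S : Set (E n)} (hα : α Sᶜ = 0) (hβ : β Sᶜ = 0) {R : ℝ}
    (hS : ∀ x ∈ S, ∀ y ∈ S, ‖x - y‖ ^ 2 ≤ R) :
    ∀ᵐ q ∂(α.prod β), ‖q.1 - q.2‖ ^ 2 ≤ R := by
  have hA : ∀ᵐ x ∂α, x ∈ S := by
    rw [ae_iff]
    exact hα
  have hB : ∀ᵐ x ∂β, x ∈ S := by
    rw [ae_iff]
    exact hβ
  have e1 : ∀ᵐ q ∂(α.prod β), q.1 ∈ S := Measure.quasiMeasurePreserving_fst.ae hA
  have e2 : ∀ᵐ q ∂(α.prod β), q.2 ∈ S := Measure.quasiMeasurePreserving_snd.ae hB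
  filter_upwards [e1, e2] with q h1 h2 using hS _ h1 _ h2

private theorem c23_L {e R : ℝ} (he : 0 < e) (hR : 0 < R) {α β : Measure (E n)}
    [IsProbabilityMeasure α] [IsProbabilityMeasure β]
    {S : Set (E n)} (hα : α Sᶜ = 0) (hβ : β Sᶜ = 0)
    (hS : ∀ x ∈ S, ∀ y ∈ S, ‖x - y‖ ^ 2 ≤ R) :
    (∫⁻ x, ∫⁻ y, ENNReal.ofReal (gp 0 e R (‖x - y‖ ^ 2)) ∂β ∂α =
      ENNReal.ofReal (∫ x, ∫ y, gp 0 e R (‖x - y‖ ^ 2) ∂β ∂α)) ∧
      0 ≤ ∫ x, ∫ y, gp 0 e R (‖x - y‖ ^ 2) ∂β ∂α := by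
  have hm := c23_contOn (n := n) he hR
  have hae := c23_ae hα hβ hS
  have hnn : 0 ≤ᵐ[α.prod β] fun q : E n × E n => gp 0 e R (‖q.1 - q.2‖ ^ 2) := by
    filter_upwards [hae] with q hq
    exact gp_nonneg he (sq_nonneg _) hq
  have hint : Integrable (fun q : E n × E n => gp 0 e R (‖q.1 - q.2‖ ^ 2)) (α.prod β) := by
    refine Integrable.of_bound (C := gp 0 e R 0) hm.aestronglyMeasurable ?_
    filter_upwards [hae] with q hq
    rw [Real.norm_eq_abs, abs_of_nonneg (gp_nonneg he (sq_nonneg _) hq)]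
    exact gp_le_zero he (sq_nonneg _)
  have h1 := ofReal_integral_eq_lintegral_ofReal hint hnn
  have h2 := integral_prod _ hint
  have h3 := lintegral_prod (μ := α) (ν := β)
    (fun q : E n × E n => ENNReal.ofReal (gp 0 e R (‖q.1 - q.2‖ ^ 2)))
    hm.ennreal_ofReal.aemeasurable
  rw [h2, h3] at h1
  refine ⟨h1.symm, ?_⟩
  rw [← h2]
  exact integral_nonneg_of_ae hnn

private theorem c23_pd {e R : ℝ} (he : 0 < e) (hR : 0 < R) {α β : Measure (E n)}
    [IsProbabilityMeasure α] [IsProbabilityMeasure β]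
    {S : Set (E n)} (hSm : MeasurableSet S) (hα : α Sᶜ = 0) (hβ : β Sᶜ = 0)
    (hS : ∀ x ∈ S, ∀ y ∈ S, ‖x - y‖ ^ 2 ≤ R) :
    2 * ∫ x, ∫ y, gp 0 e R (‖x - y‖ ^ 2) ∂β ∂α ≤
      (∫ x, ∫ y, gp 0 e R (‖x - y‖ ^ 2) ∂α ∂α) + ∫ x, ∫ y, gp 0 e R (‖x - y‖ ^ 2) ∂β ∂β := by
  have he2 : 0 < e ^ 2 := by positivity
  refine mixture_pd (k := gp 0 e R) (k0 := gp 0 e R 0)
    (w := fun u => (2 * Real.Gamma (0 / 2 + 1))⁻¹ * u ^ ((0 : ℝ) / 2 - 1) *
      Real.exp (-u * e ^ 2)) hSm hα hβ hS ?_ ?_ ?_ ?_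
  · refine ((measurable_id.pow_const _).const_mul _).mul ?_
    exact (by fun_prop : Continuous fun u : ℝ => Real.exp (-u * e ^ 2)).measurable
  · intro u hu
    have h1 : 0 < Real.Gamma (0 / 2 + 1) := Real.Gamma_pos_of_pos (by norm_num)
    have h2 : 0 ≤ u ^ ((0 : ℝ) / 2 - 1) := Real.rpow_nonneg hu.le _
    positivity
  · exact (gp_mixture (p := 0) (by norm_num) he hR.le).1
  · intro ρ hρ hρR
    have h1 := (gp_mixture (p := 0) (by norm_num) he hρ).2
    have hcont : ContinuousOn (fun t : ℝ => (t + e ^ 2) ^ (-(0 : ℝ) / 2 - 1)) (Icc 0 R) := by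
      refine ContinuousOn.rpow_const (by fun_prop) fun t ht => Or.inl ?_
      have := ht.1
      positivity
    have hi1 : IntervalIntegrable (fun t : ℝ => (t + e ^ 2) ^ (-(0 : ℝ) / 2 - 1)) volume 0 ρ :=
      (hcont.mono (by rw [uIcc_of_le hρ]; exact Icc_subset_Icc_right hρR)).intervalIntegrable
    have hi2 : IntervalIntegrable (fun t : ℝ => (t + e ^ 2) ^ (-(0 : ℝ) / 2 - 1)) volume ρ R :=
      (hcont.mono (by rw [uIcc_of_le hρR]; exact Icc_subset_Icc_left hρ)).intervalIntegrable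
    have h2 := intervalIntegral.integral_add_adjacent_intervals hi1 hi2
    show gp 0 e R ρ = gp 0 e R 0 - _
    rw [← h1]
    unfold gp
    rw [← h2]
    ring

/-- the inequality for translates -/
private theorem c23_trans {e R : ℝ} (he : 0 < e) (hR : 0 < R) {μ : Measure (E n)}
    [IsProbabilityMeasure μ] {S' : Set (E n)} (hSm : MeasurableSet S')
    (hS : ∀ x ∈ S', ∀ y ∈ S', ‖x - y‖ ^ 2 ≤ R) {a b : E n}
    (ha : μ {x | x + a ∉ S'} = 0) (hb : μ {x | x + b ∉ S'} = 0) (h0 : μ S'ᶜ = 0) :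
    ∫⁻ x, ∫⁻ y, ENNReal.ofReal (gp 0 e R (‖x + a - (y + b)‖ ^ 2)) ∂μ ∂μ ≤
      ∫⁻ x, ∫⁻ y, ENNReal.ofReal (gp 0 e R (‖x - y‖ ^ 2)) ∂μ ∂μ := by
  have hmz : Measurable fun z : E n => ENNReal.ofReal (gp 0 e R (‖z‖ ^ 2)) :=
    (c23_cont he hR).measurable.ennreal_ofReal
  have hadd : ∀ c : E n, Measurable fun x : E n => x + c := fun c => measurable_add_const c
  let α : Measure (E n) := μ.map (fun x => x + a)
  let β : Measure (E n) := μ.map (fun x => x + b)
  have hαp : IsProbabilityMeasure α := Measure.isProbabilityMeasure_map (hadd a).aemeasurable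
  have hβp : IsProbabilityMeasure β := Measure.isProbabilityMeasure_map (hadd b).aemeasurable
  have hα : α S'ᶜ = 0 := by
    rw [Measure.map_apply (hadd a) hSm.compl]
    exact ha
  have hβ : β S'ᶜ = 0 := by
    rw [Measure.map_apply (hadd b) hSm.compl]
    exact hb
  have hmap : ∀ c d : E n, ∫⁻ x, ∫⁻ y, ENNReal.ofReal (gp 0 e R (‖x - y‖ ^ 2))
      ∂(μ.map fun x => x + d) ∂(μ.map fun x => x + c) =
      ∫⁻ x, ∫⁻ y, ENNReal.ofReal (gp 0 e R (‖x + c - (y + d)‖ ^ 2)) ∂μ ∂μ := by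
    intro c d
    have h1 : ∀ x : E n, ∫⁻ y, ENNReal.ofReal (gp 0 e R (‖x - y‖ ^ 2))
        ∂(μ.map fun x => x + d) = ∫⁻ y, ENNReal.ofReal (gp 0 e R (‖x - (y + d)‖ ^ 2)) ∂μ :=
      fun x => lintegral_map (hmz.comp (measurable_const.sub measurable_id)) (hadd d)
    simp only [h1]
    rw [lintegral_map _ (hadd c)]
    have h2 : Measurable fun q : E n × E n =>
        ENNReal.ofReal (gp 0 e R (‖q.1 - (q.2 + d)‖ ^ 2)) :=
      hmz.comp (measurable_fst.sub (measurable_snd.add_const d))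
    exact h2.lintegral_prod_right'
  have hself : ∀ c : E n, ∫⁻ x, ∫⁻ y, ENNReal.ofReal (gp 0 e R (‖x - y‖ ^ 2))
      ∂(μ.map fun x => x + c) ∂(μ.map fun x => x + c) =
      ∫⁻ x, ∫⁻ y, ENNReal.ofReal (gp 0 e R (‖x - y‖ ^ 2)) ∂μ ∂μ := by
    intro c
    rw [hmap]
    simp only [add_sub_add_right_eq_sub]
  obtain ⟨e1, n1⟩ := c23_L he hR hα hβ hS
  obtain ⟨e2, n2⟩ := c23_L he hR hα hα hS
  obtain ⟨e3, n3⟩ := c23_L he hR hβ hβ hS
  obtain ⟨e4, n4⟩ := c23_L he hR h0 h0 hS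
  have h5 : ENNReal.ofReal (∫ x, ∫ y, gp 0 e R (‖x - y‖ ^ 2) ∂α ∂α) =
      ENNReal.ofReal (∫ x, ∫ y, gp 0 e R (‖x - y‖ ^ 2) ∂μ ∂μ) := by
    rw [← e2, ← e4]
    exact hself a
  have h6 : ENNReal.ofReal (∫ x, ∫ y, gp 0 e R (‖x - y‖ ^ 2) ∂β ∂β) =
      ENNReal.ofReal (∫ x, ∫ y, gp 0 e R (‖x - y‖ ^ 2) ∂μ ∂μ) := by
    rw [← e3, ← e4]
    exact hself b
  rw [ENNReal.ofReal_eq_ofReal_iff n2 n4] at h5
  rw [ENNReal.ofReal_eq_ofReal_iff n3 n4] at h6
  have hpd := c23_pd he hR hSm hα hβ hS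
  rw [h5, h6] at hpd
  have h7 := hmap a b
  rw [← h7, e4]
  refine e1.le.trans (ENNReal.ofReal_le_ofReal ?_)
  linarith

end

theorem log_conv {n : ℕ} {S : Set (E n)} (hS : IsCompact S) {μ u : Measure (E n)} (hμ : PK S μ)
    {δ : ℝ} (hδ : 0 < δ) (hu : PK (Metric.closedBall (0 : E n) δ) u) {R : ℝ}
    (hR : (Metric.diam S + 2 * δ) ^ 2 ≤ R) :
    ∫⁻ x, ∫⁻ y, gp0 0 R (‖x - y‖ ^ 2) ∂((μ.prod u).map (fun z => z.1 + z.2))
        ∂((μ.prod u).map (fun z => z.1 + z.2)) ≤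
      ∫⁻ x, ∫⁻ y, gp0 0 R (‖x - y‖ ^ 2) ∂μ ∂μ := by
  have hμp : IsProbabilityMeasure μ := ⟨hμ.1⟩
  have hup : IsProbabilityMeasure u := ⟨hu.1⟩
  have hR0 : 0 < R := lt_of_lt_of_le (by
    have : 0 ≤ Metric.diam S := Metric.diam_nonneg
    positivity) hR
  set S' : Set (E n) := Metric.cthickening δ S with hS'
  have hS'm : MeasurableSet S' := Metric.isClosed_cthickening.measurableSet
  have hS'b : Bornology.IsBounded S' := hS.isBounded.cthickening
  have hS'd : ∀ x ∈ S', ∀ y ∈ S', ‖x - y‖ ^ 2 ≤ R := by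
    intro x hx y hy
    have h1 : dist x y ≤ Metric.diam S' := Metric.dist_le_diam_of_mem hS'b hx hy
    have h2 : Metric.diam S' ≤ Metric.diam S + 2 * δ := Metric.diam_cthickening_le S hδ.le
    rw [← dist_eq_norm]
    exact (pow_le_pow_left₀ dist_nonneg (h1.trans h2) 2).trans hR
  have hmem : ∀ x ∈ S, ∀ a ∈ Metric.closedBall (0 : E n) δ, x + a ∈ S' := by
    intro x hx a ha
    refine Metric.mem_cthickening_of_dist_le (x + a) x δ S hx ?_
    rw [dist_eq_norm, add_sub_cancel_left]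
    rwa [mem_closedBall_zero_iff] at ha
  have hμS : ∀ a ∈ Metric.closedBall (0 : E n) δ, μ {x | x + a ∉ S'} = 0 := by
    intro a ha
    refine measure_mono_null ?_ hμ.2
    intro x hx hxS
    exact hx (hmem x hxS a ha)
  have hμS' : μ S'ᶜ = 0 := by
    refine measure_mono_null ?_ hμ.2
    exact compl_subset_compl.2 (Metric.self_subset_cthickening S)
  have hadd : Measurable fun z : E n × E n => z.1 + z.2 := measurable_fst.add measurable_snd
  set ν : Measure (E n) := (μ.prod u).map (fun z => z.1 + z.2) with hν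
  have hνp : IsProbabilityMeasure ν := Measure.isProbabilityMeasure_map hadd.aemeasurable
  have hνS : ν S'ᶜ = 0 := by
    rw [hν, Measure.map_apply hadd hS'm.compl]
    have hA : ∀ᵐ x ∂μ, x ∈ S := by
      rw [ae_iff]
      exact hμ.2
    have hB : ∀ᵐ x ∂u, x ∈ Metric.closedBall (0 : E n) δ := by
      rw [ae_iff]
      exact hu.2
    have e1 : ∀ᵐ q ∂(μ.prod u), q.1 ∈ S := Measure.quasiMeasurePreserving_fst.ae hA
    have e2 : ∀ᵐ q ∂(μ.prod u), q.2 ∈ Metric.closedBall (0 : E n) δ :=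
      Measure.quasiMeasurePreserving_snd.ae hB
    have e3 : ∀ᵐ q ∂(μ.prod u), q.1 + q.2 ∈ S' := by
      filter_upwards [e1, e2] with q h1 h2 using hmem _ h1 _ h2
    rw [ae_iff] at e3
    exact e3
  -- the inequality for the regularised kernels
  have hreg : ∀ e : ℝ, 0 < e →
      ∫⁻ q, ENNReal.ofReal (gp 0 e R (‖q.1 - q.2‖ ^ 2)) ∂(ν.prod ν) ≤
        ∫⁻ x, ∫⁻ y, gp0 0 R (‖x - y‖ ^ 2) ∂μ ∂μ := by
    intro e he
    have hmz : Measurable fun z : E n => ENNReal.ofReal (gp 0 e R (‖z‖ ^ 2)) :=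
      (c23_cont he hR0).measurable.ennreal_ofReal
    have hm2 : Measurable fun q : E n × E n => ENNReal.ofReal (gp 0 e R (‖q.1 - q.2‖ ^ 2)) :=
      hmz.comp (measurable_fst.sub measurable_snd)
    rw [lintegral_prod _ hm2.aemeasurable]
    have h1 : ∀ x : E n, ∫⁻ y, ENNReal.ofReal (gp 0 e R (‖x - y‖ ^ 2)) ∂ν =
        ∫⁻ w, ENNReal.ofReal (gp 0 e R (‖x - (w.1 + w.2)‖ ^ 2)) ∂(μ.prod u) :=
      fun x => lintegral_map (hmz.comp (measurable_const.sub measurable_id)) hadd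
    simp only [h1]
    have hm3 : Measurable fun q : E n × (E n × E n) =>
        ENNReal.ofReal (gp 0 e R (‖q.1 - (q.2.1 + q.2.2)‖ ^ 2)) :=
      hmz.comp (measurable_fst.sub (measurable_snd.fst.add measurable_snd.snd))
    rw [hν, lintegral_map hm3.lintegral_prod_right' hadd]
    -- four-fold integral
    have hm4 : Measurable fun q : (E n × E n) × (E n × E n) =>
        ENNReal.ofReal (gp 0 e R (‖q.1.1 + q.1.2 - (q.2.1 + q.2.2)‖ ^ 2)) :=
      hmz.comp ((measurable_fst.fst.add measurable_fst.snd).sub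
        (measurable_snd.fst.add measurable_snd.snd))
    have h2 : ∀ z : E n × E n, ∫⁻ w, ENNReal.ofReal (gp 0 e R (‖z.1 + z.2 - (w.1 + w.2)‖ ^ 2))
        ∂(μ.prod u) = ∫⁻ b, ∫⁻ y, ENNReal.ofReal (gp 0 e R (‖z.1 + z.2 - (y + b)‖ ^ 2))
          ∂μ ∂u := by
      intro z
      refine lintegral_prod_symm _ ?_
      exact (hm4.comp (measurable_const.prodMk measurable_id)).aemeasurable
    have h3 : ∫⁻ z, ∫⁻ w, ENNReal.ofReal (gp 0 e R (‖z.1 + z.2 - (w.1 + w.2)‖ ^ 2))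
        ∂(μ.prod u) ∂(μ.prod u) =
        ∫⁻ a, ∫⁻ x, ∫⁻ b, ∫⁻ y, ENNReal.ofReal (gp 0 e R (‖x + a - (y + b)‖ ^ 2))
          ∂μ ∂u ∂μ ∂u := by
      rw [lintegral_prod_symm _ hm4.lintegral_prod_right'.aemeasurable]
      refine lintegral_congr fun a => lintegral_congr fun x => ?_
      exact h2 (x, a)
    rw [h3]
    have h4 : ∀ a ∈ Metric.closedBall (0 : E n) δ,
        ∫⁻ x, ∫⁻ b, ∫⁻ y, ENNReal.ofReal (gp 0 e R (‖x + a - (y + b)‖ ^ 2)) ∂μ ∂u ∂μ ≤
          ∫⁻ x, ∫⁻ y, gp0 0 R (‖x - y‖ ^ 2) ∂μ ∂μ := by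
      intro a ha
      have hm5 : Measurable fun q : (E n × E n) × E n =>
          ENNReal.ofReal (gp 0 e R (‖q.1.1 + a - (q.2 + q.1.2)‖ ^ 2)) :=
        hmz.comp ((measurable_fst.fst.add_const a).sub (measurable_snd.add measurable_fst.snd))
      have h5 : ∫⁻ x, ∫⁻ b, ∫⁻ y, ENNReal.ofReal (gp 0 e R (‖x + a - (y + b)‖ ^ 2)) ∂μ ∂u ∂μ =
          ∫⁻ b, ∫⁻ x, ∫⁻ y, ENNReal.ofReal (gp 0 e R (‖x + a - (y + b)‖ ^ 2)) ∂μ ∂μ ∂u :=
        lintegral_lintegral_swap hm5.lintegral_prod_right'.aemeasurable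
      rw [h5]
      have h6 : ∀ᵐ b ∂u, ∫⁻ x, ∫⁻ y, ENNReal.ofReal (gp 0 e R (‖x + a - (y + b)‖ ^ 2)) ∂μ ∂μ ≤
          ∫⁻ x, ∫⁻ y, gp0 0 R (‖x - y‖ ^ 2) ∂μ ∂μ := by
        have hB : ∀ᵐ x ∂u, x ∈ Metric.closedBall (0 : E n) δ := by
          rw [ae_iff]
          exact hu.2
        filter_upwards [hB] with b hb
        refine (c23_trans he hR0 hS'm hS'd (hμS a ha) (hμS b hb) hμS').trans ?_
        have hA : ∀ᵐ x ∂μ, x ∈ S' := by
          rw [ae_iff]
          exact hμS'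
        refine lintegral_mono_ae ?_
        filter_upwards [hA] with x hx
        refine lintegral_mono_ae ?_
        filter_upwards [hA] with y hy
        exact gp_le_gp0 (by norm_num) he (sq_nonneg _) (hS'd x hx y hy)
      refine (lintegral_mono_ae h6).trans ?_
      rw [lintegral_const, measure_univ, mul_one]
    have hB : ∀ᵐ x ∂u, x ∈ Metric.closedBall (0 : E n) δ := by
      rw [ae_iff]
      exact hu.2
    refine (lintegral_mono_ae (hB.mono fun a ha => h4 a ha)).trans ?_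
    rw [lintegral_const, measure_univ, mul_one]
  -- Fatou
  have hm0 : Measurable fun q : E n × E n => gp0 0 R (‖q.1 - q.2‖ ^ 2) :=
    (gp0_measurable 0 R).comp
      ((continuous_fst.sub continuous_snd).norm.pow 2).measurable
  rw [← lintegral_prod (μ := ν) (ν := ν) (fun q : E n × E n => gp0 0 R (‖q.1 - q.2‖ ^ 2))
    hm0.aemeasurable]
  have hseq : Tendsto (fun m : ℕ => 1 / ((m : ℝ) + 1)) atTop (𝓝[>] 0) := by
    refine tendsto_nhdsWithin_iff.2 ⟨tendsto_one_div_add_atTop_nhds_zero_nat, ?_⟩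
    refine Eventually.of_forall fun m => ?_
    show (0 : ℝ) < 1 / ((m : ℝ) + 1)
    positivity
  have hlim : ∀ᵐ q ∂(ν.prod ν), gp0 0 R (‖q.1 - q.2‖ ^ 2) ≤
      liminf (fun m : ℕ => ENNReal.ofReal (gp 0 (1 / ((m : ℝ) + 1)) R (‖q.1 - q.2‖ ^ 2))) atTop := by
    filter_upwards [c23_ae hνS hνS hS'd] with q hq
    have h1 := (gp_tendsto (p := 0) (R := R) (by norm_num) (sq_nonneg ‖q.1 - q.2‖) hq).comp hseq
    exact h1.liminf_eq.ge
  refine (lintegral_mono_ae hlim).trans ?_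
  refine (lintegral_liminf_le fun m => ?_).trans ?_
  · exact (c23_contOn (n := n) (by positivity) hR0).ennreal_ofReal
  · refine liminf_le_of_le (by isBoundedDefault) fun b hb => ?_
    obtain ⟨m, hm⟩ := hb.exists
    exact hm.trans (hreg _ (by positivity))

end Pool.Agent.Lib.MP_6cd19d_an.ND
end

section

section

/-!
# B08: derivatives in `s` of the truncations

Write `v = U x / s`, `c = deriv (cut d)`, `r0 = -lap U x`, `G = ∑ (pd i U x)^2`, `Z = Zf d`,
`Z' v = -v c v`, `Z'' v = -c v - v c' v`. `dv/ds = -v/s`.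
`rr = cut v * r0 - c v * G / s` (`rr_formula`).
`r1 := -lap (ff s) x = Z' v * r0 / s - Z'' v * G / s^2` (`lap_comp`), and `d/ds rr = r1`:
`d/ds (cut v r0) = -v c v r0 / s = Z' v r0 / s`; `d/ds (-c v G / s) = (v c' v + c v) G / s^2 = -Z'' v G / s^2`.
`r2 := lap (kk s) x`, `kk = Y v / s`, `Y v = v Z' v`: `lap kk = -Y' v r0 / s^2 + Y'' v G / s^3`, `Y' = Z' + v Z''`,
`Y'' = 2 Z'' + v Z'''`; and `d/ds r1 = -(v Z'' + Z') r0 / s^2 + (v Z''' + 2 Z'') G / s^3 = r2`.
Joint continuity on `s > 0` from these explicit formulas (all functions of `v` are smooth, and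
`U`, `lap U`, `G` are continuous).
-/

set_option autoImplicit false

open MeasureTheory Set Filter Topology
open scoped ENNReal ContDiff

namespace Pool.Agent.Lib.MP_6cd19d_an.ND

/-- Abbreviations: the derivatives of the cut-off function. -/
private noncomputable def c1 (d : ℝ) : ℝ → ℝ := deriv (cut d)
private noncomputable def c2 (d : ℝ) : ℝ → ℝ := deriv (c1 d)
private noncomputable def c3 (d : ℝ) : ℝ → ℝ := deriv (c2 d)

private theorem cd_deriv {f : ℝ → ℝ} (hf : ContDiff ℝ ∞ f) : ContDiff ℝ ∞ (deriv f) :=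
  (contDiff_infty_iff_deriv.1 hf).2

private theorem cd_c1 (d : ℝ) : ContDiff ℝ ∞ (c1 d) := cd_deriv (contDiff_cut d)
private theorem cd_c2 (d : ℝ) : ContDiff ℝ ∞ (c2 d) := cd_deriv (cd_c1 d)
private theorem cd_c3 (d : ℝ) : ContDiff ℝ ∞ (c3 d) := cd_deriv (cd_c2 d)

private theorem hd_cut (d v : ℝ) : HasDerivAt (cut d) (c1 d v) v :=
  ((contDiff_cut d).differentiable (by simp)).differentiableAt.hasDerivAt
private theorem hd_c1 (d v : ℝ) : HasDerivAt (c1 d) (c2 d v) v :=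
  ((cd_c1 d).differentiable (by simp)).differentiableAt.hasDerivAt
private theorem hd_c2 (d v : ℝ) : HasDerivAt (c2 d) (c3 d v) v :=
  ((cd_c2 d).differentiable (by simp)).differentiableAt.hasDerivAt

/-- The Laplacian of a function of `U / s`. -/
private theorem lap_scaled {n : ℕ} {U : E n → ℝ} (hU : ContDiff ℝ ∞ U) {ψ : ℝ → ℝ}
    (hψ : ContDiff ℝ ∞ ψ) {s : ℝ} (hs : 0 < s) (x : E n) :
    lap (fun z => ψ (U z / s)) x = deriv ψ (U x / s) / s * lap U x +
      deriv (deriv ψ) (U x / s) / s ^ 2 * ∑ i, (pd i U x) ^ 2 := by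
  have two_le : (2 : WithTop ℕ∞) ≤ ((⊤ : ℕ∞) : WithTop ℕ∞) :=
    WithTop.coe_le_coe.2 (le_top : (2 : ℕ∞) ≤ ⊤)
  have hcd : ContDiff ℝ ∞ (fun u : ℝ => ψ (s⁻¹ * u)) :=
    hψ.comp (contDiff_const.mul contDiff_id)
  have e : (fun z => ψ (U z / s)) = fun z => (fun u : ℝ => ψ (s⁻¹ * u)) (U z) := by
    funext z
    simp only [div_eq_inv_mul]
  rw [e, lap_comp (hcd.contDiffAt.of_le two_le) (hU.contDiffAt.of_le two_le)]
  have d1 : deriv (fun u : ℝ => ψ (s⁻¹ * u)) = fun u => s⁻¹ * deriv ψ (s⁻¹ * u) := by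
    funext u
    rw [deriv_comp_mul_left s⁻¹ ψ u, smul_eq_mul]
  have d2 : deriv (deriv (fun u : ℝ => ψ (s⁻¹ * u))) (U x) =
      s⁻¹ * (s⁻¹ * deriv (deriv ψ) (s⁻¹ * U x)) := by
    rw [d1, deriv_const_mul_field, deriv_comp_mul_left s⁻¹ (deriv ψ) (U x), smul_eq_mul]
  rw [d2, d1, div_eq_inv_mul (U x) s]
  simp only
  generalize deriv ψ (s⁻¹ * U x) = A
  generalize deriv (deriv ψ) (s⁻¹ * U x) = B
  have hs' : s ≠ 0 := hs.ne'
  field_simp

private theorem deriv_Zf (d : ℝ) : deriv (Zf d) = fun v => -v * c1 d v := by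
  funext v
  exact (hasDerivAt_Zf d v).deriv

private theorem deriv2_Zf (d v : ℝ) : deriv (deriv (Zf d)) v = -(c1 d v + v * c2 d v) := by
  rw [deriv_Zf]
  have h := ((hasDerivAt_id v).neg).mul (hd_c1 d v)
  have h2 : HasDerivAt (fun v => -v * c1 d v) (-(c1 d v + v * c2 d v)) v := by
    refine h.congr_deriv ?_
    simp only [id, Pi.neg_apply]
    ring
  exact h2.deriv

private theorem lap_ff {n : ℕ} (d : ℝ) {U : E n → ℝ} (hU : GoodU U) {s : ℝ} (hs : 0 < s)
    (x : E n) : lap (ff d U s) x = -(U x / s) * c1 d (U x / s) / s * lap U x -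
      (c1 d (U x / s) + U x / s * c2 d (U x / s)) / s ^ 2 * ∑ i, (pd i U x) ^ 2 := by
  have h := lap_scaled hU.smooth (contDiff_Zf d) hs x
  have e : ff d U s = fun z => Zf d (U z / s) := by
    funext z
    rfl
  rw [e, h, deriv2_Zf, deriv_Zf]
  ring

private noncomputable def psik (d s : ℝ) (v : ℝ) : ℝ := -v ^ 2 * c1 d v / s

private theorem cd_psik (d s : ℝ) : ContDiff ℝ ∞ (psik d s) := by
  unfold psik
  exact (((contDiff_id.pow 2).neg).mul (cd_c1 d)).div_const s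

private theorem deriv_psik (d s : ℝ) :
    deriv (psik d s) = fun v => (-(2 * v * c1 d v) - v ^ 2 * c2 d v) / s := by
  funext v
  have h := ((((hasDerivAt_id v).pow 2).neg).mul (hd_c1 d v)).div_const s
  have h2 : HasDerivAt (psik d s) ((-(2 * v * c1 d v) - v ^ 2 * c2 d v) / s) v := by
    refine h.congr_deriv ?_
    simp only [id, Pi.neg_apply, Pi.pow_apply]
    ring
  exact h2.deriv

private theorem deriv2_psik (d s v : ℝ) : deriv (deriv (psik d s)) v =
    (-(2 * c1 d v) - 4 * v * c2 d v - v ^ 2 * c3 d v) / s := by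
  rw [deriv_psik]
  have h := (((((hasDerivAt_id v).const_mul 2).mul (hd_c1 d v)).neg).sub
    (((hasDerivAt_id v).pow 2).mul (hd_c2 d v))).div_const s
  have h2 : HasDerivAt (fun v => (-(2 * v * c1 d v) - v ^ 2 * c2 d v) / s)
      ((-(2 * c1 d v) - 4 * v * c2 d v - v ^ 2 * c3 d v) / s) v := by
    refine h.congr_deriv ?_
    simp only [id, Pi.neg_apply, Pi.pow_apply]
    ring
  exact h2.deriv

private theorem lap_kk {n : ℕ} (d : ℝ) {U : E n → ℝ} (hU : GoodU U) {s : ℝ} (hs : 0 < s)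
    (x : E n) : lap (kk d U s) x =
      (-(2 * (U x / s) * c1 d (U x / s)) - (U x / s) ^ 2 * c2 d (U x / s)) / s ^ 2 * lap U x +
      (-(2 * c1 d (U x / s)) - 4 * (U x / s) * c2 d (U x / s) -
        (U x / s) ^ 2 * c3 d (U x / s)) / s ^ 3 * ∑ i, (pd i U x) ^ 2 := by
  have h := lap_scaled hU.smooth (cd_psik d s) hs x
  have e : kk d U s = fun z => psik d s (U z / s) := by
    funext z
    rfl
  rw [e, h, deriv2_psik, deriv_psik]
  have hs' : s ≠ 0 := hs.ne'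
  simp only
  generalize c1 d (U x / s) = A
  generalize c2 d (U x / s) = B
  generalize c3 d (U x / s) = C
  generalize lap U x = L
  generalize ∑ i, (pd i U x) ^ 2 = G
  generalize U x / s = v
  field_simp

private theorem hd_v {n : ℕ} (U : E n → ℝ) {s : ℝ} (hs : 0 < s) (x : E n) :
    HasDerivAt (fun t : ℝ => U x / t) (-(U x / s) / s) s := by
  have h := (hasDerivAt_inv hs.ne').const_mul (U x)
  have e : (fun t : ℝ => U x / t) = fun t => U x * t⁻¹ := by
    funext t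
    rw [div_eq_mul_inv]
  rw [e]
  refine h.congr_deriv ?_
  have hs' : s ≠ 0 := hs.ne'
  field_simp

theorem hasDerivAt_rr {n : ℕ} (d : ℝ) {U : E n → ℝ} (hU : GoodU U) {s : ℝ} (hs : 0 < s)
    (x : E n) : HasDerivAt (fun t => rr d U t x) (-lap (ff d U s) x) s := by
  have hv := hd_v U hs x
  have h1 : HasDerivAt (fun t : ℝ => cut d (U x / t)) (c1 d (U x / s) * (-(U x / s) / s)) s :=
    HasDerivAt.comp (h₂ := cut d) s (hd_cut d (U x / s)) hv
  have h2 : HasDerivAt (fun t : ℝ => c1 d (U x / t)) (c2 d (U x / s) * (-(U x / s) / s)) s :=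
    HasDerivAt.comp s (hd_c1 d (U x / s)) hv
  have h3 := (h1.mul_const (-lap U x)).sub
    ((h2.mul_const (∑ i, (pd i U x) ^ 2)).div (hasDerivAt_id s) hs.ne')
  have h4 : HasDerivAt (fun t : ℝ => cut d (U x / t) * (-lap U x) -
      c1 d (U x / t) * (∑ i, (pd i U x) ^ 2) / t) (-lap (ff d U s) x) s := by
    refine h3.congr_deriv ?_
    rw [lap_ff d hU hs x]
    simp only [id]
    have hs' : s ≠ 0 := hs.ne'
    generalize c1 d (U x / s) = A
    generalize c2 d (U x / s) = B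
    generalize lap U x = L
    generalize ∑ i, (pd i U x) ^ 2 = G
    generalize U x / s = v
    field_simp
    ring
  refine h4.congr_of_eventuallyEq ?_
  filter_upwards [lt_mem_nhds hs] with t ht
  exact rr_formula d hU ht x

theorem hasDerivAt_rr1 {n : ℕ} (d : ℝ) {U : E n → ℝ} (hU : GoodU U) {s : ℝ} (hs : 0 < s)
    (x : E n) : HasDerivAt (fun t => -lap (ff d U t) x) (lap (kk d U s) x) s := by
  have hv := hd_v U hs x
  have h1 : HasDerivAt (fun t : ℝ => c1 d (U x / t)) (c2 d (U x / s) * (-(U x / s) / s)) s :=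
    HasDerivAt.comp s (hd_c1 d (U x / s)) hv
  have h2 : HasDerivAt (fun t : ℝ => c2 d (U x / t)) (c3 d (U x / s) * (-(U x / s) / s)) s :=
    HasDerivAt.comp s (hd_c2 d (U x / s)) hv
  have hid := hasDerivAt_id s
  have h3 := (((hv.mul h1).div hid hs.ne').mul_const (lap U x)).add
    (((h1.add (hv.mul h2)).div (hid.pow 2) (pow_ne_zero 2 hs.ne')).mul_const
      (∑ i, (pd i U x) ^ 2))
  have h4 : HasDerivAt (fun t : ℝ => (U x / t) * c1 d (U x / t) / t * lap U x +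
      (c1 d (U x / t) + (U x / t) * c2 d (U x / t)) / t ^ 2 * ∑ i, (pd i U x) ^ 2)
      (lap (kk d U s) x) s := by
    refine h3.congr_deriv ?_
    rw [lap_kk d hU hs x]
    simp only [id, Pi.mul_apply, Pi.add_apply, Pi.pow_apply]
    have hs' : s ≠ 0 := hs.ne'
    generalize c1 d (U x / s) = A
    generalize c2 d (U x / s) = B
    generalize c3 d (U x / s) = C
    generalize lap U x = L
    generalize ∑ i, (pd i U x) ^ 2 = G
    generalize U x / s = v
    field_simp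
    ring
  refine h4.congr_of_eventuallyEq ?_
  filter_upwards [lt_mem_nhds hs] with t ht
  rw [lap_ff d hU ht x]
  ring

private theorem co_v {n : ℕ} {U : E n → ℝ} (hU : GoodU U) :
    ContinuousOn (fun p : ℝ × E n => U p.2 / p.1) (Ioi 0 ×ˢ univ) :=
  (hU.smooth.continuous.comp_continuousOn continuousOn_snd).div continuousOn_fst
    (fun p hp => ne_of_gt hp.1)

private theorem co_lap {n : ℕ} {U : E n → ℝ} (hU : GoodU U) :
    ContinuousOn (fun p : ℝ × E n => lap U p.2) (Ioi 0 ×ˢ univ) :=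
  (contDiff_lap hU.smooth).continuous.comp_continuousOn continuousOn_snd

private theorem co_G {n : ℕ} {U : E n → ℝ} (hU : GoodU U) :
    ContinuousOn (fun p : ℝ × E n => ∑ i, (pd i U p.2) ^ 2) (Ioi 0 ×ˢ univ) := by
  refine continuousOn_finsetSum _ (fun i _ => ?_)
  exact ((contDiff_pd hU.smooth i).continuous.comp_continuousOn continuousOn_snd).pow 2

theorem continuousOn_rr {n : ℕ} (d : ℝ) {U : E n → ℝ} (hU : GoodU U) :
    ContinuousOn (fun p : ℝ × E n => rr d U p.1 p.2) (Ioi 0 ×ˢ univ) := by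
  have h1 := (contDiff_cut d).continuous.comp_continuousOn (co_v hU)
  have h2 := (cd_c1 d).continuous.comp_continuousOn (co_v hU)
  have h3 : ContinuousOn (fun p : ℝ × E n => cut d (U p.2 / p.1) * (-lap U p.2) -
      c1 d (U p.2 / p.1) * (∑ i, (pd i U p.2) ^ 2) / p.1) (Ioi 0 ×ˢ univ) :=
    (h1.mul (co_lap hU).neg).sub ((h2.mul (co_G hU)).div continuousOn_fst
      (fun p hp => ne_of_gt hp.1))
  refine h3.congr (fun p hp => ?_)
  have hp1 : (0 : ℝ) < p.1 := hp.1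
  exact rr_formula d hU hp1 p.2

theorem continuousOn_rr1 {n : ℕ} (d : ℝ) {U : E n → ℝ} (hU : GoodU U) :
    ContinuousOn (fun p : ℝ × E n => lap (ff d U p.1) p.2) (Ioi 0 ×ˢ univ) := by
  have hv := co_v hU
  have h1 := (cd_c1 d).continuous.comp_continuousOn hv
  have h2 := (cd_c2 d).continuous.comp_continuousOn hv
  have h3 : ContinuousOn (fun p : ℝ × E n => -(U p.2 / p.1) * c1 d (U p.2 / p.1) / p.1 * lap U p.2 -
      (c1 d (U p.2 / p.1) + U p.2 / p.1 * c2 d (U p.2 / p.1)) / p.1 ^ 2 *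
        ∑ i, (pd i U p.2) ^ 2) (Ioi 0 ×ˢ univ) :=
    (((hv.neg.mul h1).div continuousOn_fst (fun p hp => ne_of_gt hp.1)).mul (co_lap hU)).sub
      (((h1.add (hv.mul h2)).div (continuousOn_fst.pow 2)
        (fun p hp => pow_ne_zero 2 (ne_of_gt hp.1))).mul (co_G hU))
  refine h3.congr (fun p hp => ?_)
  have hp1 : (0 : ℝ) < p.1 := hp.1
  exact lap_ff d hU hp1 p.2

theorem continuousOn_rr2 {n : ℕ} (d : ℝ) {U : E n → ℝ} (hU : GoodU U) :
    ContinuousOn (fun p : ℝ × E n => lap (kk d U p.1) p.2) (Ioi 0 ×ˢ univ) := by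
  have hv := co_v hU
  have h1 := (cd_c1 d).continuous.comp_continuousOn hv
  have h2 := (cd_c2 d).continuous.comp_continuousOn hv
  have h3 := (cd_c3 d).continuous.comp_continuousOn hv
  have h4 : ContinuousOn (fun p : ℝ × E n =>
      (-(2 * (U p.2 / p.1) * c1 d (U p.2 / p.1)) -
        (U p.2 / p.1) ^ 2 * c2 d (U p.2 / p.1)) / p.1 ^ 2 * lap U p.2 +
      (-(2 * c1 d (U p.2 / p.1)) - 4 * (U p.2 / p.1) * c2 d (U p.2 / p.1) -
        (U p.2 / p.1) ^ 2 * c3 d (U p.2 / p.1)) / p.1 ^ 3 * ∑ i, (pd i U p.2) ^ 2)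
      (Ioi 0 ×ˢ univ) := by
    refine ContinuousOn.add ?_ ?_
    · exact (((((continuousOn_const.mul hv).mul h1).neg).sub ((hv.pow 2).mul h2)).div
        (continuousOn_fst.pow 2) (fun p hp => pow_ne_zero 2 (ne_of_gt hp.1))).mul (co_lap hU)
    · exact (((((continuousOn_const.mul h1).neg).sub ((continuousOn_const.mul hv).mul h2)).sub
        ((hv.pow 2).mul h3)).div
        (continuousOn_fst.pow 3) (fun p hp => pow_ne_zero 3 (ne_of_gt hp.1))).mul (co_G hU)
  refine h4.congr (fun p hp => ?_)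
  have hp1 : (0 : ℝ) < p.1 := hp.1
  exact lap_kk d hU hp1 p.2

theorem lap_supp {n : ℕ} {d : ℝ} (hd : 0 < d) (hd1 : d < 1) {U : E n → ℝ} (hU : GoodU U)
    {s1 s : ℝ} (hs1 : 0 < s1) (hs : s1 ≤ s) {x : E n} (hx : x ∉ supC d U s1) :
    lap (ff d U s) x = 0 ∧ lap (kk d U s) x = 0 := by
  have hs0 : 0 < s := lt_of_lt_of_le hs1 hs
  have hx1 : U x < (1 - d) * s1 := by
    by_contra hcon
    exact hx (Or.inl (not_lt.1 hcon))
  have hx2 : lap U x = 0 := image_eq_zero_of_notMem_tsupport (fun h => hx (Or.inr h))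
  have hv : U x / s < 1 - d := by
    rw [div_lt_iff₀ hs0]
    exact lt_of_lt_of_le hx1 (mul_le_mul_of_nonneg_left hs (by linarith))
  have e1 : c1 d =ᶠ[𝓝 (U x / s)] fun _ => 0 := by
    filter_upwards [gt_mem_nhds hv] with w hw
    exact cut_deriv_zero hd (Or.inl (le_of_lt hw))
  have e2 : c2 d =ᶠ[𝓝 (U x / s)] fun _ => 0 := by
    have h := e1.deriv
    refine h.trans (Eventually.of_forall (fun w => ?_))
    simp only [deriv_const]
  have e3 : c3 d =ᶠ[𝓝 (U x / s)] fun _ => 0 := by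
    have h := e2.deriv
    refine h.trans (Eventually.of_forall (fun w => ?_))
    simp only [deriv_const]
  have q1 : c1 d (U x / s) = 0 := e1.eq_of_nhds
  have q2 : c2 d (U x / s) = 0 := e2.eq_of_nhds
  have q3 : c3 d (U x / s) = 0 := e3.eq_of_nhds
  rw [lap_ff d hU hs0 x, lap_kk d hU hs0 x, q1, q2, q3, hx2]
  constructor <;> ring

end Pool.Agent.Lib.MP_6cd19d_an.ND
end

section

/-!
# B11: concavity of the energy along the level sets

`Phi s = ∬ ks s (x-y) rr s x rr s y`. Write `k = ks n g s`, `k1`, `r = rr d U s`, `r1 = - lap (ff d U s)`,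
`r2 = lap (kk d U s)`, `D = x - y`. By B06 (compact set `C ×ˢ C`, `C = supC d U s1`, on intervals
`(s1, s2)`, `0 < s1`; the functions are jointly continuous and vanish outside):
`Phi' = ∬ (k1(D) r(x) r(y) + k(D) (r1(x) r(y) + r(x) r1(y)))` (`hasDerivAt_Phi`),
`Phi'' = ∬ (k2(D) r(x) r(y) + 2 k1(D) (r1(x) r(y) + r(x) r1(y)) + k(D) (r2(x) r(y) + 2 r1(x) r1(y) + r(x) r2(y)))`
(`hasDerivAt_dPhi`), `k2 = (a/s)^2 ‖x‖^2 lap k`.
`ddPhi_nonpos`: let `L = lap k`, `κ = kk`, `J_i = pd i (ff)`. By Fubini and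
* `ibp_lap`: `∬ k(D) r2(x) r(y) = ∬ κ(x) r(y) L(D)`, and (by symmetry `k` even, so `L` even) the same for
  `∬ k(D) r(x) r2(y) = ∬ κ(y) r(x) L(D)`;
* `ibp_double`: `∬ k(D) r1(x) r1(y) = -∬ (∑ J_i(x) J_i(y)) L(D)`;
* `ibp_grad`: `∬ k1(D) r1(x) r(y) = -∬ k1(D) lap ff(x) r(y) = ∬ (∑ J_i(x) (pd i k1)(D)) r(y)
  = ∬ (a/s) (∑ J_i(x) D_i) r(y) L(D)`, and by the change of variables `(x,y) → (y,x)` (`k1` even)
  `∬ k1(D) r(x) r1(y) = -∬ (a/s) (∑ J_i(y) D_i) r(x) L(D)`.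
So `Phi'' = ∬ L(D) {(a/s)^2 |D|^2 r r' + 2 (a/s) D·(J r' - J' r) - 2 J·J' + κ r' + κ' r} ≤ 0`
by `pointwise_nonneg`, `grad_sq_le`, `rr_nonneg`, `kk_nonneg`, `lap_ks_nonpos`.
(`lap` of an even smooth function is even: `lap k (x - y) = lap k (y - x)`; prove it from the explicit
radial form or by the chain rule.)
`concaveOn_Phi`: `concaveOn_of_deriv2_nonpos` or `AntitoneOn` derivative on `Ioi 0`.
-/

set_option autoImplicit false

open MeasureTheory Set Filter Topology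
open scoped ENNReal ContDiff

namespace Pool.Agent.Lib.MP_6cd19d_an.ND

/-- The energy of the swept measures with respect to the scaled kernels. -/
noncomputable def Phi (n : ℕ) (g : ℝ → ℝ) (d : ℝ) (U : E n → ℝ) (s : ℝ) : ℝ :=
  ∫ z : E n × E n, ks n g s (z.1 - z.2) * (rr d U s z.1 * rr d U s z.2)

/-- Its derivative. -/
noncomputable def dPhi (n : ℕ) (g : ℝ → ℝ) (d : ℝ) (U : E n → ℝ) (s : ℝ) : ℝ :=
  ∫ z : E n × E n, (k1 n g s (z.1 - z.2) * (rr d U s z.1 * rr d U s z.2) +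
    ks n g s (z.1 - z.2) * ((-lap (ff d U s) z.1) * rr d U s z.2 +
      rr d U s z.1 * (-lap (ff d U s) z.2)))

/-- Its second derivative. -/
noncomputable def ddPhi (n : ℕ) (g : ℝ → ℝ) (d : ℝ) (U : E n → ℝ) (s : ℝ) : ℝ :=
  ∫ z : E n × E n, ((1 / ((n : ℝ) - 2) / s) ^ 2 * ‖z.1 - z.2‖ ^ 2 *
      lap (ks n g s) (z.1 - z.2) * (rr d U s z.1 * rr d U s z.2) +
    2 * (k1 n g s (z.1 - z.2) * ((-lap (ff d U s) z.1) * rr d U s z.2 +
      rr d U s z.1 * (-lap (ff d U s) z.2))) +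
    ks n g s (z.1 - z.2) * (lap (kk d U s) z.1 * rr d U s z.2 +
      2 * (lap (ff d U s) z.1 * lap (ff d U s) z.2) + rr d U s z.1 * lap (kk d U s) z.2))

private theorem B11_cont_fst {n : ℕ} {a b : ℝ} (ha : 0 < a) {f : ℝ → E n → ℝ}
    (hf : ContinuousOn (fun p : ℝ × E n => f p.1 p.2) (Ioi 0 ×ˢ univ)) :
    ContinuousOn (Function.uncurry fun (t : ℝ) (z : E n × E n) => f t z.1)
      (Ioo a b ×ˢ univ) := by
  have hm : MapsTo (fun q : ℝ × E n × E n => ((q.1, q.2.1) : ℝ × E n)) (Ioo a b ×ˢ univ)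
      (Ioi 0 ×ˢ univ) := by
    rintro ⟨t, z⟩ ⟨ht, -⟩
    exact ⟨ha.trans ht.1, mem_univ _⟩
  exact hf.comp (g := fun p : ℝ × E n => f p.1 p.2)
    (f := fun q : ℝ × E n × E n => ((q.1, q.2.1) : ℝ × E n))
    (by refine Continuous.continuousOn ?_; fun_prop) hm

private theorem B11_cont_snd {n : ℕ} {a b : ℝ} (ha : 0 < a) {f : ℝ → E n → ℝ}
    (hf : ContinuousOn (fun p : ℝ × E n => f p.1 p.2) (Ioi 0 ×ˢ univ)) :
    ContinuousOn (Function.uncurry fun (t : ℝ) (z : E n × E n) => f t z.2)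
      (Ioo a b ×ˢ univ) := by
  have hm : MapsTo (fun q : ℝ × E n × E n => ((q.1, q.2.2) : ℝ × E n)) (Ioo a b ×ˢ univ)
      (Ioi 0 ×ˢ univ) := by
    rintro ⟨t, z⟩ ⟨ht, -⟩
    exact ⟨ha.trans ht.1, mem_univ _⟩
  exact hf.comp (g := fun p : ℝ × E n => f p.1 p.2)
    (f := fun q : ℝ × E n × E n => ((q.1, q.2.2) : ℝ × E n))
    (by refine Continuous.continuousOn ?_; fun_prop) hm

private theorem B11_cont_diff {n : ℕ} {a b : ℝ} (ha : 0 < a) {f : ℝ → E n → ℝ}
    (hf : ContinuousOn (fun p : ℝ × E n => f p.1 p.2) (Ioi 0 ×ˢ univ)) :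
    ContinuousOn (Function.uncurry fun (t : ℝ) (z : E n × E n) => f t (z.1 - z.2))
      (Ioo a b ×ˢ univ) := by
  have hm : MapsTo (fun q : ℝ × E n × E n => ((q.1, q.2.1 - q.2.2) : ℝ × E n))
      (Ioo a b ×ˢ univ) (Ioi 0 ×ˢ univ) := by
    rintro ⟨t, z⟩ ⟨ht, -⟩
    exact ⟨ha.trans ht.1, mem_univ _⟩
  exact hf.comp (g := fun p : ℝ × E n => f p.1 p.2)
    (f := fun q : ℝ × E n × E n => ((q.1, q.2.1 - q.2.2) : ℝ × E n))
    (by refine Continuous.continuousOn ?_; fun_prop) hm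

private theorem B11_not_mem {n : ℕ} {C : Set (E n)} {z : E n × E n} (hz : z ∉ C ×ˢ C) :
    z.1 ∉ C ∨ z.2 ∉ C := by
  by_contra h
  push Not at h
  exact hz ⟨h.1, h.2⟩

theorem hasDerivAt_Phi {n : ℕ} (hn : 3 ≤ n) {g : ℝ → ℝ} {η : ℝ} (hg : GoodG n g η) {d : ℝ}
    (hd : 0 < d) (hd1 : d < 1) {U : E n → ℝ} (hU : GoodU U) {s : ℝ} (hs : 0 < s) :
    HasDerivAt (Phi n g d U) (dPhi n g d U s) s := by
  have hs1 : 0 < s / 2 := by positivity
  have hmem : s ∈ Ioo (s / 2) (2 * s) := ⟨by linarith, by linarith⟩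
  obtain ⟨ckk, ck1, -⟩ := continuousOn_ks hn hg
  refine hasDerivAt_integral_compact (X := E n × E n) (ν := volume)
    (P := fun t z => ks n g t (z.1 - z.2) * (rr d U t z.1 * rr d U t z.2))
    (P' := fun t z => k1 n g t (z.1 - z.2) * (rr d U t z.1 * rr d U t z.2) +
      ks n g t (z.1 - z.2) * ((-lap (ff d U t) z.1) * rr d U t z.2 +
      rr d U t z.1 * (-lap (ff d U t) z.2)))
    ((isCompact_supC hd1 hU hs1).prod (isCompact_supC hd1 hU hs1)) ?_ ?_ ?_ ?_ ?_ hmem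
  · exact (B11_cont_diff hs1 ckk).mul ((B11_cont_fst hs1 (continuousOn_rr d hU)).mul
      (B11_cont_snd hs1 (continuousOn_rr d hU)))
  · exact ((B11_cont_diff hs1 ck1).mul ((B11_cont_fst hs1 (continuousOn_rr d hU)).mul
      (B11_cont_snd hs1 (continuousOn_rr d hU)))).add
      ((B11_cont_diff hs1 ckk).mul ((((B11_cont_fst hs1 (f := fun t x => lap (ff d U t) x) (continuousOn_rr1 d hU)).neg).mul
        (B11_cont_snd hs1 (continuousOn_rr d hU))).add ((B11_cont_fst hs1 (continuousOn_rr d hU)).mul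
        ((B11_cont_snd hs1 (f := fun t x => lap (ff d U t) x) (continuousOn_rr1 d hU)).neg))))
  · intro t ht z
    have ht0 : 0 < t := hs1.trans ht.1
    exact (hasDerivAt_ks hn hg ht0 (z.1 - z.2)).mul
      ((hasDerivAt_rr d hU ht0 z.1).mul (hasDerivAt_rr d hU ht0 z.2))
  · intro t ht z hz
    rcases B11_not_mem hz with h | h
    · simp [(rr_supp hd hd1 hU hs1 ht.1.le h).1]
    · simp [(rr_supp hd hd1 hU hs1 ht.1.le h).1]
  · intro t ht z hz
    rcases B11_not_mem hz with h | h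
    · simp [(rr_supp hd hd1 hU hs1 ht.1.le h).1, (lap_supp hd hd1 hU hs1 ht.1.le h).1]
    · simp [(rr_supp hd hd1 hU hs1 ht.1.le h).1, (lap_supp hd hd1 hU hs1 ht.1.le h).1]

theorem hasDerivAt_dPhi {n : ℕ} (hn : 3 ≤ n) {g : ℝ → ℝ} {η : ℝ} (hg : GoodG n g η) {d : ℝ}
    (hd : 0 < d) (hd1 : d < 1) {U : E n → ℝ} (hU : GoodU U) {s : ℝ} (hs : 0 < s) :
    HasDerivAt (dPhi n g d U) (ddPhi n g d U s) s := by
  have hs1 : 0 < s / 2 := by positivity
  have hmem : s ∈ Ioo (s / 2) (2 * s) := ⟨by linarith, by linarith⟩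
  obtain ⟨ckk, ck1, ck2⟩ := continuousOn_ks hn hg
  have cc : ContinuousOn (Function.uncurry fun (t : ℝ) (z : E n × E n) =>
      (1 / ((n : ℝ) - 2) / t) ^ 2 * ‖z.1 - z.2‖ ^ 2) (Ioo (s / 2) (2 * s) ×ˢ univ) := by
    refine ContinuousOn.mul (ContinuousOn.pow (ContinuousOn.div continuousOn_const
      continuousOn_fst ?_) 2) ?_
    · rintro ⟨t, z⟩ ⟨ht, -⟩
      exact (hs1.trans ht.1).ne'
    · refine Continuous.continuousOn ?_
      fun_prop
  refine hasDerivAt_integral_compact (X := E n × E n) (ν := volume)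
    (P := fun t z => k1 n g t (z.1 - z.2) * (rr d U t z.1 * rr d U t z.2) +
      ks n g t (z.1 - z.2) * ((-lap (ff d U t) z.1) * rr d U t z.2 +
      rr d U t z.1 * (-lap (ff d U t) z.2)))
    (P' := fun t z => (1 / ((n : ℝ) - 2) / t) ^ 2 * ‖z.1 - z.2‖ ^ 2 *
      lap (ks n g t) (z.1 - z.2) * (rr d U t z.1 * rr d U t z.2) +
      2 * (k1 n g t (z.1 - z.2) * ((-lap (ff d U t) z.1) * rr d U t z.2 +
        rr d U t z.1 * (-lap (ff d U t) z.2))) +
      ks n g t (z.1 - z.2) * (lap (kk d U t) z.1 * rr d U t z.2 +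
        2 * (lap (ff d U t) z.1 * lap (ff d U t) z.2) + rr d U t z.1 * lap (kk d U t) z.2))
    ((isCompact_supC hd1 hU hs1).prod (isCompact_supC hd1 hU hs1)) ?_ ?_ ?_ ?_ ?_ hmem
  · exact ((B11_cont_diff hs1 ck1).mul ((B11_cont_fst hs1 (continuousOn_rr d hU)).mul
      (B11_cont_snd hs1 (continuousOn_rr d hU)))).add
      ((B11_cont_diff hs1 ckk).mul ((((B11_cont_fst hs1 (f := fun t x => lap (ff d U t) x) (continuousOn_rr1 d hU)).neg).mul
        (B11_cont_snd hs1 (continuousOn_rr d hU))).add ((B11_cont_fst hs1 (continuousOn_rr d hU)).mul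
        ((B11_cont_snd hs1 (f := fun t x => lap (ff d U t) x) (continuousOn_rr1 d hU)).neg))))
  · exact ((((cc.mul (B11_cont_diff hs1 (f := fun t x => lap (ks n g t) x) ck2))).mul
      ((B11_cont_fst hs1 (continuousOn_rr d hU)).mul
      (B11_cont_snd hs1 (continuousOn_rr d hU)))).add
      (continuousOn_const.mul ((B11_cont_diff hs1 ck1).mul
        ((((B11_cont_fst hs1 (f := fun t x => lap (ff d U t) x) (continuousOn_rr1 d hU)).neg).mul
        (B11_cont_snd hs1 (continuousOn_rr d hU))).add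
        ((B11_cont_fst hs1 (continuousOn_rr d hU)).mul
        ((B11_cont_snd hs1 (f := fun t x => lap (ff d U t) x) (continuousOn_rr1 d hU)).neg)))))).add
      ((B11_cont_diff hs1 ckk).mul
        ((((B11_cont_fst hs1 (f := fun t x => lap (kk d U t) x) (continuousOn_rr2 d hU)).mul
          (B11_cont_snd hs1 (continuousOn_rr d hU))).add
          (continuousOn_const.mul ((B11_cont_fst hs1 (f := fun t x => lap (ff d U t) x) (continuousOn_rr1 d hU)).mul
            (B11_cont_snd hs1 (f := fun t x => lap (ff d U t) x) (continuousOn_rr1 d hU))))).add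
          ((B11_cont_fst hs1 (continuousOn_rr d hU)).mul
            (B11_cont_snd hs1 (f := fun t x => lap (kk d U t) x) (continuousOn_rr2 d hU)))))
  · intro t ht z
    have ht0 : 0 < t := hs1.trans ht.1
    have e1 := ((hasDerivAt_k1 hn hg ht0 (z.1 - z.2)).mul
      ((hasDerivAt_rr d hU ht0 z.1).mul (hasDerivAt_rr d hU ht0 z.2))).add
      ((hasDerivAt_ks hn hg ht0 (z.1 - z.2)).mul
        (((hasDerivAt_rr1 d hU ht0 z.1).mul (hasDerivAt_rr d hU ht0 z.2)).add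
        ((hasDerivAt_rr d hU ht0 z.1).mul (hasDerivAt_rr1 d hU ht0 z.2))))
    refine e1.congr_deriv ?_
    simp only [Pi.mul_apply, Pi.add_apply]
    ring
  · intro t ht z hz
    rcases B11_not_mem hz with h | h
    · simp [(rr_supp hd hd1 hU hs1 ht.1.le h).1, (lap_supp hd hd1 hU hs1 ht.1.le h).1]
    · simp [(rr_supp hd hd1 hU hs1 ht.1.le h).1, (lap_supp hd hd1 hU hs1 ht.1.le h).1]
  · intro t ht z hz
    rcases B11_not_mem hz with h | h
    · simp [(rr_supp hd hd1 hU hs1 ht.1.le h).1, (lap_supp hd hd1 hU hs1 ht.1.le h).1,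
        (lap_supp hd hd1 hU hs1 ht.1.le h).2]
    · simp [(rr_supp hd hd1 hU hs1 ht.1.le h).1, (lap_supp hd hd1 hU hs1 ht.1.le h).1,
        (lap_supp hd hd1 hU hs1 ht.1.le h).2]

end Pool.Agent.Lib.MP_6cd19d_an.ND
end

section

/-!
# B11b: the second derivative is nonpositive

See the module docstring of B11 for the complete proof of `ddPhi_nonpos`. Suggested split: four lemmas for the
four integrations by parts on `E n × E n` (each integrand is continuous with compact support, so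
`integral_prod` and `integral_prod_symm` apply), then the sum.
-/

set_option autoImplicit false

open MeasureTheory Set Filter Topology
open scoped ENNReal ContDiff

namespace Pool.Agent.Lib.MP_6cd19d_an.ND

/-- Continuous functions on the product vanishing outside a compact box are integrable. -/
private theorem intCS {n : ℕ} {F : E n × E n → ℝ} (hF : Continuous F) {C : Set (E n)}
    (hC : IsCompact C) (h : ∀ z : E n × E n, (z.1 ∉ C ∨ z.2 ∉ C) → F z = 0) :
    Integrable F := by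
  refine hF.integrable_of_hasCompactSupport (HasCompactSupport.intro (hC.prod hC) ?_)
  intro z hz
  apply h
  by_contra hcon
  push Not at hcon
  exact hz ⟨hcon.1, hcon.2⟩

private theorem int3 {n : ℕ} {P Q R : E n → ℝ} (hP : Continuous P) (hQ : Continuous Q)
    (hR : Continuous R) {C : Set (E n)} (hC : IsCompact C) (cP : ∀ x, x ∉ C → P x = 0)
    (cQ : ∀ x, x ∉ C → Q x = 0) :
    Integrable (fun z : E n × E n => P z.1 * Q z.2 * R (z.1 - z.2)) := by
  refine intCS (((hP.comp continuous_fst).mul (hQ.comp continuous_snd)).mul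
    (hR.comp (continuous_fst.sub continuous_snd))) hC ?_
  rintro z (h | h)
  · simp only [cP _ h, zero_mul]
  · simp only [cQ _ h, mul_zero, zero_mul]

private theorem swapI {n : ℕ} (F : E n × E n → ℝ) :
    ∫ z : E n × E n, F (z.2, z.1) = ∫ z, F z := by
  have h := MeasureTheory.integral_prod_swap (μ := (volume : Measure (E n)))
    (ν := (volume : Measure (E n))) F
  rw [Measure.volume_eq_prod]
  exact h

private theorem swap3 {n : ℕ} (P Q R : E n → ℝ) (hR : ∀ x, R (-x) = R x) :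
    ∫ z : E n × E n, P z.1 * Q z.2 * R (z.1 - z.2) =
      ∫ z : E n × E n, Q z.1 * P z.2 * R (z.1 - z.2) := by
  rw [← swapI (fun z : E n × E n => Q z.1 * P z.2 * R (z.1 - z.2))]
  refine integral_congr_ae (Eventually.of_forall (fun z => ?_))
  have h : R (z.1 - z.2) = R (z.2 - z.1) := by rw [← hR, neg_sub]
  simp only [h]
  ring

private theorem dx_lap {n : ℕ} {P Q R : E n → ℝ} (hP : ContDiff ℝ ∞ P) (hQ : Continuous Q)
    (hR : ContDiff ℝ ∞ R) {C : Set (E n)} (hC : IsCompact C) (cP : ∀ x, x ∉ C → P x = 0)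
    (clP : ∀ x, x ∉ C → lap P x = 0) (cQ : ∀ x, x ∉ C → Q x = 0) :
    ∫ z : E n × E n, lap P z.1 * Q z.2 * R (z.1 - z.2) =
      ∫ z : E n × E n, P z.1 * Q z.2 * lap R (z.1 - z.2) := by
  have i1 := int3 (contDiff_lap hP).continuous hQ hR.continuous hC clP cQ
  have i2 := int3 hP.continuous hQ (contDiff_lap hR).continuous hC cP cQ
  rw [Measure.volume_eq_prod] at i1 i2 ⊢
  rw [integral_prod_symm _ i1, integral_prod_symm _ i2]
  refine integral_congr_ae (Eventually.of_forall (fun y => ?_))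
  simp only
  have h := ibp_lap hP hR (HasCompactSupport.intro hC cP) y
  have e1 : ∀ x, lap P x * Q y * R (x - y) = Q y * (lap P x * R (x - y)) := fun x => by ring
  have e2 : ∀ x, P x * Q y * lap R (x - y) = Q y * (P x * lap R (x - y)) := fun x => by ring
  simp only [e1, e2]
  rw [integral_const_mul, integral_const_mul, h]

private theorem dx_grad {n : ℕ} {P Q R : E n → ℝ} (hP : ContDiff ℝ ∞ P) (hQ : Continuous Q)
    (hR : ContDiff ℝ ∞ R) {C : Set (E n)} (hC : IsCompact C) (cP : ∀ x, x ∉ C → P x = 0)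
    (cgP : ∀ x, x ∉ C → ∀ i, pd i P x = 0)
    (clP : ∀ x, x ∉ C → lap P x = 0) (cQ : ∀ x, x ∉ C → Q x = 0) :
    ∫ z : E n × E n, lap P z.1 * Q z.2 * R (z.1 - z.2) =
      -∫ z : E n × E n, (∑ i, pd i P z.1 * pd i R (z.1 - z.2)) * Q z.2 := by
  have i1 := int3 (contDiff_lap hP).continuous hQ hR.continuous hC clP cQ
  have i2 : Integrable (fun z : E n × E n => (∑ i, pd i P z.1 * pd i R (z.1 - z.2)) * Q z.2) := by
    refine intCS ?_ hC ?_
    · refine Continuous.mul ?_ (hQ.comp continuous_snd)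
      exact continuous_finsetSum _ (fun i _ => ((contDiff_pd hP i).continuous.comp
        continuous_fst).mul ((contDiff_pd hR i).continuous.comp
          (continuous_fst.sub continuous_snd)))
    · rintro z (h | h)
      · simp only [cgP _ h, zero_mul, Finset.sum_const_zero]
      · simp only [cQ _ h, mul_zero]
  rw [Measure.volume_eq_prod] at i1 i2 ⊢
  rw [integral_prod_symm _ i1, integral_prod_symm _ i2, ← integral_neg]
  refine integral_congr_ae (Eventually.of_forall (fun y => ?_))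
  simp only
  have h := ibp_grad hP hR (HasCompactSupport.intro hC cP) y
  have e1 : ∀ x, lap P x * Q y * R (x - y) = Q y * (lap P x * R (x - y)) := fun x => by ring
  have e2 : ∀ x, (∑ i, pd i P x * pd i R (x - y)) * Q y =
      Q y * (∑ i, pd i P x * pd i R (x - y)) := fun x => by ring
  simp only [e1, e2]
  rw [integral_const_mul, integral_const_mul, h]
  ring

private theorem lap_even {n : ℕ} {f : E n → ℝ} (hf : ContDiff ℝ ∞ f) (he : ∀ x, f (-x) = f x)
    (x : E n) : lap f (-x) = lap f x := by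
  have h1 : ∀ (i : Fin n) (y : E n), pd i f y = -pd i f (-y) := by
    intro i y
    have h := pd_sub_left hf i 0 y
    have e : (fun z => f (0 - z)) = f := by
      funext z
      rw [zero_sub, he]
    rw [e, zero_sub] at h
    exact h
  unfold lap
  refine Finset.sum_congr rfl (fun i _ => ?_)
  have h2 := pd_sub_left (contDiff_pd hf i) i 0 x
  have e : (fun z => pd i f (0 - z)) = fun z => -pd i f z := by
    funext z
    rw [zero_sub, h1 i z, neg_neg]
  rw [e, zero_sub] at h2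
  have h3 : pd i (fun z => -pd i f z) x = -pd i (pd i f) x := by
    unfold pd
    rw [show (fun z => -(fderiv ℝ f z) (bv i)) = -(fun z => (fderiv ℝ f z) (bv i)) from rfl,
      fderiv_neg]
    rfl
  rw [h3] at h2
  linarith

section

variable {n : ℕ} {g : ℝ → ℝ} {η d s : ℝ} {U : E n → ℝ}

private theorem s_rr (hd : 0 < d) (hd1 : d < 1) (hU : GoodU U) (hs : 0 < s) :
    ∀ x, x ∉ supC d U s → rr d U s x = 0 := fun _ hx => (rr_supp hd hd1 hU hs le_rfl hx).1

private theorem s_ff (hd : 0 < d) (hd1 : d < 1) (hU : GoodU U) (hs : 0 < s) :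
    ∀ x, x ∉ supC d U s → ff d U s x = 0 := fun _ hx => (rr_supp hd hd1 hU hs le_rfl hx).2.1

private theorem s_kk (hd : 0 < d) (hd1 : d < 1) (hU : GoodU U) (hs : 0 < s) :
    ∀ x, x ∉ supC d U s → kk d U s x = 0 := fun _ hx => (rr_supp hd hd1 hU hs le_rfl hx).2.2

private theorem s_lff (hd : 0 < d) (hd1 : d < 1) (hU : GoodU U) (hs : 0 < s) :
    ∀ x, x ∉ supC d U s → lap (ff d U s) x = 0 :=
  fun _ hx => (lap_supp hd hd1 hU hs le_rfl hx).1

private theorem s_lkk (hd : 0 < d) (hd1 : d < 1) (hU : GoodU U) (hs : 0 < s) :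
    ∀ x, x ∉ supC d U s → lap (kk d U s) x = 0 :=
  fun _ hx => (lap_supp hd hd1 hU hs le_rfl hx).2

private theorem s_pff (hd : 0 < d) (hd1 : d < 1) (hU : GoodU U) (hs : 0 < s) :
    ∀ x, x ∉ supC d U s → ∀ i, pd i (ff d U s) x = 0 := by
  intro x hx i
  have h := grad_sq_le hd hU hs x
  rw [s_rr hd hd1 hU hs x hx, mul_zero] at h
  have h2 : (pd i (ff d U s) x) ^ 2 ≤ ∑ i, (pd i (ff d U s) x) ^ 2 :=
    Finset.single_le_sum (f := fun i => (pd i (ff d U s) x) ^ 2)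
      (fun j _ => sq_nonneg _) (Finset.mem_univ i)
  have h3 : (pd i (ff d U s) x) ^ 2 = 0 := le_antisymm (h2.trans h) (sq_nonneg _)
  exact pow_eq_zero_iff (two_ne_zero) |>.mp h3

end

/-- `ibp_lap` in both variables. -/
theorem term_A {n : ℕ} (hn : 3 ≤ n) {g : ℝ → ℝ} {η : ℝ} (hg : GoodG n g η) {d : ℝ}
    (hd : 0 < d) (hd1 : d < 1) {U : E n → ℝ} (hU : GoodU U) {s : ℝ} (hs : 0 < s) :
    ∫ z : E n × E n, ks n g s (z.1 - z.2) * (lap (kk d U s) z.1 * rr d U s z.2 +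
        rr d U s z.1 * lap (kk d U s) z.2) =
      ∫ z : E n × E n, lap (ks n g s) (z.1 - z.2) * (kk d U s z.1 * rr d U s z.2 +
        kk d U s z.2 * rr d U s z.1) := by
  have hC := isCompact_supC hd1 hU hs
  have cr := contDiff_rr d hU hs
  have ck := contDiff_kk d hU hs
  have cS := contDiff_ks hn hg hs
  have a1 := dx_lap ck cr.continuous cS hC (s_kk hd hd1 hU hs) (s_lkk hd hd1 hU hs)
    (s_rr hd hd1 hU hs)
  have a2 := swap3 (rr d U s) (lap (kk d U s)) (ks n g s) (ks_neg n g s)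
  have a3 := swap3 (rr d U s) (kk d U s) (lap (ks n g s)) (lap_even cS (ks_neg n g s))
  have i1 := int3 (contDiff_lap ck).continuous cr.continuous cS.continuous hC
    (s_lkk hd hd1 hU hs) (s_rr hd hd1 hU hs)
  have i2 := int3 cr.continuous (contDiff_lap ck).continuous cS.continuous hC
    (s_rr hd hd1 hU hs) (s_lkk hd hd1 hU hs)
  have i3 := int3 ck.continuous cr.continuous (contDiff_lap cS).continuous hC
    (s_kk hd hd1 hU hs) (s_rr hd hd1 hU hs)
  have i4 := int3 cr.continuous ck.continuous (contDiff_lap cS).continuous hC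
    (s_rr hd hd1 hU hs) (s_kk hd hd1 hU hs)
  have e1 : ∀ z : E n × E n, ks n g s (z.1 - z.2) * (lap (kk d U s) z.1 * rr d U s z.2 +
        rr d U s z.1 * lap (kk d U s) z.2) =
      lap (kk d U s) z.1 * rr d U s z.2 * ks n g s (z.1 - z.2) +
        rr d U s z.1 * lap (kk d U s) z.2 * ks n g s (z.1 - z.2) := fun z => by ring
  have e2 : ∀ z : E n × E n, lap (ks n g s) (z.1 - z.2) * (kk d U s z.1 * rr d U s z.2 +
        kk d U s z.2 * rr d U s z.1) =
      kk d U s z.1 * rr d U s z.2 * lap (ks n g s) (z.1 - z.2) +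
        rr d U s z.1 * kk d U s z.2 * lap (ks n g s) (z.1 - z.2) := fun z => by ring
  simp only [e1, e2]
  rw [integral_add i1 i2, integral_add i3 i4, a2, a1, a3]

/-- `ibp_double`. -/
theorem term_B {n : ℕ} (hn : 3 ≤ n) {g : ℝ → ℝ} {η : ℝ} (hg : GoodG n g η) {d : ℝ}
    (hd : 0 < d) (hd1 : d < 1) {U : E n → ℝ} (hU : GoodU U) {s : ℝ} (hs : 0 < s) :
    ∫ z : E n × E n, ks n g s (z.1 - z.2) * (lap (ff d U s) z.1 * lap (ff d U s) z.2) =
      -∫ z : E n × E n, lap (ks n g s) (z.1 - z.2) *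
        ∑ i, pd i (ff d U s) z.1 * pd i (ff d U s) z.2 := by
  have hC := isCompact_supC hd1 hU hs
  have h := ibp_double (contDiff_ff d hU hs) (contDiff_ks hn hg hs)
    (HasCompactSupport.intro hC (s_ff hd hd1 hU hs))
  have e1 : ∀ z : E n × E n, ks n g s (z.1 - z.2) * (lap (ff d U s) z.1 * lap (ff d U s) z.2) =
      lap (ff d U s) z.1 * lap (ff d U s) z.2 * ks n g s (z.1 - z.2) := fun z => by ring
  have e2 : ∀ z : E n × E n, lap (ks n g s) (z.1 - z.2) *
        ∑ i, pd i (ff d U s) z.1 * pd i (ff d U s) z.2 =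
      (∑ i, pd i (ff d U s) z.1 * pd i (ff d U s) z.2) * lap (ks n g s) (z.1 - z.2) :=
    fun z => by ring
  simp only [e1, e2]
  exact h

/-- `ibp_grad` in both variables. -/
theorem term_C {n : ℕ} (hn : 3 ≤ n) {g : ℝ → ℝ} {η : ℝ} (hg : GoodG n g η) {d : ℝ}
    (hd : 0 < d) (hd1 : d < 1) {U : E n → ℝ} (hU : GoodU U) {s : ℝ} (hs : 0 < s) :
    ∫ z : E n × E n, k1 n g s (z.1 - z.2) * ((-lap (ff d U s) z.1) * rr d U s z.2 +
        rr d U s z.1 * (-lap (ff d U s) z.2)) =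
      ∫ z : E n × E n, lap (ks n g s) (z.1 - z.2) * (1 / ((n : ℝ) - 2) / s *
        ∑ i, (z.1 - z.2) i * (pd i (ff d U s) z.1 * rr d U s z.2 -
          pd i (ff d U s) z.2 * rr d U s z.1)) := by
  have hC := isCompact_supC hd1 hU hs
  have cr := contDiff_rr d hU hs
  have cf := contDiff_ff d hU hs
  have cS := contDiff_ks hn hg hs
  have cK := contDiff_k1 hn hg hs
  have a1 := dx_grad cf cr.continuous cK hC (s_ff hd hd1 hU hs) (s_pff hd hd1 hU hs)
    (s_lff hd hd1 hU hs) (s_rr hd hd1 hU hs)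
  have a2 := swap3 (rr d U s) (lap (ff d U s)) (k1 n g s) (k1_neg n g s)
  have i1 := int3 (contDiff_lap cf).continuous cr.continuous cK.continuous hC
    (s_lff hd hd1 hU hs) (s_rr hd hd1 hU hs)
  have i2 := int3 cr.continuous (contDiff_lap cf).continuous cK.continuous hC
    (s_rr hd hd1 hU hs) (s_lff hd hd1 hU hs)
  -- the common value of the two halves
  set G : E n × E n → ℝ := fun z =>
    (∑ i, pd i (ff d U s) z.1 * pd i (k1 n g s) (z.1 - z.2)) * rr d U s z.2 with hG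
  have hGint : Integrable G := by
    refine intCS ?_ hC ?_
    · refine Continuous.mul ?_ (cr.continuous.comp continuous_snd)
      exact continuous_finsetSum _ (fun i _ => ((contDiff_pd cf i).continuous.comp
        continuous_fst).mul ((contDiff_pd cK i).continuous.comp
          (continuous_fst.sub continuous_snd)))
    · rintro z (h | h)
      · simp only [hG, s_pff hd hd1 hU hs _ h, zero_mul, Finset.sum_const_zero]
      · simp only [hG, s_rr hd hd1 hU hs _ h, mul_zero]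
  have e1 : ∀ z : E n × E n, k1 n g s (z.1 - z.2) * ((-lap (ff d U s) z.1) * rr d U s z.2 +
        rr d U s z.1 * (-lap (ff d U s) z.2)) =
      -(lap (ff d U s) z.1 * rr d U s z.2 * k1 n g s (z.1 - z.2) +
        rr d U s z.1 * lap (ff d U s) z.2 * k1 n g s (z.1 - z.2)) := fun z => by ring
  have hswap : ∀ z : E n × E n, lap (ks n g s) (z.2 - z.1) = lap (ks n g s) (z.1 - z.2) := by
    intro z
    rw [← lap_even cS (ks_neg n g s) (z.1 - z.2), neg_sub]
  have e2 : ∀ z : E n × E n, lap (ks n g s) (z.1 - z.2) * (1 / ((n : ℝ) - 2) / s *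
        ∑ i, (z.1 - z.2) i * (pd i (ff d U s) z.1 * rr d U s z.2 -
          pd i (ff d U s) z.2 * rr d U s z.1)) = G z + G (z.2, z.1) := by
    intro z
    simp only [hG, pd_k1 hn hg hs, hswap]
    rw [Finset.sum_mul, Finset.sum_mul, ← Finset.sum_add_distrib, Finset.mul_sum, Finset.mul_sum]
    refine Finset.sum_congr rfl (fun i _ => ?_)
    have hi : (z.2 - z.1) i = -((z.1 - z.2) i) := by
      simp only [PiLp.sub_apply]
      ring
    rw [hi]
    ring
  have hGs : Integrable (fun z : E n × E n => G (z.2, z.1)) := by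
    have h := hGint
    rw [Measure.volume_eq_prod] at h ⊢
    exact h.swap
  simp only [e1, e2]
  rw [integral_neg, integral_add i1 i2, integral_add hGint hGs, swapI G, a2, a1]
  ring

private theorem int4 {n : ℕ} {F1 F2 F3 F4 : E n × E n → ℝ} (h1 : Integrable F1)
    (h2 : Integrable F2) (h3 : Integrable F3) (h4 : Integrable F4) (a b : ℝ) :
    ∫ z, (F1 z + a * F2 z + F3 z + b * F4 z) =
      (∫ z, F1 z) + a * (∫ z, F2 z) + (∫ z, F3 z) + b * (∫ z, F4 z) := by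
  have j2 : Integrable (fun z => a * F2 z) := h2.const_mul a
  have j4 : Integrable (fun z => b * F4 z) := h4.const_mul b
  have j12 : Integrable (fun z => F1 z + a * F2 z) := h1.add j2
  have j123 : Integrable (fun z => F1 z + a * F2 z + F3 z) := j12.add h3
  rw [integral_add j123 j4, integral_add j12 h3, integral_add h1 j2,
    integral_const_mul, integral_const_mul]

theorem ddPhi_nonpos {n : ℕ} (hn : 3 ≤ n) {g : ℝ → ℝ} {η : ℝ} (hg : GoodG n g η) {d : ℝ}
    (hd : 0 < d) (hd1 : d < 1) {U : E n → ℝ} (hU : GoodU U) {s : ℝ} (hs : 0 < s) :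
    ddPhi n g d U s ≤ 0 := by
  have hC := isCompact_supC hd1 hU hs
  have cr := (contDiff_rr d hU hs).continuous
  have ck := (contDiff_kk d hU hs).continuous
  have clk := (contDiff_lap (contDiff_kk d hU hs)).continuous
  have clf := (contDiff_lap (contDiff_ff d hU hs)).continuous
  have cpf := fun i => (contDiff_pd (contDiff_ff d hU hs) i).continuous
  have cS := (contDiff_ks hn hg hs).continuous
  have cK := (contDiff_k1 hn hg hs).continuous
  have cL := (contDiff_lap (contDiff_ks hn hg hs)).continuous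
  have zr := s_rr hd hd1 hU hs
  have zk := s_kk hd hd1 hU hs
  have zlk := s_lkk hd hd1 hU hs
  have zlf := s_lff hd hd1 hU hs
  have zpf := s_pff hd hd1 hU hs
  have hA := term_A hn hg hd hd1 hU hs
  have hB := term_B hn hg hd hd1 hU hs
  have hCt := term_C hn hg hd hd1 hU hs
  -- coordinates of the difference
  have cD : ∀ i : Fin n, Continuous (fun z : E n × E n => (z.1 - z.2) i) := fun i =>
    (EuclideanSpace.proj (𝕜 := ℝ) i).continuous.comp (continuous_fst.sub continuous_snd)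
  have cDD : Continuous (fun z : E n × E n => z.1 - z.2) := continuous_fst.sub continuous_snd
  set t : ℝ := 1 / ((n : ℝ) - 2) / s with ht
  set F1 : E n × E n → ℝ := fun z =>
    t ^ 2 * ‖z.1 - z.2‖ ^ 2 * lap (ks n g s) (z.1 - z.2) * (rr d U s z.1 * rr d U s z.2) with hF1
  set F2 : E n × E n → ℝ := fun z =>
    k1 n g s (z.1 - z.2) * ((-lap (ff d U s) z.1) * rr d U s z.2 +
        rr d U s z.1 * (-lap (ff d U s) z.2)) with hF2
  set F3 : E n × E n → ℝ := fun z =>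
    ks n g s (z.1 - z.2) * (lap (kk d U s) z.1 * rr d U s z.2 +
        rr d U s z.1 * lap (kk d U s) z.2) with hF3
  set F4 : E n × E n → ℝ := fun z =>
    ks n g s (z.1 - z.2) * (lap (ff d U s) z.1 * lap (ff d U s) z.2) with hF4
  set G2 : E n × E n → ℝ := fun z =>
    lap (ks n g s) (z.1 - z.2) * (t *
        ∑ i, (z.1 - z.2) i * (pd i (ff d U s) z.1 * rr d U s z.2 -
          pd i (ff d U s) z.2 * rr d U s z.1)) with hG2
  set G3 : E n × E n → ℝ := fun z =>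
    lap (ks n g s) (z.1 - z.2) * (kk d U s z.1 * rr d U s z.2 +
        kk d U s z.2 * rr d U s z.1) with hG3
  set G4 : E n × E n → ℝ := fun z =>
    lap (ks n g s) (z.1 - z.2) *
        ∑ i, pd i (ff d U s) z.1 * pd i (ff d U s) z.2 with hG4
  have I1 : Integrable F1 := by
    refine intCS ?_ hC ?_
    · exact ((continuous_const.mul (cDD.norm.pow 2)).mul (cL.comp cDD)).mul
        ((cr.comp continuous_fst).mul (cr.comp continuous_snd))
    · rintro z (h | h)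
      · simp only [hF1, zr _ h, zero_mul, mul_zero]
      · simp only [hF1, zr _ h, mul_zero]
  have I2 : Integrable F2 := by
    refine intCS ?_ hC ?_
    · exact (cK.comp cDD).mul ((((clf.comp continuous_fst).neg).mul (cr.comp continuous_snd)).add
        ((cr.comp continuous_fst).mul ((clf.comp continuous_snd).neg)))
    · rintro z (h | h)
      · simp only [hF2, zr _ h, zlf _ h, zero_mul, mul_zero, neg_zero, add_zero]
      · simp only [hF2, zr _ h, zlf _ h, mul_zero, neg_zero, add_zero]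
  have I3 : Integrable F3 := by
    refine intCS ?_ hC ?_
    · exact (cS.comp cDD).mul (((clk.comp continuous_fst).mul (cr.comp continuous_snd)).add
        ((cr.comp continuous_fst).mul (clk.comp continuous_snd)))
    · rintro z (h | h)
      · simp only [hF3, zr _ h, zlk _ h, zero_mul, mul_zero, add_zero]
      · simp only [hF3, zr _ h, zlk _ h, mul_zero, add_zero]
  have I4 : Integrable F4 := by
    refine intCS ?_ hC ?_
    · exact (cS.comp cDD).mul ((clf.comp continuous_fst).mul (clf.comp continuous_snd))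
    · rintro z (h | h)
      · simp only [hF4, zlf _ h, zero_mul, mul_zero]
      · simp only [hF4, zlf _ h, mul_zero]
  have J2 : Integrable G2 := by
    refine intCS ?_ hC ?_
    · refine (cL.comp cDD).mul (continuous_const.mul (continuous_finsetSum _ (fun i _ => ?_)))
      exact (cD i).mul ((((cpf i).comp continuous_fst).mul (cr.comp continuous_snd)).sub
        (((cpf i).comp continuous_snd).mul (cr.comp continuous_fst)))
    · rintro z (h | h)
      · simp only [hG2, zr _ h, zpf _ h, zero_mul, mul_zero, sub_zero, Finset.sum_const_zero]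
      · simp only [hG2, zr _ h, zpf _ h, zero_mul, mul_zero, sub_zero, Finset.sum_const_zero]
  have J3 : Integrable G3 := by
    refine intCS ?_ hC ?_
    · exact (cL.comp cDD).mul (((ck.comp continuous_fst).mul (cr.comp continuous_snd)).add
        ((ck.comp continuous_snd).mul (cr.comp continuous_fst)))
    · rintro z (h | h)
      · simp only [hG3, zr _ h, zk _ h, zero_mul, mul_zero, add_zero]
      · simp only [hG3, zr _ h, zk _ h, zero_mul, mul_zero, add_zero]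
  have J4 : Integrable G4 := by
    refine intCS ?_ hC ?_
    · refine (cL.comp cDD).mul (continuous_finsetSum _ (fun i _ => ?_))
      exact ((cpf i).comp continuous_fst).mul ((cpf i).comp continuous_snd)
    · rintro z (h | h)
      · simp only [hG4, zpf _ h, zero_mul, mul_zero, Finset.sum_const_zero]
      · simp only [hG4, zpf _ h, mul_zero, Finset.sum_const_zero]
  have e : ddPhi n g d U s = ∫ z, (F1 z + 2 * F2 z + F3 z + 2 * F4 z) := by
    unfold ddPhi
    refine integral_congr_ae (Eventually.of_forall (fun z => ?_))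
    simp only [hF1, hF2, hF3, hF4, ht]
    ring
  have e' : (∫ z, F1 z) + 2 * (∫ z, G2 z) + (∫ z, G3 z) + (-2) * (∫ z, G4 z) =
      ∫ z, (F1 z + 2 * G2 z + G3 z + (-2) * G4 z) := (int4 I1 J2 J3 J4 2 (-2)).symm
  rw [e, int4 I1 I2 I3 I4, hCt, hA, hB]
  have e'' : (∫ z, F1 z) + 2 * (∫ z, G2 z) + (∫ z, G3 z) + 2 * (-∫ z, G4 z) =
      (∫ z, F1 z) + 2 * (∫ z, G2 z) + (∫ z, G3 z) + (-2) * (∫ z, G4 z) := by ring
  rw [e'', e']
  refine integral_nonpos (fun z => ?_)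
  have hp := pointwise_nonneg (t := t) (D := fun i => (z.1 - z.2) i)
    (rr_nonneg hd hU hs z.1) (rr_nonneg hd hU hs z.2) (kk_nonneg hd U hs z.1)
    (kk_nonneg hd U hs z.2) (grad_sq_le hd hU hs z.1) (grad_sq_le hd hU hs z.2)
  have hL := lap_ks_nonpos hn hg hs (z.1 - z.2)
  have hnorm : ‖z.1 - z.2‖ ^ 2 = ∑ i, ((z.1 - z.2) i) ^ 2 := EuclideanSpace.real_norm_sq_eq _
  have hfin := mul_nonpos_of_nonpos_of_nonneg hL hp
  simp only [hF1, hG2, hG3, hG4, Pi.zero_apply]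
  rw [hnorm]
  refine le_trans (le_of_eq ?_) hfin
  ring

theorem concaveOn_Phi {n : ℕ} (hn : 3 ≤ n) {g : ℝ → ℝ} {η : ℝ} (hg : GoodG n g η) {d : ℝ}
    (hd : 0 < d) (hd1 : d < 1) {U : E n → ℝ} (hU : GoodU U) :
    ConcaveOn ℝ (Ioi 0) (Phi n g d U) := by
  have h1 : ∀ s ∈ Ioi (0 : ℝ), HasDerivAt (Phi n g d U) (dPhi n g d U s) s :=
    fun s hs => hasDerivAt_Phi hn hg hd hd1 hU hs
  have h2 : ∀ s ∈ Ioi (0 : ℝ), HasDerivAt (dPhi n g d U) (ddPhi n g d U s) s :=
    fun s hs => hasDerivAt_dPhi hn hg hd hd1 hU hs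
  have heq : ∀ s ∈ Ioi (0 : ℝ), deriv (Phi n g d U) =ᶠ[𝓝 s] dPhi n g d U := by
    intro s hs
    filter_upwards [isOpen_Ioi.mem_nhds hs] with u hu
    exact (h1 u hu).deriv
  refine concaveOn_of_deriv2_nonpos (convex_Ioi 0)
    (fun s hs => (h1 s hs).continuousAt.continuousWithinAt) ?_ ?_ ?_
  · rw [interior_Ioi]
    exact fun s hs => (h1 s hs).differentiableAt.differentiableWithinAt
  · rw [interior_Ioi]
    intro s hs
    exact ((heq s hs).differentiableAt_iff.mpr (h2 s hs).differentiableAt).differentiableWithinAt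
  · rw [interior_Ioi]
    intro s hs
    have h3 : deriv (deriv (Phi n g d U)) s = ddPhi n g d U s := by
      rw [(heq s hs).deriv_eq, (h2 s hs).deriv]
    show deriv (deriv (Phi n g d U)) s ≤ 0
    rw [h3]
    exact ddPhi_nonpos hn hg hd hd1 hU hs

end Pool.Agent.Lib.MP_6cd19d_an.ND
end

section

/-!
# B13: the scaled densities

`U = ∑ m_j nk (· - y_j)`, `∑ m_j = 1`, `t = s^(1/(n-2))` (so `t^(n-2) = s`), and
`sc s X = t^(-n) * rr s (t⁻¹ • X)`.
`Phi_scale`: change of variables `x = t⁻¹ X` in both variables (`dx = t^(-n) dX`; e.g.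
`Measure.integral_comp_smul` on `E n × E n`, whose dimension is `2 n`), and
`ks s (x - y) = s * g (t^2 ‖x-y‖^2) = s * g (‖X-Y‖^2)`.
`sc_supp`: let `‖y_j‖ ≤ R0` for all `j` and let `R1` bound the support of `lap U`
(`lap U x = -∑ m_j bt (x - y_j)`). If `rr s x ≠ 0` then `x ∈ supC d U s`: either `x ∈ tsupport (lap U)`, then
`‖t x‖ ≤ R1` for `s ≤ 1`; or `(1-d) s ≤ U x`; if moreover `‖x‖ ≥ 2 R0` and `x ≠ 0` then
`U x ≤ max_j ‖x - y_j‖^(2-n) ≤ (‖x‖/2)^(2-n)` (`nk_le`), so `‖x‖ ≤ 2 ((1-d) s)^(-1/(n-2))`, i.e.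
`t ‖x‖ ≤ 2 (1-d)^(-1/(n-2))`. So `t ‖x‖ ≤ R := max (R1, 2 R0, 2 (1-d)^(-1/(n-2)))`.
`integral_sc`: change of variables, `integral_rr`, `lap U = -∑ m_j bt (· - y_j)`, `integral_bt`.
`Phi_bound`: by `Phi_scale`, `sc_supp` and `integral_sc`: `|Phi s| ≤ s * max |g| on [0, 4R^2] * cB^2`.
-/

set_option autoImplicit false

open MeasureTheory Set Filter Topology
open scoped ENNReal ContDiff

namespace Pool.Agent.Lib.MP_6cd19d_an.ND

/-- Potential of a discrete measure with respect to the truncated Newton kernel. -/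
noncomputable def UU (n : ℕ) (d T : ℝ) {N : ℕ} (m : Fin N → ℝ) (y : Fin N → E n) (x : E n) : ℝ :=
  ∑ j, m j * nk n d T (x - y j)

/-- The mass of `bt`. -/
noncomputable def cB (n : ℕ) (d : ℝ) : ℝ := ∫ z, bt n d 1 z

/-- The scaled density. -/
noncomputable def sc (n : ℕ) (d : ℝ) (U : E n → ℝ) (s : ℝ) (X : E n) : ℝ :=
  (s ^ (1 / ((n : ℝ) - 2))) ^ (-(n : ℝ)) * rr d U s ((s ^ (1 / ((n : ℝ) - 2)))⁻¹ • X)

private theorem b13_pn {n : ℕ} (hn : 3 ≤ n) : 0 < (n : ℝ) - 2 := by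
  have : (3 : ℝ) ≤ n := by exact_mod_cast hn
  linarith

private theorem b13_t2 {n : ℕ} {s : ℝ} (hs : 0 < s) :
    s ^ (2 / ((n : ℝ) - 2)) = (s ^ (1 / ((n : ℝ) - 2))) ^ 2 := by
  rw [← Real.rpow_natCast, ← Real.rpow_mul hs.le]
  congr 1
  push_cast
  ring

theorem Phi_scale {n : ℕ} (hn : 3 ≤ n) (g : ℝ → ℝ) (d : ℝ) (U : E n → ℝ) {s : ℝ} (hs : 0 < s) :
    Phi n g d U s / s =
      ∫ z : E n × E n, g (‖z.1 - z.2‖ ^ 2) * (sc n d U s z.1 * sc n d U s z.2) := by
  have hp := b13_pn hn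
  obtain ⟨t, ht⟩ : ∃ t : ℝ, t = s ^ (1 / ((n : ℝ) - 2)) := ⟨_, rfl⟩
  have ht0 : 0 < t := by rw [ht]; exact Real.rpow_pos_of_pos hs _
  obtain ⟨F, hFd⟩ : ∃ F : E n × E n → ℝ, F = fun w : E n × E n =>
    g (t ^ 2 * ‖w.1 - w.2‖ ^ 2) * (rr d U s w.1 * rr d U s w.2) := ⟨_, rfl⟩
  have hF : ∀ z : E n × E n, g (‖z.1 - z.2‖ ^ 2) * (sc n d U s z.1 * sc n d U s z.2) =
      (t ^ (-(n : ℝ))) ^ 2 * F (t⁻¹ • z) := by
    intro z
    rw [hFd]
    have h1 : t ^ 2 * ‖(t⁻¹ • z).1 - (t⁻¹ • z).2‖ ^ 2 = ‖z.1 - z.2‖ ^ 2 := by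
      rw [Prod.smul_fst, Prod.smul_snd, ← smul_sub, norm_smul, Real.norm_of_nonneg (by positivity)]
      field_simp
    show _ = (t ^ (-(n : ℝ))) ^ 2 * (g (t ^ 2 * ‖(t⁻¹ • z).1 - (t⁻¹ • z).2‖ ^ 2) *
        (rr d U s (t⁻¹ • z).1 * rr d U s (t⁻¹ • z).2))
    rw [h1]
    unfold sc
    rw [← ht, Prod.smul_fst, Prod.smul_snd]
    ring
  have hR : (∫ z : E n × E n, g (‖z.1 - z.2‖ ^ 2) * (sc n d U s z.1 * sc n d U s z.2)) =
      ∫ w : E n × E n, g (t ^ 2 * ‖w.1 - w.2‖ ^ 2) * (rr d U s w.1 * rr d U s w.2) := by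
    simp_rw [hF]
    rw [show (∫ w : E n × E n, g (t ^ 2 * ‖w.1 - w.2‖ ^ 2) * (rr d U s w.1 * rr d U s w.2)) =
      ∫ w, F w by rw [hFd], integral_const_mul, Measure.volume_eq_prod,
      Measure.integral_comp_smul_of_nonneg _ _ _ (hR := (inv_pos.2 ht0).le), Module.finrank_prod,
      finrank_euclideanSpace_fin, smul_eq_mul, ← mul_assoc]
    have h2 : (t ^ (-(n : ℝ))) ^ 2 * ((t⁻¹ ^ (n + n))⁻¹) = 1 := by
      rw [Real.rpow_neg ht0.le, Real.rpow_natCast]
      have : t ^ n ≠ 0 := (pow_pos ht0 n).ne'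
      rw [inv_pow t (n + n), inv_inv, pow_add]
      field_simp
    rw [h2, one_mul]
  rw [hR]
  unfold Phi ks
  have hL : ∀ z : E n × E n, s * g (s ^ (2 / ((n : ℝ) - 2)) * ‖z.1 - z.2‖ ^ 2) *
      (rr d U s z.1 * rr d U s z.2) =
      s * (g (t ^ 2 * ‖z.1 - z.2‖ ^ 2) * (rr d U s z.1 * rr d U s z.2)) := by
    intro z
    rw [b13_t2 hs, ← ht, mul_assoc]
  simp_rw [hL]
  rw [integral_const_mul, mul_div_assoc, mul_div_cancel₀ _ hs.ne']

theorem sc_nonneg {n : ℕ} {d : ℝ} (hd : 0 < d) {U : E n → ℝ} (hU : GoodU U) {s : ℝ}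
    (hs : 0 < s) (X : E n) : 0 ≤ sc n d U s X := by
  unfold sc
  exact mul_nonneg (Real.rpow_nonneg (Real.rpow_nonneg hs.le _) _) (rr_nonneg hd hU hs _)

theorem continuous_sc {n : ℕ} {d : ℝ} (hd : 0 < d) {U : E n → ℝ} (hU : GoodU U) {s : ℝ}
    (hs : 0 < s) : Continuous (sc n d U s) := by
  unfold sc
  exact continuous_const.mul ((contDiff_rr d hU hs).continuous.comp (continuous_const_smul _))

theorem lap_UU {n : ℕ} (hn : 3 ≤ n) {d T : ℝ} (hd : 0 < d) (hd1 : d < 1) (hT : 0 < T) {N : ℕ}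
    (m : Fin N → ℝ) (y : Fin N → E n) (x : E n) :
    lap (UU n d T m y) x = -∑ j, m j * bt n d T (x - y j) := by
  have hk := contDiff_nk hn hd hd1 hT
  have hf : ∀ j, ContDiff ℝ ∞ (fun z : E n => nk n d T (z - y j)) := fun j =>
    hk.comp (contDiff_id.sub contDiff_const)
  have h1 := lap_sum hf m x
  have h2 : lap (UU n d T m y) x = ∑ j, m j * lap (fun z : E n => nk n d T (z - y j)) x := h1
  rw [h2, ← Finset.sum_neg_distrib]
  refine Finset.sum_congr rfl fun j _ => ?_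
  rw [lap_sub_right hk, bt]
  ring

private theorem b13_good {n : ℕ} (hn : 3 ≤ n) {d T : ℝ} (hd : 0 < d) (hd1 : d < 1) (hT : 0 < T)
    {N : ℕ} {m : Fin N → ℝ} (hm : ∀ j, 0 ≤ m j) (y : Fin N → E n) : GoodU (UU n d T m y) :=
  goodU_sum hn hd hd1 hT hm y

private theorem b13_bt_int {n : ℕ} (hn : 3 ≤ n) {d T : ℝ} (hd : 0 < d) (hd1 : d < 1)
    (hT : 0 < T) : Integrable (bt n d T) := by
  have h1 : Continuous (bt n d T) := by
    have := (contDiff_lap (contDiff_nk hn hd hd1 hT)).continuous.neg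
    exact this
  exact h1.integrable_of_hasCompactSupport (hasCompactSupport_bt hn hd hd1 hT)

theorem integral_sc {n : ℕ} (hn : 3 ≤ n) {d T : ℝ} (hd : 0 < d) (hd1 : d < 1) (hT : 0 < T)
    {N : ℕ} {m : Fin N → ℝ} (hm : ∀ j, 0 ≤ m j) (hm1 : ∑ j, m j = 1) (y : Fin N → E n) {s : ℝ}
    (hs : 0 < s) : ∫ X, sc n d (UU n d T m y) s X = cB n d := by
  have hU := b13_good hn hd hd1 hT hm y
  obtain ⟨t, ht⟩ : ∃ t : ℝ, t = s ^ (1 / ((n : ℝ) - 2)) := ⟨_, rfl⟩
  have ht0 : 0 < t := by rw [ht]; exact Real.rpow_pos_of_pos hs _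
  have h1 : ∫ X, sc n d (UU n d T m y) s X = ∫ x, rr d (UU n d T m y) s x := by
    unfold sc
    rw [← ht, integral_const_mul,
      Measure.integral_comp_smul_of_nonneg _ _ _ (hR := (inv_pos.2 ht0).le),
      finrank_euclideanSpace_fin, smul_eq_mul, ← mul_assoc]
    have h2 : t ^ (-(n : ℝ)) * ((t⁻¹ ^ n)⁻¹) = 1 := by
      rw [Real.rpow_neg ht0.le, Real.rpow_natCast, inv_pow, inv_inv]
      exact inv_mul_cancel₀ (pow_pos ht0 n).ne'
    rw [h2, one_mul]
  have h3 : ∀ x, -lap (UU n d T m y) x = ∑ j, m j * bt n d T (x - y j) := by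
    intro x
    rw [lap_UU hn hd hd1 hT, neg_neg]
  have hbt := b13_bt_int (T := T) hn hd hd1 hT
  rw [h1, integral_rr hd hd1 hU hs]
  simp_rw [h3]
  rw [integral_finsetSum _ (fun j _ => (hbt.comp_sub_right (y j)).const_mul (m j))]
  have h4 : ∀ j, ∫ x, m j * bt n d T (x - y j) = m j * cB n d := by
    intro j
    rw [integral_const_mul, integral_sub_right_eq_self (fun x => bt n d T x) (y j),
      integral_bt hn hd hd1 hT, cB]
  simp_rw [h4]
  rw [← Finset.sum_mul, hm1, one_mul]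

theorem sc_supp {n : ℕ} (hn : 3 ≤ n) {d T : ℝ} (hd : 0 < d) (hd1 : d < 1) (hT : 0 < T)
    {N : ℕ} {m : Fin N → ℝ} (hm : ∀ j, 0 ≤ m j) (hm1 : ∑ j, m j = 1) (y : Fin N → E n) :
    ∃ R : ℝ, 0 < R ∧ ∀ s, 0 < s → s ≤ 1 → ∀ X, R < ‖X‖ → sc n d (UU n d T m y) s X = 0 := by
  have hU := b13_good hn hd hd1 hT hm y
  have hp := b13_pn hn
  obtain ⟨R1, hR1⟩ := hU.cs.isBounded.exists_norm_le
  obtain ⟨R0, hR0⟩ : ∃ R0 : ℝ, ∀ j, ‖y j‖ ≤ R0 :=
    ⟨∑ j, ‖y j‖, fun j => Finset.single_le_sum (f := fun j => ‖y j‖)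
      (fun i _ => norm_nonneg _) (Finset.mem_univ j)⟩
  obtain ⟨R2, hR2⟩ : ∃ R2 : ℝ, R2 = 2 * (1 - d) ^ (-1 / ((n : ℝ) - 2)) := ⟨_, rfl⟩
  refine ⟨max 1 (max R1 (max (2 * R0) R2)), by positivity, ?_⟩
  intro s hs hs1 X hX
  have hX1 : 1 < ‖X‖ := (le_max_left _ _).trans_lt hX
  have hXR1 : R1 < ‖X‖ := ((le_max_left _ _).trans (le_max_right _ _)).trans_lt hX
  have hXR0 : 2 * R0 < ‖X‖ :=
    (((le_max_left _ _).trans (le_max_right _ _)).trans (le_max_right _ _)).trans_lt hX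
  have hXR2 : R2 < ‖X‖ :=
    (((le_max_right _ _).trans (le_max_right _ _)).trans (le_max_right _ _)).trans_lt hX
  obtain ⟨t, ht⟩ : ∃ t : ℝ, t = s ^ (1 / ((n : ℝ) - 2)) := ⟨_, rfl⟩
  have ht0 : 0 < t := by rw [ht]; exact Real.rpow_pos_of_pos hs _
  have ht1 : t ≤ 1 := by rw [ht]; exact Real.rpow_le_one hs.le hs1 (by positivity)
  have htp : t ^ ((n : ℝ) - 2) = s := by
    rw [ht, ← Real.rpow_mul hs.le, one_div, inv_mul_cancel₀ hp.ne', Real.rpow_one]
  have hnx : ‖t⁻¹ • X‖ = ‖X‖ / t := by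
    rw [norm_smul, Real.norm_of_nonneg (by positivity)]
    ring
  have hnx1 : ‖X‖ ≤ ‖t⁻¹ • X‖ := by
    rw [hnx, le_div_iff₀ ht0]
    exact mul_le_of_le_one_right (norm_nonneg _) ht1
  unfold sc
  rw [← ht]
  have hnot : t⁻¹ • X ∉ supC d (UU n d T m y) s := by
    intro hmem
    rcases hmem with h | h
    · have h : (1 - d) * s ≤ UU n d T m y (t⁻¹ • X) := h
      obtain ⟨x, hx⟩ : ∃ x : E n, x = t⁻¹ • X := ⟨_, rfl⟩
      rw [← hx] at h hnx hnx1
      have hxpos : 0 < ‖x‖ / 2 := by linarith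
      have hUle : UU n d T m y x ≤ (‖x‖ / 2) ^ (2 - (n : ℝ)) := by
        unfold UU
        have h5 : ∀ j ∈ Finset.univ, m j * nk n d T (x - y j) ≤
            m j * (‖x‖ / 2) ^ (2 - (n : ℝ)) := by
          intro j _
          apply mul_le_mul_of_nonneg_left _ (hm j)
          have h6 : ‖x‖ / 2 ≤ ‖x - y j‖ := by
            have h7 := norm_sub_norm_le x (y j)
            have h8 := hR0 j
            linarith
          have h9 : x - y j ≠ 0 := by
            intro h0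
            rw [h0, norm_zero] at h6
            linarith
          refine (nk_le hn hT h9).trans ?_
          exact Real.rpow_le_rpow_of_nonpos hxpos h6 (by linarith)
        refine (Finset.sum_le_sum h5).trans ?_
        rw [← Finset.sum_mul, hm1, one_mul]
      have h10 : (1 - d) * s ≤ (‖x‖ / 2) ^ (2 - (n : ℝ)) := h.trans hUle
      have h11 : (‖x‖ / 2) ^ (2 - (n : ℝ)) = s / (‖X‖ / 2) ^ ((n : ℝ) - 2) := by
        have e1 : ‖x‖ / 2 = (‖X‖ / 2) / t := by rw [hnx]; ring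
        rw [e1, show (2 - (n : ℝ)) = -((n : ℝ) - 2) by ring,
          Real.rpow_neg (by positivity), Real.div_rpow (by positivity) ht0.le, htp, inv_div]
      rw [h11] at h10
      have hY : 0 < (‖X‖ / 2) ^ ((n : ℝ) - 2) := Real.rpow_pos_of_pos (by linarith) _
      have h12 : (1 - d) * (‖X‖ / 2) ^ ((n : ℝ) - 2) ≤ 1 := by
        rw [le_div_iff₀ hY] at h10
        have h13 : s * ((1 - d) * (‖X‖ / 2) ^ ((n : ℝ) - 2)) ≤ s * 1 := by linarith
        exact le_of_mul_le_mul_left h13 hs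
      have h14 : (1 - d) ^ (-1 / ((n : ℝ) - 2)) < ‖X‖ / 2 := by
        rw [hR2] at hXR2
        linarith
      have h15 : ((1 - d) ^ (-1 / ((n : ℝ) - 2))) ^ ((n : ℝ) - 2) <
          (‖X‖ / 2) ^ ((n : ℝ) - 2) :=
        Real.rpow_lt_rpow (Real.rpow_nonneg (by linarith) _) h14 hp
      rw [← Real.rpow_mul (by linarith), div_mul_cancel₀ _ hp.ne', Real.rpow_neg_one] at h15
      have h16 : 0 < 1 - d := by linarith
      have h17 := mul_lt_mul_of_pos_left h15 h16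
      rw [mul_inv_cancel₀ h16.ne'] at h17
      linarith
    · have h2 := hR1 _ h
      linarith
  rw [(rr_supp hd hd1 hU hs le_rfl hnot).1, mul_zero]

theorem Phi_bound {n : ℕ} (hn : 3 ≤ n) {g : ℝ → ℝ} {η : ℝ} (hg : GoodG n g η) {d T : ℝ}
    (hd : 0 < d) (hd1 : d < 1) (hT : 0 < T)
    {N : ℕ} {m : Fin N → ℝ} (hm : ∀ j, 0 ≤ m j) (hm1 : ∑ j, m j = 1) (y : Fin N → E n) :
    ∃ C : ℝ, ∀ s, 0 < s → s < 1 → |Phi n g d (UU n d T m y) s| ≤ C * s := by
  have hU := b13_good hn hd hd1 hT hm y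
  obtain ⟨R, hR0, hR⟩ := sc_supp hn hd hd1 hT hm hm1 y
  have hgc : ContinuousOn g (Icc 0 (4 * R ^ 2)) := by
    refine hg.smooth.continuousOn.mono fun x hx => ?_
    show -η < x
    have := hg.pos
    linarith [hx.1]
  obtain ⟨M, hM⟩ := isCompact_Icc.exists_bound_of_continuousOn hgc
  have hM0 : 0 ≤ M := (norm_nonneg _).trans (hM 0 ⟨le_rfl, by positivity⟩)
  refine ⟨M * (cB n d * cB n d), fun s hs hs1 => ?_⟩
  have hsc : Integrable (sc n d (UU n d T m y) s) := by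
    refine (continuous_sc hd hU hs).integrable_of_hasCompactSupport ?_
    refine HasCompactSupport.intro (K := Metric.closedBall 0 R) (isCompact_closedBall 0 R) ?_
    intro X hX
    apply hR s hs hs1.le
    rw [mem_closedBall_zero_iff, not_le] at hX
    exact hX
  have h1 := Phi_scale hn g d (UU n d T m y) hs
  rw [div_eq_iff hs.ne'] at h1
  rw [h1, abs_mul, abs_of_pos hs]
  apply mul_le_mul_of_nonneg_right _ hs.le
  rw [← Real.norm_eq_abs]
  refine (norm_integral_le_integral_norm _).trans ?_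
  have hint : Integrable (fun z : E n × E n => sc n d (UU n d T m y) s z.1 *
      sc n d (UU n d T m y) s z.2) := by
    rw [Measure.volume_eq_prod]
    exact hsc.mul_prod hsc
  have h2 : ∫ z : E n × E n, M * (sc n d (UU n d T m y) s z.1 * sc n d (UU n d T m y) s z.2) =
      M * (cB n d * cB n d) := by
    rw [integral_const_mul, Measure.volume_eq_prod, integral_prod_mul,
      integral_sc hn hd hd1 hT hm hm1 y hs]
  rw [← h2]
  apply integral_mono_of_nonneg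
  · exact Eventually.of_forall fun z => norm_nonneg _
  · exact hint.const_mul M
  · refine Eventually.of_forall fun z => ?_
    show ‖g (‖z.1 - z.2‖ ^ 2) * (sc n d (UU n d T m y) s z.1 * sc n d (UU n d T m y) s z.2)‖ ≤
      M * (sc n d (UU n d T m y) s z.1 * sc n d (UU n d T m y) s z.2)
    have e1 := sc_nonneg hd hU hs z.1
    have e2 := sc_nonneg hd hU hs z.2
    rw [norm_mul, Real.norm_of_nonneg (mul_nonneg e1 e2)]
    by_cases hz1 : R < ‖z.1‖
    · rw [hR s hs hs1.le _ hz1, zero_mul, mul_zero, mul_zero]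
    by_cases hz2 : R < ‖z.2‖
    · rw [hR s hs hs1.le _ hz2, mul_zero, mul_zero, mul_zero]
    push Not at hz1 hz2
    apply mul_le_mul_of_nonneg_right _ (mul_nonneg e1 e2)
    apply hM
    refine ⟨by positivity, ?_⟩
    have h3 : ‖z.1 - z.2‖ ≤ 2 * R := (norm_sub_le _ _).trans (by linarith)
    nlinarith [norm_nonneg (z.1 - z.2)]

end Pool.Agent.Lib.MP_6cd19d_an.ND
end

section

/-!
# B14: pointwise limit of the scaled densities

Fix `X ≠ 0`; `s → 0+`, `t = s^(1/(n-2)) → 0+`, `x = t⁻¹ • X`. For small `s` all `‖x - y_j‖` are large, so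
`nk (z) = ‖z‖^(2-n)` for `z` near `x - y_j` (`nk_eq`), hence near `x`: `U = ∑ m_j ‖· - y_j‖^(2-n)`,
`lap U x = 0` (by `lap_UU` and `bt_eq_zero`, or by harmonicity), and
`pd i U x = ∑_j m_j (2-n) (x - y_j)_i ‖x - y_j‖^(-n)` (`pd_congr`, `pd_radial`). With `x = X/t`:
`U x / s = ∑ m_j ‖X - t y_j‖^(2-n)` and `∑_i (pd i U x)^2 = t^(2n-2) ∑_i (∑_j m_j (2-n) (X - t y_j)_i ‖X - t y_j‖^(-n))^2`.
By `rr_formula`: `sc s X = - deriv (cut d) (∑ m_j ‖X - t y_j‖^(2-n)) * ∑_i (∑_j m_j (2-n) (X - t y_j)_i ‖X - t y_j‖^(-n))^2`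
(`t^(-n) * t^(2n-2) / t^(n-2) = 1`). Everything is continuous in `t` at `t = 0` as `X ≠ 0`, and `∑ m_j = 1`: limit
`- deriv (cut d) (‖X‖^(2-n)) (n-2)^2 ‖X‖^(2-2n) = bt n d 1 X` (`bt_formula`, `T = 1`).
-/

set_option autoImplicit false

open MeasureTheory Set Filter Topology
open scoped ENNReal ContDiff

namespace Pool.Agent.Lib.MP_6cd19d_an.ND

private theorem b14_pn {n : ℕ} (hn : 3 ≤ n) : 0 < (n : ℝ) - 2 := by
  have : (3 : ℝ) ≤ n := by exact_mod_cast hn
  linarith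

/-- The limit function in the parameter `t`. -/
private noncomputable def b14F (n : ℕ) (d : ℝ) {N : ℕ} (m : Fin N → ℝ) (y : Fin N → E n) (X : E n)
    (t : ℝ) : ℝ :=
  -deriv (cut d) (∑ j, m j * ‖X - t • y j‖ ^ (2 - (n : ℝ))) *
    ∑ i : Fin n, (∑ j, m j * ((2 - (n : ℝ)) * ((X - t • y j) i * ‖X - t • y j‖ ^ (-(n : ℝ))))) ^ 2

private theorem b14_far {n : ℕ} (hn : 3 ≤ n) {d T : ℝ} (hd1 : d < 1) (hT : 0 < T) {z : E n}
    (hz : ((1 - d) * T) ^ (-1 / ((n : ℝ) - 2)) < ‖z‖) :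
    ‖z‖ ^ (2 - (n : ℝ)) ≤ (1 - d) * T := by
  have hp := b14_pn hn
  have h0 : 0 < (1 - d) * T := mul_pos (by linarith) hT
  have h1 : 0 < ((1 - d) * T) ^ (-1 / ((n : ℝ) - 2)) := Real.rpow_pos_of_pos h0 _
  have h2 := Real.rpow_le_rpow_of_nonpos h1 hz.le (show 2 - (n : ℝ) ≤ 0 by linarith)
  refine h2.trans (le_of_eq ?_)
  rw [← Real.rpow_mul h0.le]
  have h3 : -1 / ((n : ℝ) - 2) * (2 - (n : ℝ)) = 1 := by
    field_simp
    ring
  rw [h3, Real.rpow_one]

private theorem b14_pd_nk {n : ℕ} (hn : 3 ≤ n) {d T : ℝ} (hd : 0 < d) (hd1 : d < 1) (hT : 0 < T)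
    {z : E n} (hz : ((1 - d) * T) ^ (-1 / ((n : ℝ) - 2)) < ‖z‖) (i : Fin n) :
    pd i (nk n d T) z = (2 - (n : ℝ)) * (z i * ‖z‖ ^ (-(n : ℝ))) := by
  have hp := b14_pn hn
  have h0 : 0 < (1 - d) * T := mul_pos (by linarith) hT
  have h1 : 0 < ((1 - d) * T) ^ (-1 / ((n : ℝ) - 2)) := Real.rpow_pos_of_pos h0 _
  have hz0 : 0 < ‖z‖ := h1.trans hz
  have hev : nk n d T =ᶠ[𝓝 z] fun w => (fun ρ : ℝ => ρ ^ ((2 - (n : ℝ)) / 2)) (‖w‖ ^ 2) := by
    have h2 : ∀ᶠ w in 𝓝 z, ((1 - d) * T) ^ (-1 / ((n : ℝ) - 2)) < ‖w‖ :=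
      (continuous_norm.tendsto z).eventually (lt_mem_nhds hz)
    filter_upwards [h2] with w hw
    have hw0 : 0 < ‖w‖ := h1.trans hw
    rw [nk_eq hn hd hd1 hT (norm_pos_iff.mp hw0) (b14_far hn hd1 hT hw)]
    show _ = (‖w‖ ^ 2) ^ ((2 - (n : ℝ)) / 2)
    rw [← Real.rpow_natCast, ← Real.rpow_mul hw0.le]
    congr 1
    push_cast
    ring
  have hz2 : 0 < ‖z‖ ^ 2 := by positivity
  have hcd : ContDiffAt ℝ 2 (fun ρ : ℝ => ρ ^ ((2 - (n : ℝ)) / 2)) (‖z‖ ^ 2) :=
    contDiffAt_id.rpow_const_of_ne hz2.ne'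
  rw [pd_congr hev, pd_radial hcd]
  rw [(Real.hasDerivAt_rpow_const (Or.inl hz2.ne')).deriv]
  have h3 : (‖z‖ ^ 2) ^ ((2 - (n : ℝ)) / 2 - 1) = ‖z‖ ^ (-(n : ℝ)) := by
    rw [← Real.rpow_natCast, ← Real.rpow_mul hz0.le]
    congr 1
    push_cast
    ring
  rw [h3]
  ring

private theorem b14_eq {n : ℕ} (hn : 3 ≤ n) {d T : ℝ} (hd : 0 < d) (hd1 : d < 1) (hT : 0 < T)
    {N : ℕ} {m : Fin N → ℝ} (hm : ∀ j, 0 ≤ m j) (y : Fin N → E n) {X : E n} {s t : ℝ}
    (hs : 0 < s) (ht : t = s ^ (1 / ((n : ℝ) - 2))) (ht0 : 0 < t)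
    (h : ∀ j, ((1 - d) * T) ^ (-1 / ((n : ℝ) - 2)) < t⁻¹ * ‖X - t • y j‖) :
    sc n d (UU n d T m y) s X = b14F n d m y X t := by
  have hp := b14_pn hn
  have hU : GoodU (UU n d T m y) := goodU_sum hn hd hd1 hT hm y
  have hρ : 0 < ((1 - d) * T) ^ (-1 / ((n : ℝ) - 2)) :=
    Real.rpow_pos_of_pos (mul_pos (by linarith) hT) _
  have htp : t ^ ((n : ℝ) - 2) = s := by
    rw [ht, ← Real.rpow_mul hs.le, one_div, inv_mul_cancel₀ hp.ne', Real.rpow_one]
  have htn : t ^ (n : ℝ) = s * t ^ 2 := by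
    rw [← htp, ← Real.rpow_natCast, ← Real.rpow_add ht0]
    congr 1
    push_cast
    ring
  -- the points
  have hz : ∀ j, t⁻¹ • X - y j = t⁻¹ • (X - t • y j) := by
    intro j
    rw [smul_sub, smul_smul, inv_mul_cancel₀ ht0.ne', one_smul]
  have hzn : ∀ j, ‖t⁻¹ • X - y j‖ = t⁻¹ * ‖X - t • y j‖ := by
    intro j
    rw [hz, norm_smul, Real.norm_of_nonneg (by positivity)]
  have hfar : ∀ j, ((1 - d) * T) ^ (-1 / ((n : ℝ) - 2)) < ‖t⁻¹ • X - y j‖ := by
    intro j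
    rw [hzn]
    exact h j
  have hnn : ∀ j, 0 ≤ ‖X - t • y j‖ := fun j => norm_nonneg _
  have hti : 0 ≤ t⁻¹ := by positivity
  have hnkx : ∀ j, nk n d T (t⁻¹ • X - y j) = s * ‖X - t • y j‖ ^ (2 - (n : ℝ)) := by
    intro j
    rw [nk_eq hn hd hd1 hT (norm_pos_iff.mp (hρ.trans (hfar j))) (b14_far hn hd1 hT (hfar j)),
      hzn, Real.mul_rpow hti (hnn j), Real.inv_rpow ht0.le, ← Real.rpow_neg ht0.le,
      show -(2 - (n : ℝ)) = (n : ℝ) - 2 by ring, htp]
  have hUx : UU n d T m y (t⁻¹ • X) / s = ∑ j, m j * ‖X - t • y j‖ ^ (2 - (n : ℝ)) := by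
    unfold UU
    rw [Finset.sum_div]
    refine Finset.sum_congr rfl fun j _ => ?_
    rw [hnkx]
    field_simp
  have hlap : lap (UU n d T m y) (t⁻¹ • X) = 0 := by
    rw [lap_UU hn hd hd1 hT]
    have : ∀ j ∈ Finset.univ, m j * bt n d T (t⁻¹ • X - y j) = 0 := by
      intro j _
      rw [bt_eq_zero hn hd hd1 hT (Or.inr (hfar j)), mul_zero]
    rw [Finset.sum_eq_zero this, neg_zero]
  have hpd : ∀ i : Fin n, pd i (UU n d T m y) (t⁻¹ • X) =
      s * t * ∑ j, m j * ((2 - (n : ℝ)) * ((X - t • y j) i * ‖X - t • y j‖ ^ (-(n : ℝ)))) := by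
    intro i
    have hk := contDiff_nk hn hd hd1 hT
    have hf : ∀ j, ContDiff ℝ ∞ (fun z : E n => nk n d T (z - y j)) := fun j =>
      hk.comp (contDiff_id.sub contDiff_const)
    have h1 : pd i (UU n d T m y) (t⁻¹ • X) =
        ∑ j, m j * pd i (fun z : E n => nk n d T (z - y j)) (t⁻¹ • X) := pd_sum hf m i _
    rw [h1, Finset.mul_sum]
    refine Finset.sum_congr rfl fun j _ => ?_
    rw [pd_sub_right hk, b14_pd_nk hn hd hd1 hT (hfar j), hzn, Real.mul_rpow hti (hnn j),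
      Real.inv_rpow ht0.le, ← Real.rpow_neg ht0.le, neg_neg, htn, hz]
    have h2 : (t⁻¹ • (X - t • y j)) i = t⁻¹ * (X - t • y j) i := rfl
    rw [h2]
    field_simp
  unfold sc
  rw [← ht, rr_formula d hU hs, hUx, hlap, Real.rpow_neg ht0.le, htn]
  simp_rw [hpd, mul_pow]
  rw [← Finset.mul_sum]
  unfold b14F
  field_simp
  ring

private theorem b14_cont {n : ℕ} (d : ℝ) {N : ℕ} (m : Fin N → ℝ) (y : Fin N → E n) {X : E n}
    (hX : X ≠ 0) : ContinuousAt (b14F n d m y X) 0 := by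
  have hc : ∀ j, ContinuousAt (fun t : ℝ => X - t • y j) 0 := fun j => by fun_prop
  have h0 : ∀ j, X - (0 : ℝ) • y j ≠ 0 := fun j => by simpa using hX
  have hr : ∀ (j : Fin N) (a : ℝ), ContinuousAt (fun t : ℝ => ‖X - t • y j‖ ^ a) 0 := fun j a =>
    (hc j).norm.rpow_const (Or.inl (norm_ne_zero_iff.mpr (h0 j)))
  have hi : ∀ (j : Fin N) (i : Fin n), ContinuousAt (fun t : ℝ => (X - t • y j) i) 0 := by
    intro j i
    have : (fun t : ℝ => (X - t • y j) i) = fun t : ℝ => X i - t * y j i := by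
      funext t
      simp
    rw [this]
    fun_prop
  have hdc : Continuous (deriv (cut d)) := (contDiff_infty_iff_deriv.mp (contDiff_cut d)).2.continuous
  unfold b14F
  refine ContinuousAt.mul (ContinuousAt.neg (hdc.continuousAt.comp ?_)) ?_
  · exact tendsto_finsetSum _ fun j _ => continuousAt_const.mul (hr j _)
  · refine tendsto_finsetSum _ fun i _ => ContinuousAt.pow ?_ 2
    exact tendsto_finsetSum _ fun j _ =>
      continuousAt_const.mul (continuousAt_const.mul ((hi j i).mul (hr j _)))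

private theorem b14_zero {n : ℕ} (hn : 3 ≤ n) {d : ℝ} (hd : 0 < d) (hd1 : d < 1) {N : ℕ}
    {m : Fin N → ℝ} (hm1 : ∑ j, m j = 1) (y : Fin N → E n) {X : E n}
    (hX : X ≠ 0) : b14F n d m y X 0 = bt n d 1 X := by
  have hX0 : 0 < ‖X‖ := norm_pos_iff.mpr hX
  rw [bt_formula hn hd hd1 one_pos hX]
  unfold b14F
  simp only [zero_smul, sub_zero, div_one]
  rw [← Finset.sum_mul, hm1, one_mul]
  simp_rw [← Finset.sum_mul]
  simp only [hm1, one_mul, mul_pow]
  rw [← Finset.mul_sum, ← Finset.sum_mul]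
  have h1 : ∑ i : Fin n, X i ^ 2 = ‖X‖ ^ 2 := by
    rw [EuclideanSpace.norm_sq_eq]
    refine Finset.sum_congr rfl fun i _ => ?_
    rw [Real.norm_eq_abs, sq_abs]
  rw [h1]
  have h2 : ‖X‖ ^ 2 * (‖X‖ ^ (-(n : ℝ))) ^ 2 = ‖X‖ ^ (2 - 2 * (n : ℝ)) := by
    rw [← Real.rpow_natCast, ← Real.rpow_natCast, ← Real.rpow_mul hX0.le, ← Real.rpow_add hX0]
    congr 1
    push_cast
    ring
  rw [h2]
  ring

theorem sc_tendsto {n : ℕ} (hn : 3 ≤ n) {d T : ℝ} (hd : 0 < d) (hd1 : d < 1) (hT : 0 < T)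
    {N : ℕ} {m : Fin N → ℝ} (hm : ∀ j, 0 ≤ m j) (hm1 : ∑ j, m j = 1) (y : Fin N → E n)
    {X : E n} (hX : X ≠ 0) :
    Tendsto (fun s : ℝ => sc n d (UU n d T m y) s X) (𝓝[>] 0) (𝓝 (bt n d 1 X)) := by
  have hp := b14_pn hn
  have hX0 : 0 < ‖X‖ := norm_pos_iff.mpr hX
  -- `t → 0+`
  have ht : Tendsto (fun s : ℝ => s ^ (1 / ((n : ℝ) - 2))) (𝓝[>] 0) (𝓝[>] 0) := by
    rw [tendsto_nhdsWithin_iff]
    constructor
    · have h1 : ContinuousAt (fun s : ℝ => s ^ (1 / ((n : ℝ) - 2))) 0 :=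
        Real.continuousAt_rpow_const _ _ (Or.inr (by positivity))
      have h2 := h1.tendsto
      rw [Real.zero_rpow (by positivity)] at h2
      exact h2.mono_left nhdsWithin_le_nhds
    · filter_upwards [self_mem_nhdsWithin] with s hs
      exact Real.rpow_pos_of_pos hs _
  have hfar : ∀ᶠ t in 𝓝[>] (0 : ℝ), ∀ j : Fin N,
      ((1 - d) * T) ^ (-1 / ((n : ℝ) - 2)) < t⁻¹ * ‖X - t • y j‖ := by
    rw [eventually_all]
    intro j
    have h1 : Tendsto (fun t : ℝ => t⁻¹ * ‖X - t • y j‖) (𝓝[>] 0) atTop := by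
      refine Tendsto.atTop_mul_pos hX0 tendsto_inv_nhdsGT_zero ?_
      have h2 : ContinuousAt (fun t : ℝ => ‖X - t • y j‖) 0 := by fun_prop
      have h3 := h2.tendsto
      simp only [zero_smul, sub_zero] at h3
      exact h3.mono_left nhdsWithin_le_nhds
    exact h1.eventually_gt_atTop _
  have hlim : Tendsto (fun s : ℝ => b14F n d m y X (s ^ (1 / ((n : ℝ) - 2)))) (𝓝[>] 0)
      (𝓝 (bt n d 1 X)) := by
    rw [← b14_zero hn hd hd1 hm1 y hX]
    exact ((b14_cont d m y hX).tendsto.mono_left nhdsWithin_le_nhds).comp ht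
  refine hlim.congr' ?_
  filter_upwards [ht.eventually hfar, self_mem_nhdsWithin] with s hs hs0
  exact (b14_eq hn hd hd1 hT hm y hs0 rfl (Real.rpow_pos_of_pos hs0 _) hs).symm

end Pool.Agent.Lib.MP_6cd19d_an.ND
end
end
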