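import Mathlib
import Pool.Agent.Lib.MP_6cd19d_an.ND.B14
import Pool.Agent.Lib.MP_6cd19d_an.ND.B07
import Pool.Agent.Lib.MP_6cd19d_an.ND.P5b

section

/-!
# B12: a concave function which is `O(s)` at `0+` has `Φ(s) / s` nonincreasing

Let `0 < s < t`. For `0 < u < s`, `s = λ u + (1-λ) t` with `λ = (t-s)/(t-u)`, so
`Φ s ≥ λ Φ u + (1-λ) Φ t`, `1 - λ = (s-u)/(t-u)`. As `u → 0+`: `Φ u → 0` (`|Φ u| ≤ C u`), `λ` bounded,
`1 - λ → s / t`: `Φ s ≥ (s/t) Φ t`.
-/

set_option autoImplicit false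

open Set Filter Topology

namespace Pool.Agent.Lib.MP_6cd19d_an.ND

theorem antitone_div_of_concave {Φ : ℝ → ℝ} (hΦ : ConcaveOn ℝ (Ioi 0) Φ) {C s1 : ℝ}
    (hs1 : 0 < s1) (hC : ∀ s, 0 < s → s < s1 → |Φ s| ≤ C * s) {s t : ℝ} (hs : 0 < s)
    (hst : s ≤ t) : Φ t / t ≤ Φ s / s := by
  rcases hst.eq_or_lt with h | h
  · rw [h]
  have ht : 0 < t := hs.trans h
  have key : ∀ᶠ u in 𝓝[>] (0 : ℝ), (t - s) * Φ u + (s - u) * Φ t ≤ (t - u) * Φ s := by
    have h1 : Ioo (0 : ℝ) s ∈ 𝓝[>] (0 : ℝ) := Ioo_mem_nhdsGT hs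
    filter_upwards [h1] with u hu
    have htu : 0 < t - u := by linarith [hu.2]
    have ha : 0 ≤ (t - s) / (t - u) := div_nonneg (by linarith) htu.le
    have hb : 0 ≤ (s - u) / (t - u) := div_nonneg (by linarith [hu.2]) htu.le
    have hab : (t - s) / (t - u) + (s - u) / (t - u) = 1 := by
      rw [← add_div, div_eq_one_iff_eq htu.ne']
      ring
    have hu0 : u ∈ Ioi (0 : ℝ) := hu.1
    have ht0 : t ∈ Ioi (0 : ℝ) := ht
    have h2 := hΦ.2 hu0 ht0 ha hb hab
    simp only [smul_eq_mul] at h2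
    have h3 : (t - s) / (t - u) * u + (s - u) / (t - u) * t = s := by
      field_simp
      ring
    rw [h3] at h2
    have h4 := mul_le_mul_of_nonneg_left h2 htu.le
    have h5 : (t - u) * ((t - s) / (t - u) * Φ u + (s - u) / (t - u) * Φ t)
        = (t - s) * Φ u + (s - u) * Φ t := by
      field_simp
    rw [h5] at h4
    exact h4
  have hΦ0 : Tendsto Φ (𝓝[>] (0 : ℝ)) (𝓝 0) := by
    have h1 : Tendsto (fun u : ℝ => C * u) (𝓝[>] (0 : ℝ)) (𝓝 0) := by
      have h2 : Tendsto (fun u : ℝ => C * u) (𝓝 (0 : ℝ)) (𝓝 (C * 0)) :=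
        (continuous_const.mul continuous_id).tendsto 0
      rw [mul_zero] at h2
      exact h2.mono_left nhdsWithin_le_nhds
    refine squeeze_zero_norm' ?_ h1
    have h2 : Ioo (0 : ℝ) s1 ∈ 𝓝[>] (0 : ℝ) := Ioo_mem_nhdsGT hs1
    filter_upwards [h2] with u hu
    rw [Real.norm_eq_abs]
    exact hC u hu.1 hu.2
  have hid : Tendsto (fun u : ℝ => u) (𝓝[>] (0 : ℝ)) (𝓝 0) :=
    tendsto_id.mono_left nhdsWithin_le_nhds
  have hL : Tendsto (fun u => (t - s) * Φ u + (s - u) * Φ t) (𝓝[>] (0 : ℝ))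
      (𝓝 ((t - s) * 0 + (s - 0) * Φ t)) :=
    (hΦ0.const_mul _).add ((tendsto_const_nhds.sub hid).mul_const _)
  have hR : Tendsto (fun u => (t - u) * Φ s) (𝓝[>] (0 : ℝ)) (𝓝 ((t - 0) * Φ s)) :=
    (tendsto_const_nhds.sub hid).mul_const _
  have hfin := le_of_tendsto_of_tendsto hL hR key
  rw [div_le_div_iff₀ ht hs]
  linarith

end Pool.Agent.Lib.MP_6cd19d_an.ND
end

section

section

/-!
# B15: the energy inequality for discrete measures

`fatou_limit`: `g ≤ C` on `[0, ∞)`. Let `s_k → 0+` (`k : ℕ`, `s_k ≤ 1`). The functions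
`G_k z = (C - g (‖z.1 - z.2‖^2)) * (sc s_k z.1 * sc s_k z.2) ≥ 0` on `E n × E n` converge for
`z.1 ≠ 0`, `z.2 ≠ 0` (a.e.) to `(C - g (‖z.1-z.2‖^2)) * (bt z.1 * bt z.2)`. Fatou (`lintegral_liminf_le`, with
`ENNReal.ofReal`), `∫ G_k = C cB^2 - Phi s_k / s_k` (`Phi_scale`, `integral_sc`, all continuous with compact
support) and `∫ limit = C cB^2 - Q`, `Q = ∫ g (‖z.1-z.2‖^2) bt z.1 bt z.2`. Hence
`C cB^2 - Q ≤ liminf (C cB^2 - Phi s_k/s_k)`. By `antitone_div_of_concave` (with `concaveOn_Phi`, `Phi_bound`)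
`Phi s0 / s0 ≤ Phi s_k / s_k` as soon as `s_k ≤ s0`; so `Phi s0 / s0 ≤ Q`.
If `U ≤ (1-d) s0` everywhere then `rr s0 = -lap U` (`rr_of_le`), so
`Phi s0 / s0 = ∫ g (s0^(2/(n-2)) ‖x-y‖^2) (-lap U x) (-lap U y)` and `lap_UU` gives the double sum:
`∑_i ∑_j m_i m_j ∫ g (s0^(2/(n-2)) ‖x - y‖^2) bt (x - y_i) bt (y - y_j)`; substitute `x → x + y_i`, `y → y + y_j`.
-/

set_option autoImplicit false

open MeasureTheory Set Filter Topology
open scoped ENNReal ContDiff

namespace Pool.Agent.Lib.MP_6cd19d_an.ND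

/-- The limiting energy. -/
noncomputable def QB (n : ℕ) (g : ℝ → ℝ) (d : ℝ) : ℝ :=
  ∫ z : E n × E n, g (‖z.1 - z.2‖ ^ 2) * (bt n d 1 z.1 * bt n d 1 z.2)

/-- The mollified kernel. -/
noncomputable def GT (n : ℕ) (g : ℝ → ℝ) (d T b : ℝ) (w : E n) : ℝ :=
  ∫ z : E n × E n, g (b * ‖w + z.1 - z.2‖ ^ 2) * (bt n d T z.1 * bt n d T z.2)

private theorem b15_cont_g {n : ℕ} {g : ℝ → ℝ} {η : ℝ} (hg : GoodG n g η) {X : Type*}
    [TopologicalSpace X] {h : X → ℝ} (hh : Continuous h) (h0 : ∀ x, 0 ≤ h x) :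
    Continuous (fun x => g (h x)) := by
  refine hg.smooth.continuousOn.comp_continuous hh fun x => ?_
  have := hg.pos
  have := h0 x
  simp only [mem_Ioi]
  linarith

private theorem b15_cont_bt {n : ℕ} (hn : 3 ≤ n) {d T : ℝ} (hd : 0 < d) (hd1 : d < 1)
    (hT : 0 < T) : Continuous (bt n d T) := by
  unfold bt
  exact (contDiff_lap (contDiff_nk hn hd hd1 hT)).continuous.neg

private theorem b15_cs {n : ℕ} {f h : E n → ℝ} {R : ℝ} (hf : ∀ x, R < ‖x‖ → f x = 0)
    (hh : ∀ x, R < ‖x‖ → h x = 0) (k : E n × E n → ℝ) :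
    HasCompactSupport (fun z : E n × E n => k z * (f z.1 * h z.2)) := by
  refine HasCompactSupport.intro (isCompact_closedBall (0 : E n × E n) R) fun z hz => ?_
  rw [Metric.mem_closedBall, dist_zero_right, Prod.norm_def, max_le_iff, not_and_or] at hz
  rcases hz with h1 | h1
  · rw [hf z.1 (not_le.1 h1)]
    simp
  · rw [hh z.2 (not_le.1 h1)]
    simp

private theorem b15_bt_bdd {n : ℕ} (hn : 3 ≤ n) {d T : ℝ} (hd : 0 < d) (hd1 : d < 1)
    (hT : 0 < T) : ∃ R : ℝ, ∀ x : E n, R < ‖x‖ → bt n d T x = 0 :=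
  ⟨_, fun _ hx => bt_eq_zero hn hd hd1 hT (Or.inr hx)⟩

private theorem b15_integrable {n : ℕ} {f h : E n → ℝ} {R : ℝ} (hf : ∀ x, R < ‖x‖ → f x = 0)
    (hh : ∀ x, R < ‖x‖ → h x = 0) (hfc : Continuous f) (hhc : Continuous h)
    {k : E n × E n → ℝ} (hk : Continuous k) :
    Integrable (fun z : E n × E n => k z * (f z.1 * h z.2)) := by
  have hc : Continuous (fun z : E n × E n => k z * (f z.1 * h z.2)) :=
    hk.mul ((hfc.comp continuous_fst).mul (hhc.comp continuous_snd))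
  exact hc.integrable_of_hasCompactSupport (b15_cs hf hh k)

private theorem b15_goodU {n : ℕ} (hn : 3 ≤ n) {d T : ℝ} (hd : 0 < d) (hd1 : d < 1) (hT : 0 < T)
    {N : ℕ} {m : Fin N → ℝ} (hm : ∀ j, 0 ≤ m j) (y : Fin N → E n) : GoodU (UU n d T m y) :=
  goodU_sum hn hd hd1 hT hm y

/-- Mass identity for the difference with a constant. -/
private theorem b15_split {n : ℕ} {g : ℝ → ℝ} {η : ℝ} (hg : GoodG n g η) (C : ℝ)
    {f : E n → ℝ} {R : ℝ} (hf : ∀ x, R < ‖x‖ → f x = 0) (hfc : Continuous f) :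
    Integrable (fun z : E n × E n => (C - g (‖z.1 - z.2‖ ^ 2)) * (f z.1 * f z.2)) ∧
    ∫ z : E n × E n, (C - g (‖z.1 - z.2‖ ^ 2)) * (f z.1 * f z.2) =
      C * (∫ x, f x) ^ 2 - ∫ z : E n × E n, g (‖z.1 - z.2‖ ^ 2) * (f z.1 * f z.2) := by
  have hgc : Continuous (fun z : E n × E n => g (‖z.1 - z.2‖ ^ 2)) :=
    b15_cont_g hg ((continuous_fst.sub continuous_snd).norm.pow 2) fun z => by positivity
  have h1 := b15_integrable hf hf hfc hfc (k := fun _ => C) continuous_const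
  have h2 := b15_integrable hf hf hfc hfc (k := fun z => g (‖z.1 - z.2‖ ^ 2)) hgc
  have h3 : ∀ z : E n × E n, (C - g (‖z.1 - z.2‖ ^ 2)) * (f z.1 * f z.2) =
      C * (f z.1 * f z.2) - g (‖z.1 - z.2‖ ^ 2) * (f z.1 * f z.2) := fun z => by ring
  constructor
  · exact (h1.sub h2).congr (Eventually.of_forall fun z => (h3 z).symm)
  · rw [integral_congr_ae (Eventually.of_forall h3), integral_sub h1 h2, integral_const_mul]
    congr 2
    rw [Measure.volume_eq_prod, integral_prod_mul, sq]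

theorem Phi_div_le {n : ℕ} (hn : 3 ≤ n) {g : ℝ → ℝ} {η : ℝ} (hg : GoodG n g η) {C : ℝ}
    (hC : ∀ ρ, 0 ≤ ρ → g ρ ≤ C) {d T : ℝ} (hd : 0 < d) (hd1 : d < 1) (hT : 0 < T)
    {N : ℕ} {m : Fin N → ℝ} (hm : ∀ j, 0 ≤ m j) (hm1 : ∑ j, m j = 1) (y : Fin N → E n)
    {s0 : ℝ} (hs0 : 0 < s0) : Phi n g d (UU n d T m y) s0 / s0 ≤ QB n g d := by
  have hU : GoodU (UU n d T m y) := b15_goodU hn hd hd1 hT hm y
  obtain ⟨R, hR, hsupp⟩ := sc_supp hn hd hd1 hT hm hm1 y
  obtain ⟨C', hC'⟩ := Phi_bound hn hg hd hd1 hT hm hm1 y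
  have hconc := concaveOn_Phi hn hg hd hd1 hU
  have hanti : ∀ s, 0 < s → s ≤ s0 → Phi n g d (UU n d T m y) s0 / s0 ≤
      Phi n g d (UU n d T m y) s / s := fun s hs hss =>
    antitone_div_of_concave hconc one_pos hC' hs hss
  -- the sequence
  set u : ℕ → ℝ := fun k => min s0 1 / (k + 1) with hu
  have hm0 : 0 < min s0 1 := lt_min hs0 one_pos
  have hupos : ∀ k, 0 < u k := fun k => by
    have : (0 : ℝ) < (k : ℝ) + 1 := by positivity
    exact div_pos hm0 this
  have hule : ∀ k, u k ≤ min s0 1 := fun k => by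
    have : (1 : ℝ) ≤ (k : ℝ) + 1 := by
      have : (0 : ℝ) ≤ (k : ℝ) := Nat.cast_nonneg k
      linarith
    exact div_le_self hm0.le this
  have hule0 : ∀ k, u k ≤ s0 := fun k => (hule k).trans (min_le_left _ _)
  have hule1 : ∀ k, u k ≤ 1 := fun k => (hule k).trans (min_le_right _ _)
  have hulim : Tendsto u atTop (𝓝[>] 0) := by
    rw [tendsto_nhdsWithin_iff]
    constructor
    · have h1 := tendsto_one_div_add_atTop_nhds_zero_nat (𝕜 := ℝ)
      have h2 := h1.const_mul (min s0 1)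
      rw [mul_zero] at h2
      refine h2.congr fun k => ?_
      rw [hu]
      ring
    · exact Eventually.of_forall hupos
  set G : ℕ → E n × E n → ℝ := fun k z => (C - g (‖z.1 - z.2‖ ^ 2)) *
    (sc n d (UU n d T m y) (u k) z.1 * sc n d (UU n d T m y) (u k) z.2) with hG
  have hGnn : ∀ k z, 0 ≤ G k z := fun k z =>
    mul_nonneg (by have := hC (‖z.1 - z.2‖ ^ 2) (by positivity); linarith)
      (mul_nonneg (sc_nonneg hd hU (hupos k) _) (sc_nonneg hd hU (hupos k) _))
  have hGs : ∀ k, Integrable (G k) ∧ ∫ z, G k z = C * cB n d ^ 2 -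
      Phi n g d (UU n d T m y) (u k) / u k := by
    intro k
    have h1 := b15_split hg C (fun x hx => hsupp (u k) (hupos k) (hule1 k) x hx)
      (continuous_sc hd hU (hupos k))
    rw [integral_sc hn hd hd1 hT hm hm1 y (hupos k)] at h1
    rw [Phi_scale hn g d _ (hupos k)]
    exact h1
  obtain ⟨R', hR'⟩ := b15_bt_bdd hn (n := n) hd hd1 (T := 1) one_pos
  have hlimI := b15_split hg C hR' (b15_cont_bt hn hd hd1 one_pos)
  have hlnn : ∀ z : E n × E n, 0 ≤ (C - g (‖z.1 - z.2‖ ^ 2)) * (bt n d 1 z.1 * bt n d 1 z.2) :=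
    fun z => mul_nonneg (by have := hC (‖z.1 - z.2‖ ^ 2) (by positivity); linarith)
      (mul_nonneg (bt_nonneg hn hd hd1 one_pos _) (bt_nonneg hn hd hd1 one_pos _))
  set b : ℝ := C * cB n d ^ 2 - Phi n g d (UU n d T m y) s0 / s0 with hb
  have hkb : ∀ k, ∫ z, G k z ≤ b := by
    intro k
    rw [(hGs k).2, hb]
    have := hanti (u k) (hupos k) (hule0 k)
    linarith
  have hb0 : 0 ≤ b := (integral_nonneg (hGnn 0)).trans (hkb 0)
  -- a.e. convergence
  have hae : ∀ᵐ z : E n × E n, z.1 ≠ 0 ∧ z.2 ≠ 0 := by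
    have hx : ∀ᵐ x : E n, x ≠ 0 := by
      have : Nonempty (Fin n) := ⟨⟨0, by omega⟩⟩
      have : Nontrivial (E n) := by infer_instance
      rw [ae_iff]
      simp only [not_not, Set.ofPred_eq_eq_singleton]
      exact measure_singleton 0
    have h1 : ∀ᵐ z : E n × E n, z.1 ≠ 0 :=
      (Measure.quasiMeasurePreserving_fst (μ := (volume : Measure (E n)))
        (ν := (volume : Measure (E n)))).ae hx
    have h2 : ∀ᵐ z : E n × E n, z.2 ≠ 0 :=
      (Measure.quasiMeasurePreserving_snd (μ := (volume : Measure (E n)))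
        (ν := (volume : Measure (E n)))).ae hx
    filter_upwards [h1, h2] with z hz1 hz2 using ⟨hz1, hz2⟩
  have hconv : ∀ᵐ z : E n × E n, ENNReal.ofReal ((C - g (‖z.1 - z.2‖ ^ 2)) *
      (bt n d 1 z.1 * bt n d 1 z.2)) = liminf (fun k => ENNReal.ofReal (G k z)) atTop := by
    filter_upwards [hae] with z hz
    symm
    apply Tendsto.liminf_eq
    apply (ENNReal.continuous_ofReal.tendsto _).comp
    have h1 := (sc_tendsto hn hd hd1 hT hm hm1 y hz.1).comp hulim
    have h2 := (sc_tendsto hn hd hd1 hT hm hm1 y hz.2).comp hulim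
    exact (h1.mul h2).const_mul _
  have hfatou : ∫⁻ z : E n × E n, ENNReal.ofReal ((C - g (‖z.1 - z.2‖ ^ 2)) *
      (bt n d 1 z.1 * bt n d 1 z.2)) ≤ ENNReal.ofReal b := by
    rw [lintegral_congr_ae hconv]
    refine (lintegral_liminf_le' fun k => ?_).trans ?_
    · exact (hGs k).1.aestronglyMeasurable.aemeasurable.ennreal_ofReal
    · have h1 : ∀ k, ∫⁻ z, ENNReal.ofReal (G k z) ≤ ENNReal.ofReal b := by
        intro k
        rw [← ofReal_integral_eq_lintegral_ofReal (hGs k).1 (Eventually.of_forall (hGnn k))]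
        exact ENNReal.ofReal_le_ofReal (hkb k)
      calc liminf (fun k => ∫⁻ z, ENNReal.ofReal (G k z)) atTop
          ≤ liminf (fun _ : ℕ => ENNReal.ofReal b) atTop :=
            liminf_le_liminf (Eventually.of_forall h1)
        _ = ENNReal.ofReal b := liminf_const _
  rw [← ofReal_integral_eq_lintegral_ofReal hlimI.1 (Eventually.of_forall hlnn),
    ENNReal.ofReal_le_ofReal_iff hb0, hlimI.2, hb] at hfatou
  have hcb : (∫ x, bt n d 1 x) = cB n d := rfl
  rw [hcb] at hfatou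
  unfold QB
  linarith

theorem discrete_ineq {n : ℕ} (hn : 3 ≤ n) {g : ℝ → ℝ} {η : ℝ} (hg : GoodG n g η) {C : ℝ}
    (hC : ∀ ρ, 0 ≤ ρ → g ρ ≤ C) {d T : ℝ} (hd : 0 < d) (hd1 : d < 1) (hT : 0 < T)
    {N : ℕ} {m : Fin N → ℝ} (hm : ∀ j, 0 ≤ m j) (hm1 : ∑ j, m j = 1) (y : Fin N → E n)
    {s0 : ℝ} (hs0 : 0 < s0) (hU : ∀ x, UU n d T m y x ≤ (1 - d) * s0) :
    ∑ i, ∑ j, m i * m j * GT n g d T (s0 ^ (2 / ((n : ℝ) - 2))) (y i - y j) ≤ QB n g d := by
  have hGU : GoodU (UU n d T m y) := b15_goodU hn hd hd1 hT hm y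
  refine le_trans (le_of_eq ?_) (Phi_div_le hn hg hC hd hd1 hT hm hm1 y hs0)
  set b : ℝ := s0 ^ (2 / ((n : ℝ) - 2)) with hb
  have hb0 : 0 ≤ b := Real.rpow_nonneg hs0.le _
  obtain ⟨R, hR⟩ := b15_bt_bdd (n := n) hn hd hd1 hT
  have hbc : Continuous (bt n d T) := b15_cont_bt hn hd hd1 hT
  have h1 : Phi n g d (UU n d T m y) s0 / s0 =
      ∫ z : E n × E n, ∑ i, ∑ j, m i * m j * (g (b * ‖z.1 - z.2‖ ^ 2) *
        (bt n d T (z.1 - y i) * bt n d T (z.2 - y j))) := by
    unfold Phi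
    rw [← integral_div]
    congr 1
    funext z
    rw [rr_of_le hd hd1 hGU hs0 hU, rr_of_le hd hd1 hGU hs0 hU, lap_UU hn hd hd1 hT,
      lap_UU hn hd hd1 hT, neg_neg, neg_neg, Finset.sum_mul_sum, Finset.mul_sum, Finset.sum_div]
    refine Finset.sum_congr rfl fun i _ => ?_
    rw [Finset.mul_sum, Finset.sum_div]
    refine Finset.sum_congr rfl fun j _ => ?_
    unfold ks
    rw [← hb]
    field_simp
  have hgc : Continuous (fun z : E n × E n => g (b * ‖z.1 - z.2‖ ^ 2)) :=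
    b15_cont_g hg (continuous_const.mul ((continuous_fst.sub continuous_snd).norm.pow 2))
      fun z => by positivity
  have hint : ∀ i j : Fin N, Integrable (fun z : E n × E n => m i * m j *
      (g (b * ‖z.1 - z.2‖ ^ 2) * (bt n d T (z.1 - y i) * bt n d T (z.2 - y j)))) := by
    intro i j
    apply Integrable.const_mul
    refine b15_integrable (f := fun x => bt n d T (x - y i)) (h := fun x => bt n d T (x - y j))
      (R := R + ‖y i‖ + ‖y j‖) ?_ ?_ (hbc.comp (continuous_id.sub continuous_const))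
      (hbc.comp (continuous_id.sub continuous_const)) hgc
    · intro x hx
      apply hR
      have := norm_sub_norm_le x (y i)
      have := norm_nonneg (y j)
      linarith
    · intro x hx
      apply hR
      have := norm_sub_norm_le x (y j)
      have := norm_nonneg (y i)
      linarith
  rw [h1, integral_finsetSum _ fun i _ => integrable_finsetSum _ fun j _ => hint i j]
  refine Finset.sum_congr rfl fun i _ => ?_
  rw [integral_finsetSum _ fun j _ => hint i j]
  refine Finset.sum_congr rfl fun j _ => ?_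
  rw [integral_const_mul]
  congr 1
  unfold GT
  have hinv : (volume : Measure (E n × E n)).IsAddRightInvariant := by
    rw [Measure.volume_eq_prod]
    infer_instance
  rw [← integral_sub_right_eq_self (μ := (volume : Measure (E n × E n)))
    (fun z : E n × E n => g (b * ‖y i - y j + z.1 - z.2‖ ^ 2) * (bt n d T z.1 * bt n d T z.2))
    (y i, y j)]
  congr 1
  funext z
  simp only [Prod.fst_sub, Prod.snd_sub]
  congr 4
  abel_nf

end Pool.Agent.Lib.MP_6cd19d_an.ND
end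

section

/-!
# B16: the energy inequality for measures with bounded Newton potential

`GT_continuous`: continuity in `(b, w)` jointly for `b ≥ 0`: the integrand is continuous in all variables and
supported (in `z`) in a fixed compact set (`hasCompactSupport_bt`), so dominated convergence.
`energy_T` (fixed `T`): `μ` a probability measure on the compact set `K`, `s0 > M / (1-d)`. Let `S_N : E n → E n` be
simple functions converging to the identity uniformly on `K` with values in a bounded set (`SimpleFunc.approxOn`,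
or a finite partition of `K` into Borel sets of small diameter); `μ_N = μ.map S_N` is a finite sum
`∑ m_j δ_{y_j}`. `nk` is Lipschitz (smooth, and equal to `‖z‖^(2-n)` for large `z`: bounded gradient), constant `L`:
`∑ m_j nk (x - y_j) = ∫ nk (x - S_N ξ) dμ ≤ ∫ nk (x - ξ) dμ + L ∫ ‖S_N ξ - ξ‖ dμ ≤ M + L ε_N ≤ (1-d) s0` for
large `N` (`nk (x-ξ) ≤ ‖x-ξ‖^(2-n)` for `ξ ≠ x`, `μ {x} = 0` because `pot` is finite, `hpot`). By `discrete_ineq`
`∬ GT (S_N ξ - S_N ξ') dμ dμ ≤ QB`; `N → ∞` with `GT` continuous: `∬ GT (ξ - ξ') dμ dμ ≤ QB`, for every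
`s0 > M/(1-d)`; let `s0 → M/(1-d)` (`GT` continuous in `b`).
`energy_ineq`: `T → ∞`. `bt T` is `≥ 0`, has mass `cB` (`integral_bt`) and support in
`‖z‖ ≤ ((1-d) T)^(-1/(n-2)) → 0` (`bt_eq_zero`), so `GT T b w → cB^2 g (b ‖w‖^2)` uniformly for `w` in bounded sets
(`g` is uniformly continuous on compact subsets of `[0,∞)`).
-/

set_option autoImplicit false

open MeasureTheory Set Filter Topology
open scoped ENNReal ContDiff

namespace Pool.Agent.Lib.MP_6cd19d_an.ND

private theorem b16_cont_bt {n : ℕ} (hn : 3 ≤ n) {d T : ℝ} (hd : 0 < d) (hd1 : d < 1)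
    (hT : 0 < T) : Continuous (bt n d T) := by
  unfold bt
  exact (contDiff_lap (contDiff_nk hn hd hd1 hT)).continuous.neg

theorem GT_continuousOn {n : ℕ} (hn : 3 ≤ n) {g : ℝ → ℝ} {η : ℝ} (hg : GoodG n g η) {d T : ℝ}
    (hd : 0 < d) (hd1 : d < 1) (hT : 0 < T) :
    ContinuousOn (fun p : ℝ × E n => GT n g d T p.1 p.2) (Ici 0 ×ˢ univ) := by
  set R : ℝ := ((1 - d) * T) ^ (-1 / ((n : ℝ) - 2)) with hR
  have hbt : ∀ x : E n, R < ‖x‖ → bt n d T x = 0 := fun x hx =>
    bt_eq_zero hn hd hd1 hT (Or.inr hx)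
  have hbc := b16_cont_bt (n := n) hn hd hd1 hT
  unfold GT
  refine continuousOn_integral_of_compact_support
    (f := fun (p : ℝ × E n) (z : E n × E n) =>
      g (p.1 * ‖p.2 + z.1 - z.2‖ ^ 2) * (bt n d T z.1 * bt n d T z.2))
    (k := Metric.closedBall (0 : E n × E n) R) (isCompact_closedBall _ _) ?_ ?_
  · have h1 : ContinuousOn (fun q : (ℝ × E n) × (E n × E n) =>
        g (q.1.1 * ‖q.1.2 + q.2.1 - q.2.2‖ ^ 2)) ((Ici 0 ×ˢ univ) ×ˢ univ) := by
      refine hg.smooth.continuousOn.comp ?_ ?_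
      · apply Continuous.continuousOn
        fun_prop
      · rintro ⟨⟨b, w⟩, z⟩ hq
        simp only [mem_prod, mem_Ici, mem_univ, and_true] at hq
        have h0 : 0 ≤ b * ‖w + z.1 - z.2‖ ^ 2 := by positivity
        have := hg.pos
        simp only [mem_Ioi]
        linarith
    have h2 : Continuous (fun q : (ℝ × E n) × (E n × E n) =>
        bt n d T q.2.1 * bt n d T q.2.2) :=
      (hbc.comp (continuous_fst.comp continuous_snd)).mul
        (hbc.comp (continuous_snd.comp continuous_snd))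
    exact h1.mul h2.continuousOn
  · intro p z _ hz
    rw [Metric.mem_closedBall, dist_zero_right, Prod.norm_def, max_le_iff, not_and_or] at hz
    rcases hz with h1 | h1
    · rw [hbt z.1 (not_le.1 h1)]
      simp
    · rw [hbt z.2 (not_le.1 h1)]
      simp

private theorem b16_ze_lip {d : ℝ} (v w : ℝ) : |ze d v - ze d w| ≤ |v - w| := by
  have h := (convex_univ (𝕜 := ℝ) (E := ℝ)).norm_image_sub_le_of_norm_hasDerivWithin_le
    (f := ze d) (f' := cut d) (C := 1) (x := w) (y := v)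
    (fun x _ => (hasDerivAt_ze d x).hasDerivWithinAt)
    (fun x _ => by
      rw [Real.norm_eq_abs, abs_of_nonneg (cut_nonneg d x)]
      exact cut_le_one d x) (mem_univ _) (mem_univ _)
  simpa [Real.norm_eq_abs] using h

private theorem b16_nk_form {n : ℕ} (hn : 3 ≤ n) {d T : ℝ} (hd : 0 < d) (hT : 0 < T)
    {r : ℝ} (hr : 0 < r) (hrT : r ^ (2 - (n : ℝ)) / T = 1 + d) (z : E n) :
    nk n d T z = T * ze d ((max ‖z‖ r) ^ (2 - (n : ℝ)) / T) := by
  have hn3 : (3 : ℝ) ≤ n := by exact_mod_cast hn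
  unfold nk gN
  rcases eq_or_ne z 0 with hz | hz
  · have h1 : ‖z‖ ^ 2 ≤ 0 := by rw [hz]; simp
    rw [if_pos h1, hz, norm_zero, max_eq_right hr.le, hrT]
  · have hz0 : 0 < ‖z‖ := norm_pos_iff.2 hz
    have h1 : ¬ ‖z‖ ^ 2 ≤ 0 := not_le.2 (by positivity)
    rw [if_neg h1]
    have h2 : (‖z‖ ^ 2) ^ ((2 - (n : ℝ)) / 2) = ‖z‖ ^ (2 - (n : ℝ)) := by
      rw [← Real.rpow_natCast ‖z‖ 2, ← Real.rpow_mul hz0.le]
      congr 1
      push_cast
      ring
    rw [h2]
    rcases le_total r ‖z‖ with h3 | h3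
    · rw [max_eq_left h3]
    · rw [max_eq_right h3, hrT]
      congr 1
      apply ze_const hd
      rw [← hrT]
      have hn0 : 2 - (n : ℝ) ≤ 0 := by linarith
      exact div_le_div_of_nonneg_right (Real.rpow_le_rpow_of_nonpos hz0 h3 hn0) hT.le

private theorem b16_rpow_lip {p r : ℝ} (hp : p ≤ 0) (hr : 0 < r) {a b : ℝ} (ha : r ≤ a)
    (hb : r ≤ b) : |a ^ p - b ^ p| ≤ |p| * r ^ (p - 1) * |a - b| := by
  have h := (convex_Ici (𝕜 := ℝ) r).norm_image_sub_le_of_norm_hasDerivWithin_le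
    (f := fun x : ℝ => x ^ p) (f' := fun x => p * x ^ (p - 1)) (C := |p| * r ^ (p - 1))
    (x := b) (y := a)
    (fun x hx => (Real.hasDerivAt_rpow_const (Or.inl (hr.trans_le hx).ne')).hasDerivWithinAt)
    (fun x hx => by
      have hx0 : 0 < x := hr.trans_le hx
      rw [Real.norm_eq_abs, abs_mul, abs_of_nonneg (Real.rpow_nonneg hx0.le _)]
      have hp1 : p - 1 ≤ 0 := by linarith
      exact mul_le_mul_of_nonneg_left (Real.rpow_le_rpow_of_nonpos hr hx hp1) (abs_nonneg p)) hb ha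
  simpa [Real.norm_eq_abs] using h

theorem nk_lipschitz {n : ℕ} (hn : 3 ≤ n) {d T : ℝ} (hd : 0 < d) (hd1 : d < 1) (hT : 0 < T) :
    ∃ L : NNReal, LipschitzWith L (nk n d T) := by
  have hn3 : (3 : ℝ) ≤ n := by exact_mod_cast hn
  have hn2 : (2 : ℝ) - n ≠ 0 := by linarith
  set r : ℝ := ((1 + d) * T) ^ (1 / (2 - (n : ℝ))) with hr
  have hr0 : 0 < r := Real.rpow_pos_of_pos (by positivity) _
  have hrT : r ^ (2 - (n : ℝ)) / T = 1 + d := by
    rw [hr, ← Real.rpow_mul (by positivity), one_div_mul_cancel hn2, Real.rpow_one]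
    field_simp
  refine ⟨(|2 - (n : ℝ)| * r ^ ((2 - (n : ℝ)) - 1)).toNNReal, LipschitzWith.of_dist_le_mul ?_⟩
  intro z w
  have hL0 : 0 ≤ |2 - (n : ℝ)| * r ^ ((2 - (n : ℝ)) - 1) := by positivity
  rw [Real.coe_toNNReal _ hL0, Real.dist_eq, b16_nk_form hn hd hT hr0 hrT z,
    b16_nk_form hn hd hT hr0 hrT w, ← mul_sub, abs_mul, abs_of_pos hT]
  calc T * |ze d (max ‖z‖ r ^ (2 - (n : ℝ)) / T) - ze d (max ‖w‖ r ^ (2 - (n : ℝ)) / T)|
      ≤ T * |max ‖z‖ r ^ (2 - (n : ℝ)) / T - max ‖w‖ r ^ (2 - (n : ℝ)) / T| :=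
        mul_le_mul_of_nonneg_left (b16_ze_lip _ _) hT.le
    _ = |max ‖z‖ r ^ (2 - (n : ℝ)) - max ‖w‖ r ^ (2 - (n : ℝ))| := by
        rw [← sub_div, abs_div, abs_of_pos hT]
        field_simp
    _ ≤ |2 - (n : ℝ)| * r ^ ((2 - (n : ℝ)) - 1) * |max ‖z‖ r - max ‖w‖ r| :=
        b16_rpow_lip (by linarith) hr0 (le_max_right _ _) (le_max_right _ _)
    _ ≤ |2 - (n : ℝ)| * r ^ ((2 - (n : ℝ)) - 1) * dist z w := by
        gcongr
        refine (abs_max_sub_max_le_abs _ _ _).trans ?_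
        rw [dist_eq_norm]
        exact abs_norm_sub_norm_le z w

/-- A probability measure pushed by a simple function is a finite convex combination of points. -/
private theorem b16_simple {n : ℕ} {μ : Measure (E n)} [IsProbabilityMeasure μ]
    (S : SimpleFunc (E n) (E n)) :
    ∃ (N : ℕ) (m : Fin N → ℝ) (y : Fin N → E n), (∀ j, 0 ≤ m j) ∧ ∑ j, m j = 1 ∧
      ∀ h : E n → ℝ, ∫ ξ, h (S ξ) ∂μ = ∑ j, m j * h (y j) := by
  classical
  set e := S.range.equivFin with he
  set M : E n → ℝ := fun v => μ.real (S ⁻¹' {v}) with hM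
  have key : ∀ h : E n → ℝ, ∫ ξ, h (S ξ) ∂μ = ∑ v ∈ S.range, M v * h v := by
    intro h
    have h1 : ∀ ξ, h (S ξ) = ∑ v ∈ S.range, (S ⁻¹' {v}).indicator (fun _ => h v) ξ := by
      intro ξ
      rw [Finset.sum_eq_single (S ξ)]
      · rw [indicator_of_mem]
        simp
      · intro v _ hv
        rw [indicator_of_notMem]
        simpa using fun h => hv h.symm
      · intro hv
        exact absurd (SimpleFunc.mem_range_self S ξ) hv
    simp_rw [h1]
    rw [integral_finsetSum]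
    · refine Finset.sum_congr rfl fun v _ => ?_
      rw [integral_indicator_const _ (S.measurableSet_fiber v), smul_eq_mul]
    · intro v _
      exact (integrable_const (h v)).indicator (S.measurableSet_fiber v)
  have conv : ∀ f : E n → ℝ, ∑ j : Fin S.range.card, f (e.symm j : E n) = ∑ v ∈ S.range, f v := by
    intro f
    rw [← Finset.sum_coe_sort S.range f]
    exact Equiv.sum_comp e.symm (fun v : S.range => f v)
  refine ⟨S.range.card, fun j => M (e.symm j), fun j => (e.symm j : E n),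
    fun j => measureReal_nonneg, ?_, ?_⟩
  · rw [conv M]
    have h2 := key (fun _ => 1)
    simp only [mul_one, integral_const, smul_eq_mul, probReal_univ] at h2
    exact h2.symm
  · intro h
    rw [key h, ← conv (fun v => M v * h v)]

/-- Dominated convergence for double integrals. -/
private theorem b16_dct {n : ℕ} {μ : Measure (E n)} [IsProbabilityMeasure μ] {K : Set (E n)}
    (hK : μ Kᶜ = 0) {F : ℕ → E n × E n → ℝ} {G : E n × E n → ℝ} (hF : ∀ k, Measurable (F k))
    {B : ℝ} (hB : ∀ k, ∀ x ∈ K, ∀ y ∈ K, |F k (x, y)| ≤ B)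
    (hlim : ∀ x ∈ K, ∀ y ∈ K, Tendsto (fun k => F k (x, y)) atTop (𝓝 (G (x, y)))) :
    Tendsto (fun k => ∫ x, ∫ y, F k (x, y) ∂μ ∂μ) atTop (𝓝 (∫ x, ∫ y, G (x, y) ∂μ ∂μ)) := by
  have hae : ∀ᵐ x ∂μ, x ∈ K := by
    rw [ae_iff]
    exact hK
  have hinner : ∀ x ∈ K, Tendsto (fun k => ∫ y, F k (x, y) ∂μ) atTop
      (𝓝 (∫ y, G (x, y) ∂μ)) := by
    intro x hx
    refine tendsto_integral_of_dominated_convergence (fun _ => B) ?_ (integrable_const _) ?_ ?_
    · intro k
      exact ((hF k).comp (measurable_const.prodMk measurable_id)).aestronglyMeasurable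
    · intro k
      filter_upwards [hae] with y hy
      rw [Real.norm_eq_abs]
      exact hB k x hx y hy
    · filter_upwards [hae] with y hy
      exact hlim x hx y hy
  refine tendsto_integral_of_dominated_convergence (fun _ => B) ?_ (integrable_const _) ?_ ?_
  · intro k
    exact ((hF k).stronglyMeasurable.integral_prod_right').aestronglyMeasurable
  · intro k
    filter_upwards [hae] with x hx
    rw [Real.norm_eq_abs]
    calc |∫ y, F k (x, y) ∂μ| ≤ ∫ y, |F k (x, y)| ∂μ := abs_integral_le_integral_abs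
      _ ≤ ∫ _, B ∂μ := by
          apply integral_mono_of_nonneg (Eventually.of_forall fun y => abs_nonneg _)
            (integrable_const _)
          filter_upwards [hae] with y hy
          exact hB k x hx y hy
      _ = B := by simp
  · filter_upwards [hae] with x hx
    exact hinner x hx

private theorem b16_int_cont {n : ℕ} {μ : Measure (E n)} [IsProbabilityMeasure μ] {K : Set (E n)}
    (hKc : IsCompact K) (hK : μ Kᶜ = 0) {f : E n → ℝ} (hf : Continuous f) : Integrable f μ := by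
  have hae : ∀ᵐ x ∂μ, x ∈ K := by
    rw [ae_iff]
    exact hK
  have h1 : IntegrableOn f K μ := hf.continuousOn.integrableOn_compact hKc
  rwa [IntegrableOn, Measure.restrict_eq_self_of_ae_mem hae] at h1

private theorem b16_GT_cont {n : ℕ} (hn : 3 ≤ n) {g : ℝ → ℝ} {η : ℝ} (hg : GoodG n g η) {d T : ℝ}
    (hd : 0 < d) (hd1 : d < 1) (hT : 0 < T) {b : ℝ} (hb : 0 ≤ b) :
    Continuous (fun w : E n => GT n g d T b w) := by
  have h := GT_continuousOn hn hg hd hd1 hT
  have h2 : Continuous (fun w : E n => ((b, w) : ℝ × E n)) := by fun_prop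
  exact h.comp_continuous h2 fun w => ⟨hb, mem_univ _⟩

/-- The discrete inequality for a measure pushed by a simple function. -/
private theorem b16_discrete {n : ℕ} (hn : 3 ≤ n) {g : ℝ → ℝ} {η : ℝ} (hg : GoodG n g η) {C : ℝ}
    (hC : ∀ ρ, 0 ≤ ρ → g ρ ≤ C) {d T : ℝ} (hd : 0 < d) (hd1 : d < 1) (hT : 0 < T)
    {μ : Measure (E n)} [IsProbabilityMeasure μ] (S : SimpleFunc (E n) (E n)) {s0 : ℝ}
    (hs0 : 0 < s0) (hU : ∀ x, ∫ ξ, nk n d T (x - S ξ) ∂μ ≤ (1 - d) * s0) :
    ∫ x, ∫ y, GT n g d T (s0 ^ (2 / ((n : ℝ) - 2))) (S x - S y) ∂μ ∂μ ≤ QB n g d := by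
  obtain ⟨N, m, y, hm, hm1, hS⟩ := b16_simple (μ := μ) S
  have h1 : ∀ x, UU n d T m y x ≤ (1 - d) * s0 := by
    intro x
    refine le_trans (le_of_eq ?_) (hU x)
    exact (hS fun v => nk n d T (x - v)).symm
  refine le_trans (le_of_eq ?_) (discrete_ineq hn hg hC hd hd1 hT hm hm1 y hs0 h1)
  have h2 : ∀ x, ∫ y', GT n g d T (s0 ^ (2 / ((n : ℝ) - 2))) (S x - S y') ∂μ =
      ∑ j, m j * GT n g d T (s0 ^ (2 / ((n : ℝ) - 2))) (S x - y j) := fun x =>
    hS fun v => GT n g d T (s0 ^ (2 / ((n : ℝ) - 2))) (S x - v)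
  simp_rw [h2]
  rw [hS fun u => ∑ j, m j * GT n g d T (s0 ^ (2 / ((n : ℝ) - 2))) (u - y j)]
  refine Finset.sum_congr rfl fun i _ => ?_
  rw [Finset.mul_sum]
  refine Finset.sum_congr rfl fun j _ => ?_
  ring

theorem energy_T {n : ℕ} (hn : 3 ≤ n) {g : ℝ → ℝ} {η : ℝ} (hg : GoodG n g η) {C : ℝ}
    (hC : ∀ ρ, 0 ≤ ρ → g ρ ≤ C) {d T : ℝ} (hd : 0 < d) (hd1 : d < 1) (hT : 0 < T)
    {K : Set (E n)} (hK : IsCompact K) {μ : Measure (E n)} (hμ : PK K μ) {M : ℝ} (hM : 0 < M)
    (hpot : ∀ x, pot ((n : ℝ) - 2) μ x ≤ ENNReal.ofReal M) :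
    ∫ x, ∫ y, GT n g d T ((M / (1 - d)) ^ (2 / ((n : ℝ) - 2))) (x - y) ∂μ ∂μ ≤ QB n g d := by
  have hP : IsProbabilityMeasure μ := ⟨hμ.1⟩
  have hK0 : μ Kᶜ = 0 := hμ.2
  have hn3 : (3 : ℝ) ≤ n := by exact_mod_cast hn
  have hd1' : 0 < 1 - d := by linarith
  have hae : ∀ᵐ x ∂μ, x ∈ K := by
    rw [ae_iff]
    exact hK0
  obtain ⟨L, hL⟩ := nk_lipschitz (n := n) hn hd hd1 hT
  have hKne : K.Nonempty := by
    by_contra h
    rw [not_nonempty_iff_eq_empty] at h
    rw [h, compl_empty, hμ.1] at hK0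
    exact one_ne_zero hK0
  obtain ⟨y0, hy0⟩ := hKne
  set S : ℕ → SimpleFunc (E n) (E n) :=
    fun k => SimpleFunc.approxOn id measurable_id K y0 hy0 k with hS
  have hSK : ∀ k x, S k x ∈ K := fun k x => SimpleFunc.approxOn_mem measurable_id hy0 k x
  have hSlim : ∀ x ∈ K, Tendsto (fun k => S k x) atTop (𝓝 x) := fun x hx =>
    SimpleFunc.tendsto_approxOn measurable_id hy0 (subset_closure hx)
  have hnkc : Continuous (nk n d T) := (contDiff_nk hn hd hd1 hT).continuous
  have hnk_int : ∀ x, ∫ ξ, nk n d T (x - ξ) ∂μ ≤ M := by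
    intro x
    have hms : AEStronglyMeasurable (fun ξ => nk n d T (x - ξ)) μ :=
      (hnkc.comp (continuous_const.sub continuous_id)).aestronglyMeasurable
    rw [integral_eq_lintegral_of_nonneg_ae (Eventually.of_forall fun ξ => nk_nonneg hd hT _) hms]
    refine ENNReal.toReal_le_of_le_ofReal hM.le (le_trans ?_ (hpot x))
    unfold pot
    apply lintegral_mono
    intro ξ
    show ENNReal.ofReal (nk n d T (x - ξ)) ≤ (edist x ξ) ^ (-((n : ℝ) - 2))
    by_cases h : x = ξ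
    · rw [h, edist_self, ENNReal.zero_rpow_of_neg (by linarith)]
      exact le_top
    · have h1 : x - ξ ≠ 0 := sub_ne_zero.2 h
      calc ENNReal.ofReal (nk n d T (x - ξ)) ≤ ENNReal.ofReal (‖x - ξ‖ ^ (2 - (n : ℝ))) :=
            ENNReal.ofReal_le_ofReal (nk_le hn hT h1)
        _ = (edist x ξ) ^ (-((n : ℝ) - 2)) := by
            rw [edist_dist, dist_eq_norm, ENNReal.ofReal_rpow_of_pos (norm_pos_iff.2 h1)]
            congr 2
            ring
  -- the error of the discretisation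
  set er : ℕ → ℝ := fun k => ∫ ξ, ‖S k ξ - ξ‖ ∂μ with her
  have hbd : ∀ k, ∀ ξ ∈ K, ‖S k ξ - ξ‖ ≤ Metric.diam K := by
    intro k ξ hξ
    rw [← dist_eq_norm]
    exact Metric.dist_le_diam_of_mem hK.isBounded (hSK k ξ) hξ
  have hmeasS : ∀ k, Measurable (fun ξ => ‖S k ξ - ξ‖) := fun k =>
    ((S k).measurable.sub measurable_id).norm
  have hintS : ∀ k, Integrable (fun ξ => ‖S k ξ - ξ‖) μ := by
    intro k
    refine (integrable_const (Metric.diam K)).mono' (hmeasS k).aestronglyMeasurable ?_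
    filter_upwards [hae] with ξ hξ
    rw [norm_norm]
    exact hbd k ξ hξ
  have herlim : Tendsto er atTop (𝓝 0) := by
    have h1 := tendsto_integral_of_dominated_convergence (μ := μ)
      (F := fun k ξ => ‖S k ξ - ξ‖) (f := fun _ => (0 : ℝ)) (fun _ => Metric.diam K)
      (fun k => (hmeasS k).aestronglyMeasurable) (integrable_const _)
      (fun k => by
        filter_upwards [hae] with ξ hξ
        rw [norm_norm]
        exact hbd k ξ hξ)
      (by
        filter_upwards [hae] with ξ hξ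
        have h2 := ((hSlim ξ hξ).sub_const ξ).norm
        rwa [sub_self, norm_zero] at h2)
    simpa using h1
  have hUk : ∀ k x, ∫ ξ, nk n d T (x - S k ξ) ∂μ ≤ M + L * er k := by
    intro k x
    have hi1 : Integrable (fun ξ => nk n d T (x - ξ)) μ :=
      b16_int_cont hK hK0 (hnkc.comp (continuous_const.sub continuous_id))
    have h1 : ∫ ξ, nk n d T (x - S k ξ) ∂μ ≤
        ∫ ξ, (nk n d T (x - ξ) + L * ‖S k ξ - ξ‖) ∂μ := by
      apply integral_mono_of_nonneg (Eventually.of_forall fun ξ => nk_nonneg hd hT _)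
        (hi1.add ((hintS k).const_mul _))
      refine Eventually.of_forall fun ξ => ?_
      have h2 := hL.dist_le_mul (x - S k ξ) (x - ξ)
      rw [Real.dist_eq, dist_eq_norm] at h2
      have h3 : ‖x - S k ξ - (x - ξ)‖ = ‖S k ξ - ξ‖ := by
        rw [← norm_neg]
        congr 1
        abel
      rw [h3] at h2
      have h4 := (abs_le.1 h2).2
      show nk n d T (x - S k ξ) ≤ nk n d T (x - ξ) + L * ‖S k ξ - ξ‖
      linarith
    rw [integral_add hi1 ((hintS k).const_mul _), integral_const_mul] at h1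
    have := hnk_int x
    linarith
  -- first limit
  have step1 : ∀ s0, M / (1 - d) < s0 →
      ∫ x, ∫ y, GT n g d T (s0 ^ (2 / ((n : ℝ) - 2))) (x - y) ∂μ ∂μ ≤ QB n g d := by
    intro s0 hs0
    have hs00 : 0 < s0 := (div_pos hM hd1').trans hs0
    set b : ℝ := s0 ^ (2 / ((n : ℝ) - 2)) with hb
    have hb0 : 0 ≤ b := Real.rpow_nonneg hs00.le _
    have hGc := b16_GT_cont hn hg hd hd1 hT hb0
    have hGc2 : Continuous (fun z : E n × E n => GT n g d T b (z.1 - z.2)) :=
      hGc.comp (continuous_fst.sub continuous_snd)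
    obtain ⟨B, hB⟩ := (hK.prod hK).exists_bound_of_continuousOn hGc2.continuousOn
    have hlim := b16_dct (μ := μ) hK0
      (F := fun k z => GT n g d T b (S k z.1 - S k z.2))
      (G := fun z => GT n g d T b (z.1 - z.2))
      (fun k => hGc.measurable.comp
        (((S k).measurable.comp measurable_fst).sub ((S k).measurable.comp measurable_snd)))
      (B := B)
      (fun k x hx y hy => hB (S k x, S k y) ⟨hSK k x, hSK k y⟩)
      (fun x hx y hy => (hGc.tendsto _).comp ((hSlim x hx).sub (hSlim y hy)))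
    refine le_of_tendsto hlim ?_
    have h1 : Tendsto (fun k => M + L * er k) atTop (𝓝 (M + L * 0)) :=
      (herlim.const_mul _).const_add _
    rw [mul_zero, add_zero] at h1
    have h2 : M < (1 - d) * s0 := by
      rw [div_lt_iff₀ hd1'] at hs0
      linarith
    filter_upwards [h1.eventually_lt_const h2] with k hk
    exact b16_discrete hn hg hC hd hd1 hT (S k) hs00 fun x => (hUk k x).trans hk.le
  -- second limit
  set a : ℝ := 2 / ((n : ℝ) - 2) with ha
  have ha0 : 0 < a := by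
    have : 0 < (n : ℝ) - 2 := by linarith
    positivity
  set s1 : ℝ := M / (1 - d) with hs1
  have hs10 : 0 < s1 := div_pos hM hd1'
  set u : ℕ → ℝ := fun k => s1 + 1 / ((k : ℝ) + 1) with hu
  have hupos : ∀ k : ℕ, 0 < 1 / ((k : ℝ) + 1) := fun k => by positivity
  have hu1 : ∀ k, u k ≤ s1 + 1 := fun k => by
    have h1 : 1 / ((k : ℝ) + 1) ≤ 1 := by
      rw [div_le_one (by positivity)]
      have : (0 : ℝ) ≤ (k : ℝ) := Nat.cast_nonneg k
      linarith
    simp only [hu]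
    linarith
  have hu0 : ∀ k, 0 < u k := fun k => by
    simp only [hu]
    have := hupos k
    linarith
  have hulim : Tendsto u atTop (𝓝 s1) := by
    have h1 := (tendsto_one_div_add_atTop_nhds_zero_nat (𝕜 := ℝ)).const_add s1
    rw [add_zero] at h1
    exact h1
  have hblim : Tendsto (fun k => u k ^ a) atTop (𝓝 (s1 ^ a)) :=
    hulim.rpow_const (Or.inl hs10.ne')
  have hGon := GT_continuousOn (n := n) hn hg hd hd1 hT
  have hGon2 : ContinuousOn (fun q : ℝ × (E n × E n) => GT n g d T q.1 (q.2.1 - q.2.2))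
      (Icc 0 ((s1 + 1) ^ a) ×ˢ (K ×ˢ K)) := by
    refine hGon.comp (f := fun q : ℝ × (E n × E n) => (q.1, q.2.1 - q.2.2)) ?_ ?_
    · apply Continuous.continuousOn
      fun_prop
    · intro q hq
      exact ⟨hq.1.1, mem_univ _⟩
  obtain ⟨B, hB⟩ := (isCompact_Icc.prod (hK.prod hK)).exists_bound_of_continuousOn hGon2
  have hmem : ∀ k, u k ^ a ∈ Icc (0 : ℝ) ((s1 + 1) ^ a) := fun k =>
    ⟨Real.rpow_nonneg (hu0 k).le _, Real.rpow_le_rpow (hu0 k).le (hu1 k) ha0.le⟩
  have hlim := b16_dct (μ := μ) hK0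
    (F := fun k z => GT n g d T (u k ^ a) (z.1 - z.2))
    (G := fun z => GT n g d T (s1 ^ a) (z.1 - z.2))
    (fun k => ((b16_GT_cont hn hg hd hd1 hT (hmem k).1).comp
      (continuous_fst.sub continuous_snd)).measurable)
    (B := B)
    (fun k x hx y hy => hB (u k ^ a, (x, y)) ⟨hmem k, hx, hy⟩)
    (fun x hx y hy => by
      have h1 := hGon (s1 ^ a, x - y) ⟨Real.rpow_nonneg hs10.le _, mem_univ _⟩
      have h2 : Tendsto (fun k => ((u k ^ a, x - y) : ℝ × E n)) atTop
          (𝓝[Ici 0 ×ˢ univ] (s1 ^ a, x - y)) := by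
        rw [tendsto_nhdsWithin_iff]
        exact ⟨hblim.prodMk_nhds tendsto_const_nhds,
          Eventually.of_forall fun k => ⟨(hmem k).1, mem_univ _⟩⟩
      exact h1.tendsto.comp h2)
  refine le_of_tendsto hlim (Eventually.of_forall fun k => ?_)
  refine step1 (u k) ?_
  simp only [hu]
  have := hupos k
  linarith

/-- Comparison of `GT` with a constant. -/
private theorem b16_GT_near {n : ℕ} (hn : 3 ≤ n) {g : ℝ → ℝ} {η : ℝ} (hg : GoodG n g η) {d T : ℝ}
    (hd : 0 < d) (hd1 : d < 1) (hT : 0 < T) {b : ℝ} (hb : 0 ≤ b) {w : E n} {A δ : ℝ}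
    (h : ∀ v : E n, ‖v - w‖ ≤ 2 * ((1 - d) * T) ^ (-1 / ((n : ℝ) - 2)) →
      |g (b * ‖v‖ ^ 2) - A| ≤ δ) :
    |GT n g d T b w - cB n d ^ 2 * A| ≤ δ * cB n d ^ 2 := by
  set R : ℝ := ((1 - d) * T) ^ (-1 / ((n : ℝ) - 2)) with hR
  have hbt : ∀ x : E n, R < ‖x‖ → bt n d T x = 0 := fun x hx =>
    bt_eq_zero hn hd hd1 hT (Or.inr hx)
  have hbc := b16_cont_bt (n := n) hn hd hd1 hT
  have hnn := bt_nonneg (n := n) hn hd hd1 hT
  have hcs : ∀ k : E n × E n → ℝ, Continuous k →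
      Integrable (fun z : E n × E n => k z * (bt n d T z.1 * bt n d T z.2)) := by
    intro k hk
    have hc : Continuous (fun z : E n × E n => k z * (bt n d T z.1 * bt n d T z.2)) :=
      hk.mul ((hbc.comp continuous_fst).mul (hbc.comp continuous_snd))
    refine hc.integrable_of_hasCompactSupport ?_
    refine HasCompactSupport.intro (isCompact_closedBall (0 : E n × E n) R) fun z hz => ?_
    rw [Metric.mem_closedBall, dist_zero_right, Prod.norm_def, max_le_iff, not_and_or] at hz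
    rcases hz with h1 | h1
    · rw [hbt z.1 (not_le.1 h1)]
      simp
    · rw [hbt z.2 (not_le.1 h1)]
      simp
  have hgc : Continuous (fun z : E n × E n => g (b * ‖w + z.1 - z.2‖ ^ 2)) := by
    refine hg.smooth.continuousOn.comp_continuous (by fun_prop) fun z => ?_
    have h0 : 0 ≤ b * ‖w + z.1 - z.2‖ ^ 2 := by positivity
    have := hg.pos
    simp only [mem_Ioi]
    linarith
  have hmass : ∀ c : ℝ, ∫ z : E n × E n, c * (bt n d T z.1 * bt n d T z.2) =
      c * cB n d ^ 2 := by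
    intro c
    rw [integral_const_mul, Measure.volume_eq_prod, integral_prod_mul, integral_bt hn hd hd1 hT]
    unfold cB
    rw [sq]
  have h1 : GT n g d T b w - cB n d ^ 2 * A =
      ∫ z : E n × E n, (g (b * ‖w + z.1 - z.2‖ ^ 2) - A) * (bt n d T z.1 * bt n d T z.2) := by
    rw [mul_comm (cB n d ^ 2) A, ← hmass A]
    unfold GT
    rw [← integral_sub (hcs _ hgc) (hcs _ continuous_const)]
    congr 1
    funext z
    ring
  rw [h1, ← hmass δ]
  refine abs_integral_le_integral_abs.trans ?_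
  refine integral_mono_of_nonneg (Eventually.of_forall fun z => abs_nonneg _)
    (hcs _ continuous_const) (Eventually.of_forall fun z => ?_)
  show |(g (b * ‖w + z.1 - z.2‖ ^ 2) - A) * (bt n d T z.1 * bt n d T z.2)| ≤
    δ * (bt n d T z.1 * bt n d T z.2)
  have h0 : 0 ≤ bt n d T z.1 * bt n d T z.2 := mul_nonneg (hnn _) (hnn _)
  rw [abs_mul, abs_of_nonneg h0]
  rcases lt_or_ge R ‖z.1‖ with h2 | h2
  · rw [hbt z.1 h2]
    simp
  rcases lt_or_ge R ‖z.2‖ with h3 | h3
  · rw [hbt z.2 h3]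
    simp
  refine mul_le_mul_of_nonneg_right (h _ ?_) h0
  calc ‖w + z.1 - z.2 - w‖ = ‖z.1 - z.2‖ := by congr 1; abel
    _ ≤ ‖z.1‖ + ‖z.2‖ := norm_sub_le _ _
    _ ≤ 2 * R := by linarith

theorem energy_ineq {n : ℕ} (hn : 3 ≤ n) {g : ℝ → ℝ} {η : ℝ} (hg : GoodG n g η) {C : ℝ}
    (hC : ∀ ρ, 0 ≤ ρ → g ρ ≤ C) {d : ℝ} (hd : 0 < d) (hd1 : d < 1)
    {K : Set (E n)} (hK : IsCompact K) {μ : Measure (E n)} (hμ : PK K μ) {M : ℝ} (hM : 0 < M)
    (hpot : ∀ x, pot ((n : ℝ) - 2) μ x ≤ ENNReal.ofReal M) :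
    cB n d ^ 2 * ∫ x, ∫ y, g ((M / (1 - d)) ^ (2 / ((n : ℝ) - 2)) * ‖x - y‖ ^ 2) ∂μ ∂μ ≤
      QB n g d := by
  have hP : IsProbabilityMeasure μ := ⟨hμ.1⟩
  have hK0 : μ Kᶜ = 0 := hμ.2
  have hn3 : (3 : ℝ) ≤ n := by exact_mod_cast hn
  have hd1' : 0 < 1 - d := by linarith
  set b : ℝ := (M / (1 - d)) ^ (2 / ((n : ℝ) - 2)) with hb
  have hb0 : 0 ≤ b := Real.rpow_nonneg (div_pos hM hd1').le _
  have hTk : ∀ k : ℕ, (0 : ℝ) < (k : ℝ) + 1 := fun k => by positivity
  set ρ : ℕ → ℝ := fun k => 2 * ((1 - d) * ((k : ℝ) + 1)) ^ (-1 / ((n : ℝ) - 2)) with hρ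
  have hexp : -1 / ((n : ℝ) - 2) = -(1 / ((n : ℝ) - 2)) := by ring
  have hexp0 : 0 < 1 / ((n : ℝ) - 2) := by
    have : 0 < (n : ℝ) - 2 := by linarith
    positivity
  have hρlim : Tendsto ρ atTop (𝓝 0) := by
    have h1 : Tendsto (fun k : ℕ => (1 - d) * ((k : ℝ) + 1)) atTop atTop :=
      (tendsto_atTop_add_const_right _ _ tendsto_natCast_atTop_atTop).const_mul_atTop hd1'
    have h2 := ((tendsto_rpow_neg_atTop hexp0).comp h1).const_mul 2
    rw [mul_zero] at h2
    refine h2.congr fun k => ?_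
    simp only [Function.comp, hρ, hexp]
  have hρle : ∀ k, ρ k ≤ 2 * (1 - d) ^ (-1 / ((n : ℝ) - 2)) := by
    intro k
    simp only [hρ]
    have hle : (1 - d) ≤ (1 - d) * ((k : ℝ) + 1) := by
      have : (0 : ℝ) ≤ (k : ℝ) := Nat.cast_nonneg k
      nlinarith
    have hexp1 : -1 / ((n : ℝ) - 2) ≤ 0 := by rw [hexp]; linarith
    have := Real.rpow_le_rpow_of_nonpos hd1' hle hexp1
    linarith
  have hgc : Continuous (fun v : E n => g (b * ‖v‖ ^ 2)) := by
    refine hg.smooth.continuousOn.comp_continuous (by fun_prop) fun z => ?_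
    have h0 : 0 ≤ b * ‖z‖ ^ 2 := by positivity
    have := hg.pos
    simp only [mem_Ioi]
    linarith
  -- uniform bound
  set Rb : ℝ := Metric.diam K + 2 * (1 - d) ^ (-1 / ((n : ℝ) - 2)) with hRb
  obtain ⟨B, hB⟩ := (isCompact_closedBall (0 : E n) Rb).exists_bound_of_continuousOn
    hgc.continuousOn
  have hlim := b16_dct (μ := μ) hK0
    (F := fun k z => GT n g d ((k : ℝ) + 1) b (z.1 - z.2))
    (G := fun z => cB n d ^ 2 * g (b * ‖z.1 - z.2‖ ^ 2))
    (fun k => ((b16_GT_cont hn hg hd hd1 (hTk k) hb0).comp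
      (continuous_fst.sub continuous_snd)).measurable)
    (B := B * cB n d ^ 2)
    (fun k x hx y hy => by
      have h1 := b16_GT_near (n := n) hn hg hd hd1 (hTk k) hb0 (w := x - y) (A := 0) (δ := B)
        (fun v hv => by
          rw [sub_zero]
          refine hB v ?_
          rw [Metric.mem_closedBall, dist_zero_right]
          have h2 : ‖x - y‖ ≤ Metric.diam K := by
            rw [← dist_eq_norm]
            exact Metric.dist_le_diam_of_mem hK.isBounded hx hy
          have h3 : ‖v‖ ≤ ‖v - (x - y)‖ + ‖x - y‖ := by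
            have := norm_add_le (v - (x - y)) (x - y)
            rwa [sub_add_cancel] at this
          have h4 := hρle k
          simp only [hρ] at h4
          linarith)
      rwa [mul_zero, sub_zero] at h1)
    (fun x hx y hy => by
      rw [Metric.tendsto_atTop]
      intro ε hε
      have hcB : 0 < cB n d := integral_bt_pos hn hd hd1
      have hδ : 0 < ε / (2 * cB n d ^ 2) := by positivity
      obtain ⟨r, hr, hrr⟩ := Metric.continuous_iff.1 hgc (x - y) _ hδ
      obtain ⟨k0, hk0⟩ := (hρlim.eventually_lt_const hr).exists_forall_of_atTop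
      refine ⟨k0, fun k hk => ?_⟩
      have h1 := b16_GT_near (n := n) hn hg hd hd1 (hTk k) hb0 (w := x - y)
        (A := g (b * ‖x - y‖ ^ 2)) (δ := ε / (2 * cB n d ^ 2))
        (fun v hv => by
          have h2 := hrr v (by
            rw [dist_eq_norm]
            exact hv.trans_lt (hk0 k hk))
          rw [Real.dist_eq] at h2
          exact h2.le)
      rw [Real.dist_eq]
      refine h1.trans_lt ?_
      have h3 : ε / (2 * cB n d ^ 2) * cB n d ^ 2 = ε / 2 := by
        field_simp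
      rw [h3]
      linarith)
  have h2 : ∫ x, ∫ y, cB n d ^ 2 * g (b * ‖x - y‖ ^ 2) ∂μ ∂μ ≤ QB n g d :=
    le_of_tendsto hlim (Eventually.of_forall fun k =>
      energy_T hn hg hC hd hd1 (hTk k) hK hμ hM hpot)
  simp_rw [integral_const_mul] at h2
  exact h2

end Pool.Agent.Lib.MP_6cd19d_an.ND
end

section

/-!
# B18: the energy inequality for the Riesz kernels

`mB n d`: the probability measure with density `bt n d 1 / cB n d`.
`energy_gp0`: `b = (M/(1-d))^(2/(n-2))`. For `e > 0` apply `energy_ineq` with `g = gp p e R` (`goodG_gp`, `gp_le_zero`)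
and divide by `cB^2 > 0`: `∬ gp p e R (b ‖x-y‖^2) dμ dμ ≤ ∬ gp p e R (‖x-y‖^2) dmB dmB` (real integrals of bounded
continuous nonnegative functions, because `b ‖x-y‖^2 ≤ R` on `K` and `‖x-y‖^2 ≤ R` on the support of `mB`:
`(2 (1-d)^(-1/(n-2)))^2 ≤ R`), so the same holds for `lintegral`s of `ofReal`. Let `e → 0`: Fatou on the left,
`gp_le_gp0` on the right.
`energy_pow`: `energy_ineq` with `g ρ = -ρ^k`.
-/

set_option autoImplicit false

open MeasureTheory Set Filter Topology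
open scoped ENNReal ContDiff

namespace Pool.Agent.Lib.MP_6cd19d_an.ND

/-- The normalised measure with density `bt`. -/
noncomputable def mB (n : ℕ) (d : ℝ) : Measure (E n) :=
  (volume : Measure (E n)).withDensity (fun z => ENNReal.ofReal (bt n d 1 z / cB n d))

private theorem b18_cont_bt {n : ℕ} (hn : 3 ≤ n) {d T : ℝ} (hd : 0 < d) (hd1 : d < 1)
    (hT : 0 < T) : Continuous (bt n d T) := by
  unfold bt
  exact (contDiff_lap (contDiff_nk hn hd hd1 hT)).continuous.neg

private theorem b18_dens_nonneg {n : ℕ} (hn : 3 ≤ n) {d : ℝ} (hd : 0 < d) (hd1 : d < 1) (z : E n) :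
    0 ≤ bt n d 1 z / cB n d :=
  div_nonneg (bt_nonneg hn hd hd1 one_pos z) (integral_bt_pos hn hd hd1).le

private theorem b18_dens_meas {n : ℕ} (hn : 3 ≤ n) {d : ℝ} (hd : 0 < d) (hd1 : d < 1) :
    Measurable (fun z : E n => ENNReal.ofReal (bt n d 1 z / cB n d)) :=
  ((b18_cont_bt hn hd hd1 one_pos).div_const _).measurable.ennreal_ofReal

theorem mB_univ {n : ℕ} (hn : 3 ≤ n) {d : ℝ} (hd : 0 < d) (hd1 : d < 1) : mB n d univ = 1 := by
  have hc : 0 < cB n d := integral_bt_pos hn hd hd1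
  have hint : Integrable (bt n d 1) :=
    (b18_cont_bt hn hd hd1 one_pos).integrable_of_hasCompactSupport
      (hasCompactSupport_bt hn hd hd1 one_pos)
  unfold mB
  rw [withDensity_apply _ MeasurableSet.univ, Measure.restrict_univ,
    ← ofReal_integral_eq_lintegral_ofReal (hint.div_const _)
      (Eventually.of_forall (b18_dens_nonneg hn hd hd1)), integral_div]
  have h1 : (∫ z, bt n d 1 z) = cB n d := rfl
  rw [h1, div_self hc.ne', ENNReal.ofReal_one]

/-- `mB` lives on the shell. -/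
theorem mB_shell {n : ℕ} (hn : 3 ≤ n) {d : ℝ} (hd : 0 < d) (hd1 : d < 1) :
    mB n d {z | (1 + d) ^ (-1 / ((n : ℝ) - 2)) ≤ ‖z‖ ∧
      ‖z‖ ≤ (1 - d) ^ (-1 / ((n : ℝ) - 2))}ᶜ = 0 := by
  have hm : MeasurableSet {z : E n | (1 + d) ^ (-1 / ((n : ℝ) - 2)) ≤ ‖z‖ ∧
      ‖z‖ ≤ (1 - d) ^ (-1 / ((n : ℝ) - 2))}ᶜ :=
    ((measurableSet_le measurable_const measurable_norm).inter
      (measurableSet_le measurable_norm measurable_const)).compl
  unfold mB
  rw [withDensity_apply _ hm]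
  have h1 : ∀ z ∈ {z : E n | (1 + d) ^ (-1 / ((n : ℝ) - 2)) ≤ ‖z‖ ∧
      ‖z‖ ≤ (1 - d) ^ (-1 / ((n : ℝ) - 2))}ᶜ, ENNReal.ofReal (bt n d 1 z / cB n d) = 0 := by
    intro z hz
    have h2 : bt n d 1 z = 0 := by
      apply bt_eq_zero hn hd hd1 one_pos
      rw [mul_one, mul_one]
      simp only [mem_compl_iff, mem_ofPred_eq, not_and_or, not_le] at hz
      exact hz
    rw [h2, zero_div, ENNReal.ofReal_zero]
  rw [setLIntegral_congr_fun hm h1]
  simp

private theorem b18_integral {n : ℕ} (hn : 3 ≤ n) {d : ℝ} (hd : 0 < d) (hd1 : d < 1)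
    (f : E n → ℝ) : ∫ z, f z ∂(mB n d) = (∫ z, f z * bt n d 1 z) / cB n d := by
  unfold mB
  rw [integral_withDensity_eq_integral_toReal_smul (b18_dens_meas hn hd hd1)
    (Eventually.of_forall fun z => ENNReal.ofReal_lt_top), ← integral_div]
  congr 1
  funext z
  rw [ENNReal.toReal_ofReal (b18_dens_nonneg hn hd hd1 z), smul_eq_mul]
  ring

theorem integral_mB {n : ℕ} (hn : 3 ≤ n) {d : ℝ} (hd : 0 < d) (hd1 : d < 1) {f : E n → ℝ}
    (hf : Continuous f) : ∫ z, f z ∂(mB n d) = (∫ z, f z * bt n d 1 z) / cB n d :=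
  b18_integral hn hd hd1 f

private theorem b18_cont_g {n : ℕ} {g : ℝ → ℝ} (hg : ContinuousOn g (Ici 0)) {b : ℝ}
    (hb : 0 ≤ b) : Continuous (fun z : E n × E n => g (b * ‖z.1 - z.2‖ ^ 2)) := by
  refine hg.comp_continuous (by fun_prop) fun z => ?_
  simp only [mem_Ici]
  positivity

theorem QB_eq {n : ℕ} (hn : 3 ≤ n) {d : ℝ} (hd : 0 < d) (hd1 : d < 1) {g : ℝ → ℝ}
    (hg : ContinuousOn g (Ici 0)) :
    QB n g d = cB n d ^ 2 * ∫ x, ∫ y, g (‖x - y‖ ^ 2) ∂(mB n d) ∂(mB n d) := by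
  have hc : 0 < cB n d := integral_bt_pos hn hd hd1
  have hbc := b18_cont_bt (n := n) hn hd hd1 one_pos
  have hgc : Continuous (fun z : E n × E n => g (‖z.1 - z.2‖ ^ 2)) := by
    have := b18_cont_g (n := n) hg (b := 1) zero_le_one
    simpa using this
  have hcont : Continuous (fun z : E n × E n => g (‖z.1 - z.2‖ ^ 2) *
      (bt n d 1 z.1 * bt n d 1 z.2)) :=
    hgc.mul ((hbc.comp continuous_fst).mul (hbc.comp continuous_snd))
  set R : ℝ := ((1 - d) * 1) ^ (-1 / ((n : ℝ) - 2)) with hR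
  have hbt : ∀ x : E n, R < ‖x‖ → bt n d 1 x = 0 := fun x hx =>
    bt_eq_zero hn hd hd1 one_pos (Or.inr hx)
  have hint : Integrable (fun z : E n × E n => g (‖z.1 - z.2‖ ^ 2) *
      (bt n d 1 z.1 * bt n d 1 z.2)) := by
    refine hcont.integrable_of_hasCompactSupport ?_
    refine HasCompactSupport.intro (isCompact_closedBall (0 : E n × E n) R) fun z hz => ?_
    rw [Metric.mem_closedBall, dist_zero_right, Prod.norm_def, max_le_iff, not_and_or] at hz
    rcases hz with h1 | h1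
    · rw [hbt z.1 (not_le.1 h1)]
      simp
    · rw [hbt z.2 (not_le.1 h1)]
      simp
  unfold QB
  rw [Measure.volume_eq_prod] at hint ⊢
  rw [integral_prod _ hint, b18_integral hn hd hd1]
  have h1 : ∀ x : E n, ∫ y, g (‖x - y‖ ^ 2) ∂(mB n d) =
      (∫ y, g (‖x - y‖ ^ 2) * bt n d 1 y) / cB n d := fun x => b18_integral hn hd hd1 _
  simp_rw [h1]
  rw [mul_div_assoc', eq_div_iff hc.ne', ← integral_mul_const, ← integral_const_mul]
  congr 1
  funext x
  have h2 : ∫ y, g (‖x - y‖ ^ 2) * (bt n d 1 x * bt n d 1 y) =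
      bt n d 1 x * ∫ y, g (‖x - y‖ ^ 2) * bt n d 1 y := by
    rw [← integral_const_mul]
    congr 1
    funext y
    ring
  show (∫ y, g (‖x - y‖ ^ 2) * (bt n d 1 x * bt n d 1 y)) * cB n d = _
  rw [h2]
  field_simp

/-- Conversion of iterated integrals. -/
private theorem b18_conv {n : ℕ} {ν : Measure (E n)} [IsProbabilityMeasure ν] {K : Set (E n)}
    (hKc : IsCompact K) (hK : ν Kᶜ = 0) {f : E n × E n → ℝ} (hf : Continuous f)
    (h0 : ∀ x ∈ K, ∀ y ∈ K, 0 ≤ f (x, y)) :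
    ∫⁻ x, ∫⁻ y, ENNReal.ofReal (f (x, y)) ∂ν ∂ν =
      ENNReal.ofReal (∫ x, ∫ y, f (x, y) ∂ν ∂ν) := by
  have hae : ∀ᵐ x ∂ν, x ∈ K := by
    rw [ae_iff]
    exact hK
  obtain ⟨B, hB⟩ := (hKc.prod hKc).exists_bound_of_continuousOn hf.continuousOn
  have hinner : ∀ x ∈ K, Integrable (fun y => f (x, y)) ν := by
    intro x hx
    refine (integrable_const B).mono'
      (hf.comp (continuous_const.prodMk continuous_id)).aestronglyMeasurable ?_
    filter_upwards [hae] with y hy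
    exact hB (x, y) ⟨hx, hy⟩
  have h1 : ∀ x ∈ K, ∫⁻ y, ENNReal.ofReal (f (x, y)) ∂ν = ENNReal.ofReal (∫ y, f (x, y) ∂ν) := by
    intro x hx
    rw [← ofReal_integral_eq_lintegral_ofReal (hinner x hx)]
    filter_upwards [hae] with y hy
    exact h0 x hx y hy
  have h2 : ∀ x ∈ K, 0 ≤ ∫ y, f (x, y) ∂ν := by
    intro x hx
    apply integral_nonneg_of_ae
    filter_upwards [hae] with y hy
    exact h0 x hx y hy
  have h3 : ∀ x ∈ K, ∫ y, f (x, y) ∂ν ≤ B := by
    intro x hx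
    calc ∫ y, f (x, y) ∂ν ≤ ∫ _, B ∂ν := by
          apply integral_mono_ae (hinner x hx) (integrable_const _)
          filter_upwards [hae] with y hy
          exact (le_abs_self _).trans (hB (x, y) ⟨hx, hy⟩)
      _ = B := by simp
  rw [ofReal_integral_eq_lintegral_ofReal]
  · apply lintegral_congr_ae
    filter_upwards [hae] with x hx
    exact h1 x hx
  · refine (integrable_const B).mono'
      (hf.stronglyMeasurable.integral_prod_right').aestronglyMeasurable ?_
    filter_upwards [hae] with x hx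
    rw [Real.norm_eq_abs, abs_of_nonneg (h2 x hx)]
    exact h3 x hx
  · filter_upwards [hae] with x hx
    exact h2 x hx

theorem energy_gp0 {n : ℕ} (hn : 3 ≤ n) {p : ℝ} (hp : -2 < p) (hp2 : p ≤ (n : ℝ) - 2) {d : ℝ}
    (hd : 0 < d) (hd1 : d < 1) {K : Set (E n)} (hK : IsCompact K) {μ : Measure (E n)}
    (hμ : PK K μ) {M : ℝ} (hM : 0 < M)
    (hpot : ∀ x, pot ((n : ℝ) - 2) μ x ≤ ENNReal.ofReal M) {R : ℝ}
    (hR : ∀ x ∈ K, ∀ y ∈ K, (M / (1 - d)) ^ (2 / ((n : ℝ) - 2)) * ‖x - y‖ ^ 2 ≤ R)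
    (hR2 : (2 * (1 - d) ^ (-1 / ((n : ℝ) - 2))) ^ 2 ≤ R) :
    ∫⁻ x, ∫⁻ y, gp0 p R ((M / (1 - d)) ^ (2 / ((n : ℝ) - 2)) * ‖x - y‖ ^ 2) ∂μ ∂μ ≤
      ∫⁻ x, ∫⁻ y, gp0 p R (‖x - y‖ ^ 2) ∂(mB n d) ∂(mB n d) := by
  have hP : IsProbabilityMeasure μ := ⟨hμ.1⟩
  have hPB : IsProbabilityMeasure (mB n d) := ⟨mB_univ hn hd hd1⟩
  have hK0 : μ Kᶜ = 0 := hμ.2
  have hd1' : 0 < 1 - d := by linarith
  have hc : 0 < cB n d := integral_bt_pos hn hd hd1
  set b : ℝ := (M / (1 - d)) ^ (2 / ((n : ℝ) - 2)) with hb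
  have hb0 : 0 ≤ b := Real.rpow_nonneg (div_pos hM hd1').le _
  set r1 : ℝ := (1 - d) ^ (-1 / ((n : ℝ) - 2)) with hr1
  have hr10 : 0 < r1 := Real.rpow_pos_of_pos hd1' _
  have hRpos : 0 < R := lt_of_lt_of_le (by positivity) hR2
  have hae : ∀ᵐ x ∂μ, x ∈ K := by
    rw [ae_iff]
    exact hK0
  have hB0 : (mB n d) (Metric.closedBall (0 : E n) r1)ᶜ = 0 := by
    refine measure_mono_null ?_ (mB_shell hn hd hd1)
    intro z hz hz2
    apply hz
    rw [Metric.mem_closedBall, dist_zero_right]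
    exact hz2.2
  have haeB : ∀ᵐ x ∂(mB n d), x ∈ Metric.closedBall (0 : E n) r1 := by
    rw [ae_iff]
    exact hB0
  have hBR : ∀ x ∈ Metric.closedBall (0 : E n) r1, ∀ y ∈ Metric.closedBall (0 : E n) r1,
      ‖x - y‖ ^ 2 ≤ R := by
    intro x hx y hy
    rw [Metric.mem_closedBall, dist_zero_right] at hx hy
    refine le_trans ?_ hR2
    have := norm_sub_le x y
    gcongr
    linarith
  have hcg : ∀ e : ℝ, 0 < e → ContinuousOn (gp p e R) (Ici 0) := by
    intro e he
    refine (goodG_gp (n := n) he hRpos hp2).smooth.continuousOn.mono ?_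
    intro x hx
    have : 0 < e ^ 2 := by positivity
    have hx0 : (0 : ℝ) ≤ x := hx
    simp only [mem_Ioi]
    linarith
  -- the inequality for `e > 0`
  have hstep : ∀ e : ℝ, 0 < e →
      ∫⁻ x, ∫⁻ y, ENNReal.ofReal (gp p e R (b * ‖x - y‖ ^ 2)) ∂μ ∂μ ≤
      ∫⁻ x, ∫⁻ y, gp0 p R (‖x - y‖ ^ 2) ∂(mB n d) ∂(mB n d) := by
    intro e he
    have h1 := energy_ineq hn (goodG_gp (n := n) he hRpos hp2) (C := gp p e R 0)
      (fun ρ hρ => gp_le_zero he hρ) hd hd1 hK hμ hM hpot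
    rw [QB_eq hn hd hd1 (hcg e he)] at h1
    have h2 := le_of_mul_le_mul_left h1 (by positivity)
    have h3 := b18_conv (ν := μ) hK hK0 (b18_cont_g (n := n) (hcg e he) hb0)
      (fun x hx y hy => gp_nonneg he (by positivity) (hR x hx y hy))
    have h4 := b18_conv (ν := mB n d) (isCompact_closedBall (0 : E n) r1) hB0
      (b18_cont_g (n := n) (hcg e he) (b := 1) zero_le_one)
      (fun x hx y hy => gp_nonneg he (by positivity)
        (by simpa using hBR x hx y hy))
    simp only [one_mul] at h4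
    rw [h3]
    refine (ENNReal.ofReal_le_ofReal h2).trans ?_
    rw [← h4]
    apply lintegral_mono_ae
    filter_upwards [haeB] with x hx
    apply lintegral_mono_ae
    filter_upwards [haeB] with y hy
    exact gp_le_gp0 hp he (by positivity) (hBR x hx y hy)
  -- Fatou
  set u : ℕ → ℝ := fun k => 1 / ((k : ℝ) + 1) with hu
  have hupos : ∀ k, 0 < u k := fun k => by
    simp only [hu]
    positivity
  have hulim : Tendsto u atTop (𝓝[>] 0) := by
    rw [tendsto_nhdsWithin_iff]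
    exact ⟨tendsto_one_div_add_atTop_nhds_zero_nat, Eventually.of_forall hupos⟩
  have hmeas : ∀ k, Measurable (fun z : E n × E n =>
      ENNReal.ofReal (gp p (u k) R (b * ‖z.1 - z.2‖ ^ 2))) := fun k =>
    (b18_cont_g (n := n) (hcg (u k) (hupos k)) hb0).measurable.ennreal_ofReal
  have h5 : ∫⁻ x, ∫⁻ y, gp0 p R (b * ‖x - y‖ ^ 2) ∂μ ∂μ =
      ∫⁻ x, ∫⁻ y, liminf (fun k => ENNReal.ofReal (gp p (u k) R (b * ‖x - y‖ ^ 2))) atTop ∂μ
        ∂μ := by
    apply lintegral_congr_ae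
    filter_upwards [hae] with x hx
    apply lintegral_congr_ae
    filter_upwards [hae] with y hy
    symm
    exact ((gp_tendsto hp (by positivity) (hR x hx y hy)).comp hulim).liminf_eq
  have hm1 : ∀ (k : ℕ) (x : E n), Measurable (fun y : E n =>
      ENNReal.ofReal (gp p (u k) R (b * ‖x - y‖ ^ 2))) := by
    intro k x
    have hx : Continuous (fun y : E n => ((x, y) : E n × E n)) := by fun_prop
    exact ((b18_cont_g (n := n) (hcg (u k) (hupos k)) hb0).comp hx).measurable.ennreal_ofReal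
  have hm2 : ∀ k, Measurable (fun x : E n =>
      ∫⁻ y, ENNReal.ofReal (gp p (u k) R (b * ‖x - y‖ ^ 2)) ∂μ) := fun k =>
    Measurable.lintegral_prod_right' (hmeas k)
  rw [h5]
  calc ∫⁻ x, ∫⁻ y, liminf (fun k => ENNReal.ofReal (gp p (u k) R (b * ‖x - y‖ ^ 2))) atTop ∂μ ∂μ
      ≤ ∫⁻ x, liminf (fun k => ∫⁻ y, ENNReal.ofReal (gp p (u k) R (b * ‖x - y‖ ^ 2)) ∂μ) atTop
          ∂μ := by
        apply lintegral_mono
        intro x
        exact lintegral_liminf_le fun k => hm1 k x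
    _ ≤ liminf (fun k => ∫⁻ x, ∫⁻ y, ENNReal.ofReal (gp p (u k) R (b * ‖x - y‖ ^ 2)) ∂μ ∂μ)
          atTop := lintegral_liminf_le hm2
    _ ≤ liminf (fun _ : ℕ => ∫⁻ x, ∫⁻ y, gp0 p R (‖x - y‖ ^ 2) ∂(mB n d) ∂(mB n d)) atTop :=
        liminf_le_liminf (Eventually.of_forall fun k => hstep (u k) (hupos k))
    _ = _ := liminf_const _

theorem energy_pow {n : ℕ} (hn : 3 ≤ n) (k : ℕ) {d : ℝ}
    (hd : 0 < d) (hd1 : d < 1) {K : Set (E n)} (hK : IsCompact K) {μ : Measure (E n)}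
    (hμ : PK K μ) {M : ℝ} (hM : 0 < M)
    (hpot : ∀ x, pot ((n : ℝ) - 2) μ x ≤ ENNReal.ofReal M) :
    ∫ x, ∫ y, ‖x - y‖ ^ (2 * k) ∂(mB n d) ∂(mB n d) ≤
      ((M / (1 - d)) ^ (2 / ((n : ℝ) - 2))) ^ k * ∫ x, ∫ y, ‖x - y‖ ^ (2 * k) ∂μ ∂μ := by
  have hc : 0 < cB n d := integral_bt_pos hn hd hd1
  set b : ℝ := (M / (1 - d)) ^ (2 / ((n : ℝ) - 2)) with hb
  have h1 := energy_ineq hn (goodG_pow n k) (C := 0)
    (fun ρ hρ => neg_nonpos.2 (pow_nonneg hρ k)) hd hd1 hK hμ hM hpot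
  rw [QB_eq hn hd hd1 (by fun_prop)] at h1
  have h2 := le_of_mul_le_mul_left h1 (by positivity)
  have h3 : ∀ x y : E n, -((b * ‖x - y‖ ^ 2) ^ k) = -(b ^ k * ‖x - y‖ ^ (2 * k)) := by
    intro x y
    rw [mul_pow, pow_mul]
  have h4 : ∀ x y : E n, -((‖x - y‖ ^ 2) ^ k) = -(‖x - y‖ ^ (2 * k)) := by
    intro x y
    rw [pow_mul]
  simp only [← hb, h3, h4, integral_neg, integral_const_mul] at h2
  linarith

end Pool.Agent.Lib.MP_6cd19d_an.ND
end

section

/-!
# B20: radial superharmonic functions are decreasing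

`rot_antitone` (also used for `n = 2`, file C20): `m` is a probability measure on `closedBall 0 R`, invariant under all
linear isometries, `n ≥ 2`, `GoodG n g η`; `V x = ∫ g (‖x - y‖^2) dm y` is nonincreasing in `‖x‖`.
Proof. `min_principle`: `V` has, at every point, pure second derivatives along the coordinate lines (`HasD2`), with
nonpositive sum, it is continuous, `‖x‖ ≤ r`, `V ≥ c` on the sphere `‖z‖ = r`; then `V x ≥ c`. For `ε > 0` the function
`V z - ε ‖z‖^2` attains its minimum over `closedBall 0 r` at some `z`; if `‖z‖ < r` then it is a local minimum, so all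
pure second derivatives are `≥ 0` there (`hasD2_localMax`, `hasD2_add`, `hasD2_smul`, `hasD2_sq` in P5b), but
their sum is `≤ -2 n ε < 0`. So `‖z‖ = r`, and `V x - ε ‖x‖^2 ≥ c - ε r^2`; `ε → 0`.
`V` has second derivatives `∫ (pd i (pd i G)) (x - y) dm`, `G z = g (‖z‖^2)` smooth: differentiate under
the integral (`hasDerivAt_integral_of_dominated_loc_of_deriv_le`; the derivatives are bounded on compact sets and `m`
has compact support); their sum is `∫ (lap G) (x - y) dm ≤ 0` (`lap_radial`, `hg.ineq`). `V` is radial: by invariance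
and because any two points of the same norm are exchanged by a linear isometry
(`reflection` in the hyperplane orthogonal to `x - x'`). So if `‖x‖ ≤ ‖x'‖` apply the minimum principle with
`r = ‖x'‖`, `c = V x'`.
`mB_rot`: `bt n d 1` is a function of the norm (`nk` is; `lap` of a radial function is radial: by `bt_formula` for
`z ≠ 0`), and Lebesgue measure is invariant under linear isometries.
-/

set_option autoImplicit false

open MeasureTheory Set Filter Topology
open scoped ENNReal ContDiff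

namespace Pool.Agent.Lib.MP_6cd19d_an.ND

private theorem b20_ae {n : ℕ} {m : Measure (E n)} {R : ℝ}
    (hm : m (Metric.closedBall (0 : E n) R)ᶜ = 0) : ∀ᵐ y ∂m, ‖y‖ ≤ R := by
  rw [ae_iff]
  refine measure_mono_null ?_ hm
  intro y hy
  simpa using hy

private theorem b20_bd {n : ℕ} {G : E n → ℝ} (hG : Continuous G) (ρ : ℝ) :
    ∃ C, ∀ z : E n, ‖z‖ ≤ ρ → ‖G z‖ ≤ C := by
  obtain ⟨C, hC⟩ := (isCompact_closedBall (0 : E n) ρ).exists_bound_of_continuousOn
    hG.continuousOn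
  exact ⟨C, fun z hz => hC z (by rwa [mem_closedBall_zero_iff])⟩

private theorem b20_norm {n : ℕ} (x y : E n) (i : Fin n) (t : ℝ) :
    ‖x + t • bv i - y‖ ≤ ‖x‖ + |t| + ‖y‖ := by
  have hbv : ‖(bv i : E n)‖ = 1 := by simp [bv]
  refine (norm_sub_le _ _).trans ?_
  have h1 := norm_add_le x (t • bv i)
  rw [norm_smul, hbv, mul_one, Real.norm_eq_abs] at h1
  linarith

private theorem b20_deriv {n : ℕ} {m : Measure (E n)} [IsProbabilityMeasure m] {R : ℝ}
    (hm : m (Metric.closedBall (0 : E n) R)ᶜ = 0) {G : E n → ℝ} (hG : ContDiff ℝ ∞ G)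
    (x : E n) (i : Fin n) (t : ℝ) :
    HasDerivAt (fun t : ℝ => ∫ y, G (x + t • bv i - y) ∂m)
      (∫ y, pd i G (x + t • bv i - y) ∂m) t := by
  have hae := b20_ae hm
  have hp := contDiff_pd hG i
  have hc : ∀ t : ℝ, Continuous fun y : E n => G (x + t • bv i - y) := fun t =>
    hG.continuous.comp (continuous_const.sub continuous_id)
  have hc' : ∀ t : ℝ, Continuous fun y : E n => pd i G (x + t • bv i - y) := fun t =>
    hp.continuous.comp (continuous_const.sub continuous_id)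
  obtain ⟨C, hC⟩ := b20_bd hG.continuous (‖x‖ + |t| + R)
  obtain ⟨C', hC'⟩ := b20_bd hp.continuous (‖x‖ + (|t| + 1) + R)
  refine (hasDerivAt_integral_of_dominated_loc_of_deriv_le (μ := m)
    (F := fun (t : ℝ) (y : E n) => G (x + t • bv i - y))
    (F' := fun (t : ℝ) (y : E n) => pd i G (x + t • bv i - y)) (bound := fun _ => C')
    (Metric.ball_mem_nhds t one_pos)
    (Eventually.of_forall fun t => (hc t).aestronglyMeasurable) ?_
    (hc' t).aestronglyMeasurable ?_ (integrable_const _) ?_).2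
  · refine (integrable_const C).mono' (hc t).aestronglyMeasurable ?_
    filter_upwards [hae] with y hy
    exact hC _ ((b20_norm x y i t).trans (by linarith))
  · filter_upwards [hae] with y hy t' ht'
    have h1 : |t'| ≤ |t| + 1 := by
      rw [Metric.mem_ball, Real.dist_eq] at ht'
      have := abs_add_le (t' - t) t
      rw [sub_add_cancel] at this
      linarith
    exact hC' _ ((b20_norm x y i t').trans (by linarith))
  · refine Eventually.of_forall fun y t' _ => ?_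
    have h1 : HasDerivAt (fun t : ℝ => x + t • bv i - y) (bv i) t' := by
      have h2 : HasDerivAt (fun t : ℝ => t • (bv i : E n)) ((1 : ℝ) • bv i) t' :=
        (hasDerivAt_id t').smul_const (bv i)
      rw [one_smul] at h2
      exact (h2.const_add x).sub_const y
    exact ((hG.differentiable (by simp)) _).hasFDerivAt.comp_hasDerivAt t' h1

private theorem b20_hasD2 {n : ℕ} {m : Measure (E n)} [IsProbabilityMeasure m] {R : ℝ}
    (hm : m (Metric.closedBall (0 : E n) R)ᶜ = 0) {G : E n → ℝ} (hG : ContDiff ℝ ∞ G)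
    (x : E n) : HasD2 (fun x => ∫ y, G (x - y) ∂m) x (fun i => ∫ y, pd i G (x - y) ∂m)
      (fun i => ∫ y, pd i (pd i G) (x - y) ∂m) := by
  intro i
  refine ⟨fun t => ∫ y, pd i G (x + t • bv i - y) ∂m,
    Eventually.of_forall fun t => b20_deriv hm hG x i t, ?_, ?_⟩
  · simp only [zero_smul, add_zero]
  · have h := b20_deriv hm (contDiff_pd hG i) x i 0
    simp only [zero_smul, add_zero] at h
    exact h

private theorem b20_cont {n : ℕ} {m : Measure (E n)} [IsProbabilityMeasure m] {R : ℝ}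
    (hm : m (Metric.closedBall (0 : E n) R)ᶜ = 0) {G : E n → ℝ} (hG : Continuous G) :
    Continuous (fun x => ∫ y, G (x - y) ∂m) := by
  have hae := b20_ae hm
  rw [continuous_iff_continuousAt]
  intro x
  obtain ⟨C, hC⟩ := b20_bd hG (‖x‖ + 1 + R)
  refine continuousAt_of_dominated (bound := fun _ => C)
    (Eventually.of_forall fun z =>
      (hG.comp (continuous_const.sub continuous_id)).aestronglyMeasurable) ?_
    (integrable_const _) ?_
  · filter_upwards [Metric.ball_mem_nhds x one_pos] with z hz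
    filter_upwards [hae] with y hy
    refine hC _ ?_
    have h1 : ‖z‖ ≤ ‖x‖ + 1 := by
      rw [Metric.mem_ball, dist_eq_norm] at hz
      have := norm_add_le (z - x) x
      rw [sub_add_cancel] at this
      linarith
    have := norm_sub_le z y
    linarith
  · exact Eventually.of_forall fun y =>
      (hG.comp (continuous_id.sub continuous_const)).continuousAt

private theorem b20_min {n : ℕ} (hn : 1 ≤ n) {V : E n → ℝ} (hc : Continuous V)
    {g h : E n → Fin n → ℝ} (hD : ∀ x, HasD2 V x (g x) (h x)) (hs : ∀ x, ∑ i, h x i ≤ 0)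
    {r c : ℝ} (hsph : ∀ z : E n, ‖z‖ = r → c ≤ V z) {x : E n} (hx : ‖x‖ ≤ r) : c ≤ V x := by
  by_contra hcon
  rw [not_le] at hcon
  have hr0 : 0 ≤ r := (norm_nonneg x).trans hx
  obtain ⟨ε, hε⟩ : ∃ ε, ε = (c - V x) / (2 * (r ^ 2 + 1)) := ⟨_, rfl⟩
  have hden : 0 < 2 * (r ^ 2 + 1) := by positivity
  have hεpos : 0 < ε := by
    rw [hε]
    exact div_pos (by linarith) hden
  have hεr : ε * r ^ 2 < c - V x := by
    have h1 : ε * (2 * (r ^ 2 + 1)) = c - V x := by
      rw [hε]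
      exact div_mul_cancel₀ _ hden.ne'
    nlinarith [mul_nonneg hεpos.le (sq_nonneg r)]
  have hWc : Continuous fun z : E n => (-1 : ℝ) * V z + ε * ‖z‖ ^ 2 := by fun_prop
  obtain ⟨z, hz, hzmax⟩ := (isCompact_closedBall (0 : E n) r).exists_isMaxOn
    ⟨x, by rw [mem_closedBall_zero_iff]; exact hx⟩ hWc.continuousOn
  have hzn : ‖z‖ ≤ r := by rwa [mem_closedBall_zero_iff] at hz
  have hzx : (-1 : ℝ) * V x + ε * ‖x‖ ^ 2 ≤ (-1 : ℝ) * V z + ε * ‖z‖ ^ 2 :=
    hzmax (by rw [mem_closedBall_zero_iff]; exact hx)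
  have hx2 : 0 ≤ ε * ‖x‖ ^ 2 := by positivity
  rcases lt_or_eq_of_le hzn with hlt | heq
  · have hloc : IsLocalMax (fun z : E n => (-1 : ℝ) * V z + ε * ‖z‖ ^ 2) z := by
      refine hzmax.isLocalMax ?_
      exact Filter.mem_of_superset (Metric.isOpen_ball.mem_nhds
        (by rwa [mem_ball_zero_iff] : z ∈ Metric.ball (0 : E n) r)) Metric.ball_subset_closedBall
    have hD' := hasD2_add (hasD2_smul (-1) (hD z)) (hasD2_smul ε (hasD2_sq z))
    have hle := (hasD2_localMax hD' hloc).2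
    have hsum := Finset.sum_nonpos fun i (_ : i ∈ (Finset.univ : Finset (Fin n))) => hle i
    rw [Finset.sum_add_distrib, ← Finset.mul_sum, Finset.sum_const, Finset.card_univ,
      Fintype.card_fin, nsmul_eq_mul] at hsum
    have h1 := hs z
    have hn' : (1 : ℝ) ≤ n := by exact_mod_cast hn
    have h2 : 0 < (n : ℝ) * (ε * 2) := by positivity
    linarith
  · have h1 := hsph z heq
    rw [heq] at hzx
    linarith

theorem rot_antitone {n : ℕ} (hn : 2 ≤ n) {m : Measure (E n)} [IsProbabilityMeasure m] {R : ℝ}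
    (hm : m (Metric.closedBall (0 : E n) R)ᶜ = 0)
    (hrot : ∀ A : E n ≃ₗᵢ[ℝ] E n, m.map A = m) {g : ℝ → ℝ} {η : ℝ}
    (hg : GoodG n g η) {x x' : E n} (h : ‖x‖ ≤ ‖x'‖) :
    ∫ y, g (‖x' - y‖ ^ 2) ∂m ≤ ∫ y, g (‖x - y‖ ^ 2) ∂m := by
  obtain ⟨G, hGdef⟩ : ∃ G : E n → ℝ, G = fun z => g (‖z‖ ^ 2) := ⟨_, rfl⟩
  have hmemI : ∀ z : E n, ‖z‖ ^ 2 ∈ Ioi (-η) := by
    intro z
    have h1 := hg.pos
    have h2 : 0 ≤ ‖z‖ ^ 2 := by positivity
    simp only [mem_Ioi]
    linarith
  have hG : ContDiff ℝ ∞ G := by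
    rw [hGdef]
    exact hg.smooth.comp_contDiff (contDiff_norm_sq ℝ) hmemI
  have hlap : ∀ z : E n, lap G z ≤ 0 := by
    intro z
    have h1 : ContDiffAt ℝ 2 g (‖z‖ ^ 2) :=
      ((hg.smooth _ (hmemI z)).contDiffAt (isOpen_Ioi.mem_nhds (hmemI z))).of_le
        (WithTop.coe_le_coe.2 (le_top : (2 : ℕ∞) ≤ ⊤))
    rw [hGdef, lap_radial h1]
    exact hg.super _ (by positivity)
  obtain ⟨V, hV⟩ : ∃ V : E n → ℝ, V = fun x => ∫ y, G (x - y) ∂m := ⟨_, rfl⟩
  have hVc : Continuous V := by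
    rw [hV]
    exact b20_cont hm hG.continuous
  have hVD : ∀ x, HasD2 V x (fun i => ∫ y, pd i G (x - y) ∂m)
      (fun i => ∫ y, pd i (pd i G) (x - y) ∂m) := by
    intro x
    rw [hV]
    exact b20_hasD2 hm hG x
  have hint : ∀ (i : Fin n) (x : E n), Integrable (fun y => pd i (pd i G) (x - y)) m := by
    intro i x
    have hc := (contDiff_pd (contDiff_pd hG i) i).continuous
    obtain ⟨C, hC⟩ := b20_bd hc (‖x‖ + R)
    refine (integrable_const C).mono'
      (hc.comp (continuous_const.sub continuous_id)).aestronglyMeasurable ?_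
    filter_upwards [b20_ae hm] with y hy
    exact hC _ ((norm_sub_le x y).trans (by linarith))
  have hVs : ∀ x, ∑ i, ∫ y, pd i (pd i G) (x - y) ∂m ≤ 0 := by
    intro x
    rw [← integral_finsetSum _ fun i _ => hint i x]
    exact integral_nonpos fun y => hlap (x - y)
  have hVr : ∀ z : E n, ‖z‖ = ‖x'‖ → V z = V x' := by
    intro z hz
    obtain ⟨A, hA⟩ : ∃ A : E n ≃ₗᵢ[ℝ] E n, A x' = z :=
      ⟨Submodule.reflection (Submodule.span ℝ {x' - z})ᗮ, Submodule.reflection_sub hz.symm⟩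
    rw [hV]
    simp only
    conv_lhs => rw [← hrot A]
    have hGz : Continuous fun y : E n => G (z - y) :=
      hG.continuous.comp (continuous_const.sub continuous_id)
    rw [integral_map (f := fun y : E n => G (z - y)) A.continuous.measurable.aemeasurable
      hGz.aestronglyMeasurable]
    refine integral_congr_ae (Eventually.of_forall fun y => ?_)
    simp only
    rw [← hA, ← map_sub, hGdef]
    simp only [LinearIsometryEquiv.norm_map]
  have key := b20_min (n := n) (by omega) hVc hVD hVs (r := ‖x'‖) (c := V x')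
    (fun z hz => (hVr z hz).ge) h
  rw [hV, hGdef] at key
  exact key

/-- The potential of `mB`. -/
noncomputable def VB (n : ℕ) (d : ℝ) (g : ℝ → ℝ) (x : E n) : ℝ := ∫ y, g (‖x - y‖ ^ 2) ∂(mB n d)

theorem mB_rot {n : ℕ} (hn : 3 ≤ n) {d : ℝ} (hd : 0 < d) (hd1 : d < 1) (A : E n ≃ₗᵢ[ℝ] E n) :
    (mB n d).map A = mB n d := by
  have hbt : ∀ z : E n, bt n d 1 (A z) = bt n d 1 z := by
    intro z
    by_cases hz : z = 0
    · rw [hz, map_zero]
    · have hAz : A z ≠ 0 := fun h0 => hz (by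
        have := congrArg A.symm h0
        simpa using this)
      rw [bt_formula hn hd hd1 one_pos hz, bt_formula hn hd hd1 one_pos hAz, A.norm_map]
  have hcont : Continuous (bt n d 1 : E n → ℝ) := by
    have h1 : (bt n d 1 : E n → ℝ) = fun z => -lap (nk n d 1) z := rfl
    rw [h1]
    exact (contDiff_lap (contDiff_nk hn hd hd1 one_pos)).continuous.neg
  have hmeas : Measurable fun z : E n => ENNReal.ofReal (bt n d 1 z / cB n d) :=
    (hcont.measurable.div_const _).ennreal_ofReal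
  have hmp : MeasurePreserving A (volume : Measure (E n)) volume := A.measurePreserving
  refine Measure.ext fun t ht => ?_
  rw [Measure.map_apply A.continuous.measurable ht]
  unfold mB
  rw [withDensity_apply _ (A.continuous.measurable ht), withDensity_apply _ ht,
    ← hmp.setLIntegral_comp_preimage ht hmeas]
  simp only [hbt]

theorem VB_antitone {n : ℕ} (hn : 3 ≤ n) {d : ℝ} (hd : 0 < d) (hd1 : d < 1) {g : ℝ → ℝ} {η : ℝ}
    (hg : GoodG n g η) {x x' : E n} (h : ‖x‖ ≤ ‖x'‖) : VB n d g x' ≤ VB n d g x := by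
  have : IsProbabilityMeasure (mB n d) := ⟨mB_univ hn hd hd1⟩
  refine rot_antitone (by omega) (R := (1 - d) ^ (-1 / ((n : ℝ) - 2))) ?_ (mB_rot hn hd hd1) hg h
  refine measure_mono_null ?_ (mB_shell hn hd hd1)
  intro z hz hz'
  exact hz (by simpa using hz'.2)

end Pool.Agent.Lib.MP_6cd19d_an.ND
end
end
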