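import Pool.Agent.Lib.MP_6cd19d_an.ND.P5b
import Pool.Agent.Lib.MP_6cd19d_an.ND.B04

section

section

/-!
# C05: the truncated logarithmic kernel in the plane (analogue of B05 for `n = 2`)

`gL d T ρ = T - 1 + ze d (1 - T - (log ρ) / 2)` for `ρ > 0`, and `T - 1 + ze d (1 + d)` for `ρ ≤ 0`. As `ρ → 0+` the
argument tends to `∞`, so `gL` is constant near `(-∞, 0]`: smooth on `ℝ`. `nl z = gL (‖z‖^2)`, so
`nl z = T - 1 + ze d (1 - T - log ‖z‖)` for `z ≠ 0`. With `v = 1 - T - (log ρ)/2`, `v' = -1/(2ρ)`: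
`gL' = cut v * v'`, `gL'' = cut v * v'' + cut' v * v'^2`, and `4 v' + 4 ρ v'' = 0`; by `lap_radial` (`n = 2`):
`lap nl z = cut' v * 4 ρ v'^2 = cut' v / ‖z‖^2 ≤ 0`. It vanishes unless `1 - d ≤ v ≤ 1 + d`, i.e.
`exp (-T-d) ≤ ‖z‖ ≤ exp (-T+d)`.
`nl_le`: `ze d v ≤ v` also for `v < 0` (`ze d v = v` for `v ≤ 1 - d`, `d < 1`).
`integral_btL`: `nl T - nl 0` has compact support: for large `‖z‖` both equal `-log ‖z‖`.
-/

set_option autoImplicit false

open MeasureTheory Set Filter Topology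
open scoped ENNReal ContDiff

namespace Pool.Agent.Lib.MP_6cd19d_an.ND

/-- Profile of the truncated logarithmic kernel. -/
noncomputable def gL (d T ρ : ℝ) : ℝ :=
  if ρ ≤ 0 then T - 1 + ze d (1 + d) else T - 1 + ze d (1 - T - Real.log ρ / 2)

/-- The truncated logarithmic kernel in the plane. -/
noncomputable def nl (d T : ℝ) (z : E 2) : ℝ := gL d T (‖z‖ ^ 2)

/-- Minus its Laplacian. -/
noncomputable def btL (d T : ℝ) (z : E 2) : ℝ := -lap (nl d T) z

private theorem c05_gL_pos {d T ρ : ℝ} (hρ : 0 < ρ) :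
    gL d T ρ = T - 1 + ze d (1 - T - Real.log ρ / 2) := by
  unfold gL
  rw [if_neg (not_le.mpr hρ)]

private theorem c05_log_sq {z : E 2} : Real.log (‖z‖ ^ 2) / 2 = Real.log ‖z‖ := by
  rw [Real.log_pow]
  push_cast
  ring

private theorem c05_gL_small {d T ρ : ℝ} (hd : 0 < d) (h : ρ < Real.exp (2 * (-T - d))) :
    gL d T ρ = T - 1 + ze d (1 + d) := by
  rcases le_or_gt ρ 0 with h0 | h0
  · unfold gL
    rw [if_pos h0]
  · rw [c05_gL_pos h0]
    congr 1
    apply ze_const hd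
    have h1 : Real.log ρ < 2 * (-T - d) := (Real.log_lt_iff_lt_exp h0).2 h
    linarith

private theorem c05_gL_eventually {d T ρ : ℝ} (hρ : 0 < ρ) :
    gL d T =ᶠ[𝓝 ρ] (fun ρ : ℝ => T - 1 + ze d (1 - T - Real.log ρ / 2)) := by
  filter_upwards [lt_mem_nhds hρ] with r hr
  exact c05_gL_pos hr

private theorem c05_contDiff_gL {d T : ℝ} (hd : 0 < d) : ContDiff ℝ ∞ (gL d T) := by
  rw [contDiff_iff_contDiffAt]
  intro ρ
  rcases le_or_gt ρ 0 with h0 | h0
  · have hlt : ρ < Real.exp (2 * (-T - d)) := lt_of_le_of_lt h0 (Real.exp_pos _)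
    have hev : gL d T =ᶠ[𝓝 ρ] fun _ => T - 1 + ze d (1 + d) := by
      filter_upwards [gt_mem_nhds hlt] with r hr
      exact c05_gL_small hd hr
    exact (contDiffAt_const).congr_of_eventuallyEq hev
  · have h1 : ContDiffAt ℝ ∞ (fun ρ : ℝ => 1 - T - Real.log ρ / 2) ρ :=
      contDiffAt_const.sub ((contDiffAt_id.log h0.ne').div_const 2)
    have h2 : ContDiffAt ℝ ∞ (fun ρ : ℝ => ze d (1 - T - Real.log ρ / 2)) ρ :=
      ContDiffAt.comp ρ (g := ze d) ((contDiff_ze d).contDiffAt) h1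
    exact (contDiffAt_const.add h2).congr_of_eventuallyEq (c05_gL_eventually h0)

private theorem c05_hasDerivAt_v {T ρ : ℝ} (hρ : 0 < ρ) :
    HasDerivAt (fun ρ : ℝ => 1 - T - Real.log ρ / 2) (-(ρ⁻¹ / 2)) ρ := by
  have h := ((Real.hasDerivAt_log hρ.ne').div_const 2).const_sub (1 - T)
  exact h

private theorem c05_deriv_gL {d T ρ : ℝ} (hρ : 0 < ρ) :
    deriv (gL d T) ρ = cut d (1 - T - Real.log ρ / 2) * (-(ρ⁻¹ / 2)) := by
  rw [(c05_gL_eventually hρ).deriv_eq]
  have h1 := ((hasDerivAt_ze d (1 - T - Real.log ρ / 2)).comp ρ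
    (c05_hasDerivAt_v (T := T) hρ)).const_add (T - 1)
  have h2 : HasDerivAt (fun ρ : ℝ => T - 1 + ze d (1 - T - Real.log ρ / 2))
    (cut d (1 - T - Real.log ρ / 2) * (-(ρ⁻¹ / 2))) ρ := h1
  exact h2.deriv

private theorem c05_deriv2_gL {d T ρ : ℝ} (hρ : 0 < ρ) :
    deriv (deriv (gL d T)) ρ =
      deriv (cut d) (1 - T - Real.log ρ / 2) * (-(ρ⁻¹ / 2)) * (-(ρ⁻¹ / 2)) +
      cut d (1 - T - Real.log ρ / 2) * (-(-(ρ ^ 2)⁻¹ / 2)) := by
  have hev : deriv (gL d T) =ᶠ[𝓝 ρ] fun ρ => cut d (1 - T - Real.log ρ / 2) * (-(ρ⁻¹ / 2)) := by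
    filter_upwards [lt_mem_nhds hρ] with r hr
    exact c05_deriv_gL hr
  rw [hev.deriv_eq]
  have hc : HasDerivAt (cut d) (deriv (cut d) (1 - T - Real.log ρ / 2))
      (1 - T - Real.log ρ / 2) :=
    ((contDiff_cut d).differentiable (by simp)).differentiableAt.hasDerivAt
  have h1 := hc.comp ρ (c05_hasDerivAt_v (T := T) hρ)
  have h2 : HasDerivAt (fun ρ : ℝ => -(ρ⁻¹ / 2)) (-(-(ρ ^ 2)⁻¹ / 2)) ρ :=
    ((hasDerivAt_inv hρ.ne').div_const 2).neg
  exact (h1.mul h2).deriv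

private theorem c05_nl_eq_const {d T : ℝ} (hd : 0 < d) {w : E 2}
    (hw : ‖w‖ < Real.exp (-T - d)) : nl d T w = T - 1 + ze d (1 + d) := by
  unfold nl
  apply c05_gL_small hd
  have h1 : ‖w‖ ^ 2 < (Real.exp (-T - d)) ^ 2 :=
    pow_lt_pow_left₀ hw (norm_nonneg w) two_ne_zero
  rwa [← Real.exp_nat_mul, Nat.cast_ofNat] at h1

private theorem c05_nl_pos {d T : ℝ} {z : E 2} (hz : z ≠ 0) :
    nl d T z = T - 1 + ze d (1 - T - Real.log ‖z‖) := by
  have hz0 : 0 < ‖z‖ := norm_pos_iff.mpr hz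
  unfold nl
  rw [c05_gL_pos (by positivity), c05_log_sq]

private theorem c05_ze_le {d : ℝ} (hd : 0 < d) (hd1 : d < 1) (v : ℝ) : ze d v ≤ v := by
  rcases le_total 0 v with h | h
  · exact ze_le h
  · rw [ze_eq hd hd1 (by linarith)]

theorem contDiff_nl {d T : ℝ} (hd : 0 < d) (hd1 : d < 1) : ContDiff ℝ ∞ (nl d T) := by
  unfold nl
  exact (c05_contDiff_gL hd).comp (contDiff_norm_sq ℝ)

theorem btL_formula {d T : ℝ} (hd : 0 < d) (hd1 : d < 1) {z : E 2} (hz : z ≠ 0) :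
    btL d T z = -deriv (cut d) (1 - T - Real.log ‖z‖) / ‖z‖ ^ 2 := by
  have hz0 : 0 < ‖z‖ := norm_pos_iff.mpr hz
  have hρ : 0 < ‖z‖ ^ 2 := by positivity
  have hg : ContDiffAt ℝ 2 (gL d T) (‖z‖ ^ 2) :=
    ((c05_contDiff_gL hd).contDiffAt).of_le (WithTop.coe_le_coe.mpr le_top)
  have hlap := lap_radial (n := 2) (x := z) hg
  unfold btL nl
  rw [hlap, c05_deriv_gL hρ, c05_deriv2_gL hρ, c05_log_sq]
  push_cast
  field_simp
  ring

theorem btL_nonneg {d T : ℝ} (hd : 0 < d) (hd1 : d < 1) (z : E 2) : 0 ≤ btL d T z := by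
  rcases eq_or_ne z 0 with h | h
  · have hr : ‖z‖ < Real.exp (-T - d) := by
      rw [h, norm_zero]
      exact Real.exp_pos _
    have hev : nl d T =ᶠ[𝓝 z] fun _ => T - 1 + ze d (1 + d) := by
      have := (continuous_norm.tendsto z).eventually (gt_mem_nhds hr)
      filter_upwards [this] with w hw
      exact c05_nl_eq_const hd hw
    unfold btL
    rw [lap_congr hev, lap_const, neg_zero]
  · rw [btL_formula hd hd1 h]
    have := deriv_cut_nonpos hd (1 - T - Real.log ‖z‖)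
    exact div_nonneg (by linarith) (by positivity)

theorem btL_eq_zero {d T : ℝ} (hd : 0 < d) (hd1 : d < 1) {z : E 2}
    (hz : ‖z‖ < Real.exp (-T - d) ∨ Real.exp (-T + d) < ‖z‖) : btL d T z = 0 := by
  rcases hz with hr | hr
  · have hev : nl d T =ᶠ[𝓝 z] fun _ => T - 1 + ze d (1 + d) := by
      have := (continuous_norm.tendsto z).eventually (gt_mem_nhds hr)
      filter_upwards [this] with w hw
      exact c05_nl_eq_const hd hw
    unfold btL
    rw [lap_congr hev, lap_const, neg_zero]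
  · have hz0 : 0 < ‖z‖ := lt_trans (Real.exp_pos _) hr
    rw [btL_formula hd hd1 (norm_pos_iff.mp hz0)]
    have h1 : -T + d < Real.log ‖z‖ := (Real.lt_log_iff_exp_lt hz0).2 hr
    rw [cut_deriv_zero hd (Or.inl (by linarith))]
    simp

theorem hasCompactSupport_btL {d T : ℝ} (hd : 0 < d) (hd1 : d < 1) :
    HasCompactSupport (btL d T) := by
  apply HasCompactSupport.intro (isCompact_closedBall (0 : E 2) (Real.exp (-T + d)))
  intro z hz
  rw [mem_closedBall_zero_iff, not_le] at hz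
  exact btL_eq_zero hd hd1 (Or.inr hz)

theorem nl_le {d T : ℝ} (hd : 0 < d) (hd1 : d < 1) {z : E 2} (hz : z ≠ 0) :
    nl d T z ≤ -Real.log ‖z‖ := by
  rw [c05_nl_pos hz]
  have := c05_ze_le hd hd1 (1 - T - Real.log ‖z‖)
  linarith

theorem nl_eq {d T : ℝ} (hd : 0 < d) (hd1 : d < 1) {z : E 2}
    (hz : z ≠ 0) (h : -Real.log ‖z‖ ≤ T - d) : nl d T z = -Real.log ‖z‖ := by
  rw [c05_nl_pos hz, ze_eq hd hd1 (by linarith)]
  ring

private theorem c05_ze_lip {d : ℝ} (v w : ℝ) : |ze d v - ze d w| ≤ |v - w| := by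
  have h := (convex_univ (𝕜 := ℝ) (E := ℝ)).norm_image_sub_le_of_norm_hasDerivWithin_le
    (f := ze d) (f' := cut d) (C := 1) (x := w) (y := v)
    (fun x _ => (hasDerivAt_ze d x).hasDerivWithinAt)
    (fun x _ => by
      rw [Real.norm_eq_abs, abs_of_nonneg (cut_nonneg d x)]
      exact cut_le_one d x) (mem_univ _) (mem_univ _)
  simpa [Real.norm_eq_abs] using h

private theorem c05_log_lip {r : ℝ} (hr : 0 < r) {a b : ℝ} (ha : r ≤ a)
    (hb : r ≤ b) : |Real.log a - Real.log b| ≤ r⁻¹ * |a - b| := by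
  have h := (convex_Ici (𝕜 := ℝ) r).norm_image_sub_le_of_norm_hasDerivWithin_le
    (f := Real.log) (f' := fun x => x⁻¹) (C := r⁻¹)
    (x := b) (y := a)
    (fun x hx => (Real.hasDerivAt_log (hr.trans_le hx).ne').hasDerivWithinAt)
    (fun x hx => by
      have hx0 : 0 < x := hr.trans_le hx
      rw [Real.norm_eq_abs, abs_of_pos (inv_pos.2 hx0)]
      exact inv_anti₀ hr hx) hb ha
  simpa [Real.norm_eq_abs] using h

private theorem c05_nl_form {d T : ℝ} (hd : 0 < d) (z : E 2) :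
    nl d T z = T - 1 + ze d (1 - T - Real.log (max ‖z‖ (Real.exp (-T - d)))) := by
  rcases eq_or_ne z 0 with hz | hz
  · rw [c05_nl_eq_const hd (by rw [hz, norm_zero]; exact Real.exp_pos _), hz, norm_zero,
      max_eq_right (Real.exp_pos _).le, Real.log_exp]
    congr 2
    ring
  · rw [c05_nl_pos hz]
    rcases le_total (Real.exp (-T - d)) ‖z‖ with h3 | h3
    · rw [max_eq_left h3]
    · rw [max_eq_right h3, Real.log_exp]
      have hz0 : 0 < ‖z‖ := norm_pos_iff.mpr hz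
      have h1 : Real.log ‖z‖ ≤ -T - d := (Real.log_le_iff_le_exp hz0).2 h3
      rw [ze_const hd (by linarith), show 1 - T - (-T - d) = 1 + d by ring]

theorem nl_lipschitz {d T : ℝ} (hd : 0 < d) (hd1 : d < 1) :
    ∃ L : NNReal, LipschitzWith L (nl d T) := by
  set r : ℝ := Real.exp (-T - d) with hr
  have hr0 : 0 < r := Real.exp_pos _
  have hL0 : 0 ≤ r⁻¹ := (inv_pos.2 hr0).le
  refine ⟨(r⁻¹).toNNReal, LipschitzWith.of_dist_le_mul ?_⟩
  intro z w
  rw [Real.coe_toNNReal _ hL0, Real.dist_eq, c05_nl_form hd z, c05_nl_form hd w, ← hr,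
    add_sub_add_left_eq_sub]
  calc |ze d (1 - T - Real.log (max ‖z‖ r)) - ze d (1 - T - Real.log (max ‖w‖ r))|
      ≤ |(1 - T - Real.log (max ‖z‖ r)) - (1 - T - Real.log (max ‖w‖ r))| := c05_ze_lip _ _
    _ = |Real.log (max ‖w‖ r) - Real.log (max ‖z‖ r)| := by congr 1; ring
    _ ≤ r⁻¹ * |max ‖w‖ r - max ‖z‖ r| := c05_log_lip hr0 (le_max_right _ _) (le_max_right _ _)
    _ ≤ r⁻¹ * dist z w := by
        apply mul_le_mul_of_nonneg_left _ hL0
        refine (abs_max_sub_max_le_abs _ _ _).trans ?_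
        rw [dist_comm, dist_eq_norm]
        exact abs_norm_sub_norm_le w z

theorem integral_btL {d : ℝ} (hd : 0 < d) (hd1 : d < 1) (T : ℝ) :
    ∫ z, btL d T z = ∫ z, btL d 0 z := by
  have hcT : Continuous (btL d T) :=
    ((contDiff_lap (contDiff_nl (T := T) hd hd1)).continuous).neg
  have hc1 : Continuous (btL d 0) :=
    ((contDiff_lap (contDiff_nl (T := 0) hd hd1)).continuous).neg
  have hiT := hcT.integrable_of_hasCompactSupport (hasCompactSupport_btL hd hd1)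
    (μ := (volume : Measure (E 2)))
  have hi1 := hc1.integrable_of_hasCompactSupport (hasCompactSupport_btL hd hd1)
    (μ := (volume : Measure (E 2)))
  have hout : ∀ (S : ℝ) (z : E 2), Real.exp (-S + d) < ‖z‖ → nl d S z = -Real.log ‖z‖ := by
    intro S z hr
    have hz0 : 0 < ‖z‖ := lt_trans (Real.exp_pos _) hr
    have h1 : -S + d < Real.log ‖z‖ := (Real.lt_log_iff_exp_lt hz0).2 hr
    exact nl_eq hd hd1 (norm_pos_iff.mp hz0) (by linarith)
  have hsub : ContDiff ℝ ∞ (fun z : E 2 => nl d T z - nl d 0 z) :=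
    (contDiff_nl hd hd1).sub (contDiff_nl hd hd1)
  have hcs : HasCompactSupport (fun z : E 2 => nl d T z - nl d 0 z) := by
    apply HasCompactSupport.intro (isCompact_closedBall (0 : E 2)
      (max (Real.exp (-T + d)) (Real.exp (-0 + d))))
    intro z hz
    rw [mem_closedBall_zero_iff, not_le, max_lt_iff] at hz
    show nl d T z - nl d 0 z = 0
    rw [hout T z hz.1, hout 0 z hz.2, sub_self]
  have h0 := integral_lap_eq_zero hsub hcs
  have h1 : (fun z : E 2 => lap (fun z => nl d T z - nl d 0 z) z) =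
      fun z => -(btL d T z - btL d 0 z) := by
    funext z
    rw [lap_sub (contDiff_nl hd hd1) (contDiff_nl hd hd1)]
    unfold btL
    ring
  rw [h1, integral_neg, integral_sub hiT hi1] at h0
  linarith

theorem integral_btL_pos {d : ℝ} (hd : 0 < d) (hd1 : d < 1) : 0 < ∫ z, btL d 0 z := by
  have hc1 : Continuous (btL d 0) :=
    ((contDiff_lap (contDiff_nl (T := 0) hd hd1)).continuous).neg
  obtain ⟨v, hv1, hv2, hv⟩ := deriv_cut_neg hd
  have hr : 0 < Real.exp (1 - v) := Real.exp_pos _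
  let i0 : Fin 2 := 0
  have hnorm : ‖(Real.exp (1 - v)) • (bv i0 : E 2)‖ = Real.exp (1 - v) := by
    rw [norm_smul, Real.norm_of_nonneg hr.le]
    unfold bv
    simp
  have hz : (Real.exp (1 - v)) • (bv i0 : E 2) ≠ 0 := by
    rw [← norm_pos_iff, hnorm]
    exact hr
  apply hc1.integral_pos_of_hasCompactSupport_nonneg_nonzero
    (hasCompactSupport_btL hd hd1) (fun z => btL_nonneg hd hd1 z)
    (x := (Real.exp (1 - v)) • (bv i0 : E 2))
  rw [btL_formula hd hd1 hz, hnorm, Real.log_exp]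
  have e1 : (1 : ℝ) - 0 - (1 - v) = v := by ring
  rw [e1]
  have h4 : 0 < -deriv (cut d) v := by linarith
  exact (div_pos h4 (by positivity)).ne'

end Pool.Agent.Lib.MP_6cd19d_an.ND
end

section

/-!
# C09: the scaled kernels, additive version (analogue of B09 for `n = 2`)

`kA s x = g (exp (2 s) * ‖x‖^2)`, `s : ℝ`, `τ = exp (2 s) ‖x‖^2`. `∂_s τ = 2 τ`.
`kA1 := ∂_s kA = 2 τ g' τ`, `∂_s kA1 = 4 τ (g' τ + τ g'' τ)`, `lap (kA s) x = exp (2 s) (4 g' τ + 4 τ g'' τ) ≤ 0`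
(`lap_radial`, `GoodG 2 g η`), so `∂_s kA1 = ‖x‖^2 lap (kA s) x` and `pd i (kA1 s) x = x_i lap (kA s) x`.
-/

set_option autoImplicit false

open MeasureTheory Set Filter Topology
open scoped ENNReal ContDiff

namespace Pool.Agent.Lib.MP_6cd19d_an.ND

noncomputable def kA (g : ℝ → ℝ) (s : ℝ) (x : E 2) : ℝ := g (Real.exp (2 * s) * ‖x‖ ^ 2)

noncomputable def kA1 (g : ℝ → ℝ) (s : ℝ) (x : E 2) : ℝ :=
  2 * (Real.exp (2 * s) * ‖x‖ ^ 2) * deriv g (Real.exp (2 * s) * ‖x‖ ^ 2)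

private theorem two_le : (2 : WithTop ℕ∞) ≤ ((⊤ : ℕ∞) : WithTop ℕ∞) :=
  WithTop.coe_le_coe.2 (le_top : (2 : ℕ∞) ≤ ⊤)

/-- The argument of the profile is nonnegative. -/
private theorem tau_mem {g : ℝ → ℝ} {η : ℝ} (hg : GoodG 2 g η) {c : ℝ} (hc : 0 ≤ c)
    (x : E 2) : c * ‖x‖ ^ 2 ∈ Ioi (-η) := by
  have h1 := hg.pos
  have h2 : 0 ≤ c * ‖x‖ ^ 2 := by positivity
  simp only [mem_Ioi]
  linarith

private theorem smooth_d {g : ℝ → ℝ} {η : ℝ} (hg : GoodG 2 g η) :
    ContDiffOn ℝ ∞ (deriv g) (Ioi (-η)) :=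
  hg.smooth.deriv_of_isOpen isOpen_Ioi (by simp)

private theorem smooth_dd {g : ℝ → ℝ} {η : ℝ} (hg : GoodG 2 g η) :
    ContDiffOn ℝ ∞ (deriv (deriv g)) (Ioi (-η)) :=
  (smooth_d hg).deriv_of_isOpen isOpen_Ioi (by simp)

private theorem hasDeriv_g {g : ℝ → ℝ} {η : ℝ} (hg : GoodG 2 g η) {t : ℝ}
    (ht : t ∈ Ioi (-η)) : HasDerivAt g (deriv g t) t := by
  have h : ContDiffAt ℝ ∞ g t := hg.smooth.contDiffAt (isOpen_Ioi.mem_nhds ht)
  exact (h.differentiableAt (by simp)).hasDerivAt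

private theorem hasDeriv_dg {g : ℝ → ℝ} {η : ℝ} (hg : GoodG 2 g η) {t : ℝ}
    (ht : t ∈ Ioi (-η)) : HasDerivAt (deriv g) (deriv (deriv g) t) t := by
  have h : ContDiffAt ℝ ∞ (deriv g) t := (smooth_d hg).contDiffAt (isOpen_Ioi.mem_nhds ht)
  exact (h.differentiableAt (by simp)).hasDerivAt

theorem contDiff_kA {g : ℝ → ℝ} {η : ℝ} (hg : GoodG 2 g η) (s : ℝ) :
    ContDiff ℝ ∞ (kA g s) ∧ ContDiff ℝ ∞ (kA1 g s) := by
  have hin : ContDiff ℝ ∞ (fun x : E 2 => Real.exp (2 * s) * ‖x‖ ^ 2) :=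
    contDiff_const.mul (contDiff_norm_sq ℝ)
  constructor
  · unfold kA
    exact hg.smooth.comp_contDiff hin (fun x => tau_mem hg (Real.exp_pos _).le x)
  · unfold kA1
    exact (contDiff_const.mul hin).mul
      ((smooth_d hg).comp_contDiff hin (fun x => tau_mem hg (Real.exp_pos _).le x))

private theorem hasDeriv_tau (s : ℝ) (x : E 2) :
    HasDerivAt (fun t : ℝ => Real.exp (2 * t) * ‖x‖ ^ 2) (2 * (Real.exp (2 * s) * ‖x‖ ^ 2)) s := by
  have h0 : HasDerivAt (fun t : ℝ => 2 * t) 2 s := by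
    simpa using (hasDerivAt_id s).const_mul 2
  have h := (h0.exp).mul_const (‖x‖ ^ 2)
  refine h.congr_deriv ?_
  ring

theorem hasDerivAt_kA {g : ℝ → ℝ} {η : ℝ} (hg : GoodG 2 g η) (s : ℝ) (x : E 2) :
    HasDerivAt (fun t => kA g t x) (kA1 g s x) s := by
  unfold kA kA1
  have hτ := hasDeriv_tau s x
  have hgτ := (hasDeriv_g hg (tau_mem hg (Real.exp_pos (2 * s)).le x)).comp s hτ
  refine hgτ.congr_deriv ?_
  ring

/-- The Laplacian of the scaled kernel. -/
theorem lap_kA {g : ℝ → ℝ} {η : ℝ} (hg : GoodG 2 g η) (s : ℝ) (x : E 2) :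
    lap (kA g s) x = Real.exp (2 * s) *
      (2 * (2 : ℕ) * deriv g (Real.exp (2 * s) * ‖x‖ ^ 2) +
        4 * (Real.exp (2 * s) * ‖x‖ ^ 2) *
          deriv (deriv g) (Real.exp (2 * s) * ‖x‖ ^ 2)) := by
  set c : ℝ := Real.exp (2 * s) with hc
  have hc0 : 0 ≤ c := (Real.exp_pos _).le
  have e : kA g s = fun z : E 2 => (fun ρ : ℝ => g (c * ρ)) (‖z‖ ^ 2) := by
    funext z
    simp only [kA, hc]
  have hcd : ContDiffAt ℝ 2 (fun ρ : ℝ => g (c * ρ)) (‖x‖ ^ 2) := by
    have h1 : ContDiffAt ℝ 2 g (c * ‖x‖ ^ 2) :=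
      (hg.smooth.contDiffAt (isOpen_Ioi.mem_nhds (tau_mem hg hc0 x))).of_le two_le
    exact ContDiffAt.comp (‖x‖ ^ 2) h1 (contDiffAt_const.mul contDiffAt_id)
  rw [e, lap_radial hcd]
  have d1 : deriv (fun ρ : ℝ => g (c * ρ)) = fun ρ => c * deriv g (c * ρ) := by
    funext ρ
    rw [deriv_comp_mul_left c g ρ, smul_eq_mul]
  have d2 : deriv (deriv (fun ρ : ℝ => g (c * ρ))) (‖x‖ ^ 2) =
      c * (c * deriv (deriv g) (c * ‖x‖ ^ 2)) := by
    rw [d1, deriv_const_mul_field, deriv_comp_mul_left c (deriv g) (‖x‖ ^ 2), smul_eq_mul]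
  rw [d2, d1]
  ring

theorem hasDerivAt_kA1 {g : ℝ → ℝ} {η : ℝ} (hg : GoodG 2 g η) (s : ℝ) (x : E 2) :
    HasDerivAt (fun t => kA1 g t x) (‖x‖ ^ 2 * lap (kA g s) x) s := by
  rw [lap_kA hg s x]
  unfold kA1
  have hτ := hasDeriv_tau s x
  have hm := tau_mem hg (Real.exp_pos (2 * s)).le x
  have hdτ := (hasDeriv_dg hg hm).comp s hτ
  have h := (hτ.const_mul 2).mul hdτ
  refine h.congr_deriv ?_
  simp only [Function.comp]
  push_cast
  ring

theorem pd_kA1 {g : ℝ → ℝ} {η : ℝ} (hg : GoodG 2 g η) (s : ℝ) (x : E 2) (i : Fin 2) :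
    pd i (kA1 g s) x = x i * lap (kA g s) x := by
  rw [lap_kA hg s x]
  have hm := tau_mem hg (Real.exp_pos (2 * s)).le x
  set c : ℝ := Real.exp (2 * s) with hc
  have e : kA1 g s = fun z : E 2 => (fun ρ : ℝ => 2 * (c * ρ) * deriv g (c * ρ)) (‖z‖ ^ 2) := by
    funext z
    simp only [kA1, hc]
  have hin : ContDiff ℝ 2 (fun ρ : ℝ => c * ρ) := contDiff_const.mul contDiff_id
  have hcd : ContDiffAt ℝ 2 (fun ρ : ℝ => 2 * (c * ρ) * deriv g (c * ρ)) (‖x‖ ^ 2) := by
    have h2 : ContDiffAt ℝ 2 (deriv g) (c * ‖x‖ ^ 2) :=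
      ((smooth_d hg).contDiffAt (isOpen_Ioi.mem_nhds hm)).of_le two_le
    exact (contDiffAt_const.mul hin.contDiffAt).mul
      (ContDiffAt.comp (‖x‖ ^ 2) h2 hin.contDiffAt)
  rw [e, pd_radial hcd i]
  have hl : HasDerivAt (fun ρ : ℝ => c * ρ) c (‖x‖ ^ 2) := by
    have h0 := (hasDerivAt_id (‖x‖ ^ 2)).const_mul c
    rw [mul_one] at h0
    exact h0
  have hdτ := (hasDeriv_dg hg hm).comp (‖x‖ ^ 2) hl
  have h := (hl.const_mul 2).mul hdτ
  have hd : deriv (fun ρ : ℝ => 2 * (c * ρ) * deriv g (c * ρ)) (‖x‖ ^ 2) = _ := h.deriv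
  rw [hd]
  simp only [Function.comp]
  push_cast
  ring

theorem lap_kA_nonpos {g : ℝ → ℝ} {η : ℝ} (hg : GoodG 2 g η) (s : ℝ) (x : E 2) :
    lap (kA g s) x ≤ 0 := by
  rw [lap_kA hg s x]
  have h0 : 0 < Real.exp (2 * s) := Real.exp_pos _
  exact mul_nonpos_of_nonneg_of_nonpos h0.le
    (hg.super _ (mul_nonneg h0.le (by positivity)))

theorem continuous_kA {g : ℝ → ℝ} {η : ℝ} (hg : GoodG 2 g η) :
    Continuous (fun p : ℝ × E 2 => kA g p.1 p.2) ∧
    Continuous (fun p : ℝ × E 2 => kA1 g p.1 p.2) ∧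
    Continuous (fun p : ℝ × E 2 => lap (kA g p.1) p.2) := by
  have hτ : Continuous (fun p : ℝ × E 2 => Real.exp (2 * p.1) * ‖p.2‖ ^ 2) := by fun_prop
  have hmaps : ∀ p : ℝ × E 2, Real.exp (2 * p.1) * ‖p.2‖ ^ 2 ∈ Ioi (-η) := fun p =>
    tau_mem hg (Real.exp_pos _).le p.2
  have h1 := hg.smooth.continuousOn.comp_continuous hτ hmaps
  have h2 := (smooth_d hg).continuousOn.comp_continuous hτ hmaps
  have h3 := (smooth_dd hg).continuousOn.comp_continuous hτ hmaps
  refine ⟨h1, (continuous_const.mul hτ).mul h2, ?_⟩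
  have h4 : Continuous (fun p : ℝ × E 2 => Real.exp (2 * p.1) *
      (2 * (2 : ℕ) * deriv g (Real.exp (2 * p.1) * ‖p.2‖ ^ 2) +
        4 * (Real.exp (2 * p.1) * ‖p.2‖ ^ 2) *
          deriv (deriv g) (Real.exp (2 * p.1) * ‖p.2‖ ^ 2))) :=
    (Real.continuous_exp.comp (continuous_const.mul continuous_fst)).mul
      ((continuous_const.mul h2).add ((continuous_const.mul hτ).mul h3))
  exact h4.congr fun p => (lap_kA hg p.1 p.2).symm

end Pool.Agent.Lib.MP_6cd19d_an.ND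
end
end

section

section

/-!
# C07: truncations, additive version (analogue of B07 and B08 for `n = 2`)

`s : ℝ` arbitrary. `WL d U s = s - 1 + ze d (1 + U - s)`, `v = 1 + U x - s`, `c = deriv (cut d)`, `r0 = -lap U`,
`G = ∑ (pd i U)^2`.
`rL = -lap WL = cut v * r0 - c v * G` (`lap_comp`), `fL = ∂_s WL = 1 - cut v`, `kL = -∂_s² WL = - c v ≥ 0`.
`pd i fL = - c v * pd i U`, so `∑ (pd i fL)^2 = (c v)^2 G ≤ kL * rL`.
`∂_s rL = -c v r0 + c' v G = -lap fL` (`-lap fL = lap (cut v) = c v lap U + c' v G`), and `∂_s (-lap fL) = c' v r0 - c'' v G = lap kL`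
(`lap kL = -(c' v lap U + c'' v G)`).
`fL`, `kL` vanish if `U x ≤ s - d`; and there `rL = r0`. For `s ≥ s1` all vanish outside the compact set
`supL d U s1 = {x | s1 - d ≤ U x} ∪ tsupport (lap U)` (`U → -∞` at infinity).
`integral_rL`: `WL s - U` is smooth with compact support (`ze d v = v` for `v ≤ 1 - d`).
-/

set_option autoImplicit false

open MeasureTheory Set Filter Topology
open scoped ENNReal ContDiff

namespace Pool.Agent.Lib.MP_6cd19d_an.ND

/-- Smooth superharmonic functions in the plane, harmonic near infinity, tending to `-∞`. -/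
structure GoodL (U : E 2 → ℝ) : Prop where
  smooth : ContDiff ℝ ∞ U
  lap_nonpos : ∀ x, lap U x ≤ 0
  cs : HasCompactSupport (lap U)
  tend : Tendsto U (cocompact (E 2)) atBot

noncomputable def WL (d : ℝ) (U : E 2 → ℝ) (s : ℝ) (x : E 2) : ℝ := s - 1 + ze d (1 + U x - s)

noncomputable def rL (d : ℝ) (U : E 2 → ℝ) (s : ℝ) (x : E 2) : ℝ := -lap (WL d U s) x

noncomputable def fL (d : ℝ) (U : E 2 → ℝ) (s : ℝ) (x : E 2) : ℝ := 1 - cut d (1 + U x - s)

noncomputable def kL (d : ℝ) (U : E 2 → ℝ) (s : ℝ) (x : E 2) : ℝ := -deriv (cut d) (1 + U x - s)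

def supL (d : ℝ) (U : E 2 → ℝ) (s1 : ℝ) : Set (E 2) := {x | s1 - d ≤ U x} ∪ tsupport (lap U)

theorem isCompact_supL (d : ℝ) {U : E 2 → ℝ} (hU : GoodL U) (s1 : ℝ) :
    IsCompact (supL d U s1) := by
  refine IsCompact.union ?_ hU.cs
  have h1 : ∀ᶠ x in cocompact (E 2), U x < s1 - d := hU.tend.eventually_lt_atBot (s1 - d)
  obtain ⟨K, hK, hKU⟩ := mem_cocompact.mp h1
  refine hK.of_isClosed_subset (isClosed_le continuous_const hU.smooth.continuous) ?_
  intro x hx
  by_contra hxK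
  have h2 : U x < s1 - d := hKU hxK
  exact absurd hx (not_le.mpr h2)

/-- Abbreviations: the derivatives of the cut-off function. -/
private noncomputable def e1 (d : ℝ) : ℝ → ℝ := deriv (cut d)
private noncomputable def e2 (d : ℝ) : ℝ → ℝ := deriv (e1 d)
private noncomputable def e3 (d : ℝ) : ℝ → ℝ := deriv (e2 d)

private theorem cd_deriv' {f : ℝ → ℝ} (hf : ContDiff ℝ ∞ f) : ContDiff ℝ ∞ (deriv f) :=
  (contDiff_infty_iff_deriv.1 hf).2

private theorem cd_e1 (d : ℝ) : ContDiff ℝ ∞ (e1 d) := cd_deriv' (contDiff_cut d)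
private theorem cd_e2 (d : ℝ) : ContDiff ℝ ∞ (e2 d) := cd_deriv' (cd_e1 d)
private theorem cd_e3 (d : ℝ) : ContDiff ℝ ∞ (e3 d) := cd_deriv' (cd_e2 d)

private theorem hd_cut' (d v : ℝ) : HasDerivAt (cut d) (e1 d v) v :=
  ((contDiff_cut d).differentiable (by simp)).differentiableAt.hasDerivAt
private theorem hd_e1 (d v : ℝ) : HasDerivAt (e1 d) (e2 d v) v :=
  ((cd_e1 d).differentiable (by simp)).differentiableAt.hasDerivAt
private theorem hd_e2 (d v : ℝ) : HasDerivAt (e2 d) (e3 d v) v :=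
  ((cd_e2 d).differentiable (by simp)).differentiableAt.hasDerivAt

/-- The Laplacian of a function of `1 + U - s`. -/
private theorem lap_shift {U : E 2 → ℝ} (hU : ContDiff ℝ ∞ U) {ψ ψ1 ψ2 : ℝ → ℝ}
    (hψ : ContDiff ℝ ∞ ψ) (h1 : ∀ v, HasDerivAt ψ (ψ1 v) v) (h2 : ∀ v, HasDerivAt ψ1 (ψ2 v) v)
    (s : ℝ) (x : E 2) :
    lap (fun z => ψ (1 + U z - s)) x = ψ1 (1 + U x - s) * lap U x +
      ψ2 (1 + U x - s) * ∑ i, (pd i U x) ^ 2 := by
  have two_le : (2 : WithTop ℕ∞) ≤ ((⊤ : ℕ∞) : WithTop ℕ∞) :=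
    WithTop.coe_le_coe.2 (le_top : (2 : ℕ∞) ≤ ⊤)
  have hcd : ContDiff ℝ ∞ (fun u : ℝ => ψ (1 + u - s)) :=
    hψ.comp ((contDiff_const.add contDiff_id).sub contDiff_const)
  have hi : ∀ u : ℝ, HasDerivAt (fun u : ℝ => 1 + u - s) 1 u := fun u =>
    ((hasDerivAt_id u).const_add 1).sub_const s
  have e : (fun z => ψ (1 + U z - s)) = fun z => (fun u : ℝ => ψ (1 + u - s)) (U z) := rfl
  rw [e, lap_comp (hcd.contDiffAt.of_le two_le) (hU.contDiffAt.of_le two_le)]
  have d1 : deriv (fun u : ℝ => ψ (1 + u - s)) = fun u => ψ1 (1 + u - s) := by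
    funext u
    have h3 : HasDerivAt (fun u : ℝ => ψ (1 + u - s)) (ψ1 (1 + u - s) * 1) u :=
      HasDerivAt.comp (h₂ := ψ) u (h1 (1 + u - s)) (hi u)
    rw [mul_one] at h3
    exact h3.deriv
  have d2 : deriv (deriv (fun u : ℝ => ψ (1 + u - s))) (U x) = ψ2 (1 + U x - s) := by
    rw [d1]
    have h3 : HasDerivAt (fun u : ℝ => ψ1 (1 + u - s)) (ψ2 (1 + U x - s) * 1) (U x) :=
      HasDerivAt.comp (h₂ := ψ1) (U x) (h2 (1 + U x - s)) (hi (U x))
    rw [mul_one] at h3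
    exact h3.deriv
  rw [d2, d1]

private theorem cd_shift {U : E 2 → ℝ} (hU : ContDiff ℝ ∞ U) {ψ : ℝ → ℝ} (hψ : ContDiff ℝ ∞ ψ)
    (s : ℝ) : ContDiff ℝ ∞ (fun x => ψ (1 + U x - s)) :=
  hψ.comp ((contDiff_const.add hU).sub contDiff_const)

private theorem cd_WL (d : ℝ) {U : E 2 → ℝ} (hU : GoodL U) (s : ℝ) :
    ContDiff ℝ ∞ (WL d U s) :=
  contDiff_const.add (cd_shift hU.smooth (contDiff_ze d) s)

private theorem lap_fL (d : ℝ) {U : E 2 → ℝ} (hU : GoodL U) (s : ℝ) (x : E 2) :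
    lap (fL d U s) x = -e1 d (1 + U x - s) * lap U x +
      -e2 d (1 + U x - s) * ∑ i, (pd i U x) ^ 2 := by
  exact lap_shift hU.smooth (ψ := fun v => 1 - cut d v) (ψ1 := fun v => -e1 d v)
    (ψ2 := fun v => -e2 d v) (contDiff_const.sub (contDiff_cut d))
    (fun v => (hd_cut' d v).const_sub 1) (fun v => (hd_e1 d v).neg) s x

private theorem lap_kL (d : ℝ) {U : E 2 → ℝ} (hU : GoodL U) (s : ℝ) (x : E 2) :
    lap (kL d U s) x = -e2 d (1 + U x - s) * lap U x +
      -e3 d (1 + U x - s) * ∑ i, (pd i U x) ^ 2 := by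
  exact lap_shift hU.smooth (ψ := fun v => -e1 d v) (ψ1 := fun v => -e2 d v)
    (ψ2 := fun v => -e3 d v) (cd_e1 d).neg
    (fun v => (hd_e1 d v).neg) (fun v => (hd_e2 d v).neg) s x

theorem rL_formula (d : ℝ) {U : E 2 → ℝ} (hU : GoodL U) (s : ℝ) (x : E 2) :
    rL d U s x = cut d (1 + U x - s) * (-lap U x) -
      deriv (cut d) (1 + U x - s) * ∑ i, (pd i U x) ^ 2 := by
  have h1 : lap (WL d U s) x = cut d (1 + U x - s) * lap U x +
      e1 d (1 + U x - s) * ∑ i, (pd i U x) ^ 2 :=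
    lap_shift hU.smooth (ψ := fun v => s - 1 + ze d v) (ψ1 := cut d) (ψ2 := e1 d)
      (contDiff_const.add (contDiff_ze d)) (fun v => (hasDerivAt_ze d v).const_add (s - 1))
      (fun v => hd_cut' d v) s x
  unfold rL
  rw [h1]
  unfold e1
  ring

theorem rL_nonneg {d : ℝ} (hd : 0 < d) {U : E 2 → ℝ} (hU : GoodL U) (s : ℝ) (x : E 2) :
    0 ≤ rL d U s x := by
  rw [rL_formula d hU]
  have h1 : 0 ≤ cut d (1 + U x - s) * (-lap U x) :=
    mul_nonneg (cut_nonneg _ _) (by linarith [hU.lap_nonpos x])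
  have h2 : deriv (cut d) (1 + U x - s) * ∑ i, (pd i U x) ^ 2 ≤ 0 :=
    mul_nonpos_of_nonpos_of_nonneg (deriv_cut_nonpos hd _)
      (Finset.sum_nonneg fun i _ => sq_nonneg _)
  linarith

theorem kL_nonneg {d : ℝ} (hd : 0 < d) (U : E 2 → ℝ) (s : ℝ) (x : E 2) : 0 ≤ kL d U s x := by
  unfold kL
  linarith [deriv_cut_nonpos hd (1 + U x - s)]

theorem contDiff_rL (d : ℝ) {U : E 2 → ℝ} (hU : GoodL U) (s : ℝ) : ContDiff ℝ ∞ (rL d U s) := by
  exact (contDiff_lap (cd_WL d hU s)).neg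

theorem contDiff_fL (d : ℝ) {U : E 2 → ℝ} (hU : GoodL U) (s : ℝ) : ContDiff ℝ ∞ (fL d U s) := by
  exact contDiff_const.sub (cd_shift hU.smooth (contDiff_cut d) s)

theorem contDiff_kL (d : ℝ) {U : E 2 → ℝ} (hU : GoodL U) (s : ℝ) : ContDiff ℝ ∞ (kL d U s) := by
  exact (cd_shift hU.smooth (cd_e1 d) s).neg

theorem grad_sq_leL {d : ℝ} (hd : 0 < d) {U : E 2 → ℝ} (hU : GoodL U) (s : ℝ) (x : E 2) :
    ∑ i, (pd i (fL d U s) x) ^ 2 ≤ kL d U s x * rL d U s x := by
  have h1 : HasDerivAt (fun u : ℝ => 1 - cut d (1 + u - s)) (-(e1 d (1 + U x - s) * 1)) (U x) :=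
    (HasDerivAt.comp (h₂ := cut d) (U x) (hd_cut' d (1 + U x - s))
      (((hasDerivAt_id (U x)).const_add 1).sub_const s)).const_sub 1
  have h2 : ∀ i, pd i (fL d U s) x = -(e1 d (1 + U x - s) * 1) * pd i U x := by
    intro i
    have h3 := pd_comp (f := U) (ψ := fun u => 1 - cut d (1 + u - s)) (x := x)
      h1.differentiableAt (hU.smooth.differentiable (by simp)).differentiableAt i
    rw [h1.deriv] at h3
    exact h3
  simp only [h2, mul_pow]
  rw [← Finset.mul_sum, rL_formula d hU]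
  unfold kL e1
  have h3 : 0 ≤ cut d (1 + U x - s) * (-lap U x) :=
    mul_nonneg (cut_nonneg _ _) (by linarith [hU.lap_nonpos x])
  have h4 : 0 ≤ -deriv (cut d) (1 + U x - s) := by
    linarith [deriv_cut_nonpos hd (1 + U x - s)]
  have h5 := mul_nonneg h4 h3
  have h7 : -deriv (cut d) (1 + U x - s) *
      (cut d (1 + U x - s) * (-lap U x) -
        deriv (cut d) (1 + U x - s) * ∑ i, (pd i U x) ^ 2) =
      -deriv (cut d) (1 + U x - s) * (cut d (1 + U x - s) * (-lap U x)) +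
      (-(deriv (cut d) (1 + U x - s) * 1)) ^ 2 * ∑ i, (pd i U x) ^ 2 := by ring
  rw [h7]
  linarith

theorem suppL {d : ℝ} (hd : 0 < d) (hd1 : d < 1) {U : E 2 → ℝ} (hU : GoodL U)
    {s1 s : ℝ} (hs : s1 ≤ s) {x : E 2} (hx : x ∉ supL d U s1) :
    rL d U s x = 0 ∧ fL d U s x = 0 ∧ kL d U s x = 0 ∧
      lap (fL d U s) x = 0 ∧ lap (kL d U s) x = 0 := by
  have _ := hd1
  have hx1 : U x < s1 - d := by
    by_contra hcon
    exact hx (Or.inl (not_lt.1 hcon))
  have hx2 : lap U x = 0 := image_eq_zero_of_notMem_tsupport (fun h => hx (Or.inr h))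
  have hv : 1 + U x - s < 1 - d := by linarith
  have q : e1 d =ᶠ[𝓝 (1 + U x - s)] fun _ => 0 := by
    filter_upwards [gt_mem_nhds hv] with w hw
    exact cut_deriv_zero hd (Or.inl (le_of_lt hw))
  have q' : e2 d =ᶠ[𝓝 (1 + U x - s)] fun _ => 0 := by
    refine q.deriv.trans (Eventually.of_forall (fun w => ?_))
    simp only [deriv_const]
  have q'' : e3 d =ᶠ[𝓝 (1 + U x - s)] fun _ => 0 := by
    refine q'.deriv.trans (Eventually.of_forall (fun w => ?_))
    simp only [deriv_const]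
  have q1 : e1 d (1 + U x - s) = 0 := q.eq_of_nhds
  have q2 : e2 d (1 + U x - s) = 0 := q'.eq_of_nhds
  have q3 : e3 d (1 + U x - s) = 0 := q''.eq_of_nhds
  have q0 : deriv (cut d) (1 + U x - s) = 0 := q1
  refine ⟨?_, ?_, ?_, ?_, ?_⟩
  · rw [rL_formula d hU, hx2, q0]
    simp
  · unfold fL
    rw [cut_eq_one hd hv.le, sub_self]
  · unfold kL
    rw [q0, neg_zero]
  · rw [lap_fL d hU, hx2, q2]
    simp
  · rw [lap_kL d hU, hx2, q3]
    simp

theorem rL_of_le {d : ℝ} (hd : 0 < d) (hd1 : d < 1) {U : E 2 → ℝ} (hU : GoodL U)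
    {s : ℝ} (h : ∀ x, U x ≤ s - d) (x : E 2) : rL d U s x = -lap U x := by
  have _ := hd1
  have hv : 1 + U x - s ≤ 1 - d := by linarith [h x]
  rw [rL_formula d hU, cut_eq_one hd hv, cut_deriv_zero hd (Or.inl hv)]
  simp

theorem integral_rL {d : ℝ} (hd : 0 < d) (hd1 : d < 1) {U : E 2 → ℝ} (hU : GoodL U) (s : ℝ) :
    ∫ x, rL d U s x = ∫ x, -lap U x := by
  have hW := cd_WL d hU s
  have hc : HasCompactSupport (fun z => WL d U s z - U z) := by
    refine HasCompactSupport.intro (isCompact_supL d hU s) fun x hx => ?_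
    have h1 : ¬ s - d ≤ U x := fun h => hx (Or.inl h)
    have h3 : 1 + U x - s ≤ 1 - d := by linarith [not_le.mp h1]
    unfold WL
    rw [ze_eq hd hd1 h3]
    ring
  have hsm : ContDiff ℝ ∞ (fun z => WL d U s z - U z) := hW.sub hU.smooth
  have h0 := integral_lap_eq_zero hsm hc
  have h1 : ∀ x, lap (fun z => WL d U s z - U z) x = lap (WL d U s) x - lap U x :=
    fun x => lap_sub hW hU.smooth x
  have i1 : Integrable (lap U) :=
    (contDiff_lap hU.smooth).continuous.integrable_of_hasCompactSupport hU.cs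
  have i2 : Integrable (lap (fun z => WL d U s z - U z)) :=
    (contDiff_lap hsm).continuous.integrable_of_hasCompactSupport (hasCompactSupport_lap hc)
  have h2 : ∀ x, rL d U s x = -lap U x - lap (fun z => WL d U s z - U z) x := by
    intro x
    rw [h1]
    unfold rL
    ring
  simp only [h2]
  have h3 : ∫ x, (-lap U x - lap (fun z => WL d U s z - U z) x) =
      (∫ x, -lap U x) - ∫ x, lap (fun z => WL d U s z - U z) x :=
    integral_sub i1.neg i2
  rw [h3, h0, sub_zero]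

private theorem hd_vs (u s : ℝ) : HasDerivAt (fun t : ℝ => 1 + u - t) (-1) s :=
  (hasDerivAt_id s).const_sub (1 + u)

theorem hasDerivAt_rL (d : ℝ) {U : E 2 → ℝ} (hU : GoodL U) (s : ℝ) (x : E 2) :
    HasDerivAt (fun t => rL d U t x) (-lap (fL d U s) x) s := by
  have hv := hd_vs (U x) s
  have h1 : HasDerivAt (fun t : ℝ => cut d (1 + U x - t)) (e1 d (1 + U x - s) * (-1)) s :=
    HasDerivAt.comp (h₂ := cut d) s (hd_cut' d (1 + U x - s)) hv
  have h2 : HasDerivAt (fun t : ℝ => e1 d (1 + U x - t)) (e2 d (1 + U x - s) * (-1)) s :=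
    HasDerivAt.comp (h₂ := e1 d) s (hd_e1 d (1 + U x - s)) hv
  have h3 := (h1.mul_const (-lap U x)).sub (h2.mul_const (∑ i, (pd i U x) ^ 2))
  have h4 : HasDerivAt (fun t : ℝ => cut d (1 + U x - t) * (-lap U x) -
      e1 d (1 + U x - t) * ∑ i, (pd i U x) ^ 2) (-lap (fL d U s) x) s := by
    refine h3.congr_deriv ?_
    rw [lap_fL d hU s x]
    ring
  have h5 : (fun t => rL d U t x) = fun t : ℝ => cut d (1 + U x - t) * (-lap U x) -
      e1 d (1 + U x - t) * ∑ i, (pd i U x) ^ 2 := funext fun t => rL_formula d hU t x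
  rw [h5]
  exact h4

theorem hasDerivAt_rL1 (d : ℝ) {U : E 2 → ℝ} (hU : GoodL U) (s : ℝ) (x : E 2) :
    HasDerivAt (fun t => -lap (fL d U t) x) (lap (kL d U s) x) s := by
  have hv := hd_vs (U x) s
  have h1 : HasDerivAt (fun t : ℝ => e1 d (1 + U x - t)) (e2 d (1 + U x - s) * (-1)) s :=
    HasDerivAt.comp (h₂ := e1 d) s (hd_e1 d (1 + U x - s)) hv
  have h2 : HasDerivAt (fun t : ℝ => e2 d (1 + U x - t)) (e3 d (1 + U x - s) * (-1)) s :=
    HasDerivAt.comp (h₂ := e2 d) s (hd_e2 d (1 + U x - s)) hv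
  have h3 := (h1.mul_const (lap U x)).add (h2.mul_const (∑ i, (pd i U x) ^ 2))
  have h4 : HasDerivAt (fun t : ℝ => e1 d (1 + U x - t) * lap U x +
      e2 d (1 + U x - t) * ∑ i, (pd i U x) ^ 2) (lap (kL d U s) x) s := by
    refine h3.congr_deriv ?_
    rw [lap_kL d hU s x]
    ring
  have h5 : (fun t => -lap (fL d U t) x) = fun t : ℝ => e1 d (1 + U x - t) * lap U x +
      e2 d (1 + U x - t) * ∑ i, (pd i U x) ^ 2 := by
    funext t
    rw [lap_fL d hU t x]
    ring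
  rw [h5]
  exact h4

theorem continuous_rL (d : ℝ) {U : E 2 → ℝ} (hU : GoodL U) :
    Continuous (fun p : ℝ × E 2 => rL d U p.1 p.2) ∧
    Continuous (fun p : ℝ × E 2 => lap (fL d U p.1) p.2) ∧
    Continuous (fun p : ℝ × E 2 => lap (kL d U p.1) p.2) := by
  have hv : Continuous (fun p : ℝ × E 2 => 1 + U p.2 - p.1) :=
    (continuous_const.add (hU.smooth.continuous.comp continuous_snd)).sub continuous_fst
  have hL : Continuous (fun p : ℝ × E 2 => lap U p.2) :=
    (contDiff_lap hU.smooth).continuous.comp continuous_snd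
  have hG : Continuous (fun p : ℝ × E 2 => ∑ i, (pd i U p.2) ^ 2) :=
    continuous_finsetSum _ fun i _ =>
      ((contDiff_pd hU.smooth i).continuous.comp continuous_snd).pow 2
  have k0 : Continuous (fun p : ℝ × E 2 => cut d (1 + U p.2 - p.1)) :=
    (contDiff_cut d).continuous.comp hv
  have k1 : Continuous (fun p : ℝ × E 2 => e1 d (1 + U p.2 - p.1)) :=
    (cd_e1 d).continuous.comp hv
  have k2 : Continuous (fun p : ℝ × E 2 => e2 d (1 + U p.2 - p.1)) :=
    (cd_e2 d).continuous.comp hv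
  have k3 : Continuous (fun p : ℝ × E 2 => e3 d (1 + U p.2 - p.1)) :=
    (cd_e3 d).continuous.comp hv
  refine ⟨?_, ?_, ?_⟩
  · have h : (fun p : ℝ × E 2 => rL d U p.1 p.2) = fun p : ℝ × E 2 =>
        cut d (1 + U p.2 - p.1) * (-lap U p.2) -
          e1 d (1 + U p.2 - p.1) * ∑ i, (pd i U p.2) ^ 2 :=
      funext fun p => rL_formula d hU p.1 p.2
    rw [h]
    exact (k0.mul hL.neg).sub (k1.mul hG)
  · have h : (fun p : ℝ × E 2 => lap (fL d U p.1) p.2) = fun p : ℝ × E 2 =>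
        -e1 d (1 + U p.2 - p.1) * lap U p.2 +
          -e2 d (1 + U p.2 - p.1) * ∑ i, (pd i U p.2) ^ 2 :=
      funext fun p => lap_fL d hU p.1 p.2
    rw [h]
    exact (k1.neg.mul hL).add (k2.neg.mul hG)
  · have h : (fun p : ℝ × E 2 => lap (kL d U p.1) p.2) = fun p : ℝ × E 2 =>
        -e2 d (1 + U p.2 - p.1) * lap U p.2 +
          -e3 d (1 + U p.2 - p.1) * ∑ i, (pd i U p.2) ^ 2 :=
      funext fun p => lap_kL d hU p.1 p.2
    rw [h]
    exact (k2.neg.mul hL).add (k3.neg.mul hG)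

private theorem tendsto_nl {d T : ℝ} (hd : 0 < d) (hd1 : d < 1) :
    Tendsto (nl d T) (cocompact (E 2)) atBot := by
  have h1 : Tendsto (fun z : E 2 => -Real.log ‖z‖) (cocompact (E 2)) atBot :=
    tendsto_neg_atTop_atBot.comp (Real.tendsto_log_atTop.comp tendsto_norm_cocompact_atTop)
  have h4 : ∀ᶠ z in cocompact (E 2), z ≠ 0 := by
    have h5 : ({(0 : E 2)} : Set (E 2))ᶜ ∈ cocompact (E 2) :=
      (isCompact_singleton).compl_mem_cocompact
    exact h5
  refine tendsto_atBot_mono' _ ?_ h1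
  filter_upwards [h4] with z hz
  exact nl_le hd hd1 hz

theorem goodL_sum {N : ℕ} {d T : ℝ} (hd : 0 < d) (hd1 : d < 1)
    {m : Fin N → ℝ} (hm : ∀ j, 0 ≤ m j) (hm1 : ∑ j, m j = 1) (y : Fin N → E 2) :
    GoodL (fun x => ∑ j, m j * nl d T (x - y j)) := by
  have hs : ∀ j, ContDiff ℝ ∞ (fun x : E 2 => nl d T (x - y j)) := fun j =>
    (contDiff_nl hd hd1).comp (contDiff_id.sub contDiff_const)
  have hlap : ∀ x, lap (fun x => ∑ j, m j * nl d T (x - y j)) x =
      ∑ j, m j * lap (nl d T) (x - y j) := by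
    intro x
    rw [lap_sum (f := fun j x => nl d T (x - y j)) hs m x]
    refine Finset.sum_congr rfl fun j _ => ?_
    rw [lap_sub_right (contDiff_nl hd hd1)]
  refine ⟨?_, ?_, ?_, ?_⟩
  · exact ContDiff.sum fun j _ => contDiff_const.mul (hs j)
  · intro x
    rw [hlap]
    refine Finset.sum_nonpos fun j _ => ?_
    have h1 := btL_nonneg (T := T) hd hd1 (x - y j)
    unfold btL at h1
    exact mul_nonpos_of_nonneg_of_nonpos (hm j) (by linarith)
  · have h1 : lap (fun x => ∑ j, m j * nl d T (x - y j)) =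
        fun x => ∑ j, m j * lap (nl d T) (x - y j) := funext hlap
    rw [h1]
    have hb := hasCompactSupport_btL (T := T) hd hd1
    refine HasCompactSupport.intro
      (K := ⋃ j : Fin N, (fun z => z + y j) '' tsupport (btL d T)) ?_ ?_
    · exact isCompact_iUnion fun j => IsCompact.image hb (by fun_prop)
    · intro x hx
      refine Finset.sum_eq_zero fun j _ => ?_
      have h2 : x - y j ∉ tsupport (btL d T) := by
        intro h
        apply hx
        rw [mem_iUnion]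
        exact ⟨j, x - y j, h, by simp⟩
      have h3 : btL d T (x - y j) = 0 := image_eq_zero_of_notMem_tsupport h2
      unfold btL at h3
      have h4 : lap (nl d T) (x - y j) = 0 := by linarith
      rw [h4, mul_zero]
  · have h1 : ∀ j, Tendsto (fun x : E 2 => nl d T (x - y j)) (cocompact (E 2)) atBot := by
      intro j
      have h2 : Tendsto (fun x : E 2 => x - y j) (cocompact (E 2)) (cocompact (E 2)) :=
        (Homeomorph.subRight (y j)).isClosedEmbedding.tendsto_cocompact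
      exact (tendsto_nl hd hd1).comp h2
    rw [tendsto_atBot]
    intro b
    have h2 : ∀ᶠ x in cocompact (E 2), ∀ j, nl d T (x - y j) ≤ b :=
      eventually_all.2 fun j => (h1 j).eventually_le_atBot b
    filter_upwards [h2] with x hx
    calc ∑ j, m j * nl d T (x - y j) ≤ ∑ j, m j * b :=
          Finset.sum_le_sum fun j _ => mul_le_mul_of_nonneg_left (hx j) (hm j)
      _ = b := by rw [← Finset.sum_mul, hm1, one_mul]

end Pool.Agent.Lib.MP_6cd19d_an.ND
end

section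

/-!
# C11: concavity of the energy, `n = 2` (analogue of B11 and B11b)

`PhL s = ∬ kA s (x-y) rL s x rL s y`, `s : ℝ`. Exactly as in B11 / B11b (docstring of B11.lean) with `ks, k1, rr, ff, kk`
replaced by `kA, kA1, rL, fL, kL`, and the factor `a/s` replaced by `1`:
`PhL'' = ∬ L(D) {|D|^2 r r' + 2 D·(J r' - J' r) - 2 J·J' + κ r' + κ' r} ≤ 0`, `L = lap (kA s)`, `J = grad fL`, `κ = kL`,
by `pointwise_nonneg` with `t = 1`. (You may copy the proofs of B11.lean and B11b.lean when they are on main.)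
`antitone_of_concave_bdd`: a concave function on `ℝ` which is bounded below on `(-∞, s1]` is antitone: if
`Φ s < Φ t` for some `s < t` then the slope is positive and by concavity `Φ u ≤ Φ s - (slope) (s - u) → -∞` as `u → -∞`.
-/

set_option autoImplicit false

open MeasureTheory Set Filter Topology
open scoped ENNReal ContDiff

namespace Pool.Agent.Lib.MP_6cd19d_an.ND

noncomputable def PhL (g : ℝ → ℝ) (d : ℝ) (U : E 2 → ℝ) (s : ℝ) : ℝ :=
  ∫ z : E 2 × E 2, kA g s (z.1 - z.2) * (rL d U s z.1 * rL d U s z.2)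

/-- Its derivative. -/
noncomputable def dPhL (g : ℝ → ℝ) (d : ℝ) (U : E 2 → ℝ) (s : ℝ) : ℝ :=
  ∫ z : E 2 × E 2, (kA1 g s (z.1 - z.2) * (rL d U s z.1 * rL d U s z.2) +
    kA g s (z.1 - z.2) * ((-lap (fL d U s) z.1) * rL d U s z.2 +
      rL d U s z.1 * (-lap (fL d U s) z.2)))

/-- Its second derivative. -/
noncomputable def ddPhL (g : ℝ → ℝ) (d : ℝ) (U : E 2 → ℝ) (s : ℝ) : ℝ :=
  ∫ z : E 2 × E 2, (‖z.1 - z.2‖ ^ 2 *
      lap (kA g s) (z.1 - z.2) * (rL d U s z.1 * rL d U s z.2) +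
    2 * (kA1 g s (z.1 - z.2) * ((-lap (fL d U s) z.1) * rL d U s z.2 +
      rL d U s z.1 * (-lap (fL d U s) z.2))) +
    kA g s (z.1 - z.2) * (lap (kL d U s) z.1 * rL d U s z.2 +
      2 * (lap (fL d U s) z.1 * lap (fL d U s) z.2) + rL d U s z.1 * lap (kL d U s) z.2))

private theorem c11_fst {f : ℝ → E 2 → ℝ} (hf : Continuous (fun p : ℝ × E 2 => f p.1 p.2)) :
    Continuous (fun q : ℝ × E 2 × E 2 => f q.1 q.2.1) :=
  hf.comp (g := fun p : ℝ × E 2 => f p.1 p.2)
    (f := fun q : ℝ × E 2 × E 2 => ((q.1, q.2.1) : ℝ × E 2)) (by fun_prop)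

private theorem c11_snd {f : ℝ → E 2 → ℝ} (hf : Continuous (fun p : ℝ × E 2 => f p.1 p.2)) :
    Continuous (fun q : ℝ × E 2 × E 2 => f q.1 q.2.2) :=
  hf.comp (g := fun p : ℝ × E 2 => f p.1 p.2)
    (f := fun q : ℝ × E 2 × E 2 => ((q.1, q.2.2) : ℝ × E 2)) (by fun_prop)

private theorem c11_diff {f : ℝ → E 2 → ℝ} (hf : Continuous (fun p : ℝ × E 2 => f p.1 p.2)) :
    Continuous (fun q : ℝ × E 2 × E 2 => f q.1 (q.2.1 - q.2.2)) :=
  hf.comp (g := fun p : ℝ × E 2 => f p.1 p.2)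
    (f := fun q : ℝ × E 2 × E 2 => ((q.1, q.2.1 - q.2.2) : ℝ × E 2)) (by fun_prop)

private theorem c11_not_mem {C : Set (E 2)} {z : E 2 × E 2} (hz : z ∉ C ×ˢ C) :
    z.1 ∉ C ∨ z.2 ∉ C := by
  by_contra h
  push Not at h
  exact hz ⟨h.1, h.2⟩

theorem hasDerivAt_PhL {g : ℝ → ℝ} {η : ℝ} (hg : GoodG 2 g η) {d : ℝ}
    (hd : 0 < d) (hd1 : d < 1) {U : E 2 → ℝ} (hU : GoodL U) (s : ℝ) :
    HasDerivAt (PhL g d U) (dPhL g d U s) s := by
  have hmem : s ∈ Ioo (s - 1) (s + 1) := ⟨by linarith, by linarith⟩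
  obtain ⟨ckk, ck1, -⟩ := continuous_kA hg
  obtain ⟨crr, crr1, -⟩ := continuous_rL d hU
  have crf := c11_fst crr
  have crs := c11_snd crr
  have cf1 := c11_fst (f := fun t x => lap (fL d U t) x) crr1
  have cs1 := c11_snd (f := fun t x => lap (fL d U t) x) crr1
  have ckd := c11_diff ckk
  have ck1d := c11_diff ck1
  refine hasDerivAt_integral_compact (X := E 2 × E 2) (ν := volume)
    (P := fun t z => kA g t (z.1 - z.2) * (rL d U t z.1 * rL d U t z.2))
    (P' := fun t z => kA1 g t (z.1 - z.2) * (rL d U t z.1 * rL d U t z.2) +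
      kA g t (z.1 - z.2) * ((-lap (fL d U t) z.1) * rL d U t z.2 +
      rL d U t z.1 * (-lap (fL d U t) z.2)))
    ((isCompact_supL d hU (s - 1)).prod (isCompact_supL d hU (s - 1))) ?_ ?_ ?_ ?_ ?_ hmem
  · exact (ckd.mul (crf.mul crs)).continuousOn
  · exact ((ck1d.mul (crf.mul crs)).add
      (ckd.mul ((cf1.neg.mul crs).add (crf.mul cs1.neg)))).continuousOn
  · intro t ht z
    exact (hasDerivAt_kA hg t (z.1 - z.2)).mul
      ((hasDerivAt_rL d hU t z.1).mul (hasDerivAt_rL d hU t z.2))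
  · intro t ht z hz
    rcases c11_not_mem hz with h | h
    · simp [(suppL hd hd1 hU ht.1.le h).1]
    · simp [(suppL hd hd1 hU ht.1.le h).1]
  · intro t ht z hz
    rcases c11_not_mem hz with h | h
    · simp [(suppL hd hd1 hU ht.1.le h).1, (suppL hd hd1 hU ht.1.le h).2.2.2.1]
    · simp [(suppL hd hd1 hU ht.1.le h).1, (suppL hd hd1 hU ht.1.le h).2.2.2.1]

theorem hasDerivAt_dPhL {g : ℝ → ℝ} {η : ℝ} (hg : GoodG 2 g η) {d : ℝ}
    (hd : 0 < d) (hd1 : d < 1) {U : E 2 → ℝ} (hU : GoodL U) (s : ℝ) :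
    HasDerivAt (dPhL g d U) (ddPhL g d U s) s := by
  have hmem : s ∈ Ioo (s - 1) (s + 1) := ⟨by linarith, by linarith⟩
  obtain ⟨ckk, ck1, ck2⟩ := continuous_kA hg
  obtain ⟨crr, crr1, crr2⟩ := continuous_rL d hU
  have crf := c11_fst crr
  have crs := c11_snd crr
  have cf1 := c11_fst (f := fun t x => lap (fL d U t) x) crr1
  have cs1 := c11_snd (f := fun t x => lap (fL d U t) x) crr1
  have cf2 := c11_fst (f := fun t x => lap (kL d U t) x) crr2
  have cs2 := c11_snd (f := fun t x => lap (kL d U t) x) crr2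
  have ckd := c11_diff ckk
  have ck1d := c11_diff ck1
  have ck2d := c11_diff (f := fun t x => lap (kA g t) x) ck2
  have cc : Continuous (fun q : ℝ × E 2 × E 2 => ‖q.2.1 - q.2.2‖ ^ 2) := by fun_prop
  refine hasDerivAt_integral_compact (X := E 2 × E 2) (ν := volume)
    (P := fun t z => kA1 g t (z.1 - z.2) * (rL d U t z.1 * rL d U t z.2) +
      kA g t (z.1 - z.2) * ((-lap (fL d U t) z.1) * rL d U t z.2 +
      rL d U t z.1 * (-lap (fL d U t) z.2)))
    (P' := fun t z => ‖z.1 - z.2‖ ^ 2 *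
      lap (kA g t) (z.1 - z.2) * (rL d U t z.1 * rL d U t z.2) +
      2 * (kA1 g t (z.1 - z.2) * ((-lap (fL d U t) z.1) * rL d U t z.2 +
        rL d U t z.1 * (-lap (fL d U t) z.2))) +
      kA g t (z.1 - z.2) * (lap (kL d U t) z.1 * rL d U t z.2 +
        2 * (lap (fL d U t) z.1 * lap (fL d U t) z.2) + rL d U t z.1 * lap (kL d U t) z.2))
    ((isCompact_supL d hU (s - 1)).prod (isCompact_supL d hU (s - 1))) ?_ ?_ ?_ ?_ ?_ hmem
  · exact ((ck1d.mul (crf.mul crs)).add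
      (ckd.mul ((cf1.neg.mul crs).add (crf.mul cs1.neg)))).continuousOn
  · exact ((((cc.mul ck2d).mul (crf.mul crs)).add
      (continuous_const.mul (ck1d.mul ((cf1.neg.mul crs).add (crf.mul cs1.neg))))).add
      (ckd.mul (((cf2.mul crs).add (continuous_const.mul (cf1.mul cs1))).add
        (crf.mul cs2)))).continuousOn
  · intro t ht z
    have e1 := ((hasDerivAt_kA1 hg t (z.1 - z.2)).mul
      ((hasDerivAt_rL d hU t z.1).mul (hasDerivAt_rL d hU t z.2))).add
      ((hasDerivAt_kA hg t (z.1 - z.2)).mul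
        (((hasDerivAt_rL1 d hU t z.1).mul (hasDerivAt_rL d hU t z.2)).add
        ((hasDerivAt_rL d hU t z.1).mul (hasDerivAt_rL1 d hU t z.2))))
    refine e1.congr_deriv ?_
    simp only [Pi.mul_apply, Pi.add_apply]
    ring
  · intro t ht z hz
    rcases c11_not_mem hz with h | h
    · simp [(suppL hd hd1 hU ht.1.le h).1, (suppL hd hd1 hU ht.1.le h).2.2.2.1]
    · simp [(suppL hd hd1 hU ht.1.le h).1, (suppL hd hd1 hU ht.1.le h).2.2.2.1]
  · intro t ht z hz
    rcases c11_not_mem hz with h | h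
    · simp [(suppL hd hd1 hU ht.1.le h).1, (suppL hd hd1 hU ht.1.le h).2.2.2.1,
        (suppL hd hd1 hU ht.1.le h).2.2.2.2]
    · simp [(suppL hd hd1 hU ht.1.le h).1, (suppL hd hd1 hU ht.1.le h).2.2.2.1,
        (suppL hd hd1 hU ht.1.le h).2.2.2.2]

/-- Continuous functions on the product vanishing outside a compact box are integrable. -/
private theorem c11_intCS {n : ℕ} {F : E n × E n → ℝ} (hF : Continuous F) {C : Set (E n)}
    (hC : IsCompact C) (h : ∀ z : E n × E n, (z.1 ∉ C ∨ z.2 ∉ C) → F z = 0) :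
    Integrable F := by
  refine hF.integrable_of_hasCompactSupport (HasCompactSupport.intro (hC.prod hC) ?_)
  intro z hz
  apply h
  by_contra hcon
  push Not at hcon
  exact hz ⟨hcon.1, hcon.2⟩

private theorem c11_int3 {n : ℕ} {P Q R : E n → ℝ} (hP : Continuous P) (hQ : Continuous Q)
    (hR : Continuous R) {C : Set (E n)} (hC : IsCompact C) (cP : ∀ x, x ∉ C → P x = 0)
    (cQ : ∀ x, x ∉ C → Q x = 0) :
    Integrable (fun z : E n × E n => P z.1 * Q z.2 * R (z.1 - z.2)) := by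
  refine c11_intCS (((hP.comp continuous_fst).mul (hQ.comp continuous_snd)).mul
    (hR.comp (continuous_fst.sub continuous_snd))) hC ?_
  rintro z (h | h)
  · simp only [cP _ h, zero_mul]
  · simp only [cQ _ h, mul_zero, zero_mul]

private theorem c11_swapI {n : ℕ} (F : E n × E n → ℝ) :
    ∫ z : E n × E n, F (z.2, z.1) = ∫ z, F z := by
  have h := MeasureTheory.integral_prod_swap (μ := (volume : Measure (E n)))
    (ν := (volume : Measure (E n))) F
  rw [Measure.volume_eq_prod]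
  exact h

private theorem c11_swap3 {n : ℕ} (P Q R : E n → ℝ) (hR : ∀ x, R (-x) = R x) :
    ∫ z : E n × E n, P z.1 * Q z.2 * R (z.1 - z.2) =
      ∫ z : E n × E n, Q z.1 * P z.2 * R (z.1 - z.2) := by
  rw [← c11_swapI (fun z : E n × E n => Q z.1 * P z.2 * R (z.1 - z.2))]
  refine integral_congr_ae (Eventually.of_forall (fun z => ?_))
  have h : R (z.1 - z.2) = R (z.2 - z.1) := by rw [← hR, neg_sub]
  simp only [h]
  ring

private theorem c11_dx_lap {n : ℕ} {P Q R : E n → ℝ} (hP : ContDiff ℝ ∞ P) (hQ : Continuous Q)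
    (hR : ContDiff ℝ ∞ R) {C : Set (E n)} (hC : IsCompact C) (cP : ∀ x, x ∉ C → P x = 0)
    (clP : ∀ x, x ∉ C → lap P x = 0) (cQ : ∀ x, x ∉ C → Q x = 0) :
    ∫ z : E n × E n, lap P z.1 * Q z.2 * R (z.1 - z.2) =
      ∫ z : E n × E n, P z.1 * Q z.2 * lap R (z.1 - z.2) := by
  have i1 := c11_int3 (contDiff_lap hP).continuous hQ hR.continuous hC clP cQ
  have i2 := c11_int3 hP.continuous hQ (contDiff_lap hR).continuous hC cP cQ
  rw [Measure.volume_eq_prod] at i1 i2 ⊢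
  rw [integral_prod_symm _ i1, integral_prod_symm _ i2]
  refine integral_congr_ae (Eventually.of_forall (fun y => ?_))
  simp only
  have h := ibp_lap hP hR (HasCompactSupport.intro hC cP) y
  have e1 : ∀ x, lap P x * Q y * R (x - y) = Q y * (lap P x * R (x - y)) := fun x => by ring
  have e2 : ∀ x, P x * Q y * lap R (x - y) = Q y * (P x * lap R (x - y)) := fun x => by ring
  simp only [e1, e2]
  rw [integral_const_mul, integral_const_mul, h]

private theorem c11_dx_grad {n : ℕ} {P Q R : E n → ℝ} (hP : ContDiff ℝ ∞ P) (hQ : Continuous Q)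
    (hR : ContDiff ℝ ∞ R) {C : Set (E n)} (hC : IsCompact C) (cP : ∀ x, x ∉ C → P x = 0)
    (cgP : ∀ x, x ∉ C → ∀ i, pd i P x = 0)
    (clP : ∀ x, x ∉ C → lap P x = 0) (cQ : ∀ x, x ∉ C → Q x = 0) :
    ∫ z : E n × E n, lap P z.1 * Q z.2 * R (z.1 - z.2) =
      -∫ z : E n × E n, (∑ i, pd i P z.1 * pd i R (z.1 - z.2)) * Q z.2 := by
  have i1 := c11_int3 (contDiff_lap hP).continuous hQ hR.continuous hC clP cQ
  have i2 : Integrable (fun z : E n × E n => (∑ i, pd i P z.1 * pd i R (z.1 - z.2)) * Q z.2) := by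
    refine c11_intCS ?_ hC ?_
    · refine Continuous.mul ?_ (hQ.comp continuous_snd)
      exact continuous_finsetSum _ (fun i _ => ((contDiff_pd hP i).continuous.comp
        continuous_fst).mul ((contDiff_pd hR i).continuous.comp
          (continuous_fst.sub continuous_snd)))
    · rintro z (h | h)
      · simp only [cgP _ h, zero_mul, Finset.sum_const_zero]
      · simp only [cQ _ h, mul_zero]
  rw [Measure.volume_eq_prod] at i1 i2 ⊢
  rw [integral_prod_symm _ i1, integral_prod_symm _ i2, ← integral_neg]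
  refine integral_congr_ae (Eventually.of_forall (fun y => ?_))
  simp only
  have h := ibp_grad hP hR (HasCompactSupport.intro hC cP) y
  have e1 : ∀ x, lap P x * Q y * R (x - y) = Q y * (lap P x * R (x - y)) := fun x => by ring
  have e2 : ∀ x, (∑ i, pd i P x * pd i R (x - y)) * Q y =
      Q y * (∑ i, pd i P x * pd i R (x - y)) := fun x => by ring
  simp only [e1, e2]
  rw [integral_const_mul, integral_const_mul, h]
  ring

private theorem c11_lap_even {n : ℕ} {f : E n → ℝ} (hf : ContDiff ℝ ∞ f) (he : ∀ x, f (-x) = f x)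
    (x : E n) : lap f (-x) = lap f x := by
  have h1 : ∀ (i : Fin n) (y : E n), pd i f y = -pd i f (-y) := by
    intro i y
    have h := pd_sub_left hf i 0 y
    have e : (fun z => f (0 - z)) = f := by
      funext z
      rw [zero_sub, he]
    rw [e, zero_sub] at h
    exact h
  unfold lap
  refine Finset.sum_congr rfl (fun i _ => ?_)
  have h2 := pd_sub_left (contDiff_pd hf i) i 0 x
  have e : (fun z => pd i f (0 - z)) = fun z => -pd i f z := by
    funext z
    rw [zero_sub, h1 i z, neg_neg]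
  rw [e, zero_sub] at h2
  have h3 : pd i (fun z => -pd i f z) x = -pd i (pd i f) x := by
    unfold pd
    rw [show (fun z => -(fderiv ℝ f z) (bv i)) = -(fun z => (fderiv ℝ f z) (bv i)) from rfl,
      fderiv_neg]
    rfl
  rw [h3] at h2
  linarith

private theorem s_rL {d s : ℝ} {U : E 2 → ℝ} (hd : 0 < d) (hd1 : d < 1) (hU : GoodL U) :
    ∀ x, x ∉ supL d U s → rL d U s x = 0 := fun _ hx => (suppL hd hd1 hU le_rfl hx).1

private theorem s_fL {d s : ℝ} {U : E 2 → ℝ} (hd : 0 < d) (hd1 : d < 1) (hU : GoodL U) :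
    ∀ x, x ∉ supL d U s → fL d U s x = 0 := fun _ hx => (suppL hd hd1 hU le_rfl hx).2.1

private theorem s_kL {d s : ℝ} {U : E 2 → ℝ} (hd : 0 < d) (hd1 : d < 1) (hU : GoodL U) :
    ∀ x, x ∉ supL d U s → kL d U s x = 0 := fun _ hx => (suppL hd hd1 hU le_rfl hx).2.2.1

private theorem s_lfL {d s : ℝ} {U : E 2 → ℝ} (hd : 0 < d) (hd1 : d < 1) (hU : GoodL U) :
    ∀ x, x ∉ supL d U s → lap (fL d U s) x = 0 :=
  fun _ hx => (suppL hd hd1 hU le_rfl hx).2.2.2.1

private theorem s_lkL {d s : ℝ} {U : E 2 → ℝ} (hd : 0 < d) (hd1 : d < 1) (hU : GoodL U) :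
    ∀ x, x ∉ supL d U s → lap (kL d U s) x = 0 :=
  fun _ hx => (suppL hd hd1 hU le_rfl hx).2.2.2.2

private theorem s_pfL {d s : ℝ} {U : E 2 → ℝ} (hd : 0 < d) (hd1 : d < 1) (hU : GoodL U) :
    ∀ x, x ∉ supL d U s → ∀ i, pd i (fL d U s) x = 0 := by
  intro x hx i
  have h := grad_sq_leL hd hU s x
  rw [s_rL hd hd1 hU x hx, mul_zero] at h
  have h2 : (pd i (fL d U s) x) ^ 2 ≤ ∑ i, (pd i (fL d U s) x) ^ 2 :=
    Finset.single_le_sum (f := fun i => (pd i (fL d U s) x) ^ 2)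
      (fun j _ => sq_nonneg _) (Finset.mem_univ i)
  have h3 : (pd i (fL d U s) x) ^ 2 = 0 := le_antisymm (h2.trans h) (sq_nonneg _)
  exact pow_eq_zero_iff (two_ne_zero) |>.mp h3

private theorem kA_neg (g : ℝ → ℝ) (s : ℝ) (x : E 2) : kA g s (-x) = kA g s x := by
  unfold kA
  rw [norm_neg]

private theorem kA1_neg (g : ℝ → ℝ) (s : ℝ) (x : E 2) : kA1 g s (-x) = kA1 g s x := by
  unfold kA1
  rw [norm_neg]

private theorem c11_int4 {n : ℕ} {F1 F2 F3 F4 : E n × E n → ℝ} (h1 : Integrable F1)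
    (h2 : Integrable F2) (h3 : Integrable F3) (h4 : Integrable F4) (a b : ℝ) :
    ∫ z, (F1 z + a * F2 z + F3 z + b * F4 z) =
      (∫ z, F1 z) + a * (∫ z, F2 z) + (∫ z, F3 z) + b * (∫ z, F4 z) := by
  have j2 : Integrable (fun z => a * F2 z) := h2.const_mul a
  have j4 : Integrable (fun z => b * F4 z) := h4.const_mul b
  have j12 : Integrable (fun z => F1 z + a * F2 z) := h1.add j2
  have j123 : Integrable (fun z => F1 z + a * F2 z + F3 z) := j12.add h3
  rw [integral_add j123 j4, integral_add j12 h3, integral_add h1 j2,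
    integral_const_mul, integral_const_mul]

/-- `ibp_lap` in both variables. -/
theorem term_AL {g : ℝ → ℝ} {η : ℝ} (hg : GoodG 2 g η) {d : ℝ}
    (hd : 0 < d) (hd1 : d < 1) {U : E 2 → ℝ} (hU : GoodL U) (s : ℝ) :
    ∫ z : E 2 × E 2, kA g s (z.1 - z.2) * (lap (kL d U s) z.1 * rL d U s z.2 +
        rL d U s z.1 * lap (kL d U s) z.2) =
      ∫ z : E 2 × E 2, lap (kA g s) (z.1 - z.2) * (kL d U s z.1 * rL d U s z.2 +
        kL d U s z.2 * rL d U s z.1) := by
  have hC := isCompact_supL d hU s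
  have cr := contDiff_rL d hU s
  have ck := contDiff_kL d hU s
  have cS := (contDiff_kA hg s).1
  have a1 := c11_dx_lap ck cr.continuous cS hC (s_kL hd hd1 hU) (s_lkL hd hd1 hU)
    (s_rL hd hd1 hU)
  have a2 := c11_swap3 (rL d U s) (lap (kL d U s)) (kA g s) (kA_neg g s)
  have a3 := c11_swap3 (rL d U s) (kL d U s) (lap (kA g s)) (c11_lap_even cS (kA_neg g s))
  have i1 := c11_int3 (contDiff_lap ck).continuous cr.continuous cS.continuous hC
    (s_lkL hd hd1 hU) (s_rL hd hd1 hU)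
  have i2 := c11_int3 cr.continuous (contDiff_lap ck).continuous cS.continuous hC
    (s_rL hd hd1 hU) (s_lkL hd hd1 hU)
  have i3 := c11_int3 ck.continuous cr.continuous (contDiff_lap cS).continuous hC
    (s_kL hd hd1 hU) (s_rL hd hd1 hU)
  have i4 := c11_int3 cr.continuous ck.continuous (contDiff_lap cS).continuous hC
    (s_rL hd hd1 hU) (s_kL hd hd1 hU)
  have e1 : ∀ z : E 2 × E 2, kA g s (z.1 - z.2) * (lap (kL d U s) z.1 * rL d U s z.2 +
        rL d U s z.1 * lap (kL d U s) z.2) =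
      lap (kL d U s) z.1 * rL d U s z.2 * kA g s (z.1 - z.2) +
        rL d U s z.1 * lap (kL d U s) z.2 * kA g s (z.1 - z.2) := fun z => by ring
  have e2 : ∀ z : E 2 × E 2, lap (kA g s) (z.1 - z.2) * (kL d U s z.1 * rL d U s z.2 +
        kL d U s z.2 * rL d U s z.1) =
      kL d U s z.1 * rL d U s z.2 * lap (kA g s) (z.1 - z.2) +
        rL d U s z.1 * kL d U s z.2 * lap (kA g s) (z.1 - z.2) := fun z => by ring
  simp only [e1, e2]
  rw [integral_add i1 i2, integral_add i3 i4, a2, a1, a3]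

/-- `ibp_double`. -/
theorem term_BL {g : ℝ → ℝ} {η : ℝ} (hg : GoodG 2 g η) {d : ℝ}
    (hd : 0 < d) (hd1 : d < 1) {U : E 2 → ℝ} (hU : GoodL U) (s : ℝ) :
    ∫ z : E 2 × E 2, kA g s (z.1 - z.2) * (lap (fL d U s) z.1 * lap (fL d U s) z.2) =
      -∫ z : E 2 × E 2, lap (kA g s) (z.1 - z.2) *
        ∑ i, pd i (fL d U s) z.1 * pd i (fL d U s) z.2 := by
  have hC := isCompact_supL d hU s
  have h := ibp_double (contDiff_fL d hU s) ((contDiff_kA hg s).1)
    (HasCompactSupport.intro hC (s_fL hd hd1 hU))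
  have e1 : ∀ z : E 2 × E 2, kA g s (z.1 - z.2) * (lap (fL d U s) z.1 * lap (fL d U s) z.2) =
      lap (fL d U s) z.1 * lap (fL d U s) z.2 * kA g s (z.1 - z.2) := fun z => by ring
  have e2 : ∀ z : E 2 × E 2, lap (kA g s) (z.1 - z.2) *
        ∑ i, pd i (fL d U s) z.1 * pd i (fL d U s) z.2 =
      (∑ i, pd i (fL d U s) z.1 * pd i (fL d U s) z.2) * lap (kA g s) (z.1 - z.2) :=
    fun z => by ring
  simp only [e1, e2]
  exact h

/-- `ibp_grad` in both variables. -/
theorem term_CL {g : ℝ → ℝ} {η : ℝ} (hg : GoodG 2 g η) {d : ℝ}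
    (hd : 0 < d) (hd1 : d < 1) {U : E 2 → ℝ} (hU : GoodL U) (s : ℝ) :
    ∫ z : E 2 × E 2, kA1 g s (z.1 - z.2) * ((-lap (fL d U s) z.1) * rL d U s z.2 +
        rL d U s z.1 * (-lap (fL d U s) z.2)) =
      ∫ z : E 2 × E 2, lap (kA g s) (z.1 - z.2) * (1 *
        ∑ i, (z.1 - z.2) i * (pd i (fL d U s) z.1 * rL d U s z.2 -
          pd i (fL d U s) z.2 * rL d U s z.1)) := by
  have hC := isCompact_supL d hU s
  have cr := contDiff_rL d hU s
  have cf := contDiff_fL d hU s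
  have cS := (contDiff_kA hg s).1
  have cK := (contDiff_kA hg s).2
  have a1 := c11_dx_grad cf cr.continuous cK hC (s_fL hd hd1 hU) (s_pfL hd hd1 hU)
    (s_lfL hd hd1 hU) (s_rL hd hd1 hU)
  have a2 := c11_swap3 (rL d U s) (lap (fL d U s)) (kA1 g s) (kA1_neg g s)
  have i1 := c11_int3 (contDiff_lap cf).continuous cr.continuous cK.continuous hC
    (s_lfL hd hd1 hU) (s_rL hd hd1 hU)
  have i2 := c11_int3 cr.continuous (contDiff_lap cf).continuous cK.continuous hC
    (s_rL hd hd1 hU) (s_lfL hd hd1 hU)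
  -- the common value of the two halves
  set G : E 2 × E 2 → ℝ := fun z =>
    (∑ i, pd i (fL d U s) z.1 * pd i (kA1 g s) (z.1 - z.2)) * rL d U s z.2 with hG
  have hGint : Integrable G := by
    refine c11_intCS ?_ hC ?_
    · refine Continuous.mul ?_ (cr.continuous.comp continuous_snd)
      exact continuous_finsetSum _ (fun i _ => ((contDiff_pd cf i).continuous.comp
        continuous_fst).mul ((contDiff_pd cK i).continuous.comp
          (continuous_fst.sub continuous_snd)))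
    · rintro z (h | h)
      · simp only [hG, s_pfL hd hd1 hU _ h, zero_mul, Finset.sum_const_zero]
      · simp only [hG, s_rL hd hd1 hU _ h, mul_zero]
  have e1 : ∀ z : E 2 × E 2, kA1 g s (z.1 - z.2) * ((-lap (fL d U s) z.1) * rL d U s z.2 +
        rL d U s z.1 * (-lap (fL d U s) z.2)) =
      -(lap (fL d U s) z.1 * rL d U s z.2 * kA1 g s (z.1 - z.2) +
        rL d U s z.1 * lap (fL d U s) z.2 * kA1 g s (z.1 - z.2)) := fun z => by ring
  have hswap : ∀ z : E 2 × E 2, lap (kA g s) (z.2 - z.1) = lap (kA g s) (z.1 - z.2) := by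
    intro z
    rw [← c11_lap_even cS (kA_neg g s) (z.1 - z.2), neg_sub]
  have e2 : ∀ z : E 2 × E 2, lap (kA g s) (z.1 - z.2) * (1 *
        ∑ i, (z.1 - z.2) i * (pd i (fL d U s) z.1 * rL d U s z.2 -
          pd i (fL d U s) z.2 * rL d U s z.1)) = G z + G (z.2, z.1) := by
    intro z
    simp only [hG, pd_kA1 hg s, hswap]
    rw [Finset.sum_mul, Finset.sum_mul, ← Finset.sum_add_distrib, Finset.mul_sum, Finset.mul_sum]
    refine Finset.sum_congr rfl (fun i _ => ?_)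
    have hi : (z.2 - z.1) i = -((z.1 - z.2) i) := by
      simp only [PiLp.sub_apply]
      ring
    rw [hi]
    ring
  have hGs : Integrable (fun z : E 2 × E 2 => G (z.2, z.1)) := by
    have h := hGint
    rw [Measure.volume_eq_prod] at h ⊢
    exact h.swap
  simp only [e1, e2]
  rw [integral_neg, integral_add i1 i2, integral_add hGint hGs, c11_swapI G, a2, a1]
  ring

theorem ddPhL_nonpos {g : ℝ → ℝ} {η : ℝ} (hg : GoodG 2 g η) {d : ℝ}
    (hd : 0 < d) (hd1 : d < 1) {U : E 2 → ℝ} (hU : GoodL U) (s : ℝ) :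
    ddPhL g d U s ≤ 0 := by
  have hC := isCompact_supL d hU s
  have cr := (contDiff_rL d hU s).continuous
  have ck := (contDiff_kL d hU s).continuous
  have clk := (contDiff_lap (contDiff_kL d hU s)).continuous
  have clf := (contDiff_lap (contDiff_fL d hU s)).continuous
  have cpf := fun i => (contDiff_pd (contDiff_fL d hU s) i).continuous
  have cS := ((contDiff_kA hg s).1).continuous
  have cK := ((contDiff_kA hg s).2).continuous
  have cL := (contDiff_lap ((contDiff_kA hg s).1)).continuous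
  have zr := s_rL (s := s) hd hd1 hU
  have zk := s_kL (s := s) hd hd1 hU
  have zlk := s_lkL (s := s) hd hd1 hU
  have zlf := s_lfL (s := s) hd hd1 hU
  have zpf := s_pfL (s := s) hd hd1 hU
  have hA := term_AL hg hd hd1 hU s
  have hB := term_BL hg hd hd1 hU s
  have hCt := term_CL hg hd hd1 hU s
  -- coordinates of the difference
  have cD : ∀ i : Fin 2, Continuous (fun z : E 2 × E 2 => (z.1 - z.2) i) := fun i =>
    (EuclideanSpace.proj (𝕜 := ℝ) i).continuous.comp (continuous_fst.sub continuous_snd)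
  have cDD : Continuous (fun z : E 2 × E 2 => z.1 - z.2) := continuous_fst.sub continuous_snd
  set t : ℝ := 1 with ht
  set F1 : E 2 × E 2 → ℝ := fun z =>
    t ^ 2 * ‖z.1 - z.2‖ ^ 2 * lap (kA g s) (z.1 - z.2) * (rL d U s z.1 * rL d U s z.2) with hF1
  set F2 : E 2 × E 2 → ℝ := fun z =>
    kA1 g s (z.1 - z.2) * ((-lap (fL d U s) z.1) * rL d U s z.2 +
        rL d U s z.1 * (-lap (fL d U s) z.2)) with hF2
  set F3 : E 2 × E 2 → ℝ := fun z =>
    kA g s (z.1 - z.2) * (lap (kL d U s) z.1 * rL d U s z.2 +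
        rL d U s z.1 * lap (kL d U s) z.2) with hF3
  set F4 : E 2 × E 2 → ℝ := fun z =>
    kA g s (z.1 - z.2) * (lap (fL d U s) z.1 * lap (fL d U s) z.2) with hF4
  set G2 : E 2 × E 2 → ℝ := fun z =>
    lap (kA g s) (z.1 - z.2) * (t *
        ∑ i, (z.1 - z.2) i * (pd i (fL d U s) z.1 * rL d U s z.2 -
          pd i (fL d U s) z.2 * rL d U s z.1)) with hG2
  set G3 : E 2 × E 2 → ℝ := fun z =>
    lap (kA g s) (z.1 - z.2) * (kL d U s z.1 * rL d U s z.2 +
        kL d U s z.2 * rL d U s z.1) with hG3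
  set G4 : E 2 × E 2 → ℝ := fun z =>
    lap (kA g s) (z.1 - z.2) *
        ∑ i, pd i (fL d U s) z.1 * pd i (fL d U s) z.2 with hG4
  have I1 : Integrable F1 := by
    refine c11_intCS ?_ hC ?_
    · exact ((continuous_const.mul (cDD.norm.pow 2)).mul (cL.comp cDD)).mul
        ((cr.comp continuous_fst).mul (cr.comp continuous_snd))
    · rintro z (h | h)
      · simp only [hF1, zr _ h, zero_mul, mul_zero]
      · simp only [hF1, zr _ h, mul_zero]
  have I2 : Integrable F2 := by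
    refine c11_intCS ?_ hC ?_
    · exact (cK.comp cDD).mul ((((clf.comp continuous_fst).neg).mul (cr.comp continuous_snd)).add
        ((cr.comp continuous_fst).mul ((clf.comp continuous_snd).neg)))
    · rintro z (h | h)
      · simp only [hF2, zr _ h, zlf _ h, zero_mul, mul_zero, neg_zero, add_zero]
      · simp only [hF2, zr _ h, zlf _ h, mul_zero, neg_zero, add_zero]
  have I3 : Integrable F3 := by
    refine c11_intCS ?_ hC ?_
    · exact (cS.comp cDD).mul (((clk.comp continuous_fst).mul (cr.comp continuous_snd)).add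
        ((cr.comp continuous_fst).mul (clk.comp continuous_snd)))
    · rintro z (h | h)
      · simp only [hF3, zr _ h, zlk _ h, zero_mul, mul_zero, add_zero]
      · simp only [hF3, zr _ h, zlk _ h, mul_zero, add_zero]
  have I4 : Integrable F4 := by
    refine c11_intCS ?_ hC ?_
    · exact (cS.comp cDD).mul ((clf.comp continuous_fst).mul (clf.comp continuous_snd))
    · rintro z (h | h)
      · simp only [hF4, zlf _ h, zero_mul, mul_zero]
      · simp only [hF4, zlf _ h, mul_zero]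
  have J2 : Integrable G2 := by
    refine c11_intCS ?_ hC ?_
    · refine (cL.comp cDD).mul (continuous_const.mul (continuous_finsetSum _ (fun i _ => ?_)))
      exact (cD i).mul ((((cpf i).comp continuous_fst).mul (cr.comp continuous_snd)).sub
        (((cpf i).comp continuous_snd).mul (cr.comp continuous_fst)))
    · rintro z (h | h)
      · simp only [hG2, zr _ h, zpf _ h, zero_mul, mul_zero, sub_zero, Finset.sum_const_zero]
      · simp only [hG2, zr _ h, zpf _ h, zero_mul, mul_zero, sub_zero, Finset.sum_const_zero]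
  have J3 : Integrable G3 := by
    refine c11_intCS ?_ hC ?_
    · exact (cL.comp cDD).mul (((ck.comp continuous_fst).mul (cr.comp continuous_snd)).add
        ((ck.comp continuous_snd).mul (cr.comp continuous_fst)))
    · rintro z (h | h)
      · simp only [hG3, zr _ h, zk _ h, zero_mul, mul_zero, add_zero]
      · simp only [hG3, zr _ h, zk _ h, zero_mul, mul_zero, add_zero]
  have J4 : Integrable G4 := by
    refine c11_intCS ?_ hC ?_
    · refine (cL.comp cDD).mul (continuous_finsetSum _ (fun i _ => ?_))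
      exact ((cpf i).comp continuous_fst).mul ((cpf i).comp continuous_snd)
    · rintro z (h | h)
      · simp only [hG4, zpf _ h, zero_mul, mul_zero, Finset.sum_const_zero]
      · simp only [hG4, zpf _ h, mul_zero, Finset.sum_const_zero]
  have e : ddPhL g d U s = ∫ z, (F1 z + 2 * F2 z + F3 z + 2 * F4 z) := by
    unfold ddPhL
    refine integral_congr_ae (Eventually.of_forall (fun z => ?_))
    simp only [hF1, hF2, hF3, hF4, ht]
    ring
  have e' : (∫ z, F1 z) + 2 * (∫ z, G2 z) + (∫ z, G3 z) + (-2) * (∫ z, G4 z) =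
      ∫ z, (F1 z + 2 * G2 z + G3 z + (-2) * G4 z) := (c11_int4 I1 J2 J3 J4 2 (-2)).symm
  rw [e, c11_int4 I1 I2 I3 I4, hCt, hA, hB]
  have e'' : (∫ z, F1 z) + 2 * (∫ z, G2 z) + (∫ z, G3 z) + 2 * (-∫ z, G4 z) =
      (∫ z, F1 z) + 2 * (∫ z, G2 z) + (∫ z, G3 z) + (-2) * (∫ z, G4 z) := by ring
  rw [e'', e']
  refine integral_nonpos (fun z => ?_)
  have hp := pointwise_nonneg (t := t) (D := fun i => (z.1 - z.2) i)
    (rL_nonneg hd hU s z.1) (rL_nonneg hd hU s z.2) (kL_nonneg hd U s z.1)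
    (kL_nonneg hd U s z.2) (grad_sq_leL hd hU s z.1) (grad_sq_leL hd hU s z.2)
  have hL := lap_kA_nonpos hg s (z.1 - z.2)
  have hnorm : ‖z.1 - z.2‖ ^ 2 = ∑ i, ((z.1 - z.2) i) ^ 2 := EuclideanSpace.real_norm_sq_eq _
  have hfin := mul_nonpos_of_nonpos_of_nonneg hL hp
  simp only [hF1, hG2, hG3, hG4, Pi.zero_apply]
  rw [hnorm]
  refine le_trans (le_of_eq ?_) hfin
  ring

theorem concaveOn_PhL {g : ℝ → ℝ} {η : ℝ} (hg : GoodG 2 g η) {d : ℝ} (hd : 0 < d) (hd1 : d < 1)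
    {U : E 2 → ℝ} (hU : GoodL U) : ConcaveOn ℝ univ (PhL g d U) := by
  have h1 : ∀ s : ℝ, HasDerivAt (PhL g d U) (dPhL g d U s) s :=
    fun s => hasDerivAt_PhL hg hd hd1 hU s
  have h2 : ∀ s : ℝ, HasDerivAt (dPhL g d U) (ddPhL g d U s) s :=
    fun s => hasDerivAt_dPhL hg hd hd1 hU s
  have heq : deriv (PhL g d U) = dPhL g d U := funext fun s => (h1 s).deriv
  refine concaveOn_univ_of_deriv2_nonpos (fun s => (h1 s).differentiableAt) ?_ ?_
  · rw [heq]
    exact fun s => (h2 s).differentiableAt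
  · intro s
    have h3 : deriv (deriv (PhL g d U)) s = ddPhL g d U s := by
      rw [heq, (h2 s).deriv]
    show deriv (deriv (PhL g d U)) s ≤ 0
    rw [h3]
    exact ddPhL_nonpos hg hd hd1 hU s

theorem antitone_of_concave_bdd {Φ : ℝ → ℝ} (hΦ : ConcaveOn ℝ univ Φ) {C s1 : ℝ}
    (hC : ∀ s, s < s1 → C ≤ Φ s) : Antitone Φ := by
  intro s t hst
  rcases hst.eq_or_lt with rfl | hlt
  · exact le_rfl
  by_contra hcon
  push Not at hcon
  set m : ℝ := (Φ t - Φ s) / (t - s) with hm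
  have hm0 : 0 < m := div_pos (by linarith) (by linarith)
  -- choose a far point
  set u : ℝ := min (s1 - 1) (s - (Φ s - C + 1) / m - 1) with hu
  have hu1 : u < s1 := lt_of_le_of_lt (min_le_left _ _) (by linarith)
  have h0 : 0 ≤ Φ s - C + 1 ∨ Φ s - C + 1 < 0 := le_or_gt _ _
  have hus : u < s ∧ Φ s - C + 1 ≤ m * (s - u) := by
    have h2 : u ≤ s - (Φ s - C + 1) / m - 1 := min_le_right _ _
    have h3 : (Φ s - C + 1) / m + 1 ≤ s - u := by linarith
    have h4 : Φ s - C + 1 + m ≤ m * (s - u) := by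
      have h5 := mul_le_mul_of_nonneg_left h3 hm0.le
      have h6 : m * ((Φ s - C + 1) / m + 1) = Φ s - C + 1 + m := by
        field_simp
      linarith
    rcases h0 with h0 | h0
    · have h5 : 0 ≤ (Φ s - C + 1) / m := div_nonneg h0 hm0.le
      exact ⟨by linarith, by linarith⟩
    · -- then `u` may be large: use that the value at `min u (s-1)` works as well
      exfalso
      have h7 : s1 ≤ s := by
        by_contra h8
        push Not at h8
        have := hC s h8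
        linarith
      have h9 := hΦ.slope_anti_adjacent (mem_univ (s1 - 1)) (mem_univ t)
        (by linarith : s1 - 1 < s) hlt
      rw [← hm] at h9
      have h10 := hC (s1 - 1) (by linarith)
      have h11 : 0 < (Φ s - Φ (s1 - 1)) / (s - (s1 - 1)) := lt_of_lt_of_le hm0 h9
      have h12 : 0 < s - (s1 - 1) := by linarith
      have h13 := (div_pos_iff_of_pos_right h12).1 h11
      linarith
  have h9 := hΦ.slope_anti_adjacent (mem_univ u) (mem_univ t) hus.1 hlt
  rw [← hm] at h9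
  have h10 := hC u hu1
  have h12 : 0 < s - u := by linarith [hus.1]
  rw [le_div_iff₀ h12] at h9
  linarith [hus.2]

end Pool.Agent.Lib.MP_6cd19d_an.ND
end

section

/-!
# C13: scaled densities and the limit `s → -∞`, `n = 2` (analogue of B13, B14, B15)

`U = UL d T m y = ∑ m_j nl (· - y_j)`, `∑ m_j = 1`; `scL d U s X = exp (-2 s) * rL d U s (exp (-s) • X)`.
`PhL_scale`: change of variables `x = exp (-s) X` (`dx = exp (-2 s) dX`), `kA s (x-y) = g (‖X-Y‖^2)`.
`scL_supp`: for `s ≤ 0`: if `rL s x ≠ 0` then `x ∈ supL d U s`: either `x ∈ tsupport (lap U)`, bounded by `R1`, and then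
`‖exp s • x‖ ≤ R1`; or `s - d ≤ U x`, and if `‖x‖ ≥ 2 R0`, `‖x‖ ≥ 1` (`‖y_j‖ ≤ R0`) then `U x ≤ max_j (-log ‖x - y_j‖) ≤
-log (‖x‖/2)` (`nl_le`), so `‖x‖ ≤ 2 exp (d - s)`, i.e. `‖exp s • x‖ ≤ 2 exp d`.
`PhL_bound`: `|PhL s| ≤ max |g| * cL^2` for `s ≤ 0`.
`scL_tendsto`: for `X ≠ 0` and `s → -∞`, `x = exp (-s) X` is far from all `y_j`, so `U = -∑ m_j log ‖· - y_j‖` near `x`
(`nl_eq`), `lap U x = 0`, `1 + U x - s = 1 - ∑ m_j log ‖X - exp s • y_j‖ → 1 - log ‖X‖` and
`∑ (pd i U x)^2 = exp (2 s) ∑_i (∑_j m_j (X - exp s • y_j)_i / ‖X - exp s • y_j‖^2)^2`. So (`rL_formula`)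
`scL s X → -deriv (cut d) (1 - log ‖X‖) / ‖X‖^2 = btL d 0 X`.
`PhL_le`: Fatou exactly as in B15 (`g ≤ C` on `[0,∞)`), with `antitone_of_concave_bdd`.
`discrete_ineqL`: if `U ≤ s0 - d` everywhere, `rL s0 = -lap U = ∑ m_j btL (· - y_j)`.
-/

set_option autoImplicit false

open MeasureTheory Set Filter Topology
open scoped ENNReal ContDiff

namespace Pool.Agent.Lib.MP_6cd19d_an.ND

noncomputable def UL (d T : ℝ) {N : ℕ} (m : Fin N → ℝ) (y : Fin N → E 2) (x : E 2) : ℝ :=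
  ∑ j, m j * nl d T (x - y j)

noncomputable def cL (d : ℝ) : ℝ := ∫ z, btL d 0 z

noncomputable def scL (d : ℝ) (U : E 2 → ℝ) (s : ℝ) (X : E 2) : ℝ :=
  Real.exp (-2 * s) * rL d U s (Real.exp (-s) • X)

noncomputable def QL (g : ℝ → ℝ) (d : ℝ) : ℝ :=
  ∫ z : E 2 × E 2, g (‖z.1 - z.2‖ ^ 2) * (btL d 0 z.1 * btL d 0 z.2)

noncomputable def GTL (g : ℝ → ℝ) (d T b : ℝ) (w : E 2) : ℝ :=
  ∫ z : E 2 × E 2, g (b * ‖w + z.1 - z.2‖ ^ 2) * (btL d T z.1 * btL d T z.2)

private theorem c13_e2 (s : ℝ) : Real.exp (2 * s) = Real.exp s ^ 2 := by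
  rw [← Real.exp_nat_mul]
  norm_num

private theorem c13_em2 (s : ℝ) : Real.exp (-2 * s) = (Real.exp s ^ 2)⁻¹ := by
  rw [← c13_e2, ← Real.exp_neg]
  congr 1
  ring

theorem PhL_scale (g : ℝ → ℝ) (d : ℝ) (U : E 2 → ℝ) (s : ℝ) :
    PhL g d U s =
      ∫ z : E 2 × E 2, g (‖z.1 - z.2‖ ^ 2) * (scL d U s z.1 * scL d U s z.2) := by
  obtain ⟨t, ht⟩ : ∃ t : ℝ, t = Real.exp s := ⟨_, rfl⟩
  have ht0 : 0 < t := by rw [ht]; exact Real.exp_pos _
  obtain ⟨F, hFd⟩ : ∃ F : E 2 × E 2 → ℝ, F = fun w : E 2 × E 2 =>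
    g (t ^ 2 * ‖w.1 - w.2‖ ^ 2) * (rL d U s w.1 * rL d U s w.2) := ⟨_, rfl⟩
  have hF : ∀ z : E 2 × E 2, g (‖z.1 - z.2‖ ^ 2) * (scL d U s z.1 * scL d U s z.2) =
      ((t ^ 2)⁻¹) ^ 2 * F (t⁻¹ • z) := by
    intro z
    rw [hFd]
    have h1 : t ^ 2 * ‖(t⁻¹ • z).1 - (t⁻¹ • z).2‖ ^ 2 = ‖z.1 - z.2‖ ^ 2 := by
      rw [Prod.smul_fst, Prod.smul_snd, ← smul_sub, norm_smul, Real.norm_of_nonneg (by positivity)]
      field_simp
    show _ = ((t ^ 2)⁻¹) ^ 2 * (g (t ^ 2 * ‖(t⁻¹ • z).1 - (t⁻¹ • z).2‖ ^ 2) *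
        (rL d U s (t⁻¹ • z).1 * rL d U s (t⁻¹ • z).2))
    rw [h1]
    unfold scL
    rw [c13_em2, Real.exp_neg, ← ht, Prod.smul_fst, Prod.smul_snd]
    ring
  have hR : (∫ z : E 2 × E 2, g (‖z.1 - z.2‖ ^ 2) * (scL d U s z.1 * scL d U s z.2)) =
      ∫ w : E 2 × E 2, g (t ^ 2 * ‖w.1 - w.2‖ ^ 2) * (rL d U s w.1 * rL d U s w.2) := by
    simp_rw [hF]
    rw [show (∫ w : E 2 × E 2, g (t ^ 2 * ‖w.1 - w.2‖ ^ 2) * (rL d U s w.1 * rL d U s w.2)) =
      ∫ w, F w by rw [hFd], integral_const_mul, Measure.volume_eq_prod,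
      Measure.integral_comp_smul_of_nonneg _ _ _ (hR := (inv_pos.2 ht0).le), Module.finrank_prod,
      finrank_euclideanSpace_fin, smul_eq_mul, ← mul_assoc]
    have h2 : ((t ^ 2)⁻¹) ^ 2 * ((t⁻¹ ^ (2 + 2))⁻¹) = 1 := by
      rw [inv_pow t (2 + 2), inv_inv, inv_pow, ← pow_mul]
      exact inv_mul_cancel₀ (pow_pos ht0 _).ne'
    rw [h2, one_mul]
  rw [hR]
  unfold PhL kA
  rw [c13_e2, ← ht]

theorem scL_nonneg {d : ℝ} (hd : 0 < d) {U : E 2 → ℝ} (hU : GoodL U) (s : ℝ) (X : E 2) :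
    0 ≤ scL d U s X := by
  unfold scL
  exact mul_nonneg (Real.exp_pos _).le (rL_nonneg hd hU s _)

theorem continuous_scL {d : ℝ} {U : E 2 → ℝ} (hU : GoodL U) (s : ℝ) :
    Continuous (scL d U s) := by
  unfold scL
  exact continuous_const.mul ((contDiff_rL d hU s).continuous.comp (continuous_const_smul _))

theorem lap_UL {d T : ℝ} (hd : 0 < d) (hd1 : d < 1) {N : ℕ}
    (m : Fin N → ℝ) (y : Fin N → E 2) (x : E 2) :
    lap (UL d T m y) x = -∑ j, m j * btL d T (x - y j) := by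
  have hk := contDiff_nl (T := T) hd hd1
  have hf : ∀ j, ContDiff ℝ ∞ (fun z : E 2 => nl d T (z - y j)) := fun j =>
    hk.comp (contDiff_id.sub contDiff_const)
  have h1 := lap_sum hf m x
  have h2 : lap (UL d T m y) x = ∑ j, m j * lap (fun z : E 2 => nl d T (z - y j)) x := h1
  rw [h2, ← Finset.sum_neg_distrib]
  refine Finset.sum_congr rfl fun j _ => ?_
  rw [lap_sub_right hk, btL]
  ring

private theorem c13_good {d T : ℝ} (hd : 0 < d) (hd1 : d < 1)
    {N : ℕ} {m : Fin N → ℝ} (hm : ∀ j, 0 ≤ m j) (hm1 : ∑ j, m j = 1) (y : Fin N → E 2) :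
    GoodL (UL d T m y) :=
  goodL_sum hd hd1 hm hm1 y

private theorem c13_bt_int {d T : ℝ} (hd : 0 < d) (hd1 : d < 1) : Integrable (btL d T) := by
  have h1 : Continuous (btL d T) := by
    have := (contDiff_lap (contDiff_nl (T := T) hd hd1)).continuous.neg
    exact this
  exact h1.integrable_of_hasCompactSupport (hasCompactSupport_btL hd hd1)

theorem integral_scL {d T : ℝ} (hd : 0 < d) (hd1 : d < 1)
    {N : ℕ} {m : Fin N → ℝ} (hm : ∀ j, 0 ≤ m j) (hm1 : ∑ j, m j = 1) (y : Fin N → E 2) (s : ℝ) :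
    ∫ X, scL d (UL d T m y) s X = cL d := by
  have hU := c13_good (T := T) hd hd1 hm hm1 y
  obtain ⟨t, ht⟩ : ∃ t : ℝ, t = Real.exp s := ⟨_, rfl⟩
  have ht0 : 0 < t := by rw [ht]; exact Real.exp_pos _
  have h1 : ∫ X, scL d (UL d T m y) s X = ∫ x, rL d (UL d T m y) s x := by
    unfold scL
    rw [c13_em2, Real.exp_neg, ← ht, integral_const_mul,
      Measure.integral_comp_smul_of_nonneg _ _ _ (hR := (inv_pos.2 ht0).le),
      finrank_euclideanSpace_fin, smul_eq_mul, ← mul_assoc]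
    have h2 : (t ^ 2)⁻¹ * ((t⁻¹ ^ 2)⁻¹) = 1 := by
      rw [inv_pow, inv_inv]
      exact inv_mul_cancel₀ (pow_pos ht0 2).ne'
    rw [h2, one_mul]
  have h3 : ∀ x, -lap (UL d T m y) x = ∑ j, m j * btL d T (x - y j) := by
    intro x
    rw [lap_UL hd hd1, neg_neg]
  have hbt := c13_bt_int (T := T) hd hd1
  rw [h1, integral_rL hd hd1 hU s]
  simp_rw [h3]
  rw [integral_finsetSum _ (fun j _ => (hbt.comp_sub_right (y j)).const_mul (m j))]
  have h4 : ∀ j, ∫ x, m j * btL d T (x - y j) = m j * cL d := by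
    intro j
    rw [integral_const_mul, integral_sub_right_eq_self (fun x => btL d T x) (y j),
      integral_btL hd hd1 T, cL]
  simp_rw [h4]
  rw [← Finset.sum_mul, hm1, one_mul]

theorem scL_supp {d T : ℝ} (hd : 0 < d) (hd1 : d < 1)
    {N : ℕ} {m : Fin N → ℝ} (hm : ∀ j, 0 ≤ m j) (hm1 : ∑ j, m j = 1) (y : Fin N → E 2) :
    ∃ R : ℝ, 0 < R ∧ ∀ s, s ≤ 0 → ∀ X, R < ‖X‖ → scL d (UL d T m y) s X = 0 := by
  have hU := c13_good (T := T) hd hd1 hm hm1 y
  obtain ⟨R1, hR1⟩ := hU.cs.isBounded.exists_norm_le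
  obtain ⟨R0, hR0⟩ : ∃ R0 : ℝ, ∀ j, ‖y j‖ ≤ R0 :=
    ⟨∑ j, ‖y j‖, fun j => Finset.single_le_sum (f := fun j => ‖y j‖)
      (fun i _ => norm_nonneg _) (Finset.mem_univ j)⟩
  obtain ⟨R2, hR2⟩ : ∃ R2 : ℝ, R2 = 2 * Real.exp d := ⟨_, rfl⟩
  refine ⟨max 1 (max R1 (max (2 * R0) R2)), by positivity, ?_⟩
  intro s hs1 X hX
  have hX1 : 1 < ‖X‖ := (le_max_left _ _).trans_lt hX
  have hXR1 : R1 < ‖X‖ := ((le_max_left _ _).trans (le_max_right _ _)).trans_lt hX
  have hXR0 : 2 * R0 < ‖X‖ :=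
    (((le_max_left _ _).trans (le_max_right _ _)).trans (le_max_right _ _)).trans_lt hX
  have hXR2 : R2 < ‖X‖ :=
    (((le_max_right _ _).trans (le_max_right _ _)).trans (le_max_right _ _)).trans_lt hX
  obtain ⟨t, ht⟩ : ∃ t : ℝ, t = Real.exp (-s) := ⟨_, rfl⟩
  have ht0 : 0 < t := by rw [ht]; exact Real.exp_pos _
  have ht1 : 1 ≤ t := by rw [ht]; exact Real.one_le_exp (by linarith)
  have hnx : ‖t • X‖ = t * ‖X‖ := by
    rw [norm_smul, Real.norm_of_nonneg ht0.le]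
  have hnx1 : ‖X‖ ≤ ‖t • X‖ := by
    rw [hnx]
    exact le_mul_of_one_le_left (norm_nonneg _) ht1
  unfold scL
  rw [← ht]
  have hnot : t • X ∉ supL d (UL d T m y) s := by
    intro hmem
    rcases hmem with h | h
    · have h : s - d ≤ UL d T m y (t • X) := h
      obtain ⟨x, hx⟩ : ∃ x : E 2, x = t • X := ⟨_, rfl⟩
      rw [← hx] at h hnx hnx1
      have hxpos : 0 < ‖x‖ / 2 := by linarith
      have hUle : UL d T m y x ≤ -Real.log (‖x‖ / 2) := by
        unfold UL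
        have h5 : ∀ j ∈ Finset.univ, m j * nl d T (x - y j) ≤ m j * -Real.log (‖x‖ / 2) := by
          intro j _
          apply mul_le_mul_of_nonneg_left _ (hm j)
          have h6 : ‖x‖ / 2 ≤ ‖x - y j‖ := by
            have h7 := norm_sub_norm_le x (y j)
            have h8 := hR0 j
            linarith
          have h9 : x - y j ≠ 0 := by
            intro h0
            rw [h0, norm_zero] at h6
            linarith
          refine (nl_le hd hd1 h9).trans ?_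
          exact neg_le_neg (Real.log_le_log hxpos h6)
        refine (Finset.sum_le_sum h5).trans ?_
        rw [← Finset.sum_mul, hm1, one_mul]
      have h10 : s - d ≤ -Real.log (‖x‖ / 2) := h.trans hUle
      have h11 : Real.log (‖x‖ / 2) = -s + Real.log (‖X‖ / 2) := by
        rw [hnx, mul_div_assoc, Real.log_mul ht0.ne' (by linarith), ht, Real.log_exp]
      rw [h11] at h10
      have h12 : Real.log (‖X‖ / 2) ≤ d := by linarith
      have h13 : ‖X‖ / 2 ≤ Real.exp d := by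
        rw [← Real.log_le_iff_le_exp (by linarith)]
        exact h12
      rw [hR2] at hXR2
      linarith
    · have h2 := hR1 _ h
      linarith
  rw [(suppL hd hd1 hU le_rfl hnot).1, mul_zero]

theorem PhL_bound {g : ℝ → ℝ} {η : ℝ} (hg : GoodG 2 g η) {d T : ℝ}
    (hd : 0 < d) (hd1 : d < 1)
    {N : ℕ} {m : Fin N → ℝ} (hm : ∀ j, 0 ≤ m j) (hm1 : ∑ j, m j = 1) (y : Fin N → E 2) :
    ∃ C : ℝ, ∀ s, s < 0 → C ≤ PhL g d (UL d T m y) s := by
  have hU := c13_good (T := T) hd hd1 hm hm1 y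
  obtain ⟨R, hR0, hR⟩ := scL_supp (T := T) hd hd1 hm hm1 y
  have hgc : ContinuousOn g (Icc 0 (4 * R ^ 2)) := by
    refine hg.smooth.continuousOn.mono fun x hx => ?_
    show -η < x
    have := hg.pos
    linarith [hx.1]
  obtain ⟨M, hM⟩ := isCompact_Icc.exists_bound_of_continuousOn hgc
  have hM0 : 0 ≤ M := (norm_nonneg _).trans (hM 0 ⟨le_rfl, by positivity⟩)
  refine ⟨-(M * (cL d * cL d)), fun s hs => ?_⟩
  have hsc : Integrable (scL d (UL d T m y) s) := by
    refine (continuous_scL hU s).integrable_of_hasCompactSupport ?_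
    refine HasCompactSupport.intro (K := Metric.closedBall 0 R) (isCompact_closedBall 0 R) ?_
    intro X hX
    apply hR s hs.le
    rw [mem_closedBall_zero_iff, not_le] at hX
    exact hX
  apply neg_le_of_abs_le
  rw [PhL_scale, ← Real.norm_eq_abs]
  refine (norm_integral_le_integral_norm _).trans ?_
  have hint : Integrable (fun z : E 2 × E 2 => scL d (UL d T m y) s z.1 *
      scL d (UL d T m y) s z.2) := by
    rw [Measure.volume_eq_prod]
    exact hsc.mul_prod hsc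
  have h2 : ∫ z : E 2 × E 2, M * (scL d (UL d T m y) s z.1 * scL d (UL d T m y) s z.2) =
      M * (cL d * cL d) := by
    rw [integral_const_mul, Measure.volume_eq_prod, integral_prod_mul,
      integral_scL hd hd1 hm hm1 y s]
  rw [← h2]
  apply integral_mono_of_nonneg
  · exact Eventually.of_forall fun z => norm_nonneg _
  · exact hint.const_mul M
  · refine Eventually.of_forall fun z => ?_
    show ‖g (‖z.1 - z.2‖ ^ 2) * (scL d (UL d T m y) s z.1 * scL d (UL d T m y) s z.2)‖ ≤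
      M * (scL d (UL d T m y) s z.1 * scL d (UL d T m y) s z.2)
    have e1 := scL_nonneg hd hU s z.1
    have e2 := scL_nonneg hd hU s z.2
    rw [norm_mul, Real.norm_of_nonneg (mul_nonneg e1 e2)]
    by_cases hz1 : R < ‖z.1‖
    · rw [hR s hs.le _ hz1, zero_mul, mul_zero, mul_zero]
    by_cases hz2 : R < ‖z.2‖
    · rw [hR s hs.le _ hz2, mul_zero, mul_zero, mul_zero]
    push Not at hz1 hz2
    apply mul_le_mul_of_nonneg_right _ (mul_nonneg e1 e2)
    apply hM
    refine ⟨by positivity, ?_⟩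
    have h3 : ‖z.1 - z.2‖ ≤ 2 * R := (norm_sub_le _ _).trans (by linarith)
    nlinarith [norm_nonneg (z.1 - z.2)]

end Pool.Agent.Lib.MP_6cd19d_an.ND
end

section

/-!
# C14: pointwise limit of the scaled densities, `n = 2` (analogue of B14)

See the docstring of C13: for `X ≠ 0` and `s → -∞`, `x = exp (-s) X` is far from all `y_j`, so near `x`
`U = -∑ m_j log ‖· - y_j‖` (`nl_eq`), `lap U x = 0` (`btL_eq_zero`, `lap_UL`), `1 + U x - s = 1 - ∑ m_j log ‖X - exp s • y_j‖ →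
1 - log ‖X‖` and `∑ (pd i U x)^2 = exp (2 s) ∑_i (∑_j m_j (X - exp s • y_j)_i / ‖X - exp s • y_j‖^2)^2`. So
(`rL_formula`) `scL s X → -deriv (cut d) (1 - log ‖X‖) / ‖X‖^2 = btL d 0 X` (`btL_formula`).
-/

set_option autoImplicit false

open MeasureTheory Set Filter Topology
open scoped ENNReal ContDiff

namespace Pool.Agent.Lib.MP_6cd19d_an.ND

/-- The limit function in the parameter `t`. -/
private noncomputable def c14F (d : ℝ) {N : ℕ} (m : Fin N → ℝ) (y : Fin N → E 2) (X : E 2)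
    (t : ℝ) : ℝ :=
  -deriv (cut d) (1 - ∑ j, m j * Real.log ‖X - t • y j‖) *
    ∑ i : Fin 2, (∑ j, m j * ((X - t • y j) i * (‖X - t • y j‖ ^ 2)⁻¹)) ^ 2

private theorem c14_far {d T : ℝ} {z : E 2} (hz : Real.exp (-T + d) < ‖z‖) :
    -Real.log ‖z‖ ≤ T - d := by
  have h1 := Real.log_lt_log (Real.exp_pos _) hz
  rw [Real.log_exp] at h1
  linarith

private theorem c14_pd_nl {d T : ℝ} (hd : 0 < d) (hd1 : d < 1)
    {z : E 2} (hz : Real.exp (-T + d) < ‖z‖) (i : Fin 2) :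
    pd i (nl d T) z = -(z i * (‖z‖ ^ 2)⁻¹) := by
  have h1 : 0 < Real.exp (-T + d) := Real.exp_pos _
  have hz0 : 0 < ‖z‖ := h1.trans hz
  have hev : nl d T =ᶠ[𝓝 z] fun w => (fun ρ : ℝ => -(Real.log ρ / 2)) (‖w‖ ^ 2) := by
    have h2 : ∀ᶠ w in 𝓝 z, Real.exp (-T + d) < ‖w‖ :=
      (continuous_norm.tendsto z).eventually (lt_mem_nhds hz)
    filter_upwards [h2] with w hw
    have hw0 : 0 < ‖w‖ := h1.trans hw
    rw [nl_eq hd hd1 (norm_pos_iff.mp hw0) (c14_far hw)]
    show _ = -(Real.log (‖w‖ ^ 2) / 2)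
    rw [Real.log_pow]
    push_cast
    ring
  have hz2 : 0 < ‖z‖ ^ 2 := by positivity
  have hcd : ContDiffAt ℝ 2 (fun ρ : ℝ => -(Real.log ρ / 2)) (‖z‖ ^ 2) :=
    ((Real.contDiffAt_log.2 hz2.ne').div_const 2).neg
  rw [pd_congr hev, pd_radial hcd]
  have hder : deriv (fun ρ : ℝ => -(Real.log ρ / 2)) (‖z‖ ^ 2) = -((‖z‖ ^ 2)⁻¹ / 2) :=
    (((Real.hasDerivAt_log hz2.ne').div_const 2).neg).deriv
  rw [hder]
  ring

private theorem c14_eq {d T : ℝ} (hd : 0 < d) (hd1 : d < 1)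
    {N : ℕ} {m : Fin N → ℝ} (hm : ∀ j, 0 ≤ m j) (hm1 : ∑ j, m j = 1) (y : Fin N → E 2) {X : E 2}
    {s t : ℝ} (ht : t = Real.exp s)
    (h : ∀ j, Real.exp (-T + d) < t⁻¹ * ‖X - t • y j‖) :
    scL d (UL d T m y) s X = c14F d m y X t := by
  have hU : GoodL (UL d T m y) := goodL_sum hd hd1 hm hm1 y
  have ht0 : 0 < t := by rw [ht]; exact Real.exp_pos _
  have hρ : 0 < Real.exp (-T + d) := Real.exp_pos _
  have hes : Real.exp (-s) = t⁻¹ := by rw [ht, Real.exp_neg]
  have hes2 : Real.exp (-2 * s) = (t ^ 2)⁻¹ := by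
    rw [ht, ← Real.exp_nat_mul, ← Real.exp_neg]
    congr 1
    push_cast
    ring
  -- the points
  have hz : ∀ j, t⁻¹ • X - y j = t⁻¹ • (X - t • y j) := by
    intro j
    rw [smul_sub, smul_smul, inv_mul_cancel₀ ht0.ne', one_smul]
  have hzn : ∀ j, ‖t⁻¹ • X - y j‖ = t⁻¹ * ‖X - t • y j‖ := by
    intro j
    rw [hz, norm_smul, Real.norm_of_nonneg (by positivity)]
  have hfar : ∀ j, Real.exp (-T + d) < ‖t⁻¹ • X - y j‖ := by
    intro j
    rw [hzn]
    exact h j
  have hpos : ∀ j, 0 < ‖X - t • y j‖ := by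
    intro j
    have h1 := hρ.trans (h j)
    exact (mul_pos_iff_of_pos_left (by positivity)).1 h1
  have hnlx : ∀ j, nl d T (t⁻¹ • X - y j) = s - Real.log ‖X - t • y j‖ := by
    intro j
    rw [nl_eq hd hd1 (norm_pos_iff.mp (hρ.trans (hfar j))) (c14_far (hfar j)), hzn,
      Real.log_mul (by positivity) (hpos j).ne', Real.log_inv, ht, Real.log_exp]
    ring
  have hUx : 1 + UL d T m y (t⁻¹ • X) - s = 1 - ∑ j, m j * Real.log ‖X - t • y j‖ := by
    unfold UL
    have h1 : ∑ j, m j * nl d T (t⁻¹ • X - y j) =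
        (∑ j, m j) * s - ∑ j, m j * Real.log ‖X - t • y j‖ := by
      rw [Finset.sum_mul, ← Finset.sum_sub_distrib]
      refine Finset.sum_congr rfl fun j _ => ?_
      rw [hnlx]
      ring
    rw [h1, hm1]
    ring
  have hlap : lap (UL d T m y) (t⁻¹ • X) = 0 := by
    rw [lap_UL hd hd1]
    have : ∀ j ∈ Finset.univ, m j * btL d T (t⁻¹ • X - y j) = 0 := by
      intro j _
      rw [btL_eq_zero hd hd1 (Or.inr (hfar j)), mul_zero]
    rw [Finset.sum_eq_zero this, neg_zero]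
  have hpd : ∀ i : Fin 2, pd i (UL d T m y) (t⁻¹ • X) =
      -t * ∑ j, m j * ((X - t • y j) i * (‖X - t • y j‖ ^ 2)⁻¹) := by
    intro i
    have hk : ContDiff ℝ ∞ (nl d T) := contDiff_nl hd hd1
    have hf : ∀ j, ContDiff ℝ ∞ (fun z : E 2 => nl d T (z - y j)) := fun j =>
      hk.comp (contDiff_id.sub contDiff_const)
    have h1 : pd i (UL d T m y) (t⁻¹ • X) =
        ∑ j, m j * pd i (fun z : E 2 => nl d T (z - y j)) (t⁻¹ • X) := pd_sum hf m i _
    rw [h1, Finset.mul_sum]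
    refine Finset.sum_congr rfl fun j _ => ?_
    rw [pd_sub_right hk, c14_pd_nl hd hd1 (hfar j), hzn, hz]
    have h2 : (t⁻¹ • (X - t • y j)) i = t⁻¹ * (X - t • y j) i := rfl
    rw [h2]
    have h3 := (hpos j).ne'
    field_simp
  unfold scL
  rw [hes, hes2, rL_formula d hU, hUx, hlap]
  simp_rw [hpd, mul_pow]
  rw [← Finset.mul_sum]
  unfold c14F
  field_simp
  ring

private theorem c14_cont (d : ℝ) {N : ℕ} (m : Fin N → ℝ) (y : Fin N → E 2) {X : E 2}
    (hX : X ≠ 0) : ContinuousAt (c14F d m y X) 0 := by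
  have hc : ∀ j, ContinuousAt (fun t : ℝ => X - t • y j) 0 := fun j => by fun_prop
  have h0 : ∀ j, X - (0 : ℝ) • y j ≠ 0 := fun j => by simpa using hX
  have hr : ∀ (j : Fin N), ContinuousAt (fun t : ℝ => (‖X - t • y j‖ ^ 2)⁻¹) 0 := fun j =>
    ((hc j).norm.pow 2).inv₀ (pow_ne_zero 2 (norm_ne_zero_iff.mpr (h0 j)))
  have hl : ∀ (j : Fin N), ContinuousAt (fun t : ℝ => Real.log ‖X - t • y j‖) 0 := fun j =>
    (hc j).norm.log (norm_ne_zero_iff.mpr (h0 j))
  have hi : ∀ (j : Fin N) (i : Fin 2), ContinuousAt (fun t : ℝ => (X - t • y j) i) 0 := by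
    intro j i
    have : (fun t : ℝ => (X - t • y j) i) = fun t : ℝ => X i - t * y j i := by
      funext t
      simp
    rw [this]
    fun_prop
  have hdc : Continuous (deriv (cut d)) := (contDiff_infty_iff_deriv.mp (contDiff_cut d)).2.continuous
  unfold c14F
  refine ContinuousAt.mul (ContinuousAt.neg (hdc.continuousAt.comp ?_)) ?_
  · exact continuousAt_const.sub (tendsto_finsetSum _ fun j _ => continuousAt_const.mul (hl j))
  · refine tendsto_finsetSum _ fun i _ => ContinuousAt.pow ?_ 2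
    exact tendsto_finsetSum _ fun j _ => continuousAt_const.mul ((hi j i).mul (hr j))

private theorem c14_zero {d : ℝ} (hd : 0 < d) (hd1 : d < 1) {N : ℕ}
    {m : Fin N → ℝ} (hm1 : ∑ j, m j = 1) (y : Fin N → E 2) {X : E 2}
    (hX : X ≠ 0) : c14F d m y X 0 = btL d 0 X := by
  have hX0 : 0 < ‖X‖ := norm_pos_iff.mpr hX
  rw [btL_formula hd hd1 hX]
  unfold c14F
  simp only [zero_smul, sub_zero]
  rw [← Finset.sum_mul, hm1, one_mul]
  simp_rw [← Finset.sum_mul]
  simp only [hm1, one_mul, mul_pow]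
  rw [← Finset.sum_mul]
  have h1 : ∑ i : Fin 2, X i ^ 2 = ‖X‖ ^ 2 := by
    rw [EuclideanSpace.norm_sq_eq]
    refine Finset.sum_congr rfl fun i _ => ?_
    rw [Real.norm_eq_abs, sq_abs]
  rw [h1]
  field_simp

theorem scL_tendsto {d T : ℝ} (hd : 0 < d) (hd1 : d < 1)
    {N : ℕ} {m : Fin N → ℝ} (hm : ∀ j, 0 ≤ m j) (hm1 : ∑ j, m j = 1) (y : Fin N → E 2)
    {X : E 2} (hX : X ≠ 0) :
    Tendsto (fun s : ℝ => scL d (UL d T m y) s X) atBot (𝓝 (btL d 0 X)) := by
  have hX0 : 0 < ‖X‖ := norm_pos_iff.mpr hX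
  -- `t → 0+`
  have ht : Tendsto (fun s : ℝ => Real.exp s) atBot (𝓝[>] 0) := Real.tendsto_exp_atBot_nhdsGT
  have hfar : ∀ᶠ t in 𝓝[>] (0 : ℝ), ∀ j : Fin N, Real.exp (-T + d) < t⁻¹ * ‖X - t • y j‖ := by
    rw [eventually_all]
    intro j
    have h1 : Tendsto (fun t : ℝ => t⁻¹ * ‖X - t • y j‖) (𝓝[>] 0) atTop := by
      refine Tendsto.atTop_mul_pos hX0 tendsto_inv_nhdsGT_zero ?_
      have h2 : ContinuousAt (fun t : ℝ => ‖X - t • y j‖) 0 := by fun_prop
      have h3 := h2.tendsto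
      simp only [zero_smul, sub_zero] at h3
      exact h3.mono_left nhdsWithin_le_nhds
    exact h1.eventually_gt_atTop _
  have hlim : Tendsto (fun s : ℝ => c14F d m y X (Real.exp s)) atBot (𝓝 (btL d 0 X)) := by
    rw [← c14_zero hd hd1 hm1 y hX]
    exact ((c14_cont d m y hX).tendsto.mono_left nhdsWithin_le_nhds).comp ht
  refine hlim.congr' ?_
  filter_upwards [ht.eventually hfar] with s hs
  exact (c14_eq hd hd1 hm hm1 y rfl hs).symm

end Pool.Agent.Lib.MP_6cd19d_an.ND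
end
end
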