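import Pool.Agent.Lib.MP_6cd19d_an.ND.B19c
import Pool.Agent.Lib.MP_6cd19d_an.ND.B20
import Pool.Agent.Lib.MP_6cd19d_an.ND.B04
import Pool.Agent.Lib.MP_6cd19d_an.ND.C14
import Pool.Agent.Lib.MP_6cd19d_an.ND.B07

section

section

/-!
# B21: the ball

`ball_gp` (`e > 0`): `μ'` a probability measure on `closedBall 0 r`, `r = (1+d)^(-1/(n-2))`; `g = gp p e R`,
`V = VB n d g`. By `mixture_pd` (with `gp_mixture`: `gp p e R ρ = gp p e R 0 - (1/2) ∫_0^ρ ...`) for `μ'` and `mB`: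
`I(μ',μ') + I(mB,mB) ≥ 2 I(μ',mB) = 2 ∫ V dμ'`. Let `c = V` at points of norm `r`. By `VB_antitone`: `V ≥ c` on
`closedBall 0 r` and `V ≤ c` on the support of `mB` (norm `≥ r`, `mB_shell`). So
`I(μ',μ') ≥ 2 c - I(mB,mB)` and `I(mB,mB) = ∫ V dmB ≤ c`: `I(μ',μ') ≥ I(mB,mB)`.
`ball_gp0`: `e → 0` : `ofReal (gp p e R ρ)` increases to `gp0 p R ρ`; on the left Fatou, on the right `gp_le_gp0`
(all squared distances are `≤ R`).
`newton_mB`: with `g = gp (n-2) e R`: `V x ≤ V 0`, so `I(mB,mB) ≤ V 0 = ∫ g (‖y‖^2) dmB`; `e → 0` as before, and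
`gp0_of_pos` : `en (n-2) mB ≤ ∫⁻ (ofReal ‖y‖)^(-(n-2)) dmB ≤ 1 + d` (`mB_shell`: `‖y‖^(2-n) ≤ 1 + d`).
`infEn_ball`: the image of `mB` under `z ↦ (1-d)^(1/(n-2)) • z` is a probability measure on the closed unit ball,
with energy `(1-d)⁻¹ * en (n-2) mB ≤ (1+d)/(1-d)`; `d → 0`.
-/

set_option autoImplicit false

open MeasureTheory Set Filter Topology
open scoped ENNReal ContDiff

namespace Pool.Agent.Lib.MP_6cd19d_an.ND

private theorem b21_cont {n : ℕ} {g : ℝ → ℝ} (hg : ContinuousOn g (Ici 0)) :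
    Continuous fun q : E n × E n => g (‖q.1 - q.2‖ ^ 2) := by
  refine hg.comp_continuous (by fun_prop) fun q => ?_
  simp only [mem_Ici]
  positivity

private theorem b21_meas {n : ℕ} {ν : Measure (E n)} [IsProbabilityMeasure ν] {g : ℝ → ℝ}
    (hg : ContinuousOn g (Ici 0)) :
    StronglyMeasurable fun x : E n => ∫ y, g (‖x - y‖ ^ 2) ∂ν :=
  ((b21_cont hg).stronglyMeasurable).integral_prod_right (ν := ν)

private theorem b21_ae {n : ℕ} {ν : Measure (E n)} {S : Set (E n)} (hν : ν Sᶜ = 0) :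
    ∀ᵐ x ∂ν, x ∈ S := by
  rw [ae_iff]
  exact hν

private theorem b21_int {n : ℕ} {ν : Measure (E n)} [IsProbabilityMeasure ν] {S : Set (E n)}
    {R : ℝ} (hS : ∀ x ∈ S, ∀ y ∈ S, ‖x - y‖ ^ 2 ≤ R) (hν : ν Sᶜ = 0) {g : ℝ → ℝ}
    (hg : ContinuousOn g (Ici 0)) (hg0 : ∀ ρ, 0 ≤ ρ → ρ ≤ R → 0 ≤ g ρ)
    (hg1 : ∀ ρ, 0 ≤ ρ → g ρ ≤ g 0) {x : E n} (hx : x ∈ S) :
    Integrable (fun y => g (‖x - y‖ ^ 2)) ν := by
  have hc : Continuous fun y : E n => g (‖x - y‖ ^ 2) := by
    refine hg.comp_continuous (by fun_prop) fun q => ?_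
    simp only [mem_Ici]
    positivity
  refine Integrable.of_bound hc.aestronglyMeasurable (g 0) ?_
  filter_upwards [b21_ae hν] with y hy
  rw [Real.norm_eq_abs, abs_of_nonneg (hg0 _ (by positivity) (hS x hx y hy))]
  exact hg1 _ (by positivity)

private theorem b21_conv {n : ℕ} {ν : Measure (E n)} [IsProbabilityMeasure ν] {S : Set (E n)}
    {R : ℝ} (hS : ∀ x ∈ S, ∀ y ∈ S, ‖x - y‖ ^ 2 ≤ R) (hν : ν Sᶜ = 0) {g : ℝ → ℝ}
    (hg : ContinuousOn g (Ici 0)) (hg0 : ∀ ρ, 0 ≤ ρ → ρ ≤ R → 0 ≤ g ρ)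
    (hg1 : ∀ ρ, 0 ≤ ρ → g ρ ≤ g 0) :
    ENNReal.ofReal (∫ x, ∫ y, g (‖x - y‖ ^ 2) ∂ν ∂ν) =
      ∫⁻ x, ∫⁻ y, ENNReal.ofReal (g (‖x - y‖ ^ 2)) ∂ν ∂ν := by
  have hnn : ∀ x ∈ S, 0 ≤ᵐ[ν] fun y => g (‖x - y‖ ^ 2) := by
    intro x hx
    filter_upwards [b21_ae hν] with y hy
    exact hg0 _ (by positivity) (hS x hx y hy)
  have h1 : Integrable (fun x => ∫ y, g (‖x - y‖ ^ 2) ∂ν) ν := by
    refine Integrable.of_bound (b21_meas hg).aestronglyMeasurable (g 0) ?_
    filter_upwards [b21_ae hν] with x hx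
    rw [Real.norm_eq_abs, abs_of_nonneg (integral_nonneg_of_ae (hnn x hx))]
    calc ∫ y, g (‖x - y‖ ^ 2) ∂ν ≤ ∫ y, g 0 ∂ν :=
          integral_mono (b21_int hS hν hg hg0 hg1 hx) (integrable_const _)
            fun y => hg1 _ (by positivity)
      _ = g 0 := by simp
  rw [ofReal_integral_eq_lintegral_ofReal h1 ?_]
  · refine lintegral_congr_ae ?_
    filter_upwards [b21_ae hν] with x hx
    exact ofReal_integral_eq_lintegral_ofReal (b21_int hS hν hg hg0 hg1 hx) (hnn x hx)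
  · filter_upwards [b21_ae hν] with x hx
    exact integral_nonneg_of_ae (hnn x hx)

private theorem b21_gcont {p e R : ℝ} {n : ℕ} (he : 0 < e) (hR : 0 < R)
    (hp2 : p ≤ (n : ℝ) - 2) : ContinuousOn (gp p e R) (Ici 0) := by
  refine (goodG_gp (n := n) he hR hp2).smooth.continuousOn.mono ?_
  intro t ht
  have he2 : 0 < e ^ 2 := by positivity
  simp only [mem_Ici, mem_Ioi] at ht ⊢
  linarith

private theorem b21_geom {n : ℕ} (hn : 3 ≤ n) {d : ℝ} (hd : 0 < d) (hd1 : d < 1)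
    {μ' : Measure (E n)}
    (hμ' : PK (Metric.closedBall (0 : E n) ((1 + d) ^ (-1 / ((n : ℝ) - 2)))) μ') {R : ℝ}
    (hR2 : (2 * (1 - d) ^ (-1 / ((n : ℝ) - 2))) ^ 2 ≤ R) :
    0 < R ∧ mB n d (Metric.closedBall (0 : E n) ((1 - d) ^ (-1 / ((n : ℝ) - 2))))ᶜ = 0 ∧
      μ' (Metric.closedBall (0 : E n) ((1 - d) ^ (-1 / ((n : ℝ) - 2))))ᶜ = 0 ∧
      ∀ x ∈ Metric.closedBall (0 : E n) ((1 - d) ^ (-1 / ((n : ℝ) - 2))),
        ∀ y ∈ Metric.closedBall (0 : E n) ((1 - d) ^ (-1 / ((n : ℝ) - 2))),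
          ‖x - y‖ ^ 2 ≤ R := by
  have hn' : (3 : ℝ) ≤ n := by exact_mod_cast hn
  have hexp : -1 / ((n : ℝ) - 2) ≤ 0 := div_nonpos_of_nonpos_of_nonneg (by norm_num) (by linarith)
  have hr2 : 0 < (1 - d) ^ (-1 / ((n : ℝ) - 2)) := Real.rpow_pos_of_pos (by linarith) _
  refine ⟨lt_of_lt_of_le (by positivity) hR2, ?_, ?_, ?_⟩
  · refine measure_mono_null ?_ (mB_shell hn hd hd1)
    intro z hz hz'
    exact hz (by simpa using hz'.2)
  · refine measure_mono_null ?_ hμ'.2
    refine compl_subset_compl.2 (Metric.closedBall_subset_closedBall ?_)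
    exact Real.rpow_le_rpow_of_nonpos (by linarith) (by linarith) hexp
  · intro x hx y hy
    rw [mem_closedBall_zero_iff] at hx hy
    refine le_trans ?_ hR2
    have h1 : ‖x - y‖ ≤ 2 * (1 - d) ^ (-1 / ((n : ℝ) - 2)) := by
      refine (norm_sub_le x y).trans ?_
      linarith
    gcongr

theorem ball_gp {n : ℕ} (hn : 3 ≤ n) {p e : ℝ} (hp : -2 < p) (hp2 : p ≤ (n : ℝ) - 2)
    (he : 0 < e) {d : ℝ} (hd : 0 < d) (hd1 : d < 1) {μ' : Measure (E n)}
    (hμ' : PK (Metric.closedBall (0 : E n) ((1 + d) ^ (-1 / ((n : ℝ) - 2)))) μ') {R : ℝ}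
    (hR2 : (2 * (1 - d) ^ (-1 / ((n : ℝ) - 2))) ^ 2 ≤ R) :
    ∫ x, ∫ y, gp p e R (‖x - y‖ ^ 2) ∂(mB n d) ∂(mB n d) ≤
      ∫ x, ∫ y, gp p e R (‖x - y‖ ^ 2) ∂μ' ∂μ' := by
  obtain ⟨hR, hBS, hμS, hS⟩ := b21_geom hn hd hd1 hμ' hR2
  have hP1 : IsProbabilityMeasure μ' := ⟨hμ'.1⟩
  have hP2 : IsProbabilityMeasure (mB n d) := ⟨mB_univ hn hd hd1⟩
  have hgood : GoodG n (gp p e R) (e ^ 2) := goodG_gp he hR hp2
  have hgc : ContinuousOn (gp p e R) (Ici 0) := b21_gcont he hR hp2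
  have he2 : 0 < e ^ 2 := by positivity
  -- positive definiteness
  have hmix := mixture_pd (α := μ') (β := mB n d)
    (S := Metric.closedBall (0 : E n) ((1 - d) ^ (-1 / ((n : ℝ) - 2))))
    Metric.isClosed_closedBall.measurableSet hμS hBS (R2 := R) hS (k := gp p e R)
    (w := fun u => (2 * Real.Gamma (p / 2 + 1))⁻¹ * u ^ (p / 2 - 1) * Real.exp (-u * e ^ 2))
    (k0 := gp p e R 0)
    (by
      refine ((measurable_const.mul (measurable_id.pow_const _))).mul ?_
      exact (by fun_prop : Continuous fun u : ℝ => Real.exp (-u * e ^ 2)).measurable)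
    (fun u hu => by
      have hG : 0 < Real.Gamma (p / 2 + 1) := Real.Gamma_pos_of_pos (by linarith)
      have hu' : 0 ≤ u ^ (p / 2 - 1) := Real.rpow_nonneg hu.le _
      positivity)
    (gp_mixture hp he hR.le).1
    (fun ρ hρ hρR => by
      have h1 := (gp_mixture hp he hρ).2
      rw [← h1]
      have hii : ∀ a b : ℝ, 0 ≤ a → 0 ≤ b →
          IntervalIntegrable (fun t : ℝ => (t + e ^ 2) ^ (-p / 2 - 1)) volume a b := by
        intro a b ha hb
        refine ContinuousOn.intervalIntegrable ?_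
        refine ContinuousOn.rpow_const (by fun_prop) fun t ht => Or.inl ?_
        rw [mem_uIcc] at ht
        rcases ht with ht | ht <;> linarith [ht.1]
      have h2 := intervalIntegral.integral_add_adjacent_intervals (hii 0 ρ le_rfl hρ)
        (hii ρ R hρ hR.le)
      unfold gp
      rw [← h2]
      ring)
  -- the radii
  set r : ℝ := (1 + d) ^ (-1 / ((n : ℝ) - 2)) with hr
  set r2 : ℝ := (1 - d) ^ (-1 / ((n : ℝ) - 2)) with hr2
  have hr0 : 0 ≤ r := Real.rpow_nonneg (by linarith) _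
  have hr20 : 0 ≤ r2 := Real.rpow_nonneg (by linarith) _
  have hpt : ∀ t : ℝ, 0 ≤ t → ∃ x : E n, ‖x‖ = t := by
    intro t ht
    refine ⟨EuclideanSpace.single (⟨0, by omega⟩ : Fin n) t, ?_⟩
    rw [PiLp.norm_single, Real.norm_eq_abs, abs_of_nonneg ht]
  obtain ⟨x1, hx1⟩ := hpt r hr0
  obtain ⟨x2, hx2⟩ := hpt r2 hr20
  have hanti : ∀ x x' : E n, ‖x‖ ≤ ‖x'‖ → VB n d (gp p e R) x' ≤ VB n d (gp p e R) x :=
    fun x x' h => VB_antitone hn hd hd1 hgood h
  have hVint : ∀ (ν : Measure (E n)) [IsProbabilityMeasure ν],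
      ν (Metric.closedBall (0 : E n) r2)ᶜ = 0 → Integrable (VB n d (gp p e R)) ν := by
    intro ν _ hν
    refine Integrable.of_bound (b21_meas (ν := mB n d) hgc).aestronglyMeasurable
      (|VB n d (gp p e R) 0| + |VB n d (gp p e R) x2|) ?_
    filter_upwards [b21_ae hν] with x hx
    rw [mem_closedBall_zero_iff] at hx
    have h1 := hanti 0 x (by simp)
    have h2 := hanti x x2 (by rw [hx2]; exact hx)
    rw [Real.norm_eq_abs, abs_le]
    have h3 := abs_nonneg (VB n d (gp p e R) 0)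
    have h4 := le_abs_self (VB n d (gp p e R) 0)
    have h5 := neg_abs_le (VB n d (gp p e R) x2)
    have h6 := abs_nonneg (VB n d (gp p e R) x2)
    constructor <;> linarith
  have hA : VB n d (gp p e R) x1 ≤ ∫ x, VB n d (gp p e R) x ∂μ' := by
    have h1 : ∫ x, VB n d (gp p e R) x1 ∂μ' ≤ ∫ x, VB n d (gp p e R) x ∂μ' := by
      refine integral_mono_ae (integrable_const _) (hVint μ' hμS) ?_
      filter_upwards [b21_ae hμ'.2] with x hx
      rw [mem_closedBall_zero_iff] at hx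
      exact hanti x x1 (by rw [hx1]; exact hx)
    simpa using h1
  have hB : ∫ x, VB n d (gp p e R) x ∂(mB n d) ≤ VB n d (gp p e R) x1 := by
    have h1 : ∫ x, VB n d (gp p e R) x ∂(mB n d) ≤ ∫ x, VB n d (gp p e R) x1 ∂(mB n d) := by
      refine integral_mono_ae (hVint (mB n d) hBS) (integrable_const _) ?_
      filter_upwards [b21_ae (mB_shell hn hd hd1)] with x hx
      exact hanti x1 x (by rw [hx1]; exact hx.1)
    simpa using h1
  unfold VB at hA hB
  linarith

theorem ball_gp0 {n : ℕ} (hn : 3 ≤ n) {p : ℝ} (hp : -2 < p) (hp2 : p ≤ (n : ℝ) - 2)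
    {d : ℝ} (hd : 0 < d) (hd1 : d < 1) {μ' : Measure (E n)}
    (hμ' : PK (Metric.closedBall (0 : E n) ((1 + d) ^ (-1 / ((n : ℝ) - 2)))) μ') {R : ℝ}
    (hR2 : (2 * (1 - d) ^ (-1 / ((n : ℝ) - 2))) ^ 2 ≤ R) :
    ∫⁻ x, ∫⁻ y, gp0 p R (‖x - y‖ ^ 2) ∂(mB n d) ∂(mB n d) ≤
      ∫⁻ x, ∫⁻ y, gp0 p R (‖x - y‖ ^ 2) ∂μ' ∂μ' := by
  obtain ⟨hR, hBS, hμS, hS⟩ := b21_geom hn hd hd1 hμ' hR2
  have hP1 : IsProbabilityMeasure μ' := ⟨hμ'.1⟩
  have hP2 : IsProbabilityMeasure (mB n d) := ⟨mB_univ hn hd hd1⟩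
  have hstep : ∀ e : ℝ, 0 < e →
      ∫⁻ x, ∫⁻ y, ENNReal.ofReal (gp p e R (‖x - y‖ ^ 2)) ∂(mB n d) ∂(mB n d) ≤
        ∫⁻ x, ∫⁻ y, gp0 p R (‖x - y‖ ^ 2) ∂μ' ∂μ' := by
    intro e he
    have hgc : ContinuousOn (gp p e R) (Ici 0) := b21_gcont he hR hp2
    have hg0 : ∀ ρ, 0 ≤ ρ → ρ ≤ R → 0 ≤ gp p e R ρ := fun ρ h1 h2 => gp_nonneg he h1 h2
    have hg1 : ∀ ρ, 0 ≤ ρ → gp p e R ρ ≤ gp p e R 0 := fun ρ h1 => gp_le_zero he h1
    rw [← b21_conv hS hBS hgc hg0 hg1]
    refine (ENNReal.ofReal_le_ofReal (ball_gp hn hp hp2 he hd hd1 hμ' hR2)).trans ?_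
    rw [b21_conv hS hμS hgc hg0 hg1]
    refine lintegral_mono_ae ?_
    filter_upwards [b21_ae hμS] with x hx
    refine lintegral_mono_ae ?_
    filter_upwards [b21_ae hμS] with y hy
    exact gp_le_gp0 hp he (by positivity) (hS x hx y hy)
  -- the sequence
  have hek : ∀ k : ℕ, (0 : ℝ) < 1 / ((k : ℝ) + 1) := fun k => by positivity
  have hlim : Tendsto (fun k : ℕ => (1 : ℝ) / ((k : ℝ) + 1)) atTop (𝓝[>] 0) := by
    rw [tendsto_nhdsWithin_iff]
    exact ⟨tendsto_one_div_add_atTop_nhds_zero_nat, Eventually.of_forall fun k => hek k⟩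
  have hmeas : ∀ k : ℕ, Measurable fun q : E n × E n =>
      ENNReal.ofReal (gp p (1 / ((k : ℝ) + 1)) R (‖q.1 - q.2‖ ^ 2)) := fun k =>
    (b21_cont (b21_gcont (hek k) hR hp2)).measurable.ennreal_ofReal
  have hmeas' : ∀ (k : ℕ) (x : E n), Measurable fun y : E n =>
      ENNReal.ofReal (gp p (1 / ((k : ℝ) + 1)) R (‖x - y‖ ^ 2)) := fun k x => by
    refine Measurable.ennreal_ofReal (Continuous.measurable ?_)
    refine (b21_gcont (hek k) hR hp2).comp_continuous (by fun_prop) fun q => ?_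
    simp only [mem_Ici]
    positivity
  calc ∫⁻ x, ∫⁻ y, gp0 p R (‖x - y‖ ^ 2) ∂(mB n d) ∂(mB n d)
      ≤ ∫⁻ x, liminf (fun k : ℕ => ∫⁻ y, ENNReal.ofReal
          (gp p (1 / ((k : ℝ) + 1)) R (‖x - y‖ ^ 2)) ∂(mB n d)) atTop ∂(mB n d) := by
        refine lintegral_mono_ae ?_
        filter_upwards [b21_ae hBS] with x hx
        refine le_trans ?_ (lintegral_liminf_le fun k => hmeas' k x)
        refine lintegral_mono_ae ?_
        filter_upwards [b21_ae hBS] with y hy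
        exact ((gp_tendsto hp (by positivity) (hS x hx y hy)).comp hlim).liminf_eq.ge
    _ ≤ liminf (fun k : ℕ => ∫⁻ x, ∫⁻ y, ENNReal.ofReal
          (gp p (1 / ((k : ℝ) + 1)) R (‖x - y‖ ^ 2)) ∂(mB n d) ∂(mB n d)) atTop :=
        lintegral_liminf_le fun k => (hmeas k).lintegral_prod_right'
    _ ≤ ∫⁻ x, ∫⁻ y, gp0 p R (‖x - y‖ ^ 2) ∂μ' ∂μ' := by
        refine liminf_le_of_le (by isBoundedDefault) ?_
        intro b hb
        obtain ⟨k, hk⟩ := hb.exists
        exact hk.trans (hstep _ (hek k))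

end Pool.Agent.Lib.MP_6cd19d_an.ND
end

section

/-!
# B22: comparison of energies, `-2 < p < n - 2`

`K` compact with `I = infEn (n-2) K ≠ ⊤`; `I ≠ 0` (`‖x-y‖^(-(n-2)) ≥ diam^(-(n-2)) > 0`, or `⊤`, on bounded `K`);
`μ` from `exists_equilibrium`, `M = I.toReal`. For `0 < d < 1` let `b = (M/(1-d))^(2/(n-2))`,
`r = (1+d)^(-1/(n-2))`. For `μ''` with `PK (closedBall 0 1) μ''`, `μ' = μ''.map (r • ·)` lives on `closedBall 0 r`, so
(`energy_gp0`, `ball_gp0`) for `R` large
`∬ gp0 p R (b ‖x-y‖^2) dμ dμ ≤ ∬ gp0 p R (r^2 ‖x-y‖^2) dμ'' dμ''`.   (*)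
`cmp_pos`: `p > 0`: add `ofReal (R^(-p/2)/p)` on both sides (probability measures) and use `gp0_of_pos`, `gp0_top`
(`(edist x y)^(-p) = ⊤` for `x = y`): `b^(-p/2) en p μ ≤ r^(-p) en p μ''`. So
`infEn p K ≤ (M/(1-d))^(p/(n-2)) (1+d)^(p/(n-2)) en p μ''`; infimum over `μ''`, `d → 0`.
`cmp_neg`: `-2 < p < 0`: add to (*) both `ρ`-terms: `gp0_of_neg` gives
`∬ (r^2 ‖x-y‖^2)^(-p/2) dμ'' dμ'' ≤ ∬ (b ‖x-y‖^2)^(-p/2) dμ dμ` (all finite), i.e.
`r^(-p) en p μ'' ≤ b^(-p/2) en p μ ≤ b^(-p/2) supEn p K`; supremum over `μ''`, `d → 0`.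
`cmp_zero`: `p = 0`: with `D = diam K + 1`, `R` so large that `c1 = log (sqrt (R / b) / D) ≥ 0` and
`c2 = log (sqrt R / (3 r)) ≥ 0` (`diam (closedBall 0 1) + 1 = 3` for `n ≥ 1`): for `x ≠ y`
`gp0 0 R (b ‖x-y‖^2) = ofReal (log (D / dist x y)) + ofReal c1`, and similarly on the ball with `c2`; at `x = y` both
are `⊤`. So `logEn K + ofReal c1 ≤ logEn B + ofReal c2`. If `logEn B ≠ ⊤` this gives `logEn K ≠ ⊤` and
`(logEn K).toReal - log D - (1/2) log b ≤ (logEn B).toReal - log 3 - log r`, that is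
`capf 0 K ≥ capf 0 B * b^(-1/2) * r`; `d → 0`.
-/

set_option autoImplicit false

open MeasureTheory Set Filter Topology
open scoped ENNReal ContDiff

namespace Pool.Agent.Lib.MP_6cd19d_an.ND

theorem infEn_pos {n : ℕ} {s : ℝ} (hs : 0 < s) {K : Set (E n)} (hK : IsCompact K) :
    infEn s K ≠ 0 := by
  have hD : Metric.ediam K ≠ ⊤ := hK.isBounded.ediam_ne_top
  have hpos : 0 < (Metric.ediam K) ^ (-s) := by
    rw [ENNReal.rpow_neg, ENNReal.inv_pos]
    exact (ENNReal.rpow_lt_top_of_nonneg hs.le hD).ne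
  have hle : (Metric.ediam K) ^ (-s) ≤ infEn s K := by
    refine le_iInf₂ fun μ hμ => ?_
    have hae : ∀ᵐ x ∂μ, x ∈ K := by
      rw [ae_iff]
      exact hμ.2
    have h1 : ∫⁻ _x, ∫⁻ _y, (Metric.ediam K) ^ (-s) ∂μ ∂μ ≤ en s μ := by
      unfold en
      refine lintegral_mono_ae ?_
      filter_upwards [hae] with x hx
      refine lintegral_mono_ae ?_
      filter_upwards [hae] with y hy
      rw [ENNReal.rpow_neg, ENNReal.rpow_neg, ENNReal.inv_le_inv]
      exact ENNReal.rpow_le_rpow (Metric.edist_le_ediam_of_mem hx hy) hs.le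
    simpa [hμ.1] using h1
  exact (hpos.trans_le hle).ne'

/-- The limit kernel plus its constant, in terms of the Riesz kernel. -/
theorem gp0_add_eq {n : ℕ} {p a R : ℝ} (hp : 0 < p) (ha : 0 < a) (hR : 0 < R) {x y : E n}
    (h : a * ‖x - y‖ ^ 2 ≤ R) :
    gp0 p R (a * ‖x - y‖ ^ 2) + ENNReal.ofReal (R ^ (-p / 2) / p) =
      ENNReal.ofReal (a ^ (-p / 2) / p) * (edist x y) ^ (-p) := by
  rcases eq_or_ne x y with rfl | hxy
  · have h0 : a * ‖x - x‖ ^ 2 = 0 := by simp
    rw [h0, gp0_top hp.le hR, edist_self, ENNReal.zero_rpow_of_neg (by linarith),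
      ENNReal.mul_top, top_add]
    exact (ENNReal.ofReal_pos.2 (div_pos (Real.rpow_pos_of_pos ha _) hp)).ne'
  · have hn : 0 < ‖x - y‖ := norm_pos_iff.2 (sub_ne_zero.2 hxy)
    rw [gp0_of_pos hp (by positivity) h, edist_dist, dist_eq_norm,
      ENNReal.ofReal_rpow_of_pos hn, ← ENNReal.ofReal_mul (by positivity)]
    congr 1
    rw [Real.mul_rpow ha.le (by positivity), ← Real.rpow_natCast ‖x - y‖ 2,
      ← Real.rpow_mul hn.le]
    have : ((2 : ℕ) : ℝ) * (-p / 2) = -p := by push_cast; ring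
    rw [this]
    ring

/-- Energies in terms of the limit kernel. -/
theorem energy_add_eq {n : ℕ} {p a R : ℝ} (hp : 0 < p) (ha : 0 < a) (hR : 0 < R) {S : Set (E n)}
    {μ : Measure (E n)} (hμ : PK S μ) (h : ∀ x ∈ S, ∀ y ∈ S, a * ‖x - y‖ ^ 2 ≤ R) :
    (∫⁻ x, ∫⁻ y, gp0 p R (a * ‖x - y‖ ^ 2) ∂μ ∂μ) + ENNReal.ofReal (R ^ (-p / 2) / p) =
      ENNReal.ofReal (a ^ (-p / 2) / p) * en p μ := by
  have hae : ∀ᵐ x ∂μ, x ∈ S := by
    rw [ae_iff]
    exact hμ.2
  have hc : ENNReal.ofReal (R ^ (-p / 2) / p) =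
      ∫⁻ _x, ∫⁻ _y, ENNReal.ofReal (R ^ (-p / 2) / p) ∂μ ∂μ := by
    simp [hμ.1]
  unfold en
  rw [hc, ← lintegral_add_right _ measurable_const, ← lintegral_const_mul' _ _ ENNReal.ofReal_ne_top]
  refine lintegral_congr_ae ?_
  filter_upwards [hae] with x hx
  rw [← lintegral_add_right _ measurable_const, ← lintegral_const_mul' _ _ ENNReal.ofReal_ne_top]
  refine lintegral_congr_ae ?_
  filter_upwards [hae] with y hy
  exact gp0_add_eq hp ha hR (h x hx y hy)

/-- The comparison before the limit. -/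
theorem cmp_pos_aux {n : ℕ} (hn : 3 ≤ n) {p : ℝ} (hp : 0 < p) (hp2 : p < (n : ℝ) - 2)
    {K : Set (E n)} (hK : IsCompact K) {μ : Measure (E n)} (hμ : PK K μ) {M : ℝ} (hM : 0 < M)
    (hpot : ∀ x, pot ((n : ℝ) - 2) μ x ≤ ENNReal.ofReal M) {d : ℝ} (hd : 0 < d) (hd1 : d < 1)
    {ν : Measure (E n)} (hν : PK (Metric.closedBall (0 : E n) 1) ν) :
    infEn p K ≤ ENNReal.ofReal ((M / (1 - d)) ^ (p / ((n : ℝ) - 2)) *
      (1 + d) ^ (p / ((n : ℝ) - 2))) * en p ν := by
  have hn3 : (3 : ℝ) ≤ (n : ℝ) := by exact_mod_cast hn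
  have hs : 0 < (n : ℝ) - 2 := by linarith
  have h1d : 0 < 1 - d := by linarith
  obtain ⟨b, hb⟩ : ∃ b, b = (M / (1 - d)) ^ (2 / ((n : ℝ) - 2)) := ⟨_, rfl⟩
  obtain ⟨r, hr⟩ : ∃ r, r = (1 + d) ^ (-1 / ((n : ℝ) - 2)) := ⟨_, rfl⟩
  have hb0 : 0 < b := by rw [hb]; positivity
  have hr0 : 0 < r := by rw [hr]; positivity
  obtain ⟨R, hRdef⟩ : ∃ R, R = b * Metric.diam K ^ 2 + (2 * (1 - d) ^ (-1 / ((n : ℝ) - 2))) ^ 2
      + 4 * r ^ 2 := ⟨_, rfl⟩
  have hd0 : 0 ≤ b * Metric.diam K ^ 2 := by positivity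
  have hd2 : 0 < (2 * (1 - d) ^ (-1 / ((n : ℝ) - 2))) ^ 2 := by positivity
  have hr2 : 0 < r ^ 2 := by positivity
  have hR0 : 0 < R := by rw [hRdef]; linarith
  have hRK : ∀ x ∈ K, ∀ y ∈ K, b * ‖x - y‖ ^ 2 ≤ R := by
    intro x hx y hy
    have h1 : ‖x - y‖ ≤ Metric.diam K := by
      rw [← dist_eq_norm]
      exact Metric.dist_le_diam_of_mem hK.isBounded hx hy
    have h2 : b * ‖x - y‖ ^ 2 ≤ b * Metric.diam K ^ 2 := by gcongr
    rw [hRdef]
    linarith
  have hRB : ∀ x ∈ Metric.closedBall (0 : E n) 1, ∀ y ∈ Metric.closedBall (0 : E n) 1,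
      r ^ 2 * ‖x - y‖ ^ 2 ≤ R := by
    intro x hx y hy
    have hx' : ‖x‖ ≤ 1 := by simpa using hx
    have hy' : ‖y‖ ≤ 1 := by simpa using hy
    have h1 : ‖x - y‖ ≤ 2 := (norm_sub_le x y).trans (by linarith)
    have h2 : r ^ 2 * ‖x - y‖ ^ 2 ≤ r ^ 2 * 2 ^ 2 := by gcongr
    rw [hRdef]
    linarith
  have hR2 : (2 * (1 - d) ^ (-1 / ((n : ℝ) - 2))) ^ 2 ≤ R := by
    rw [hRdef]
    linarith
  -- the push-forward of `ν`
  have hemb : MeasurableEmbedding (fun z : E n => r • z) :=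
    (Homeomorph.smulOfNeZero r hr0.ne').measurableEmbedding
  have hν' : PK (Metric.closedBall (0 : E n) ((1 + d) ^ (-1 / ((n : ℝ) - 2))))
      (ν.map (fun z : E n => r • z)) := by
    constructor
    · rw [hemb.map_apply, preimage_univ]
      exact hν.1
    · rw [hemb.map_apply]
      refine measure_mono_null ?_ hν.2
      intro z hz
      simp only [mem_preimage, mem_compl_iff, Metric.mem_closedBall, dist_zero_right, not_le]
        at hz ⊢
      rw [norm_smul, Real.norm_of_nonneg hr0.le, ← hr] at hz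
      by_contra hcon
      push Not at hcon
      have : r * ‖z‖ ≤ r * 1 := by gcongr
      linarith
  have h1 := energy_gp0 hn (by linarith : -2 < p) hp2.le hd hd1 hK hμ hM hpot
    (R := R) (by rw [← hb]; exact hRK) hR2
  have h2 := ball_gp0 hn (by linarith : -2 < p) hp2.le hd hd1 hν' (R := R) hR2
  have h3 : ∫⁻ x, ∫⁻ y, gp0 p R (‖x - y‖ ^ 2) ∂(ν.map (fun z : E n => r • z))
        ∂(ν.map (fun z : E n => r • z)) =
      ∫⁻ x, ∫⁻ y, gp0 p R (r ^ 2 * ‖x - y‖ ^ 2) ∂ν ∂ν := by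
    rw [hemb.lintegral_map]
    refine lintegral_congr fun x => ?_
    rw [hemb.lintegral_map]
    refine lintegral_congr fun y => ?_
    rw [← smul_sub, norm_smul, Real.norm_of_nonneg hr0.le, mul_pow]
  rw [← hb] at h1
  have h4 : (∫⁻ x, ∫⁻ y, gp0 p R (b * ‖x - y‖ ^ 2) ∂μ ∂μ) + ENNReal.ofReal (R ^ (-p / 2) / p) ≤
      (∫⁻ x, ∫⁻ y, gp0 p R (r ^ 2 * ‖x - y‖ ^ 2) ∂ν ∂ν) + ENNReal.ofReal (R ^ (-p / 2) / p) := by
    refine add_le_add ?_ le_rfl
    rw [← h3]
    exact h1.trans h2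
  rw [energy_add_eq hp hb0 hR0 hμ hRK, energy_add_eq hp hr2 hR0 hν hRB] at h4
  have hid : ENNReal.ofReal (b ^ (p / 2) * p) * ENNReal.ofReal (b ^ (-p / 2) / p) = 1 := by
    rw [← ENNReal.ofReal_mul (by positivity), ← ENNReal.ofReal_one]
    congr 1
    have : b ^ (p / 2) * b ^ (-p / 2) = 1 := by
      rw [← Real.rpow_add hb0]
      have : p / 2 + -p / 2 = 0 := by ring
      rw [this, Real.rpow_zero]
    calc b ^ (p / 2) * p * (b ^ (-p / 2) / p) = (b ^ (p / 2) * b ^ (-p / 2)) * (p / p) := by ring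
      _ = 1 := by rw [this, div_self hp.ne', one_mul]
  calc infEn p K ≤ en p μ := iInf₂_le μ hμ
    _ = ENNReal.ofReal (b ^ (p / 2) * p) * (ENNReal.ofReal (b ^ (-p / 2) / p) * en p μ) := by
        rw [← mul_assoc, hid, one_mul]
    _ ≤ ENNReal.ofReal (b ^ (p / 2) * p) * (ENNReal.ofReal ((r ^ 2) ^ (-p / 2) / p) * en p ν) := by
        gcongr
    _ = ENNReal.ofReal ((M / (1 - d)) ^ (p / ((n : ℝ) - 2)) *
      (1 + d) ^ (p / ((n : ℝ) - 2))) * en p ν := by
        rw [← mul_assoc, ← ENNReal.ofReal_mul (by positivity)]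
        congr 2
        have e1 : b ^ (p / 2) = (M / (1 - d)) ^ (p / ((n : ℝ) - 2)) := by
          rw [hb, ← Real.rpow_mul (by positivity)]
          congr 1
          field_simp
        have e2 : (r ^ 2) ^ (-p / 2) = (1 + d) ^ (p / ((n : ℝ) - 2)) := by
          rw [hr, ← Real.rpow_natCast, ← Real.rpow_mul (by positivity),
            ← Real.rpow_mul (by positivity)]
          congr 1
          push_cast
          field_simp
        rw [e1, e2]
        field_simp

theorem cmp_pos {n : ℕ} (hn : 3 ≤ n) {p : ℝ} (hp : 0 < p) (hp2 : p < (n : ℝ) - 2)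
    {K : Set (E n)} (hK : IsCompact K) (hI : infEn ((n : ℝ) - 2) K ≠ ⊤) :
    infEn p K ≤ infEn ((n : ℝ) - 2) K ^ (p / ((n : ℝ) - 2)) *
      infEn p (Metric.closedBall (0 : E n) 1) := by
  have hn3 : (3 : ℝ) ≤ (n : ℝ) := by exact_mod_cast hn
  have hs : 0 < (n : ℝ) - 2 := by linarith
  obtain ⟨μ, hμ, -, -, hpot⟩ := exists_equilibrium hs le_rfl hK hI
  have hI0 := infEn_pos hs hK
  obtain ⟨M, hMdef⟩ : ∃ M, M = (infEn ((n : ℝ) - 2) K).toReal := ⟨_, rfl⟩
  have hM : 0 < M := by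
    rw [hMdef]
    exact ENNReal.toReal_pos hI0 hI
  have hMI : infEn ((n : ℝ) - 2) K = ENNReal.ofReal M := by
    rw [hMdef, ENNReal.ofReal_toReal hI]
  rw [hMI] at hpot ⊢
  have hstep : ∀ d : ℝ, 0 < d → d < 1 →
      infEn p K ≤ ENNReal.ofReal ((M / (1 - d)) ^ (p / ((n : ℝ) - 2)) *
        (1 + d) ^ (p / ((n : ℝ) - 2))) * infEn p (Metric.closedBall (0 : E n) 1) := by
    intro d hd hd1
    have h1d : 0 < 1 - d := by linarith
    have hc0 : ENNReal.ofReal ((M / (1 - d)) ^ (p / ((n : ℝ) - 2)) *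
        (1 + d) ^ (p / ((n : ℝ) - 2))) ≠ 0 :=
      (ENNReal.ofReal_pos.2 (by positivity)).ne'
    have e : infEn p (Metric.closedBall (0 : E n) 1) =
      ⨅ (μ : Measure (E n)) (_ : PK (Metric.closedBall (0 : E n) 1) μ), en p μ := rfl
    rw [e, ENNReal.mul_iInf_of_ne hc0 ENNReal.ofReal_ne_top]
    refine le_iInf fun ν => ?_
    rw [ENNReal.mul_iInf_of_ne hc0 ENNReal.ofReal_ne_top]
    exact le_iInf fun hν => cmp_pos_aux hn hp hp2 hK hμ hM hpot hd hd1 hν
  have hlim : Tendsto (fun d : ℝ => ENNReal.ofReal ((M / (1 - d)) ^ (p / ((n : ℝ) - 2)) *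
      (1 + d) ^ (p / ((n : ℝ) - 2))) * infEn p (Metric.closedBall (0 : E n) 1)) (𝓝[>] 0)
      (𝓝 (ENNReal.ofReal M ^ (p / ((n : ℝ) - 2)) *
        infEn p (Metric.closedBall (0 : E n) 1))) := by
    have hc : ContinuousAt (fun d : ℝ => (M / (1 - d)) ^ (p / ((n : ℝ) - 2)) *
      (1 + d) ^ (p / ((n : ℝ) - 2))) 0 := by
      refine ContinuousAt.mul ?_ ?_
      · refine ContinuousAt.rpow_const ?_ (Or.inl (by simpa using hM.ne'))
        refine ContinuousAt.div continuousAt_const (by fun_prop) (by simp)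
      · exact ContinuousAt.rpow_const (by fun_prop) (Or.inl (by simp))
    have hc1 : Tendsto (fun d : ℝ => (M / (1 - d)) ^ (p / ((n : ℝ) - 2)) *
      (1 + d) ^ (p / ((n : ℝ) - 2))) (𝓝[>] 0) (𝓝 (M ^ (p / ((n : ℝ) - 2)))) := by
      have := hc.tendsto.mono_left (nhdsWithin_le_nhds (s := Ioi (0 : ℝ)))
      simpa using this
    have hc2 := ENNReal.tendsto_ofReal hc1
    rw [← ENNReal.ofReal_rpow_of_pos hM] at hc2
    refine ENNReal.Tendsto.mul_const hc2 (Or.inl ?_)
    rw [ENNReal.ofReal_rpow_of_pos hM]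
    exact (ENNReal.ofReal_pos.2 (by positivity)).ne'
  refine ge_of_tendsto hlim ?_
  filter_upwards [Ioo_mem_nhdsGT (show (0 : ℝ) < 1 by norm_num)] with d hd
  exact hstep d hd.1 hd.2

end Pool.Agent.Lib.MP_6cd19d_an.ND
end
end

section

section

/-!
# C15: the energy inequality for discrete measures, `n = 2` (analogue of B15)

`PhL_le`: `g ≤ C` on `[0,∞)`; Fatou exactly as in B15 (copy the proof of `Phi_div_le`), with `antitone_of_concave_bdd`
(`concaveOn_PhL`, `PhL_bound`): `PhL s0 ≤ PhL s` for `s ≤ s0`, and `s → -∞` along a sequence (`scL_tendsto`,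
`integral_scL`, `PhL_scale`).
`discrete_ineqL`: if `U ≤ s0 - d` everywhere, `rL s0 = -lap U = ∑ m_j btL (· - y_j)` (`rL_of_le`, `lap_UL`); expand the
double integral `PhL s0` and translate the variables as in B15 (`discrete_ineq`).
-/

set_option autoImplicit false

open MeasureTheory Set Filter Topology
open scoped ENNReal ContDiff

namespace Pool.Agent.Lib.MP_6cd19d_an.ND

private theorem c15_cont_g {g : ℝ → ℝ} {η : ℝ} (hg : GoodG 2 g η) {X : Type*}
    [TopologicalSpace X] {h : X → ℝ} (hh : Continuous h) (h0 : ∀ x, 0 ≤ h x) :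
    Continuous (fun x => g (h x)) := by
  refine hg.smooth.continuousOn.comp_continuous hh fun x => ?_
  have := hg.pos
  have := h0 x
  simp only [mem_Ioi]
  linarith

private theorem c15_cont_bt {d T : ℝ} (hd : 0 < d) (hd1 : d < 1) : Continuous (btL d T) := by
  unfold btL
  exact (contDiff_lap (contDiff_nl hd hd1)).continuous.neg

private theorem c15_cs {f h : E 2 → ℝ} {R : ℝ} (hf : ∀ x, R < ‖x‖ → f x = 0)
    (hh : ∀ x, R < ‖x‖ → h x = 0) (k : E 2 × E 2 → ℝ) :
    HasCompactSupport (fun z : E 2 × E 2 => k z * (f z.1 * h z.2)) := by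
  refine HasCompactSupport.intro (isCompact_closedBall (0 : E 2 × E 2) R) fun z hz => ?_
  rw [Metric.mem_closedBall, dist_zero_right, Prod.norm_def, max_le_iff, not_and_or] at hz
  rcases hz with h1 | h1
  · rw [hf z.1 (not_le.1 h1)]
    simp
  · rw [hh z.2 (not_le.1 h1)]
    simp

private theorem c15_bt_bdd {d T : ℝ} (hd : 0 < d) (hd1 : d < 1) :
    ∃ R : ℝ, ∀ x : E 2, R < ‖x‖ → btL d T x = 0 :=
  ⟨_, fun _ hx => btL_eq_zero hd hd1 (Or.inr hx)⟩

private theorem c15_integrable {f h : E 2 → ℝ} {R : ℝ} (hf : ∀ x, R < ‖x‖ → f x = 0)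
    (hh : ∀ x, R < ‖x‖ → h x = 0) (hfc : Continuous f) (hhc : Continuous h)
    {k : E 2 × E 2 → ℝ} (hk : Continuous k) :
    Integrable (fun z : E 2 × E 2 => k z * (f z.1 * h z.2)) := by
  have hc : Continuous (fun z : E 2 × E 2 => k z * (f z.1 * h z.2)) :=
    hk.mul ((hfc.comp continuous_fst).mul (hhc.comp continuous_snd))
  exact hc.integrable_of_hasCompactSupport (c15_cs hf hh k)

/-- Mass identity for the difference with a constant. -/
private theorem c15_split {g : ℝ → ℝ} {η : ℝ} (hg : GoodG 2 g η) (C : ℝ)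
    {f : E 2 → ℝ} {R : ℝ} (hf : ∀ x, R < ‖x‖ → f x = 0) (hfc : Continuous f) :
    Integrable (fun z : E 2 × E 2 => (C - g (‖z.1 - z.2‖ ^ 2)) * (f z.1 * f z.2)) ∧
    ∫ z : E 2 × E 2, (C - g (‖z.1 - z.2‖ ^ 2)) * (f z.1 * f z.2) =
      C * (∫ x, f x) ^ 2 - ∫ z : E 2 × E 2, g (‖z.1 - z.2‖ ^ 2) * (f z.1 * f z.2) := by
  have hgc : Continuous (fun z : E 2 × E 2 => g (‖z.1 - z.2‖ ^ 2)) :=
    c15_cont_g hg ((continuous_fst.sub continuous_snd).norm.pow 2) fun z => by positivity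
  have h1 := c15_integrable hf hf hfc hfc (k := fun _ => C) continuous_const
  have h2 := c15_integrable hf hf hfc hfc (k := fun z => g (‖z.1 - z.2‖ ^ 2)) hgc
  have h3 : ∀ z : E 2 × E 2, (C - g (‖z.1 - z.2‖ ^ 2)) * (f z.1 * f z.2) =
      C * (f z.1 * f z.2) - g (‖z.1 - z.2‖ ^ 2) * (f z.1 * f z.2) := fun z => by ring
  constructor
  · exact (h1.sub h2).congr (Eventually.of_forall fun z => (h3 z).symm)
  · rw [integral_congr_ae (Eventually.of_forall h3), integral_sub h1 h2, integral_const_mul]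
    congr 2
    rw [Measure.volume_eq_prod, integral_prod_mul, sq]

private theorem c15_supp {d : ℝ} (hd : 0 < d) (hd1 : d < 1) {U : E 2 → ℝ} (hU : GoodL U) (s : ℝ) :
    ∃ R : ℝ, ∀ x : E 2, R < ‖x‖ → scL d U s x = 0 := by
  obtain ⟨R, hR⟩ := (isCompact_supL d hU s).isBounded.exists_norm_le
  refine ⟨Real.exp s * R, fun x hx => ?_⟩
  have h1 : Real.exp (-s) • x ∉ supL d U s := by
    intro hmem
    have h2 := hR _ hmem
    rw [norm_smul, Real.norm_eq_abs, abs_of_pos (Real.exp_pos _)] at h2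
    have h3 : ‖x‖ = Real.exp s * (Real.exp (-s) * ‖x‖) := by
      rw [← mul_assoc, ← Real.exp_add]
      simp
    have h4 : Real.exp s * (Real.exp (-s) * ‖x‖) ≤ Real.exp s * R :=
      mul_le_mul_of_nonneg_left h2 (Real.exp_pos _).le
    linarith
  unfold scL
  rw [(suppL hd hd1 hU le_rfl h1).1, mul_zero]

private theorem c15_cont_sc {d : ℝ} {U : E 2 → ℝ} (hU : GoodL U) (s : ℝ) :
    Continuous (scL d U s) := by
  unfold scL
  exact continuous_const.mul ((contDiff_rL d hU s).continuous.comp (continuous_const_smul _))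

private theorem c15_sc_nonneg {d : ℝ} (hd : 0 < d) {U : E 2 → ℝ} (hU : GoodL U) (s : ℝ)
    (x : E 2) : 0 ≤ scL d U s x :=
  mul_nonneg (Real.exp_pos _).le (rL_nonneg hd hU _ _)

theorem PhL_le {g : ℝ → ℝ} {η : ℝ} (hg : GoodG 2 g η) {C : ℝ}
    (hC : ∀ ρ, 0 ≤ ρ → g ρ ≤ C) {d T : ℝ} (hd : 0 < d) (hd1 : d < 1)
    {N : ℕ} {m : Fin N → ℝ} (hm : ∀ j, 0 ≤ m j) (hm1 : ∑ j, m j = 1) (y : Fin N → E 2)
    (s0 : ℝ) : PhL g d (UL d T m y) s0 ≤ QL g d := by
  have hU : GoodL (UL d T m y) := goodL_sum hd hd1 hm hm1 y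
  obtain ⟨C', hC'⟩ := PhL_bound hg hd hd1 (T := T) hm hm1 y
  have hconc := concaveOn_PhL hg hd hd1 hU
  have hanti : Antitone (PhL g d (UL d T m y)) := antitone_of_concave_bdd hconc hC'
  -- the sequence
  set u : ℕ → ℝ := fun k => s0 - k with hu
  have hule0 : ∀ k, u k ≤ s0 := fun k => by
    have : (0 : ℝ) ≤ (k : ℝ) := Nat.cast_nonneg k
    rw [hu]
    simp only
    linarith
  have hulim : Tendsto u atTop atBot := by
    rw [hu]
    have h1 : Tendsto (fun k : ℕ => -(k : ℝ)) atTop atBot :=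
      tendsto_neg_atTop_atBot.comp tendsto_natCast_atTop_atTop
    exact (tendsto_atBot_add_const_left atTop s0 h1).congr fun k => by ring
  set G : ℕ → E 2 × E 2 → ℝ := fun k z => (C - g (‖z.1 - z.2‖ ^ 2)) *
    (scL d (UL d T m y) (u k) z.1 * scL d (UL d T m y) (u k) z.2) with hG
  have hGnn : ∀ k z, 0 ≤ G k z := fun k z =>
    mul_nonneg (by have := hC (‖z.1 - z.2‖ ^ 2) (by positivity); linarith)
      (mul_nonneg (c15_sc_nonneg hd hU _ _) (c15_sc_nonneg hd hU _ _))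
  have hGs : ∀ k, Integrable (G k) ∧ ∫ z, G k z = C * cL d ^ 2 -
      PhL g d (UL d T m y) (u k) := by
    intro k
    obtain ⟨R, hsupp⟩ := c15_supp hd hd1 hU (u k)
    have h1 := c15_split hg C hsupp (c15_cont_sc hU (u k))
    rw [integral_scL hd hd1 hm hm1 y (u k)] at h1
    rw [PhL_scale g d _ (u k)]
    exact h1
  obtain ⟨R', hR'⟩ := c15_bt_bdd hd hd1 (T := 0)
  have hlimI := c15_split hg C hR' (c15_cont_bt hd hd1)
  have hlnn : ∀ z : E 2 × E 2, 0 ≤ (C - g (‖z.1 - z.2‖ ^ 2)) * (btL d 0 z.1 * btL d 0 z.2) :=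
    fun z => mul_nonneg (by have := hC (‖z.1 - z.2‖ ^ 2) (by positivity); linarith)
      (mul_nonneg (btL_nonneg hd hd1 _) (btL_nonneg hd hd1 _))
  set b : ℝ := C * cL d ^ 2 - PhL g d (UL d T m y) s0 with hb
  have hkb : ∀ k, ∫ z, G k z ≤ b := by
    intro k
    rw [(hGs k).2, hb]
    have := hanti (hule0 k)
    linarith
  have hb0 : 0 ≤ b := (integral_nonneg (hGnn 0)).trans (hkb 0)
  -- a.e. convergence
  have hae : ∀ᵐ z : E 2 × E 2, z.1 ≠ 0 ∧ z.2 ≠ 0 := by
    have hx : ∀ᵐ x : E 2, x ≠ 0 := by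
      have : Nontrivial (E 2) := by infer_instance
      rw [ae_iff]
      simp only [not_not, Set.ofPred_eq_eq_singleton]
      exact measure_singleton 0
    have h1 : ∀ᵐ z : E 2 × E 2, z.1 ≠ 0 :=
      (Measure.quasiMeasurePreserving_fst (μ := (volume : Measure (E 2)))
        (ν := (volume : Measure (E 2)))).ae hx
    have h2 : ∀ᵐ z : E 2 × E 2, z.2 ≠ 0 :=
      (Measure.quasiMeasurePreserving_snd (μ := (volume : Measure (E 2)))
        (ν := (volume : Measure (E 2)))).ae hx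
    filter_upwards [h1, h2] with z hz1 hz2 using ⟨hz1, hz2⟩
  have hconv : ∀ᵐ z : E 2 × E 2, ENNReal.ofReal ((C - g (‖z.1 - z.2‖ ^ 2)) *
      (btL d 0 z.1 * btL d 0 z.2)) = liminf (fun k => ENNReal.ofReal (G k z)) atTop := by
    filter_upwards [hae] with z hz
    symm
    apply Tendsto.liminf_eq
    apply (ENNReal.continuous_ofReal.tendsto _).comp
    have h1 := (scL_tendsto (T := T) hd hd1 hm hm1 y hz.1).comp hulim
    have h2 := (scL_tendsto (T := T) hd hd1 hm hm1 y hz.2).comp hulim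
    exact (h1.mul h2).const_mul _
  have hfatou : ∫⁻ z : E 2 × E 2, ENNReal.ofReal ((C - g (‖z.1 - z.2‖ ^ 2)) *
      (btL d 0 z.1 * btL d 0 z.2)) ≤ ENNReal.ofReal b := by
    rw [lintegral_congr_ae hconv]
    refine (lintegral_liminf_le' fun k => ?_).trans ?_
    · exact (hGs k).1.aestronglyMeasurable.aemeasurable.ennreal_ofReal
    · have h1 : ∀ k, ∫⁻ z, ENNReal.ofReal (G k z) ≤ ENNReal.ofReal b := by
        intro k
        rw [← ofReal_integral_eq_lintegral_ofReal (hGs k).1 (Eventually.of_forall (hGnn k))]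
        exact ENNReal.ofReal_le_ofReal (hkb k)
      calc liminf (fun k => ∫⁻ z, ENNReal.ofReal (G k z)) atTop
          ≤ liminf (fun _ : ℕ => ENNReal.ofReal b) atTop :=
            liminf_le_liminf (Eventually.of_forall h1)
        _ = ENNReal.ofReal b := liminf_const _
  rw [← ofReal_integral_eq_lintegral_ofReal hlimI.1 (Eventually.of_forall hlnn),
    ENNReal.ofReal_le_ofReal_iff hb0, hlimI.2, hb] at hfatou
  have hcb : (∫ x, btL d 0 x) = cL d := rfl
  rw [hcb] at hfatou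
  unfold QL
  linarith

theorem discrete_ineqL {g : ℝ → ℝ} {η : ℝ} (hg : GoodG 2 g η) {C : ℝ}
    (hC : ∀ ρ, 0 ≤ ρ → g ρ ≤ C) {d T : ℝ} (hd : 0 < d) (hd1 : d < 1)
    {N : ℕ} {m : Fin N → ℝ} (hm : ∀ j, 0 ≤ m j) (hm1 : ∑ j, m j = 1) (y : Fin N → E 2)
    {s0 : ℝ} (hU : ∀ x, UL d T m y x ≤ s0 - d) :
    ∑ i, ∑ j, m i * m j * GTL g d T (Real.exp (2 * s0)) (y i - y j) ≤ QL g d := by
  have hGU : GoodL (UL d T m y) := goodL_sum hd hd1 hm hm1 y
  refine le_trans (le_of_eq ?_) (PhL_le hg hC hd hd1 (T := T) hm hm1 y s0)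
  set b : ℝ := Real.exp (2 * s0) with hb
  have hb0 : 0 ≤ b := (Real.exp_pos _).le
  obtain ⟨R, hR⟩ := c15_bt_bdd hd hd1 (T := T)
  have hbc : Continuous (btL d T) := c15_cont_bt hd hd1
  have h1 : PhL g d (UL d T m y) s0 =
      ∫ z : E 2 × E 2, ∑ i, ∑ j, m i * m j * (g (b * ‖z.1 - z.2‖ ^ 2) *
        (btL d T (z.1 - y i) * btL d T (z.2 - y j))) := by
    unfold PhL
    congr 1
    funext z
    rw [rL_of_le hd hd1 hGU hU, rL_of_le hd hd1 hGU hU, lap_UL hd hd1,
      lap_UL hd hd1, neg_neg, neg_neg, Finset.sum_mul_sum, Finset.mul_sum]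
    refine Finset.sum_congr rfl fun i _ => ?_
    rw [Finset.mul_sum]
    refine Finset.sum_congr rfl fun j _ => ?_
    unfold kA
    rw [← hb]
    ring
  have hgc : Continuous (fun z : E 2 × E 2 => g (b * ‖z.1 - z.2‖ ^ 2)) :=
    c15_cont_g hg (continuous_const.mul ((continuous_fst.sub continuous_snd).norm.pow 2))
      fun z => by positivity
  have hint : ∀ i j : Fin N, Integrable (fun z : E 2 × E 2 => m i * m j *
      (g (b * ‖z.1 - z.2‖ ^ 2) * (btL d T (z.1 - y i) * btL d T (z.2 - y j)))) := by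
    intro i j
    apply Integrable.const_mul
    refine c15_integrable (f := fun x => btL d T (x - y i)) (h := fun x => btL d T (x - y j))
      (R := R + ‖y i‖ + ‖y j‖) ?_ ?_ (hbc.comp (continuous_id.sub continuous_const))
      (hbc.comp (continuous_id.sub continuous_const)) hgc
    · intro x hx
      apply hR
      have := norm_sub_norm_le x (y i)
      have := norm_nonneg (y j)
      linarith
    · intro x hx
      apply hR
      have := norm_sub_norm_le x (y j)
      have := norm_nonneg (y i)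
      linarith
  rw [h1, integral_finsetSum _ fun i _ => integrable_finsetSum _ fun j _ => hint i j]
  refine Finset.sum_congr rfl fun i _ => ?_
  rw [integral_finsetSum _ fun j _ => hint i j]
  refine Finset.sum_congr rfl fun j _ => ?_
  rw [integral_const_mul]
  congr 1
  unfold GTL
  have hinv : (volume : Measure (E 2 × E 2)).IsAddRightInvariant := by
    rw [Measure.volume_eq_prod]
    infer_instance
  rw [← integral_sub_right_eq_self (μ := (volume : Measure (E 2 × E 2)))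
    (fun z : E 2 × E 2 => g (b * ‖y i - y j + z.1 - z.2‖ ^ 2) * (btL d T z.1 * btL d T z.2))
    (y i, y j)]
  congr 1
  funext z
  simp only [Prod.fst_sub, Prod.snd_sub]
  congr 4
  abel_nf

end Pool.Agent.Lib.MP_6cd19d_an.ND
end

section

/-!
# C16: the energy inequality for measures with bounded logarithmic potential, `n = 2` (analogue of B16)

`energy_TL` (fixed `T`): as `energy_T` in B16 (copy its proof): `b = exp (2 (M+d))`. Take `s0 > M + d`. `nl d T` is
Lipschitz (`nl_lipschitz`, constant `L`). With simple functions `S_N → id` uniformly on `K`, `μ.map S_N = ∑ m_j δ_{y_j}`,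
`∑ m_j nl (x - y_j) = ∫ nl (x - S_N ξ) dμ ≤ ∫ nl (x - ξ) dμ + L ε_N ≤ M + L ε_N ≤ s0 - d` for large `N`, so
`discrete_ineqL`: `∬ GTL (exp (2 s0)) (S_N ξ - S_N ξ') dμ dμ ≤ QL`; `N → ∞`, then `s0 → M + d`
(`GTL_continuousOn`).
`energy_ineqL`: `T → ∞`: `btL T ≥ 0` has mass `cL d` (`integral_btL`) and support in `‖z‖ ≤ exp (-T+d) → 0`
(`btL_eq_zero`), so `GTL T b w → cL^2 g (b ‖w‖^2)` uniformly for `w` in bounded sets.
`nl_pot_le`: `s > 0`: for `z ≠ 0`: `nl d T z ≤ -log ‖z‖ ≤ (‖z‖^(-s) - 1)/s` (`nl_le`; `log u ≤ u - 1` for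
`u = ‖z‖^(-s)`); `μ {x} = 0` since `pot s μ x < ⊤`.
-/

set_option autoImplicit false

open MeasureTheory Set Filter Topology
open scoped ENNReal ContDiff

namespace Pool.Agent.Lib.MP_6cd19d_an.ND

private theorem c16_cont_btL {d T : ℝ} (hd : 0 < d) (hd1 : d < 1) : Continuous (btL d T) := by
  unfold btL
  exact (contDiff_lap (contDiff_nl hd hd1)).continuous.neg

theorem GTL_continuousOn {g : ℝ → ℝ} {η : ℝ} (hg : GoodG 2 g η) {d T : ℝ}
    (hd : 0 < d) (hd1 : d < 1) :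
    ContinuousOn (fun p : ℝ × E 2 => GTL g d T p.1 p.2) (Ici 0 ×ˢ univ) := by
  set R : ℝ := Real.exp (-T + d) with hR
  have hbt : ∀ x : E 2, R < ‖x‖ → btL d T x = 0 := fun x hx =>
    btL_eq_zero hd hd1 (Or.inr hx)
  have hbc := c16_cont_btL (T := T) hd hd1
  unfold GTL
  refine continuousOn_integral_of_compact_support
    (f := fun (p : ℝ × E 2) (z : E 2 × E 2) =>
      g (p.1 * ‖p.2 + z.1 - z.2‖ ^ 2) * (btL d T z.1 * btL d T z.2))
    (k := Metric.closedBall (0 : E 2 × E 2) R) (isCompact_closedBall _ _) ?_ ?_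
  · have h1 : ContinuousOn (fun q : (ℝ × E 2) × (E 2 × E 2) =>
        g (q.1.1 * ‖q.1.2 + q.2.1 - q.2.2‖ ^ 2)) ((Ici 0 ×ˢ univ) ×ˢ univ) := by
      refine hg.smooth.continuousOn.comp ?_ ?_
      · apply Continuous.continuousOn
        fun_prop
      · rintro ⟨⟨b, w⟩, z⟩ hq
        simp only [mem_prod, mem_Ici, mem_univ, and_true] at hq
        have h0 : 0 ≤ b * ‖w + z.1 - z.2‖ ^ 2 := by positivity
        have := hg.pos
        simp only [mem_Ioi]
        linarith
    have h2 : Continuous (fun q : (ℝ × E 2) × (E 2 × E 2) =>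
        btL d T q.2.1 * btL d T q.2.2) :=
      (hbc.comp (continuous_fst.comp continuous_snd)).mul
        (hbc.comp (continuous_snd.comp continuous_snd))
    exact h1.mul h2.continuousOn
  · intro p z _ hz
    rw [Metric.mem_closedBall, dist_zero_right, Prod.norm_def, max_le_iff, not_and_or] at hz
    rcases hz with h1 | h1
    · rw [hbt z.1 (not_le.1 h1)]
      simp
    · rw [hbt z.2 (not_le.1 h1)]
      simp

/-- A probability measure pushed by a simple function is a finite convex combination of points. -/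
private theorem c16_simple {n : ℕ} {μ : Measure (E n)} [IsProbabilityMeasure μ]
    (S : SimpleFunc (E n) (E n)) :
    ∃ (N : ℕ) (m : Fin N → ℝ) (y : Fin N → E n), (∀ j, 0 ≤ m j) ∧ ∑ j, m j = 1 ∧
      ∀ h : E n → ℝ, ∫ ξ, h (S ξ) ∂μ = ∑ j, m j * h (y j) := by
  classical
  set e := S.range.equivFin with he
  set M : E n → ℝ := fun v => μ.real (S ⁻¹' {v}) with hM
  have key : ∀ h : E n → ℝ, ∫ ξ, h (S ξ) ∂μ = ∑ v ∈ S.range, M v * h v := by
    intro h
    have h1 : ∀ ξ, h (S ξ) = ∑ v ∈ S.range, (S ⁻¹' {v}).indicator (fun _ => h v) ξ := by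
      intro ξ
      rw [Finset.sum_eq_single (S ξ)]
      · rw [indicator_of_mem]
        simp
      · intro v _ hv
        rw [indicator_of_notMem]
        simpa using fun h => hv h.symm
      · intro hv
        exact absurd (SimpleFunc.mem_range_self S ξ) hv
    simp_rw [h1]
    rw [integral_finsetSum]
    · refine Finset.sum_congr rfl fun v _ => ?_
      rw [integral_indicator_const _ (S.measurableSet_fiber v), smul_eq_mul]
    · intro v _
      exact (integrable_const (h v)).indicator (S.measurableSet_fiber v)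
  have conv : ∀ f : E n → ℝ, ∑ j : Fin S.range.card, f (e.symm j : E n) = ∑ v ∈ S.range, f v := by
    intro f
    rw [← Finset.sum_coe_sort S.range f]
    exact Equiv.sum_comp e.symm (fun v : S.range => f v)
  refine ⟨S.range.card, fun j => M (e.symm j), fun j => (e.symm j : E n),
    fun j => measureReal_nonneg, ?_, ?_⟩
  · rw [conv M]
    have h2 := key (fun _ => 1)
    simp only [mul_one, integral_const, smul_eq_mul, probReal_univ] at h2
    exact h2.symm
  · intro h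
    rw [key h, ← conv (fun v => M v * h v)]

/-- Dominated convergence for double integrals. -/
private theorem c16_dct {n : ℕ} {μ : Measure (E n)} [IsProbabilityMeasure μ] {K : Set (E n)}
    (hK : μ Kᶜ = 0) {F : ℕ → E n × E n → ℝ} {G : E n × E n → ℝ} (hF : ∀ k, Measurable (F k))
    {B : ℝ} (hB : ∀ k, ∀ x ∈ K, ∀ y ∈ K, |F k (x, y)| ≤ B)
    (hlim : ∀ x ∈ K, ∀ y ∈ K, Tendsto (fun k => F k (x, y)) atTop (𝓝 (G (x, y)))) :
    Tendsto (fun k => ∫ x, ∫ y, F k (x, y) ∂μ ∂μ) atTop (𝓝 (∫ x, ∫ y, G (x, y) ∂μ ∂μ)) := by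
  have hae : ∀ᵐ x ∂μ, x ∈ K := by
    rw [ae_iff]
    exact hK
  have hinner : ∀ x ∈ K, Tendsto (fun k => ∫ y, F k (x, y) ∂μ) atTop
      (𝓝 (∫ y, G (x, y) ∂μ)) := by
    intro x hx
    refine tendsto_integral_of_dominated_convergence (fun _ => B) ?_ (integrable_const _) ?_ ?_
    · intro k
      exact ((hF k).comp (measurable_const.prodMk measurable_id)).aestronglyMeasurable
    · intro k
      filter_upwards [hae] with y hy
      rw [Real.norm_eq_abs]
      exact hB k x hx y hy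
    · filter_upwards [hae] with y hy
      exact hlim x hx y hy
  refine tendsto_integral_of_dominated_convergence (fun _ => B) ?_ (integrable_const _) ?_ ?_
  · intro k
    exact ((hF k).stronglyMeasurable.integral_prod_right').aestronglyMeasurable
  · intro k
    filter_upwards [hae] with x hx
    rw [Real.norm_eq_abs]
    calc |∫ y, F k (x, y) ∂μ| ≤ ∫ y, |F k (x, y)| ∂μ := abs_integral_le_integral_abs
      _ ≤ ∫ _, B ∂μ := by
          apply integral_mono_of_nonneg (Eventually.of_forall fun y => abs_nonneg _)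
            (integrable_const _)
          filter_upwards [hae] with y hy
          exact hB k x hx y hy
      _ = B := by simp
  · filter_upwards [hae] with x hx
    exact hinner x hx

private theorem c16_int_cont {n : ℕ} {μ : Measure (E n)} [IsProbabilityMeasure μ] {K : Set (E n)}
    (hKc : IsCompact K) (hK : μ Kᶜ = 0) {f : E n → ℝ} (hf : Continuous f) : Integrable f μ := by
  have hae : ∀ᵐ x ∂μ, x ∈ K := by
    rw [ae_iff]
    exact hK
  have h1 : IntegrableOn f K μ := hf.continuousOn.integrableOn_compact hKc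
  rwa [IntegrableOn, Measure.restrict_eq_self_of_ae_mem hae] at h1

private theorem c16_GT_cont {g : ℝ → ℝ} {η : ℝ} (hg : GoodG 2 g η) {d T : ℝ}
    (hd : 0 < d) (hd1 : d < 1) {b : ℝ} (hb : 0 ≤ b) :
    Continuous (fun w : E 2 => GTL g d T b w) := by
  have h := GTL_continuousOn (T := T) hg hd hd1
  have h2 : Continuous (fun w : E 2 => ((b, w) : ℝ × E 2)) := by fun_prop
  exact h.comp_continuous h2 fun w => ⟨hb, mem_univ _⟩

/-- The discrete inequality for a measure pushed by a simple function. -/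
private theorem c16_discrete {g : ℝ → ℝ} {η : ℝ} (hg : GoodG 2 g η) {C : ℝ}
    (hC : ∀ ρ, 0 ≤ ρ → g ρ ≤ C) {d T : ℝ} (hd : 0 < d) (hd1 : d < 1)
    {μ : Measure (E 2)} [IsProbabilityMeasure μ] (S : SimpleFunc (E 2) (E 2)) {s0 : ℝ}
    (hU : ∀ x, ∫ ξ, nl d T (x - S ξ) ∂μ ≤ s0 - d) :
    ∫ x, ∫ y, GTL g d T (Real.exp (2 * s0)) (S x - S y) ∂μ ∂μ ≤ QL g d := by
  obtain ⟨N, m, y, hm, hm1, hS⟩ := c16_simple (μ := μ) S
  have h1 : ∀ x, UL d T m y x ≤ s0 - d := by
    intro x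
    refine le_trans (le_of_eq ?_) (hU x)
    exact (hS fun v => nl d T (x - v)).symm
  refine le_trans (le_of_eq ?_) (discrete_ineqL hg hC hd hd1 hm hm1 y h1)
  have h2 : ∀ x, ∫ y', GTL g d T (Real.exp (2 * s0)) (S x - S y') ∂μ =
      ∑ j, m j * GTL g d T (Real.exp (2 * s0)) (S x - y j) := fun x =>
    hS fun v => GTL g d T (Real.exp (2 * s0)) (S x - v)
  simp_rw [h2]
  rw [hS fun u => ∑ j, m j * GTL g d T (Real.exp (2 * s0)) (u - y j)]
  refine Finset.sum_congr rfl fun i _ => ?_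
  rw [Finset.mul_sum]
  refine Finset.sum_congr rfl fun j _ => ?_
  ring

theorem energy_TL {g : ℝ → ℝ} {η : ℝ} (hg : GoodG 2 g η) {C : ℝ}
    (hC : ∀ ρ, 0 ≤ ρ → g ρ ≤ C) {d T : ℝ} (hd : 0 < d) (hd1 : d < 1)
    {K : Set (E 2)} (hK : IsCompact K) {μ : Measure (E 2)} (hμ : PK K μ) {M : ℝ}
    (hpot : ∀ x, ∫ ξ, nl d T (x - ξ) ∂μ ≤ M) :
    ∫ x, ∫ y, GTL g d T (Real.exp (2 * (M + d))) (x - y) ∂μ ∂μ ≤ QL g d := by
  have hP : IsProbabilityMeasure μ := ⟨hμ.1⟩
  have hK0 : μ Kᶜ = 0 := hμ.2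
  have hae : ∀ᵐ x ∂μ, x ∈ K := by
    rw [ae_iff]
    exact hK0
  obtain ⟨L, hL⟩ := nl_lipschitz (T := T) hd hd1
  have hKne : K.Nonempty := by
    by_contra h
    rw [not_nonempty_iff_eq_empty] at h
    rw [h, compl_empty, hμ.1] at hK0
    exact one_ne_zero hK0
  obtain ⟨y0, hy0⟩ := hKne
  set S : ℕ → SimpleFunc (E 2) (E 2) :=
    fun k => SimpleFunc.approxOn id measurable_id K y0 hy0 k with hS
  have hSK : ∀ k x, S k x ∈ K := fun k x => SimpleFunc.approxOn_mem measurable_id hy0 k x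
  have hSlim : ∀ x ∈ K, Tendsto (fun k => S k x) atTop (𝓝 x) := fun x hx =>
    SimpleFunc.tendsto_approxOn measurable_id hy0 (subset_closure hx)
  have hnkc : Continuous (nl d T) := (contDiff_nl hd hd1).continuous
  -- the error of the discretisation
  set er : ℕ → ℝ := fun k => ∫ ξ, ‖S k ξ - ξ‖ ∂μ with her
  have hbd : ∀ k, ∀ ξ ∈ K, ‖S k ξ - ξ‖ ≤ Metric.diam K := by
    intro k ξ hξ
    rw [← dist_eq_norm]
    exact Metric.dist_le_diam_of_mem hK.isBounded (hSK k ξ) hξ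
  have hmeasS : ∀ k, Measurable (fun ξ => ‖S k ξ - ξ‖) := fun k =>
    ((S k).measurable.sub measurable_id).norm
  have hintS : ∀ k, Integrable (fun ξ => ‖S k ξ - ξ‖) μ := by
    intro k
    refine (integrable_const (Metric.diam K)).mono' (hmeasS k).aestronglyMeasurable ?_
    filter_upwards [hae] with ξ hξ
    rw [norm_norm]
    exact hbd k ξ hξ
  have herlim : Tendsto er atTop (𝓝 0) := by
    have h1 := tendsto_integral_of_dominated_convergence (μ := μ)
      (F := fun k ξ => ‖S k ξ - ξ‖) (f := fun _ => (0 : ℝ)) (fun _ => Metric.diam K)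
      (fun k => (hmeasS k).aestronglyMeasurable) (integrable_const _)
      (fun k => by
        filter_upwards [hae] with ξ hξ
        rw [norm_norm]
        exact hbd k ξ hξ)
      (by
        filter_upwards [hae] with ξ hξ
        have h2 := ((hSlim ξ hξ).sub_const ξ).norm
        rwa [sub_self, norm_zero] at h2)
    simpa using h1
  have hUk : ∀ k x, ∫ ξ, nl d T (x - S k ξ) ∂μ ≤ M + L * er k := by
    intro k x
    have hi1 : Integrable (fun ξ => nl d T (x - ξ)) μ :=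
      c16_int_cont hK hK0 (hnkc.comp (continuous_const.sub continuous_id))
    have hms : Measurable (fun ξ => nl d T (x - S k ξ)) :=
      hnkc.measurable.comp (measurable_const.sub (S k).measurable)
    have hdist : ∀ ξ, |nl d T (x - S k ξ) - nl d T (x - ξ)| ≤ L * ‖S k ξ - ξ‖ := by
      intro ξ
      have h2 := hL.dist_le_mul (x - S k ξ) (x - ξ)
      rw [Real.dist_eq, dist_eq_norm] at h2
      have h3 : ‖x - S k ξ - (x - ξ)‖ = ‖S k ξ - ξ‖ := by
        rw [← norm_neg]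
        congr 1
        abel
      rwa [h3] at h2
    have hi2 : Integrable (fun ξ => nl d T (x - S k ξ) - nl d T (x - ξ)) μ := by
      refine ((hintS k).const_mul (L : ℝ)).mono'
        (hms.sub (hnkc.measurable.comp (measurable_const.sub measurable_id))).aestronglyMeasurable ?_
      exact Eventually.of_forall fun ξ => by
        rw [Real.norm_eq_abs]
        exact hdist ξ
    have hi3 : Integrable (fun ξ => nl d T (x - S k ξ)) μ := by
      have := hi2.add hi1
      refine this.congr (Eventually.of_forall fun ξ => ?_)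
      simp
    have h1 : ∫ ξ, nl d T (x - S k ξ) ∂μ ≤
        ∫ ξ, (nl d T (x - ξ) + L * ‖S k ξ - ξ‖) ∂μ := by
      apply integral_mono hi3 (hi1.add ((hintS k).const_mul _))
      intro ξ
      have h4 := (abs_le.1 (hdist ξ)).2
      show nl d T (x - S k ξ) ≤ nl d T (x - ξ) + L * ‖S k ξ - ξ‖
      linarith
    rw [integral_add hi1 ((hintS k).const_mul _), integral_const_mul] at h1
    have := hpot x
    linarith
  -- first limit
  have step1 : ∀ s0, M + d < s0 →
      ∫ x, ∫ y, GTL g d T (Real.exp (2 * s0)) (x - y) ∂μ ∂μ ≤ QL g d := by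
    intro s0 hs0
    set b : ℝ := Real.exp (2 * s0) with hb
    have hb0 : 0 ≤ b := (Real.exp_pos _).le
    have hGc := c16_GT_cont (T := T) hg hd hd1 hb0
    have hGc2 : Continuous (fun z : E 2 × E 2 => GTL g d T b (z.1 - z.2)) :=
      hGc.comp (continuous_fst.sub continuous_snd)
    obtain ⟨B, hB⟩ := (hK.prod hK).exists_bound_of_continuousOn hGc2.continuousOn
    have hlim := c16_dct (μ := μ) hK0
      (F := fun k z => GTL g d T b (S k z.1 - S k z.2))
      (G := fun z => GTL g d T b (z.1 - z.2))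
      (fun k => hGc.measurable.comp
        (((S k).measurable.comp measurable_fst).sub ((S k).measurable.comp measurable_snd)))
      (B := B)
      (fun k x hx y hy => hB (S k x, S k y) ⟨hSK k x, hSK k y⟩)
      (fun x hx y hy => (hGc.tendsto _).comp ((hSlim x hx).sub (hSlim y hy)))
    refine le_of_tendsto hlim ?_
    have h1 : Tendsto (fun k => M + L * er k) atTop (𝓝 (M + L * 0)) :=
      (herlim.const_mul _).const_add _
    rw [mul_zero, add_zero] at h1
    have h2 : M < s0 - d := by linarith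
    filter_upwards [h1.eventually_lt_const h2] with k hk
    exact c16_discrete hg hC hd hd1 (S k) fun x => (hUk k x).trans hk.le
  -- second limit
  set s1 : ℝ := M + d with hs1
  set u : ℕ → ℝ := fun k => s1 + 1 / ((k : ℝ) + 1) with hu
  have hupos : ∀ k : ℕ, 0 < 1 / ((k : ℝ) + 1) := fun k => by positivity
  have hu1 : ∀ k, u k ≤ s1 + 1 := fun k => by
    have h1 : 1 / ((k : ℝ) + 1) ≤ 1 := by
      rw [div_le_one (by positivity)]
      have : (0 : ℝ) ≤ (k : ℝ) := Nat.cast_nonneg k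
      linarith
    simp only [hu]
    linarith
  have hulim : Tendsto u atTop (𝓝 s1) := by
    have h1 := (tendsto_one_div_add_atTop_nhds_zero_nat (𝕜 := ℝ)).const_add s1
    rw [add_zero] at h1
    exact h1
  have hblim : Tendsto (fun k => Real.exp (2 * u k)) atTop (𝓝 (Real.exp (2 * s1))) :=
    (Real.continuous_exp.tendsto _).comp (hulim.const_mul 2)
  have hGon := GTL_continuousOn (T := T) hg hd hd1
  have hGon2 : ContinuousOn (fun q : ℝ × (E 2 × E 2) => GTL g d T q.1 (q.2.1 - q.2.2))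
      (Icc 0 (Real.exp (2 * (s1 + 1))) ×ˢ (K ×ˢ K)) := by
    refine hGon.comp (f := fun q : ℝ × (E 2 × E 2) => (q.1, q.2.1 - q.2.2)) ?_ ?_
    · apply Continuous.continuousOn
      fun_prop
    · intro q hq
      exact ⟨hq.1.1, mem_univ _⟩
  obtain ⟨B, hB⟩ := (isCompact_Icc.prod (hK.prod hK)).exists_bound_of_continuousOn hGon2
  have hmem : ∀ k, Real.exp (2 * u k) ∈ Icc (0 : ℝ) (Real.exp (2 * (s1 + 1))) := fun k =>
    ⟨(Real.exp_pos _).le, Real.exp_le_exp.2 (by linarith [hu1 k])⟩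
  have hlim := c16_dct (μ := μ) hK0
    (F := fun k z => GTL g d T (Real.exp (2 * u k)) (z.1 - z.2))
    (G := fun z => GTL g d T (Real.exp (2 * s1)) (z.1 - z.2))
    (fun k => ((c16_GT_cont (T := T) hg hd hd1 (hmem k).1).comp
      (continuous_fst.sub continuous_snd)).measurable)
    (B := B)
    (fun k x hx y hy => hB (Real.exp (2 * u k), (x, y)) ⟨hmem k, hx, hy⟩)
    (fun x hx y hy => by
      have h1 := hGon (Real.exp (2 * s1), x - y) ⟨(Real.exp_pos _).le, mem_univ _⟩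
      have h2 : Tendsto (fun k => ((Real.exp (2 * u k), x - y) : ℝ × E 2)) atTop
          (𝓝[Ici 0 ×ˢ univ] (Real.exp (2 * s1), x - y)) := by
        rw [tendsto_nhdsWithin_iff]
        exact ⟨hblim.prodMk_nhds tendsto_const_nhds,
          Eventually.of_forall fun k => ⟨(hmem k).1, mem_univ _⟩⟩
      exact h1.tendsto.comp h2)
  refine le_of_tendsto hlim (Eventually.of_forall fun k => ?_)
  refine step1 (u k) ?_
  simp only [hu]
  have := hupos k
  linarith

/-- Comparison of `GTL` with a constant. -/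
private theorem c16_GT_near {g : ℝ → ℝ} {η : ℝ} (hg : GoodG 2 g η) {d T : ℝ}
    (hd : 0 < d) (hd1 : d < 1) {b : ℝ} (hb : 0 ≤ b) {w : E 2} {A δ : ℝ}
    (h : ∀ v : E 2, ‖v - w‖ ≤ 2 * Real.exp (-T + d) →
      |g (b * ‖v‖ ^ 2) - A| ≤ δ) :
    |GTL g d T b w - cL d ^ 2 * A| ≤ δ * cL d ^ 2 := by
  set R : ℝ := Real.exp (-T + d) with hR
  have hbt : ∀ x : E 2, R < ‖x‖ → btL d T x = 0 := fun x hx =>
    btL_eq_zero hd hd1 (Or.inr hx)
  have hbc := c16_cont_btL (T := T) hd hd1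
  have hnn := btL_nonneg (T := T) hd hd1
  have hcs : ∀ k : E 2 × E 2 → ℝ, Continuous k →
      Integrable (fun z : E 2 × E 2 => k z * (btL d T z.1 * btL d T z.2)) := by
    intro k hk
    have hc : Continuous (fun z : E 2 × E 2 => k z * (btL d T z.1 * btL d T z.2)) :=
      hk.mul ((hbc.comp continuous_fst).mul (hbc.comp continuous_snd))
    refine hc.integrable_of_hasCompactSupport ?_
    refine HasCompactSupport.intro (isCompact_closedBall (0 : E 2 × E 2) R) fun z hz => ?_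
    rw [Metric.mem_closedBall, dist_zero_right, Prod.norm_def, max_le_iff, not_and_or] at hz
    rcases hz with h1 | h1
    · rw [hbt z.1 (not_le.1 h1)]
      simp
    · rw [hbt z.2 (not_le.1 h1)]
      simp
  have hgc : Continuous (fun z : E 2 × E 2 => g (b * ‖w + z.1 - z.2‖ ^ 2)) := by
    refine hg.smooth.continuousOn.comp_continuous (by fun_prop) fun z => ?_
    have h0 : 0 ≤ b * ‖w + z.1 - z.2‖ ^ 2 := by positivity
    have := hg.pos
    simp only [mem_Ioi]
    linarith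
  have hmass : ∀ c : ℝ, ∫ z : E 2 × E 2, c * (btL d T z.1 * btL d T z.2) =
      c * cL d ^ 2 := by
    intro c
    rw [integral_const_mul, Measure.volume_eq_prod, integral_prod_mul, integral_btL hd hd1]
    unfold cL
    rw [sq]
  have h1 : GTL g d T b w - cL d ^ 2 * A =
      ∫ z : E 2 × E 2, (g (b * ‖w + z.1 - z.2‖ ^ 2) - A) * (btL d T z.1 * btL d T z.2) := by
    rw [mul_comm (cL d ^ 2) A, ← hmass A]
    unfold GTL
    rw [← integral_sub (hcs _ hgc) (hcs _ continuous_const)]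
    congr 1
    funext z
    ring
  rw [h1, ← hmass δ]
  refine abs_integral_le_integral_abs.trans ?_
  refine integral_mono_of_nonneg (Eventually.of_forall fun z => abs_nonneg _)
    (hcs _ continuous_const) (Eventually.of_forall fun z => ?_)
  show |(g (b * ‖w + z.1 - z.2‖ ^ 2) - A) * (btL d T z.1 * btL d T z.2)| ≤
    δ * (btL d T z.1 * btL d T z.2)
  have h0 : 0 ≤ btL d T z.1 * btL d T z.2 := mul_nonneg (hnn _) (hnn _)
  rw [abs_mul, abs_of_nonneg h0]
  rcases lt_or_ge R ‖z.1‖ with h2 | h2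
  · rw [hbt z.1 h2]
    simp
  rcases lt_or_ge R ‖z.2‖ with h3 | h3
  · rw [hbt z.2 h3]
    simp
  refine mul_le_mul_of_nonneg_right (h _ ?_) h0
  calc ‖w + z.1 - z.2 - w‖ = ‖z.1 - z.2‖ := by congr 1; abel
    _ ≤ ‖z.1‖ + ‖z.2‖ := norm_sub_le _ _
    _ ≤ 2 * R := by linarith

theorem energy_ineqL {g : ℝ → ℝ} {η : ℝ} (hg : GoodG 2 g η) {C : ℝ}
    (hC : ∀ ρ, 0 ≤ ρ → g ρ ≤ C) {d : ℝ} (hd : 0 < d) (hd1 : d < 1)
    {K : Set (E 2)} (hK : IsCompact K) {μ : Measure (E 2)} (hμ : PK K μ) {M : ℝ}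
    (hpot : ∀ T x, ∫ ξ, nl d T (x - ξ) ∂μ ≤ M) :
    cL d ^ 2 * ∫ x, ∫ y, g (Real.exp (2 * (M + d)) * ‖x - y‖ ^ 2) ∂μ ∂μ ≤ QL g d := by
  have hP : IsProbabilityMeasure μ := ⟨hμ.1⟩
  have hK0 : μ Kᶜ = 0 := hμ.2
  set b : ℝ := Real.exp (2 * (M + d)) with hb
  have hb0 : 0 ≤ b := (Real.exp_pos _).le
  set ρ : ℕ → ℝ := fun k => 2 * Real.exp (-(k : ℝ) + d) with hρ
  have hρlim : Tendsto ρ atTop (𝓝 0) := by
    have h1 : Tendsto (fun k : ℕ => -(k : ℝ) + d) atTop atBot :=
      tendsto_atBot_add_const_right _ _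
        (tendsto_neg_atTop_atBot.comp tendsto_natCast_atTop_atTop)
    have h2 := (Real.tendsto_exp_atBot.comp h1).const_mul 2
    rw [mul_zero] at h2
    exact h2
  have hρle : ∀ k, ρ k ≤ 2 * Real.exp d := by
    intro k
    simp only [hρ]
    have : (0 : ℝ) ≤ (k : ℝ) := Nat.cast_nonneg k
    have h1 : Real.exp (-(k : ℝ) + d) ≤ Real.exp d := Real.exp_le_exp.2 (by linarith)
    linarith
  have hgc : Continuous (fun v : E 2 => g (b * ‖v‖ ^ 2)) := by
    refine hg.smooth.continuousOn.comp_continuous (by fun_prop) fun z => ?_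
    have h0 : 0 ≤ b * ‖z‖ ^ 2 := by positivity
    have := hg.pos
    simp only [mem_Ioi]
    linarith
  -- uniform bound
  set Rb : ℝ := Metric.diam K + 2 * Real.exp d with hRb
  obtain ⟨B, hB⟩ := (isCompact_closedBall (0 : E 2) Rb).exists_bound_of_continuousOn
    hgc.continuousOn
  have hlim := c16_dct (μ := μ) hK0
    (F := fun k z => GTL g d (k : ℝ) b (z.1 - z.2))
    (G := fun z => cL d ^ 2 * g (b * ‖z.1 - z.2‖ ^ 2))
    (fun k => ((c16_GT_cont (T := (k : ℝ)) hg hd hd1 hb0).comp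
      (continuous_fst.sub continuous_snd)).measurable)
    (B := B * cL d ^ 2)
    (fun k x hx y hy => by
      have h1 := c16_GT_near (T := (k : ℝ)) hg hd hd1 hb0 (w := x - y) (A := 0) (δ := B)
        (fun v hv => by
          rw [sub_zero]
          refine hB v ?_
          rw [Metric.mem_closedBall, dist_zero_right]
          have h2 : ‖x - y‖ ≤ Metric.diam K := by
            rw [← dist_eq_norm]
            exact Metric.dist_le_diam_of_mem hK.isBounded hx hy
          have h3 : ‖v‖ ≤ ‖v - (x - y)‖ + ‖x - y‖ := by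
            have := norm_add_le (v - (x - y)) (x - y)
            rwa [sub_add_cancel] at this
          have h4 := hρle k
          simp only [hρ] at h4
          linarith)
      rwa [mul_zero, sub_zero] at h1)
    (fun x hx y hy => by
      rw [Metric.tendsto_atTop]
      intro ε hε
      have hcB : 0 < cL d := integral_btL_pos hd hd1
      have hδ : 0 < ε / (2 * cL d ^ 2) := by positivity
      obtain ⟨r, hr, hrr⟩ := Metric.continuous_iff.1 hgc (x - y) _ hδ
      obtain ⟨k0, hk0⟩ := (hρlim.eventually_lt_const hr).exists_forall_of_atTop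
      refine ⟨k0, fun k hk => ?_⟩
      have h1 := c16_GT_near (T := (k : ℝ)) hg hd hd1 hb0 (w := x - y)
        (A := g (b * ‖x - y‖ ^ 2)) (δ := ε / (2 * cL d ^ 2))
        (fun v hv => by
          have h2 := hrr v (by
            rw [dist_eq_norm]
            exact hv.trans_lt (hk0 k hk))
          rw [Real.dist_eq] at h2
          exact h2.le)
      rw [Real.dist_eq]
      refine h1.trans_lt ?_
      have h3 : ε / (2 * cL d ^ 2) * cL d ^ 2 = ε / 2 := by
        field_simp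
      rw [h3]
      linarith)
  have h2 : ∫ x, ∫ y, cL d ^ 2 * g (b * ‖x - y‖ ^ 2) ∂μ ∂μ ≤ QL g d :=
    le_of_tendsto hlim (Eventually.of_forall fun k =>
      energy_TL hg hC hd hd1 hK hμ (hpot (k : ℝ)))
  simp_rw [integral_const_mul] at h2
  exact h2

theorem nl_pot_le {s : ℝ} (hs : 0 < s) {K : Set (E 2)} (hK : IsCompact K) {μ : Measure (E 2)}
    (hμ : PK K μ) {I : ℝ} (hI : 0 ≤ I) (hpot : ∀ x, pot s μ x ≤ ENNReal.ofReal I) {d T : ℝ}
    (hd : 0 < d) (hd1 : d < 1) (x : E 2) : ∫ ξ, nl d T (x - ξ) ∂μ ≤ (I - 1) / s := by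
  have hP : IsProbabilityMeasure μ := ⟨hμ.1⟩
  have hK0 : μ Kᶜ = 0 := hμ.2
  have hnkc : Continuous (nl d T) := (contDiff_nl hd hd1).continuous
  have hi1 : Integrable (fun ξ => nl d T (x - ξ)) μ :=
    c16_int_cont hK hK0 (hnkc.comp (continuous_const.sub continuous_id))
  have hx0 : μ {x} = 0 := by
    by_contra h
    have h1 : (⊤ : ℝ≥0∞) ≤ pot s μ x := by
      calc (⊤ : ℝ≥0∞) = ∫⁻ y in {x}, (edist x y) ^ (-s) ∂μ := by
            rw [lintegral_singleton, edist_self, ENNReal.zero_rpow_of_neg (by linarith),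
              ENNReal.top_mul h]
        _ ≤ pot s μ x := setLIntegral_le_lintegral _ _
    have h2 := h1.trans (hpot x)
    exact ENNReal.ofReal_ne_top (top_le_iff.1 h2)
  have hne : ∀ᵐ ξ ∂μ, ξ ≠ x := by
    rw [ae_iff]
    simpa using hx0
  have hmeas : Measurable (fun ξ : E 2 => ‖x - ξ‖ ^ (-s)) := by
    have : Measurable (fun ξ : E 2 => ‖x - ξ‖) := (measurable_const.sub measurable_id).norm
    exact this.pow_const _
  have hlint : ∫⁻ ξ, ENNReal.ofReal (‖x - ξ‖ ^ (-s)) ∂μ ≤ ENNReal.ofReal I := by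
    refine le_trans (lintegral_mono_ae ?_) (hpot x)
    filter_upwards [hne] with ξ hξ
    have h1 : x - ξ ≠ 0 := sub_ne_zero.2 hξ.symm
    rw [edist_dist, dist_eq_norm, ENNReal.ofReal_rpow_of_pos (norm_pos_iff.2 h1)]
  have hnn : 0 ≤ᵐ[μ] fun ξ : E 2 => ‖x - ξ‖ ^ (-s) :=
    Eventually.of_forall fun ξ => Real.rpow_nonneg (norm_nonneg _) _
  have hi2 : Integrable (fun ξ : E 2 => ‖x - ξ‖ ^ (-s)) μ := by
    refine ⟨hmeas.aestronglyMeasurable, ?_⟩
    rw [hasFiniteIntegral_iff_ofReal hnn]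
    exact hlint.trans_lt ENNReal.ofReal_lt_top
  have hle : ∫ ξ, ‖x - ξ‖ ^ (-s) ∂μ ≤ I := by
    rw [integral_eq_lintegral_of_nonneg_ae hnn hmeas.aestronglyMeasurable]
    exact ENNReal.toReal_le_of_le_ofReal hI hlint
  have h1 : ∫ ξ, nl d T (x - ξ) ∂μ ≤ ∫ ξ, (‖x - ξ‖ ^ (-s) - 1) / s ∂μ := by
    refine integral_mono_ae hi1 ((hi2.sub (integrable_const 1)).div_const s) ?_
    filter_upwards [hne] with ξ hξ
    have hz : x - ξ ≠ 0 := sub_ne_zero.2 hξ.symm
    have hz0 : 0 < ‖x - ξ‖ := norm_pos_iff.2 hz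
    refine (nl_le (T := T) hd hd1 hz).trans ?_
    rw [le_div_iff₀ hs]
    have h2 := Real.log_le_sub_one_of_pos (Real.rpow_pos_of_pos hz0 (-s))
    rw [Real.log_rpow hz0] at h2
    linarith
  refine h1.trans ?_
  rw [integral_div, integral_sub hi2 (integrable_const 1)]
  have h3 : ∫ _ξ : E 2, (1 : ℝ) ∂μ = 1 := by simp
  rw [h3]
  gcongr

end Pool.Agent.Lib.MP_6cd19d_an.ND
end

section

/-!
# C18: the energy inequality for the kernels `gp`, `n = 2` (analogue of B18)

`mL d`: the probability measure with density `btL d 0 / cL d`; it lives on the shell `exp (-d) ≤ ‖z‖ ≤ exp d`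
(`btL_eq_zero` with `T = 0`). Copy the proofs of B18. (`goodG_gp` with `n = 2`: `p ≤ 0`.)
`energy_gp0L`: for `e > 0` apply `energy_ineqL` with `g = gp p e R`, divide by `cL^2 > 0` (`integral_btL_pos`); the squared
distances are `≤ R` in both double integrals (`(2 exp d)^2 ≤ R`); `e → 0`: Fatou on the left, `gp_le_gp0` on the right.
`energy_powL`: `energy_ineqL` with `g ρ = -ρ^k` (`goodG_pow 2 k`).
-/

set_option autoImplicit false

open MeasureTheory Set Filter Topology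
open scoped ENNReal ContDiff

namespace Pool.Agent.Lib.MP_6cd19d_an.ND

/-- The normalised measure with density `btL`. -/
noncomputable def mL (d : ℝ) : Measure (E 2) :=
  (volume : Measure (E 2)).withDensity (fun z => ENNReal.ofReal (btL d 0 z / cL d))

private theorem c18_cont {d : ℝ} (hd : 0 < d) (hd1 : d < 1) : Continuous (btL d 0) := by
  have := (contDiff_lap (contDiff_nl (T := 0) hd hd1)).continuous.neg
  exact this

private theorem c18_int {d : ℝ} (hd : 0 < d) (hd1 : d < 1) : Integrable (btL d 0) :=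
  (c18_cont hd hd1).integrable_of_hasCompactSupport (hasCompactSupport_btL hd hd1)

private theorem c18_pos {d : ℝ} (hd : 0 < d) (hd1 : d < 1) : 0 < cL d :=
  integral_btL_pos hd hd1

private theorem c18_dens {d : ℝ} (hd : 0 < d) (hd1 : d < 1) (z : E 2) : 0 ≤ btL d 0 z / cL d :=
  div_nonneg (btL_nonneg hd hd1 z) (c18_pos hd hd1).le

private theorem c18_meas {d : ℝ} (hd : 0 < d) (hd1 : d < 1) :
    Measurable (fun z : E 2 => ENNReal.ofReal (btL d 0 z / cL d)) :=
  ((c18_cont hd hd1).div_const _).measurable.ennreal_ofReal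

theorem mL_univ {d : ℝ} (hd : 0 < d) (hd1 : d < 1) : mL d univ = 1 := by
  unfold mL
  rw [withDensity_apply _ MeasurableSet.univ, Measure.restrict_univ,
    ← ofReal_integral_eq_lintegral_ofReal ((c18_int hd hd1).div_const _)
      (Eventually.of_forall fun z => c18_dens hd hd1 z), integral_div]
  have h1 : (∫ z, btL d 0 z) = cL d := rfl
  rw [h1, div_self (c18_pos hd hd1).ne', ENNReal.ofReal_one]

theorem mL_shell {d : ℝ} (hd : 0 < d) (hd1 : d < 1) :
    mL d {z | Real.exp (-d) ≤ ‖z‖ ∧ ‖z‖ ≤ Real.exp d}ᶜ = 0 := by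
  have hm : MeasurableSet {z : E 2 | Real.exp (-d) ≤ ‖z‖ ∧ ‖z‖ ≤ Real.exp d} := by
    apply MeasurableSet.inter
    · exact measurableSet_le measurable_const measurable_norm
    · exact measurableSet_le measurable_norm measurable_const
  unfold mL
  rw [withDensity_apply _ hm.compl, setLIntegral_eq_zero_iff hm.compl (c18_meas hd hd1)]
  refine Eventually.of_forall fun z hz => ?_
  have h0 : btL d 0 z = 0 := by
    apply btL_eq_zero hd hd1
    by_contra hcon
    push Not at hcon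
    apply hz
    refine ⟨?_, ?_⟩
    · have := hcon.1
      rwa [show -(0 : ℝ) - d = -d by ring] at this
    · have := hcon.2
      rwa [show -(0 : ℝ) + d = d by ring] at this
  rw [h0, zero_div, ENNReal.ofReal_zero]

private theorem c18_integral {d : ℝ} (hd : 0 < d) (hd1 : d < 1) (f : E 2 → ℝ) :
    ∫ z, f z ∂(mL d) = (∫ z, f z * btL d 0 z) / cL d := by
  unfold mL
  rw [integral_withDensity_eq_integral_toReal_smul (c18_meas hd hd1)
    (Eventually.of_forall fun z => ENNReal.ofReal_lt_top)]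
  rw [← integral_div]
  refine integral_congr_ae (Eventually.of_forall fun z => ?_)
  show (ENNReal.ofReal (btL d 0 z / cL d)).toReal • f z = f z * btL d 0 z / cL d
  rw [ENNReal.toReal_ofReal (c18_dens hd hd1 z), smul_eq_mul]
  ring

private theorem c18_contg {g : ℝ → ℝ} (hg : ContinuousOn g (Ici 0)) {b : ℝ} (hb : 0 ≤ b) :
    Continuous (fun z : E 2 × E 2 => g (b * ‖z.1 - z.2‖ ^ 2)) := by
  refine hg.comp_continuous
    (continuous_const.mul ((continuous_fst.sub continuous_snd).norm.pow 2)) fun z => ?_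
  exact mul_nonneg hb (by positivity)

theorem QL_eq {d : ℝ} (hd : 0 < d) (hd1 : d < 1) {g : ℝ → ℝ} (hg : ContinuousOn g (Ici 0)) :
    QL g d = cL d ^ 2 * ∫ x, ∫ y, g (‖x - y‖ ^ 2) ∂(mL d) ∂(mL d) := by
  have hc := c18_pos hd hd1
  have hcont : Continuous (fun z : E 2 × E 2 => g (‖z.1 - z.2‖ ^ 2)) := by
    have := c18_contg hg (b := 1) zero_le_one
    simpa using this
  have hint : Integrable (fun z : E 2 × E 2 =>
      g (‖z.1 - z.2‖ ^ 2) * (btL d 0 z.1 * btL d 0 z.2)) (volume.prod volume) := by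
    rw [← Measure.volume_eq_prod]
    have hc2 : Continuous (fun z : E 2 × E 2 =>
        g (‖z.1 - z.2‖ ^ 2) * (btL d 0 z.1 * btL d 0 z.2)) :=
      hcont.mul (((c18_cont hd hd1).comp continuous_fst).mul
        ((c18_cont hd hd1).comp continuous_snd))
    refine hc2.integrable_of_hasCompactSupport ?_
    obtain ⟨K1, hK1⟩ : ∃ K1 : Set (E 2), K1 = tsupport (btL d 0) := ⟨_, rfl⟩
    have hK1c : IsCompact K1 := by rw [hK1]; exact hasCompactSupport_btL hd hd1
    refine HasCompactSupport.intro (K := K1 ×ˢ K1) (hK1c.prod hK1c) ?_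
    intro z hz
    rw [mem_prod, not_and_or] at hz
    rcases hz with hz | hz
    · rw [hK1] at hz
      rw [image_eq_zero_of_notMem_tsupport hz]
      ring
    · rw [hK1] at hz
      rw [image_eq_zero_of_notMem_tsupport hz]
      ring
  unfold QL
  rw [Measure.volume_eq_prod, integral_prod _ hint, c18_integral hd hd1]
  have h1 : ∀ x : E 2, (∫ y, g (‖x - y‖ ^ 2) ∂(mL d)) * btL d 0 x =
      (∫ y, g (‖x - y‖ ^ 2) * (btL d 0 x * btL d 0 y)) / cL d := by
    intro x
    rw [c18_integral hd hd1, ← integral_div, ← integral_div, ← integral_mul_const]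
    refine integral_congr_ae (Eventually.of_forall fun y => ?_)
    show g (‖x - y‖ ^ 2) * btL d 0 y / cL d * btL d 0 x =
      g (‖x - y‖ ^ 2) * (btL d 0 x * btL d 0 y) / cL d
    ring
  simp_rw [h1]
  rw [integral_div]
  field_simp

/-- Integrability and conversion to lower integrals for continuous kernels, nonnegative on the
support. -/
private theorem c18_conv {ν : Measure (E 2)} [IsProbabilityMeasure ν] {S : Set (E 2)}
    (hS : IsCompact S) (hνS : ν Sᶜ = 0) {G : E 2 × E 2 → ℝ} (hG : Continuous G)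
    (h0 : ∀ x ∈ S, ∀ y ∈ S, 0 ≤ G (x, y)) :
    ∫⁻ x, ∫⁻ y, ENNReal.ofReal (G (x, y)) ∂ν ∂ν = ENNReal.ofReal (∫ x, ∫ y, G (x, y) ∂ν ∂ν) := by
  have hae : ∀ᵐ z ∂(ν.prod ν), z ∈ S ×ˢ S := by
    rw [ae_iff]
    have h1 : {z : E 2 × E 2 | ¬ z ∈ S ×ˢ S} = (S ×ˢ S)ᶜ := rfl
    rw [h1, compl_prod_eq_union]
    refine measure_union_null ?_ ?_
    · rw [Measure.prod_prod, hνS, zero_mul]
    · rw [Measure.prod_prod, hνS, mul_zero]
  obtain ⟨C, hC⟩ := (hS.prod hS).exists_bound_of_continuousOn hG.continuousOn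
  have hint : Integrable G (ν.prod ν) := by
    refine Integrable.of_bound hG.aestronglyMeasurable C ?_
    filter_upwards [hae] with z hz
    exact hC z hz
  rw [← integral_prod _ hint, ofReal_integral_eq_lintegral_ofReal hint,
    lintegral_prod _ hG.measurable.ennreal_ofReal.aemeasurable]
  filter_upwards [hae] with z hz
  exact h0 z.1 hz.1 z.2 hz.2

private theorem c18_mono {ν : Measure (E 2)} {S : Set (E 2)} (hνS : ν Sᶜ = 0)
    {F G : E 2 → E 2 → ℝ≥0∞} (h : ∀ x ∈ S, ∀ y ∈ S, F x y ≤ G x y) :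
    ∫⁻ x, ∫⁻ y, F x y ∂ν ∂ν ≤ ∫⁻ x, ∫⁻ y, G x y ∂ν ∂ν := by
  have hae : ∀ᵐ x ∂ν, x ∈ S := by
    rw [ae_iff]
    exact hνS
  refine lintegral_mono_ae ?_
  filter_upwards [hae] with x hx
  refine lintegral_mono_ae ?_
  filter_upwards [hae] with y hy
  exact h x hx y hy

theorem energy_gp0L {p : ℝ} (hp : -2 < p) (hp2 : p ≤ 0) {d : ℝ}
    (hd : 0 < d) (hd1 : d < 1) {K : Set (E 2)} (hK : IsCompact K) {μ : Measure (E 2)}
    (hμ : PK K μ) {M : ℝ} (hpot : ∀ T x, ∫ ξ, nl d T (x - ξ) ∂μ ≤ M) {R : ℝ}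
    (hR : ∀ x ∈ K, ∀ y ∈ K, Real.exp (2 * (M + d)) * ‖x - y‖ ^ 2 ≤ R)
    (hR2 : (2 * Real.exp d) ^ 2 ≤ R) :
    ∫⁻ x, ∫⁻ y, gp0 p R (Real.exp (2 * (M + d)) * ‖x - y‖ ^ 2) ∂μ ∂μ ≤
      ∫⁻ x, ∫⁻ y, gp0 p R (‖x - y‖ ^ 2) ∂(mL d) ∂(mL d) := by
  have hc := c18_pos hd hd1
  obtain ⟨b, hb⟩ : ∃ b : ℝ, b = Real.exp (2 * (M + d)) := ⟨_, rfl⟩
  have hb0 : 0 < b := by rw [hb]; exact Real.exp_pos _
  rw [← hb]
  rw [← hb] at hR
  have hR0 : 0 < R := by
    have := Real.exp_pos d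
    nlinarith
  haveI : IsProbabilityMeasure μ := ⟨hμ.1⟩
  haveI : IsProbabilityMeasure (mL d) := ⟨mL_univ hd hd1⟩
  obtain ⟨S, hS⟩ : ∃ S : Set (E 2), S = Metric.closedBall 0 (Real.exp d) := ⟨_, rfl⟩
  have hSc : IsCompact S := by rw [hS]; exact isCompact_closedBall _ _
  have hSm : mL d Sᶜ = 0 := by
    refine measure_mono_null ?_ (mL_shell hd hd1)
    apply compl_subset_compl.2
    intro z hz
    rw [hS, mem_closedBall_zero_iff]
    exact hz.2
  have hSR : ∀ x ∈ S, ∀ y ∈ S, ‖x - y‖ ^ 2 ≤ R := by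
    intro x hx y hy
    rw [hS, mem_closedBall_zero_iff] at hx hy
    refine le_trans ?_ hR2
    have h1 : ‖x - y‖ ≤ 2 * Real.exp d := (norm_sub_le _ _).trans (by linarith)
    exact pow_le_pow_left₀ (norm_nonneg _) h1 2
  -- the inequality for positive `e`
  have hmain : ∀ e : ℝ, 0 < e →
      ∫⁻ x, ∫⁻ y, ENNReal.ofReal (gp p e R (b * ‖x - y‖ ^ 2)) ∂μ ∂μ ≤
      ∫⁻ x, ∫⁻ y, gp0 p R (‖x - y‖ ^ 2) ∂(mL d) ∂(mL d) := by
    intro e he
    have hgood : GoodG 2 (gp p e R) (e ^ 2) := by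
      refine goodG_gp he hR0 ?_
      norm_num
      exact hp2
    have hgc : ContinuousOn (gp p e R) (Ici 0) := by
      refine hgood.smooth.continuousOn.mono fun x hx => ?_
      have h1 : (0 : ℝ) ≤ x := hx
      have h2 := hgood.pos
      show -e ^ 2 < x
      linarith
    have h1 := energy_ineqL hgood (C := gp p e R 0) (fun ρ hρ => gp_le_zero he hρ) hd hd1 hK hμ
      hpot
    rw [QL_eq hd hd1 hgc, ← hb] at h1
    have h2 := le_of_mul_le_mul_left h1 (by positivity)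
    have hG1 := c18_contg hgc hb0.le
    have hG2 := c18_contg hgc (b := 1) zero_le_one
    have e1 := c18_conv (ν := μ) hK hμ.2 hG1 (fun x hx y hy =>
      gp_nonneg he (by positivity) (hR x hx y hy))
    have e2 := c18_conv (ν := mL d) hSc hSm hG2 (fun x hx y hy =>
      gp_nonneg he (by positivity) (by
        show 1 * ‖x - y‖ ^ 2 ≤ R
        rw [one_mul]
        exact hSR x hx y hy))
    simp only [one_mul] at e2
    simp only at e1
    rw [e1]
    refine (ENNReal.ofReal_le_ofReal h2).trans ?_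
    rw [← e2]
    exact c18_mono hSm fun x hx y hy => gp_le_gp0 hp he (by positivity) (hSR x hx y hy)
  -- Fatou
  have hae : ∀ᵐ z ∂(μ.prod μ), z ∈ K ×ˢ K := by
    rw [ae_iff]
    have h1 : {z : E 2 × E 2 | ¬ z ∈ K ×ˢ K} = (K ×ˢ K)ᶜ := rfl
    rw [h1, compl_prod_eq_union]
    refine measure_union_null ?_ ?_
    · rw [Measure.prod_prod, hμ.2, zero_mul]
    · rw [Measure.prod_prod, hμ.2, mul_zero]
  have hmeas0 : Measurable (fun z : E 2 × E 2 => gp0 p R (b * ‖z.1 - z.2‖ ^ 2)) := by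
    refine (gp0_measurable p R).comp ?_
    exact (continuous_const.mul
      ((continuous_fst.sub continuous_snd).norm.pow 2)).measurable
  have hgm : ∀ e : ℝ, 0 < e → Measurable (fun z : E 2 × E 2 =>
      ENNReal.ofReal (gp p e R (b * ‖z.1 - z.2‖ ^ 2))) := by
    intro e he
    have hgood : GoodG 2 (gp p e R) (e ^ 2) := by
      refine goodG_gp he hR0 ?_
      norm_num
      exact hp2
    have hgc : ContinuousOn (gp p e R) (Ici 0) := by
      refine hgood.smooth.continuousOn.mono fun x hx => ?_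
      have h1 : (0 : ℝ) ≤ x := hx
      have h2 := hgood.pos
      show -e ^ 2 < x
      linarith
    exact (c18_contg hgc hb0.le).measurable.ennreal_ofReal
  obtain ⟨u, hu⟩ : ∃ u : ℕ → ℝ, u = fun n : ℕ => 1 / ((n : ℝ) + 1) := ⟨_, rfl⟩
  have hupos : ∀ n, 0 < u n := by
    intro n
    rw [hu]
    exact Nat.one_div_pos_of_nat
  have hut : Tendsto u atTop (𝓝[>] 0) := by
    rw [tendsto_nhdsWithin_iff]
    refine ⟨?_, Eventually.of_forall fun n => hupos n⟩
    rw [hu]
    exact tendsto_one_div_add_atTop_nhds_zero_nat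
  have h3 : ∫⁻ x, ∫⁻ y, gp0 p R (b * ‖x - y‖ ^ 2) ∂μ ∂μ =
      ∫⁻ z, gp0 p R (b * ‖z.1 - z.2‖ ^ 2) ∂(μ.prod μ) :=
    (lintegral_prod _ hmeas0.aemeasurable).symm
  rw [h3]
  have h4 : ∫⁻ z, gp0 p R (b * ‖z.1 - z.2‖ ^ 2) ∂(μ.prod μ) ≤
      ∫⁻ z, liminf (fun n => ENNReal.ofReal (gp p (u n) R (b * ‖z.1 - z.2‖ ^ 2))) atTop
        ∂(μ.prod μ) := by
    refine lintegral_mono_ae ?_
    filter_upwards [hae] with z hz
    have h5 := (gp_tendsto hp (mul_nonneg hb0.le (by positivity : (0:ℝ) ≤ ‖z.1 - z.2‖ ^ 2))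
      (hR z.1 hz.1 z.2 hz.2)).comp hut
    exact h5.liminf_eq.ge
  refine h4.trans ((lintegral_liminf_le fun n => hgm (u n) (hupos n)).trans ?_)
  refine liminf_le_of_le (by isBoundedDefault) ?_
  intro c hc'
  obtain ⟨n, hn⟩ := hc'.exists
  refine hn.trans ?_
  rw [lintegral_prod _ (hgm (u n) (hupos n)).aemeasurable]
  exact hmain (u n) (hupos n)

theorem energy_powL (k : ℕ) {d : ℝ}
    (hd : 0 < d) (hd1 : d < 1) {K : Set (E 2)} (hK : IsCompact K) {μ : Measure (E 2)}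
    (hμ : PK K μ) {M : ℝ} (hpot : ∀ T x, ∫ ξ, nl d T (x - ξ) ∂μ ≤ M) :
    ∫ x, ∫ y, ‖x - y‖ ^ (2 * k) ∂(mL d) ∂(mL d) ≤
      (Real.exp (2 * (M + d))) ^ k * ∫ x, ∫ y, ‖x - y‖ ^ (2 * k) ∂μ ∂μ := by
  have hc := c18_pos hd hd1
  have hgood := goodG_pow 2 k
  have hgc : ContinuousOn (fun ρ : ℝ => -ρ ^ k) (Ici 0) := by fun_prop
  have h1 := energy_ineqL hgood (C := 0) (fun ρ hρ => by
    have : 0 ≤ ρ ^ k := pow_nonneg hρ k
    show -ρ ^ k ≤ 0
    linarith) hd hd1 hK hμ hpot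
  rw [QL_eq hd hd1 hgc] at h1
  have h2 := le_of_mul_le_mul_left h1 (by positivity)
  simp only [integral_neg, mul_pow, ← pow_mul, integral_const_mul] at h2
  linarith

end Pool.Agent.Lib.MP_6cd19d_an.ND
end

section

/-!
# C20/C21: the disc, `n = 2` (analogue of B20, B21a, B21b)

`mL_rot`: `btL d 0` is a function of the norm (`btL_formula`, and a single point is null), Lebesgue measure is invariant
under linear isometries.
`ball_gpL` (`e > 0`): `μ'` a probability measure on `closedBall 0 (exp (-d))`; `g = gp p e R`, `V x = ∫ g (‖x-y‖^2) dmL`.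
By `mixture_pd` (with `gp_mixture`: `gp p e R ρ = gp p e R 0 - (1/2) ∫_0^ρ ...`) for `μ'` and `mL`:
`I(μ',μ') + I(mL,mL) ≥ 2 I(μ',mL) = 2 ∫ V dμ'`. Let `c = V` at points of norm `exp (-d)`. By `rot_antitone` (B20, `n = 2`):
`V ≥ c` on `closedBall 0 (exp (-d))`, `V ≤ c` on the support of `mL` (`mL_shell`). So
`I(μ',μ') ≥ 2 c - I(mL,mL)` and `I(mL,mL) = ∫ V dmL ≤ c`: `I(μ',μ') ≥ I(mL,mL)`.
`ball_gp0L`: `e → 0`: on the left (`mL`) Fatou, on the right `gp_le_gp0` (all squared distances are `≤ R`).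
`log_mL`: `p = 0`: `V x ≤ V 0` by `rot_antitone`, so `I(mL,mL) ≤ V 0 = ∫ g (‖y‖^2) dmL` for `g = gp 0 e R`; `e → 0` (Fatou on
the left, `gp_le_gp0` on the right): `∬ gp0 0 R (‖x-y‖^2) dmL dmL ≤ ∫ gp0 0 R (‖y‖^2) dmL`, and by `gp0_zero`,
`mL_shell`: `gp0 0 R (‖y‖^2) = ofReal (log (sqrt R) - log ‖y‖) ≤ ofReal (log (sqrt R) + d)`.
`cap0_ball_ge`: the image `ν` of `mL` under `z ↦ exp (-d) • z` lives on the closed unit disc `B`, `diam B + 1 = 3`;
with `R = (3 exp d)^2`: `log (3 / (exp (-d) t)) = log (3 exp d / t) = (1/2) log (R / t^2)`, so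
`logEn B ≤ ∬ gp0 0 R (‖x-y‖^2) dmL dmL ≤ log (3 exp d) + d = log 3 + 2 d` and
`capf 0 B = 3 exp (-(logEn B).toReal) ≥ exp (-2 d)`; `d → 0`.
-/

set_option autoImplicit false

open MeasureTheory Set Filter Topology
open scoped ENNReal ContDiff

namespace Pool.Agent.Lib.MP_6cd19d_an.ND

private theorem c20_cont {d T : ℝ} (hd : 0 < d) (hd1 : d < 1) : Continuous (btL d T) := by
  have h1 : btL d T = fun z => -lap (nl d T) z := rfl
  rw [h1]
  exact (contDiff_lap (contDiff_nl hd hd1)).continuous.neg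

theorem mL_rot {d : ℝ} (hd : 0 < d) (hd1 : d < 1) (A : E 2 ≃ₗᵢ[ℝ] E 2) :
    (mL d).map A = mL d := by
  have hbt : ∀ z : E 2, btL d 0 (A z) = btL d 0 z := by
    intro z
    by_cases hz : z = 0
    · rw [hz, map_zero]
    · have hAz : A z ≠ 0 := fun h0 => hz (by
        have := congrArg A.symm h0
        simpa using this)
      rw [btL_formula hd hd1 hz, btL_formula hd hd1 hAz, A.norm_map]
  have hcont : Continuous (btL d 0) := c20_cont hd hd1
  have hmeas : Measurable fun z : E 2 => ENNReal.ofReal (btL d 0 z / cL d) :=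
    (hcont.measurable.div_const _).ennreal_ofReal
  have hmp : MeasurePreserving A (volume : Measure (E 2)) volume := A.measurePreserving
  refine Measure.ext fun t ht => ?_
  rw [Measure.map_apply A.continuous.measurable ht]
  unfold mL
  rw [withDensity_apply _ (A.continuous.measurable ht), withDensity_apply _ ht,
    ← hmp.setLIntegral_comp_preimage ht hmeas]
  simp only [hbt]

theorem log_mL {d : ℝ} (hd : 0 < d) (hd1 : d < 1) {R : ℝ} (hR2 : (2 * Real.exp d) ^ 2 ≤ R) :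
    ∫⁻ x, ∫⁻ y, gp0 0 R (‖x - y‖ ^ 2) ∂(mL d) ∂(mL d) ≤
      ENNReal.ofReal (Real.log (Real.sqrt R) + d) := by
  have hPB : IsProbabilityMeasure (mL d) := ⟨mL_univ hd hd1⟩
  set r1 : ℝ := Real.exp d with hr1
  have hr10 : 0 < r1 := Real.exp_pos _
  have hRpos : 0 < R := lt_of_lt_of_le (by positivity) hR2
  have hae : ∀ᵐ x ∂(mL d), Real.exp (-d) ≤ ‖x‖ ∧ ‖x‖ ≤ r1 := by
    rw [ae_iff]
    exact mL_shell hd hd1
  have hball : (mL d) (Metric.closedBall (0 : E 2) r1)ᶜ = 0 := by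
    refine measure_mono_null ?_ (mL_shell hd hd1)
    intro z hz hz'
    exact hz (by simpa using hz'.2)
  have hBR : ∀ x y : E 2, ‖x‖ ≤ r1 → ‖y‖ ≤ r1 → ‖x - y‖ ^ 2 ≤ R := by
    intro x y hx hy
    refine le_trans ?_ hR2
    have := norm_sub_le x y
    gcongr
    linarith
  have hgood : ∀ e : ℝ, 0 < e → GoodG 2 (gp 0 e R) (e ^ 2) := fun e he =>
    goodG_gp he hRpos (by norm_num)
  have hcg : ∀ e : ℝ, 0 < e → Continuous (fun z : E 2 => gp 0 e R (‖z‖ ^ 2)) := by
    intro e he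
    refine (hgood e he).smooth.continuousOn.comp_continuous (by fun_prop) fun z => ?_
    have : 0 < e ^ 2 := by positivity
    have : 0 ≤ ‖z‖ ^ 2 := by positivity
    simp only [mem_Ioi]
    linarith
  -- inner potentials
  have hpt : ∀ e : ℝ, 0 < e → ∀ x : E 2, ‖x‖ ≤ r1 →
      ∫⁻ y, ENNReal.ofReal (gp 0 e R (‖x - y‖ ^ 2)) ∂(mL d) ≤
        ENNReal.ofReal (Real.log (Real.sqrt R) + d) := by
    intro e he x hx
    have hint : ∀ x : E 2, ‖x‖ ≤ r1 → Integrable (fun y => gp 0 e R (‖x - y‖ ^ 2)) (mL d) := by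
      intro x hx
      have hc : Continuous (fun y : E 2 => gp 0 e R (‖x - y‖ ^ 2)) :=
        (hcg e he).comp (continuous_const.sub continuous_id)
      refine (integrable_const (gp 0 e R 0)).mono' hc.aestronglyMeasurable ?_
      filter_upwards [hae] with y hy
      rw [Real.norm_eq_abs, abs_of_nonneg (gp_nonneg he (by positivity) (hBR x y hx hy.2))]
      exact gp_le_zero he (by positivity)
    rw [← ofReal_integral_eq_lintegral_ofReal (hint x hx)]
    · have h1 := rot_antitone (n := 2) le_rfl hball (mL_rot hd hd1) (hgood e he) (x := 0)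
        (x' := x) (by simp)
      refine (ENNReal.ofReal_le_ofReal h1).trans ?_
      rw [ofReal_integral_eq_lintegral_ofReal (hint 0 (by simpa using hr10.le))]
      · calc ∫⁻ y, ENNReal.ofReal (gp 0 e R (‖0 - y‖ ^ 2)) ∂(mL d)
            ≤ ∫⁻ _, ENNReal.ofReal (Real.log (Real.sqrt R) + d) ∂(mL d) := by
              apply lintegral_mono_ae
              filter_upwards [hae] with y hy
              rw [zero_sub, norm_neg]
              have hy0 : 0 < ‖y‖ := (Real.exp_pos _).trans_le hy.1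
              have hyR : ‖y‖ ^ 2 ≤ R := by
                have := hBR y 0 hy.2 (by simpa using hr10.le)
                simpa using this
              refine (gp_le_gp0 (by norm_num) he (by positivity) hyR).trans ?_
              rw [gp0_zero (by positivity) hyR]
              apply ENNReal.ofReal_le_ofReal
              rw [Real.log_div hRpos.ne' (by positivity), Real.log_pow, Real.log_sqrt hRpos.le]
              have h2 : -d ≤ Real.log ‖y‖ := by
                rw [Real.le_log_iff_exp_le hy0]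
                exact hy.1
              push_cast
              linarith
          _ = ENNReal.ofReal (Real.log (Real.sqrt R) + d) := by simp
      · filter_upwards [hae] with y hy
        exact gp_nonneg he (by positivity) (hBR 0 y (by simpa using hr10.le) hy.2)
    · filter_upwards [hae] with y hy
      exact gp_nonneg he (by positivity) (hBR x y hx hy.2)
  -- Fatou
  set u : ℕ → ℝ := fun k => 1 / ((k : ℝ) + 1) with hu
  have hupos : ∀ k, 0 < u k := fun k => by
    simp only [hu]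
    positivity
  have hulim : Tendsto u atTop (𝓝[>] 0) := by
    rw [tendsto_nhdsWithin_iff]
    exact ⟨tendsto_one_div_add_atTop_nhds_zero_nat, Eventually.of_forall hupos⟩
  have hm1 : ∀ (k : ℕ) (x : E 2), Measurable (fun y : E 2 =>
      ENNReal.ofReal (gp 0 (u k) R (‖x - y‖ ^ 2))) := by
    intro k x
    exact ((hcg (u k) (hupos k)).comp
      (continuous_const.sub continuous_id)).measurable.ennreal_ofReal
  have hinner : ∀ x : E 2, ‖x‖ ≤ r1 → ∫⁻ y, gp0 0 R (‖x - y‖ ^ 2) ∂(mL d) ≤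
      ENNReal.ofReal (Real.log (Real.sqrt R) + d) := by
    intro x hx
    have h5 : ∫⁻ y, gp0 0 R (‖x - y‖ ^ 2) ∂(mL d) =
        ∫⁻ y, liminf (fun k => ENNReal.ofReal (gp 0 (u k) R (‖x - y‖ ^ 2))) atTop ∂(mL d) := by
      apply lintegral_congr_ae
      filter_upwards [hae] with y hy
      symm
      exact ((gp_tendsto (by norm_num) (by positivity) (hBR x y hx hy.2)).comp hulim).liminf_eq
    rw [h5]
    refine (lintegral_liminf_le fun k => hm1 k x).trans ?_
    calc liminf (fun k => ∫⁻ y, ENNReal.ofReal (gp 0 (u k) R (‖x - y‖ ^ 2)) ∂(mL d)) atTop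
        ≤ liminf (fun _ : ℕ => ENNReal.ofReal (Real.log (Real.sqrt R) + d)) atTop :=
          liminf_le_liminf (Eventually.of_forall fun k => hpt (u k) (hupos k) x hx)
      _ = _ := liminf_const _
  calc ∫⁻ x, ∫⁻ y, gp0 0 R (‖x - y‖ ^ 2) ∂(mL d) ∂(mL d)
      ≤ ∫⁻ _, ENNReal.ofReal (Real.log (Real.sqrt R) + d) ∂(mL d) := by
        apply lintegral_mono_ae
        filter_upwards [hae] with x hx
        exact hinner x hx.2
    _ = ENNReal.ofReal (Real.log (Real.sqrt R) + d) := by simp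

/-- The logarithmic energy of the closed unit disc. -/
private theorem c20_logEn {d : ℝ} (hd : 0 < d) (hd1 : d < 1) :
    logEn (Metric.closedBall (0 : E 2) 1) ≤ ENNReal.ofReal (Real.log 3 + 2 * d) := by
  have hPB : IsProbabilityMeasure (mL d) := ⟨mL_univ hd hd1⟩
  have hdiam : Metric.diam (Metric.closedBall (0 : E 2) 1) = 2 := by
    rw [Metric.diam_closedBall_eq _ zero_le_one]
    norm_num
  set c : ℝ := Real.exp (-d) with hc
  have hc0 : 0 < c := Real.exp_pos _
  have hcexp : c * Real.exp d = 1 := by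
    rw [hc, ← Real.exp_add]
    simp
  set φ : E 2 ≃ᵐ E 2 := (Homeomorph.smulOfNeZero c hc0.ne').toMeasurableEquiv with hφ
  have hφa : ∀ x, φ x = c • x := fun x => rfl
  have hae : ∀ᵐ x ∂(mL d), Real.exp (-d) ≤ ‖x‖ ∧ ‖x‖ ≤ Real.exp d := by
    rw [ae_iff]
    exact mL_shell hd hd1
  have hPK : PK (Metric.closedBall (0 : E 2) 1) ((mL d).map φ) := by
    constructor
    · rw [Measure.map_apply φ.measurable MeasurableSet.univ, preimage_univ]
      exact mL_univ hd hd1
    · rw [Measure.map_apply φ.measurable Metric.isClosed_closedBall.measurableSet.compl]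
      refine measure_mono_null ?_ (mL_shell hd hd1)
      intro z hz hz'
      apply hz
      rw [Metric.mem_closedBall, dist_zero_right, hφa, norm_smul, Real.norm_eq_abs,
        abs_of_pos hc0]
      calc c * ‖z‖ ≤ c * Real.exp d := by gcongr; exact hz'.2
        _ = 1 := hcexp
  set R : ℝ := (3 * Real.exp d) ^ 2 with hR
  have hRpos : 0 < R := by positivity
  have hR2 : (2 * Real.exp d) ^ 2 ≤ R := by
    rw [hR]
    have := Real.exp_pos d
    gcongr
    norm_num
  have h1 : logEn (Metric.closedBall (0 : E 2) 1) ≤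
      ∫⁻ x, ∫⁻ y, (if x = y then (⊤ : ℝ≥0∞) else
        ENNReal.ofReal (Real.log ((Metric.diam (Metric.closedBall (0 : E 2) 1) + 1) / dist x y)))
          ∂((mL d).map φ) ∂((mL d).map φ) := iInf₂_le _ hPK
  refine h1.trans ?_
  rw [hdiam, lintegral_map_equiv]
  simp_rw [lintegral_map_equiv]
  have h2 : ∫⁻ x, ∫⁻ y, (if φ x = φ y then (⊤ : ℝ≥0∞) else
      ENNReal.ofReal (Real.log ((2 + 1) / dist (φ x) (φ y)))) ∂(mL d) ∂(mL d) =
      ∫⁻ x, ∫⁻ y, gp0 0 R (‖x - y‖ ^ 2) ∂(mL d) ∂(mL d) := by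
    apply lintegral_congr_ae
    filter_upwards [hae] with x hx
    apply lintegral_congr_ae
    filter_upwards [hae] with y hy
    by_cases hxy : x = y
    · rw [hxy, if_pos rfl, sub_self, norm_zero]
      rw [show (0 : ℝ) ^ 2 = 0 by norm_num, gp0_top le_rfl hRpos]
    · have hxy' : φ x ≠ φ y := fun h => hxy (φ.injective h)
      have hpos : 0 < ‖x - y‖ := norm_pos_iff.2 (sub_ne_zero.2 hxy)
      have hle : ‖x - y‖ ^ 2 ≤ R := by
        refine le_trans ?_ hR2
        have := norm_sub_le x y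
        gcongr
        linarith [hx.2, hy.2]
      rw [if_neg hxy', gp0_zero (by positivity) hle]
      congr 1
      have h3 : dist (φ x) (φ y) = c * ‖x - y‖ := by
        rw [hφa, hφa, dist_eq_norm, ← smul_sub, norm_smul, Real.norm_eq_abs, abs_of_pos hc0]
      have h4 : Real.log R = 2 * (Real.log 3 + d) := by
        rw [hR, Real.log_pow, Real.log_mul (by norm_num) (Real.exp_pos d).ne', Real.log_exp]
        push_cast
        ring
      have h5 : Real.log c = -d := by rw [hc, Real.log_exp]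
      have h6 : Real.log (‖x - y‖ ^ 2) = 2 * Real.log ‖x - y‖ := by
        rw [Real.log_pow]
        push_cast
        ring
      rw [h3, Real.log_div (by norm_num) (by positivity), Real.log_mul hc0.ne' hpos.ne',
        Real.log_div hRpos.ne' (by positivity), h4, h5, h6]
      rw [show (2 : ℝ) + 1 = 3 by norm_num]
      ring
  rw [h2]
  refine (log_mL hd hd1 hR2).trans (ENNReal.ofReal_le_ofReal ?_)
  rw [hR, Real.sqrt_sq (by positivity), Real.log_mul (by norm_num) (Real.exp_pos d).ne',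
    Real.log_exp]
  linarith

theorem cap0_ball_ge : 1 ≤ capf 0 (Metric.closedBall (0 : E 2) 1) := by
  have hdiam : Metric.diam (Metric.closedBall (0 : E 2) 1) = 2 := by
    rw [Metric.diam_closedBall_eq _ zero_le_one]
    norm_num
  have hne : logEn (Metric.closedBall (0 : E 2) 1) ≠ ⊤ := by
    have h := c20_logEn (d := 1 / 2) (by norm_num) (by norm_num)
    exact (h.trans_lt ENNReal.ofReal_lt_top).ne
  rw [capf_zero_def, if_neg hne, hdiam]
  have key : ∀ d : ℝ, 0 < d → d < 1 → Real.exp (-2 * d) ≤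
      (2 + 1) * Real.exp (-(logEn (Metric.closedBall (0 : E 2) 1)).toReal) := by
    intro d hd hd1
    have h := c20_logEn hd hd1
    have h0 : 0 ≤ Real.log 3 + 2 * d := by
      have := Real.log_nonneg (x := 3) (by norm_num)
      linarith
    have h2 : (logEn (Metric.closedBall (0 : E 2) 1)).toReal ≤ Real.log 3 + 2 * d :=
      ENNReal.toReal_le_of_le_ofReal h0 h
    have h3 : Real.exp (-2 * d) = 3 * Real.exp (-(Real.log 3 + 2 * d)) := by
      rw [neg_add, Real.exp_add, Real.exp_neg (Real.log 3), Real.exp_log (by norm_num)]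
      ring_nf
    rw [h3]
    have h4 := Real.exp_le_exp.2 (neg_le_neg h2)
    linarith
  have hlim : Tendsto (fun d : ℝ => Real.exp (-2 * d)) (𝓝[>] 0) (𝓝 1) := by
    have h1 : Continuous (fun d : ℝ => Real.exp (-2 * d)) := by fun_prop
    have h2 := h1.tendsto 0
    rw [mul_zero, Real.exp_zero] at h2
    exact h2.mono_left nhdsWithin_le_nhds
  refine le_of_tendsto hlim ?_
  filter_upwards [Ioo_mem_nhdsGT (zero_lt_one : (0 : ℝ) < 1)] with d hd
  exact key d hd.1 hd.2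

end Pool.Agent.Lib.MP_6cd19d_an.ND
end
end
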