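import Pool.Agent.Lib.MP_6cd19d_an.ND.B04
import Pool.Agent.Lib.MP_6cd19d_an.ND.B20
import Pool.Agent.Lib.MP_6cd19d_an.ND.C20

section

section

/-!
# B23: exponents `p ≤ -2`

`diam_ge`: `K`, `μ`, `M` as in B22, `0 < d < 1`, `b = (M/(1-d))^(2/(n-2))`. `energy_pow` for all `k`:
`∬ ‖x-y‖^(2k) dmB dmB ≤ b^k (diam K)^(2k)`. Let `0 < T < 2 r`, `r = (1+d)^(-1/(n-2))`; then
`P = (mB × mB) {‖x - y‖ > T} > 0`: take a unit vector `e1`; the open sets `V± = {z : dist z (± r' e1) < ε}` have positive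
`mB` mass when `r'` is such that `bt (r' e1) > 0` (exists by `deriv_cut_neg` and `bt_formula`; automatically
`r < r'`), and `‖x - y‖ ≥ 2 r' - 2 ε > T` for `x ∈ V+`, `y ∈ V-`, `ε` small. So `T^(2k) P ≤ (b (diam K)^2)^k` for all `k`,
hence `T^2 ≤ b (diam K)^2` (otherwise `(T^2/(b diam^2))^k P` is unbounded). Let `T → 2 r`, then `d → 0`:
`2 ≤ M^(1/(n-2)) * diam K`.
`two_point`: `s = -p > 0`; `K` compact nonempty; `x0, y0 ∈ K` at distance `diam K` (`IsCompact.exists_...`),
`μ = (1/2) (δ_{x0} + δ_{y0})`: `en p μ = (1/2) (diam K)^s`. So `(1/2) ofReal (diam K)^(-p) ≤ supEn p K`.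
`supEn_ball_le`: `s = -p ≥ 2`: for `μ` on the unit ball: `(edist x y)^s ≤ 2^(s-2) (edist x y)^2` and
`∬ ‖x-y‖^2 dμ dμ = 2 ∫ ‖x‖^2 - 2 ‖∫ x‖^2 ≤ 2`; so `en p μ ≤ 2^(s-1)`.
`cmp_le_neg_two`: `cap_p(B) = supEn(B)^(1/s) ≤ 2^((s-1)/s) = 2^(-1/s) * 2 ≤ 2^(-1/s) diam K * M^(1/(n-2)) ≤ cap_p(K) M^(1/(n-2))`.
-/

set_option autoImplicit false

open MeasureTheory Set Filter Topology
open scoped ENNReal ContDiff

namespace Pool.Agent.Lib.MP_6cd19d_an.ND

/-- Lower bound for the moments of `mB`. -/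
private theorem b23_lower {n : ℕ} (hn : 3 ≤ n) {d : ℝ} (hd : 0 < d) (hd1 : d < 1) {ε : ℝ}
    (hε : 0 < ε) (hεr : ε < (1 + d) ^ (-1 / ((n : ℝ) - 2))) :
    ∃ P : ℝ, 0 < P ∧ ∀ k : ℕ, ((2 * (1 + d) ^ (-1 / ((n : ℝ) - 2)) - 2 * ε) ^ 2) ^ k * P ≤
      ∫ x, ∫ y, ‖x - y‖ ^ (2 * k) ∂(mB n d) ∂(mB n d) := by
  set r : ℝ := (1 + d) ^ (-1 / ((n : ℝ) - 2)) with hr
  set m : Measure (E n) := mB n d with hm
  have hprob : IsProbabilityMeasure m := ⟨mB_univ hn hd hd1⟩
  set C : ℝ := (1 - d) ^ (-1 / ((n : ℝ) - 2)) with hC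
  set Sh : Set (E n) := {z | r ≤ ‖z‖ ∧ ‖z‖ ≤ C} with hSh
  have hShae : ∀ᵐ z ∂m, z ∈ Sh := mB_shell hn hd hd1
  have hSh0 : m Sh ≠ 0 := by
    intro h0
    have h1 : ∀ᵐ z ∂m, z ∉ Sh := by
      rw [ae_iff]
      simpa using h0
    have h2 : ∀ᵐ z ∂m, False := by
      filter_upwards [hShae, h1] with z hz hz'
      exact hz' hz
    have h3 : m = 0 := by simpa using h2
    have h4 : m univ = 1 := mB_univ hn hd hd1
    rw [h3] at h4
    simp at h4
  obtain ⟨z0, hz0, hpos⟩ := exists_mem_forall_mem_nhdsWithin_pos_measure hSh0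
  have hV : 0 < m (Metric.ball z0 ε) := hpos _ (mem_nhdsWithin_of_mem_nhds (Metric.ball_mem_nhds _ hε))
  have hV' : m (Metric.ball (-z0) ε) = m (Metric.ball z0 ε) := by
    have h1 := mB_rot hn hd hd1 (LinearIsometryEquiv.neg ℝ (E := E n))
    conv_lhs => rw [hm, ← h1]
    rw [Measure.map_apply (LinearIsometryEquiv.neg ℝ (E := E n)).continuous.measurable
      Metric.isOpen_ball.measurableSet]
    congr 1
    ext z
    simp only [mem_preimage, LinearIsometryEquiv.coe_neg, Metric.mem_ball]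
    rw [show -z = -(z) from rfl, dist_neg_neg]
  set a : ℝ := m.real (Metric.ball z0 ε) with ha
  have ha0 : 0 < a := ENNReal.toReal_pos hV.ne' (measure_ne_top _ _)
  have ha' : m.real (Metric.ball (-z0) ε) = a := by
    unfold Measure.real at ha ⊢
    rw [hV', ha]
  have hrpos : 0 < r := Real.rpow_pos_of_pos (by linarith) _
  refine ⟨a * a, by positivity, fun k => ?_⟩
  set T : ℝ := 2 * r - 2 * ε with hT
  have hT0 : 0 < T := by rw [hT]; linarith
  rw [← pow_mul]
  have hdist : ∀ x ∈ Metric.ball z0 ε, ∀ y ∈ Metric.ball (-z0) ε, T ≤ ‖x - y‖ := by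
    intro x hx y hy
    rw [Metric.mem_ball, dist_eq_norm] at hx hy
    have h1 : (2 : ℝ) • z0 = (x - y) - (x - z0) + (y - -z0) := by
      rw [two_smul]
      abel
    have h2 : ‖(2 : ℝ) • z0‖ = 2 * ‖z0‖ := by rw [norm_smul, Real.norm_ofNat]
    have h3 : ‖(2 : ℝ) • z0‖ ≤ ‖x - y‖ + ‖x - z0‖ + ‖y - -z0‖ := by
      rw [h1]
      exact (norm_add_le _ _).trans (add_le_add (norm_sub_le _ _) le_rfl)
    have h4 := hz0.1
    rw [h2] at h3
    rw [hT]
    linarith
  have hbd : ∀ x ∈ Sh, ∀ y ∈ Sh, ‖x - y‖ ^ (2 * k) ≤ (2 * C) ^ (2 * k) := by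
    intro x hx y hy
    have h1 : ‖x - y‖ ≤ 2 * C := (norm_sub_le _ _).trans (by linarith [hx.2, hy.2])
    gcongr
  have hin : ∀ x ∈ Sh, Integrable (fun y => ‖x - y‖ ^ (2 * k)) m := by
    intro x hx
    refine Integrable.of_bound (C := (2 * C) ^ (2 * k))
      (Continuous.aestronglyMeasurable (by fun_prop)) ?_
    filter_upwards [hShae] with y hy
    rw [Real.norm_of_nonneg (by positivity)]
    exact hbd x hx y hy
  have hout : Integrable (fun x => ∫ y, ‖x - y‖ ^ (2 * k) ∂m) m := by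
    refine Integrable.of_bound (C := (2 * C) ^ (2 * k)) ?_ ?_
    · have h1 : StronglyMeasurable (Function.uncurry fun x y : E n => ‖x - y‖ ^ (2 * k)) := by
        refine Continuous.stronglyMeasurable ?_
        have : (Function.uncurry fun x y : E n => ‖x - y‖ ^ (2 * k)) =
          fun q : E n × E n => ‖q.1 - q.2‖ ^ (2 * k) := rfl
        rw [this]
        fun_prop
      exact h1.integral_prod_right.aestronglyMeasurable
    · filter_upwards [hShae] with x hx
      rw [Real.norm_of_nonneg (integral_nonneg fun y => by positivity)]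
      have h1 : ∫ y, ‖x - y‖ ^ (2 * k) ∂m ≤ ∫ _y, (2 * C) ^ (2 * k) ∂m := by
        refine integral_mono_of_nonneg (Eventually.of_forall fun y => by positivity)
          (integrable_const _) ?_
        filter_upwards [hShae] with y hy
        exact hbd x hx y hy
      simpa using h1
  have hinner : ∀ x ∈ Sh, x ∈ Metric.ball z0 ε → a * T ^ (2 * k) ≤ ∫ y, ‖x - y‖ ^ (2 * k) ∂m := by
    intro x hx hxV
    have h1 : ∫ y, (Metric.ball (-z0) ε).indicator (fun _ => T ^ (2 * k)) y ∂m ≤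
        ∫ y, ‖x - y‖ ^ (2 * k) ∂m := by
      refine integral_mono_of_nonneg (Eventually.of_forall fun y =>
        indicator_nonneg (fun _ _ => by positivity) y) (hin x hx) (Eventually.of_forall fun y => ?_)
      by_cases hy : y ∈ Metric.ball (-z0) ε
      · simp only [indicator_of_mem hy]
        have := hdist x hxV y hy
        gcongr
      · simp only [indicator_of_notMem hy]
        positivity
    rw [integral_indicator_const _ Metric.isOpen_ball.measurableSet, ha', smul_eq_mul] at h1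
    exact h1
  have h2 : ∫ x, (Metric.ball z0 ε).indicator (fun _ => a * T ^ (2 * k)) x ∂m ≤
      ∫ x, ∫ y, ‖x - y‖ ^ (2 * k) ∂m ∂m := by
    refine integral_mono_of_nonneg (Eventually.of_forall fun y =>
        indicator_nonneg (fun _ _ => by positivity) y) hout ?_
    filter_upwards [hShae] with x hx
    by_cases hx' : x ∈ Metric.ball z0 ε
    · simp only [indicator_of_mem hx']
      exact hinner x hx hx'
    · simp only [indicator_of_notMem hx']
      exact integral_nonneg fun y => by positivity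
  rw [integral_indicator_const _ Metric.isOpen_ball.measurableSet, smul_eq_mul] at h2
  refine le_trans (le_of_eq ?_) h2
  rw [← ha]
  ring

theorem diam_ge {n : ℕ} (hn : 3 ≤ n) {K : Set (E n)} (hK : IsCompact K)
    (hI : infEn ((n : ℝ) - 2) K ≠ ⊤) :
    2 ≤ (infEn ((n : ℝ) - 2) K).toReal ^ (1 / ((n : ℝ) - 2)) * Metric.diam K := by
  have hn3 : (3 : ℝ) ≤ n := by exact_mod_cast hn
  have hs : (0 : ℝ) < (n : ℝ) - 2 := by linarith
  obtain ⟨μ, hPK, -, -, hpot⟩ := exists_equilibrium hs le_rfl hK hI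
  have hM : 0 < (infEn ((n : ℝ) - 2) K).toReal := ENNReal.toReal_pos (infEn_pos hs hK) hI
  have hpot' : ∀ x, pot ((n : ℝ) - 2) μ x ≤ ENNReal.ofReal (infEn ((n : ℝ) - 2) K).toReal := by
    intro x
    rw [ENNReal.ofReal_toReal hI]
    exact hpot x
  set M : ℝ := (infEn ((n : ℝ) - 2) K).toReal with hMdef
  have hprob : IsProbabilityMeasure μ := ⟨hPK.1⟩
  have hae : ∀ᵐ x ∂μ, x ∈ K := hPK.2
  have hdiam : 0 ≤ Metric.diam K := Metric.diam_nonneg
  have hupper : ∀ k : ℕ, ∫ x, ∫ y, ‖x - y‖ ^ (2 * k) ∂μ ∂μ ≤ (Metric.diam K ^ 2) ^ k := by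
    intro k
    rw [← pow_mul]
    have h1 : ∀ x ∈ K, ∫ y, ‖x - y‖ ^ (2 * k) ∂μ ≤ Metric.diam K ^ (2 * k) := by
      intro x hx
      have h2 : ∫ y, ‖x - y‖ ^ (2 * k) ∂μ ≤ ∫ _y, Metric.diam K ^ (2 * k) ∂μ := by
        refine integral_mono_of_nonneg (Eventually.of_forall fun y => by positivity)
          (integrable_const _) ?_
        filter_upwards [hae] with y hy
        have := Metric.dist_le_diam_of_mem hK.isBounded hx hy
        rw [dist_eq_norm] at this
        show ‖x - y‖ ^ (2 * k) ≤ Metric.diam K ^ (2 * k)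
        gcongr
      simpa using h2
    have h2 : ∫ x, ∫ y, ‖x - y‖ ^ (2 * k) ∂μ ∂μ ≤ ∫ _x, Metric.diam K ^ (2 * k) ∂μ := by
      refine integral_mono_of_nonneg (Eventually.of_forall fun x =>
        integral_nonneg fun y => by positivity) (integrable_const _) ?_
      filter_upwards [hae] with x hx
      exact h1 x hx
    simpa using h2
  have step : ∀ d : ℝ, 0 < d → d < 1 → ∀ ε : ℝ, 0 < ε → ε < (1 + d) ^ (-1 / ((n : ℝ) - 2)) →
      (2 * (1 + d) ^ (-1 / ((n : ℝ) - 2)) - 2 * ε) ^ 2 ≤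
        (M / (1 - d)) ^ (2 / ((n : ℝ) - 2)) * Metric.diam K ^ 2 := by
    intro d hd hd1 ε hε hεr
    obtain ⟨P, hP, hlow⟩ := b23_lower hn hd hd1 hε hεr
    set T2 : ℝ := (2 * (1 + d) ^ (-1 / ((n : ℝ) - 2)) - 2 * ε) ^ 2 with hT2
    have h1d : 0 < 1 - d := by linarith
    set b : ℝ := (M / (1 - d)) ^ (2 / ((n : ℝ) - 2)) with hb
    have hb0 : 0 < b := Real.rpow_pos_of_pos (by positivity) _
    have hT0 : 0 < T2 := by
      rw [hT2]
      have : 0 < 2 * (1 + d) ^ (-1 / ((n : ℝ) - 2)) - 2 * ε := by linarith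
      positivity
    by_contra hcon
    push Not at hcon
    have hq : ∀ k : ℕ, P ≤ (b * Metric.diam K ^ 2 / T2) ^ k := by
      intro k
      have h1 := hlow k
      have h2 := energy_pow hn k hd hd1 hK hPK hM hpot'
      have h3 := hupper k
      have h4 : T2 ^ k * P ≤ (b * Metric.diam K ^ 2) ^ k := by
        rw [mul_pow]
        refine h1.trans (h2.trans ?_)
        rw [← hb]
        gcongr
      rw [div_pow, le_div_iff₀ (by positivity)]
      linarith
    have hlim := tendsto_pow_atTop_nhds_zero_of_lt_one (r := b * Metric.diam K ^ 2 / T2)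
      (by positivity) (by rw [div_lt_one hT0]; exact hcon)
    have := ge_of_tendsto' hlim hq
    linarith
  have step2 : ∀ d : ℝ, 0 < d → d < 1 → 2 * (1 + d) ^ (-1 / ((n : ℝ) - 2)) ≤
      (M / (1 - d)) ^ (1 / ((n : ℝ) - 2)) * Metric.diam K := by
    intro d hd hd1
    have h1d : 0 < 1 - d := by linarith
    have hr0 : 0 < (1 + d) ^ (-1 / ((n : ℝ) - 2)) := Real.rpow_pos_of_pos (by linarith) _
    have hlim : Tendsto (fun ε : ℝ => (2 * (1 + d) ^ (-1 / ((n : ℝ) - 2)) - 2 * ε) ^ 2) (𝓝[>] 0)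
        (𝓝 ((2 * (1 + d) ^ (-1 / ((n : ℝ) - 2))) ^ 2)) := by
      have h1 : Tendsto (fun ε : ℝ => (2 * (1 + d) ^ (-1 / ((n : ℝ) - 2)) - 2 * ε) ^ 2) (𝓝 0)
          (𝓝 ((2 * (1 + d) ^ (-1 / ((n : ℝ) - 2)) - 2 * 0) ^ 2)) :=
        Continuous.tendsto (by fun_prop) 0
      rw [mul_zero, sub_zero] at h1
      exact h1.mono_left nhdsWithin_le_nhds
    have h2 : (2 * (1 + d) ^ (-1 / ((n : ℝ) - 2))) ^ 2 ≤
        (M / (1 - d)) ^ (2 / ((n : ℝ) - 2)) * Metric.diam K ^ 2 := by
      refine le_of_tendsto hlim ?_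
      filter_upwards [Ioo_mem_nhdsGT hr0] with ε hε
      exact step d hd hd1 ε hε.1 hε.2
    have h3 : (M / (1 - d)) ^ (2 / ((n : ℝ) - 2)) = ((M / (1 - d)) ^ (1 / ((n : ℝ) - 2))) ^ 2 := by
      rw [← Real.rpow_natCast, ← Real.rpow_mul (by positivity)]
      congr 1
      push_cast
      ring
    rw [h3, ← mul_pow] at h2
    refine le_of_sq_le_sq ?_ ?_
    · exact h2
    · have : 0 ≤ (M / (1 - d)) ^ (1 / ((n : ℝ) - 2)) := Real.rpow_nonneg (by positivity) _
      positivity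
  have hlim1 : Tendsto (fun d : ℝ => 2 * (1 + d) ^ (-1 / ((n : ℝ) - 2))) (𝓝[>] 0) (𝓝 2) := by
    have h1 : ContinuousAt (fun d : ℝ => 2 * (1 + d) ^ (-1 / ((n : ℝ) - 2))) 0 :=
      continuousAt_const.mul (ContinuousAt.rpow_const (by fun_prop) (Or.inl (by norm_num)))
    have h2 := h1.tendsto.mono_left (nhdsWithin_le_nhds (s := Ioi (0 : ℝ)))
    simpa using h2
  have hlim2 : Tendsto (fun d : ℝ => (M / (1 - d)) ^ (1 / ((n : ℝ) - 2)) * Metric.diam K)
      (𝓝[>] 0) (𝓝 (M ^ (1 / ((n : ℝ) - 2)) * Metric.diam K)) := by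
    have h1 : ContinuousAt (fun d : ℝ => (M / (1 - d)) ^ (1 / ((n : ℝ) - 2)) * Metric.diam K) 0 := by
      refine ContinuousAt.mul (ContinuousAt.rpow_const ?_ (Or.inl (by simpa using hM.ne')))
        continuousAt_const
      exact continuousAt_const.div (by fun_prop) (by norm_num)
    have h2 := h1.tendsto.mono_left (nhdsWithin_le_nhds (s := Ioi (0 : ℝ)))
    simpa using h2
  refine le_of_tendsto_of_tendsto hlim1 hlim2 ?_
  filter_upwards [Ioo_mem_nhdsGT (zero_lt_one' ℝ)] with d hd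
  exact step2 d hd.1 hd.2

end Pool.Agent.Lib.MP_6cd19d_an.ND
end

section

/-!
# B23: exponents `p ≤ -2`

`diam_ge`: `K`, `μ`, `M` as in B22, `0 < d < 1`, `b = (M/(1-d))^(2/(n-2))`. `energy_pow` for all `k`:
`∬ ‖x-y‖^(2k) dmB dmB ≤ b^k (diam K)^(2k)`. Let `0 < T < 2 r`, `r = (1+d)^(-1/(n-2))`; then
`P = (mB × mB) {‖x - y‖ > T} > 0`: take a unit vector `e1`; the open sets `V± = {z : dist z (± r' e1) < ε}` have positive
`mB` mass when `r'` is such that `bt (r' e1) > 0` (exists by `deriv_cut_neg` and `bt_formula`; automatically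
`r < r'`), and `‖x - y‖ ≥ 2 r' - 2 ε > T` for `x ∈ V+`, `y ∈ V-`, `ε` small. So `T^(2k) P ≤ (b (diam K)^2)^k` for all `k`,
hence `T^2 ≤ b (diam K)^2` (otherwise `(T^2/(b diam^2))^k P` is unbounded). Let `T → 2 r`, then `d → 0`:
`2 ≤ M^(1/(n-2)) * diam K`.
`two_point`: `s = -p > 0`; `K` compact nonempty; `x0, y0 ∈ K` at distance `diam K` (`IsCompact.exists_...`),
`μ = (1/2) (δ_{x0} + δ_{y0})`: `en p μ = (1/2) (diam K)^s`. So `(1/2) ofReal (diam K)^(-p) ≤ supEn p K`.
`supEn_ball_le`: `s = -p ≥ 2`: for `μ` on the unit ball: `(edist x y)^s ≤ 2^(s-2) (edist x y)^2` and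
`∬ ‖x-y‖^2 dμ dμ = 2 ∫ ‖x‖^2 - 2 ‖∫ x‖^2 ≤ 2`; so `en p μ ≤ 2^(s-1)`.
`cmp_le_neg_two`: `cap_p(B) = supEn(B)^(1/s) ≤ 2^((s-1)/s) = 2^(-1/s) * 2 ≤ 2^(-1/s) diam K * M^(1/(n-2)) ≤ cap_p(K) M^(1/(n-2))`.
-/

set_option autoImplicit false

open MeasureTheory Set Filter Topology
open scoped ENNReal ContDiff

namespace Pool.Agent.Lib.MP_6cd19d_an.ND

private theorem b23_edist_rpow {n : ℕ} {s : ℝ} (hs : 0 ≤ s) (x y : E n) :
    (edist x y) ^ s = ENNReal.ofReal (dist x y ^ s) := by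
  rw [edist_dist, ENNReal.ofReal_rpow_of_nonneg dist_nonneg hs]

theorem two_point {n : ℕ} {p : ℝ} (hp : p < 0) {K : Set (E n)} (hK : IsCompact K)
    (hne : K.Nonempty) :
    ENNReal.ofReal ((1 / 2) * Metric.diam K ^ (-p)) ≤ supEn p K := by
  obtain ⟨x0, hx0, y0, hy0, hmax⟩ : ∃ x0 ∈ K, ∃ y0 ∈ K, ∀ x ∈ K, ∀ y ∈ K,
      dist x y ≤ dist x0 y0 := by
    have hcont : Continuous (fun z : E n × E n => dist z.1 z.2) := by fun_prop
    obtain ⟨z, hz, hmax⟩ := (hK.prod hK).exists_isMaxOn (hne.prod hne) hcont.continuousOn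
    refine ⟨z.1, hz.1, z.2, hz.2, fun x hx y hy => ?_⟩
    have := (isMaxOn_iff.1 hmax) (x, y) (Set.mk_mem_prod hx hy)
    simpa using this
  have hdiam : Metric.diam K ≤ dist x0 y0 :=
    Metric.diam_le_of_forall_dist_le dist_nonneg hmax
  set c : ℝ≥0∞ := (1 / 2 : ℝ≥0∞) with hc
  have hc2 : c + c = 1 := by
    rw [hc]
    exact ENNReal.add_halves 1
  set μ : Measure (E n) := c • Measure.dirac x0 + c • Measure.dirac y0 with hμ
  have hPK : PK K μ := by
    refine ⟨?_, ?_⟩
    · rw [hμ]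
      simp [hc2]
    · rw [hμ]
      simp [hx0, hy0]
  have hp' : 0 < -p := by linarith
  have hen : en p μ = ENNReal.ofReal ((1 / 2) * dist x0 y0 ^ (-p)) := by
    unfold en
    rw [hμ]
    simp only [lintegral_add_measure, lintegral_smul_measure, lintegral_dirac, edist_self,
      ENNReal.zero_rpow_of_pos hp', smul_eq_mul, mul_zero, zero_add, add_zero]
    rw [edist_comm y0 x0, b23_edist_rpow hp'.le]
    rw [ENNReal.ofReal_mul (by norm_num)]
    have h1 : ENNReal.ofReal (1 / 2) = c := by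
      rw [hc, ENNReal.ofReal_div_of_pos (by norm_num)]
      simp
    rw [h1]
    rw [← mul_assoc, ← add_mul]
    congr 1
    rw [← mul_add, hc2, mul_one]
  calc ENNReal.ofReal ((1 / 2) * Metric.diam K ^ (-p))
      ≤ ENNReal.ofReal ((1 / 2) * dist x0 y0 ^ (-p)) := by
        refine ENNReal.ofReal_le_ofReal ?_
        have := Real.rpow_le_rpow Metric.diam_nonneg hdiam hp'.le
        linarith
    _ = en p μ := hen.symm
    _ ≤ supEn p K := by
        unfold supEn
        exact le_iSup₂ (f := fun (μ : Measure (E n)) (_ : PK K μ) => en p μ) μ hPK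

theorem supEn_ball_le {n : ℕ} {p : ℝ} (hp : p ≤ -2) :
    supEn p (Metric.closedBall (0 : E n) 1) ≤ ENNReal.ofReal (2 ^ (-p - 1)) := by
  unfold supEn
  refine iSup₂_le fun μ hμ => ?_
  obtain ⟨h1, h0⟩ := hμ
  have : IsProbabilityMeasure μ := ⟨h1⟩
  have hae : ∀ᵐ x ∂μ, ‖x‖ ≤ 1 := by
    rw [ae_iff]
    refine measure_mono_null ?_ h0
    intro x hx
    simp only [mem_ofPred_eq, mem_compl_iff, Metric.mem_closedBall, dist_zero_right] at hx ⊢
    exact hx
  have hs : 0 ≤ -p - 2 := by linarith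
  -- pointwise bound
  have key : ∀ x : E n, ‖x‖ ≤ 1 → ∀ y : E n, ‖y‖ ≤ 1 →
      (edist x y) ^ (-p) ≤ ENNReal.ofReal (2 ^ (-p - 2) * ‖x - y‖ ^ 2) := by
    intro x hx y hy
    rw [b23_edist_rpow (by linarith)]
    refine ENNReal.ofReal_le_ofReal ?_
    rw [dist_eq_norm]
    have h2 : ‖x - y‖ ≤ 2 := by
      have := norm_sub_le x y
      linarith
    have h3 : ‖x - y‖ ^ (-p) = ‖x - y‖ ^ (-p - 2) * ‖x - y‖ ^ 2 := by
      rcases eq_or_lt_of_le (norm_nonneg (x - y)) with h | h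
      · rw [← h, Real.zero_rpow (by linarith)]
        simp
      · rw [← Real.rpow_natCast ‖x - y‖ 2, ← Real.rpow_add h]
        congr 1
        push_cast
        ring
    rw [h3]
    exact mul_le_mul_of_nonneg_right (Real.rpow_le_rpow (norm_nonneg _) h2 hs) (sq_nonneg _)
  have hbnd : ∀ (C : ℝ) (f : E n → ℝ), Continuous f → (∀ x, ‖x‖ ≤ 1 → |f x| ≤ C) →
      Integrable f μ := by
    intro C f hf hC
    refine Integrable.of_bound hf.aestronglyMeasurable C ?_
    filter_upwards [hae] with x hx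
    rw [Real.norm_eq_abs]
    exact hC x hx
  have hid : Integrable (fun x : E n => x) μ := by
    refine Integrable.of_bound aestronglyMeasurable_id 1 ?_
    filter_upwards [hae] with x hx
    exact hx
  have hsq : Integrable (fun x : E n => ‖x‖ ^ 2) μ := hbnd 1 _ (by fun_prop) (fun x hx => by
    rw [abs_of_nonneg (sq_nonneg _)]
    have := norm_nonneg x
    nlinarith)
  set m : E n := ∫ x, x ∂μ with hm
  set A : ℝ := ∫ x, ‖x‖ ^ 2 ∂μ with hA
  have hA1 : A ≤ 1 := by
    rw [hA]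
    have : ∫ x, ‖x‖ ^ 2 ∂μ ≤ ∫ x, (1 : ℝ) ∂μ := by
      refine integral_mono_ae hsq (integrable_const 1) ?_
      filter_upwards [hae] with x hx
      have := norm_nonneg x
      nlinarith
    simpa using this
  have hinner : ∀ x : E n, Integrable (fun y : E n => ‖x - y‖ ^ 2) μ := by
    intro x
    refine hbnd ((‖x‖ + 1) ^ 2) _ (by fun_prop) (fun y hy => ?_)
    rw [abs_of_nonneg (sq_nonneg _)]
    have := norm_sub_le x y
    have h5 := norm_nonneg (x - y)
    have h6 : ‖x - y‖ ≤ ‖x‖ + 1 := by linarith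
    exact pow_le_pow_left₀ h5 h6 2
  have hin : ∀ x : E n, ∫ y, ‖x - y‖ ^ 2 ∂μ = ‖x‖ ^ 2 - 2 * inner ℝ x m + A := by
    intro x
    have e1 : ∀ y : E n, ‖x - y‖ ^ 2 = (‖x‖ ^ 2 - 2 * inner ℝ x y) + ‖y‖ ^ 2 := by
      intro y
      rw [norm_sub_sq_real]
    have i1 : Integrable (fun y : E n => inner ℝ x y) μ := hid.const_inner x
    simp only [e1]
    have i3 : Integrable (fun y : E n => ‖x‖ ^ 2 - 2 * inner ℝ x y) μ :=
      (integrable_const _).sub (i1.const_mul 2)
    rw [integral_add i3 hsq,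
      integral_sub (integrable_const _) (i1.const_mul 2), integral_const_mul, integral_const,
      integral_inner hid x, ← hm, ← hA]
    simp
  have hcont : Continuous fun x : E n => ‖x‖ ^ 2 - 2 * inner ℝ x m + A := by fun_prop
  have hI : ∫ x, (‖x‖ ^ 2 - 2 * inner ℝ x m + A) ∂μ ≤ 2 := by
    have i2 : Integrable (fun x : E n => inner ℝ x m) μ := hid.inner_const m
    have i3 : Integrable (fun x : E n => ‖x‖ ^ 2 - 2 * inner ℝ x m) μ := hsq.sub (i2.const_mul 2)
    rw [integral_add i3 (integrable_const _),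
      integral_sub hsq (i2.const_mul 2), integral_const_mul, integral_const]
    have e2 : ∫ x, inner ℝ x m ∂μ = ‖m‖ ^ 2 := by
      have e3 : ∀ x : E n, inner ℝ x m = inner ℝ m x := fun x => real_inner_comm _ _
      simp only [e3]
      rw [integral_inner hid m, ← hm, real_inner_self_eq_norm_sq]
    rw [e2]
    simp only [probReal_univ, smul_eq_mul, one_mul]
    rw [← hA]
    have := sq_nonneg ‖m‖
    linarith
  have hpos2 : (0 : ℝ) ≤ 2 ^ (-p - 2) := by positivity
  unfold en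
  calc ∫⁻ x, ∫⁻ y, (edist x y) ^ (-p) ∂μ ∂μ
      ≤ ∫⁻ x, ENNReal.ofReal (2 ^ (-p - 2) * (‖x‖ ^ 2 - 2 * inner ℝ x m + A)) ∂μ := by
        refine lintegral_mono_ae ?_
        filter_upwards [hae] with x hx
        calc ∫⁻ y, (edist x y) ^ (-p) ∂μ
            ≤ ∫⁻ y, ENNReal.ofReal (2 ^ (-p - 2) * ‖x - y‖ ^ 2) ∂μ := by
              refine lintegral_mono_ae ?_
              filter_upwards [hae] with y hy
              exact key x hx y hy
          _ = ENNReal.ofReal (∫ y, 2 ^ (-p - 2) * ‖x - y‖ ^ 2 ∂μ) := by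
              rw [ofReal_integral_eq_lintegral_ofReal ((hinner x).const_mul _)
                (Eventually.of_forall fun y => mul_nonneg hpos2 (sq_nonneg _))]
          _ = ENNReal.ofReal (2 ^ (-p - 2) * (‖x‖ ^ 2 - 2 * inner ℝ x m + A)) := by
              rw [integral_const_mul, hin]
    _ = ENNReal.ofReal (∫ x, 2 ^ (-p - 2) * (‖x‖ ^ 2 - 2 * inner ℝ x m + A) ∂μ) := by
        have hnn : ∀ x : E n, 0 ≤ ‖x‖ ^ 2 - 2 * inner ℝ x m + A := by
          intro x
          rw [← hin]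
          exact integral_nonneg fun y => sq_nonneg _
        have i2 : Integrable (fun x : E n => inner ℝ x m) μ := hid.inner_const m
        have i4 : Integrable (fun x : E n => 2 ^ (-p - 2) *
            (‖x‖ ^ 2 - 2 * inner ℝ x m + A)) μ :=
          ((hsq.sub (i2.const_mul 2)).add (integrable_const A)).const_mul _
        rw [ofReal_integral_eq_lintegral_ofReal i4
          (Eventually.of_forall fun x => mul_nonneg hpos2 (hnn x))]
    _ ≤ ENNReal.ofReal (2 ^ (-p - 1)) := by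
        refine ENNReal.ofReal_le_ofReal ?_
        rw [integral_const_mul]
        have e4 : (2 : ℝ) ^ (-p - 1) = 2 ^ (-p - 2) * 2 := by
          rw [← Real.rpow_add_one (by norm_num)]
          congr 1
          ring
        rw [e4]
        exact mul_le_mul_of_nonneg_left hI hpos2

theorem supEn_lt_top {n : ℕ} {p : ℝ} (hp : p < 0) {K : Set (E n)} (hK : IsCompact K) :
    supEn p K < ⊤ := by
  have hp' : 0 < -p := by linarith
  have h1 : supEn p K ≤ ENNReal.ofReal (Metric.diam K ^ (-p)) := by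
    unfold supEn
    refine iSup₂_le fun μ hμ => ?_
    obtain ⟨h1, h0⟩ := hμ
    have : IsProbabilityMeasure μ := ⟨h1⟩
    have hae : ∀ᵐ x ∂μ, x ∈ K := by
      rw [ae_iff]
      exact h0
    unfold en
    calc ∫⁻ x, ∫⁻ y, (edist x y) ^ (-p) ∂μ ∂μ
        ≤ ∫⁻ x, ENNReal.ofReal (Metric.diam K ^ (-p)) ∂μ := by
          refine lintegral_mono_ae ?_
          filter_upwards [hae] with x hx
          calc ∫⁻ y, (edist x y) ^ (-p) ∂μ ≤ ∫⁻ y, ENNReal.ofReal (Metric.diam K ^ (-p)) ∂μ := by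
                refine lintegral_mono_ae ?_
                filter_upwards [hae] with y hy
                rw [b23_edist_rpow hp'.le]
                exact ENNReal.ofReal_le_ofReal (Real.rpow_le_rpow dist_nonneg
                  (Metric.dist_le_diam_of_mem hK.isBounded hx hy) hp'.le)
            _ = ENNReal.ofReal (Metric.diam K ^ (-p)) := by simp
      _ = ENNReal.ofReal (Metric.diam K ^ (-p)) := by simp
  exact lt_of_le_of_lt h1 ENNReal.ofReal_lt_top

theorem cmp_le_neg_two {n : ℕ} (hn : 3 ≤ n) {p : ℝ} (hp : p ≤ -2) {K : Set (E n)}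
    (hK : IsCompact K) (hI : infEn ((n : ℝ) - 2) K ≠ ⊤) :
    capf p (Metric.closedBall (0 : E n) 1) ≤
      (infEn ((n : ℝ) - 2) K).toReal ^ (1 / ((n : ℝ) - 2)) * capf p K := by
  have hp0 : p < 0 := by linarith
  have hne : K.Nonempty := by
    by_contra hcon
    rw [not_nonempty_iff_eq_empty] at hcon
    apply hI
    unfold infEn
    rw [iInf₂_eq_top]
    intro μ hμ
    exfalso
    obtain ⟨h1, h0⟩ := hμ
    rw [hcon, compl_empty, h1] at h0
    exact one_ne_zero h0
  have hdiam := diam_ge hn hK hI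
  have h2p := two_point hp0 hK hne
  have hball := supEn_ball_le (n := n) hp
  have hKtop := supEn_lt_top hp0 hK
  rw [capf_neg_def hp0, capf_neg_def hp0]
  set s : ℝ := -p with hs
  have hs2 : 2 ≤ s := by linarith
  have hs0 : 0 < s := by linarith
  have he : -1 / p = 1 / s := by
    rw [hs, neg_div, div_neg]
  rw [he]
  have h1s : 0 < 1 / s := by positivity
  have hd0 : 0 ≤ Metric.diam K := Metric.diam_nonneg
  have hM0 : 0 ≤ (infEn ((n : ℝ) - 2) K).toReal ^ (1 / ((n : ℝ) - 2)) := by positivity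
  have hL : (supEn p (Metric.closedBall (0 : E n) 1) ^ (1 / s)).toReal ≤
      (2 : ℝ) ^ (-(1 / s)) * 2 := by
    have h3 : supEn p (Metric.closedBall (0 : E n) 1) ^ (1 / s) ≤
        ENNReal.ofReal ((2 : ℝ) ^ (-(1 / s)) * 2) := by
      calc supEn p (Metric.closedBall (0 : E n) 1) ^ (1 / s)
          ≤ (ENNReal.ofReal (2 ^ (s - 1))) ^ (1 / s) := ENNReal.rpow_le_rpow hball h1s.le
        _ = ENNReal.ofReal ((2 : ℝ) ^ (-(1 / s)) * 2) := by
            rw [ENNReal.ofReal_rpow_of_nonneg (by positivity) h1s.le,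
              ← Real.rpow_mul (by norm_num), ← Real.rpow_add_one (by norm_num)]
            congr 2
            field_simp
            ring
    exact ENNReal.toReal_le_of_le_ofReal (by positivity) h3
  have hR : (2 : ℝ) ^ (-(1 / s)) * Metric.diam K ≤ (supEn p K ^ (1 / s)).toReal := by
    have h3 : ENNReal.ofReal ((2 : ℝ) ^ (-(1 / s)) * Metric.diam K) ≤ supEn p K ^ (1 / s) := by
      calc ENNReal.ofReal ((2 : ℝ) ^ (-(1 / s)) * Metric.diam K)
          = (ENNReal.ofReal ((1 / 2) * Metric.diam K ^ s)) ^ (1 / s) := by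
            rw [ENNReal.ofReal_rpow_of_nonneg (by positivity) h1s.le,
              Real.mul_rpow (by norm_num) (by positivity), ← Real.rpow_mul hd0,
              mul_one_div_cancel hs0.ne', Real.rpow_one]
            congr 2
            rw [Real.rpow_neg (by norm_num), one_div 2, Real.inv_rpow (by norm_num)]
        _ ≤ supEn p K ^ (1 / s) := ENNReal.rpow_le_rpow h2p h1s.le
    have htop : supEn p K ^ (1 / s) ≠ ⊤ := (ENNReal.rpow_lt_top_of_nonneg h1s.le hKtop.ne).ne
    exact (ENNReal.ofReal_le_iff_le_toReal htop).1 h3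
  calc (supEn p (Metric.closedBall (0 : E n) 1) ^ (1 / s)).toReal
      ≤ (2 : ℝ) ^ (-(1 / s)) * 2 := hL
    _ ≤ (2 : ℝ) ^ (-(1 / s)) * ((infEn ((n : ℝ) - 2) K).toReal ^ (1 / ((n : ℝ) - 2)) *
          Metric.diam K) := mul_le_mul_of_nonneg_left hdiam (by positivity)
    _ = (infEn ((n : ℝ) - 2) K).toReal ^ (1 / ((n : ℝ) - 2)) *
          ((2 : ℝ) ^ (-(1 / s)) * Metric.diam K) := by ring
    _ ≤ (infEn ((n : ℝ) - 2) K).toReal ^ (1 / ((n : ℝ) - 2)) *
          (supEn p K ^ (1 / s)).toReal := mul_le_mul_of_nonneg_left hR hM0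

end Pool.Agent.Lib.MP_6cd19d_an.ND
end

section

/-!
# B22: comparison of energies, `-2 < p < n - 2`

`K` compact with `I = infEn (n-2) K ≠ ⊤`; `I ≠ 0` (`‖x-y‖^(-(n-2)) ≥ diam^(-(n-2)) > 0`, or `⊤`, on bounded `K`);
`μ` from `exists_equilibrium`, `M = I.toReal`. For `0 < d < 1` let `b = (M/(1-d))^(2/(n-2))`,
`r = (1+d)^(-1/(n-2))`. For `μ''` with `PK (closedBall 0 1) μ''`, `μ' = μ''.map (r • ·)` lives on `closedBall 0 r`, so
(`energy_gp0`, `ball_gp0`) for `R` large
`∬ gp0 p R (b ‖x-y‖^2) dμ dμ ≤ ∬ gp0 p R (r^2 ‖x-y‖^2) dμ'' dμ''`.   (*)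
`cmp_pos`: `p > 0`: add `ofReal (R^(-p/2)/p)` on both sides (probability measures) and use `gp0_of_pos`, `gp0_top`
(`(edist x y)^(-p) = ⊤` for `x = y`): `b^(-p/2) en p μ ≤ r^(-p) en p μ''`. So
`infEn p K ≤ (M/(1-d))^(p/(n-2)) (1+d)^(p/(n-2)) en p μ''`; infimum over `μ''`, `d → 0`.
`cmp_neg`: `-2 < p < 0`: add to (*) both `ρ`-terms: `gp0_of_neg` gives
`∬ (r^2 ‖x-y‖^2)^(-p/2) dμ'' dμ'' ≤ ∬ (b ‖x-y‖^2)^(-p/2) dμ dμ` (all finite), i.e.
`r^(-p) en p μ'' ≤ b^(-p/2) en p μ ≤ b^(-p/2) supEn p K`; supremum over `μ''`, `d → 0`.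
`cmp_zero`: `p = 0`: with `D = diam K + 1`, `R` so large that `c1 = log (sqrt (R / b) / D) ≥ 0` and
`c2 = log (sqrt R / (3 r)) ≥ 0` (`diam (closedBall 0 1) + 1 = 3` for `n ≥ 1`): for `x ≠ y`
`gp0 0 R (b ‖x-y‖^2) = ofReal (log (D / dist x y)) + ofReal c1`, and similarly on the ball with `c2`; at `x = y` both
are `⊤`. So `logEn K + ofReal c1 ≤ logEn B + ofReal c2`. If `logEn B ≠ ⊤` this gives `logEn K ≠ ⊤` and
`(logEn K).toReal - log D - (1/2) log b ≤ (logEn B).toReal - log 3 - log r`, that is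
`capf 0 K ≥ capf 0 B * b^(-1/2) * r`; `d → 0`.
-/

set_option autoImplicit false

open MeasureTheory Set Filter Topology
open scoped ENNReal ContDiff

namespace Pool.Agent.Lib.MP_6cd19d_an.ND

lemma b22b_split {n : ℕ} {p R c : ℝ} (hp : p < 0) {K : Set (E n)}
    {μ : Measure (E n)} (hμ : PK K μ) (hc : 0 ≤ c)
    (hR : ∀ x ∈ K, ∀ y ∈ K, c * ‖x - y‖ ^ 2 ≤ R) :
    (∫⁻ x, ∫⁻ y, gp0 p R (c * ‖x - y‖ ^ 2) ∂μ ∂μ) + ENNReal.ofReal (c ^ (-p / 2) / (-p)) * en p μ =
      ENNReal.ofReal (R ^ (-p / 2) / (-p)) := by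
  have hprob : IsProbabilityMeasure μ := ⟨hμ.1⟩
  have hae : ∀ᵐ x ∂μ, x ∈ K := by
    rw [ae_iff]
    exact hμ.2
  have hm2 : Measurable fun z : E n × E n => gp0 p R (c * ‖z.1 - z.2‖ ^ 2) := by
    apply (gp0_measurable p R).comp
    fun_prop
  have hm1 : ∀ x : E n, Measurable fun y : E n => gp0 p R (c * ‖x - y‖ ^ 2) := fun x =>
    (gp0_measurable p R).comp (by fun_prop)
  unfold en
  rw [← lintegral_const_mul' _ _ ENNReal.ofReal_ne_top, ← lintegral_add_left hm2.lintegral_prod_right']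
  have h1 : ∀ᵐ x ∂μ, (∫⁻ y, gp0 p R (c * ‖x - y‖ ^ 2) ∂μ) +
      ENNReal.ofReal (c ^ (-p / 2) / (-p)) * ∫⁻ y, edist x y ^ (-p) ∂μ =
      ENNReal.ofReal (R ^ (-p / 2) / (-p)) := by
    filter_upwards [hae] with x hx
    rw [← lintegral_const_mul' _ _ ENNReal.ofReal_ne_top, ← lintegral_add_left (hm1 x)]
    have h2 : ∀ᵐ y ∂μ, gp0 p R (c * ‖x - y‖ ^ 2) +
        ENNReal.ofReal (c ^ (-p / 2) / (-p)) * edist x y ^ (-p) =
        ENNReal.ofReal (R ^ (-p / 2) / (-p)) := by
      filter_upwards [hae] with y hy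
      rw [← gp0_of_neg hp (ρ := c * ‖x - y‖ ^ 2) (by positivity) (hR x hx y hy)]
      congr 1
      rw [edist_dist, dist_eq_norm, ENNReal.ofReal_rpow_of_nonneg (norm_nonneg _) (by linarith),
        ← ENNReal.ofReal_mul (div_nonneg (Real.rpow_nonneg hc _) (by linarith)),
        Real.mul_rpow hc (by positivity), ← Real.rpow_natCast ‖x - y‖ 2,
        ← Real.rpow_mul (norm_nonneg _)]
      congr 1
      have : ((2 : ℕ) : ℝ) * (-p / 2) = -p := by push_cast; ring
      rw [this]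
      ring
    rw [lintegral_congr_ae h2, lintegral_const, measure_univ, mul_one]
  rw [lintegral_congr_ae h1, lintegral_const, measure_univ, mul_one]

lemma b22b_scale {n : ℕ} {p r : ℝ} (hp : p < 0) (hr : 0 < r) (μ : Measure (E n)) :
    en p (μ.map (fun x => r • x)) = ENNReal.ofReal (r ^ (-p)) * en p μ := by
  have hemb : MeasurableEmbedding (fun x : E n => r • x) :=
    (Homeomorph.smulOfNeZero r hr.ne').measurableEmbedding
  unfold en
  rw [hemb.lintegral_map, ← lintegral_const_mul' _ _ ENNReal.ofReal_ne_top]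
  congr 1
  funext x
  rw [hemb.lintegral_map, ← lintegral_const_mul' _ _ ENNReal.ofReal_ne_top]
  congr 1
  funext y
  rw [edist_dist, edist_dist, dist_smul₀, Real.norm_eq_abs, abs_of_pos hr,
    ENNReal.ofReal_rpow_of_nonneg (by positivity) (by linarith),
    ENNReal.ofReal_rpow_of_nonneg dist_nonneg (by linarith),
    ← ENNReal.ofReal_mul (Real.rpow_nonneg hr.le _), Real.mul_rpow hr.le dist_nonneg]

lemma b22b_pk {n : ℕ} {r : ℝ} (hr : 0 < r) {μ : Measure (E n)}
    (hμ : PK (Metric.closedBall (0 : E n) 1) μ) :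
    PK (Metric.closedBall (0 : E n) r) (μ.map (fun x => r • x)) := by
  have hemb : MeasurableEmbedding (fun x : E n => r • x) :=
    (Homeomorph.smulOfNeZero r hr.ne').measurableEmbedding
  constructor
  · rw [hemb.map_apply, preimage_univ]
    exact hμ.1
  · rw [hemb.map_apply]
    refine measure_mono_null (fun x hx => ?_) hμ.2
    simp only [mem_preimage, mem_compl_iff, Metric.mem_closedBall, dist_zero_right, not_le,
      norm_smul, Real.norm_eq_abs, abs_of_pos hr] at hx ⊢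
    by_contra h
    push Not at h
    nlinarith [norm_nonneg x]

/-- The inequality for each `d`. -/
private lemma b22b_d {n : ℕ} (hn : 3 ≤ n) {p : ℝ} (hp : -2 < p) (hp2 : p < 0)
    {K : Set (E n)} (hK : IsCompact K) (hI : infEn ((n : ℝ) - 2) K ≠ ⊤) {d : ℝ} (hd : 0 < d)
    (hd1 : d < 1) :
    supEn p (Metric.closedBall (0 : E n) 1) ≤
      ENNReal.ofReal ((1 + d) ^ (-p / ((n : ℝ) - 2)) *
        ((infEn ((n : ℝ) - 2) K).toReal / (1 - d)) ^ (-p / ((n : ℝ) - 2))) * supEn p K := by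
  have hn' : (3 : ℝ) ≤ n := by exact_mod_cast hn
  set N : ℝ := (n : ℝ) - 2 with hN
  have hN0 : 0 < N := by linarith
  obtain ⟨μ, hPK, -, -, hpot⟩ := exists_equilibrium (n := n) (s := N) hN0 hN.ge hK hI
  have hI0 := infEn_pos (n := n) hN0 hK
  set M : ℝ := (infEn N K).toReal with hM
  have hM0 : 0 < M := ENNReal.toReal_pos hI0 hI
  have hpot' : ∀ x, pot N μ x ≤ ENNReal.ofReal M := fun x => by
    rw [hM, ENNReal.ofReal_toReal hI]
    exact hpot x
  have h1d : 0 < 1 - d := by linarith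
  set b : ℝ := (M / (1 - d)) ^ (2 / N) with hb
  have hb0 : 0 < b := by positivity
  set r : ℝ := (1 + d) ^ (-1 / N) with hr
  have hr0 : 0 < r := by positivity
  have hr1 : r ≤ 1 := by
    rw [hr]
    apply Real.rpow_le_one_of_one_le_of_nonpos (by linarith)
    rw [neg_div]
    have : 0 < 1 / N := by positivity
    linarith
  refine iSup_le fun μ'' => iSup_le fun hμ'' => ?_
  have hμ' := b22b_pk hr0 hμ''
  set μ' := μ''.map (fun x => r • x) with hμ'def
  set R : ℝ := b * (Metric.diam K) ^ 2 + (2 * (1 - d) ^ (-1 / N)) ^ 2 + 4 with hR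
  have hRK : ∀ x ∈ K, ∀ y ∈ K, b * ‖x - y‖ ^ 2 ≤ R := by
    intro x hx y hy
    have h1 : ‖x - y‖ ≤ Metric.diam K := by
      rw [← dist_eq_norm]
      exact Metric.dist_le_diam_of_mem hK.isBounded hx hy
    have h2 : b * ‖x - y‖ ^ 2 ≤ b * (Metric.diam K) ^ 2 := by gcongr
    have h3 := sq_nonneg (2 * (1 - d) ^ (-1 / N))
    rw [hR]
    linarith
  have hR2 : (2 * (1 - d) ^ (-1 / N)) ^ 2 ≤ R := by
    have : 0 ≤ b * (Metric.diam K) ^ 2 := by positivity
    rw [hR]
    linarith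
  have hRB : ∀ x ∈ Metric.closedBall (0 : E n) r, ∀ y ∈ Metric.closedBall (0 : E n) r,
      1 * ‖x - y‖ ^ 2 ≤ R := by
    intro x hx y hy
    rw [Metric.mem_closedBall, dist_zero_right] at hx hy
    have h1 : ‖x - y‖ ≤ 2 := by
      have := norm_sub_le x y
      linarith
    have h2 : ‖x - y‖ ^ 2 ≤ 2 ^ 2 := by gcongr
    have h3 := sq_nonneg (2 * (1 - d) ^ (-1 / N))
    have : 0 ≤ b * (Metric.diam K) ^ 2 := by positivity
    rw [hR, one_mul]
    linarith
  have hA := energy_gp0 hn hp (by linarith : p ≤ (n : ℝ) - 2) hd hd1 hK hPK hM0 hpot' (R := R)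
    hRK hR2
  have hB := ball_gp0 hn hp (by linarith : p ≤ (n : ℝ) - 2) hd hd1 hμ' (R := R) hR2
  have hAB := hA.trans hB
  have e1 := b22b_split hp2 hPK hb0.le hRK
  have e2 := b22b_split hp2 hμ' zero_le_one hRB
  simp only [one_mul] at e2
  rw [Real.one_rpow] at e2
  have hfin : (∫⁻ x, ∫⁻ y, gp0 p R (‖x - y‖ ^ 2) ∂μ' ∂μ') ≠ ⊤ := by
    intro h
    rw [h, top_add] at e2
    exact ENNReal.ofReal_ne_top e2.symm
  have e3 : ENNReal.ofReal (1 / (-p)) * en p μ' ≤ ENNReal.ofReal (b ^ (-p / 2) / (-p)) * en p μ := by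
    have h1 : (∫⁻ x, ∫⁻ y, gp0 p R (‖x - y‖ ^ 2) ∂μ' ∂μ') + ENNReal.ofReal (1 / (-p)) * en p μ' ≤
        (∫⁻ x, ∫⁻ y, gp0 p R (‖x - y‖ ^ 2) ∂μ' ∂μ') +
          ENNReal.ofReal (b ^ (-p / 2) / (-p)) * en p μ := by
      rw [e2, ← e1]
      gcongr
    exact (ENNReal.add_le_add_iff_left hfin).mp h1
  have hp0 : 0 < -p := by linarith
  have e4 : en p μ'' = ENNReal.ofReal (r ^ p * (-p)) * (ENNReal.ofReal (1 / (-p)) * en p μ') := by
    rw [hμ'def, b22b_scale hp2 hr0, ← mul_assoc, ← mul_assoc,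
      ← ENNReal.ofReal_mul (by positivity), ← ENNReal.ofReal_mul (by positivity)]
    have : r ^ p * (-p) * (1 / (-p)) * r ^ (-p) = 1 := by
      rw [Real.rpow_neg hr0.le]
      have h1 : r ^ p ≠ 0 := (Real.rpow_pos_of_pos hr0 p).ne'
      rw [mul_assoc (r ^ p), mul_one_div_cancel hp0.ne', mul_one, mul_inv_cancel₀ h1]
    rw [this, ENNReal.ofReal_one, one_mul]
  have e5 : en p μ ≤ supEn p K := le_iSup_of_le μ (le_iSup_of_le hPK le_rfl)
  calc en p μ'' = ENNReal.ofReal (r ^ p * (-p)) * (ENNReal.ofReal (1 / (-p)) * en p μ') := e4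
    _ ≤ ENNReal.ofReal (r ^ p * (-p)) * (ENNReal.ofReal (b ^ (-p / 2) / (-p)) * supEn p K) :=
        mul_le_mul' le_rfl (e3.trans (mul_le_mul' le_rfl e5))
    _ = ENNReal.ofReal ((1 + d) ^ (-p / N) * (M / (1 - d)) ^ (-p / N)) * supEn p K := by
        rw [← mul_assoc, ← ENNReal.ofReal_mul (by positivity)]
        congr 2
        rw [hr, hb, ← Real.rpow_mul (by linarith), ← Real.rpow_mul (by positivity)]
        have h1 : -1 / N * p = -p / N := by ring
        have h2 : 2 / N * (-p / 2) = -p / N := by ring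
        rw [h1, h2, mul_assoc, mul_div_cancel₀ _ hp0.ne']

theorem cmp_neg {n : ℕ} (hn : 3 ≤ n) {p : ℝ} (hp : -2 < p) (hp2 : p < 0)
    {K : Set (E n)} (hK : IsCompact K) (hI : infEn ((n : ℝ) - 2) K ≠ ⊤) :
    supEn p (Metric.closedBall (0 : E n) 1) ≤
      infEn ((n : ℝ) - 2) K ^ (-p / ((n : ℝ) - 2)) * supEn p K := by
  have hn' : (3 : ℝ) ≤ n := by exact_mod_cast hn
  have hN0 : 0 < (n : ℝ) - 2 := by linarith
  have hI0 := infEn_pos (n := n) hN0 hK
  have hM0 : 0 < (infEn ((n : ℝ) - 2) K).toReal := ENNReal.toReal_pos hI0 hI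
  set M : ℝ := (infEn ((n : ℝ) - 2) K).toReal with hM
  have hα : 0 < -p / ((n : ℝ) - 2) := div_pos (by linarith) hN0
  set α : ℝ := -p / ((n : ℝ) - 2) with hαdef
  have h1 : Tendsto (fun d : ℝ => ENNReal.ofReal ((1 + d) ^ α * (M / (1 - d)) ^ α) * supEn p K)
      (𝓝[>] 0) (𝓝 (ENNReal.ofReal ((1 + 0) ^ α * (M / (1 - 0)) ^ α) * supEn p K)) := by
    apply ENNReal.Tendsto.mul_const
    · apply ENNReal.tendsto_ofReal
      apply tendsto_nhdsWithin_of_tendsto_nhds
      have h2 : ContinuousAt (fun d : ℝ => (1 + d) ^ α * (M / (1 - d)) ^ α) 0 := by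
        apply ContinuousAt.mul
        · apply ContinuousAt.rpow_const (by fun_prop)
          left
          norm_num
        · apply ContinuousAt.rpow_const
          · apply ContinuousAt.div (by fun_prop) (by fun_prop)
            norm_num
          · left
            simp [hM0.ne']
      exact h2
    · left
      rw [Ne, ENNReal.ofReal_eq_zero, not_le]
      simp only [add_zero, sub_zero, div_one, Real.one_rpow, one_mul]
      positivity
  have h3 : infEn ((n : ℝ) - 2) K ^ α = ENNReal.ofReal ((1 + 0) ^ α * (M / (1 - 0)) ^ α) := by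
    simp only [add_zero, sub_zero, div_one, Real.one_rpow, one_mul]
    rw [← ENNReal.ofReal_rpow_of_pos hM0, hM, ENNReal.ofReal_toReal hI]
  rw [h3]
  refine ge_of_tendsto h1 ?_
  have h4 : ∀ᶠ d : ℝ in 𝓝[>] 0, d ∈ Ioo (0 : ℝ) 1 := Ioo_mem_nhdsGT one_pos
  filter_upwards [h4] with d hd
  exact b22b_d hn hp hp2 hK hI hd.1 hd.2

end Pool.Agent.Lib.MP_6cd19d_an.ND
end
end

section

section

/-!
# B21: the ball

`ball_gp` (`e > 0`): `μ'` a probability measure on `closedBall 0 r`, `r = (1+d)^(-1/(n-2))`; `g = gp p e R`,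
`V = VB n d g`. By `mixture_pd` (with `gp_mixture`: `gp p e R ρ = gp p e R 0 - (1/2) ∫_0^ρ ...`) for `μ'` and `mB`:
`I(μ',μ') + I(mB,mB) ≥ 2 I(μ',mB) = 2 ∫ V dμ'`. Let `c = V` at points of norm `r`. By `VB_antitone`: `V ≥ c` on
`closedBall 0 r` and `V ≤ c` on the support of `mB` (norm `≥ r`, `mB_shell`). So
`I(μ',μ') ≥ 2 c - I(mB,mB)` and `I(mB,mB) = ∫ V dmB ≤ c`: `I(μ',μ') ≥ I(mB,mB)`.
`ball_gp0`: `e → 0` : `ofReal (gp p e R ρ)` increases to `gp0 p R ρ`; on the left Fatou, on the right `gp_le_gp0`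
(all squared distances are `≤ R`).
`newton_mB`: with `g = gp (n-2) e R`: `V x ≤ V 0`, so `I(mB,mB) ≤ V 0 = ∫ g (‖y‖^2) dmB`; `e → 0` as before, and
`gp0_of_pos` : `en (n-2) mB ≤ ∫⁻ (ofReal ‖y‖)^(-(n-2)) dmB ≤ 1 + d` (`mB_shell`: `‖y‖^(2-n) ≤ 1 + d`).
`infEn_ball`: the image of `mB` under `z ↦ (1-d)^(1/(n-2)) • z` is a probability measure on the closed unit ball,
with energy `(1-d)⁻¹ * en (n-2) mB ≤ (1+d)/(1-d)`; `d → 0`.
-/

set_option autoImplicit false

open MeasureTheory Set Filter Topology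
open scoped ENNReal ContDiff

namespace Pool.Agent.Lib.MP_6cd19d_an.ND

private theorem b21_edist_rpow {n : ℕ} {p R : ℝ} (hp : 0 < p) (hR : 0 < R) {x y : E n}
    (hxy : ‖x - y‖ ^ 2 ≤ R) :
    (edist x y) ^ (-p) * ENNReal.ofReal (1 / p) =
      gp0 p R (‖x - y‖ ^ 2) + ENNReal.ofReal (R ^ (-p / 2) / p) := by
  rcases eq_or_ne x y with h | h
  · subst h
    rw [sub_self, norm_zero, zero_pow two_ne_zero, gp0_top hp.le hR, edist_self,
      ENNReal.zero_rpow_of_neg (by linarith), top_add, ENNReal.top_mul]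
    rw [Ne, ENNReal.ofReal_eq_zero, not_le]
    positivity
  · have h1 : 0 < ‖x - y‖ := norm_pos_iff.2 (sub_ne_zero.2 h)
    have h2 : 0 < ‖x - y‖ ^ 2 := by positivity
    rw [gp0_of_pos hp h2 hxy, edist_dist, dist_eq_norm, ENNReal.ofReal_rpow_of_pos h1,
      ← ENNReal.ofReal_mul (by positivity)]
    congr 1
    have h3 : (‖x - y‖ ^ 2) ^ (-p / 2) = ‖x - y‖ ^ (-p) := by
      rw [← Real.rpow_natCast ‖x - y‖ 2, ← Real.rpow_mul h1.le]
      congr 1
      push_cast
      ring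
    rw [h3]
    ring

theorem newton_mB {n : ℕ} (hn : 3 ≤ n) {d : ℝ} (hd : 0 < d) (hd1 : d < 1) :
    en ((n : ℝ) - 2) (mB n d) ≤ ENNReal.ofReal (1 + d) := by
  have hn3 : (3 : ℝ) ≤ n := by exact_mod_cast hn
  set p : ℝ := (n : ℝ) - 2 with hp
  have hp1 : 1 ≤ p := by rw [hp]; linarith
  have hp0 : 0 < p := by linarith
  have : IsProbabilityMeasure (mB n d) := ⟨mB_univ hn hd hd1⟩
  set r : ℝ := (1 + d) ^ (-1 / p) with hr
  set ρ : ℝ := (1 - d) ^ (-1 / p) with hρ
  have hr0 : 0 < r := Real.rpow_pos_of_pos (by linarith) _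
  have hρ0 : 0 < ρ := Real.rpow_pos_of_pos (by linarith) _
  have hae : ∀ᵐ z ∂(mB n d), r ≤ ‖z‖ ∧ ‖z‖ ≤ ρ := by
    rw [ae_iff]
    exact mB_shell hn hd hd1
  set R : ℝ := (2 * ρ) ^ 2 with hRdef
  have hR0 : 0 < R := by positivity
  have hsub : ∀ x y : E n, ‖x‖ ≤ ρ → ‖y‖ ≤ ρ → ‖x - y‖ ^ 2 ≤ R := by
    intro x y hx hy
    have h1 := norm_sub_le x y
    exact pow_le_pow_left₀ (norm_nonneg _) (by linarith) 2
  -- continuity of the regularised kernel
  have hcont : ∀ e : ℝ, 0 < e → ∀ x : E n, Continuous fun y : E n => gp p e R (‖x - y‖ ^ 2) := by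
    intro e he x
    have hg := goodG_gp (n := n) (p := p) he hR0 le_rfl
    have h1 : ContinuousOn (gp p e R) (Ioi (-e ^ 2)) := hg.smooth.continuousOn
    have h2 : Continuous fun y : E n => ‖x - y‖ ^ 2 := by fun_prop
    refine h1.comp_continuous h2 fun y => ?_
    have h3 : 0 ≤ ‖x - y‖ ^ 2 := sq_nonneg _
    have h4 : 0 < e ^ 2 := by positivity
    simp only [mem_Ioi]
    linarith
  have hint : ∀ e : ℝ, 0 < e → ∀ x : E n, ‖x‖ ≤ ρ →
      Integrable (fun y : E n => gp p e R (‖x - y‖ ^ 2)) (mB n d) := by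
    intro e he x hx
    refine Integrable.of_bound (hcont e he x).aestronglyMeasurable (gp p e R 0) ?_
    filter_upwards [hae] with y hy
    rw [Real.norm_eq_abs, abs_of_nonneg (gp_nonneg he (sq_nonneg _) (hsub x y hx hy.2))]
    exact gp_le_zero he (sq_nonneg _)
  have hlint : ∀ e : ℝ, 0 < e → ∀ x : E n, ‖x‖ ≤ ρ →
      ∫⁻ y, ENNReal.ofReal (gp p e R (‖x - y‖ ^ 2)) ∂(mB n d) =
        ENNReal.ofReal (∫ y, gp p e R (‖x - y‖ ^ 2) ∂(mB n d)) := by
    intro e he x hx
    rw [ofReal_integral_eq_lintegral_ofReal (hint e he x hx)]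
    filter_upwards [hae] with y hy
    exact gp_nonneg he (sq_nonneg _) (hsub x y hx hy.2)
  set W0 : ℝ≥0∞ := ∫⁻ y, gp0 p R (‖(0 : E n) - y‖ ^ 2) ∂(mB n d) with hW0
  have hstep : ∀ e : ℝ, 0 < e → ∀ x : E n, ‖x‖ ≤ ρ →
      ∫⁻ y, ENNReal.ofReal (gp p e R (‖x - y‖ ^ 2)) ∂(mB n d) ≤ W0 := by
    intro e he x hx
    have hg := goodG_gp (n := n) (p := p) he hR0 le_rfl
    have h0 : ‖(0 : E n)‖ ≤ ‖x‖ := by
      rw [norm_zero]
      exact norm_nonneg x
    have h1 := VB_antitone hn hd hd1 hg h0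
    unfold VB at h1
    calc ∫⁻ y, ENNReal.ofReal (gp p e R (‖x - y‖ ^ 2)) ∂(mB n d)
        = ENNReal.ofReal (∫ y, gp p e R (‖x - y‖ ^ 2) ∂(mB n d)) := hlint e he x hx
      _ ≤ ENNReal.ofReal (∫ y, gp p e R (‖(0 : E n) - y‖ ^ 2) ∂(mB n d)) :=
          ENNReal.ofReal_le_ofReal h1
      _ = ∫⁻ y, ENNReal.ofReal (gp p e R (‖(0 : E n) - y‖ ^ 2)) ∂(mB n d) :=
          (hlint e he 0 (by rw [norm_zero]; exact hρ0.le)).symm
      _ ≤ W0 := by
          refine lintegral_mono_ae ?_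
          filter_upwards [hae] with y hy
          exact gp_le_gp0 (by linarith) he (sq_nonneg _)
            (hsub 0 y (by rw [norm_zero]; exact hρ0.le) hy.2)
  -- Fatou
  have hF : ∀ x : E n, ‖x‖ ≤ ρ → ∫⁻ y, gp0 p R (‖x - y‖ ^ 2) ∂(mB n d) ≤ W0 := by
    intro x hx
    have hseq : ∀ k : ℕ, (0 : ℝ) < 1 / ((k : ℝ) + 1) := fun k => by positivity
    have htend : Tendsto (fun k : ℕ => 1 / ((k : ℝ) + 1)) atTop (𝓝[>] 0) := by
      rw [tendsto_nhdsWithin_iff]
      exact ⟨tendsto_one_div_add_atTop_nhds_zero_nat, Eventually.of_forall hseq⟩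
    calc ∫⁻ y, gp0 p R (‖x - y‖ ^ 2) ∂(mB n d)
        ≤ ∫⁻ y, liminf (fun k : ℕ => ENNReal.ofReal
            (gp p (1 / ((k : ℝ) + 1)) R (‖x - y‖ ^ 2))) atTop ∂(mB n d) := by
          refine lintegral_mono_ae ?_
          filter_upwards [hae] with y hy
          have h1 := (gp_tendsto (p := p) (R := R) (ρ := ‖x - y‖ ^ 2) (by linarith)
            (sq_nonneg _) (hsub x y hx hy.2)).comp htend
          exact (h1.liminf_eq).ge
      _ ≤ liminf (fun k : ℕ => ∫⁻ y, ENNReal.ofReal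
            (gp p (1 / ((k : ℝ) + 1)) R (‖x - y‖ ^ 2)) ∂(mB n d)) atTop :=
          lintegral_liminf_le fun k =>
            ENNReal.measurable_ofReal.comp (hcont _ (hseq k) x).measurable
      _ ≤ liminf (fun _ : ℕ => W0) atTop :=
          liminf_le_liminf (Eventually.of_forall fun k => hstep _ (hseq k) x hx)
      _ = W0 := by simp
  -- the right-hand side
  have hmeas0 : ∀ x : E n, Measurable fun y : E n => gp0 p R (‖x - y‖ ^ 2) := by
    intro x
    have h2 : Measurable fun y : E n => ‖x - y‖ ^ 2 := by fun_prop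
    exact (gp0_measurable p R).comp h2
  have hW : W0 + ENNReal.ofReal (R ^ (-p / 2) / p) ≤ ENNReal.ofReal ((1 + d) / p) := by
    calc W0 + ENNReal.ofReal (R ^ (-p / 2) / p)
        = ∫⁻ y, (gp0 p R (‖(0 : E n) - y‖ ^ 2) + ENNReal.ofReal (R ^ (-p / 2) / p))
            ∂(mB n d) := by
          rw [lintegral_add_left (hmeas0 0), lintegral_const, measure_univ, mul_one]
      _ ≤ ∫⁻ _y, ENNReal.ofReal ((1 + d) / p) ∂(mB n d) := by
          refine lintegral_mono_ae ?_
          filter_upwards [hae] with y hy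
          have hy0 : 0 < ‖y‖ := lt_of_lt_of_le hr0 hy.1
          have h1 : ‖(0 : E n) - y‖ = ‖y‖ := by rw [zero_sub, norm_neg]
          rw [h1, gp0_of_pos hp0 (by positivity)
            (by have := hsub 0 y (by rw [norm_zero]; exact hρ0.le) hy.2; rwa [h1] at this)]
          refine ENNReal.ofReal_le_ofReal ?_
          refine div_le_div_of_nonneg_right ?_ hp0.le
          have h3 : (‖y‖ ^ 2) ^ (-p / 2) = ‖y‖ ^ (-p) := by
            rw [← Real.rpow_natCast ‖y‖ 2, ← Real.rpow_mul hy0.le]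
            congr 1
            push_cast
            ring
          rw [h3]
          calc ‖y‖ ^ (-p) ≤ r ^ (-p) := Real.rpow_le_rpow_of_nonpos hr0 hy.1 (by linarith)
            _ = 1 + d := by
                rw [hr, ← Real.rpow_mul (by linarith)]
                have : -1 / p * -p = 1 := by field_simp
                rw [this, Real.rpow_one]
      _ = ENNReal.ofReal ((1 + d) / p) := by rw [lintegral_const, measure_univ, mul_one]
  have hpot : ∀ x : E n, ‖x‖ ≤ ρ →
      ∫⁻ y, (edist x y) ^ (-p) ∂(mB n d) ≤ ENNReal.ofReal (1 + d) := by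
    intro x hx
    have h1 : (∫⁻ y, (edist x y) ^ (-p) ∂(mB n d)) * ENNReal.ofReal (1 / p) ≤
        ENNReal.ofReal (1 + d) * ENNReal.ofReal (1 / p) := by
      calc (∫⁻ y, (edist x y) ^ (-p) ∂(mB n d)) * ENNReal.ofReal (1 / p)
          = ∫⁻ y, (edist x y) ^ (-p) * ENNReal.ofReal (1 / p) ∂(mB n d) := by
            rw [lintegral_mul_const' _ _ ENNReal.ofReal_ne_top]
        _ = ∫⁻ y, (gp0 p R (‖x - y‖ ^ 2) + ENNReal.ofReal (R ^ (-p / 2) / p)) ∂(mB n d) := by
            refine lintegral_congr_ae ?_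
            filter_upwards [hae] with y hy
            exact b21_edist_rpow hp0 hR0 (hsub x y hx hy.2)
        _ = ∫⁻ y, gp0 p R (‖x - y‖ ^ 2) ∂(mB n d) + ENNReal.ofReal (R ^ (-p / 2) / p) := by
            rw [lintegral_add_left (hmeas0 x), lintegral_const, measure_univ, mul_one]
        _ ≤ W0 + ENNReal.ofReal (R ^ (-p / 2) / p) := by
            gcongr
            exact hF x hx
        _ ≤ ENNReal.ofReal ((1 + d) / p) := hW
        _ = ENNReal.ofReal (1 + d) * ENNReal.ofReal (1 / p) := by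
            rw [← ENNReal.ofReal_mul (by linarith)]
            congr 1
            ring
    have h2 : ENNReal.ofReal (1 / p) ≠ 0 := by
      rw [Ne, ENNReal.ofReal_eq_zero, not_le]
      positivity
    exact (ENNReal.mul_le_mul_iff_left h2 ENNReal.ofReal_ne_top).1 h1
  unfold en
  calc ∫⁻ x, ∫⁻ y, (edist x y) ^ (-p) ∂(mB n d) ∂(mB n d)
      ≤ ∫⁻ _x, ENNReal.ofReal (1 + d) ∂(mB n d) := by
        refine lintegral_mono_ae ?_
        filter_upwards [hae] with x hx
        exact hpot x hx.2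
    _ = ENNReal.ofReal (1 + d) := by rw [lintegral_const, measure_univ, mul_one]

theorem infEn_ball {n : ℕ} (hn : 3 ≤ n) :
    infEn ((n : ℝ) - 2) (Metric.closedBall (0 : E n) 1) ≤ 1 := by
  have hn3 : (3 : ℝ) ≤ n := by exact_mod_cast hn
  have key : ∀ d : ℝ, 0 < d → d < 1 →
      infEn ((n : ℝ) - 2) (Metric.closedBall (0 : E n) 1) ≤
        ENNReal.ofReal ((1 + d) / (1 - d)) := by
    intro d hd hd1
    have hnewt := newton_mB hn hd hd1
    have hshell := mB_shell hn hd hd1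
    have huniv := mB_univ hn hd hd1
    set p : ℝ := (n : ℝ) - 2 with hp
    have hp0 : 0 < p := by rw [hp]; linarith
    set t : ℝ := (1 - d) ^ (1 / p) with ht
    have ht0 : 0 < t := Real.rpow_pos_of_pos (by linarith) _
    have hemb : MeasurableEmbedding (fun z : E n => t • z) :=
      (Homeomorph.smulOfNeZero t ht0.ne').measurableEmbedding
    have hPK : PK (Metric.closedBall (0 : E n) 1) ((mB n d).map fun z => t • z) := by
      refine ⟨?_, ?_⟩
      · rw [hemb.map_apply, preimage_univ, huniv]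
      · rw [hemb.map_apply]
        refine measure_mono_null ?_ hshell
        intro z hz hz'
        apply hz
        simp only [Metric.mem_closedBall, dist_zero_right]
        rw [norm_smul, Real.norm_eq_abs, abs_of_pos ht0]
        calc t * ‖z‖ ≤ t * (1 - d) ^ (-1 / p) := by gcongr; exact hz'.2
          _ = 1 := by
              rw [ht, ← Real.rpow_add (by linarith)]
              have : 1 / p + -1 / p = 0 := by ring
              rw [this, Real.rpow_zero]
    have hen : en p ((mB n d).map fun z => t • z) =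
        ENNReal.ofReal (1 / (1 - d)) * en p (mB n d) := by
      unfold en
      rw [hemb.lintegral_map]
      have h1 : ∀ x : E n, ∫⁻ y, (edist (t • x) y) ^ (-p) ∂((mB n d).map fun z => t • z) =
          ENNReal.ofReal (1 / (1 - d)) * ∫⁻ y, (edist x y) ^ (-p) ∂(mB n d) := by
        intro x
        rw [hemb.lintegral_map, ← lintegral_const_mul' _ _ ENNReal.ofReal_ne_top]
        refine lintegral_congr fun y => ?_
        have h2 : edist (t • x) (t • y) = ENNReal.ofReal t * edist x y := by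
          rw [edist_dist, edist_dist, dist_smul₀, Real.norm_eq_abs, abs_of_pos ht0,
            ENNReal.ofReal_mul ht0.le]
        rw [h2, ENNReal.mul_rpow_of_ne_top ENNReal.ofReal_ne_top (edist_ne_top x y),
          ENNReal.ofReal_rpow_of_pos ht0]
        congr 2
        rw [ht, ← Real.rpow_mul (by linarith)]
        have : 1 / p * -p = -1 := by field_simp
        rw [this, Real.rpow_neg_one, one_div]
      simp only [h1]
      rw [lintegral_const_mul' _ _ ENNReal.ofReal_ne_top]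
    calc infEn p (Metric.closedBall (0 : E n) 1) ≤ en p ((mB n d).map fun z => t • z) := by
          unfold infEn
          exact iInf₂_le (f := fun (μ : Measure (E n))
            (_ : PK (Metric.closedBall (0 : E n) 1) μ) => en p μ) _ hPK
      _ = ENNReal.ofReal (1 / (1 - d)) * en p (mB n d) := hen
      _ ≤ ENNReal.ofReal (1 / (1 - d)) * ENNReal.ofReal (1 + d) := by gcongr
      _ = ENNReal.ofReal ((1 + d) / (1 - d)) := by
          have : 0 < 1 - d := by linarith
          rw [← ENNReal.ofReal_mul (by positivity)]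
          congr 1
          ring
  have hlim : Tendsto (fun d : ℝ => ENNReal.ofReal ((1 + d) / (1 - d))) (𝓝[>] 0) (𝓝 1) := by
    have h1 : Tendsto (fun d : ℝ => (1 + d) / (1 - d)) (𝓝 0) (𝓝 ((1 + 0) / (1 - 0))) := by
      refine Tendsto.div ?_ ?_ (by norm_num)
      · exact tendsto_const_nhds.add tendsto_id
      · exact tendsto_const_nhds.sub tendsto_id
    have h2 := (ENNReal.tendsto_ofReal h1).mono_left (nhdsWithin_le_nhds (s := Ioi 0))
    simpa using h2
  refine ge_of_tendsto hlim ?_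
  have h1 : ∀ᶠ d in 𝓝[>] (0 : ℝ), d ∈ Ioo (0 : ℝ) 1 := Ioo_mem_nhdsGT (by norm_num)
  filter_upwards [h1] with d hd
  exact key d hd.1 hd.2

end Pool.Agent.Lib.MP_6cd19d_an.ND
end

section

/-!
# B22: comparison of energies, `-2 < p < n - 2`

`K` compact with `I = infEn (n-2) K ≠ ⊤`; `I ≠ 0` (`‖x-y‖^(-(n-2)) ≥ diam^(-(n-2)) > 0`, or `⊤`, on bounded `K`);
`μ` from `exists_equilibrium`, `M = I.toReal`. For `0 < d < 1` let `b = (M/(1-d))^(2/(n-2))`,
`r = (1+d)^(-1/(n-2))`. For `μ''` with `PK (closedBall 0 1) μ''`, `μ' = μ''.map (r • ·)` lives on `closedBall 0 r`, so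
(`energy_gp0`, `ball_gp0`) for `R` large
`∬ gp0 p R (b ‖x-y‖^2) dμ dμ ≤ ∬ gp0 p R (r^2 ‖x-y‖^2) dμ'' dμ''`.   (*)
`cmp_pos`: `p > 0`: add `ofReal (R^(-p/2)/p)` on both sides (probability measures) and use `gp0_of_pos`, `gp0_top`
(`(edist x y)^(-p) = ⊤` for `x = y`): `b^(-p/2) en p μ ≤ r^(-p) en p μ''`. So
`infEn p K ≤ (M/(1-d))^(p/(n-2)) (1+d)^(p/(n-2)) en p μ''`; infimum over `μ''`, `d → 0`.
`cmp_neg`: `-2 < p < 0`: add to (*) both `ρ`-terms: `gp0_of_neg` gives
`∬ (r^2 ‖x-y‖^2)^(-p/2) dμ'' dμ'' ≤ ∬ (b ‖x-y‖^2)^(-p/2) dμ dμ` (all finite), i.e.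
`r^(-p) en p μ'' ≤ b^(-p/2) en p μ ≤ b^(-p/2) supEn p K`; supremum over `μ''`, `d → 0`.
`cmp_zero`: `p = 0`: with `D = diam K + 1`, `R` so large that `c1 = log (sqrt (R / b) / D) ≥ 0` and
`c2 = log (sqrt R / (3 r)) ≥ 0` (`diam (closedBall 0 1) + 1 = 3` for `n ≥ 1`): for `x ≠ y`
`gp0 0 R (b ‖x-y‖^2) = ofReal (log (D / dist x y)) + ofReal c1`, and similarly on the ball with `c2`; at `x = y` both
are `⊤`. So `logEn K + ofReal c1 ≤ logEn B + ofReal c2`. If `logEn B ≠ ⊤` this gives `logEn K ≠ ⊤` and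
`(logEn K).toReal - log D - (1/2) log b ≤ (logEn B).toReal - log 3 - log r`, that is
`capf 0 K ≥ capf 0 B * b^(-1/2) * r`; `d → 0`.
-/

set_option autoImplicit false

open MeasureTheory Set Filter Topology
open scoped ENNReal ContDiff

namespace Pool.Agent.Lib.MP_6cd19d_an.ND

private theorem b22c_star {n : ℕ} (hn : 3 ≤ n) {p : ℝ} (hp : -2 < p) (hp2 : p ≤ (n : ℝ) - 2)
    {K : Set (E n)} (hK : IsCompact K) (hI : infEn ((n : ℝ) - 2) K ≠ ⊤) :
    ∃ μ : Measure (E n), PK K μ ∧ ∀ d : ℝ, 0 < d → d < 1 → ∀ R : ℝ,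
      (∀ x ∈ K, ∀ y ∈ K, ((infEn ((n : ℝ) - 2) K).toReal / (1 - d)) ^ (2 / ((n : ℝ) - 2)) *
        ‖x - y‖ ^ 2 ≤ R) → (2 * (1 - d) ^ (-1 / ((n : ℝ) - 2))) ^ 2 ≤ R →
      ∀ μ'' : Measure (E n), PK (Metric.closedBall (0 : E n) 1) μ'' →
        ∫⁻ x, ∫⁻ y, gp0 p R (((infEn ((n : ℝ) - 2) K).toReal / (1 - d)) ^ (2 / ((n : ℝ) - 2)) *
          ‖x - y‖ ^ 2) ∂μ ∂μ ≤
        ∫⁻ x, ∫⁻ y, gp0 p R (((1 + d) ^ (-1 / ((n : ℝ) - 2))) ^ 2 * ‖x - y‖ ^ 2) ∂μ'' ∂μ'' := by
  have hn3 : (3 : ℝ) ≤ n := by exact_mod_cast hn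
  have hs : (0 : ℝ) < (n : ℝ) - 2 := by linarith
  obtain ⟨μ, hPK, -, -, hpot⟩ := exists_equilibrium hs le_rfl hK hI
  have hM : 0 < (infEn ((n : ℝ) - 2) K).toReal := ENNReal.toReal_pos (infEn_pos hs hK) hI
  refine ⟨μ, hPK, fun d hd hd1 R hR hR2 μ'' hμ'' => ?_⟩
  have h1 := energy_gp0 hn hp hp2 hd hd1 hK hPK hM (fun x => by
    rw [ENNReal.ofReal_toReal hI]; exact hpot x) hR hR2
  refine h1.trans ?_
  set r : ℝ := (1 + d) ^ (-1 / ((n : ℝ) - 2)) with hr
  have hr0 : 0 < r := Real.rpow_pos_of_pos (by linarith) _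
  have hm : Measurable (fun x : E n => r • x) := measurable_const_smul r
  have hPK' : PK (Metric.closedBall (0 : E n) r) (μ''.map (fun x : E n => r • x)) := by
    constructor
    · rw [Measure.map_apply hm MeasurableSet.univ, preimage_univ]
      exact hμ''.1
    · rw [Measure.map_apply hm Metric.isClosed_closedBall.measurableSet.compl]
      refine measure_mono_null ?_ hμ''.2
      intro x hx hx'
      refine hx ?_
      rw [Metric.mem_closedBall, dist_zero_right] at hx' ⊢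
      rw [norm_smul, Real.norm_of_nonneg hr0.le]
      nlinarith
  have h2 := ball_gp0 hn hp hp2 hd hd1 hPK' hR2
  refine h2.trans (le_of_eq ?_)
  have hgm : Measurable (gp0 p R) := gp0_measurable p R
  have hF : Measurable (fun q : E n × E n => gp0 p R (‖q.1 - q.2‖ ^ 2)) := by
    refine hgm.comp ?_
    fun_prop
  have : IsProbabilityMeasure μ'' := ⟨hμ''.1⟩
  have : IsProbabilityMeasure (μ''.map (fun x : E n => r • x)) := ⟨hPK'.1⟩
  rw [lintegral_map (hF.lintegral_prod_right') hm]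
  refine lintegral_congr fun x => ?_
  rw [lintegral_map (by
    refine hgm.comp ?_
    fun_prop) hm]
  refine lintegral_congr fun y => ?_
  congr 1
  rw [← smul_sub, norm_smul, Real.norm_of_nonneg hr0.le, mul_pow]

/-- The logarithmic kernel. -/
private theorem b22c_log {n : ℕ} {D R b : ℝ} (hD : 0 < D) (hb : 0 < b) (hR : b * D ^ 2 ≤ R)
    {x y : E n} (hxy : dist x y ≤ D) :
    gp0 0 R (b * ‖x - y‖ ^ 2) = (if x = y then (⊤ : ℝ≥0∞) else
      ENNReal.ofReal (Real.log (D / dist x y))) +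
      ENNReal.ofReal ((1 / 2) * Real.log (R / (b * D ^ 2))) := by
  have hbD : 0 < b * D ^ 2 := by positivity
  have hR0 : 0 < R := lt_of_lt_of_le hbD hR
  by_cases h : x = y
  · subst h
    rw [if_pos rfl, sub_self, norm_zero]
    rw [show b * (0 : ℝ) ^ 2 = 0 by ring, gp0_top le_rfl hR0, top_add]
  · rw [if_neg h, ← dist_eq_norm]
    have hd : 0 < dist x y := dist_pos.2 h
    have h1 : b * dist x y ^ 2 ≤ b * D ^ 2 := by gcongr
    rw [gp0_zero (by positivity) (h1.trans hR)]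
    have h2 : 0 ≤ Real.log (D / dist x y) := Real.log_nonneg (by rw [one_le_div hd]; exact hxy)
    have h3 : 0 ≤ Real.log (R / (b * D ^ 2)) := Real.log_nonneg (by rw [one_le_div hbD]; exact hR)
    rw [← ENNReal.ofReal_add h2 (by positivity)]
    congr 1
    rw [Real.log_div hR0.ne' (by positivity), Real.log_div hR0.ne' hbD.ne',
      Real.log_mul hb.ne' (by positivity), Real.log_mul hb.ne' (by positivity),
      Real.log_div hD.ne' hd.ne', Real.log_pow, Real.log_pow]
    push_cast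
    ring

private theorem b22c_int {n : ℕ} {K : Set (E n)} (hK : IsCompact K) {μ : Measure (E n)}
    (hμ : PK K μ) {R b : ℝ} (hb : 0 < b) (hR : b * (Metric.diam K + 1) ^ 2 ≤ R) :
    ∫⁻ x, ∫⁻ y, gp0 0 R (b * ‖x - y‖ ^ 2) ∂μ ∂μ =
      (∫⁻ x, ∫⁻ y, (if x = y then (⊤ : ℝ≥0∞) else
        ENNReal.ofReal (Real.log ((Metric.diam K + 1) / dist x y))) ∂μ ∂μ) +
      ENNReal.ofReal ((1 / 2) * Real.log (R / (b * (Metric.diam K + 1) ^ 2))) := by
  have hD : 0 < Metric.diam K + 1 := by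
    have := Metric.diam_nonneg (s := K)
    linarith
  have hae : ∀ᵐ x ∂μ, x ∈ K := hμ.2
  set c : ℝ≥0∞ := ENNReal.ofReal ((1 / 2) * Real.log (R / (b * (Metric.diam K + 1) ^ 2)))
  have h1 : ∀ᵐ x ∂μ, (∫⁻ y, gp0 0 R (b * ‖x - y‖ ^ 2) ∂μ) =
      (∫⁻ y, (if x = y then (⊤ : ℝ≥0∞) else
        ENNReal.ofReal (Real.log ((Metric.diam K + 1) / dist x y))) ∂μ) + c := by
    filter_upwards [hae] with x hx
    have h2 : (∫⁻ y, gp0 0 R (b * ‖x - y‖ ^ 2) ∂μ) =
        ∫⁻ y, ((if x = y then (⊤ : ℝ≥0∞) else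
          ENNReal.ofReal (Real.log ((Metric.diam K + 1) / dist x y))) + c) ∂μ := by
      refine lintegral_congr_ae ?_
      filter_upwards [hae] with y hy
      refine b22c_log hD hb hR ?_
      have := Metric.dist_le_diam_of_mem hK.isBounded hx hy
      linarith
    rw [h2, lintegral_add_right _ measurable_const, lintegral_const, hμ.1, mul_one]
  rw [lintegral_congr_ae h1, lintegral_add_right _ measurable_const, lintegral_const, hμ.1, mul_one]

theorem cmp_zero {n : ℕ} (hn : 3 ≤ n) {K : Set (E n)} (hK : IsCompact K)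
    (hI : infEn ((n : ℝ) - 2) K ≠ ⊤) :
    capf 0 (Metric.closedBall (0 : E n) 1) *
      ((infEn ((n : ℝ) - 2) K).toReal ^ (-1 / ((n : ℝ) - 2))) ≤ capf 0 K := by
  have hn3 : (3 : ℝ) ≤ n := by exact_mod_cast hn
  have hs : (0 : ℝ) < (n : ℝ) - 2 := by linarith
  set s : ℝ := (n : ℝ) - 2 with hs_def
  set M : ℝ := (infEn s K).toReal with hM_def
  have hM : 0 < M := ENNReal.toReal_pos (infEn_pos hs hK) hI
  set B : Set (E n) := Metric.closedBall (0 : E n) 1 with hB
  have hBc : IsCompact B := isCompact_closedBall _ _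
  have hDK : 0 < Metric.diam K + 1 := by
    have := Metric.diam_nonneg (s := K)
    linarith
  have hDB : 0 < Metric.diam B + 1 := by
    have := Metric.diam_nonneg (s := B)
    linarith
  have hcapK : 0 ≤ capf 0 K := by
    rw [capf_zero_def]
    split_ifs
    · exact le_rfl
    · positivity
  by_cases hLB : logEn B = ⊤
  · rw [capf_zero_def B, if_pos hLB, zero_mul]
    exact hcapK
  obtain ⟨μ, hPK, hstar⟩ := b22c_star hn (p := 0) (by norm_num) hs.le hK hI
  have main : ∀ d : ℝ, 0 < d → d < 1 →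
      capf 0 B * ((1 + d) ^ (-1 / s) * (M / (1 - d)) ^ (-1 / s)) ≤ capf 0 K := by
    intro d hd hd1
    have h1d : 0 < 1 - d := by linarith
    set b : ℝ := (M / (1 - d)) ^ (2 / s) with hb_def
    set r : ℝ := (1 + d) ^ (-1 / s) with hr_def
    have hb : 0 < b := Real.rpow_pos_of_pos (by positivity) _
    have hr : 0 < r := Real.rpow_pos_of_pos (by linarith) _
    obtain ⟨R, hR1, hR2, hR3⟩ : ∃ R : ℝ, b * (Metric.diam K + 1) ^ 2 ≤ R ∧
        r ^ 2 * (Metric.diam B + 1) ^ 2 ≤ R ∧ (2 * (1 - d) ^ (-1 / s)) ^ 2 ≤ R :=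
      ⟨max (b * (Metric.diam K + 1) ^ 2) (max (r ^ 2 * (Metric.diam B + 1) ^ 2)
        ((2 * (1 - d) ^ (-1 / s)) ^ 2)), le_max_left _ _,
        (le_max_left _ _).trans (le_max_right _ _), (le_max_right _ _).trans (le_max_right _ _)⟩
    have hR0 : 0 < R := lt_of_lt_of_le (by positivity) hR1
    have hRK : ∀ x ∈ K, ∀ y ∈ K, b * ‖x - y‖ ^ 2 ≤ R := by
      intro x hx y hy
      refine le_trans ?_ hR1
      rw [← dist_eq_norm]
      have h1 := Metric.dist_le_diam_of_mem hK.isBounded hx hy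
      have h2 : dist x y ≤ Metric.diam K + 1 := by linarith
      gcongr
    have key : ∀ μ'' : Measure (E n), PK B μ'' →
        logEn K + ENNReal.ofReal ((1 / 2) * Real.log (R / (b * (Metric.diam K + 1) ^ 2))) ≤
        (∫⁻ x, ∫⁻ y, (if x = y then (⊤ : ℝ≥0∞) else
          ENNReal.ofReal (Real.log ((Metric.diam B + 1) / dist x y))) ∂μ'' ∂μ'') +
        ENNReal.ofReal ((1 / 2) * Real.log (R / (r ^ 2 * (Metric.diam B + 1) ^ 2))) := by
      intro μ'' hμ''
      have h1 := hstar d hd hd1 R hRK hR3 μ'' hμ''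
      rw [b22c_int hK hPK hb hR1, b22c_int hBc hμ'' (by positivity) hR2] at h1
      have h2 : logEn K ≤ ∫⁻ x, ∫⁻ y, (if x = y then (⊤ : ℝ≥0∞) else
          ENNReal.ofReal (Real.log ((Metric.diam K + 1) / dist x y))) ∂μ ∂μ := by
        unfold logEn
        exact iInf_le_of_le μ (iInf_le_of_le hPK le_rfl)
      exact (add_le_add h2 le_rfl).trans h1
    have key2 : logEn K + ENNReal.ofReal ((1 / 2) * Real.log (R / (b * (Metric.diam K + 1) ^ 2))) ≤
        logEn B + ENNReal.ofReal ((1 / 2) * Real.log (R / (r ^ 2 * (Metric.diam B + 1) ^ 2))) := by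
      generalize logEn K + ENNReal.ofReal
        ((1 / 2) * Real.log (R / (b * (Metric.diam K + 1) ^ 2))) = Z at key ⊢
      unfold logEn
      rw [ENNReal.iInf_add]
      refine le_iInf fun μ'' => ?_
      rw [ENNReal.iInf_add]
      exact le_iInf fun h => key μ'' h
    set c1 : ℝ := (1 / 2) * Real.log (R / (b * (Metric.diam K + 1) ^ 2)) with hc1
    set c2 : ℝ := (1 / 2) * Real.log (R / (r ^ 2 * (Metric.diam B + 1) ^ 2)) with hc2
    have hc1' : 0 ≤ c1 := by
      have : 0 ≤ Real.log (R / (b * (Metric.diam K + 1) ^ 2)) :=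
        Real.log_nonneg (by rw [one_le_div (by positivity)]; exact hR1)
      positivity
    have hc2' : 0 ≤ c2 := by
      have : 0 ≤ Real.log (R / (r ^ 2 * (Metric.diam B + 1) ^ 2)) :=
        Real.log_nonneg (by rw [one_le_div (by positivity)]; exact hR2)
      positivity
    have hfin : logEn B + ENNReal.ofReal c2 ≠ ⊤ := ENNReal.add_ne_top.2 ⟨hLB, ENNReal.ofReal_ne_top⟩
    have hLK : logEn K ≠ ⊤ := by
      intro h
      rw [h, top_add] at key2
      exact hfin (top_le_iff.1 key2)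
    have key3 := ENNReal.toReal_mono hfin key2
    rw [ENNReal.toReal_add hLK ENNReal.ofReal_ne_top, ENNReal.toReal_add hLB ENNReal.ofReal_ne_top,
      ENNReal.toReal_ofReal hc1', ENNReal.toReal_ofReal hc2'] at key3
    rw [capf_zero_def K, capf_zero_def B, if_neg hLK, if_neg hLB]
    have hsb : (M / (1 - d)) ^ (-1 / s) = Real.exp (-((1 / 2) * Real.log b)) := by
      rw [hb_def, Real.log_rpow (by positivity), Real.rpow_def_of_pos (by positivity)]
      congr 1
      ring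
    have e1 : c2 - c1 = (1 / 2) * Real.log b + Real.log (Metric.diam K + 1) - Real.log r -
        Real.log (Metric.diam B + 1) := by
      rw [hc1, hc2, Real.log_div hR0.ne' (by positivity), Real.log_div hR0.ne' (by positivity),
        Real.log_mul hb.ne' (by positivity), Real.log_mul (by positivity) (by positivity),
        Real.log_pow, Real.log_pow, Real.log_pow]
      push_cast
      ring
    rw [hsb]
    have e2 : (Metric.diam B + 1) * Real.exp (-(logEn B).toReal) *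
        (r * Real.exp (-((1 / 2) * Real.log b))) = Real.exp (Real.log (Metric.diam B + 1) +
          (-(logEn B).toReal) + Real.log r - (1 / 2) * Real.log b) := by
      rw [sub_eq_add_neg, Real.exp_add, Real.exp_add, Real.exp_add, Real.exp_log hDB,
        Real.exp_log hr]
      ring
    have e3 : (Metric.diam K + 1) * Real.exp (-(logEn K).toReal) =
        Real.exp (Real.log (Metric.diam K + 1) + (-(logEn K).toReal)) := by
      rw [Real.exp_add, Real.exp_log hDK]
    rw [e2, e3]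
    refine Real.exp_le_exp.2 ?_
    linarith
  have hlim : Tendsto (fun d : ℝ => capf 0 B * ((1 + d) ^ (-1 / s) * (M / (1 - d)) ^ (-1 / s)))
      (𝓝[>] 0) (𝓝 (capf 0 B * M ^ (-1 / s))) := by
    have h1 : ContinuousAt (fun d : ℝ => capf 0 B * ((1 + d) ^ (-1 / s) *
        (M / (1 - d)) ^ (-1 / s))) 0 := by
      refine continuousAt_const.mul (ContinuousAt.mul ?_ ?_)
      · exact ContinuousAt.rpow_const (by fun_prop) (Or.inl (by norm_num))
      · refine ContinuousAt.rpow_const ?_ (Or.inl (by simpa using hM.ne'))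
        exact continuousAt_const.div (by fun_prop) (by norm_num)
    have h2 := h1.tendsto.mono_left (nhdsWithin_le_nhds (s := Ioi (0 : ℝ)))
    simpa using h2
  refine le_of_tendsto hlim ?_
  filter_upwards [Ioo_mem_nhdsGT (zero_lt_one' ℝ)] with d hd
  exact main d hd.1 hd.2

end Pool.Agent.Lib.MP_6cd19d_an.ND
end

section

/-!
# B24: comparison of capacities, part (B) for `n ≥ 3`

`cap_ge`: if `infEn (n-2) K = ⊤` then `capf (n-2) K = (⊤ ^ (-1/(n-2))).toReal = 0` and the claim is `0 ≤ capf p K`.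
Otherwise `capf (n-2) K = (infEn (n-2) K).toReal ^ (-1/(n-2))` and use `cmp_pos`, `cmp_zero`, `cmp_neg`,
`cmp_le_neg_two` (for `p > 0` raise to the power `-1/p`; `infEn p B ≠ 0` by `infEn_pos`; if `infEn p B = ⊤` then
`capf p B = 0`. For `p < 0` raise to the power `-1/p`, `supEn_lt_top`).
`cap_ball_ge`: `infEn_ball`, `infEn_pos`.
`ratio_B`: for `capf p K > 0`: `capf (n-2) K / capf p K ≤ capf (n-2) B / capf p B`: if `capf p B = 0` then
(`capf p K > 0` ...) note `capf p B > 0` is needed: prove `capf p B > 0` for all `p < n - 2` from `cap_ge` applied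
to `K = B` is not enough; use `cap_ball_pos` below: for `p > 0`: `infEn p B ≤ 2^(n-2-p) infEn (n-2) B < ⊤`
(`(edist x y)^(-p) ≤ 2^(n-2-p) (edist x y)^(-(n-2))` on the unit ball); `p = 0` similarly (`log t ≤ t^(n-2)/(n-2)`); `p < 0`: two
antipodal points (`two_point`).
-/

set_option autoImplicit false

open MeasureTheory Set Filter Topology
open scoped ENNReal ContDiff

namespace Pool.Agent.Lib.MP_6cd19d_an.ND

/-- Almost every pair of points of a probability measure on the unit ball is at distance at most `2`. -/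
private lemma b24_en_le {n : ℕ} {μ : Measure (E n)} (hμ : PK (Metric.closedBall (0 : E n) 1) μ)
    {f g : E n → E n → ℝ≥0∞}
    (h : ∀ x ∈ Metric.closedBall (0 : E n) 1, ∀ y ∈ Metric.closedBall (0 : E n) 1,
      f x y ≤ g x y) :
    ∫⁻ x, ∫⁻ y, f x y ∂μ ∂μ ≤ ∫⁻ x, ∫⁻ y, g x y ∂μ ∂μ := by
  have hae : ∀ᵐ x ∂μ, x ∈ Metric.closedBall (0 : E n) 1 := by
    rw [ae_iff]
    exact hμ.2
  refine lintegral_mono_ae ?_
  filter_upwards [hae] with x hx
  refine lintegral_mono_ae ?_
  filter_upwards [hae] with y hy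
  exact h x hx y hy

private lemma b24_edist_le {n : ℕ} {x y : E n} (hx : x ∈ Metric.closedBall (0 : E n) 1)
    (hy : y ∈ Metric.closedBall (0 : E n) 1) : edist x y ≤ 2 := by
  have h1 : edist x 0 ≤ 1 := by
    rw [edist_dist]
    exact ENNReal.ofReal_le_one.2 (Metric.mem_closedBall.1 hx)
  have h2 : edist y 0 ≤ 1 := by
    rw [edist_dist]
    exact ENNReal.ofReal_le_one.2 (Metric.mem_closedBall.1 hy)
  calc edist x y ≤ edist x 0 + edist 0 y := edist_triangle _ _ _
    _ ≤ 1 + 1 := by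
        rw [edist_comm 0 y]
        exact add_le_add h1 h2
    _ = 2 := one_add_one_eq_two

private lemma b24_exists {n : ℕ} (hn : 3 ≤ n) :
    ∃ μ : Measure (E n), PK (Metric.closedBall (0 : E n) 1) μ ∧ en ((n : ℝ) - 2) μ < 2 := by
  have h : infEn ((n : ℝ) - 2) (Metric.closedBall (0 : E n) 1) < 2 :=
    lt_of_le_of_lt (infEn_ball hn) (by norm_num)
  unfold infEn at h
  simp only [iInf_lt_iff] at h
  obtain ⟨μ, hμ, h⟩ := h
  exact ⟨μ, hμ, h⟩

private lemma b24_n {n : ℕ} (hn : 3 ≤ n) : (1 : ℝ) ≤ (n : ℝ) - 2 := by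
  have : (3 : ℝ) ≤ (n : ℝ) := by exact_mod_cast hn
  linarith

theorem cap_ball_ge {n : ℕ} (hn : 3 ≤ n) :
    1 ≤ capf ((n : ℝ) - 2) (Metric.closedBall (0 : E n) 1) := by
  have hn2 := b24_n hn
  have hpos : (0 : ℝ) < (n : ℝ) - 2 := by linarith
  rw [capf_pos_def hpos]
  have h1 : infEn ((n : ℝ) - 2) (Metric.closedBall (0 : E n) 1) ≤ 1 := infEn_ball hn
  have h0 : infEn ((n : ℝ) - 2) (Metric.closedBall (0 : E n) 1) ≠ 0 :=
    infEn_pos hpos (isCompact_closedBall _ _)
  have hle : 1 ≤ infEn ((n : ℝ) - 2) (Metric.closedBall (0 : E n) 1) ^ (-1 / ((n : ℝ) - 2)) := by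
    have e : (-1 / ((n : ℝ) - 2)) = -(1 / ((n : ℝ) - 2)) := by ring
    rw [e, ENNReal.rpow_neg]
    rw [ENNReal.one_le_inv]
    calc infEn ((n : ℝ) - 2) (Metric.closedBall (0 : E n) 1) ^ (1 / ((n : ℝ) - 2))
        ≤ (1 : ℝ≥0∞) ^ (1 / ((n : ℝ) - 2)) := ENNReal.rpow_le_rpow h1 (by positivity)
      _ = 1 := ENNReal.one_rpow _
  have hfin : infEn ((n : ℝ) - 2) (Metric.closedBall (0 : E n) 1) ^ (-1 / ((n : ℝ) - 2)) ≠ ⊤ := by
    intro h
    rcases ENNReal.rpow_eq_top_iff.1 h with ⟨h, -⟩ | ⟨h, -⟩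
    · exact h0 h
    · exact absurd (h ▸ h1) (by simp)
  have := ENNReal.toReal_mono hfin hle
  simpa using this

theorem cap_ball_pos {n : ℕ} (hn : 3 ≤ n) {p : ℝ} (hp : p < (n : ℝ) - 2) :
    0 < capf p (Metric.closedBall (0 : E n) 1) := by
  have hn2 := b24_n hn
  have hpos : (0 : ℝ) < (n : ℝ) - 2 := by linarith
  rcases lt_trichotomy p 0 with hp0 | hp0 | hp0
  · -- negative exponents
    rw [capf_neg_def hp0]
    have hn0 : 0 < n := by omega
    have hdiam : 0 < Metric.diam (Metric.closedBall (0 : E n) 1) := by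
      have hb : bv (⟨0, hn0⟩ : Fin n) ∈ Metric.closedBall (0 : E n) 1 := by
        rw [Metric.mem_closedBall, dist_zero_right, bv]
        simp
      have h0 : (0 : E n) ∈ Metric.closedBall (0 : E n) 1 := by simp
      have := Metric.dist_le_diam_of_mem Metric.isBounded_closedBall hb h0
      rw [dist_zero_right, bv] at this
      have e : ‖(EuclideanSpace.single (⟨0, hn0⟩ : Fin n) (1 : ℝ) : E n)‖ = 1 := by simp
      rw [e] at this
      linarith
    have h1 := two_point (n := n) hp0 (isCompact_closedBall (0 : E n) 1)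
      ⟨0, by simp⟩
    have h2 := supEn_lt_top (n := n) hp0 (isCompact_closedBall (0 : E n) 1)
    have h3 : 0 < supEn p (Metric.closedBall (0 : E n) 1) := by
      refine lt_of_lt_of_le ?_ h1
      rw [ENNReal.ofReal_pos]
      positivity
    have hq : 0 < -1 / p := div_pos_of_neg_of_neg (by norm_num) hp0
    exact ENNReal.toReal_pos (ENNReal.rpow_pos h3 h2.ne).ne'
      (ENNReal.rpow_ne_top_of_nonneg hq.le h2.ne)
  · -- logarithmic capacity
    subst hp0
    rw [capf_zero_def]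
    have hfin : logEn (Metric.closedBall (0 : E n) 1) ≠ ⊤ := by
      obtain ⟨μ, hμ, hen⟩ := b24_exists hn
      set D : ℝ := Metric.diam (Metric.closedBall (0 : E n) 1) + 1 with hD
      have hD0 : 0 < D := by
        have : 0 ≤ Metric.diam (Metric.closedBall (0 : E n) 1) := Metric.diam_nonneg
        linarith
      have hkey : ∫⁻ x, ∫⁻ y, (if x = y then (⊤ : ℝ≥0∞) else
          ENNReal.ofReal (Real.log (D / dist x y))) ∂μ ∂μ ≤
          ∫⁻ x, ∫⁻ y, ENNReal.ofReal (D * 2 ^ ((n : ℝ) - 3)) *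
            (edist x y) ^ (-((n : ℝ) - 2)) ∂μ ∂μ := by
        refine b24_en_le hμ (f := fun x y => if x = y then (⊤ : ℝ≥0∞) else
          ENNReal.ofReal (Real.log (D / dist x y)))
          (g := fun x y => ENNReal.ofReal (D * 2 ^ ((n : ℝ) - 3)) *
            (edist x y) ^ (-((n : ℝ) - 2))) ?_
        intro x hx y hy
        by_cases hxy : x = y
        · subst hxy
          simp only [if_true, edist_self]
          rw [ENNReal.zero_rpow_of_neg (by linarith), ENNReal.mul_top]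
          rw [ne_eq, ENNReal.ofReal_eq_zero, not_le]
          positivity
        · simp only [if_neg hxy]
          have ht : 0 < dist x y := dist_pos.2 hxy
          have ht2 : dist x y ≤ 2 := by
            have := b24_edist_le hx hy
            rw [edist_dist] at this
            have h2 : ENNReal.ofReal (dist x y) ≤ ENNReal.ofReal 2 := by simpa using this
            exact (ENNReal.ofReal_le_ofReal_iff (by norm_num)).1 h2
          rw [edist_dist, ENNReal.ofReal_rpow_of_pos ht, ← ENNReal.ofReal_mul (by positivity)]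
          refine ENNReal.ofReal_le_ofReal ?_
          have h1 : Real.log (D / dist x y) ≤ D / dist x y := Real.log_le_self (by positivity)
          refine h1.trans ?_
          have h2 : dist x y ^ ((n : ℝ) - 3) ≤ 2 ^ ((n : ℝ) - 3) :=
            Real.rpow_le_rpow ht.le ht2 (by linarith)
          have h3 : (dist x y)⁻¹ = dist x y ^ ((n : ℝ) - 3) * dist x y ^ (-((n : ℝ) - 2)) := by
            rw [← Real.rpow_add ht, ← Real.rpow_neg_one]
            congr 1
            ring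
          calc D / dist x y = D * (dist x y ^ ((n : ℝ) - 3) * dist x y ^ (-((n : ℝ) - 2))) := by
                rw [← h3, div_eq_mul_inv]
            _ ≤ D * (2 ^ ((n : ℝ) - 3) * dist x y ^ (-((n : ℝ) - 2))) := by
                refine mul_le_mul_of_nonneg_left ?_ hD0.le
                exact mul_le_mul_of_nonneg_right h2 (by positivity)
            _ = D * 2 ^ ((n : ℝ) - 3) * dist x y ^ (-((n : ℝ) - 2)) := by ring
      have hle : logEn (Metric.closedBall (0 : E n) 1) ≤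
          ENNReal.ofReal (D * 2 ^ ((n : ℝ) - 3)) * 2 := by
        calc logEn (Metric.closedBall (0 : E n) 1) ≤ ∫⁻ x, ∫⁻ y, (if x = y then (⊤ : ℝ≥0∞) else
              ENNReal.ofReal (Real.log (D / dist x y))) ∂μ ∂μ := iInf₂_le μ hμ
          _ ≤ _ := hkey
          _ = ENNReal.ofReal (D * 2 ^ ((n : ℝ) - 3)) * en ((n : ℝ) - 2) μ := by
              unfold en
              rw [← lintegral_const_mul' _ _ ENNReal.ofReal_ne_top]
              refine lintegral_congr fun x => ?_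
              rw [lintegral_const_mul' _ _ ENNReal.ofReal_ne_top]
          _ ≤ _ := by gcongr
      refine ne_top_of_le_ne_top ?_ hle
      exact ENNReal.mul_ne_top ENNReal.ofReal_ne_top (by norm_num)
    rw [if_neg hfin]
    have : 0 ≤ Metric.diam (Metric.closedBall (0 : E n) 1) := Metric.diam_nonneg
    positivity
  · -- positive exponents
    rw [capf_pos_def hp0]
    have h0 : infEn p (Metric.closedBall (0 : E n) 1) ≠ 0 :=
      infEn_pos hp0 (isCompact_closedBall _ _)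
    have hfin : infEn p (Metric.closedBall (0 : E n) 1) ≠ ⊤ := by
      obtain ⟨μ, hμ, hen⟩ := b24_exists hn
      have hkey : en p μ ≤ ∫⁻ x, ∫⁻ y, (2 : ℝ≥0∞) ^ ((n : ℝ) - 2 - p) *
            (edist x y) ^ (-((n : ℝ) - 2)) ∂μ ∂μ := by
        refine b24_en_le hμ (f := fun x y => (edist x y) ^ (-p))
          (g := fun x y => (2 : ℝ≥0∞) ^ ((n : ℝ) - 2 - p) *
            (edist x y) ^ (-((n : ℝ) - 2))) ?_
        intro x hx y hy
        by_cases hxy : x = y
        · subst hxy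
          rw [edist_self, ENNReal.zero_rpow_of_neg (by linarith),
            ENNReal.zero_rpow_of_neg (by linarith), ENNReal.mul_top]
          exact (ENNReal.rpow_pos (by norm_num) (by norm_num)).ne'
        · have he0 : edist x y ≠ 0 := by simpa using hxy
          have het : edist x y ≠ ⊤ := edist_ne_top _ _
          have e : -p = ((n : ℝ) - 2 - p) + (-((n : ℝ) - 2)) := by ring
          rw [e, ENNReal.rpow_add _ _ he0 het]
          refine mul_le_mul_left ?_ _
          exact ENNReal.rpow_le_rpow (b24_edist_le hx hy) (by linarith)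
      have hle : infEn p (Metric.closedBall (0 : E n) 1) ≤
          (2 : ℝ≥0∞) ^ ((n : ℝ) - 2 - p) * 2 := by
        have hc : (2 : ℝ≥0∞) ^ ((n : ℝ) - 2 - p) ≠ ⊤ :=
          ENNReal.rpow_ne_top_of_nonneg (by linarith) (by norm_num)
        calc infEn p (Metric.closedBall (0 : E n) 1) ≤ en p μ := iInf₂_le μ hμ
          _ ≤ _ := hkey
          _ = (2 : ℝ≥0∞) ^ ((n : ℝ) - 2 - p) * en ((n : ℝ) - 2) μ := by
              unfold en
              rw [← lintegral_const_mul' _ _ hc]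
              refine lintegral_congr fun x => ?_
              rw [lintegral_const_mul' _ _ hc]
          _ ≤ _ := by gcongr
      refine ne_top_of_le_ne_top ?_ hle
      exact ENNReal.mul_ne_top
        (ENNReal.rpow_ne_top_of_nonneg (by linarith) (by norm_num)) (by norm_num)
    refine ENNReal.toReal_pos ?_ ?_
    · intro h
      rcases ENNReal.rpow_eq_zero_iff.1 h with ⟨h, -⟩ | ⟨h, -⟩
      · exact h0 h
      · exact hfin h
    · intro h
      rcases ENNReal.rpow_eq_top_iff.1 h with ⟨h, -⟩ | ⟨h, -⟩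
      · exact h0 h
      · exact hfin h

theorem cap_ge {n : ℕ} (hn : 3 ≤ n) {p : ℝ} (hp : p < (n : ℝ) - 2) {K : Set (E n)}
    (hK : IsCompact K) :
    capf ((n : ℝ) - 2) K * capf p (Metric.closedBall (0 : E n) 1) ≤ capf p K := by
  have hn2 := b24_n hn
  have hpos : (0 : ℝ) < (n : ℝ) - 2 := by linarith
  have hnn : 0 ≤ capf p K := by
    rcases lt_trichotomy p 0 with hp0 | hp0 | hp0
    · rw [capf_neg_def hp0]
      exact ENNReal.toReal_nonneg
    · subst hp0
      rw [capf_zero_def]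
      have : 0 ≤ Metric.diam K := Metric.diam_nonneg
      split_ifs
      · exact le_refl _
      · positivity
    · rw [capf_pos_def hp0]
      exact ENNReal.toReal_nonneg
  by_cases hI : infEn ((n : ℝ) - 2) K = ⊤
  · have e : capf ((n : ℝ) - 2) K = 0 := by
      rw [capf_pos_def hpos, hI, ENNReal.top_rpow_of_neg (div_neg_of_neg_of_pos (by norm_num) hpos)]
      rfl
    rw [e, zero_mul]
    exact hnn
  have hI0 : infEn ((n : ℝ) - 2) K ≠ 0 := infEn_pos hpos hK
  set M := infEn ((n : ℝ) - 2) K with hM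
  have hMpos : 0 < M.toReal := ENNReal.toReal_pos hI0 hI
  have hcapM : capf ((n : ℝ) - 2) K = M.toReal ^ (-1 / ((n : ℝ) - 2)) := by
    rw [capf_pos_def hpos, ← hM, ENNReal.toReal_rpow]
  have hMM : M.toReal ^ (-1 / ((n : ℝ) - 2)) * M.toReal ^ (1 / ((n : ℝ) - 2)) = 1 := by
    rw [← Real.rpow_add hMpos]
    have : -1 / ((n : ℝ) - 2) + 1 / ((n : ℝ) - 2) = 0 := by ring
    rw [this, Real.rpow_zero]
  rcases lt_trichotomy p 0 with hp0 | hp0 | hp0
  · rcases le_or_gt p (-2) with hp2 | hp2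
    · have h := cmp_le_neg_two hn hp2 hK hI
      rw [hcapM]
      calc M.toReal ^ (-1 / ((n : ℝ) - 2)) * capf p (Metric.closedBall (0 : E n) 1)
          ≤ M.toReal ^ (-1 / ((n : ℝ) - 2)) * (M.toReal ^ (1 / ((n : ℝ) - 2)) * capf p K) :=
            mul_le_mul_of_nonneg_left h (by positivity)
        _ = capf p K := by rw [← mul_assoc, hMM, one_mul]
    · have h := cmp_neg hn hp2 hp0 hK hI
      have hq : 0 < -1 / p := div_pos_of_neg_of_neg (by norm_num) hp0
      have hK' := supEn_lt_top (n := n) hp0 hK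
      have hle : supEn p (Metric.closedBall (0 : E n) 1) ^ (-1 / p) ≤
          M ^ (1 / ((n : ℝ) - 2)) * supEn p K ^ (-1 / p) := by
        calc supEn p (Metric.closedBall (0 : E n) 1) ^ (-1 / p)
            ≤ (M ^ (-p / ((n : ℝ) - 2)) * supEn p K) ^ (-1 / p) :=
              ENNReal.rpow_le_rpow h hq.le
          _ = _ := by
              rw [ENNReal.mul_rpow_of_nonneg _ _ hq.le, ← ENNReal.rpow_mul]
              congr 2
              have hpne : p ≠ 0 := hp0.ne
              have hnne : (n : ℝ) - 2 ≠ 0 := hpos.ne'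
              field_simp
      have hfin : M ^ (1 / ((n : ℝ) - 2)) * supEn p K ^ (-1 / p) ≠ ⊤ :=
        ENNReal.mul_ne_top (ENNReal.rpow_ne_top_of_nonneg (by positivity) hI)
          (ENNReal.rpow_ne_top_of_nonneg hq.le hK'.ne)
      have hr := ENNReal.toReal_mono hfin hle
      rw [ENNReal.toReal_mul, ← ENNReal.toReal_rpow] at hr
      rw [hcapM, capf_neg_def hp0, capf_neg_def hp0]
      rw [← ENNReal.toReal_rpow, ← ENNReal.toReal_rpow] at *
      calc M.toReal ^ (-1 / ((n : ℝ) - 2)) *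
            (supEn p (Metric.closedBall (0 : E n) 1)).toReal ^ (-1 / p)
          ≤ M.toReal ^ (-1 / ((n : ℝ) - 2)) * (M.toReal ^ (1 / ((n : ℝ) - 2)) *
              (supEn p K).toReal ^ (-1 / p)) :=
            mul_le_mul_of_nonneg_left hr (by positivity)
        _ = (supEn p K).toReal ^ (-1 / p) := by rw [← mul_assoc, hMM, one_mul]
  · subst hp0
    have h := cmp_zero hn hK hI
    rw [hcapM, mul_comm]
    exact h
  · have h := cmp_pos hn hp0 hp hK hI
    have hK0 : infEn p K ≠ 0 := infEn_pos hp0 hK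
    have hq : 0 < 1 / p := by positivity
    have e1 : (-1 / p) = -(1 / p) := by ring
    have hle : M ^ (-1 / ((n : ℝ) - 2)) * infEn p (Metric.closedBall (0 : E n) 1) ^ (-1 / p) ≤
        infEn p K ^ (-1 / p) := by
      have h1 : infEn p K ^ (1 / p) ≤
          M ^ (1 / ((n : ℝ) - 2)) * infEn p (Metric.closedBall (0 : E n) 1) ^ (1 / p) := by
        calc infEn p K ^ (1 / p) ≤
            (M ^ (p / ((n : ℝ) - 2)) * infEn p (Metric.closedBall (0 : E n) 1)) ^ (1 / p) :=
              ENNReal.rpow_le_rpow h hq.le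
          _ = _ := by
              rw [ENNReal.mul_rpow_of_nonneg _ _ hq.le, ← ENNReal.rpow_mul]
              congr 2
              field_simp
      have h2 := ENNReal.inv_le_inv.2 h1
      have hM0 : M ^ (1 / ((n : ℝ) - 2)) ≠ 0 := (ENNReal.rpow_pos (pos_iff_ne_zero.2 hI0) hI).ne'
      have hMt : M ^ (1 / ((n : ℝ) - 2)) ≠ ⊤ := ENNReal.rpow_ne_top_of_nonneg (by positivity) hI
      rw [ENNReal.mul_inv (Or.inl hM0) (Or.inl hMt)] at h2
      rw [e1, ENNReal.rpow_neg, ENNReal.rpow_neg]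
      have e2 : (-1 / ((n : ℝ) - 2)) = -(1 / ((n : ℝ) - 2)) := by ring
      rw [e2, ENNReal.rpow_neg]
      exact h2
    have hfin : infEn p K ^ (-1 / p) ≠ ⊤ := by
      intro h'
      rcases ENNReal.rpow_eq_top_iff.1 h' with ⟨h', -⟩ | ⟨h', h''⟩
      · exact hK0 h'
      · have : -1 / p < 0 := div_neg_of_neg_of_pos (by norm_num) hp0
        linarith
    have hr := ENNReal.toReal_mono hfin hle
    rw [ENNReal.toReal_mul] at hr
    rw [capf_pos_def hpos, capf_pos_def hp0, capf_pos_def hp0, ← hM]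
    exact hr

theorem ratio_B {n : ℕ} (hn : 3 ≤ n) {p : ℝ} (hp : p < (n : ℝ) - 2) {K : Set (E n)}
    (hK : IsCompact K) (hpos : 0 < capf p K) :
    capf ((n : ℝ) - 2) K / capf p K ≤
      capf ((n : ℝ) - 2) (Metric.closedBall (0 : E n) 1) /
        capf p (Metric.closedBall (0 : E n) 1) := by
  have h1 := cap_ge hn hp hK
  have h2 := cap_ball_pos hn hp
  have h3 := cap_ball_ge hn
  rw [div_le_div_iff₀ hpos h2]
  calc capf ((n : ℝ) - 2) K * capf p (Metric.closedBall (0 : E n) 1) ≤ capf p K := h1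
    _ = 1 * capf p K := (one_mul _).symm
    _ ≤ capf ((n : ℝ) - 2) (Metric.closedBall (0 : E n) 1) * capf p K :=
        mul_le_mul_of_nonneg_right h3 hpos.le

end Pool.Agent.Lib.MP_6cd19d_an.ND
end
end
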