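import Pool.Agent.Lib.MP_6cd19d_an.ND.Defs

/-!
# P8: the minimal energies of the closed neighbourhoods converge

Let `I_δ = infEn s (cthickening δ K)`; it is antitone in `δ` and `≤ infEn s K`. Claim: `I_δ → infEn s K`
as `δ → 0+`. Let `L = sup_{δ>0} I_δ = lim`; assume `L < ⊤`. For `j : ℕ` take
`μ_j` with `PK (cthickening (1/(j+1)) K) μ_j` and `en s μ_j ≤ L + 1/(j+1)`. All live on the compact set
`K' = cthickening 1 K`; by compactness of `ProbabilityMeasure K'` the sequence has a limit `μ` along
an ultrafilter. Testing with `min (infEdist x K) 1` gives `μ Kᶜ = 0`, testing with `min (k, m)`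
gives `en s μ ≤ L`.
-/

set_option autoImplicit false

open MeasureTheory Set Filter Topology
open scoped ENNReal NNReal

namespace Pool.Agent.Lib.MP_6cd19d_an.ND

private theorem p8_exists_lift {n : ℕ} {A : Set (E n)} (hA : MeasurableSet A)
    (μ : Measure (E n)) (h : PK A μ) :
    ∃ ν : ProbabilityMeasure A, (ν : Measure A).map Subtype.val = μ := by
  have hmap : (μ.comap (Subtype.val : A → E n)).map Subtype.val = μ := by
    rw [map_comap_subtype_coe hA, Measure.restrict_eq_self_of_ae_mem]
    rw [ae_iff]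
    exact h.2
  have hprob : IsProbabilityMeasure (μ.comap (Subtype.val : A → E n)) := by
    constructor
    have h1 : ((μ.comap (Subtype.val : A → E n)).map Subtype.val) univ = 1 := by
      rw [hmap]; exact h.1
    rwa [Measure.map_apply measurable_subtype_coe MeasurableSet.univ, preimage_univ] at h1
  exact ⟨⟨_, hprob⟩, hmap⟩

private theorem p8_en_map {n : ℕ} {s : ℝ} {A : Set (E n)} (hA : MeasurableSet A)
    (ν : Measure A) [SFinite ν] :
    en s (ν.map Subtype.val) = ∫⁻ p : A × A, (edist p.1 p.2) ^ (-s) ∂(ν.prod ν) := by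
  have hm : Measurable fun p : A × A => (edist p.1 p.2) ^ (-s) :=
    (measurable_edist).pow_const _
  rw [lintegral_prod _ hm.aemeasurable]
  unfold en
  rw [(MeasurableEmbedding.subtype_coe hA).lintegral_map]
  refine lintegral_congr fun x => ?_
  rw [(MeasurableEmbedding.subtype_coe hA).lintegral_map]
  rfl

private theorem p8_cont {X : Type*} [PseudoEMetricSpace X] (s : ℝ) :
    Continuous fun p : X × X => (edist p.1 p.2) ^ (-s) :=
  ENNReal.continuous_rpow_const.comp continuous_edist

/-- truncation of a continuous function, as a bounded continuous function -/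
private theorem p8_trunc {X : Type*} [TopologicalSpace X] [CompactSpace X] (k : X → ℝ≥0∞)
    (hk : Continuous k) (m : ℝ≥0) :
    ∃ f : BoundedContinuousFunction X ℝ≥0, ∀ x, (f x : ℝ≥0∞) = min (k x) m := by
  have hcont : Continuous fun x => (min (k x) m).toNNReal := by
    apply ENNReal.continuousOn_toNNReal.comp_continuous (hk.min continuous_const)
    intro x
    exact ne_top_of_le_ne_top ENNReal.coe_ne_top (min_le_right _ _)
  refine ⟨BoundedContinuousFunction.mkOfCompact ⟨_, hcont⟩, fun x => ?_⟩
  change (((min (k x) (m : ℝ≥0∞)).toNNReal : ℝ≥0) : ℝ≥0∞) = min (k x) m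
  exact ENNReal.coe_toNNReal (ne_top_of_le_ne_top ENNReal.coe_ne_top (min_le_right _ _))

private theorem p8_tendsto {X : Type*} [TopologicalSpace X] [CompactSpace X] [MeasurableSpace X]
    [OpensMeasurableSpace X] {γ : Type*} {F : Filter γ}
    {νs : γ → ProbabilityMeasure X} {ν : ProbabilityMeasure X} (h : Tendsto νs F (𝓝 ν))
    (k : X → ℝ≥0∞) (hk : Continuous k) (m : ℝ≥0) :
    Tendsto (fun i => ∫⁻ x, min (k x) m ∂(νs i : Measure X)) F
      (𝓝 (∫⁻ x, min (k x) m ∂(ν : Measure X))) := by
  obtain ⟨f, hf⟩ := p8_trunc k hk m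
  have h1 := ProbabilityMeasure.tendsto_iff_forall_lintegral_tendsto.mp h f
  simpa only [hf] using h1

/-- lower semicontinuity, along a filter -/
private theorem p8_lsc {X : Type*} [TopologicalSpace X] [CompactSpace X] [MeasurableSpace X]
    [BorelSpace X] {γ : Type*} {F : Filter γ} [F.NeBot]
    {νs : γ → ProbabilityMeasure X} {ν : ProbabilityMeasure X} (h : Tendsto νs F (𝓝 ν))
    (k : X → ℝ≥0∞) (hk : Continuous k) (b : γ → ℝ≥0∞) (L : ℝ≥0∞) (hb : Tendsto b F (𝓝 L))
    (hle : ∀ i, ∫⁻ x, k x ∂(νs i : Measure X) ≤ b i) :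
    ∫⁻ x, k x ∂(ν : Measure X) ≤ L := by
  have h1 : ∀ m : ℕ, ∫⁻ x, min (k x) ((m : ℝ≥0) : ℝ≥0∞) ∂(ν : Measure X) ≤ L := by
    intro m
    refine le_of_tendsto_of_tendsto' (p8_tendsto h k hk m) hb fun i => ?_
    exact (lintegral_mono fun x => min_le_left _ _).trans (hle i)
  have h2 : ∫⁻ x, k x ∂(ν : Measure X) =
      ⨆ m : ℕ, ∫⁻ x, min (k x) ((m : ℝ≥0) : ℝ≥0∞) ∂(ν : Measure X) := by
    rw [← lintegral_iSup]
    · refine lintegral_congr fun x => ?_
      apply le_antisymm
      · by_cases hx : k x = ⊤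
        · rw [hx]
          have : ∀ m : ℕ, min (⊤ : ℝ≥0∞) ((m : ℝ≥0) : ℝ≥0∞) = (m : ℝ≥0∞) := by
            intro m; simp
          simp only [this]
          rw [ENNReal.iSup_natCast]
        · obtain ⟨m, hm⟩ := ENNReal.exists_nat_gt hx
          refine le_iSup_of_le m ?_
          rw [min_eq_left]
          simpa using hm.le
      · exact iSup_le fun m => min_le_left _ _
    · intro m
      exact (hk.measurable.min measurable_const)
    · intro m m' hmm x
      exact min_le_min le_rfl (ENNReal.coe_le_coe.mpr (Nat.cast_le.mpr hmm))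
  rw [h2]
  exact iSup_le h1

theorem infEn_cthickening_tendsto {n : ℕ} {s : ℝ} (hs : 0 < s) {K : Set (E n)}
    (hK : IsCompact K) :
    Tendsto (fun δ : ℝ => infEn s (Metric.cthickening δ K)) (𝓝[>] 0) (𝓝 (infEn s K)) := by
  have hanti : Antitone fun δ : ℝ => infEn s (Metric.cthickening δ K) := by
    intro a b hab
    unfold infEn
    refine le_iInf₂ fun μ hμ => ?_
    refine iInf₂_le μ ⟨hμ.1, ?_⟩
    refine measure_mono_null ?_ hμ.2
    exact compl_subset_compl.mpr (Metric.cthickening_mono hab K)
  have hle : ∀ δ : ℝ, infEn s (Metric.cthickening δ K) ≤ infEn s K := by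
    intro δ
    unfold infEn
    refine le_iInf₂ fun μ hμ => ?_
    refine iInf₂_le μ ⟨hμ.1, ?_⟩
    refine measure_mono_null ?_ hμ.2
    exact compl_subset_compl.mpr (Metric.self_subset_cthickening K)
  have hlim := hanti.tendsto_nhdsGT 0
  set L := sSup ((fun δ : ℝ => infEn s (Metric.cthickening δ K)) '' Ioi 0) with hL
  have hLle : L ≤ infEn s K := by
    apply sSup_le
    rintro _ ⟨δ, -, rfl⟩
    exact hle δ
  suffices h : infEn s K ≤ L by
    rwa [le_antisymm hLle h] at hlim
  by_cases hLtop : L = ⊤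
  · rw [hLtop]; exact le_top
  -- the approximate minimisers
  have hδ : ∀ j : ℕ, (0 : ℝ) < 1 / ((j : ℝ) + 1) := fun j => Nat.one_div_pos_of_nat
  have hex : ∀ j : ℕ, ∃ μ : Measure (E n), PK (Metric.cthickening (1 / ((j : ℝ) + 1)) K) μ ∧
      en s μ ≤ L + ENNReal.ofReal (1 / ((j : ℝ) + 1)) := by
    intro j
    have h1 : infEn s (Metric.cthickening (1 / ((j : ℝ) + 1)) K) ≤ L :=
      le_sSup ⟨_, hδ j, rfl⟩
    have h2 : infEn s (Metric.cthickening (1 / ((j : ℝ) + 1)) K) <
        L + ENNReal.ofReal (1 / ((j : ℝ) + 1)) := by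
      refine lt_of_le_of_lt h1 (ENNReal.lt_add_right hLtop ?_)
      simpa using hδ j
    unfold infEn at h2
    simp only [iInf_lt_iff] at h2
    obtain ⟨μ, hμ, h3⟩ := h2
    exact ⟨μ, hμ, h3.le⟩
  choose μs hμs hen using hex
  have hK' : IsCompact (Metric.cthickening 1 K) := hK.cthickening
  have hcomp : CompactSpace (Metric.cthickening 1 K) := isCompact_iff_compactSpace.mp hK'
  have hA : MeasurableSet (Metric.cthickening 1 K) := hK'.measurableSet
  have hex2 : ∀ j : ℕ, ∃ ν : ProbabilityMeasure (Metric.cthickening 1 K),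
      (ν : Measure (Metric.cthickening 1 K)).map Subtype.val = μs j := by
    intro j
    refine p8_exists_lift hA _ ⟨(hμs j).1, ?_⟩
    refine measure_mono_null ?_ (hμs j).2
    refine compl_subset_compl.mpr (Metric.cthickening_mono ?_ K)
    rw [div_le_one (by positivity)]
    linarith [(Nat.cast_nonneg j : (0 : ℝ) ≤ j)]
  choose νs hνs using hex2
  let U : Ultrafilter ℕ := Filter.hyperfilter ℕ
  have hUat : (U : Filter ℕ) ≤ Filter.atTop := by
    rw [← Nat.cofinite_eq_atTop]
    exact Filter.hyperfilter_le_cofinite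
  obtain ⟨ν, -, hν⟩ := isCompact_univ.ultrafilter_le_nhds (U.map νs) (by simp)
  have hν' : Tendsto νs (U : Filter ℕ) (𝓝 ν) := hν
  have hb0 : Tendsto (fun j : ℕ => ENNReal.ofReal (1 / ((j : ℝ) + 1))) (U : Filter ℕ) (𝓝 0) := by
    have h1 : Tendsto (fun j : ℕ => ENNReal.ofReal (1 / ((j : ℝ) + 1))) atTop
        (𝓝 (ENNReal.ofReal 0)) :=
      ENNReal.tendsto_ofReal tendsto_one_div_add_atTop_nhds_zero_nat
    rw [ENNReal.ofReal_zero] at h1
    exact h1.mono_left hUat
  have hb : Tendsto (fun j : ℕ => L + ENNReal.ofReal (1 / ((j : ℝ) + 1))) (U : Filter ℕ)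
      (𝓝 L) := by
    have := (tendsto_const_nhds (x := L)).add hb0
    rwa [add_zero] at this
  -- energy of the limit
  have hprodt : Tendsto (fun j => (νs j).prod (νs j)) (U : Filter ℕ) (𝓝 (ν.prod ν)) :=
    (ProbabilityMeasure.continuous_prod.tendsto (ν, ν)).comp (hν'.prodMk_nhds hν')
  have hE := p8_lsc hprodt (fun p => (edist p.1 p.2) ^ (-s)) (p8_cont s) _ L hb (by
    intro j
    have h1 := p8_en_map (s := s) hA (νs j : Measure (Metric.cthickening 1 K))
    rw [hνs j] at h1
    have h2 := hen j
    rw [h1] at h2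
    exact h2)
  have hE2 : en s ((ν : Measure (Metric.cthickening 1 K)).map Subtype.val) ≤ L := by
    rw [p8_en_map hA]
    exact hE
  -- the limit lives on `K`
  have hPK : PK K ((ν : Measure (Metric.cthickening 1 K)).map Subtype.val) := by
    constructor
    · rw [Measure.map_apply measurable_subtype_coe MeasurableSet.univ, preimage_univ]
      exact measure_univ
    · have hcont : Continuous fun x : Metric.cthickening 1 K =>
          Metric.infEDist (x : E n) K :=
        Metric.continuous_infEDist.comp continuous_subtype_val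
      have h1 := p8_tendsto hν' (fun x => Metric.infEDist (x : E n) K) hcont 1
      have h2 : ∫⁻ x, min (Metric.infEDist (x : E n) K) ((1 : ℝ≥0) : ℝ≥0∞)
          ∂(ν : Measure (Metric.cthickening 1 K)) ≤ 0 := by
        refine le_of_tendsto_of_tendsto' h1 hb0 fun j => ?_
        have h3 : ∀ᵐ x : Metric.cthickening 1 K ∂(νs j : Measure (Metric.cthickening 1 K)),
            (x : E n) ∈ Metric.cthickening (1 / ((j : ℝ) + 1)) K := by
          have h4 : ∀ᵐ y ∂((νs j : Measure (Metric.cthickening 1 K)).map Subtype.val),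
              y ∈ Metric.cthickening (1 / ((j : ℝ) + 1)) K := by
            rw [hνs j, ae_iff]
            exact (hμs j).2
          exact ae_of_ae_map measurable_subtype_coe.aemeasurable h4
        calc ∫⁻ x, min (Metric.infEDist (x : E n) K) ((1 : ℝ≥0) : ℝ≥0∞)
              ∂(νs j : Measure (Metric.cthickening 1 K))
            ≤ ∫⁻ _, ENNReal.ofReal (1 / ((j : ℝ) + 1))
              ∂(νs j : Measure (Metric.cthickening 1 K)) := by
              refine lintegral_mono_ae (h3.mono fun x hx => ?_)
              exact (min_le_left _ _).trans (Metric.mem_cthickening_iff.mp hx)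
          _ = ENNReal.ofReal (1 / ((j : ℝ) + 1)) := by
              rw [lintegral_const, measure_univ, mul_one]
      have h5 : ∫⁻ x, min (Metric.infEDist (x : E n) K) ((1 : ℝ≥0) : ℝ≥0∞)
          ∂(ν : Measure (Metric.cthickening 1 K)) = 0 := le_antisymm h2 bot_le
      rw [lintegral_eq_zero_iff (hcont.measurable.min measurable_const)] at h5
      rw [Measure.map_apply measurable_subtype_coe hK.measurableSet.compl]
      have h6 : ∀ᵐ x : Metric.cthickening 1 K ∂(ν : Measure (Metric.cthickening 1 K)),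
          (x : E n) ∈ K := by
        filter_upwards [h5] with x hx
        have h7 : Metric.infEDist (x : E n) K = 0 := by
          have h8 : min (Metric.infEDist (x : E n) K) ((1 : ℝ≥0) : ℝ≥0∞) = 0 := hx
          rcases min_choice (Metric.infEDist (x : E n) K) ((1 : ℝ≥0) : ℝ≥0∞) with h9 | h9
          · rwa [h9] at h8
          · rw [h9] at h8; simp at h8
        have h10 := Metric.mem_closure_iff_infEDist_zero.mpr h7
        rwa [hK.isClosed.closure_eq] at h10
      rw [ae_iff] at h6
      exact h6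
  unfold infEn
  exact (iInf₂_le _ hPK).trans hE2

end Pool.Agent.Lib.MP_6cd19d_an.ND
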